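import Pool.Agent.H6.CX.Defs

/-! Translations. -/

open MeasureTheory Finset

namespace H6.CX

open H6.CM H6.CB H6.CL H6.CT

/-- the translation of all positions -/
def tc (n k : ℕ) (y : E3) : Cfg n k := (fun _ => y, fun _ => y)

/-- translated wave function -/
def sh {q n k : ℕ} (y : E3) (ψ : (Fin n → Fin q) → Cfg n k → ℂ) :
    (Fin n → Fin q) → Cfg n k → ℂ := fun σ p => ψ σ (p + tc n k y)

variable {q n k : ℕ}

theorem sh_int {F : Type} [NormedAddCommGroup F] [NormedSpace ℝ F] (f : Cfg n k → F) (y : E3) :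
    ∫ p, f (p + tc n k y) = ∫ p, f p :=
  integral_add_right_eq_self f (tc n k y)

theorem sh_St {Λ : Set E3} {ψ : (Fin n → Fin q) → Cfg n k → ℂ} (h : St q n k Λ ψ) (y : E3) :
    St q n k {v | v + y ∈ Λ} (sh y ψ) where
  smooth := fun σ => (h.smooth σ).comp (contDiff_id.add contDiff_const)
  cpt := fun σ => (h.cpt σ).comp_homeomorph (Homeomorph.addRight (tc n k y))
  supp := by
    intro σ p hp
    have h1 : tsupport (sh y ψ σ) = (Homeomorph.addRight (tc n k y)) ⁻¹' tsupport (ψ σ) :=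
      tsupport_comp_eq_preimage (ψ σ) (Homeomorph.addRight (tc n k y))
    rw [h1] at hp
    exact h.supp σ _ hp
  anti := by
    intro π σ p
    exact h.anti π σ (p + tc n k y)

theorem sh_mass (ψ : (Fin n → Fin q) → Cfg n k → ℂ) (y : E3) : mass (sh y ψ) = mass ψ := by
  unfold mass
  exact sum_congr rfl fun σ _ => sh_int (fun p => ‖ψ σ p‖ ^ 2) y

theorem g3_sh (h : E3 → ℂ) (x y : E3) : g3 (fun v => h (v + y)) x = g3 h (x + y) := by
  unfold g3
  simp only [fderiv_comp_add_right]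

theorem ge_sh (F : Cfg n k → ℂ) (y : E3) (a : Fin n) (p : Cfg n k) :
    ge (fun p => F (p + tc n k y)) a p = ge F a (p + tc n k y) := by
  unfold ge
  have h1 : (fun v => F ((Function.update p.1 a v, p.2) + tc n k y)) =
      fun v => (fun v => F (Function.update (p + tc n k y).1 a v, (p + tc n k y).2)) (v + y) := by
    funext v
    show F _ = F _
    congr 1
    ext b
    · by_cases hb : b = a
      · subst hb; simp [tc]
      · simp [tc, hb]
    · simp [tc]
  rw [h1]
  exact g3_sh (fun v => F (Function.update (p + tc n k y).1 a v, (p + tc n k y).2)) _ y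

theorem gn_sh (F : Cfg n k → ℂ) (y : E3) (j : Fin k) (p : Cfg n k) :
    gn (fun p => F (p + tc n k y)) j p = gn F j (p + tc n k y) := by
  unfold gn
  have h1 : (fun v => F ((p.1, Function.update p.2 j v) + tc n k y)) =
      fun v => (fun v => F ((p + tc n k y).1, Function.update (p + tc n k y).2 j v)) (v + y) := by
    funext v
    show F _ = F _
    congr 1
    ext b
    · simp [tc]
    · by_cases hb : b = j
      · subst hb; simp [tc]
      · simp [tc, hb]
  rw [h1]
  exact g3_sh (fun v => F ((p + tc n k y).1, Function.update (p + tc n k y).2 j v)) _ y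

theorem sh_kE (ψ : (Fin n → Fin q) → Cfg n k → ℂ) (y : E3) (a : Fin n) :
    kE (sh y ψ) a = kE ψ a := by
  unfold kE
  refine sum_congr rfl fun σ _ => ?_
  have h1 : ∀ p, ge (sh y ψ σ) a p = ge (ψ σ) a (p + tc n k y) := fun p => ge_sh (ψ σ) y a p
  simp only [h1]
  exact sh_int (fun p => ge (ψ σ) a p) y

theorem sh_kN (ψ : (Fin n → Fin q) → Cfg n k → ℂ) (y : E3) (j : Fin k) :
    kN (sh y ψ) j = kN ψ j := by
  unfold kN
  refine sum_congr rfl fun σ _ => ?_
  have h1 : ∀ p, gn (sh y ψ σ) j p = gn (ψ σ) j (p + tc n k y) := fun p => gn_sh (ψ σ) y j p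
  simp only [h1]
  exact sh_int (fun p => gn (ψ σ) j p) y

theorem sh_mean (ψ : (Fin n → Fin q) → Cfg n k → ℂ) (y : E3) (F : Cfg n k → ℝ) :
    mean (sh y ψ) (fun p => F (p + tc n k y)) = mean ψ F := by
  unfold mean
  exact sum_congr rfl fun σ _ => sh_int (fun p => F p * ‖ψ σ p‖ ^ 2) y

theorem sh_V (z : Fin k → ℝ) (y : E3) (p : Cfg n k) : V z (p + tc n k y) = V z p := by
  unfold V
  simp [tc]

theorem sh_phi (z : Fin k → ℝ) (y : E3) (p : Cfg n k) (x : E3) :
    phi z (p + tc n k y) (x + y) = phi z p x := by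
  unfold phi
  simp [tc]

theorem sh_energy (z κ : Fin k → ℝ) (ψ : (Fin n → Fin q) → Cfg n k → ℂ) (y : E3) :
    energy z κ (sh y ψ) = energy z κ ψ := by
  unfold energy
  have h1 : mean (sh y ψ) (V z) = mean ψ (V z) := by
    rw [← sh_mean ψ y (V z)]
    simp only [sh_V]
  simp only [sh_kE, sh_kN, h1]

theorem sh_ip (φ ψ : (Fin n → Fin q) → Cfg n k → ℂ) (y : E3) :
    ip (sh y φ) (sh y ψ) = ip φ ψ := by
  unfold ip
  exact sum_congr rfl fun σ _ => sh_int (fun p => (starRingEnd ℂ) (φ σ p) * ψ σ p) y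

theorem sh_FE {ι : Type} [Fintype ι] (T : ℝ) (z κ : Fin k → ℝ)
    (Ψ : ι → (Fin n → Fin q) → Cfg n k → ℂ) (y : E3) :
    FE T z κ (fun i => sh y (Ψ i)) = FE T z κ Ψ := by
  unfold FE
  simp only [sh_energy, sh_mass]

theorem sh_Eqs {ι : Type} [Fintype ι] {T δ : ℝ} {Λ : Set E3} {z κ : Fin k → ℝ}
    {Ψ : ι → (Fin n → Fin q) → Cfg n k → ℂ} (h : Eqs T δ Λ z κ Ψ) (y : E3) :
    Eqs T δ {v | v + y ∈ Λ} z κ (fun i => sh y (Ψ i)) where
  st := fun i => sh_St (h.st i) y
  ort := by
    intro i j hij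
    show ip (sh y (Ψ i)) (sh y (Ψ j)) = 0
    rw [sh_ip]
    exact h.ort i j hij
  one := by
    simp only [sh_mass]
    exact h.one
  min := by
    intro m Φ hΦ hO h1
    rw [sh_FE, ← sh_FE T z κ Φ (-y)]
    refine h.min m _ (fun i => ?_) ?_ ?_
    · have h2 := sh_St (hΦ i) (-y)
      have h3 : {v : E3 | v + -y ∈ {v : E3 | v + y ∈ Λ}} = Λ := by
        ext v
        simp
      rwa [h3] at h2
    · intro i j hij
      show ip (sh (-y) (Φ i)) (sh (-y) (Φ j)) = 0
      rw [sh_ip]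
      exact hO i j hij
    · simp only [sh_mass]
      exact h1

theorem sh_phiM {ι : Type} [Fintype ι] (z : Fin k → ℝ)
    (Ψ : ι → (Fin n → Fin q) → Cfg n k → ℂ) (x y : E3) :
    mM (fun i => sh y (Ψ i)) (fun p => phi z p (x - y)) = mM Ψ (fun p => phi z p x) := by
  unfold mM
  refine sum_congr rfl fun i _ => ?_
  rw [← sh_mean (Ψ i) y (fun p => phi z p x)]
  congr 1
  funext p
  have := sh_phi z y p (x - y)
  rw [sub_add_cancel] at this
  exact this.symm

end H6.CX
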