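import Pool.Agent.H6.CX.Plu
import Pool.Agent.H6.CX.Trl
import Pool.Agent.H6.CT.SmallR
import Pool.Agent.H6.CB.RefW
import Pool.Agent.H6.CM.BumpEx

/-! The theorem for all domains which are star-shaped with respect to a ball of comparable size
or thick at every point. -/

open MeasureTheory Finset

namespace H6.CX

open H6.CM H6.CB H6.CL H6.CT

/-- maximal separated sets -/
theorem max_sep (S : Set E3) (hb : Bornology.IsBounded S) : ∃ W : Finset E3,
    (∀ w ∈ W, w ∈ S) ∧ (∀ w ∈ W, ∀ w' ∈ W, w ≠ w' → 4 ≤ dist w w') ∧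
    ∀ u ∈ S, ∃ w ∈ W, ‖u - w‖ < 4 := by
  classical
  obtain ⟨t, ht, hcov⟩ := Metric.totallyBounded_iff.1 (hb.isCompact_closure.totallyBounded.subset subset_closure) 2 (by norm_num)
  set V : Finset E3 → Prop := fun W => (∀ w ∈ W, w ∈ S) ∧
    ∀ w ∈ W, ∀ w' ∈ W, w ≠ w' → 4 ≤ dist w w' with hV
  have hbd : ∀ W, V W → W.card ≤ ht.toFinset.card := by
    intro W hW
    have h1 : ∀ w : E3, w ∈ W → ∃ y ∈ t, dist w y < 2 := by
      intro w hw
      have := hcov (hW.1 w hw)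
      simp only [Set.mem_iUnion, Metric.mem_ball, exists_prop] at this
      exact this
    choose! f hf1 hf2 using h1
    refine Finset.card_le_card_of_injOn f (fun w hw => by simpa using hf1 w hw) ?_
    intro w hw w' hw' he
    by_contra hne
    have h2 := hW.2 w hw w' hw' hne
    have h3 : dist w w' ≤ dist w (f w) + dist (f w) w' := dist_triangle _ _ _
    rw [he, dist_comm (f w') w'] at h3
    have h4 := hf2 w hw
    have h5 := hf2 w' hw'
    rw [he] at h4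
    linarith
  have hne : {m : ℕ | ∃ W, V W ∧ W.card = m}.Nonempty := ⟨0, ∅, by simp [hV], rfl⟩
  have hbdd : BddAbove {m : ℕ | ∃ W, V W ∧ W.card = m} := by
    refine ⟨ht.toFinset.card, ?_⟩
    rintro m ⟨W, hW, rfl⟩
    exact hbd W hW
  obtain ⟨W, hW, hcard⟩ := Nat.sSup_mem hne hbdd
  refine ⟨W, hW.1, hW.2, fun u hu => ?_⟩
  by_contra hcon
  push Not at hcon
  have huW : u ∉ W := by
    intro h
    have := hcon u h
    rw [sub_self, norm_zero] at this
    linarith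
  have h1 : V (insert u W) := by
    refine ⟨?_, ?_⟩
    · intro w hw
      rcases Finset.mem_insert.1 hw with rfl | hw
      · exact hu
      · exact hW.1 w hw
    · intro w hw w' hw' hne
      rcases Finset.mem_insert.1 hw with hw2 | hw2
      · rcases Finset.mem_insert.1 hw' with hw3 | hw3
        · exact absurd (hw2.trans hw3.symm) hne
        · rw [hw2, dist_eq_norm]; exact hcon w' hw3
      · rcases Finset.mem_insert.1 hw' with hw3 | hw3
        · rw [hw3, dist_comm, dist_eq_norm]; exact hcon w hw2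
        · exact hW.2 w hw2 w' hw3 hne
  have h2 := le_csSup hbdd ⟨insert u W, h1, rfl⟩
  rw [Finset.card_insert_of_notMem huW, hcard] at h2
  omega

private theorem phi_zero {n k : ℕ} (h : n + k = 0) (z : Fin k → ℝ) (p : Cfg n k) (x : E3) :
    phi z p x = 0 := by
  obtain ⟨rfl, rfl⟩ : n = 0 ∧ k = 0 := by omega
  simp [phi]

theorem thick (q : ℕ) (T zm zp κm κp ρ1 ρ2 D : ℝ) (hT : 0 ≤ T) (hzm : 0 < zm)
    (hκm : 0 < κm) (hρ1 : 0 < ρ1) :
    ∃ C : ℝ, 0 ≤ C ∧ ∀ (Λ : Set E3) (n k : ℕ) (z κ : Fin k → ℝ), IsOpen Λ →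
      Bornology.IsBounded Λ →
      ρ1 * (volume Λ).toReal ≤ (n : ℝ) + k → (n : ℝ) + k ≤ ρ2 * (volume Λ).toReal →
      (∀ x ∈ Λ, ∃ u, ‖x - u‖ ≤ D ∧ Metric.closedBall u 48 ⊆ Λ) →
      (∀ j, zm ≤ z j ∧ z j ≤ zp) → (∀ j, κm ≤ κ j ∧ κ j ≤ κp) → ∑ j, z j = n →
      ∀ (m : ℕ) (Ψ : Fin m → (Fin n → Fin q) → Cfg n k → ℂ),
      Eqs T (((n : ℝ) + k + 1) ^ 4)⁻¹ Λ z κ Ψ →
      ∀ x : E3, |mM Ψ (fun p => phi z p x)| ≤ C := by
  obtain ⟨χ, hχ⟩ := bump_ex
  obtain ⟨Cr, hCr, hrf⟩ := rf_sep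
  obtain ⟨ρ, hρ⟩ : ∃ ρ, ρ = |ρ2| * (Real.pi * 4 / 3 * (|D| + 5) ^ 3) := ⟨_, rfl⟩
  have hρ0 : 0 ≤ ρ := by rw [hρ]; positivity
  obtain ⟨Kv, hKv⟩ : ∃ Kv, Kv = (1 + zm⁻¹) / ρ1 := ⟨_, rfl⟩
  have hKv0 : 0 ≤ Kv := by rw [hKv]; positivity
  obtain ⟨C1, hC1, hpl⟩ := plump q T zm zp κm κp (Cr * ρ) Kv D hT hzm hκm
    (by positivity) hKv0 hχ
  refine ⟨C1, hC1, ?_⟩
  intro Λ n k z κ hop hbd hn1 hn2 hth hz hκ hneu m Ψ hE x
  have hn0 : (0 : ℝ) ≤ n := Nat.cast_nonneg n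
  have hk0 : (0 : ℝ) ≤ k := Nat.cast_nonneg k
  by_cases hN : n + k = 0
  · simp only [phi_zero hN]
    have : mM Ψ (fun _ => (0 : ℝ)) = 0 := by simp [mM, mean]
    rw [this, abs_zero]
    exact hC1
  have hN1 : (1 : ℝ) ≤ (n : ℝ) + k := by
    have h2 : 0 < n + k := Nat.pos_of_ne_zero hN
    exact_mod_cast h2
  have hne : Λ.Nonempty := by
    by_contra hcon
    rw [Set.not_nonempty_iff_eq_empty] at hcon
    rw [hcon] at hn2
    simp at hn2
    linarith
  obtain ⟨W, hW1, hW2, hW3⟩ := max_sep {u | Metric.closedBall u 48 ⊆ Λ}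
    (hbd.subset fun u hu => hu (Metric.mem_closedBall_self (by norm_num)))
  have hWne : W.Nonempty := by
    obtain ⟨x, hx⟩ := hne
    obtain ⟨u, _, hu⟩ := hth x hx
    obtain ⟨w, hw, _⟩ := hW3 u hu
    exact ⟨w, hw⟩
  have hWΛ : ∀ w ∈ W, Metric.closedBall w 2 ⊆ Λ := fun w hw =>
    (Metric.closedBall_subset_closedBall (by norm_num)).trans (hW1 w hw)
  have hcov : Λ ⊆ ⋃ w ∈ W, Metric.ball w (|D| + 5) := by
    intro x hx
    obtain ⟨u, hu1, hu2⟩ := hth x hx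
    obtain ⟨w, hw, hw2⟩ := hW3 u hu2
    simp only [Set.mem_iUnion, exists_prop]
    refine ⟨w, hw, ?_⟩
    rw [mem_ball_iff_norm]
    have h1 : ‖x - w‖ ≤ ‖x - u‖ + ‖u - w‖ := norm_sub_le_norm_sub_add_norm_sub _ _ _
    have h2 := le_abs_self D
    linarith
  have hball : ∀ w : E3, (volume (Metric.ball w (|D| + 5))).toReal =
      Real.pi * 4 / 3 * (|D| + 5) ^ 3 := by
    intro w
    rw [EuclideanSpace.volume_ball_fin_three, ENNReal.toReal_mul, ENNReal.toReal_pow,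
      ENNReal.toReal_ofReal (by positivity), ENNReal.toReal_ofReal (by positivity)]
    ring
  have hvW : (volume Λ).toReal ≤ W.card * (Real.pi * 4 / 3 * (|D| + 5) ^ 3) := by
    have h1 : volume Λ ≤ ∑ w ∈ W, volume (Metric.ball w (|D| + 5)) :=
      (measure_mono hcov).trans (measure_biUnion_finset_le _ _)
    have h2 : (∑ w ∈ W, volume (Metric.ball w (|D| + 5))) ≠ ⊤ := by
      rw [ENNReal.sum_ne_top]
      exact fun w _ => measure_ball_lt_top.ne
    have h3 := ENNReal.toReal_mono h2 h1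
    rw [ENNReal.toReal_sum fun w _ => measure_ball_lt_top.ne] at h3
    simp only [hball, sum_const, nsmul_eq_mul] at h3
    exact h3
  have hvol0 : 0 ≤ (volume Λ).toReal := ENNReal.toReal_nonneg
  have hcard : (n : ℝ) + k ≤ ρ * W.card := by
    rw [hρ]
    calc (n : ℝ) + k ≤ ρ2 * (volume Λ).toReal := hn2
      _ ≤ |ρ2| * (volume Λ).toReal := by gcongr; exact le_abs_self _
      _ ≤ |ρ2| * (W.card * (Real.pi * 4 / 3 * (|D| + 5) ^ 3)) := by gcongr
      _ = _ := by ring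
  have hkn : (k : ℝ) ≤ zm⁻¹ * n := by
    have h1 : (k : ℝ) * zm ≤ n := by
      rw [← hneu]
      have h2 := card_nsmul_le_sum univ z zm fun j _ => (hz j).1
      rw [card_univ, Fintype.card_fin, nsmul_eq_mul] at h2
      exact h2
    rw [inv_mul_eq_div, le_div_iff₀ hzm]
    exact h1
  have hvol : (volume Λ).toReal ≤ Kv * n := by
    rw [hKv, div_mul_eq_mul_div, le_div_iff₀ hρ1]
    calc (volume Λ).toReal * ρ1 = ρ1 * (volume Λ).toReal := mul_comm _ _
      _ ≤ (n : ℝ) + k := hn1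
      _ ≤ n + zm⁻¹ * n := by linarith
      _ = _ := by ring
  have hG : Gt q T zm zp κm κp (Cr * ρ) Kv n k Λ z κ W ((((n : ℝ) + k + 1) ^ 4)⁻¹) Ψ := by
    refine ⟨hz, hκ, hneu, hop.measurableSet, hbd, hvol, by positivity, hE, fun i => ?_⟩
    exact hrf q n k Λ (Ψ i) ρ hρ0 W hWne hWΛ hW2 hcard
  exact (hpl (Fin m) _ n k Λ z κ W _ Ψ hG le_rfl hth x).1

/-- domains which are star-shaped with respect to a large ball are thick -/
theorem star_thick (A : ℝ) (Λ : Set E3) (y : E3) (r : ℝ) (hr : 60 ≤ r)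
    (h1 : Λ ⊆ Metric.ball y (A * r))
    (h3 : ∀ x ∈ Λ, ∀ v ∈ Metric.ball y r, segment ℝ x v ⊆ Λ) :
    ∀ x ∈ Λ, ∃ u, ‖x - u‖ ≤ 60 * |A| ∧ Metric.closedBall u 48 ⊆ Λ := by
  intro x hx
  have hr0 : 0 < r := by linarith
  obtain ⟨t, ht⟩ : ∃ t, t = 60 / r := ⟨_, rfl⟩
  have ht0 : 0 < t := by rw [ht]; positivity
  have ht1 : t ≤ 1 := by rw [ht, div_le_one hr0]; exact hr
  have htr : t * r = 60 := by rw [ht]; field_simp
  refine ⟨x - t • (x - y), ?_, ?_⟩
  · have e : x - (x - t • (x - y)) = t • (x - y) := by abel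
    rw [e, norm_smul, Real.norm_of_nonneg ht0.le]
    have h4 : ‖x - y‖ < A * r := by
      have := h1 hx
      rwa [mem_ball_iff_norm] at this
    calc t * ‖x - y‖ ≤ t * (A * r) := by gcongr
      _ = 60 * A := by rw [mul_comm A r, ← mul_assoc, htr]
      _ ≤ 60 * |A| := by gcongr; exact le_abs_self _
  · intro w hw
    rw [Metric.mem_closedBall, dist_eq_norm] at hw
    obtain ⟨v, hv⟩ : ∃ v, v = y + t⁻¹ • (w - (x - t • (x - y))) := ⟨_, rfl⟩
    have hvn : v ∈ Metric.ball y r := by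
      rw [mem_ball_iff_norm, hv, add_sub_cancel_left, norm_smul, norm_inv,
        Real.norm_of_nonneg ht0.le, inv_mul_lt_iff₀ ht0, htr]
      linarith
    refine h3 x hx v hvn ?_
    refine ⟨1 - t, t, by linarith, ht0.le, by ring, ?_⟩
    rw [hv, smul_add, smul_inv_smul₀ ht0.ne', sub_smul, one_smul, smul_sub]
    abel

/-- the two classes of domains -/
def Dom (A D : ℝ) (Λ : Set E3) : Prop :=
  (∃ (y : E3) (r : ℝ), 0 < r ∧ Metric.ball y r ⊆ Λ ∧ Λ ⊆ Metric.ball y (A * r) ∧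
    ∀ x ∈ Λ, ∀ v ∈ Metric.ball y r, segment ℝ x v ⊆ Λ) ∨
  ∀ x ∈ Λ, ∃ u, ‖x - u‖ ≤ D ∧ Metric.closedBall u 48 ⊆ Λ

theorem alldom (q : ℕ) (T zm zp κm κp ρ1 ρ2 A D : ℝ) (hT : 0 ≤ T) (hzm : 0 < zm)
    (hκm : 0 < κm) (hρ1 : 0 < ρ1) :
    ∃ C : ℝ, ∀ (Λ : Set E3) (n k : ℕ) (z κ : Fin k → ℝ), IsOpen Λ →
      Bornology.IsBounded Λ → Dom A D Λ →
      ρ1 * (volume Λ).toReal ≤ (n : ℝ) + k → (n : ℝ) + k ≤ ρ2 * (volume Λ).toReal →
      (∀ j, zm ≤ z j ∧ z j ≤ zp) → (∀ j, κm ≤ κ j ∧ κ j ≤ κp) → ∑ j, z j = n →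
      ∀ (m : ℕ) (Ψ : Fin m → (Fin n → Fin q) → Cfg n k → ℂ),
      Eqs T (((n : ℝ) + k + 1) ^ 4)⁻¹ Λ z κ Ψ →
      ∀ x : E3, |mM Ψ (fun p => phi z p x)| ≤ C := by
  obtain ⟨C1, hC1, hth⟩ := thick q T zm zp κm κp ρ1 ρ2 (max D (60 * |A|)) hT hzm hκm hρ1
  obtain ⟨vb, hvb⟩ : ∃ vb, vb = Real.pi * 4 / 3 * (|A| * 100) ^ 3 := ⟨_, rfl⟩
  have hvb0 : 0 ≤ vb := by rw [hvb]; positivity
  obtain ⟨ρ', hρ'⟩ : ∃ ρ', ρ' = |ρ2| * (Real.pi * 4 / 3 * |A| ^ 3) + 1 := ⟨_, rfl⟩
  have hρ'1 : 1 ≤ ρ' := by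
    rw [hρ']
    have : 0 ≤ |ρ2| * (Real.pi * 4 / 3 * |A| ^ 3) := by positivity
    linarith
  obtain ⟨C2, hC2, hsmall⟩ := smallT q ⌈|ρ2| * vb⌉₊ T zm zp κm κp ρ'⁻¹ (|A| * 100 + 1)
    hT hzm hκm (by positivity)
  refine ⟨max C1 C2, ?_⟩
  intro Λ n k z κ hop hbd hdom hn1 hn2 hz hκ hneu m Ψ hE x
  have hn0 : (0 : ℝ) ≤ n := Nat.cast_nonneg n
  have hk0 : (0 : ℝ) ≤ k := Nat.cast_nonneg k
  rcases hdom with ⟨y, r, hr, hin, hout, hstar⟩ | hdom
  · rcases lt_or_ge r 100 with hr100 | hr100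
    · -- small domains
      by_cases hN : n + k = 0
      · simp only [phi_zero hN]
        have : mM Ψ (fun _ => (0 : ℝ)) = 0 := by simp [mM, mean]
        rw [this, abs_zero]
        exact hC1.trans (le_max_left _ _)
      have hN1 : (1 : ℝ) ≤ (n : ℝ) + k := by
        have h2 : 0 < n + k := Nat.pos_of_ne_zero hN
        exact_mod_cast h2
      have hδ1 : (((n : ℝ) + k + 1) ^ 4)⁻¹ ≤ 1 :=
        inv_le_one_of_one_le₀ (one_le_pow₀ (by linarith))
      refine le_trans ?_ (le_max_right _ _)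
      have hv : (volume Λ).toReal ≤ Real.pi * 4 / 3 * (|A| * r) ^ 3 := by
        have h1 : (volume Λ).toReal ≤ (volume (Metric.ball y (A * r))).toReal :=
          ENNReal.toReal_mono measure_ball_lt_top.ne (measure_mono hout)
        refine h1.trans ?_
        rw [EuclideanSpace.volume_ball_fin_three, ENNReal.toReal_mul, ENNReal.toReal_pow]
        have h3 : (ENNReal.ofReal (A * r)).toReal ≤ |A| * r := by
          rw [ENNReal.toReal_ofReal']
          refine max_le ?_ (by positivity)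
          gcongr
          exact le_abs_self _
        have h4 : (ENNReal.ofReal (Real.pi * 4 / 3)).toReal = Real.pi * 4 / 3 :=
          ENNReal.toReal_ofReal (by positivity)
        rw [h4]
        calc (ENNReal.ofReal (A * r)).toReal ^ 3 * (Real.pi * 4 / 3)
            ≤ (|A| * r) ^ 3 * (Real.pi * 4 / 3) := by gcongr
          _ = _ := by ring
      have hvol0 : 0 ≤ (volume Λ).toReal := ENNReal.toReal_nonneg
      have hNv : (n : ℝ) + k ≤ |ρ2| * (Real.pi * 4 / 3 * (|A| * r) ^ 3) := by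
        calc (n : ℝ) + k ≤ ρ2 * (volume Λ).toReal := hn2
          _ ≤ |ρ2| * (volume Λ).toReal := by gcongr; exact le_abs_self _
          _ ≤ _ := by gcongr
      have hNle : n + k ≤ ⌈|ρ2| * vb⌉₊ := by
        have h1 : ((n + k : ℕ) : ℝ) ≤ |ρ2| * vb := by
          push_cast
          refine hNv.trans ?_
          rw [hvb]
          gcongr
        have h4 := h1.trans (Nat.le_ceil _)
        exact_mod_cast h4
      have hR0 : ρ'⁻¹ ≤ r := by
        have h1 : 1 ≤ ρ' * r ^ 3 := by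
          refine hN1.trans (hNv.trans ?_)
          rw [hρ']
          have : 0 ≤ r ^ 3 := by positivity
          nlinarith
        rcases le_or_gt 1 r with h | h
        · exact (inv_le_one_of_one_le₀ hρ'1).trans h
        · have h2 : r ^ 3 ≤ r := by
            calc r ^ 3 ≤ r ^ 1 := pow_le_pow_of_le_one hr.le h.le (by norm_num)
              _ = r := pow_one r
          rw [inv_le_iff_one_le_mul₀ (by positivity)]
          calc (1 : ℝ) ≤ ρ' * r ^ 3 := h1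
            _ ≤ ρ' * r := by gcongr
            _ = r * ρ' := mul_comm _ _
      have hR1 : A * r ≤ |A| * 100 + 1 := by
        have h1 : A * r ≤ |A| * r := by gcongr; exact le_abs_self _
        have h2 : |A| * r ≤ |A| * 100 := by gcongr
        linarith
      have hin' : Metric.ball (0 : E3) ρ'⁻¹ ⊆ {v | v + y ∈ Λ} := by
        intro v hv
        apply hin
        rw [mem_ball_iff_norm] at hv ⊢
        rw [add_sub_cancel_right]
        rw [sub_zero] at hv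
        linarith
      have hout' : {v | v + y ∈ Λ} ⊆ Metric.ball (0 : E3) (|A| * 100 + 1) := by
        intro v hv
        have := hout hv
        rw [mem_ball_iff_norm] at this ⊢
        rw [add_sub_cancel_right] at this
        rw [sub_zero]
        linarith
      rw [← sh_phiM z Ψ x y]
      exact hsmall (Fin m) _ n k hNle _ hin' hout' z κ hz hκ _ hδ1 _ (sh_Eqs hE y) (x - y)
    · -- large domains
      refine le_trans ?_ (le_max_left _ _)
      refine hth Λ n k z κ hop hbd hn1 hn2 ?_ hz hκ hneu m Ψ hE x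
      intro x hx
      obtain ⟨u, hu1, hu2⟩ := star_thick A Λ y r (by linarith) hout hstar x hx
      exact ⟨u, hu1.trans (le_max_right _ _), hu2⟩
  · refine le_trans ?_ (le_max_left _ _)
    refine hth Λ n k z κ hop hbd hn1 hn2 ?_ hz hκ hneu m Ψ hE x
    intro x hx
    obtain ⟨u, hu1, hu2⟩ := hdom x hx
    exact ⟨u, hu1.trans (le_max_left _ _), hu2⟩

end H6.CX
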