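import Pool.Agent.H6.CX.Defs

/-! Averaging. For `v ∈ Bz σ t` the whole ball `ball v 1` is contained in `Bz σ (t + 1)`, and `volume (ball v 1) = volume (ball 0 1)`; so `∫ v in Bz σ t, g v * f v = (volume (ball 0 1))⁻¹ ∫ v in Bz σ t, ∫ x in ball v 1, g v * f v`, exchange the integrals (Tonelli; nonnegative functions; `x ∈ ball v 1` iff `v ∈ ball x 1`), and `g v ≤ C0 g x`. The sets `Bz σ t` are open (unions of balls) and bounded if `σ` has compact support. -/

open MeasureTheory Finset

namespace H6.CX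

open H6.CM H6.CB H6.CL H6.CT

theorem Bz_open (ζ : E3 → ℝ) (t : ℝ) : IsOpen (Bz ζ t) := by
  have h1 : Bz ζ t = ⋃ x ∈ {x | ζ x ≠ 0}, Metric.ball x t := by
    ext v
    rw [Set.mem_iUnion₂]
    constructor
    · rintro ⟨x, hx, h0⟩
      exact ⟨x, h0, by rwa [Metric.mem_ball, dist_comm, dist_eq_norm]⟩
    · rintro ⟨x, h0, hx⟩
      rw [Metric.mem_ball, dist_comm, dist_eq_norm] at hx
      exact ⟨x, hx, h0⟩
  rw [h1]
  exact isOpen_biUnion fun x _ => Metric.isOpen_ball

theorem Bz_bdd {ζ : E3 → ℝ} (hc : HasCompactSupport ζ) (t : ℝ) :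
    Bornology.IsBounded (Bz ζ t) := by
  obtain ⟨R, hR⟩ := hc.isCompact.isBounded.subset_closedBall (0 : E3)
  refine (Metric.isBounded_closedBall (x := (0 : E3)) (r := R + t)).subset ?_
  rintro v ⟨x, hx, h0⟩
  have h1 := hR (subset_tsupport ζ h0)
  rw [Metric.mem_closedBall, dist_zero_right] at h1 ⊢
  have h2 : ‖v‖ ≤ ‖x‖ + ‖x - v‖ := by
    have h3 := norm_sub_le x (x - v)
    rwa [sub_sub_cancel] at h3
  linarith

private theorem AvB_low (C0 : ℝ) {g : E3 → ℝ} (hg : Wt C0 g) (σ : E3 → ℝ) (t : ℝ) {f : E3 → ℝ}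
    (hf0 : ∀ v, 0 ≤ f v) (hf : LocallyIntegrable f) :
    volume (Metric.ball (0 : E3) 1) * ∫⁻ v in Bz σ t, ENNReal.ofReal (g v * f v) ≤
      ∫⁻ x in Bz σ (t + 1), ENNReal.ofReal (C0 * g x) * ∫⁻ v in Metric.ball x 1, ENNReal.ofReal (f v) := by
  have hgm : Measurable g := hg.smooth.continuous.measurable
  have hS : MeasurableSet (Bz σ (t + 1)) := (Bz_open σ (t + 1)).measurableSet
  have hfm : AEMeasurable (fun v => ENNReal.ofReal (f v)) volume :=
    hf.aestronglyMeasurable.aemeasurable.ennreal_ofReal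
  have hD : MeasurableSet {z : E3 × E3 | ‖z.1 - z.2‖ < 1} :=
    (isOpen_lt (continuous_fst.sub continuous_snd).norm continuous_const).measurableSet
  obtain ⟨K, hK⟩ : ∃ K : E3 → E3 → ENNReal, K = fun x v => Set.indicator {z : E3 × E3 | ‖z.1 - z.2‖ < 1}
      (fun z => Set.indicator (Bz σ (t + 1)) (fun x => ENNReal.ofReal (C0 * g x)) z.1 * ENNReal.ofReal (f z.2))
      (x, v) := ⟨_, rfl⟩
  have hKm : AEMeasurable (Function.uncurry K) (volume.prod volume) := by
    have h1 : Function.uncurry K = Set.indicator {z : E3 × E3 | ‖z.1 - z.2‖ < 1}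
        (fun z => Set.indicator (Bz σ (t + 1)) (fun x => ENNReal.ofReal (C0 * g x)) z.1 *
          ENNReal.ofReal (f z.2)) := by
      rw [hK]
      rfl
    rw [h1]
    refine AEMeasurable.indicator ?_ hD
    refine AEMeasurable.mul ?_ ?_
    · exact ((((hgm.const_mul C0).ennreal_ofReal).indicator hS).comp measurable_fst).aemeasurable
    · exact hfm.comp_quasiMeasurePreserving Measure.quasiMeasurePreserving_snd
  have hpt : ∀ v ∈ Bz σ t, volume (Metric.ball (0 : E3) 1) * ENNReal.ofReal (g v * f v) ≤ ∫⁻ x, K x v := by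
    intro v hv
    have h1 : volume (Metric.ball (0 : E3) 1) * ENNReal.ofReal (g v * f v) =
        ∫⁻ _x in Metric.ball v 1, ENNReal.ofReal (g v * f v) := by
      rw [setLIntegral_const, mul_comm]
      congr 1
      exact (Measure.addHaar_ball_center volume v 1).symm
    rw [h1, ← lintegral_indicator measurableSet_ball]
    refine lintegral_mono fun x => ?_
    by_cases hx : x ∈ Metric.ball v 1
    · rw [Set.indicator_of_mem hx, hK]
      rw [Metric.mem_ball, dist_eq_norm] at hx
      have h2 : x ∈ Bz σ (t + 1) := by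
        obtain ⟨w, hw, h0⟩ := hv
        refine ⟨w, ?_, h0⟩
        have h3 : ‖w - x‖ ≤ ‖w - v‖ + ‖x - v‖ := by
          have h4 := norm_sub_le (w - v) (x - v)
          rwa [sub_sub_sub_cancel_right] at h4
        linarith
      beta_reduce
      rw [Set.indicator_of_mem (show (x, v) ∈ {z : E3 × E3 | ‖z.1 - z.2‖ < 1} from hx), Set.indicator_of_mem h2,
        ← ENNReal.ofReal_mul' (hf0 v)]
      refine ENNReal.ofReal_le_ofReal (mul_le_mul_of_nonneg_right ?_ (hf0 v))
      exact hg.har v x (by rw [norm_sub_rev]; linarith)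
    · rw [Set.indicator_of_notMem hx]
      exact zero_le
  have hin : ∀ x, ∫⁻ v, K x v = Set.indicator (Bz σ (t + 1))
      (fun x => ENNReal.ofReal (C0 * g x) * ∫⁻ v in Metric.ball x 1, ENNReal.ofReal (f v)) x := by
    intro x
    have h1 : ∀ v, K x v = Set.indicator (Bz σ (t + 1)) (fun x => ENNReal.ofReal (C0 * g x)) x *
        Set.indicator (Metric.ball x 1) (fun v => ENNReal.ofReal (f v)) v := by
      intro v
      rw [hK]
      by_cases hv : v ∈ Metric.ball x 1
      · have hv' : (x, v) ∈ {z : E3 × E3 | ‖z.1 - z.2‖ < 1} := by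
          rw [Metric.mem_ball, dist_comm, dist_eq_norm] at hv
          exact hv
        beta_reduce
        rw [Set.indicator_of_mem hv', Set.indicator_of_mem hv]
      · have hv' : (x, v) ∉ {z : E3 × E3 | ‖z.1 - z.2‖ < 1} := by
          intro h
          apply hv
          rw [Metric.mem_ball, dist_comm, dist_eq_norm]
          exact h
        beta_reduce
        rw [Set.indicator_of_notMem hv', Set.indicator_of_notMem hv, mul_zero]
    simp only [h1]
    rw [lintegral_const_mul'' _ (hfm.indicator measurableSet_ball), lintegral_indicator measurableSet_ball]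
    by_cases hx : x ∈ Bz σ (t + 1)
    · rw [Set.indicator_of_mem hx, Set.indicator_of_mem hx]
    · rw [Set.indicator_of_notMem hx, Set.indicator_of_notMem hx, zero_mul]
  have hfg : AEMeasurable (fun v => ENNReal.ofReal (g v * f v)) (volume.restrict (Bz σ t)) :=
    ((hgm.aemeasurable.mul hf.aestronglyMeasurable.aemeasurable).ennreal_ofReal).restrict
  calc volume (Metric.ball (0 : E3) 1) * ∫⁻ v in Bz σ t, ENNReal.ofReal (g v * f v)
      = ∫⁻ v in Bz σ t, volume (Metric.ball (0 : E3) 1) * ENNReal.ofReal (g v * f v) :=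
        (lintegral_const_mul'' _ hfg).symm
    _ ≤ ∫⁻ v in Bz σ t, ∫⁻ x, K x v := setLIntegral_mono' (Bz_open σ t).measurableSet hpt
    _ ≤ ∫⁻ v, ∫⁻ x, K x v := setLIntegral_le_lintegral _ _
    _ = ∫⁻ x, ∫⁻ v, K x v := (lintegral_lintegral_swap hKm).symm
    _ = _ := by
        simp only [hin]
        rw [lintegral_indicator hS]

theorem avB (C0 : ℝ) : ∃ C : ℝ, 0 ≤ C ∧ ∀ (g : E3 → ℝ) (_ : Wt C0 g) (σ : E3 → ℝ)
    (_ : HasCompactSupport σ) (t : ℝ) (f : E3 → ℝ) (_ : ∀ v, 0 ≤ f v)
    (_ : LocallyIntegrable f),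
    ∫ v in Bz σ t, g v * f v ≤
      C * ∫ x in Bz σ (t + 1), g x * ∫ v in Metric.ball x 1, f v := by
  obtain ⟨V, hV⟩ : ∃ V, V = (volume (Metric.ball (0 : E3) 1)).toReal := ⟨_, rfl⟩
  have hV0 : 0 < V := by
    rw [hV]
    exact ENNReal.toReal_pos (Metric.measure_ball_pos volume (0 : E3) one_pos).ne' measure_ball_lt_top.ne
  refine ⟨V⁻¹ * |C0|, by positivity, fun g hg σ hσ t f hf0 hf => ?_⟩
  have hC0 : 0 < C0 := by
    have h1 := hg.har 0 0 (by norm_num)
    have h2 := hg.pos 0
    by_contra h3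
    have h4 : C0 * g 0 ≤ 0 := mul_nonpos_of_nonpos_of_nonneg (not_lt.1 h3) h2.le
    linarith
  rw [abs_of_pos hC0]
  have hlow := AvB_low C0 hg σ t hf0 hf
  have hb := Bz_bdd hσ (t + 1)
  obtain ⟨R, hR⟩ := hb.subset_closedBall (0 : E3)
  have hfi : ∀ x : E3, IntegrableOn f (Metric.ball x 1) := fun x =>
    (hf.integrableOn_isCompact (isCompact_closedBall x 1)).mono_set Metric.ball_subset_closedBall
  -- the inner integral
  have hin : ∀ x : E3, ENNReal.ofReal (∫ v in Metric.ball x 1, f v) =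
      ∫⁻ v in Metric.ball x 1, ENNReal.ofReal (f v) := fun x =>
    ofReal_integral_eq_lintegral_ofReal (hfi x) (Filter.Eventually.of_forall hf0)
  have hmeas : AEStronglyMeasurable (fun x => ∫ v in Metric.ball x 1, f v) volume := by
    have hD : MeasurableSet {z : E3 × E3 | ‖z.1 - z.2‖ < 1} :=
      (isOpen_lt (continuous_fst.sub continuous_snd).norm continuous_const).measurableSet
    have h1 : AEStronglyMeasurable (Set.indicator {z : E3 × E3 | ‖z.1 - z.2‖ < 1} fun z => f z.2)
        (volume.prod volume) := (hf.aestronglyMeasurable.comp_snd).indicator hD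
    have h2 := h1.integral_prod_right'
    refine h2.congr (Filter.Eventually.of_forall fun x => ?_)
    beta_reduce
    rw [← integral_indicator measurableSet_ball]
    refine integral_congr_ae (Filter.Eventually.of_forall fun v => ?_)
    beta_reduce
    by_cases hv : v ∈ Metric.ball x 1
    · have hv' : (x, v) ∈ {z : E3 × E3 | ‖z.1 - z.2‖ < 1} := by
        rw [Metric.mem_ball, dist_comm, dist_eq_norm] at hv
        exact hv
      rw [Set.indicator_of_mem hv', Set.indicator_of_mem hv]
    · have hv' : (x, v) ∉ {z : E3 × E3 | ‖z.1 - z.2‖ < 1} := by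
        intro h
        apply hv
        rw [Metric.mem_ball, dist_comm, dist_eq_norm]
        exact h
      rw [Set.indicator_of_notMem hv', Set.indicator_of_notMem hv]
  have hin0 : ∀ x : E3, 0 ≤ ∫ v in Metric.ball x 1, f v := fun x => integral_nonneg fun v => hf0 v
  have hgb : ∃ M : ℝ, ∀ x ∈ Metric.closedBall (0 : E3) R, ‖g x‖ ≤ M :=
    (isCompact_closedBall (0 : E3) R).exists_bound_of_continuousOn hg.smooth.continuous.continuousOn
  obtain ⟨M, hM⟩ := hgb
  have hint : IntegrableOn (fun x => g x * ∫ v in Metric.ball x 1, f v) (Bz σ (t + 1)) := by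
    refine Measure.integrableOn_of_bounded (M := M * ∫ v in Metric.closedBall (0 : E3) (R + 1), f v)
      (hb.measure_lt_top.ne) (hg.smooth.continuous.aestronglyMeasurable.mul hmeas) ?_
    refine (ae_restrict_iff' (Bz_open σ (t + 1)).measurableSet).2 (Filter.Eventually.of_forall fun x hx => ?_)
    rw [norm_mul, Real.norm_of_nonneg (hin0 x)]
    have hx1 := hR hx
    refine mul_le_mul (hM x hx1) ?_ (hin0 x) ((norm_nonneg _).trans (hM x hx1))
    refine setIntegral_mono_set (hf.integrableOn_isCompact (isCompact_closedBall _ _))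
      (Filter.Eventually.of_forall hf0) (LE.le.eventuallyLE ?_)
    intro v hv
    rw [Metric.mem_closedBall, dist_zero_right] at hx1 ⊢
    rw [Metric.mem_ball, dist_eq_norm] at hv
    have h3 : ‖v‖ ≤ ‖v - x‖ + ‖x‖ := by
      have h4 := norm_add_le (v - x) x
      rwa [sub_add_cancel] at h4
    linarith
  have hgf : AEStronglyMeasurable (fun v => g v * f v) (volume.restrict (Bz σ t)) :=
    (hg.smooth.continuous.aestronglyMeasurable.mul hf.aestronglyMeasurable).restrict
  rw [integral_eq_lintegral_of_nonneg_ae (Filter.Eventually.of_forall fun v => mul_nonneg (hg.pos v).le (hf0 v)) hgf]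
  have h1 : ∫⁻ x in Bz σ (t + 1), ENNReal.ofReal (C0 * g x) * ∫⁻ v in Metric.ball x 1, ENNReal.ofReal (f v) =
      ENNReal.ofReal (C0 * ∫ x in Bz σ (t + 1), g x * ∫ v in Metric.ball x 1, f v) := by
    rw [← integral_const_mul, ofReal_integral_eq_lintegral_ofReal (hint.const_mul C0)
      (Filter.Eventually.of_forall fun x => mul_nonneg hC0.le (mul_nonneg (hg.pos x).le (hin0 x)))]
    refine lintegral_congr fun x => ?_
    rw [← hin x, ← ENNReal.ofReal_mul (mul_nonneg hC0.le (hg.pos x).le), mul_assoc]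
  rw [h1] at hlow
  have h2 := ENNReal.toReal_mono ENNReal.ofReal_ne_top hlow
  rw [ENNReal.toReal_mul, ← hV, ENNReal.toReal_ofReal (mul_nonneg hC0.le
    (integral_nonneg fun x => mul_nonneg (hg.pos x).le (hin0 x)))] at h2
  have h3 : (∫⁻ v in Bz σ t, ENNReal.ofReal (g v * f v)).toReal =
      V⁻¹ * (V * (∫⁻ v in Bz σ t, ENNReal.ofReal (g v * f v)).toReal) := by
    field_simp
  rw [h3, mul_assoc]
  exact mul_le_mul_of_nonneg_left h2 (by positivity)

end H6.CX
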