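import Pool.Agent.H6.CX.MvB

/-! The walk. `Aw_cc`: induction, `Mv_cc`, product with a smooth function. `Aw_step`: `1 / 2 ≤ 1 - ζ ≤ 1` and `0 ≤ Mv χ (Aw i)`. `Aw_mass`: `Aw (i + 1) = Mv χ (Aw i) - ζ * Mv χ (Aw i)`, `Mv_mass`, and `∫ Aw 0 = ∫ χ ^ 2 = 1` by translation. `Sw_tel`: `Sw (m + 1) = Aw 0 + ∑ i ∈ range m, Aw (i + 1)` (`sum_range_succ'`), `Aw (i + 1) x = Mv χ (Aw i) x - ζ x * Mv χ (Aw i) x`, `Mv_sum` and `sum_range_succ`. `Aw_pow`: `(Mv χ)^[i] (Aw j) x ≤ 2 ^ i * Aw (j + i) x` by induction (`Aw_step`, `Mv_mono`, `Mv_cmul`, `Function.iterate_succ_apply'`); sum over `j ∈ range m`, `Sw (m + i) ≥ ∑ j ∈ range m, Aw (j + i)`. -/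

open MeasureTheory Finset

namespace H6.CX

open H6.CM H6.CB H6.CL H6.CT

section

variable {χ : E3 → ℝ} (h : Bump χ) {Cz : ℝ} {ζ : E3 → ℝ} (hz : Kil Cz ζ) (y : E3)
include h hz

theorem Aw_cc (i : ℕ) : Cc (Aw χ ζ y i) := by
  induction i with
  | zero =>
    refine ⟨(h.smooth.comp (contDiff_id.sub contDiff_const)).pow 2, ?_⟩
    refine HasCompactSupport.intro (isCompact_closedBall y (1 / 2)) fun v hv => ?_
    have h0 : χ (v - y) = 0 := by
      by_contra h0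
      apply hv
      rw [Metric.mem_closedBall, dist_eq_norm]
      exact (h.supp _ h0).le
    show χ (v - y) ^ 2 = 0
    rw [h0]
    norm_num
  | succ i ih =>
    have h1 := Mv_cc h ih
    exact ⟨(contDiff_const.sub hz.smooth).mul h1.1, h1.2.mul_left⟩

theorem Aw_nonneg (i : ℕ) (x : E3) : 0 ≤ Aw χ ζ y i x := by
  induction i generalizing x with
  | zero => exact sq_nonneg _
  | succ i ih =>
    show 0 ≤ (1 - ζ x) * Mv χ (Aw χ ζ y i) x
    exact mul_nonneg (by linarith [(hz.mem x).2]) (Mv_nonneg h ih x)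

theorem Aw_step (i : ℕ) (x : E3) :
    (1 / 2) * Mv χ (Aw χ ζ y i) x ≤ Aw χ ζ y (i + 1) x ∧
    Aw χ ζ y (i + 1) x ≤ Mv χ (Aw χ ζ y i) x := by
  have h1 := Mv_nonneg h (Aw_nonneg h hz y i) x
  have h2 := hz.mem x
  show (1 / 2) * Mv χ (Aw χ ζ y i) x ≤ (1 - ζ x) * Mv χ (Aw χ ζ y i) x ∧
    (1 - ζ x) * Mv χ (Aw χ ζ y i) x ≤ Mv χ (Aw χ ζ y i) x
  constructor
  · exact mul_le_mul_of_nonneg_right (by linarith) h1
  · nlinarith

private theorem AwF_int {f : E3 → ℝ} (hf : Cc f) : Integrable f :=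
  hf.1.continuous.integrable_of_hasCompactSupport hf.2

private theorem AwF_li {f : E3 → ℝ} (hf : Cc f) : LocallyIntegrable f :=
  hf.1.continuous.locallyIntegrable

private theorem AwF_zint {f : E3 → ℝ} (hf : Cc f) : Integrable (fun x => ζ x * Mv χ f x) := by
  have h1 := Mv_cc h hf
  exact (hz.smooth.continuous.mul h1.1.continuous).integrable_of_hasCompactSupport
    (HasCompactSupport.mul_left h1.2)

theorem Aw_mass (i : ℕ) : ∫ x, Aw χ ζ y (i + 1) x =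
    (∫ x, Aw χ ζ y i x) - ∫ x, ζ x * Mv χ (Aw χ ζ y i) x := by
  have hA := Aw_cc h hz y i
  have h1 := Mv_mass h (AwF_int h hz hA)
  rw [← h1.2, ← integral_sub h1.1 (AwF_zint h hz hA)]
  refine integral_congr_ae (Filter.Eventually.of_forall fun x => ?_)
  show (1 - ζ x) * Mv χ (Aw χ ζ y i) x = Mv χ (Aw χ ζ y i) x - ζ x * Mv χ (Aw χ ζ y i) x
  ring

theorem Aw_mass0 : ∫ x, Aw χ ζ y 0 x = 1 := by
  show ∫ x, χ (x - y) ^ 2 = 1
  rw [integral_sub_right_eq_self (fun x => χ x ^ 2) y]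
  exact h.norm

omit h hz in
private theorem AwF_succ (m : ℕ) (x : E3) :
    Sw χ ζ y (m + 1) x = Sw χ ζ y m x + Aw χ ζ y m x := by
  unfold Sw
  rw [sum_range_succ]

omit h hz in
private theorem AwF_zero (x : E3) : Sw χ ζ y 0 x = 0 := by
  unfold Sw
  rw [range_zero, sum_empty]

omit h hz in
private theorem AwF_Mzero (x : E3) : Mv χ (Sw χ ζ y 0) x = 0 := by
  unfold Mv
  simp only [AwF_zero, mul_zero, integral_zero]

theorem Sw_cc (m : ℕ) : Cc (Sw χ ζ y m) := by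
  induction m with
  | zero =>
    have : Sw χ ζ y 0 = fun _ => 0 := by
      funext x
      exact AwF_zero y x
    rw [this]
    exact ⟨contDiff_const, HasCompactSupport.zero⟩
  | succ m ih =>
    have : Sw χ ζ y (m + 1) = fun x => Sw χ ζ y m x + Aw χ ζ y m x := by
      funext x
      exact AwF_succ y m x
    rw [this]
    have h1 := Aw_cc h hz y m
    exact ⟨ih.1.add h1.1, ih.2.add h1.2⟩

theorem Sw_nonneg (m : ℕ) (x : E3) : 0 ≤ Sw χ ζ y m x :=
  sum_nonneg fun i _ => Aw_nonneg h hz y i x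

theorem Sw_mono (m : ℕ) (x : E3) : Sw χ ζ y m x ≤ Sw χ ζ y (m + 1) x := by
  rw [AwF_succ]
  linarith [Aw_nonneg h hz y m x]

private theorem AwF_Msucc (m : ℕ) (x : E3) :
    Mv χ (Sw χ ζ y (m + 1)) x = Mv χ (Sw χ ζ y m) x + Mv χ (Aw χ ζ y m) x := by
  rw [← Mv_add h (AwF_li h hz (Sw_cc h hz y m)) (AwF_li h hz (Aw_cc h hz y m))]
  congr 1
  funext v
  exact AwF_succ y m v

private theorem AwF_rec (m : ℕ) (x : E3) :
    Sw χ ζ y (m + 1) x = χ (x - y) ^ 2 + (1 - ζ x) * Mv χ (Sw χ ζ y m) x := by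
  induction m with
  | zero =>
    rw [AwF_succ, AwF_zero, AwF_Mzero, mul_zero, add_zero, zero_add]
    rfl
  | succ m ih =>
    rw [AwF_succ, ih, AwF_Msucc h hz]
    show χ (x - y) ^ 2 + (1 - ζ x) * Mv χ (Sw χ ζ y m) x + (1 - ζ x) * Mv χ (Aw χ ζ y m) x = _
    ring

theorem Sw_tel (m : ℕ) (x : E3) :
    Sw χ ζ y (m + 1) x - Mv χ (Sw χ ζ y (m + 1)) x =
      χ (x - y) ^ 2 - ζ x * Mv χ (Sw χ ζ y m) x - Mv χ (Aw χ ζ y m) x := by
  rw [AwF_rec h hz, AwF_Msucc h hz]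
  ring

theorem Sw_rec (m : ℕ) (x : E3) :
    Sw χ ζ y (m + 1) x = χ (x - y) ^ 2 + (1 - ζ x) * Mv χ (Sw χ ζ y m) x :=
  AwF_rec h hz y m x

private theorem AwF_itcc (i : ℕ) {f : E3 → ℝ} (hf : Cc f) : Cc ((Mv χ)^[i] f) := by
  induction i with
  | zero => exact hf
  | succ i ih =>
    rw [Function.iterate_succ_apply']
    exact Mv_cc h ih

theorem Sw_pow (i m : ℕ) (x : E3) :
    (Mv χ)^[i] (Sw χ ζ y m) x ≤ 2 ^ i * Sw χ ζ y (m + i) x := by
  induction i generalizing x with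
  | zero => simp
  | succ i ih =>
    rw [Function.iterate_succ_apply']
    have hli : LocallyIntegrable (fun v => (2 : ℝ) ^ i * Sw χ ζ y (m + i) v) :=
      (continuous_const.mul (Sw_cc h hz y (m + i)).1.continuous).locallyIntegrable
    have h1 := Mv_mono h (AwF_li h hz (AwF_itcc h hz i (Sw_cc h hz y m))) hli ih x
    refine h1.trans ?_
    rw [Mv_cmul h, ← add_assoc, Sw_rec h hz y (m + i) x, pow_succ]
    have h2 := Mv_nonneg h (Sw_nonneg h hz y (m + i)) x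
    have h3 := (hz.mem x).2
    have h4 : Mv χ (Sw χ ζ y (m + i)) x ≤
        2 * (χ (x - y) ^ 2 + (1 - ζ x) * Mv χ (Sw χ ζ y (m + i)) x) := by
      nlinarith [sq_nonneg (χ (x - y))]
    calc (2 : ℝ) ^ i * Mv χ (Sw χ ζ y (m + i)) x
        ≤ 2 ^ i * (2 * (χ (x - y) ^ 2 + (1 - ζ x) * Mv χ (Sw χ ζ y (m + i)) x)) :=
          mul_le_mul_of_nonneg_left h4 (by positivity)
      _ = _ := by ring

/-- the mass which survives -/
theorem Aw_rest (m : ℕ) : ∫ x, Aw χ ζ y m x = 1 - ∫ x, ζ x * Mv χ (Sw χ ζ y m) x := by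
  induction m with
  | zero =>
    rw [Aw_mass0 h hz]
    simp only [AwF_Mzero, mul_zero, integral_zero, sub_zero]
  | succ m ih =>
    rw [Aw_mass h hz, ih]
    have h1 : ∫ x, ζ x * Mv χ (Sw χ ζ y (m + 1)) x =
        (∫ x, ζ x * Mv χ (Sw χ ζ y m) x) + ∫ x, ζ x * Mv χ (Aw χ ζ y m) x := by
      rw [← integral_add (AwF_zint h hz (Sw_cc h hz y m)) (AwF_zint h hz (Aw_cc h hz y m))]
      refine integral_congr_ae (Filter.Eventually.of_forall fun x => ?_)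
      show ζ x * Mv χ (Sw χ ζ y (m + 1)) x = _
      rw [AwF_Msucc h hz, mul_add]
    rw [h1]
    ring

end

end H6.CX
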