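import Pool.Agent.H6.CX.MvA

/-! Convolution with `χ ^ 2`, integrals. `Mv_cc`: smooth by `Mv_smooth`, compact support (`HasCompactSupport.convolution`, or: if `f` vanishes outside the ball of radius `R` then `Mv χ f` vanishes outside the ball of radius `R + 1`). `Mv_mass`: Fubini (`integral_convolution`), `∫ χ ^ 2 = 1` (`Bump.norm`). `Mv_symm`: Fubini; `χ` is even (`radial`); the product `χ (x - y) ^ 2 * f x * g y` is integrable because `f` is bounded with compact support. `Mv_lim`: dominated convergence. -/

open MeasureTheory Finset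

namespace H6.CX

open H6.CM H6.CB H6.CL H6.CT

/-- `Mv` is a convolution -/
private theorem MvB_eq (χ f : E3 → ℝ) : Mv χ f =
    MeasureTheory.convolution f (fun v => χ v ^ 2) (ContinuousLinearMap.mul ℝ ℝ) volume := by
  funext x
  unfold Mv MeasureTheory.convolution
  refine integral_congr_ae (Filter.Eventually.of_forall fun y => ?_)
  simp only [ContinuousLinearMap.mul_apply']
  ring

private theorem MvB_far {χ : E3 → ℝ} (h : Bump χ) {f : E3 → ℝ} {R : ℝ} (hR : ∀ v, f v ≠ 0 → ‖v‖ ≤ R) (x y : E3)
    (hx : R + 1 < ‖x‖) : χ (x - y) ^ 2 * f y = 0 := by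
  by_cases hy : f y = 0
  · rw [hy, mul_zero]
  · have h1 := hR y hy
    have h0 : χ (x - y) = 0 := by
      by_contra h0
      have h2 := h.supp _ h0
      have h3 : ‖x‖ ≤ ‖x - y‖ + ‖y‖ := by
        have := norm_add_le (x - y) y
        rwa [sub_add_cancel] at this
      linarith
    rw [h0]
    norm_num

private theorem MvB_rad {f : E3 → ℝ} (hc : HasCompactSupport f) : ∃ R : ℝ, ∀ v, f v ≠ 0 → ‖v‖ ≤ R := by
  obtain ⟨R, hR⟩ := hc.isCompact.isBounded.subset_closedBall (0 : E3)
  refine ⟨R, fun v hv => ?_⟩
  have := hR (subset_tsupport f hv)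
  rwa [Metric.mem_closedBall, dist_zero_right] at this

section

variable {χ : E3 → ℝ} (h : Bump χ)
include h

theorem Mv_cc {f : E3 → ℝ} (hf : Cc f) : Cc (Mv χ f) := by
  refine ⟨Mv_smooth h hf.1.continuous.locallyIntegrable, ?_⟩
  obtain ⟨R, hR⟩ := MvB_rad hf.2
  refine HasCompactSupport.intro (isCompact_closedBall (0 : E3) (R + 1)) fun x hx => ?_
  rw [Metric.mem_closedBall, dist_zero_right, not_le] at hx
  unfold Mv
  simp only [MvB_far h hR x _ hx, integral_zero]

theorem Mv_mass {f : E3 → ℝ} (hf : Integrable f) :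
    Integrable (Mv χ f) ∧ ∫ x, Mv χ f x = ∫ x, f x := by
  rw [MvB_eq]
  refine ⟨hf.integrable_convolution (ContinuousLinearMap.mul ℝ ℝ) h.int, ?_⟩
  rw [integral_convolution (ContinuousLinearMap.mul ℝ ℝ) hf h.int, h.norm]
  simp only [ContinuousLinearMap.mul_apply', mul_one]

theorem Mv_symm {f g : E3 → ℝ} (hf : Continuous f) (hc : HasCompactSupport f)
    (hg : LocallyIntegrable g) : ∫ x, f x * Mv χ g x = ∫ x, Mv χ f x * g x := by
  obtain ⟨R, hR⟩ := MvB_rad hc
  obtain ⟨M, hM⟩ := hf.bounded_above_of_compact_support hc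
  obtain ⟨C, hC⟩ : ∃ C : ℝ, ∀ v, ‖χ v ^ 2‖ ≤ C := by
    refine (h.smooth.continuous.pow 2).bounded_above_of_compact_support ?_
    refine HasCompactSupport.intro (isCompact_closedBall (0 : E3) (1 / 2)) fun v hv => ?_
    have h0 : χ v = 0 := by
      by_contra h0
      apply hv
      rw [Metric.mem_closedBall, dist_zero_right]
      exact (h.supp v h0).le
    rw [Pi.pow_apply, h0]
    norm_num
  have hM0 : 0 ≤ M := (norm_nonneg _).trans (hM 0)
  have hC0 : 0 ≤ C := (norm_nonneg _).trans (hC 0)
  have hint : Integrable (fun z : E3 × E3 => f z.1 * (χ (z.1 - z.2) ^ 2 * g z.2)) (volume.prod volume) := by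
    have hA : Integrable (Set.indicator (Metric.closedBall (0 : E3) R) fun _ => M) volume :=
      (integrable_indicator_iff measurableSet_closedBall).2
        (integrableOn_const (isCompact_closedBall (0 : E3) R).measure_lt_top.ne)
    have hB : Integrable (Set.indicator (Metric.closedBall (0 : E3) (R + 1)) fun v => C * |g v|) volume :=
      (integrable_indicator_iff measurableSet_closedBall).2
        ((hg.integrableOn_isCompact (isCompact_closedBall _ _)).abs.const_mul C)
    refine (hA.mul_prod hB).mono' ?_ (Filter.Eventually.of_forall fun z => ?_)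
    · refine (hf.comp continuous_fst).aestronglyMeasurable.mul
        (((h.smooth.continuous.comp (continuous_fst.sub continuous_snd)).pow 2).aestronglyMeasurable.mul ?_)
      exact hg.aestronglyMeasurable.comp_snd
    · rw [Real.norm_eq_abs, abs_mul, abs_mul]
      by_cases h1 : f z.1 = 0
      · rw [h1, abs_zero, zero_mul]
        refine mul_nonneg (Set.indicator_nonneg (fun _ _ => hM0) _)
          (Set.indicator_nonneg (fun v _ => mul_nonneg hC0 (abs_nonneg _)) _)
      · have hz1 := hR _ h1
        by_cases h2 : χ (z.1 - z.2) = 0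
        · rw [h2]
          norm_num
          refine mul_nonneg (Set.indicator_nonneg (fun _ _ => hM0) _)
            (Set.indicator_nonneg (fun v _ => mul_nonneg hC0 (abs_nonneg _)) _)
        · have hz2 := h.supp _ h2
          have h3 : ‖z.2‖ ≤ R + 1 := by
            have h4 : ‖z.2‖ ≤ ‖z.1‖ + ‖z.1 - z.2‖ := by
              have := norm_sub_le z.1 (z.1 - z.2)
              rwa [sub_sub_cancel] at this
            linarith
          rw [Set.indicator_of_mem (by rw [Metric.mem_closedBall, dist_zero_right]; exact hz1),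
            Set.indicator_of_mem (by rw [Metric.mem_closedBall, dist_zero_right]; exact h3)]
          have h5 : |f z.1| ≤ M := by
            have := hM z.1
            rwa [Real.norm_eq_abs] at this
          have h6 : |χ (z.1 - z.2) ^ 2| ≤ C := by
            have := hC (z.1 - z.2)
            rwa [Real.norm_eq_abs] at this
          exact mul_le_mul h5 (mul_le_mul_of_nonneg_right h6 (abs_nonneg _))
            (mul_nonneg (abs_nonneg _) (abs_nonneg _)) hM0
  have h1 : ∫ x, f x * Mv χ g x = ∫ x, ∫ y, f x * (χ (x - y) ^ 2 * g y) := by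
    refine integral_congr_ae (Filter.Eventually.of_forall fun x => ?_)
    beta_reduce
    rw [integral_const_mul]
    rfl
  have h2 : ∫ y, Mv χ f y * g y = ∫ y, ∫ x, f x * (χ (x - y) ^ 2 * g y) := by
    refine integral_congr_ae (Filter.Eventually.of_forall fun y => ?_)
    beta_reduce
    unfold Mv
    rw [← integral_mul_const]
    refine integral_congr_ae (Filter.Eventually.of_forall fun x => ?_)
    beta_reduce
    rw [h.radial (y - x) (x - y) (norm_sub_rev _ _)]
    ring
  rw [h1, h2]
  exact integral_integral_swap hint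

theorem Mv_lim {f : ℕ → E3 → ℝ} {g F : E3 → ℝ} (hf : ∀ m, Measurable (f m))
    (hF : LocallyIntegrable F) (hb : ∀ m v, |f m v| ≤ F v)
    (hl : ∀ v, Filter.Tendsto (fun m => f m v) Filter.atTop (nhds (g v))) (x : E3) :
    Filter.Tendsto (fun m => Mv χ (f m) x) Filter.atTop (nhds (Mv χ g x)) := by
  unfold Mv
  refine tendsto_integral_of_dominated_convergence (fun y => χ (x - y) ^ 2 * F y) (fun m => ?_)
    (Mv_int h hF x) (fun m => Filter.Eventually.of_forall fun y => ?_)
    (Filter.Eventually.of_forall fun y => ?_)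
  · exact ((h.smooth.continuous.comp (continuous_const.sub continuous_id)).pow 2).aestronglyMeasurable.mul
      (hf m).aestronglyMeasurable
  · rw [Real.norm_eq_abs, abs_mul, abs_of_nonneg (sq_nonneg _)]
    exact mul_le_mul_of_nonneg_left (hb m y) (sq_nonneg _)
  · exact (hl y).const_mul _

end

end H6.CX
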