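import Pool.Agent.H6.CX.KkI
import Pool.Agent.H6.CX.MvB
import Pool.Agent.H6.CB.Poten
import Pool.Agent.H6.CB.PhL2
import Pool.Agent.H6.CB.MmF

/-! Convolution with the short range kernel. `kk χ` is integrable with compact support (`kk_int`, `kk_supp`), so `Kv χ f x` is the integral of `kk χ t * f (x - t)` (substitution), and for smooth `f` it is smooth with `pd d (Kv χ f) = Kv χ (pd d f)` (`HasCompactSupport.contDiff_convolution_left` with the kernel as the compactly supported factor needs a smooth kernel; here the smooth factor is `f`: use `contDiff_convolution_right_with_param` or `HasCompactSupport.contDiff_convolution_right` after multiplying `f` by a cutoff which is one on a large ball, or differentiate under the integral sign, `hasFDerivAt_integral_of_dominated_of_fderiv_le`, with the bound `|kk χ t| * sup` on a ball). `lap (Kv χ f) = Kv χ (lap f)` and `kk_green`. `Kv_cc`: `pot_trans`: `pot f x - Mv χ (pot f) x = Kv χ f x` and `Mv χ (pot f) = pot (Mv χ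 f)` by Fubini (`U_trans`); compact support as for `Mv_cc`. `Kv_lim`: dominated convergence. -/

open MeasureTheory Finset

namespace H6.CX

open H6.CM H6.CB H6.CL H6.CT

section

variable {χ : E3 → ℝ} (h : Bump χ)
include h

omit h in
private theorem kv_pd {f : E3 → ℝ} (hf : ContDiff ℝ (⊤ : ℕ∞) f) (d : Fin 3) :
    ContDiff ℝ (⊤ : ℕ∞) (pd d f) :=
  (hf.fderiv_right (m := (⊤ : ℕ∞)) (by simp)).clm_apply contDiff_const

private theorem kv_ne {f : E3 → ℝ} {x : E3} (hx : Kv χ f x ≠ 0) :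
    ∃ y, ‖x - y‖ < 1 / 2 ∧ f y ≠ 0 := by
  by_contra hc
  push Not at hc
  apply hx
  unfold Kv
  have h1 : (fun y => kk χ (x - y) * f y) = fun _ => 0 := by
    funext y
    by_cases hy : ‖x - y‖ < 1 / 2
    · rw [hc y hy, mul_zero]
    · rw [kk_supp h _ (not_lt.1 hy), zero_mul]
  rw [h1, integral_zero]

private theorem kv_congr {f g : E3 → ℝ} {x : E3} (hfg : ∀ y, ‖x - y‖ < 1 / 2 → f y = g y) :
    Kv χ f x = Kv χ g x := by
  unfold Kv
  refine integral_congr_ae (Filter.Eventually.of_forall fun y => ?_)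
  change kk χ (x - y) * f y = kk χ (x - y) * g y
  by_cases hy : ‖x - y‖ < 1 / 2
  · rw [hfg y hy]
  · rw [kk_supp h _ (not_lt.1 hy), zero_mul, zero_mul]

private theorem kv_kint (x : E3) : Integrable (fun y => kk χ (x - y)) :=
  (kk_int h).1.comp_sub_left x

private theorem kv_nn (x : E3) : ∀ᵐ y : E3, 0 ≤ kk χ (x - y) := by
  have h1 : ∀ᵐ y : E3, y ≠ x := by
    rw [ae_iff]
    simp
  filter_upwards [h1] with y hy
  exact kk_nonneg h _ (sub_ne_zero.2 hy.symm)

theorem Kv_int {f : E3 → ℝ} (hf : Continuous f) (x : E3) :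
    Integrable (fun y => kk χ (x - y) * f y) := by
  have h1 : IntegrableOn (fun y => kk χ (x - y) * f y) (Metric.closedBall x 1) :=
    (kv_kint h x).integrableOn.mul_continuousOn hf.continuousOn (isCompact_closedBall x 1)
  refine (integrableOn_iff_integrable_of_support_subset ?_).1 h1
  intro y hy
  rw [Function.mem_support] at hy
  rw [Metric.mem_closedBall, dist_eq_norm, norm_sub_rev]
  by_contra hc
  apply hy
  rw [kk_supp h _ (by linarith), zero_mul]

theorem Kv_mono {f g : E3 → ℝ} (hf : Continuous f) (hg : Continuous g)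
    (hfg : ∀ v, f v ≤ g v) (x : E3) : Kv χ f x ≤ Kv χ g x := by
  unfold Kv
  refine integral_mono_ae (Kv_int h hf x) (Kv_int h hg x) ?_
  filter_upwards [kv_nn h x] with y hy
  exact mul_le_mul_of_nonneg_left (hfg y) hy

theorem Kv_bd : ∃ C : ℝ, 0 ≤ C ∧ ∀ (f : E3 → ℝ) (_ : Continuous f) (x : E3) (M : ℝ)
    (_ : ∀ v ∈ Metric.ball x 1, |f v| ≤ M), |Kv χ f x| ≤ C * M := by
  refine ⟨∫ v, |kk χ v|, integral_nonneg fun v => abs_nonneg _, fun f hf x M hM => ?_⟩
  have h2 : ‖∫ y, kk χ (x - y) * f y‖ ≤ ∫ y, |kk χ (x - y)| * M := by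
    refine norm_integral_le_of_norm_le ((kv_kint h x).abs.mul_const M) ?_
    refine Filter.Eventually.of_forall fun y => ?_
    rw [norm_mul, Real.norm_eq_abs, Real.norm_eq_abs]
    by_cases hy : 1 / 2 ≤ ‖x - y‖
    · rw [kk_supp h _ hy, abs_zero, zero_mul, zero_mul]
    · refine mul_le_mul_of_nonneg_left (hM y ?_) (abs_nonneg _)
      rw [Metric.mem_ball, dist_eq_norm, norm_sub_rev]
      linarith
  rw [integral_mul_const, integral_sub_left_eq_self (fun v => |kk χ v|) volume x,
    Real.norm_eq_abs] at h2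
  exact h2

theorem Kv_low : ∃ c : ℝ, 0 < c ∧ ∀ (f : E3 → ℝ) (_ : Continuous f) (_ : ∀ v, 0 ≤ f v)
    (x : E3) (M : ℝ) (_ : ∀ v ∈ Metric.ball x 1, M ≤ f v), c * M ≤ Kv χ f x := by
  refine ⟨∫ v, kk χ v, (kk_int h).2, fun f hf _ x M hM => ?_⟩
  have h1 : (∫ v, kk χ v) * M = ∫ y, kk χ (x - y) * M := by
    rw [integral_mul_const, integral_sub_left_eq_self (fun v => kk χ v) volume x]
  rw [h1]
  unfold Kv
  refine integral_mono_ae ((kv_kint h x).mul_const M) (Kv_int h hf x) ?_
  filter_upwards [kv_nn h x] with y hy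
  by_cases hy' : 1 / 2 ≤ ‖x - y‖
  · rw [kk_supp h _ hy', zero_mul, zero_mul]
  · refine mul_le_mul_of_nonneg_left (hM y ?_) hy
    rw [Metric.mem_ball, dist_eq_norm, norm_sub_rev]
    linarith

omit h in
private theorem kv_inv (x : E3) : LocallyIntegrable (fun v : E3 => ‖v - x‖⁻¹) volume := by
  obtain ⟨C, hC0, hC⟩ := inv_sq
  rw [locallyIntegrable_iff]
  intro K hK
  obtain ⟨r, hr0, hr⟩ := hK.isBounded.subset_ball_lt 0 x
  refine IntegrableOn.mono_set ?_ hr
  have h1 := (hC x r hr0).1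
  have h2 : IntegrableOn (fun v => 1 + ‖v - x‖⁻¹ ^ 2) (Metric.ball x r) :=
    (integrableOn_const (measure_ball_lt_top.ne)).add h1
  refine Integrable.mono' h2 ?_ ?_
  · have hm : Measurable (fun v : E3 => ‖v - x‖⁻¹) := by fun_prop
    exact hm.aestronglyMeasurable
  · refine Filter.Eventually.of_forall fun v => ?_
    rw [norm_inv, norm_norm]
    nlinarith [sq_nonneg (‖v - x‖⁻¹ - 1)]

omit h in
private theorem kv_pot {f : E3 → ℝ} (hf : Continuous f) (hc : HasCompactSupport f) (x : E3) :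
    Integrable (fun y => f y * ‖x - y‖⁻¹) := by
  have h1 := (kv_inv x).integrable_smul_left_of_hasCompactSupport hf hc
  refine h1.congr (Filter.Eventually.of_forall fun y => ?_)
  simp only [smul_eq_mul]
  rw [norm_sub_rev]

private theorem kv_mvinv (x y : E3) : Mv χ (fun v => ‖v - x‖⁻¹) y = U χ (x - y) := by
  rw [← U_trans h x y]
  unfold Mv
  refine integral_congr_ae (Filter.Eventually.of_forall fun w => ?_)
  change χ (y - w) ^ 2 * ‖w - x‖⁻¹ = χ (w - y) ^ 2 * ‖w - x‖⁻¹
  rw [h.radial (y - w) (w - y) (norm_sub_rev _ _)]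

private theorem kv_conv (f : E3 → ℝ) :
    Kv χ f = MeasureTheory.convolution (kk χ) f (ContinuousLinearMap.mul ℝ ℝ) volume := by
  have _h := h
  funext x
  unfold Kv MeasureTheory.convolution
  rw [← integral_sub_left_eq_self (fun t => (ContinuousLinearMap.mul ℝ ℝ) (kk χ t) (f (x - t)))
    volume x]
  congr 1
  funext t
  simp only [ContinuousLinearMap.mul_apply', sub_sub_cancel]

private theorem kv_smooth_cc {f : E3 → ℝ} (hf : Cc f) :
    ContDiff ℝ (⊤ : ℕ∞) (Kv χ f) ∧ ∀ d x, pd d (Kv χ f) x = Kv χ (pd d f) x := by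
  have hli : LocallyIntegrable (kk χ) := (kk_int h).1.locallyIntegrable
  refine ⟨?_, fun d x => ?_⟩
  · rw [kv_conv h]
    exact hf.2.contDiff_convolution_right _ hli hf.1
  · have h1 := hf.2.hasFDerivAt_convolution_right (ContinuousLinearMap.mul ℝ ℝ) hli
      (hf.1.of_le (by exact_mod_cast le_top)) x
    rw [← kv_conv h] at h1
    unfold pd
    rw [h1.fderiv]
    rw [convolution_precompR_apply _ hli (hf.2.fderiv ℝ) (hf.1.continuous_fderiv (by simp))]
    rw [kv_conv h]

theorem Kv_cc {f : E3 → ℝ} (hf : Cc f) :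
    Cc (Kv χ f) ∧ ∀ x, Kv χ f x = pot (fun v => f v - Mv χ f v) x := by
  refine ⟨⟨(kv_smooth_cc h hf).1, ?_⟩, fun x => ?_⟩
  · obtain ⟨R, hR⟩ := hf.2.isCompact.isBounded.subset_closedBall (0 : E3)
    refine HasCompactSupport.intro (isCompact_closedBall (0 : E3) (R + 1)) fun v hv => ?_
    by_contra hne
    obtain ⟨y, hy, hfy⟩ := kv_ne h hne
    apply hv
    have h2 := hR (subset_tsupport f hfy)
    rw [mem_closedBall_zero_iff] at h2 ⊢
    calc ‖v‖ = ‖y + (v - y)‖ := by rw [add_sub_cancel]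
      _ ≤ ‖y‖ + ‖v - y‖ := norm_add_le _ _
      _ ≤ R + 1 := by linarith
  · have hM : Cc (Mv χ f) := Mv_cc h hf
    have i1 := kv_pot hf.1.continuous hf.2 x
    have i2 := kv_pot hM.1.continuous hM.2 x
    have e1 : pot (fun v => f v - Mv χ f v) x = pot f x - pot (Mv χ f) x := by
      unfold pot
      rw [← integral_sub i1 i2]
      congr 1
      funext y
      ring
    have e2 : pot (Mv χ f) x = ∫ y, f y * U χ (x - y) := by
      have h1 := Mv_symm h hf.1.continuous hf.2 (kv_inv x)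
      unfold pot
      have h2 : ∫ y, Mv χ f y * ‖x - y‖⁻¹ = ∫ y, Mv χ f y * ‖y - x‖⁻¹ := by
        congr 1
        funext y
        rw [norm_sub_rev]
      rw [h2, ← h1]
      congr 1
      funext y
      rw [kv_mvinv h]
    have i3 := Kv_int h hf.1.continuous x
    have e3 : ∫ y, f y * U χ (x - y) = pot f x - Kv χ f x := by
      unfold pot Kv
      rw [← integral_sub i1 i3]
      congr 1
      funext y
      unfold kk
      ring
    rw [e1, e2, e3]
    ring

theorem Kv_smooth {f : E3 → ℝ} (hf : ContDiff ℝ (⊤ : ℕ∞) f) :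
    ContDiff ℝ (⊤ : ℕ∞) (Kv χ f) ∧ (∀ d x, pd d (Kv χ f) x = Kv χ (pd d f) x) ∧
    ∀ x, lap (Kv χ f) x = -(4 * Real.pi * (f x - Mv χ f x)) := by
  obtain ⟨θ, hθ⟩ := cut_ex
  have key : ∀ (f : E3 → ℝ), ContDiff ℝ (⊤ : ℕ∞) f → ∀ x0, ∃ F : E3 → ℝ, Cc F ∧
      Kv χ f =ᶠ[nhds x0] Kv χ F ∧ ∀ y, ‖x0 - y‖ < 1 → ∀ d, pd d F y = pd d f y := by
    intro f hf x0
    refine ⟨fun v => Jc θ x0 3 v * f v, ⟨(Jc_smooth hθ x0 3).mul hf, ?_⟩, ?_, ?_⟩
    · refine HasCompactSupport.intro (isCompact_closedBall x0 6) fun v hv => ?_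
      rw [Metric.mem_closedBall, dist_eq_norm, not_le] at hv
      change Jc θ x0 3 v * f v = 0
      rw [Jc_zero hθ x0 3 (by norm_num) v (by linarith), zero_mul]
    · have h5 : Metric.ball x0 1 ∈ nhds x0 := Metric.ball_mem_nhds x0 one_pos
      filter_upwards [h5] with w hw
      refine kv_congr h fun y hy => ?_
      rw [Metric.mem_ball, dist_eq_norm] at hw
      have h6 : ‖y - x0‖ ≤ 3 := by
        calc ‖y - x0‖ = ‖(w - x0) - (w - y)‖ := by congr 1; abel
          _ ≤ ‖w - x0‖ + ‖w - y‖ := norm_sub_le _ _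
          _ ≤ 3 := by linarith
      rw [Jc_one hθ x0 3 (by norm_num) y h6, one_mul]
    · intro y hy d
      have h7 : (fun v => Jc θ x0 3 v * f v) =ᶠ[nhds y] f := by
        have h5 : Metric.ball x0 1 ∈ nhds y := by
          refine Metric.isOpen_ball.mem_nhds ?_
          rw [Metric.mem_ball, dist_eq_norm, norm_sub_rev]
          exact hy
        filter_upwards [h5] with w hw
        rw [Metric.mem_ball, dist_eq_norm] at hw
        rw [Jc_one hθ x0 3 (by norm_num) w (by linarith), one_mul]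
      unfold pd
      rw [h7.fderiv_eq]
  have hs : ContDiff ℝ (⊤ : ℕ∞) (Kv χ f) := by
    rw [contDiff_iff_contDiffAt]
    intro x0
    obtain ⟨F, hF, h1, -⟩ := key f hf x0
    exact ((kv_smooth_cc h hF).1.contDiffAt).congr_of_eventuallyEq h1
  have hd : ∀ (f : E3 → ℝ), ContDiff ℝ (⊤ : ℕ∞) f → ∀ d x,
      pd d (Kv χ f) x = Kv χ (pd d f) x := by
    intro f hf d x
    obtain ⟨F, hF, h1, h2⟩ := key f hf x
    have h3 : pd d (Kv χ f) x = pd d (Kv χ F) x := by
      unfold pd
      rw [h1.fderiv_eq]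
    rw [h3, (kv_smooth_cc h hF).2 d x]
    exact kv_congr h fun y hy => h2 y (by linarith) d
  refine ⟨hs, hd f hf, fun x => ?_⟩
  have h1 := kk_green h hf x
  have h2 : lap (Kv χ f) x = Kv χ (lap f) x := by
    have e1 : ∀ d, pd d (Kv χ f) = Kv χ (pd d f) := fun d => funext fun x => hd f hf d x
    have e2 : ∀ d, pd d (pd d (Kv χ f)) x = Kv χ (pd d (pd d f)) x := by
      intro d
      rw [e1 d]
      exact hd _ (kv_pd hf d) d x
    unfold lap
    simp only [e2]
    unfold Kv
    rw [← integral_finsetSum _ fun d _ => Kv_int h (kv_pd (kv_pd hf d) d).continuous x]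
    congr 1
    funext y
    rw [Finset.mul_sum]
  rw [h2]
  unfold Kv
  rw [← h1, ← integral_neg]
  congr 1
  funext y
  ring

theorem Kv_lim {f : ℕ → E3 → ℝ} {g : E3 → ℝ} {F : E3 → ℝ} (hf : ∀ m, Continuous (f m))
    (hF : Continuous F) (hb : ∀ m v, |f m v| ≤ F v)
    (hl : ∀ v, Filter.Tendsto (fun m => f m v) Filter.atTop (nhds (g v))) (x : E3) :
    Filter.Tendsto (fun m => Kv χ (f m) x) Filter.atTop (nhds (Kv χ g x)) := by
  unfold Kv
  refine tendsto_integral_of_dominated_convergence (fun y => ‖kk χ (x - y) * F y‖)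
    (fun m => (Kv_int h (hf m) x).aestronglyMeasurable) (Kv_int h hF x).norm ?_ ?_
  · intro m
    refine Filter.Eventually.of_forall fun y => ?_
    rw [norm_mul, norm_mul]
    refine mul_le_mul_of_nonneg_left ?_ (norm_nonneg _)
    exact (hb m y).trans (le_abs_self _)
  · exact Filter.Eventually.of_forall fun y => (hl y).const_mul _

end

end H6.CX
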