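import Pool.Agent.H6.CX.MvB

/-! Iterated averages dominate integrals over balls. Step 1: `Mv χ (Mv χ f) x = ∫ w, h (x - w) * f w` with `h v = ∫ y, χ (v - y) ^ 2 * χ y ^ 2` (Fubini) continuous and `h 0 = ∫ χ ^ 4 > 0` (`χ` even, continuous, not identically zero because `∫ χ ^ 2 = 1`), so `h ≥ c₀ > 0` on a ball of radius `ε ≤ 1` and `c₀ * ∫ w in ball x ε, f w ≤ Mv χ (Mv χ f) x`. Step 2: if `c * ∫ v in ball x d, f v ≤ (Mv χ)^[j] f x` for all `x` (and all such `f`), then `(Mv χ)^[j + 2] f x ≥ c₀ c ∫ y in ball x ε, ∫ w in ball y d, f w = c₀ c ∫ w, f w * volume (ball x ε ∩ ball w d)` and for `‖w - x‖ < d + ε / 4` the intersection contains a ball of radius `ε / 8`: the same inequality with `d + ε / 4`, `j + 2`. Start with `d = ε`, `j = 2`, and iterate; smaller `d` follows by monotonicity. `(Mv χ)^[j] f` is continuous and nonnegative (`Mv_smooth`, `Mv_nonneg`). -/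

open MeasureTheory Finset

namespace H6.CX

open H6.CM H6.CB H6.CL H6.CT

theorem powl_q_cc {χ : E3 → ℝ} (h : Bump χ) (x : E3) : Cc (fun y => χ (x - y) ^ 2) := by
  refine ⟨(h.smooth.comp (contDiff_const.sub contDiff_id)).pow 2, ?_⟩
  refine HasCompactSupport.of_support_subset_isCompact (isCompact_closedBall x 1) ?_
  intro y hy
  have h1 : χ (x - y) ≠ 0 := fun h0 => hy (by simp [h0])
  have h2 := h.supp _ h1
  rw [mem_closedBall_iff_norm, norm_sub_rev]
  linarith

theorem powl_it_cc {χ : E3 → ℝ} (h : Bump χ) {f : E3 → ℝ} (hf : Cc f) (m : ℕ) :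
    Cc ((Mv χ)^[m] f) := by
  induction m with
  | zero => exact hf
  | succ m ih => rw [Function.iterate_succ_apply']; exact Mv_cc h ih

theorem powl_ker {χ : E3 → ℝ} (h : Bump χ) (x : E3) (m : ℕ) : ∀ (g : E3 → ℝ),
    LocallyIntegrable g →
    (Mv χ)^[m + 1] g x = ∫ y, (Mv χ)^[m] (fun y => χ (x - y) ^ 2) y * g y := by
  induction m with
  | zero => intro g hg; rfl
  | succ m ih =>
    intro g hg
    have h1 := ih (Mv χ g) (Mv_smooth h hg).continuous.locallyIntegrable
    rw [Function.iterate_succ_apply, h1]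
    have h2 := powl_it_cc h (powl_q_cc h x) m
    rw [Mv_symm h h2.1.continuous h2.2 hg]
    simp only [Function.iterate_succ_apply']

theorem powl_tr {χ : E3 → ℝ} (g : E3 → ℝ) (x : E3) (m : ℕ) :
    (Mv χ)^[m] (fun y => g (y - x)) = fun y => (Mv χ)^[m] g (y - x) := by
  induction m with
  | zero => rfl
  | succ m ih =>
    rw [Function.iterate_succ_apply', ih]
    funext y
    rw [Function.iterate_succ_apply']
    show ∫ w, χ (y - w) ^ 2 * (Mv χ)^[m] g (w - x) = ∫ w, χ (y - x - w) ^ 2 * (Mv χ)^[m] g w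
    rw [← integral_sub_right_eq_self (fun w => χ (y - x - w) ^ 2 * (Mv χ)^[m] g w) x]
    refine integral_congr_ae (Filter.Eventually.of_forall fun w => ?_)
    simp only [sub_sub_sub_cancel_right]

theorem powl_pos {χ : E3 → ℝ} (h : Bump χ) {g : E3 → ℝ} (hg : Cc g) (h0 : ∀ v, 0 ≤ g v)
    {v a : E3} (ha : 0 < g a) (hv : χ (v - a) ≠ 0) : 0 < Mv χ g v := by
  unfold Mv
  have hc : Continuous (fun y => χ (v - y) ^ 2 * g y) :=
    ((h.smooth.continuous.comp (continuous_const.sub continuous_id)).pow 2).mul hg.1.continuous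
  refine hc.integral_pos_of_hasCompactSupport_nonneg_nonzero ?_ (fun y => ?_) (x := a) ?_
  · exact hg.2.mul_left
  · exact mul_nonneg (sq_nonneg _) (h0 y)
  · exact (mul_pos (by positivity) ha).ne'

theorem powl_it_nonneg {χ : E3 → ℝ} (h : Bump χ) {f : E3 → ℝ} (hf : ∀ v, 0 ≤ f v) (m : ℕ) :
    ∀ v, 0 ≤ (Mv χ)^[m] f v := by
  induction m with
  | zero => exact hf
  | succ m ih => rw [Function.iterate_succ_apply']; exact Mv_nonneg h ih

theorem powl_set {χ : E3 → ℝ} (h : Bump χ) : ∃ ε : ℝ, 0 < ε ∧ ∀ (k : ℕ) (v : E3),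
    ‖v‖ < (k + 1) * ε → 0 < (Mv χ)^[1 + 2 * k] (fun y => χ (0 - y) ^ 2) v := by
  have hq := powl_q_cc h 0
  have hq0 : ∀ v : E3, 0 ≤ χ (0 - v) ^ 2 := fun v => sq_nonneg _
  obtain ⟨b, hb⟩ : ∃ b, χ b ≠ 0 := by
    by_contra hne
    push Not at hne
    have := h.norm
    simp [hne] at this
  have hne : ∀ u : E3, χ (-u) = χ u := fun u => h.radial _ _ (norm_neg u)
  have h1 : 0 < Mv χ (fun y => χ (0 - y) ^ 2) 0 := by
    refine powl_pos h hq hq0 (a := b) ?_ ?_
    · rw [zero_sub, hne]; positivity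
    · rw [zero_sub, hne]; exact hb
  have hc : Continuous (Mv χ (fun y => χ (0 - y) ^ 2)) := (Mv_cc h hq).1.continuous
  have ho : IsOpen {v | 0 < Mv χ (fun y => χ (0 - y) ^ 2) v} := isOpen_lt continuous_const hc
  obtain ⟨ε, hε, hs⟩ := Metric.isOpen_iff.1 ho 0 h1
  refine ⟨ε, hε, fun k => ?_⟩
  induction k with
  | zero =>
    intro v hv
    have : v ∈ Metric.ball (0 : E3) ε := by
      rw [mem_ball_zero_iff]
      simpa using hv
    exact hs this
  | succ k ih =>
    intro v hv
    set t : ℝ := ((k : ℝ) + 1) / (k + 2) with ht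
    have hk : (0 : ℝ) < (k : ℝ) + 2 := by positivity
    have ht0 : 0 ≤ t := by positivity
    have ht1 : 1 - t = 1 / (k + 2) := by rw [ht]; field_simp; ring
    have hv' : ‖v‖ < (k + 2) * ε := by
      push_cast at hv
      calc ‖v‖ < _ := hv
        _ = _ := by ring
    have ha : 0 < (Mv χ)^[1 + 2 * k] (fun y => χ (0 - y) ^ 2) (t • v) := by
      refine ih _ ?_
      rw [norm_smul, Real.norm_eq_abs, abs_of_nonneg ht0, ht, div_mul_eq_mul_div,
        div_lt_iff₀ hk]
      have : (0 : ℝ) < (k : ℝ) + 1 := by positivity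
      nlinarith
    have he : (1 - t) • v ∈ Metric.ball (0 : E3) ε := by
      rw [mem_ball_zero_iff, norm_smul, Real.norm_eq_abs, ht1, abs_of_pos (by positivity),
        div_mul_eq_mul_div, one_mul, div_lt_iff₀ hk]
      linarith
    have he' := hs he
    obtain ⟨y, hy⟩ : ∃ y, χ ((1 - t) • v - y) ^ 2 * χ (0 - y) ^ 2 ≠ 0 := by
      by_contra hne'
      push Not at hne'
      have he'' : 0 < ∫ y, χ ((1 - t) • v - y) ^ 2 * χ (0 - y) ^ 2 := he'
      rw [show (fun y => χ ((1 - t) • v - y) ^ 2 * χ (0 - y) ^ 2) = fun _ => 0 from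
        funext hne', integral_zero] at he''
      exact lt_irrefl _ he''
    have hy1 : χ ((1 - t) • v - y) ≠ 0 := fun h0 => hy (by simp [h0])
    have hy2 : χ y ≠ 0 := fun h0 => hy (by simp [hne, h0])
    have e1 : 1 + 2 * (k + 1) = 1 + 2 * k + 1 + 1 := by ring
    rw [e1, Function.iterate_succ_apply', Function.iterate_succ_apply']
    refine powl_pos h (Mv_cc h (powl_it_cc h hq _)) (Mv_nonneg h (powl_it_nonneg h hq0 _))
      (a := t • v + y) ?_ ?_
    · refine powl_pos h (powl_it_cc h hq _) (powl_it_nonneg h hq0 _) (a := t • v) ha ?_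
      rw [add_sub_cancel_left]
      exact hy2
    · have : v - (t • v + y) = (1 - t) • v - y := by
        rw [sub_smul, one_smul]; abel
      rw [this]
      exact hy1

theorem pow_low {χ : E3 → ℝ} (h : Bump χ) (d : ℝ) : ∃ (i : ℕ) (c : ℝ), 0 < c ∧
    ∀ (f : E3 → ℝ) (_ : Continuous f) (_ : ∀ v, 0 ≤ f v) (x : E3),
    c * ∫ v in Metric.ball x d, f v ≤ (Mv χ)^[i + 1] f x := by
  obtain ⟨ε, hε, hs⟩ := powl_set h
  obtain ⟨k, hk⟩ := exists_nat_gt (|d| / ε)
  have hk' : |d| < (k + 1) * ε := by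
    rw [div_lt_iff₀ hε] at hk
    nlinarith
  set G : E3 → ℝ := (Mv χ)^[1 + 2 * k] (fun y => χ (0 - y) ^ 2) with hG
  have hGc : Cc G := powl_it_cc h (powl_q_cc h 0) _
  have hG0 : ∀ v, 0 ≤ G v := powl_it_nonneg h (fun v => sq_nonneg _) _
  obtain ⟨u, hu, hmin⟩ := (isCompact_closedBall (0 : E3) |d|).exists_isMinOn
    ⟨0, by simp⟩ hGc.1.continuous.continuousOn
  have hu' : ‖u‖ ≤ |d| := by simpa using hu
  have hpos : 0 < G u := hs k u (lt_of_le_of_lt hu' hk')
  refine ⟨1 + 2 * k, G u, hpos, fun f hf hf0 x => ?_⟩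
  rw [powl_ker h x _ f hf.locallyIntegrable]
  have e1 : (fun y => χ (x - y) ^ 2) = fun y => (fun w => χ (0 - w) ^ 2) (y - x) := by
    funext y
    simp
  rw [e1, powl_tr (fun w => χ (0 - w) ^ 2) x (1 + 2 * k)]
  have e2 : ∀ y, (Mv χ)^[1 + 2 * k] (fun w => χ (0 - w) ^ 2) (y - x) = G (y - x) := fun y => rfl
  simp only [e2]
  have hInt : Integrable (fun y => G (y - x) * f y) := by
    have hc : Continuous (fun y => G (y - x) * f y) :=
      (hGc.1.continuous.comp (continuous_id.sub continuous_const)).mul hf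
    refine hc.integrable_of_hasCompactSupport ?_
    refine HasCompactSupport.mul_right ?_
    exact hGc.2.comp_homeomorph (Homeomorph.subRight x)
  rw [← integral_const_mul]
  calc ∫ v in Metric.ball x d, G u * f v ≤ ∫ v in Metric.ball x d, G (v - x) * f v := by
        refine setIntegral_mono_on ?_ hInt.integrableOn measurableSet_ball fun v hv => ?_
        · exact ((continuous_const.mul hf).locallyIntegrable.integrableOn_isCompact
            (isCompact_closedBall x d)).mono_set Metric.ball_subset_closedBall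
        · refine mul_le_mul_of_nonneg_right ?_ (hf0 v)
          refine hmin ?_
          rw [mem_closedBall_zero_iff]
          rw [mem_ball_iff_norm] at hv
          exact hv.le.trans (le_abs_self d)
    _ ≤ ∫ v, G (v - x) * f v := by
        exact setIntegral_le_integral hInt (Filter.Eventually.of_forall fun v =>
          mul_nonneg (hG0 _) (hf0 v))

end H6.CX
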