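import Pool.Agent.H6.CX.AwF
import Pool.Agent.H6.CX.KvF
import Pool.Agent.H6.CX.PowL

/-! Bounds of the occupation density. `Kv_Sw`: by `Kv_cc` and `Sw_tel`, `Kv χ (Sw (m + 1)) x` is the potential of a function which is at most `χ (· - y) ^ 2` (all subtracted functions are nonnegative, smooth with compact support), and `pot (fun v => χ (v - y) ^ 2) x = U χ (x - y)` (`U_trans`); `m = 0` is trivial. `Sw_ball`: take `i`, `c` from `pow_low` with `d + 1` in place of `d` (and `i + 1` in place of `i`); for `‖v - x‖ < 1` the ball of radius `d` around `x` is contained in the ball of radius `d + 1` around `v`, so `(Mv χ)^[i + 1] (Sw m) v ≥ c * I` with `I = ∫ w in ball x d, Sw m w`; by `Kv_low`, `Kv χ ((Mv χ)^[i + 1] (Sw m)) x ≥ c' * c * I`, and by `Sw_pow`, `Kv_mono`, `Kv_Sw` it is at most `2 ^ (i + 1) * U χ (x - y)`. `Sw_le`: `Sw_rec` and `Mv_bd` with `Sw_ball` for `d = 1`. -/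

open MeasureTheory Finset

namespace H6.CX

open H6.CM H6.CB H6.CL H6.CT

section

variable {χ : E3 → ℝ} (h : Bump χ) (Cz : ℝ)
include h

private theorem AwS_pint (ρ : E3 → ℝ) (hρ : Cc ρ) (x : E3) :
    Integrable (fun y => ρ y * ‖x - y‖⁻¹) := by
  have h1 := intK (volume : Measure E3) (ContinuousLinearMap.id ℝ E3)
    (ContinuousLinearMap.id ℝ E3) (fun v => rfl) (-x) ρ hρ.1.continuous hρ.2
  refine h1.congr (Filter.Eventually.of_forall fun y => ?_)
  simp only [ContinuousLinearMap.coe_id', id_eq]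
  rw [mul_comm, neg_add_eq_sub, norm_sub_rev]

omit h in
private theorem AwS_zero (ζ : E3 → ℝ) (y x : E3) : Sw χ ζ y 0 x = 0 := by
  unfold Sw
  rw [range_zero, sum_empty]

theorem Kv_Sw {ζ : E3 → ℝ} (hz : Kil Cz ζ) (y : E3) (m : ℕ) (x : E3) :
    Kv χ (Sw χ ζ y m) x ≤ U χ (x - y) := by
  cases m with
  | zero =>
    unfold Kv
    simp only [AwS_zero, mul_zero, integral_zero]
    exact U_nonneg χ _
  | succ m =>
    have hS := Sw_cc h hz y (m + 1)
    have hM := Mv_cc h hS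
    rw [(Kv_cc h hS).2 x, ← U_trans h x y]
    unfold pot
    have hρ : Cc (fun v => Sw χ ζ y (m + 1) v - Mv χ (Sw χ ζ y (m + 1)) v) :=
      ⟨hS.1.sub hM.1, hS.2.sub hM.2⟩
    have hA : Cc (fun v => χ (v - y) ^ 2) := Aw_cc h hz y 0
    have h2 : Integrable (fun v => χ (v - y) ^ 2 * ‖v - x‖⁻¹) := by
      refine (AwS_pint h _ hA x).congr (Filter.Eventually.of_forall fun v => ?_)
      simp only [norm_sub_rev]
    refine integral_mono (AwS_pint h _ hρ x) h2 fun v => ?_
    simp only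
    rw [norm_sub_rev x v]
    refine mul_le_mul_of_nonneg_right ?_ (by positivity)
    rw [Sw_tel h hz y m v]
    have h3 := mul_nonneg (hz.mem v).1 (Mv_nonneg h (Sw_nonneg h hz y m) v)
    have h4 := Mv_nonneg h (Aw_nonneg h hz y m) v
    linarith

private theorem AwS_itcc (i : ℕ) {f : E3 → ℝ} (hf : Cc f) : Cc ((Mv χ)^[i] f) := by
  induction i with
  | zero => exact hf
  | succ i ih =>
    rw [Function.iterate_succ_apply']
    exact Mv_cc h ih

theorem Sw_ball (d : ℝ) : ∃ C : ℝ, 0 ≤ C ∧ ∀ (ζ : E3 → ℝ) (_ : Kil Cz ζ) (y : E3) (m : ℕ)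
    (x : E3), ∫ v in Metric.ball x d, Sw χ ζ y m v ≤ C * U χ (x - y) := by
  obtain ⟨i, c, hc, hlow⟩ := pow_low h (d + 1)
  obtain ⟨c', hc', hlow'⟩ := Kv_low h
  refine ⟨2 ^ (i + 1) / (c' * c), by positivity, fun ζ hz y m x => ?_⟩
  set I : ℝ := ∫ v in Metric.ball x d, Sw χ ζ y m v with hI
  have hS := Sw_cc h hz y m
  have h0 := Sw_nonneg h hz y m
  have hit := AwS_itcc h (i + 1) hS
  have h1 : ∀ v ∈ Metric.ball x 1, c * I ≤ (Mv χ)^[i + 1] (Sw χ ζ y m) v := by
    intro v hv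
    refine le_trans ?_ (hlow _ hS.1.continuous h0 v)
    refine mul_le_mul_of_nonneg_left ?_ hc.le
    have hint : IntegrableOn (Sw χ ζ y m) (Metric.ball v (d + 1)) :=
      (hS.1.continuous.integrable_of_hasCompactSupport hS.2).integrableOn
    refine setIntegral_mono_set hint (Filter.Eventually.of_forall fun w => h0 w) ?_
    refine HasSubset.Subset.eventuallyLE ?_
    intro w hw
    rw [Metric.mem_ball] at hv hw ⊢
    calc dist w v ≤ dist w x + dist x v := dist_triangle _ _ _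
      _ < d + 1 := by rw [dist_comm x v]; linarith
  have hnn : ∀ v, 0 ≤ (Mv χ)^[i + 1] (Sw χ ζ y m) v := by
    intro v
    have : ∀ j : ℕ, ∀ v, 0 ≤ (Mv χ)^[j] (Sw χ ζ y m) v := by
      intro j
      induction j with
      | zero => exact h0
      | succ j ih =>
        intro v
        rw [Function.iterate_succ_apply']
        exact Mv_nonneg h ih v
    exact this _ v
  have h2 := hlow' _ hit.1.continuous hnn x (c * I) h1
  have hS2 := Sw_cc h hz y (m + (i + 1))
  have h3 : Kv χ ((Mv χ)^[i + 1] (Sw χ ζ y m)) x ≤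
      Kv χ (fun v => 2 ^ (i + 1) * Sw χ ζ y (m + (i + 1)) v) x :=
    Kv_mono h hit.1.continuous (continuous_const.mul hS2.1.continuous)
      (Sw_pow h hz y (i + 1) m) x
  have h4 : Kv χ (fun v => 2 ^ (i + 1) * Sw χ ζ y (m + (i + 1)) v) x =
      2 ^ (i + 1) * Kv χ (Sw χ ζ y (m + (i + 1))) x := by
    unfold Kv
    rw [← integral_const_mul]
    refine integral_congr_ae (Filter.Eventually.of_forall fun v => ?_)
    simp only
    ring
  rw [h4] at h3
  have h5 := Kv_Sw h Cz hz y (m + (i + 1)) x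
  have h6 : c' * (c * I) ≤ 2 ^ (i + 1) * U χ (x - y) :=
    h2.trans (h3.trans (mul_le_mul_of_nonneg_left h5 (by positivity)))
  rw [div_mul_eq_mul_div, le_div_iff₀ (by positivity)]
  calc I * (c' * c) = c' * (c * I) := by ring
    _ ≤ _ := h6

theorem Sw_le : ∃ C : ℝ, 0 ≤ C ∧ ∀ (ζ : E3 → ℝ) (_ : Kil Cz ζ) (y : E3) (m : ℕ)
    (x : E3), Sw χ ζ y m x ≤ χ (x - y) ^ 2 + C * U χ (x - y) := by
  obtain ⟨C1, hC1, h1⟩ := Mv_bd h
  obtain ⟨C2, hC2, h2⟩ := Sw_ball h Cz 1
  refine ⟨C1 * C2, mul_nonneg hC1 hC2, fun ζ hz y m x => ?_⟩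
  cases m with
  | zero =>
    rw [AwS_zero]
    have := U_nonneg χ (x - y)
    positivity
  | succ m =>
    have hS := Sw_cc h hz y m
    have h0 := Sw_nonneg h hz y m
    rw [Sw_rec h hz y m x]
    have h3 := (h1 _ hS.1.continuous.locallyIntegrable x).1
    have h4 : ∫ v in Metric.ball x 1, |Sw χ ζ y m v| = ∫ v in Metric.ball x 1, Sw χ ζ y m v :=
      integral_congr_ae (Filter.Eventually.of_forall fun v => abs_of_nonneg (h0 v))
    rw [h4] at h3
    have h5 := h2 ζ hz y m x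
    have h6 := Mv_nonneg h h0 x
    have h7 := (hz.mem x).1
    have h8 : Mv χ (Sw χ ζ y m) x ≤ C1 * (C2 * U χ (x - y)) :=
      (le_abs_self _).trans (h3.trans (mul_le_mul_of_nonneg_left h5 hC1))
    have h9 : (1 - ζ x) * Mv χ (Sw χ ζ y m) x ≤ Mv χ (Sw χ ζ y m) x := by nlinarith
    linarith

end

end H6.CX
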