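import Pool.Agent.H6.CX.ElC

/-! The electrostatic inequality for a weight with a far source. Let `u = ua - c`, `M = ∫ σ`. Where `m v ≠ 0` all the particles are at distance at least `2`, so `ua v = phi z p v` (`U_out`) and the set of the last integral of `elr` meets only the part with `σ` (`‖v - ps p i‖ < 1 / 4` and `‖x - v‖ < 1` give `‖x - ps p i‖ < 2`): it is contained in `Bz σ 1`. `(1 / 2) ∫ m u ^ 2 - (c ^ 2 / 2) (∫ m - M) ≥ c ^ 2 / 2 * M - |c| * ∫ m |phi| ≥ (c ^ 2 / 2) M - (1 + c ^ 2) M / 32`. Drop the nonnegative first term of `elr` (`R = 0`, say). Counting (`cnt_low`): `|∫ m ua - ∫ σ ua| ≤ M / 16 + ∫ σ |u| + |c| M`; multiply by `2 L' / zm`, `L' = L + C2 + 1`: `(2 L' / zm) |c| M ≤ c ^ 2 M / 4 + C M` and `(2 L' / zm) ∫ σ |u| ≤ ∫ σ u ^ 2 + C M`. `∫ σ u ^ 2 ≤ C0 ∫ v in Bz σ 1, g u ^ 2`. `els`; `ce ^ (1/3) ≤ ε ce ^ (2/3) + C`. -/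

open MeasureTheory Finset

namespace H6.CX

open H6.CM H6.CB H6.CL H6.CT

theorem ua_far {n k : ℕ} {χ : E3 → ℝ} (hχ : Bump χ) (K s : ℝ) (hK : 1 ≤ K) (hs : 0 < s)
    (hs4 : s ≤ 1 / 4) (z : Fin k → ℝ) (p : Cfg n k) (v : E3)
    (hv : ∀ i, 2 ≤ ‖v - ps p i‖) : ua χ K s z p v = phi z p v := by
  have h1 : ∀ i, U (chr χ (rd K s p i)) (v - ps p i) = ‖v - ps p i‖⁻¹ := by
    intro i
    apply U_out hχ _ (rd_pos K s hK hs p i)
    have := rd_le K s hK hs p i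
    have := hv i
    linarith
  unfold ua uu phi
  simp only [h1]
  rw [Fintype.sum_sum_type]
  simp only [cg, ps, Sum.elim_inl, Sum.elim_inr, neg_mul, one_mul, Finset.sum_neg_distrib]
  ring

theorem far_m {C0 : ℝ} {g m σ : E3 → ℝ} (h : Ws C0 g m σ) {f w : E3 → ℝ} (hw : Continuous w)
    (hfw : ∀ v, m v ≠ 0 → w v = f v) (hM : ∫ v, m v * |f v| ≤ 1 / 16 * ∫ v, σ v) (c : ℝ) :
    c ^ 2 * (∫ v, m v) - 2 * |c| * (1 / 16 * ∫ v, σ v) ≤ ∫ v, m v * (w v - c) ^ 2 := by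
  have i0 : Integrable (fun v => m v) :=
    h.mc.1.continuous.integrable_of_hasCompactSupport h.mc.2
  have i1 : Integrable (fun v => m v * |w v|) := cc_int h.mc hw.abs
  have i2 : Integrable (fun v => m v * (w v - c) ^ 2) :=
    cc_int h.mc ((hw.sub continuous_const).pow 2)
  have e1 : ∫ v, m v * |w v| = ∫ v, m v * |f v| := by
    congr 1
    funext v
    by_cases hm : m v = 0
    · simp [hm]
    · rw [hfw v hm]
  have h1 : c ^ 2 * (∫ v, m v) - 2 * |c| * (∫ v, m v * |w v|) ≤ ∫ v, m v * (w v - c) ^ 2 := by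
    rw [← integral_const_mul, ← integral_const_mul, ← integral_sub (i0.const_mul _)
      (i1.const_mul _)]
    apply integral_mono ((i0.const_mul _).sub (i1.const_mul _)) i2
    intro v
    simp only [Pi.sub_apply]
    have h2 : c ^ 2 - 2 * |c| * |w v| ≤ (w v - c) ^ 2 := by
      have h3 : w v * c ≤ |c| * |w v| := by
        calc w v * c ≤ |w v * c| := le_abs_self _
          _ = |c| * |w v| := by rw [abs_mul]; ring
      nlinarith [sq_nonneg (w v)]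
    have h3 := mul_le_mul_of_nonneg_left h2 (h.mn v)
    linarith
  rw [e1] at h1
  have h2 : 2 * |c| * (∫ v, m v * |f v|) ≤ 2 * |c| * (1 / 16 * ∫ v, σ v) :=
    mul_le_mul_of_nonneg_left hM (by positivity)
  linarith

theorem far_mabs {C0 : ℝ} {g m σ : E3 → ℝ} (h : Ws C0 g m σ) {f w : E3 → ℝ}
    (hfw : ∀ v, m v ≠ 0 → w v = f v) (hM : ∫ v, m v * |f v| ≤ 1 / 16 * ∫ v, σ v) :
    |∫ v, m v * w v| ≤ 1 / 16 * ∫ v, σ v := by
  refine (abs_integral_le_integral_abs).trans (le_trans (le_of_eq ?_) hM)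
  congr 1
  funext v
  by_cases hm : m v = 0
  · simp [hm]
  · rw [hfw v hm, abs_mul, abs_of_nonneg (h.mn v)]

private theorem num {Sj Sa Si S23 S13 M cM c1 EGv Im Is cMm X B1 Q Is1 cn C1 C2 η η' zm t L C0 Ce
    Cz : ℝ}
    (f1 : Im / 2 - Is / 2 - (cMm - cM) / 2 - C1 * Si - η' * S23 - C2 * (S13 + Sj) - η' * X ≤ EGv)
    (f2 : cMm - 2 * (c1 / 16) ≤ Im) (f3 : X ≤ B1) (f4 : Is ≤ C0 * B1)
    (f5 : B1 ≤ Ce * Q) (f6 : zm / 2 * Sj ≤ 2 * Sa + cn) (f6' : cn ≤ M / 16 + Is1 + c1)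
    (f7 : t * Is1 ≤ Is + t ^ 2 / 4 * M) (f8 : C2 * S13 ≤ η / 2 * S23 + Cz * Sa)
    (f9 : t * c1 ≤ cM / 4 + t ^ 2 * M) (f10 : c1 ≤ (M + cM) / 2) (hη1 : η' ≤ 1)
    (hη2 : η' ≤ η / 2) (ht : 0 ≤ t) (hL : t * (zm / 2) = L + C2) (hSa : 0 ≤ Sa)
    (hX : 0 ≤ B1) (_ : 0 ≤ X) (hη0 : 0 ≤ η')
    (hS23 : 0 ≤ S23) (hM : 0 ≤ M) (hcM : 0 ≤ cM) (hC0 : 0 ≤ C0) (hCz : 0 ≤ Cz) :
    L * Sj + 1 / 8 * cM ≤ EGv + C1 * Si + η * S23 +
      (2 * t + Cz + t / 16 + 2 * t ^ 2 + 1) * (M + Sa) + (3 / 2 * C0 + 1) * Ce * Q := by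
  have g1 : (L + C2) * Sj ≤ t * (2 * Sa + M / 16 + Is1 + c1) := by
    rw [← hL]
    have := mul_le_mul_of_nonneg_left (f6.trans (by linarith : 2 * Sa + cn ≤ 2 * Sa + M / 16 + Is1 + c1)) ht
    linarith
  have g2 : η' * X ≤ B1 := by nlinarith
  have g3 : η' * S23 ≤ η / 2 * S23 := by nlinarith
  have g4 : (3 / 2 * C0 + 1) * B1 ≤ (3 / 2 * C0 + 1) * (Ce * Q) :=
    mul_le_mul_of_nonneg_left f5 (by linarith)
  have g5 : 0 ≤ Cz * M := by positivity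
  have g6 : 0 ≤ t * M := by positivity
  have g7 : 0 ≤ t ^ 2 * Sa := by positivity
  have g8 : 0 ≤ t * Sa := by positivity
  have g9 : 0 ≤ t ^ 2 * M := by positivity
  nlinarith

theorem elf (zm zp C0 : ℝ) (hzm : 0 < zm) {χ : E3 → ℝ} (hχ : Bump χ) :
    ∃ C1 C3 : ℝ, 0 ≤ C1 ∧ 0 ≤ C3 ∧ ∀ (η : ℝ) (_ : 0 < η) (L : ℝ) (_ : 0 ≤ L),
    ∃ C2 : ℝ, 0 ≤ C2 ∧ ∀ (n k : ℕ) (z : Fin k → ℝ) (_ : ∀ j, zm ≤ z j ∧ z j ≤ zp)
    (p : Cfg n k) (_ : Function.Injective p.1) (_ : Function.Injective p.2)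
    (_ : ∀ a j, p.1 a ≠ p.2 j) (g m σ : E3 → ℝ) (_ : Ws C0 g m σ)
    (_ : ∀ x, m x ≠ 0 → ∀ i, 2 ≤ ‖x - ps p i‖)
    (_ : ∫ v, m v * |phi z p v| ≤ 1 / 16 * ∫ v, σ v) (c : ℝ),
    L * (∑ j, g (p.2 j)) + 1 / 8 * (c ^ 2 * ∫ v, σ v) ≤ EG g z c p +
      C1 * (∑ a, g (p.1 a) * iD p (p.1 a)) +
      η * (∑ a, g (p.1 a) * ce p (p.1 a) 1 ^ (2 / 3 : ℝ)) +
      C2 * ((∫ v, σ v) + ∑ a, g (p.1 a)) +
      C3 * ∫ x in Bz σ 3, g x * Qp z c p x := by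
  obtain ⟨K, C1, hK, hC1, hel⟩ := elr zm zp C0 hzm hχ
  obtain ⟨s1, hs1, hs14, hcn⟩ := cnt_low zm zp C0 K hzm hK hχ
  obtain ⟨Ce, hCe, hels⟩ := els zp C0 K hK hχ
  refine ⟨C1, (3 / 2 * |C0| + 1) * Ce, hC1, by positivity, fun η hη L hL => ?_⟩
  obtain ⟨s0, hs0, hs04, hel⟩ := hel (min (η / 2) 1) (lt_min (by positivity) one_pos)
  have hs : 0 < min s0 s1 := lt_min hs0 hs1
  obtain ⟨C2, hC2, hel⟩ := hel (min s0 s1) hs (min_le_left _ _)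
  have hcn := hcn (min s0 s1) hs (min_le_right _ _)
  have hs4 : min s0 s1 ≤ 1 / 4 := (min_le_left _ _).trans hs04
  have hels := hels (min s0 s1) hs hs4
  obtain ⟨Cz, hCz, hth⟩ := third C2 (η / 2) (by positivity)
  generalize min s0 s1 = s at hs hs4 hel hcn hels
  set t := 2 * (L + C2) / zm with ht
  have ht0 : 0 ≤ t := by positivity
  refine ⟨2 * t + Cz + t / 16 + 2 * t ^ 2 + 1, by positivity, ?_⟩
  intro n k z hz p hi1 hi2 hi3 g m σ hw hfar hM c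
  have hC0 := hw.C0_nonneg
  rw [abs_of_nonneg hC0]
  have hr : ∀ i, 0 < rd K s p i := fun i => rd_pos K s hK hs p i
  have hus : ContDiff ℝ (⊤ : ℕ∞) (ua χ K s z p) :=
    uu_smooth hχ (cg z) (ps p) (rd K s p) hr
  have huc : Continuous (fun v => ua χ K s z p v - c) := hus.continuous.sub continuous_const
  have hgc : Continuous g := hw.wt.smooth.continuous
  have hfw : ∀ v, m v ≠ 0 → ua χ K s z p v = phi z p v := fun v hv =>
    ua_far hχ K s hK hs hs4 z p v (hfar v hv)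
  have f1 := hel n k z hz p hi1 hi2 hi3 g m σ hw c 0
  rw [Metric.ball_zero, Measure.restrict_empty, integral_zero_measure, mul_zero, zero_add] at f1
  have f2 := far_m hw hus.continuous hfw hM c
  have hsub : {v : E3 | (∃ i, ‖v - ps p i‖ < 1 / 4) ∧
      ∃ x, ‖x - v‖ < 1 ∧ (m x ≠ 0 ∨ σ x ≠ 0)} ⊆ Bz σ 1 := by
    rintro v ⟨⟨i, hi⟩, x, hx, hmx⟩
    refine ⟨x, hx, ?_⟩
    rcases hmx with hmx | hmx
    · exfalso
      have h1 := hfar x hmx i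
      have h2 : ‖x - ps p i‖ ≤ ‖x - v‖ + ‖v - ps p i‖ := norm_sub_le_norm_sub_add_norm_sub _ _ _
      linarith
    · exact hmx
  have hiB : IntegrableOn (fun v => g v * (ua χ K s z p v - c) ^ 2) (Bz σ 1) :=
    intOn' (hgc.mul (huc.pow 2)) (Bz_bdd hw.sc.2 1)
  have hnn : ∀ v, 0 ≤ g v * (ua χ K s z p v - c) ^ 2 := fun v =>
    mul_nonneg (hw.wt.pos v).le (sq_nonneg _)
  have f3 : ∫ v in {v : E3 | (∃ i, ‖v - ps p i‖ < 1 / 4) ∧
      ∃ x, ‖x - v‖ < 1 ∧ (m x ≠ 0 ∨ σ x ≠ 0)}, g v * (ua χ K s z p v - c) ^ 2 ≤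
      ∫ v in Bz σ 1, g v * (ua χ K s z p v - c) ^ 2 :=
    setIntegral_mono_set hiB (Filter.Eventually.of_forall hnn) (LE.le.eventuallyLE hsub)
  have f4 : ∫ v, σ v * (ua χ K s z p v - c) ^ 2 ≤
      C0 * ∫ v in Bz σ 1, g v * (ua χ K s z p v - c) ^ 2 :=
    sig_int hw (huc.pow 2) (fun v => sq_nonneg _)
  have f5 := hels n k z (fun j => ⟨hzm.le.trans (hz j).1, (hz j).2⟩) p hi1 hi2 g hw.wt σ
    hw.sc.2 c
  have f6 := hcn n k z hz p g m σ hw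
  have f61 := far_mabs hw hfw hM
  have f62 := sig_c hw.sc hw.sn hus.continuous c
  have f63 : |(∫ v, m v * ua χ K s z p v) - ∫ v, σ v * ua χ K s z p v| ≤
      (∫ v, σ v) / 16 + (∫ v, σ v * |ua χ K s z p v - c|) + |c| * ∫ v, σ v := by
    have h1 := abs_sub (∫ v, m v * ua χ K s z p v) (∫ v, σ v * ua χ K s z p v)
    linarith
  have f7 := sig_abs hw.sc hw.sn huc t
  have f8 := hth n k p g hw.wt.pos
  have hMσ : 0 ≤ ∫ v, σ v := integral_nonneg hw.sn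
  have f9 : t * (|c| * ∫ v, σ v) ≤ (c ^ 2 * ∫ v, σ v) / 4 + t ^ 2 * ∫ v, σ v := by
    have h1 : t * |c| ≤ c ^ 2 / 4 + t ^ 2 := by
      rw [← sq_abs c]
      nlinarith [sq_nonneg (|c| / 2 - t)]
    have := mul_le_mul_of_nonneg_right h1 hMσ
    linarith
  have f10 : |c| * ∫ v, σ v ≤ ((∫ v, σ v) + c ^ 2 * ∫ v, σ v) / 2 := by
    have h1 : |c| ≤ (1 + c ^ 2) / 2 := by
      rw [← sq_abs c]
      nlinarith [sq_nonneg (|c| - 1)]
    have := mul_le_mul_of_nonneg_right h1 hMσ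
    linarith
  refine num (cMm := c ^ 2 * ∫ v, m v) (Im := ∫ v, m v * (ua χ K s z p v - c) ^ 2)
    (c1 := |c| * ∫ v, σ v) ?_ ?_ f3 f4 f5 f6 f63 f7 f8 f9 f10 (min_le_right _ _) (min_le_left _ _)
    ht0 ?_ ?_ ?_ ?_ (by positivity) ?_ hMσ ?_ hC0 hCz
  · linarith
  · linarith
  · rw [ht]; field_simp
  · exact Finset.sum_nonneg fun a _ => (hw.wt.pos _).le
  · exact integral_nonneg hnn
  · exact integral_nonneg hnn
  · exact Finset.sum_nonneg fun a _ => mul_nonneg (hw.wt.pos _).le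
      (Real.rpow_nonneg (ce_nonneg p _ _) _)
  · positivity

end H6.CX
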