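import Pool.Agent.H6.CX.WSum
import Pool.Agent.H6.CT.KSumT

/-! Relocation with the weight `g`. `ksumT` with the function `J`. For `p` in the support of `Ψ i` all positions are in `Λ ⊆ ball 0 R`, where `J ^ 2 = g` on an open set, so `4 J ^ 2 gr J = gr g ≤ C0 g ^ 2`, i.e. `gr J ≤ C0 g`. The kinetic energies: `|∇ (J Ψ)| ^ 2 ≥ (1 / 2) J ^ 2 |∇ Ψ| ^ 2 - gr J |Ψ| ^ 2` (electron `a`: `kE (mf (fun p => J (p.1 a)) ψ) a ≥ (1 / 2) ∑ σ, ∫ g (p.1 a) * ge (ψ σ) a p - C0 mean ψ (fun p => g (p.1 a))`), so `(3 / 4) (∑ kE + ∑ κ kN) ≥ (3 / 8) min 1 κm * TGs g ψ - C (..)`; `κm ≤ κ j ≤ κp`. The Coulomb terms are `mean ψ (EG g z (pr χ W z ·) ·)` (`mean_congr`). -/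

open MeasureTheory Finset

namespace H6.CX

open H6.CM H6.CB H6.CL H6.CT

private theorem kw_g3 (s : E3 → ℝ) (f : E3 → ℂ) (v : E3) (hs : DifferentiableAt ℝ s v)
    (hf : DifferentiableAt ℝ f v) :
    (1 / 2) * (s v ^ 2 * g3 f v) - gr s v * ‖f v‖ ^ 2 ≤ g3 (fun u => ((s u : ℝ) : ℂ) * f u) v := by
  have h1 : HasFDerivAt (fun u => ((s u : ℝ) : ℂ)) (Complex.ofRealCLM.comp (fderiv ℝ s v)) v :=
    Complex.ofRealCLM.hasFDerivAt.comp v hs.hasFDerivAt
  have h2 := h1.mul hf.hasFDerivAt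
  have h3 : HasFDerivAt (fun u => ((s u : ℝ) : ℂ) * f u) _ v := h2
  unfold g3 gr
  rw [mul_sum, sum_mul, mul_sum, ← sum_sub_distrib]
  refine sum_le_sum fun d _ => ?_
  rw [h3.fderiv]
  simp only [add_apply, smul_apply, smul_eq_mul,
    ContinuousLinearMap.comp_apply, Complex.ofRealCLM_apply]
  obtain ⟨x, hx⟩ : ∃ x, x = ((s v : ℝ) : ℂ) * fderiv ℝ f v (EuclideanSpace.single d 1) := ⟨_, rfl⟩
  obtain ⟨y, hy⟩ : ∃ y, y = f v * ((fderiv ℝ s v (EuclideanSpace.single d 1) : ℝ) : ℂ) := ⟨_, rfl⟩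
  have hx2 : ‖x‖ ^ 2 = s v ^ 2 * ‖fderiv ℝ f v (EuclideanSpace.single d 1)‖ ^ 2 := by
    rw [hx, norm_mul, Complex.norm_real, mul_pow, Real.norm_eq_abs, sq_abs]
  have hy2 : ‖y‖ ^ 2 = fderiv ℝ s v (EuclideanSpace.single d 1) ^ 2 * ‖f v‖ ^ 2 := by
    rw [hy, norm_mul, Complex.norm_real, mul_pow, Real.norm_eq_abs, sq_abs, mul_comm]
  rw [← hx2, ← hy2, ← hx, ← hy]
  have h5 : ‖x‖ ≤ ‖x + y‖ + ‖y‖ := by
    calc ‖x‖ = ‖(x + y) - y‖ := by rw [add_sub_cancel_right]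
      _ ≤ ‖x + y‖ + ‖y‖ := norm_sub_le _ _
  nlinarith [sq_nonneg (‖x + y‖ - ‖y‖), norm_nonneg x, norm_nonneg y, norm_nonneg (x + y)]

private theorem kw_gr {C0 R : ℝ} {g J : E3 → ℝ} (hg : Wt C0 g) (hJ : ContDiff ℝ (⊤ : ℕ∞) J)
    (h : ∀ v ∈ Metric.ball (0 : E3) R, J v ^ 2 = g v) (v : E3) (hv : v ∈ Metric.ball (0 : E3) R) :
    gr J v ≤ |C0| * g v := by
  have hd : DifferentiableAt ℝ J v := (hJ.differentiable (by simp)).differentiableAt
  have h1 : fderiv ℝ (fun v => J v * J v) v = J v • fderiv ℝ J v + J v • fderiv ℝ J v :=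
    (hd.hasFDerivAt.mul hd.hasFDerivAt).fderiv
  have h2 : g =ᶠ[nhds v] fun v => J v * J v := by
    filter_upwards [Metric.isOpen_ball.mem_nhds hv] with x hx
    rw [← h x hx, sq]
  have h3 := h2.fderiv_eq (𝕜 := ℝ)
  rw [h1] at h3
  have h4 : gr g v = 4 * J v ^ 2 * gr J v := by
    unfold gr
    rw [h3, mul_sum]
    refine sum_congr rfl fun d _ => ?_
    simp only [add_apply, smul_apply, smul_eq_mul]
    ring
  have h5 := hg.grad v
  rw [h4, h v hv] at h5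
  have h6 := hg.pos v
  have h7 : 4 * gr J v ≤ C0 * g v := by
    have h8 : g v * (4 * gr J v) ≤ g v * (C0 * g v) := by
      calc g v * (4 * gr J v) = 4 * g v * gr J v := by ring
        _ ≤ C0 * g v ^ 2 := h5
        _ = g v * (C0 * g v) := by ring
    exact le_of_mul_le_mul_left h8 h6
  have h9 : C0 * g v ≤ |C0| * g v := mul_le_mul_of_nonneg_right (le_abs_self _) h6.le
  have h10 : 0 ≤ gr J v := sum_nonneg fun _ _ => sq_nonneg _
  linarith

private theorem kw_grc {f : E3 → ℝ} (hf : ContDiff ℝ (⊤ : ℕ∞) f) : Continuous (gr f) := by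
  unfold gr
  have h1 : Continuous (fderiv ℝ f) := hf.continuous_fderiv (by simp)
  fun_prop

private theorem kw_z {f : E3 → ℂ} {v : E3} (h : f =ᶠ[nhds v] fun _ => 0) : g3 f v = 0 := by
  unfold g3
  rw [h.fderiv_eq]
  simp

section

variable {q n k : ℕ} {Λ : Set E3} {ψ : (Fin n → Fin q) → Cfg n k → ℂ}

private theorem kw_pe (hs : Sm q n k Λ ψ) {C0 R : ℝ} {g J : E3 → ℝ} (hg : Wt C0 g)
    (hJ : ContDiff ℝ (⊤ : ℕ∞) J) (hR : Λ ⊆ Metric.ball 0 R)
    (h : ∀ v ∈ Metric.ball (0 : E3) R, J v ^ 2 = g v) (σ : Fin n → Fin q) (a : Fin n) (p : Cfg n k) :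
    (1 / 2) * (g (p.1 a) * ge (ψ σ) a p) - |C0| * (g (p.1 a) * ‖ψ σ p‖ ^ 2) ≤
      ge (mf (fun p => J (p.1 a)) ψ σ) a p := by
  by_cases hp : p ∈ tsupport (ψ σ)
  · have hL := hR ((hs.supp σ p hp).1 a)
    have h1 := kw_gr hg hJ h _ hL
    have h2 : ge (mf (fun p => J (p.1 a)) ψ σ) a p =
        g3 (fun v => ((J v : ℝ) : ℂ) * ψ σ (Function.update p.1 a v, p.2)) (p.1 a) := by
      unfold ge mf
      simp only [Function.update_self]
    have hd : DifferentiableAt ℝ (fun v => ψ σ (Function.update p.1 a v, p.2)) (p.1 a) := by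
      have e1 : DifferentiableAt ℝ (ψ σ) (Function.update p.1 a (p.1 a), p.2) :=
        ((hs.smooth σ).differentiable (by simp)).differentiableAt
      have e2 : DifferentiableAt ℝ (fun v : E3 => ((Function.update p.1 a v, p.2) : Cfg n k))
          (p.1 a) :=
        ((hasFDerivAt_update p.1 (p.1 a)).differentiableAt).prodMk (differentiableAt_const _)
      exact e1.comp (p.1 a) e2
    have h3 := kw_g3 J (fun v => ψ σ (Function.update p.1 a v, p.2)) (p.1 a)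
      ((hJ.differentiable (by simp)).differentiableAt) hd
    rw [h2]
    refine le_trans ?_ h3
    rw [h _ hL]
    simp only [Function.update_eq_self]
    have e3 : gr J (p.1 a) * ‖ψ σ p‖ ^ 2 ≤ |C0| * (g (p.1 a) * ‖ψ σ p‖ ^ 2) := by
      rw [← mul_assoc]
      exact mul_le_mul_of_nonneg_right h1 (sq_nonneg _)
    have e4 : ge (ψ σ) a p = g3 (fun v => ψ σ (Function.update p.1 a v, p.2)) (p.1 a) := rfl
    rw [e4]
    linarith
  · have h1 : ψ σ p = 0 := image_eq_zero_of_notMem_tsupport hp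
    have h2 : ge (ψ σ) a p = 0 := by
      refine kw_z ?_
      have e1 : Continuous (fun v : E3 => ((Function.update p.1 a v, p.2) : Cfg n k)) :=
        (Continuous.update (f := fun _ : E3 => p.1) continuous_const a continuous_id).prodMk
          continuous_const
      have e2 : (tsupport (ψ σ))ᶜ ∈ nhds ((Function.update p.1 a (p.1 a), p.2) : Cfg n k) := by
        rw [Function.update_eq_self]
        exact (isClosed_tsupport _).isOpen_compl.mem_nhds hp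
      filter_upwards [e1.continuousAt.preimage_mem_nhds e2] with v hv
      exact image_eq_zero_of_notMem_tsupport hv
    rw [h1, h2]
    simp only [mul_zero, norm_zero, ne_eq, OfNat.ofNat_ne_zero, not_false_eq_true, zero_pow, sub_self]
    exact ge_nonneg _ _ _

private theorem kw_pn (hs : Sm q n k Λ ψ) {C0 R : ℝ} {g J : E3 → ℝ} (hg : Wt C0 g)
    (hJ : ContDiff ℝ (⊤ : ℕ∞) J) (hR : Λ ⊆ Metric.ball 0 R)
    (h : ∀ v ∈ Metric.ball (0 : E3) R, J v ^ 2 = g v) (σ : Fin n → Fin q) (j : Fin k) (p : Cfg n k) :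
    (1 / 2) * (g (p.2 j) * gn (ψ σ) j p) - |C0| * (g (p.2 j) * ‖ψ σ p‖ ^ 2) ≤
      gn (mf (fun p => J (p.2 j)) ψ σ) j p := by
  by_cases hp : p ∈ tsupport (ψ σ)
  · have hL := hR ((hs.supp σ p hp).2 j)
    have h1 := kw_gr hg hJ h _ hL
    have h2 : gn (mf (fun p => J (p.2 j)) ψ σ) j p =
        g3 (fun v => ((J v : ℝ) : ℂ) * ψ σ (p.1, Function.update p.2 j v)) (p.2 j) := by
      unfold gn mf
      simp only [Function.update_self]
    have hd : DifferentiableAt ℝ (fun v => ψ σ (p.1, Function.update p.2 j v)) (p.2 j) := by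
      have e1 : DifferentiableAt ℝ (ψ σ) (p.1, Function.update p.2 j (p.2 j)) :=
        ((hs.smooth σ).differentiable (by simp)).differentiableAt
      have e2 : DifferentiableAt ℝ (fun v : E3 => ((p.1, Function.update p.2 j v) : Cfg n k))
          (p.2 j) :=
        (differentiableAt_const _).prodMk ((hasFDerivAt_update p.2 (p.2 j)).differentiableAt)
      exact e1.comp (p.2 j) e2
    have h3 := kw_g3 J (fun v => ψ σ (p.1, Function.update p.2 j v)) (p.2 j)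
      ((hJ.differentiable (by simp)).differentiableAt) hd
    rw [h2]
    refine le_trans ?_ h3
    rw [h _ hL]
    simp only [Function.update_eq_self]
    have e3 : gr J (p.2 j) * ‖ψ σ p‖ ^ 2 ≤ |C0| * (g (p.2 j) * ‖ψ σ p‖ ^ 2) := by
      rw [← mul_assoc]
      exact mul_le_mul_of_nonneg_right h1 (sq_nonneg _)
    have e4 : gn (ψ σ) j p = g3 (fun v => ψ σ (p.1, Function.update p.2 j v)) (p.2 j) := rfl
    rw [e4]
    linarith
  · have h1 : ψ σ p = 0 := image_eq_zero_of_notMem_tsupport hp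
    have h2 : gn (ψ σ) j p = 0 := by
      refine kw_z ?_
      have e1 : Continuous (fun v : E3 => ((p.1, Function.update p.2 j v) : Cfg n k)) :=
        continuous_const.prodMk
          (Continuous.update (f := fun _ : E3 => p.2) continuous_const j continuous_id)
      have e2 : (tsupport (ψ σ))ᶜ ∈ nhds ((p.1, Function.update p.2 j (p.2 j)) : Cfg n k) := by
        rw [Function.update_eq_self]
        exact (isClosed_tsupport _).isOpen_compl.mem_nhds hp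
      filter_upwards [e1.continuousAt.preimage_mem_nhds e2] with v hv
      exact image_eq_zero_of_notMem_tsupport hv
    rw [h1, h2]
    simp only [mul_zero, norm_zero, ne_eq, OfNat.ofNat_ne_zero, not_false_eq_true, zero_pow, sub_self]
    exact gn_nonneg _ _ _

private theorem kw_ke (hs : Sm q n k Λ ψ) {C0 R : ℝ} {g J : E3 → ℝ} (hg : Wt C0 g)
    (hJ : ContDiff ℝ (⊤ : ℕ∞) J) (hR : Λ ⊆ Metric.ball 0 R)
    (h : ∀ v ∈ Metric.ball (0 : E3) R, J v ^ 2 = g v) (a : Fin n) :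
    (1 / 2) * (∑ σ, ∫ p, g (p.1 a) * ge (ψ σ) a p) - |C0| * mean ψ (fun p => g (p.1 a)) ≤
      kE (mf (fun p => J (p.1 a)) ψ) a := by
  unfold mean kE
  rw [mul_sum, mul_sum, ← sum_sub_distrib]
  refine sum_le_sum fun σ _ => ?_
  have hgc : Continuous (fun p : Cfg n k => g (p.1 a)) :=
    hg.smooth.continuous.comp ((continuous_apply a).comp continuous_fst)
  have hc1 : ContDiff ℝ 1 (ψ σ) := (hs.smooth σ).of_le (by exact_mod_cast le_top)
  have i1 : Integrable (fun p => g (p.1 a) * ge (ψ σ) a p) :=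
    (hgc.mul (ge_cont (ψ σ) hc1 a)).integrable_of_hasCompactSupport
      (ge_cpt (ψ σ) hc1 (hs.cpt σ) a).mul_left
  have i2 : Integrable (fun p => g (p.1 a) * ‖ψ σ p‖ ^ 2) := IM.cont hs hgc σ
  have hJc : ContDiff ℝ (⊤ : ℕ∞) (fun p : Cfg n k => J (p.1 a)) :=
    hJ.comp ((contDiff_apply ℝ E3 a).comp contDiff_fst)
  have i3 := kE_int (mf_sm hs hJc) σ a
  rw [← integral_const_mul, ← integral_const_mul, ← integral_sub (i1.const_mul _) (i2.const_mul _)]
  exact integral_mono ((i1.const_mul _).sub (i2.const_mul _)) i3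
    (fun p => kw_pe hs hg hJ hR h σ a p)

private theorem kw_kn (hs : Sm q n k Λ ψ) {C0 R : ℝ} {g J : E3 → ℝ} (hg : Wt C0 g)
    (hJ : ContDiff ℝ (⊤ : ℕ∞) J) (hR : Λ ⊆ Metric.ball 0 R)
    (h : ∀ v ∈ Metric.ball (0 : E3) R, J v ^ 2 = g v) (j : Fin k) :
    (1 / 2) * (∑ σ, ∫ p, g (p.2 j) * gn (ψ σ) j p) - |C0| * mean ψ (fun p => g (p.2 j)) ≤
      kN (mf (fun p => J (p.2 j)) ψ) j := by
  unfold mean kN
  rw [mul_sum, mul_sum, ← sum_sub_distrib]
  refine sum_le_sum fun σ _ => ?_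
  have hgc : Continuous (fun p : Cfg n k => g (p.2 j)) :=
    hg.smooth.continuous.comp ((continuous_apply j).comp continuous_snd)
  have hc1 : ContDiff ℝ 1 (ψ σ) := (hs.smooth σ).of_le (by exact_mod_cast le_top)
  have i1 : Integrable (fun p => g (p.2 j) * gn (ψ σ) j p) :=
    (hgc.mul (gn_cont (ψ σ) hc1 j)).integrable_of_hasCompactSupport
      (gn_cpt (ψ σ) hc1 (hs.cpt σ) j).mul_left
  have i2 : Integrable (fun p => g (p.2 j) * ‖ψ σ p‖ ^ 2) := IM.cont hs hgc σ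
  have hJc : ContDiff ℝ (⊤ : ℕ∞) (fun p : Cfg n k => J (p.2 j)) :=
    hJ.comp ((contDiff_apply ℝ E3 j).comp contDiff_snd)
  have i3 := kN_int (mf_sm hs hJc) σ j
  rw [← integral_const_mul, ← integral_const_mul, ← integral_sub (i1.const_mul _) (i2.const_mul _)]
  exact integral_mono ((i1.const_mul _).sub (i2.const_mul _)) i3
    (fun p => kw_pn hs hg hJ hR h σ j p)

end

theorem ksw (q : ℕ) (T zm zp κm κp A Kv C0 : ℝ) (hT : 0 ≤ T) (hzm : 0 < zm) (hκm : 0 < κm)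
    (hA : 0 ≤ A) (hKv : 0 ≤ Kv) {χ : E3 → ℝ} (hχ : Bump χ) :
    ∃ C : ℝ, 0 ≤ C ∧
    ∀ (ι : Type) (_ : Fintype ι) (n k : ℕ) (Λ : Set E3) (z κ : Fin k → ℝ) (W : Finset E3)
    (δ : ℝ) (Ψ : ι → (Fin n → Fin q) → Cfg n k → ℂ)
    (_ : Gt q T zm zp κm κp A Kv n k Λ z κ W δ Ψ) (g : E3 → ℝ) (_ : Wt C0 g) (J : E3 → ℝ)
    (_ : ContDiff ℝ (⊤ : ℕ∞) J) (_ : ∀ v, 0 ≤ J v ∧ J v ≤ 1) (R : ℝ)
    (_ : Λ ⊆ Metric.ball 0 R) (_ : ∀ v ∈ Metric.ball (0 : E3) R, J v ^ 2 = g v),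
    3 / 8 * min 1 κm * (∑ i, TGs g (Ψ i)) +
      mM Ψ (fun p => EG g z (pr χ W z p) p) ≤
    C * (mM Ψ (fun p => ∑ a, g (p.1 a)) + mM Ψ (fun p => ∑ j, g (p.2 j)) +
      (∫ v in Λ, g v) + (n + k + ∫ v in Λ, g v) * δ) := by
  obtain ⟨C1, hC1, hk⟩ := ksumT q T zm zp κm κp A Kv hT hzm hκm hA hKv hχ
  refine ⟨C1 * (1 + |C0|) + 3 / 4 * |C0| * (1 + |κp|), by positivity, ?_⟩
  intro ι _ n k Λ z κ W δ Ψ hG g hg J hJ hJm R hR hJg
  have hsm : ∀ i, Sm q n k Λ (Ψ i) := fun i => St_sm (hG.eq.st i)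
  have h0 := hk ι inferInstance n k Λ z κ W δ Ψ hG J hJ hJm
  have hC0 : 0 ≤ |C0| := abs_nonneg _
  have hκp : 0 ≤ |κp| := abs_nonneg _
  have hgc : Continuous g := hg.smooth.continuous
  -- notation
  obtain ⟨E1, hE1⟩ : ∃ E1, E1 = mM Ψ (fun p => ∑ a, g (p.1 a)) := ⟨_, rfl⟩
  obtain ⟨E2, hE2⟩ : ∃ E2, E2 = mM Ψ (fun p => ∑ j, g (p.2 j)) := ⟨_, rfl⟩
  have hge : ∀ a : Fin n, Continuous (fun p : Cfg n k => g (p.1 a)) := fun a =>
    hgc.comp ((continuous_apply a).comp continuous_fst)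
  have hgn : ∀ j : Fin k, Continuous (fun p : Cfg n k => g (p.2 j)) := fun j =>
    hgc.comp ((continuous_apply j).comp continuous_snd)
  have hIe : ∀ i, IM (Ψ i) (fun p => ∑ a, g (p.1 a)) := fun i =>
    IM.cont (hsm i) (continuous_finsetSum _ fun a _ => hge a)
  have hIn : ∀ i, IM (Ψ i) (fun p => ∑ j, g (p.2 j)) := fun i =>
    IM.cont (hsm i) (continuous_finsetSum _ fun j _ => hgn j)
  have hE10 : 0 ≤ E1 := by
    rw [hE1]
    exact sum_nonneg fun i _ => mean_nonneg fun σ p _ => sum_nonneg fun a _ => (hg.pos _).le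
  have hE20 : 0 ≤ E2 := by
    rw [hE2]
    exact sum_nonneg fun i _ => mean_nonneg fun σ p _ => sum_nonneg fun a _ => (hg.pos _).le
  -- positions
  have hpos : ∀ i σ (p : Cfg n k), Ψ i σ p ≠ 0 → (∀ a, J (p.1 a) ^ 2 = g (p.1 a) ∧
      gr J (p.1 a) ≤ |C0| * g (p.1 a)) ∧ ∀ j, J (p.2 j) ^ 2 = g (p.2 j) ∧
      gr J (p.2 j) ≤ |C0| * g (p.2 j) := by
    intro i σ p hp
    have hs := (hsm i).supp σ p (subset_tsupport _ hp)
    exact ⟨fun a => ⟨hJg _ (hR (hs.1 a)), kw_gr hg hJ hJg _ (hR (hs.1 a))⟩,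
      fun j => ⟨hJg _ (hR (hs.2 j)), kw_gr hg hJ hJg _ (hR (hs.2 j))⟩⟩
  -- Coulomb terms
  have hcou : ∀ i, mean (Ψ i) (fun p => ∑ j, z j * (J (p.2 j) ^ 2 * (phiN z j p (p.2 j) - pr χ W z p)) -
        ∑ a, J (p.1 a) ^ 2 * (phiE z a p (p.1 a) - pr χ W z p)) =
      mean (Ψ i) (fun p => EG g z (pr χ W z p) p) := by
    intro i
    refine mean_congr fun σ p hp => ?_
    have h1 := hpos i σ p hp
    unfold EG
    congr 1
    · exact sum_congr rfl fun j _ => by rw [(h1.2 j).1]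
    · exact sum_congr rfl fun a _ => by rw [(h1.1 a).1]
  -- kinetic terms
  have hkin : ∀ i, 3 / 8 * min 1 κm * TGs g (Ψ i) -
      3 / 4 * |C0| * (1 + |κp|) * (mean (Ψ i) (fun p => ∑ a, g (p.1 a)) +
        mean (Ψ i) (fun p => ∑ j, g (p.2 j))) ≤
      (3 / 4) * (∑ a, kE (mf (fun p => J (p.1 a)) (Ψ i)) a +
        ∑ j, κ j * kN (mf (fun p => J (p.2 j)) (Ψ i)) j) := by
    intro i
    have m1 : mean (Ψ i) (fun p => ∑ a, g (p.1 a)) = ∑ a, mean (Ψ i) (fun p => g (p.1 a)) :=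
      mean_sum univ fun a _ => IM.cont (hsm i) (hge a)
    have m2 : mean (Ψ i) (fun p => ∑ j, g (p.2 j)) = ∑ j, mean (Ψ i) (fun p => g (p.2 j)) :=
      mean_sum univ fun j _ => IM.cont (hsm i) (hgn j)
    have m3 : ∀ a, 0 ≤ mean (Ψ i) (fun p => g (p.1 a)) := fun a =>
      mean_nonneg fun σ p _ => (hg.pos _).le
    have m4 : ∀ j, 0 ≤ mean (Ψ i) (fun p => g (p.2 j)) := fun j =>
      mean_nonneg fun σ p _ => (hg.pos _).le
    have k1 : ∀ a, 1 / 2 * min 1 κm * (∑ σ, ∫ p, g (p.1 a) * ge (Ψ i σ) a p) -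
        |C0| * (1 + |κp|) * mean (Ψ i) (fun p => g (p.1 a)) ≤
        kE (mf (fun p => J (p.1 a)) (Ψ i)) a := by
      intro a
      have e1 := kw_ke (hsm i) hg hJ hR hJg a
      have e2 : 0 ≤ ∑ σ, ∫ p, g (p.1 a) * ge (Ψ i σ) a p :=
        sum_nonneg fun σ _ => integral_nonneg fun p => mul_nonneg (hg.pos _).le (ge_nonneg _ _ _)
      have e3 : min 1 κm * (∑ σ, ∫ p, g (p.1 a) * ge (Ψ i σ) a p) ≤
          1 * ∑ σ, ∫ p, g (p.1 a) * ge (Ψ i σ) a p :=
        mul_le_mul_of_nonneg_right (min_le_left _ _) e2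
      have e4 : |C0| * mean (Ψ i) (fun p => g (p.1 a)) ≤
          |C0| * (1 + |κp|) * mean (Ψ i) (fun p => g (p.1 a)) := by
        apply mul_le_mul_of_nonneg_right _ (m3 a)
        nlinarith
      linarith
    have k2 : ∀ j, 1 / 2 * min 1 κm * (∑ σ, ∫ p, g (p.2 j) * gn (Ψ i σ) j p) -
        |C0| * (1 + |κp|) * mean (Ψ i) (fun p => g (p.2 j)) ≤
        κ j * kN (mf (fun p => J (p.2 j)) (Ψ i)) j := by
      intro j
      have e1 := kw_kn (hsm i) hg hJ hR hJg j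
      have e2 : 0 ≤ ∑ σ, ∫ p, g (p.2 j) * gn (Ψ i σ) j p :=
        sum_nonneg fun σ _ => integral_nonneg fun p => mul_nonneg (hg.pos _).le (gn_nonneg _ _ _)
      have hκj := hG.hκ j
      have hκ0 : 0 < κ j := lt_of_lt_of_le hκm hκj.1
      have e3 : min 1 κm * (∑ σ, ∫ p, g (p.2 j) * gn (Ψ i σ) j p) ≤
          κ j * ∑ σ, ∫ p, g (p.2 j) * gn (Ψ i σ) j p :=
        mul_le_mul_of_nonneg_right ((min_le_right _ _).trans hκj.1) e2
      have e4 : κ j * (|C0| * mean (Ψ i) (fun p => g (p.2 j))) ≤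
          |C0| * (1 + |κp|) * mean (Ψ i) (fun p => g (p.2 j)) := by
        have e5 : κ j ≤ 1 + |κp| := by
          have := hκj.2.trans (le_abs_self κp)
          linarith
        calc κ j * (|C0| * mean (Ψ i) (fun p => g (p.2 j)))
            ≤ (1 + |κp|) * (|C0| * mean (Ψ i) (fun p => g (p.2 j))) :=
              mul_le_mul_of_nonneg_right e5 (mul_nonneg hC0 (m4 j))
          _ = |C0| * (1 + |κp|) * mean (Ψ i) (fun p => g (p.2 j)) := by ring
      have e6 := mul_le_mul_of_nonneg_left e1 hκ0.le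
      have e7 : κ j * (1 / 2 * (∑ σ, ∫ p, g (p.2 j) * gn (Ψ i σ) j p) -
          |C0| * mean (Ψ i) (fun p => g (p.2 j))) =
          1 / 2 * (κ j * ∑ σ, ∫ p, g (p.2 j) * gn (Ψ i σ) j p) -
            κ j * (|C0| * mean (Ψ i) (fun p => g (p.2 j))) := by ring
      rw [e7] at e6
      linarith
    have s1 := sum_le_sum fun a (_ : a ∈ (univ : Finset (Fin n))) => k1 a
    have s2 := sum_le_sum fun j (_ : j ∈ (univ : Finset (Fin k))) => k2 j
    rw [sum_sub_distrib, ← mul_sum, ← mul_sum, ← m1] at s1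
    rw [sum_sub_distrib, ← mul_sum, ← mul_sum, ← m2] at s2
    unfold TGs
    linarith
  -- the right side
  have hJc : Continuous J := hJ.continuous
  have hgrc := kw_grc hJ
  have hIM : ∀ i, IM (Ψ i) (fun p => ∑ a, (J (p.1 a) ^ 2 + gr J (p.1 a)) +
      ∑ j, (J (p.2 j) ^ 2 + gr J (p.2 j))) := by
    intro i
    refine IM.cont (hsm i) ?_
    refine (continuous_finsetSum _ fun a _ => ?_).add (continuous_finsetSum _ fun j _ => ?_)
    · exact ((hJc.comp ((continuous_apply a).comp continuous_fst)).pow 2).add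
        (hgrc.comp ((continuous_apply a).comp continuous_fst))
    · exact ((hJc.comp ((continuous_apply j).comp continuous_snd)).pow 2).add
        (hgrc.comp ((continuous_apply j).comp continuous_snd))
  have hr1 : mM Ψ (fun p => ∑ a, (J (p.1 a) ^ 2 + gr J (p.1 a)) +
      ∑ j, (J (p.2 j) ^ 2 + gr J (p.2 j))) ≤ (1 + |C0|) * (E1 + E2) := by
    rw [hE1, hE2]
    unfold mM
    rw [← sum_add_distrib, mul_sum]
    refine sum_le_sum fun i _ => ?_
    rw [← mean_add (hIe i) (hIn i), ← mean_cmul]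
    refine mean_mono (hIM i) (((hIe i).add (hIn i)).cmul _) fun σ p hp => ?_
    have h1 := hpos i σ p hp
    rw [mul_add, mul_sum, mul_sum]
    refine add_le_add (sum_le_sum fun a _ => ?_) (sum_le_sum fun j _ => ?_)
    · rw [(h1.1 a).1]
      linarith [(h1.1 a).2]
    · rw [(h1.2 j).1]
      linarith [(h1.2 j).2]
  have hr2 : ∫ v in Λ, J v ^ 2 = ∫ v in Λ, g v :=
    setIntegral_congr_fun hG.hm fun v hv => hJg v (hR hv)
  have hG0 : 0 ≤ ∫ v in Λ, g v := integral_nonneg fun v => (hg.pos v).le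
  rw [hr2] at h0
  have hcou2 : mM Ψ (fun p => EG g z (pr χ W z p) p) =
      ∑ i, mean (Ψ i) (fun p => ∑ j, z j * (J (p.2 j) ^ 2 * (phiN z j p (p.2 j) - pr χ W z p)) -
        ∑ a, J (p.1 a) ^ 2 * (phiE z a p (p.1 a) - pr χ W z p)) := by
    unfold mM
    exact sum_congr rfl fun i _ => (hcou i).symm
  rw [sum_add_distrib, ← hcou2] at h0
  have hk2 := sum_le_sum fun i (_ : i ∈ (univ : Finset ι)) => hkin i
  rw [sum_sub_distrib, ← mul_sum, ← mul_sum, sum_add_distrib] at hk2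
  have hE1' : ∑ i, mean (Ψ i) (fun p => ∑ a, g (p.1 a)) = E1 := hE1.symm
  have hE2' : ∑ i, mean (Ψ i) (fun p => ∑ j, g (p.2 j)) = E2 := hE2.symm
  rw [hE1', hE2'] at hk2
  rw [← hE1, ← hE2]
  obtain ⟨I, hI⟩ : ∃ I, I = ∫ v in Λ, g v := ⟨_, rfl⟩
  rw [← hI] at h0 hG0 ⊢
  have hδ := hG.hδ
  have hnk : 0 ≤ ((n : ℝ) + k + I) * δ := by positivity
  have t1 : C1 * (mM Ψ (fun p => ∑ a, (J (p.1 a) ^ 2 + gr J (p.1 a)) +
      ∑ j, (J (p.2 j) ^ 2 + gr J (p.2 j))) + I + (n + k + I) * δ) ≤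
      C1 * (1 + |C0|) * (E1 + E2 + I + (n + k + I) * δ) := by
    rw [mul_assoc]
    refine mul_le_mul_of_nonneg_left ?_ hC1
    nlinarith
  have t2 : 3 / 4 * |C0| * (1 + |κp|) * (E1 + E2) ≤
      3 / 4 * |C0| * (1 + |κp|) * (E1 + E2 + I + (n + k + I) * δ) :=
    mul_le_mul_of_nonneg_left (by linarith) (by positivity)
  have t3 : (C1 * (1 + |C0|) + 3 / 4 * |C0| * (1 + |κp|)) * (E1 + E2 + I + (n + k + I) * δ) =
      C1 * (1 + |C0|) * (E1 + E2 + I + (n + k + I) * δ) +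
        3 / 4 * |C0| * (1 + |κp|) * (E1 + E2 + I + (n + k + I) * δ) := by ring
  linarith

end H6.CX
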