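import Pool.Agent.H6.CX.TStW
import Pool.Agent.H6.CB.Lt53

/-! Weighted Lieb-Thirring inequalities. `ltw`: pointwise `g (x a) * ce p (x a) 1 ^ (2/3) ≤ C ∫ v, g v 1[‖x a - v‖ < 1] * ce p v 2 ^ (2/3)`, so the sum over `a` is at most `C ∫ v, g v * ce p v 2 ^ (5/3)`; `lt53` with `s = 2` at every `v`, `w_te`, `w_ce` with `R = 4`. `lcw`: `lc1` with `s = 1` and `lam` large at every `v ∈ N`, multiplied by `g v`, integrated over `v ∈ N`; on the left, `Jc θ v 1 (x a) = 1` for `‖v - x a‖ ≤ 1`, and all these `v` belong to `N`; on the right `kE_J`, `w_te`, `w_ce` with `R = 2`; the term `C * mean ce` is absorbed by the left side for large `lam`, and `lam⁻¹` times the constant is at most `ε`. -/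

open MeasureTheory Finset

namespace H6.CX

open H6.CM H6.CB H6.CL H6.CT

private theorem ltw_TE0 {q n k : ℕ} (ψ : (Fin n → Fin q) → Cfg n k → ℂ) (x : E3) (r : ℝ) :
    0 ≤ TE ψ x r := by
  unfold TE
  refine sum_nonneg fun a _ => sum_nonneg fun σ _ => integral_nonneg fun p => ?_
  dsimp only
  split_ifs
  · exact ge_nonneg _ _ _
  · exact le_refl 0

private theorem ltw_TN0 {q n k : ℕ} (ψ : (Fin n → Fin q) → Cfg n k → ℂ) (x : E3) (r : ℝ) :
    0 ≤ TN ψ x r := by
  unfold TN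
  refine sum_nonneg fun a _ => sum_nonneg fun σ _ => integral_nonneg fun p => ?_
  dsimp only
  split_ifs
  · exact gn_nonneg _ _ _
  · exact le_refl 0

private theorem ltw_joint {n k : ℕ} (r : ℝ) :
    Measurable (fun u : Cfg n k × E3 => ce u.1 u.2 r) := by
  unfold ce
  refine Finset.measurable_fun_sum _ fun a _ => ?_
  have h1 : Measurable (fun u : Cfg n k × E3 => ‖u.1.1 a - u.2‖) :=
    (((meas_e a).comp measurable_fst).sub measurable_snd).norm
  exact Measurable.ite (measurableSet_lt h1 measurable_const) measurable_const measurable_const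

/-- the positions of the electrons in the support are bounded -/
private theorem ltw_bdd {q n k : ℕ} {Λ : Set E3} {ψ : (Fin n → Fin q) → Cfg n k → ℂ}
    (h : Sm q n k Λ ψ) : ∃ R : ℝ, 0 < R ∧ ∀ σ p, ψ σ p ≠ 0 → ∀ a, ‖p.1 a‖ < R := by
  have h1 : ∀ σ, ∃ R : ℝ, ∀ p ∈ tsupport (ψ σ), ‖p‖ ≤ R := fun σ =>
    (h.cpt σ).isCompact.isBounded.exists_norm_le
  choose R hR using h1
  refine ⟨∑ σ, |R σ| + 1, by positivity, fun σ p hp a => ?_⟩
  have h2 := hR σ p (subset_tsupport _ hp)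
  have h3 : ‖p.1 a‖ ≤ ‖p‖ := (norm_le_pi_norm p.1 a).trans (norm_fst_le p)
  have h4 : |R σ| ≤ ∑ σ, |R σ| :=
    single_le_sum (f := fun σ => |R σ|) (fun i _ => abs_nonneg _) (mem_univ σ)
  have h5 := le_abs_self (R σ)
  linarith

theorem ltw (q : ℕ) (C0 : ℝ) : ∃ C : ℝ, 0 ≤ C ∧
    ∀ (n k : ℕ) (Λ : Set E3) (Φ : (Fin n → Fin q) → Cfg n k → ℂ) (_ : St q n k Λ Φ)
    (g : E3 → ℝ) (_ : Wt C0 g),
    IM Φ (fun p => ∑ a, g (p.1 a) * ce p (p.1 a) 1 ^ (2 / 3 : ℝ)) ∧
    mean Φ (fun p => ∑ a, g (p.1 a) * ce p (p.1 a) 1 ^ (2 / 3 : ℝ)) ≤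
      C * (TGs g Φ + mean Φ (fun p => ∑ a, g (p.1 a))) := by
  obtain ⟨C1, hC1, h53⟩ := lt53 q
  obtain ⟨C2, hC2, hte⟩ := w_te C0 4 (by norm_num) (by norm_num)
  obtain ⟨C3, hC3, hce⟩ := w_ce C0 4 (by norm_num) (by norm_num)
  obtain ⟨V, hV⟩ : ∃ V : ℝ, V = volume.real (Metric.ball (0 : E3) 1) := ⟨_, rfl⟩
  have hVpos : 0 < V := by
    rw [hV, Measure.real]
    exact ENNReal.toReal_pos (Metric.measure_ball_pos _ _ one_pos).ne' measure_ball_lt_top.ne
  refine ⟨(|C0| / V) * (C1 * (4 * C2 + C3)), by positivity, ?_⟩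
  intro n k Λ Φ hΦ g hg
  have hsm := St_sm hΦ
  have hg0 := fun v => (hg.pos v).le
  have hgc := hg.smooth.continuous
  have hC0 : 0 ≤ C0 := by
    by_contra hneg
    have h1 := hg.har 0 0 (by simp)
    have h2 := hg.pos 0
    nlinarith
  have hIM : IM Φ (fun p => ∑ a, g (p.1 a) * ce p (p.1 a) 1 ^ (2 / 3 : ℝ)) := by
    refine IM.sum _ fun a _ => ?_
    have i1 : IM Φ (fun p => g (p.1 a)) :=
      IM.cont hsm (hgc.comp ((continuous_apply a).comp continuous_fst))
    have i2 := i1.bmul (c := fun p => ce p (p.1 a) 1 ^ (2 / 3 : ℝ))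
      (((ltw_joint 1).comp (measurable_id.prodMk (meas_e a))).pow_const _)
      ((n : ℝ) ^ (2 / 3 : ℝ)) fun p => by
        rw [abs_of_nonneg (Real.rpow_nonneg (ce_nonneg _ _ _) _)]
        exact Real.rpow_le_rpow (ce_nonneg _ _ _) (ce_le _ _ _) (by norm_num)
    refine i2.congr fun σ p _ => by ring
  refine ⟨hIM, ?_⟩
  obtain ⟨R, hR, hRb⟩ := ltw_bdd hsm
  -- the exchange
  obtain ⟨M, hM⟩ := (isCompact_closedBall (0 : E3) (R + 2)).exists_bound_of_continuousOn
    hgc.continuousOn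
  have hM0 : 0 ≤ M := (norm_nonneg _).trans (hM 0 (by simp; linarith))
  have hb := mean_ball hsm 0 (R + 2) (F := fun v p => g v * ce p v 2 ^ (5 / 3 : ℝ))
    ((hgc.measurable.comp measurable_snd).mul ((ltw_joint 2).pow_const _))
    (G := fun _ => M * (n : ℝ) ^ (5 / 3 : ℝ)) continuous_const (fun v hv p => by
      have h1 := hM v (Metric.ball_subset_closedBall hv)
      rw [abs_mul]
      refine mul_le_mul h1 ?_ (abs_nonneg _) hM0
      rw [abs_of_nonneg (Real.rpow_nonneg (ce_nonneg _ _ _) _)]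
      exact Real.rpow_le_rpow (ce_nonneg _ _ _) (ce_le _ _ _) (by norm_num))
  obtain ⟨b1, b2, b3⟩ := hb
  have hpt : ∀ σ p, Φ σ p ≠ 0 → ∑ a, g (p.1 a) * ce p (p.1 a) 1 ^ (2 / 3 : ℝ) ≤
      (C0 / V) * ∫ v in Metric.ball (0 : E3) (R + 2), g v * ce p v 2 ^ (5 / 3 : ℝ) := by
    intro σ p hp
    have hInt : IntegrableOn (fun v => g v * ce p v 2 ^ (5 / 3 : ℝ))
        (Metric.ball (0 : E3) (R + 2)) := by
      have hb : IntegrableOn (fun _ : E3 => M * (n : ℝ) ^ (5 / 3 : ℝ))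
          (Metric.ball (0 : E3) (R + 2)) :=
        integrableOn_const (hs := measure_ball_lt_top.ne)
      refine hb.mono' ?_ ?_
      · exact (hgc.measurable.mul (((ltw_joint 2).comp
          (measurable_const.prodMk measurable_id)).pow_const _)).aestronglyMeasurable
      · refine (ae_restrict_iff' measurableSet_ball).2 (Filter.Eventually.of_forall fun v hv => ?_)
        have h1 := hM v (Metric.ball_subset_closedBall hv)
        rw [norm_mul]
        refine mul_le_mul h1 ?_ (norm_nonneg _) hM0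
        rw [Real.norm_eq_abs, abs_of_nonneg (Real.rpow_nonneg (ce_nonneg _ _ _) _)]
        exact Real.rpow_le_rpow (ce_nonneg _ _ _) (ce_le _ _ _) (by norm_num)
    have h1 : ∀ v, g v * ce p v 2 ^ (5 / 3 : ℝ) ≥
        ∑ a, (Metric.ball (p.1 a) 1).indicator (fun v => g v * ce p v 2 ^ (2 / 3 : ℝ)) v := by
      intro v
      have e1 : ∑ a, (Metric.ball (p.1 a) 1).indicator
          (fun v => g v * ce p v 2 ^ (2 / 3 : ℝ)) v = ce p v 1 * (g v * ce p v 2 ^ (2 / 3 : ℝ)) := by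
        unfold ce
        rw [sum_mul]
        refine sum_congr rfl fun a _ => ?_
        by_cases h : ‖p.1 a - v‖ < 1
        · have h' : v ∈ Metric.ball (p.1 a) 1 := by rw [mem_ball_iff_norm']; exact h
          rw [Set.indicator_of_mem h', if_pos h, one_mul]
        · have h' : v ∉ Metric.ball (p.1 a) 1 := by rw [mem_ball_iff_norm']; exact h
          rw [Set.indicator_of_notMem h', if_neg h, zero_mul]
      rw [ge_iff_le, e1]
      have c0 := ce_nonneg p v 2
      have c1 : ce p v 1 ≤ ce p v 2 := ce_mono p (by norm_num)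
      have e2 : ce p v 2 ^ (5 / 3 : ℝ) = ce p v 2 * ce p v 2 ^ (2 / 3 : ℝ) := by
        rw [← Real.rpow_one_add' c0 (by norm_num)]
        norm_num
      rw [e2]
      have e3 : g v * (ce p v 2 * ce p v 2 ^ (2 / 3 : ℝ)) =
        ce p v 2 * (g v * ce p v 2 ^ (2 / 3 : ℝ)) := by ring
      rw [e3]
      exact mul_le_mul_of_nonneg_right c1 (mul_nonneg (hg0 v) (Real.rpow_nonneg c0 _))
    have h2 : ∀ a, g (p.1 a) * ce p (p.1 a) 1 ^ (2 / 3 : ℝ) ≤ (C0 / V) *
        ∫ v in Metric.ball (0 : E3) (R + 2),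
          (Metric.ball (p.1 a) 1).indicator (fun v => g v * ce p v 2 ^ (2 / 3 : ℝ)) v := by
      intro a
      have hsub : Metric.ball (p.1 a) 1 ⊆ Metric.ball (0 : E3) (R + 2) := by
        intro w hw
        rw [mem_ball_iff_norm] at hw
        rw [mem_ball_zero_iff]
        have h3 := hRb σ p hp a
        calc ‖w‖ = ‖(w - p.1 a) + p.1 a‖ := by rw [sub_add_cancel]
          _ ≤ ‖w - p.1 a‖ + ‖p.1 a‖ := norm_add_le _ _
          _ < R + 2 := by linarith
      rw [setIntegral_indicator measurableSet_ball, Set.inter_eq_self_of_subset_right hsub]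
      have hI2 : IntegrableOn (fun v => g v * ce p v 2 ^ (2 / 3 : ℝ)) (Metric.ball (p.1 a) 1) := by
        have hb : IntegrableOn (fun _ : E3 => M * (n : ℝ) ^ (2 / 3 : ℝ))
            (Metric.ball (p.1 a) 1) :=
          integrableOn_const (hs := measure_ball_lt_top.ne)
        refine hb.mono' ?_ ?_
        · exact (hgc.measurable.mul (((ltw_joint 2).comp
            (measurable_const.prodMk measurable_id)).pow_const _)).aestronglyMeasurable
        · refine (ae_restrict_iff' measurableSet_ball).2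
            (Filter.Eventually.of_forall fun v hv => ?_)
          have h1 := hM v (Metric.ball_subset_closedBall (hsub hv))
          rw [norm_mul]
          refine mul_le_mul h1 ?_ (norm_nonneg _) hM0
          rw [Real.norm_eq_abs, abs_of_nonneg (Real.rpow_nonneg (ce_nonneg _ _ _) _)]
          exact Real.rpow_le_rpow (ce_nonneg _ _ _) (ce_le _ _ _) (by norm_num)
      have h4 : V * (g (p.1 a) * ce p (p.1 a) 1 ^ (2 / 3 : ℝ)) ≤
          C0 * ∫ v in Metric.ball (p.1 a) 1, g v * ce p v 2 ^ (2 / 3 : ℝ) := by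
        rw [← integral_const_mul]
        have e4 : V * (g (p.1 a) * ce p (p.1 a) 1 ^ (2 / 3 : ℝ)) =
            ∫ _v in Metric.ball (p.1 a) 1, g (p.1 a) * ce p (p.1 a) 1 ^ (2 / 3 : ℝ) := by
          rw [setIntegral_const, smul_eq_mul, hV, Measure.real, Measure.real,
            Measure.addHaar_ball_center volume (p.1 a) 1]
        rw [e4]
        refine setIntegral_mono_on (integrableOn_const (hs := measure_ball_lt_top.ne))
          (hI2.const_mul C0) measurableSet_ball fun v hv => ?_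
        rw [mem_ball_iff_norm] at hv
        have h5 := hg.har (p.1 a) v (by rw [norm_sub_rev]; exact (hv.le.trans (by norm_num)))
        have h6 : ce p (p.1 a) 1 ≤ ce p v 2 := by
          refine ce_mono p ?_
          rw [norm_sub_rev]
          linarith [hv]
        have h7 : ce p (p.1 a) 1 ^ (2 / 3 : ℝ) ≤ ce p v 2 ^ (2 / 3 : ℝ) :=
          Real.rpow_le_rpow (ce_nonneg _ _ _) h6 (by norm_num)
        calc g (p.1 a) * ce p (p.1 a) 1 ^ (2 / 3 : ℝ) ≤ (C0 * g v) * ce p v 2 ^ (2 / 3 : ℝ) :=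
              mul_le_mul h5 h7 (Real.rpow_nonneg (ce_nonneg _ _ _) _)
                (mul_nonneg hC0 (hg0 v))
          _ = C0 * (g v * ce p v 2 ^ (2 / 3 : ℝ)) := by ring
      rw [div_mul_eq_mul_div, le_div_iff₀ hVpos]
      linarith
    have hI3 : ∀ a, IntegrableOn ((Metric.ball (p.1 a) 1).indicator
        (fun v => g v * ce p v 2 ^ (2 / 3 : ℝ))) (Metric.ball (0 : E3) (R + 2)) := by
      intro a
      have hb : IntegrableOn (fun _ : E3 => M * (n : ℝ) ^ (2 / 3 : ℝ))
          (Metric.ball (0 : E3) (R + 2)) :=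
        integrableOn_const (hs := measure_ball_lt_top.ne)
      refine hb.mono' ?_ ?_
      · exact ((hgc.measurable.mul (((ltw_joint 2).comp
          (measurable_const.prodMk measurable_id)).pow_const _)).indicator
          measurableSet_ball).aestronglyMeasurable
      · refine (ae_restrict_iff' measurableSet_ball).2
          (Filter.Eventually.of_forall fun v hv => ?_)
        have h1 := hM v (Metric.ball_subset_closedBall hv)
        refine (norm_indicator_le_norm_self _ _).trans ?_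
        rw [norm_mul]
        refine mul_le_mul h1 ?_ (norm_nonneg _) hM0
        rw [Real.norm_eq_abs, abs_of_nonneg (Real.rpow_nonneg (ce_nonneg _ _ _) _)]
        exact Real.rpow_le_rpow (ce_nonneg _ _ _) (ce_le _ _ _) (by norm_num)
    calc ∑ a, g (p.1 a) * ce p (p.1 a) 1 ^ (2 / 3 : ℝ)
        ≤ ∑ a, (C0 / V) * ∫ v in Metric.ball (0 : E3) (R + 2),
          (Metric.ball (p.1 a) 1).indicator (fun v => g v * ce p v 2 ^ (2 / 3 : ℝ)) v :=
          sum_le_sum fun a _ => h2 a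
      _ = (C0 / V) * ∫ v in Metric.ball (0 : E3) (R + 2), ∑ a,
          (Metric.ball (p.1 a) 1).indicator (fun v => g v * ce p v 2 ^ (2 / 3 : ℝ)) v := by
          rw [← mul_sum, integral_finsetSum _ fun a _ => hI3 a]
      _ ≤ _ := by
          refine mul_le_mul_of_nonneg_left ?_ (by positivity)
          exact setIntegral_mono_on (integrable_finsetSum _ fun a _ => hI3 a) hInt
            measurableSet_ball fun v _ => h1 v
  have m1 := mean_mono hIM (b2.cmul (C0 / V)) hpt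
  rw [mean_cmul, ← b3] at m1
  refine m1.trans ?_
  rw [abs_of_nonneg hC0, mul_assoc]
  refine mul_le_mul_of_nonneg_left ?_ (by positivity)
  obtain ⟨t1, t2⟩ := hte q n k Λ Φ hsm g hg
  obtain ⟨c1, -, c3, -, -⟩ := hce q n k Λ Φ hsm g hg
  have hdom : Integrable (fun v => C1 * (4 * (g v * (TE Φ v 4 + TN Φ v 4)) +
      g v * mean Φ (fun p => ce p v 4))) := ((t1.const_mul 4).add c1).const_mul C1
  have hdom0 : ∀ v, 0 ≤ C1 * (4 * (g v * (TE Φ v 4 + TN Φ v 4)) +
      g v * mean Φ (fun p => ce p v 4)) := by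
    intro v
    have a1 := ltw_TE0 Φ v 4
    have a2 := ltw_TN0 Φ v 4
    have a3 := hg0 v
    have a4 : 0 ≤ mean Φ (fun p => ce p v 4) := mean_nonneg fun _ p _ => ce_nonneg _ _ _
    positivity
  calc ∫ v in Metric.ball (0 : E3) (R + 2), mean Φ (fun p => g v * ce p v 2 ^ (5 / 3 : ℝ))
      ≤ ∫ v in Metric.ball (0 : E3) (R + 2), C1 * (4 * (g v * (TE Φ v 4 + TN Φ v 4)) +
        g v * mean Φ (fun p => ce p v 4)) := by
        refine setIntegral_mono_on b1 hdom.integrableOn measurableSet_ball fun v _ => ?_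
        rw [mean_cmul]
        have h1 := h53 n k Λ Φ hΦ v 2 (by norm_num)
        have e1 : (2 : ℝ) * 2 = 4 := by norm_num
        have e2 : (2 : ℝ) ^ 2 = 4 := by norm_num
        rw [e1, e2] at h1
        have h2 := ltw_TN0 Φ v 4
        have h3 : C1 * (4 * TE Φ v 4 + mean Φ (fun p => ce p v 4)) ≤
            C1 * (4 * (TE Φ v 4 + TN Φ v 4) + mean Φ (fun p => ce p v 4)) :=
          mul_le_mul_of_nonneg_left (by linarith) hC1
        have h4 := mul_le_mul_of_nonneg_left (h1.trans h3) (hg0 v)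
        refine h4.trans (le_of_eq ?_)
        ring
    _ ≤ ∫ v, C1 * (4 * (g v * (TE Φ v 4 + TN Φ v 4)) + g v * mean Φ (fun p => ce p v 4)) :=
        setIntegral_le_integral hdom (Filter.Eventually.of_forall hdom0)
    _ = C1 * (4 * (∫ v, g v * (TE Φ v 4 + TN Φ v 4)) +
        ∫ v, g v * mean Φ (fun p => ce p v 4)) := by
        rw [integral_const_mul, integral_add (t1.const_mul 4) c1, integral_const_mul]
    _ ≤ C1 * (4 * (C2 * TGs g Φ) + C3 * mean Φ (fun p => ∑ a, g (p.1 a))) := by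
        refine mul_le_mul_of_nonneg_left ?_ hC1
        linarith
    _ ≤ C1 * (4 * C2 + C3) * (TGs g Φ + mean Φ (fun p => ∑ a, g (p.1 a))) := by
        rw [mul_assoc]
        refine mul_le_mul_of_nonneg_left ?_ hC1
        have a1 := TGs_nonneg hg Φ
        have a2 : 0 ≤ mean Φ (fun p => ∑ a, g (p.1 a)) :=
          mean_nonneg fun _ p _ => sum_nonneg fun a _ => hg0 _
        have a3 : 0 ≤ C3 * TGs g Φ := by positivity
        have a4 : 0 ≤ 4 * C2 * mean Φ (fun p => ∑ a, g (p.1 a)) := by positivity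
        linarith

theorem lcw (q : ℕ) (C0 ε : ℝ) (hε : 0 < ε) : ∃ C : ℝ, 0 ≤ C ∧
    ∀ (n k : ℕ) (Λ : Set E3) (Φ : (Fin n → Fin q) → Cfg n k → ℂ) (_ : St q n k Λ Φ)
    (g : E3 → ℝ) (_ : Wt C0 g) (N : Set E3) (_ : MeasurableSet N)
    (_ : Bornology.IsBounded N) (_ : ∀ x ∈ Λ, ∀ v, ‖x - v‖ < 2 → v ∈ N),
    mean Φ (fun p => ∑ a, g (p.1 a)) ≤
      ε * TGs g Φ + C * (∫ v in N, g v) * mass Φ := by
  obtain ⟨θ, hθ⟩ := cut_ex
  obtain ⟨Cl, hCl, hlc⟩ := lc1 q hθ
  obtain ⟨Cj, hCj, hkj⟩ := kE_J hθ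
  obtain ⟨Ct, hCt, hte⟩ := w_te C0 2 (by norm_num) (by norm_num)
  obtain ⟨Cc2, hCc2, hce2⟩ := w_ce C0 2 (by norm_num) (by norm_num)
  obtain ⟨Cc1, hCc1, hce1⟩ := w_ce C0 1 (by norm_num) (by norm_num)
  obtain ⟨L, hL⟩ : ∃ L : ℝ, L = 2 * Ct / ε + 1 := ⟨_, rfl⟩
  have hLpos : 0 < L := by rw [hL]; positivity
  obtain ⟨lam, hlam⟩ : ∃ lam : ℝ, lam = (Cc1 + 1) * (Cj * Cc2 + L) := ⟨_, rfl⟩
  have hlpos : 0 < lam := by rw [hlam]; positivity
  refine ⟨Cl * lam ^ (5 / 2 : ℝ) / L, by positivity, ?_⟩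
  intro n k Λ Φ hΦ g hg N hNm hNb hN
  have hsm := St_sm hΦ
  have hg0 := fun v => (hg.pos v).le
  have hgc := hg.smooth.continuous
  obtain ⟨t1, t2⟩ := hte q n k Λ Φ hsm g hg
  obtain ⟨c1, -, c3, -, -⟩ := hce2 q n k Λ Φ hsm g hg
  obtain ⟨d1, -, -, -, d5⟩ := hce1 q n k Λ Φ hsm g hg
  have hmass : 0 ≤ mass Φ := mass_nonneg
  obtain ⟨X, hX⟩ : ∃ X : ℝ, X = mean Φ (fun p => ∑ a, g (p.1 a)) := ⟨_, rfl⟩
  have hX0 : 0 ≤ X := by
    rw [hX]
    exact mean_nonneg fun _ p _ => sum_nonneg fun a _ => hg0 _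
  rw [← hX] at c3 d5 ⊢
  have hgN : IntegrableOn g N := by
    obtain ⟨R, hR⟩ := hNb.subset_closedBall (0 : E3)
    exact (hgc.continuousOn.integrableOn_compact (isCompact_closedBall (0 : E3) R)).mono_set hR
  -- outside of `N`
  have hout : ∫ v, g v * mean Φ (fun p => ce p v 1) =
      ∫ v in N, g v * mean Φ (fun p => ce p v 1) := by
    symm
    refine setIntegral_eq_integral_of_forall_compl_eq_zero fun v hv => ?_
    have h1 : mean Φ (fun p => ce p v 1) = mean Φ (fun _ => 0) := by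
      refine mean_congr fun σ p hp => ?_
      unfold ce
      refine sum_eq_zero fun a _ => ?_
      rw [if_neg]
      intro hlt
      exact hv (hN (p.1 a) ((hΦ.supp σ p (subset_tsupport _ hp)).1 a) v (by linarith))
    rw [h1]
    have h2 : mean Φ (fun _ => (0 : ℝ)) = 0 := by
      unfold mean
      simp
    rw [h2, mul_zero]
  have hpt : ∀ v, lam * (g v * mean Φ (fun p => ce p v 1)) ≤
      2 * (g v * (TE Φ v 2 + TN Φ v 2)) + Cj * (g v * mean Φ (fun p => ce p v 2)) +
        (Cl * lam ^ (5 / 2 : ℝ) * mass Φ) * g v := by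
    intro v
    have h1 := hlc n k Λ Φ hΦ v 1 one_pos lam hlpos
    have h2 := hkj q n k Λ Φ hsm v
    have h3 : mean Φ (fun p => ce p v 1) ≤ mean Φ (fun p => ∑ a, Jc θ v 1 (p.1 a) ^ 2) := by
      have hJc : ∀ a : Fin n, Continuous (fun p : Cfg n k => Jc θ v 1 (p.1 a)) := fun a =>
        (Jc_smooth hθ v 1).continuous.comp ((continuous_apply a).comp continuous_fst)
      refine mean_mono (IM_ce hsm v 1) (IM.cont hsm
        (continuous_finsetSum _ fun a _ => (hJc a).pow 2)) fun σ p _ => ?_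
      unfold ce
      refine sum_le_sum fun a _ => ?_
      split_ifs with h
      · rw [Jc_one hθ v 1 one_pos (p.1 a) h.le]
        norm_num
      · exact sq_nonneg _
    have h4 : 0 ≤ TN Φ v 2 := ltw_TN0 Φ v 2
    have h5 : lam * mean Φ (fun p => ce p v 1) ≤
        2 * (TE Φ v 2 + TN Φ v 2) + Cj * mean Φ (fun p => ce p v 2) +
          Cl * lam ^ (5 / 2 : ℝ) * mass Φ := by
      have h6 := mul_le_mul_of_nonneg_left h3 hlpos.le
      have e1 : Cl * (lam ^ (5 / 2 : ℝ) * (1 : ℝ) ^ 3) * mass Φ =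
        Cl * lam ^ (5 / 2 : ℝ) * mass Φ := by ring
      rw [e1] at h1
      linarith
    have h7 := mul_le_mul_of_nonneg_left h5 (hg0 v)
    calc lam * (g v * mean Φ (fun p => ce p v 1)) = g v * (lam * mean Φ (fun p => ce p v 1)) := by
          ring
      _ ≤ _ := h7
      _ = _ := by ring
  have i1 : IntegrableOn (fun v => 2 * (g v * (TE Φ v 2 + TN Φ v 2))) N :=
    (t1.const_mul 2).integrableOn
  have i2 : IntegrableOn (fun v => Cj * (g v * mean Φ (fun p => ce p v 2))) N :=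
    (c1.const_mul Cj).integrableOn
  have i3 : IntegrableOn (fun v => (Cl * lam ^ (5 / 2 : ℝ) * mass Φ) * g v) N :=
    hgN.const_mul _
  have i4 : IntegrableOn (fun v => lam * (g v * mean Φ (fun p => ce p v 1))) N :=
    (d1.const_mul lam).integrableOn
  have hTc0 : ∀ v, 0 ≤ g v * (TE Φ v 2 + TN Φ v 2) := fun v =>
    mul_nonneg (hg0 v) (add_nonneg (ltw_TE0 _ _ _) (ltw_TN0 _ _ _))
  have hce0 : ∀ v, 0 ≤ g v * mean Φ (fun p => ce p v 2) := fun v =>
    mul_nonneg (hg0 v) (mean_nonneg fun _ p _ => ce_nonneg _ _ _)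
  have s1 : lam * ∫ v in N, g v * mean Φ (fun p => ce p v 1) ≤
      2 * (∫ v in N, g v * (TE Φ v 2 + TN Φ v 2)) +
        Cj * (∫ v in N, g v * mean Φ (fun p => ce p v 2)) +
        (Cl * lam ^ (5 / 2 : ℝ) * mass Φ) * ∫ v in N, g v := by
    have h1 := setIntegral_mono i4 ((i1.add i2).add i3) hpt
    rw [integral_const_mul] at h1
    refine h1.trans (le_of_eq ?_)
    have i12 : IntegrableOn (fun v => 2 * (g v * (TE Φ v 2 + TN Φ v 2)) +
      Cj * (g v * mean Φ (fun p => ce p v 2))) N := i1.add i2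
    have e1 := integral_add i12 i3
    have e2 := integral_add i1 i2
    rw [integral_const_mul, integral_const_mul] at e2
    rw [e2, integral_const_mul] at e1
    exact e1
  have s2 : ∫ v in N, g v * (TE Φ v 2 + TN Φ v 2) ≤ Ct * TGs g Φ :=
    (setIntegral_le_integral t1 (Filter.Eventually.of_forall hTc0)).trans t2
  have s3 : ∫ v in N, g v * mean Φ (fun p => ce p v 2) ≤ Cc2 * X :=
    (setIntegral_le_integral c1 (Filter.Eventually.of_forall hce0)).trans c3
  rw [← hout] at s1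
  obtain ⟨Y, hY⟩ : ∃ Y : ℝ, Y = ∫ v, g v * mean Φ (fun p => ce p v 1) := ⟨_, rfl⟩
  have hY0 : 0 ≤ Y := by
    rw [hY]
    exact integral_nonneg fun v => mul_nonneg (hg0 v) (mean_nonneg fun _ p _ => ce_nonneg _ _ _)
  rw [← hY] at s1 d5
  have s4 := mul_le_mul_of_nonneg_left s3 hCj
  have s5 : (Cj * Cc2 + L) * X ≤ lam * Y := by
    rw [hlam]
    have h1 : X ≤ (Cc1 + 1) * Y := by linarith
    have h2 : 0 ≤ Cj * Cc2 + L := by positivity
    calc (Cj * Cc2 + L) * X ≤ (Cj * Cc2 + L) * ((Cc1 + 1) * Y) :=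
          mul_le_mul_of_nonneg_left h1 h2
      _ = _ := by ring
  have s6 : L * X ≤ 2 * Ct * TGs g Φ + (Cl * lam ^ (5 / 2 : ℝ) * mass Φ) * ∫ v in N, g v := by
    linarith
  have hT0 := TGs_nonneg hg Φ
  have s7 : 2 * Ct ≤ L * ε := by
    rw [hL, add_mul, div_mul_cancel₀ _ hε.ne']
    linarith
  have s8 : L * X ≤ L * (ε * TGs g Φ +
      Cl * lam ^ (5 / 2 : ℝ) / L * (∫ v in N, g v) * mass Φ) := by
    have h1 := mul_le_mul_of_nonneg_right s7 hT0
    have e1 : L * (ε * TGs g Φ + Cl * lam ^ (5 / 2 : ℝ) / L * (∫ v in N, g v) * mass Φ) =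
        L * ε * TGs g Φ + (Cl * lam ^ (5 / 2 : ℝ) * mass Φ) * ∫ v in N, g v := by
      field_simp
    rw [e1]
    linarith
  exact le_of_mul_le_mul_left s8 hLpos

end H6.CX
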