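import Pool.Agent.H6.CX.ELs
import Pool.Agent.H6.CB.PhL3
import Pool.Agent.H6.CB.UhF
import Pool.Agent.H6.CB.FCov
import Pool.Agent.H6.CB.NMax

/-! Mean values of the local quantity in the bulk. The function `(p, v) ↦ (phi z p v - pr χ W z p) ^ 2 * ‖ψ σ p‖ ^ 2` is integrable over `Cfg n k × B` for every ball `B`: `phi ^ 2` is at most `C ∑ ‖v - x‖⁻¹ ^ 2`, whose integral over `v ∈ B` is bounded uniformly in the positions (`inv_sq`), `pr` is continuous, `ψ` has compact support. `qp_fub`: Tonelli for the nonnegative measurable function `g x * Qp z (pr χ W z p) p x * ‖ψ σ p‖ ^ 2` on `Cfg n k × S`. `av`, `EG` and `pr ^ 2` are continuous or sums of integrable functions (`IM_phiE`, `IM_phiN`, `IM.cont`, `IM.bmul` with `g` bounded on the support; `U_cont` for `chr χ 1`). -/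

open MeasureTheory Finset

namespace H6.CX

open H6.CM H6.CB H6.CL H6.CT

private theorem qi_haar (n k : ℕ) : (volume : Measure (Cfg n k)).IsAddHaarMeasure :=
  Measure.prod.instIsAddHaarMeasure (G := Fin n → E3) (H := Fin k → E3) volume volume

private theorem qi_ker {n k : ℕ} (L : Cfg n k →ₗ[ℝ] E3) (p0 : Cfg n k) (h0 : L p0 ≠ 0) :
    ∀ᵐ p : Cfg n k, L p ≠ 0 := by
  have h : (volume : Measure (Cfg n k)) (LinearMap.ker L : Set (Cfg n k)) = 0 := by
    have := qi_haar n k
    apply Measure.addHaar_submodule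
    intro h
    apply h0
    have : p0 ∈ LinearMap.ker L := by rw [h]; trivial
    exact this
  rw [ae_iff]
  have e : {a : Cfg n k | ¬L a ≠ 0} = (LinearMap.ker L : Set (Cfg n k)) := by
    ext a; simp
  rw [e]; exact h

private theorem qi_gen {n k : ℕ} : ∀ᵐ p : Cfg n k, Function.Injective p.1 ∧
    Function.Injective p.2 ∧ ∀ a j, p.1 a ≠ p.2 j := by
  have e : ∃ e : E3, e ≠ 0 := exists_ne 0
  obtain ⟨e, he⟩ := e
  have h1 : ∀ᵐ p : Cfg n k, ∀ a b, a ≠ b → p.1 a ≠ p.1 b := by
    rw [ae_all_iff]; intro a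
    rw [ae_all_iff]; intro b
    by_cases hab : a = b
    · exact Filter.Eventually.of_forall fun p h => absurd hab h
    · have := qi_ker (n := n) (k := k)
        ((LinearMap.proj a ∘ₗ LinearMap.fst ℝ (Fin n → E3) (Fin k → E3)) -
          (LinearMap.proj b ∘ₗ LinearMap.fst ℝ (Fin n → E3) (Fin k → E3)))
        (Pi.single a e, 0) (by simp [Ne.symm hab, he])
      filter_upwards [this] with p hp _ h
      exact hp (by simp [h])
  have h2 : ∀ᵐ p : Cfg n k, ∀ a b, a ≠ b → p.2 a ≠ p.2 b := by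
    rw [ae_all_iff]; intro a
    rw [ae_all_iff]; intro b
    by_cases hab : a = b
    · exact Filter.Eventually.of_forall fun p h => absurd hab h
    · have := qi_ker (n := n) (k := k)
        ((LinearMap.proj a ∘ₗ LinearMap.snd ℝ (Fin n → E3) (Fin k → E3)) -
          (LinearMap.proj b ∘ₗ LinearMap.snd ℝ (Fin n → E3) (Fin k → E3)))
        (0, Pi.single a e) (by simp [Ne.symm hab, he])
      filter_upwards [this] with p hp _ h
      exact hp (by simp [h])
  have h3 : ∀ᵐ p : Cfg n k, ∀ a j, p.1 a ≠ p.2 j := by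
    rw [ae_all_iff]; intro a
    rw [ae_all_iff]; intro j
    have := qi_ker (n := n) (k := k)
        ((LinearMap.proj a ∘ₗ LinearMap.fst ℝ (Fin n → E3) (Fin k → E3)) -
          (LinearMap.proj j ∘ₗ LinearMap.snd ℝ (Fin n → E3) (Fin k → E3)))
        (Pi.single a e, 0) (by simp [he])
    filter_upwards [this] with p hp h
    exact hp (by simp [h])
  filter_upwards [h1, h2, h3] with p h1 h2 h3
  refine ⟨fun a b h => ?_, fun a b h => ?_, h3⟩
  · by_contra hab; exact h1 a b hab h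
  · by_contra hab; exact h2 a b hab h

/-- multiplication with a continuous function -/
private theorem qi_cm {q n k : ℕ} {Λ : Set E3} {ψ : (Fin n → Fin q) → Cfg n k → ℂ}
    (h : Sm q n k Λ ψ) {F : Cfg n k → ℝ} (hF : IM ψ F) {c : Cfg n k → ℝ} (hc : Continuous c) :
    IM ψ (fun p => c p * F p) := by
  intro σ
  obtain ⟨M, hM⟩ := (h.cpt σ).isCompact.exists_bound_of_continuousOn hc.continuousOn
  have h1 : Integrable (fun p => (tsupport (ψ σ)).indicator c p * (F p * ‖ψ σ p‖ ^ 2)) := by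
    refine (hF σ).bdd_mul (c := max M 0) ?_ (Filter.Eventually.of_forall fun p => ?_)
    · exact (hc.measurable.indicator (isClosed_tsupport _).measurableSet).aestronglyMeasurable
    · by_cases hp : p ∈ tsupport (ψ σ)
      · rw [Set.indicator_of_mem hp]
        exact (hM p hp).trans (le_max_left _ _)
      · rw [Set.indicator_of_notMem hp, norm_zero]
        exact le_max_right _ _
  refine h1.congr (Filter.Eventually.of_forall fun p => ?_)
  simp only
  by_cases hp : ψ σ p = 0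
  · simp [hp]
  · rw [Set.indicator_of_mem (subset_tsupport _ hp)]
    ring

/-- exchange of the expectation and a weighted integral over a bounded set -/
private theorem qi_set {q n k : ℕ} {Λ : Set E3} {ψ : (Fin n → Fin q) → Cfg n k → ℂ}
    (h : Sm q n k Λ ψ) {S : Set E3} (hS : MeasurableSet S) (hb : Bornology.IsBounded S)
    {g : E3 → ℝ} (hg : Continuous g) {F : E3 → Cfg n k → ℝ}
    (hF : Measurable (fun u : Cfg n k × E3 => F u.2 u.1)) {G : Cfg n k → ℝ} (hG : Continuous G)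
    (hFG : ∀ v ∈ S, ∀ p, |F v p| ≤ G p) :
    IM ψ (fun p => ∫ x in S, g x * F x p) ∧
    IntegrableOn (fun x => g x * mean ψ (F x)) S ∧
    mean ψ (fun p => ∫ x in S, g x * F x p) = ∫ x in S, g x * mean ψ (F x) := by
  have hI : IP ψ (S.indicator g) F := by
    intro σ
    have h1 : Integrable (fun p => G p * ‖ψ σ p‖ ^ 2) := IM.cont h hG σ
    have h2' : IntegrableOn (fun v => |g v|) S := by
      refine IntegrableOn.mono_set ?_ (subset_closure (s := S))
      exact (hg.abs.continuousOn.integrableOn_compact hb.isCompact_closure)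
    have h2 : Integrable (S.indicator fun v => |g v|) := h2'.integrable_indicator hS
    have h3 : Integrable (fun u : Cfg n k × E3 => (G u.1 * ‖ψ σ u.1‖ ^ 2) *
        S.indicator (fun v => |g v|) u.2) := h1.mul_prod h2
    have hm : Measurable (S.indicator g) := hg.measurable.indicator hS
    refine h3.mono' ?_ (Filter.Eventually.of_forall fun u => ?_)
    · exact (((hm.comp measurable_snd).mul hF).mul
        ((Sm_sq h σ).1.measurable.comp measurable_fst)).aestronglyMeasurable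
    · by_cases hu : u.2 ∈ S
      · simp only [Set.indicator_of_mem hu, norm_mul, Real.norm_eq_abs, abs_pow, abs_norm]
        calc |g u.2| * |F u.2 u.1| * ‖ψ σ u.1‖ ^ 2 ≤ |g u.2| * G u.1 * ‖ψ σ u.1‖ ^ 2 :=
              mul_le_mul_of_nonneg_right
                (mul_le_mul_of_nonneg_left (hFG u.2 hu u.1) (abs_nonneg _)) (sq_nonneg _)
          _ = G u.1 * ‖ψ σ u.1‖ ^ 2 * |g u.2| := by ring
      · simp [Set.indicator_of_notMem hu]
  obtain ⟨a1, a2, a3⟩ := mean_fub hI
  have e1 : ∀ f : E3 → ℝ, (fun w => S.indicator g w * f w) =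
      S.indicator (fun w => g w * f w) := by
    intro f
    funext w
    by_cases hw : w ∈ S
    · simp [Set.indicator_of_mem hw]
    · simp [Set.indicator_of_notMem hw]
  simp only [e1 (fun w => mean ψ (F w))] at a1 a3
  have e2 : ∀ p, (∫ w, S.indicator g w * F w p) = ∫ w in S, g w * F w p := by
    intro p
    rw [e1 (fun w => F w p), integral_indicator hS]
  simp only [e2] at a2 a3
  rw [integral_indicator hS] at a3
  exact ⟨a2, (integrable_indicator_iff hS).1 a1, a3.symm⟩

private theorem qi_pt {n k : ℕ} (z : Fin k → ℝ) (p : Cfg n k) (c : ℝ) (v : E3) :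
    (phi z p v - c) ^ 2 ≤ 3 * (∑ j, z j ^ 2) * (∑ j, ‖v - p.2 j‖⁻¹ ^ 2) +
      3 * n * (∑ a, ‖v - p.1 a‖⁻¹ ^ 2) + 3 * c ^ 2 := by
  unfold phi
  obtain ⟨A, hA⟩ : ∃ A, A = ∑ j, z j * ‖v - p.2 j‖⁻¹ := ⟨_, rfl⟩
  obtain ⟨B, hB⟩ : ∃ B, B = ∑ a, ‖v - p.1 a‖⁻¹ := ⟨_, rfl⟩
  have h1 : A ^ 2 ≤ (∑ j, z j ^ 2) * (∑ j, ‖v - p.2 j‖⁻¹ ^ 2) := by
    rw [hA]
    exact Finset.sum_mul_sq_le_sq_mul_sq _ _ _
  have h2 : B ^ 2 ≤ n * (∑ a, ‖v - p.1 a‖⁻¹ ^ 2) := by
    have h3 := sq_sum_le_card_mul_sum_sq (s := (univ : Finset (Fin n)))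
      (f := fun a => ‖v - p.1 a‖⁻¹)
    rw [card_univ, Fintype.card_fin] at h3
    rw [hB]
    exact h3
  rw [← hA, ← hB]
  nlinarith [sq_nonneg (A + B), sq_nonneg (A + c), sq_nonneg (B - c)]

/-- the continuous bound -/
private noncomputable def GQ {n k : ℕ} (z : Fin k → ℝ) (C κ R : ℝ) (c : Cfg n k → ℝ)
    (p : Cfg n k) : ℝ :=
  3 * (∑ j, z j ^ 2) * (∑ j, C * (R + ‖p.2 j‖ + 1)) +
    3 * n * (∑ a, C * (R + ‖p.1 a‖ + 1)) + 3 * c p ^ 2 * κ + (n : ℝ) ^ (5 / 3 : ℝ) + k

private theorem GQ_cont {n k : ℕ} (z : Fin k → ℝ) (C κ R : ℝ) {c : Cfg n k → ℝ}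
    (hc : Continuous c) : Continuous (GQ z C κ R c) := by
  unfold GQ
  fun_prop

private theorem qi_ball {C : ℝ} (h : ∀ (y : E3) (s : ℝ), 0 < s →
    IntegrableOn (fun v => ‖v - y‖⁻¹ ^ 2) (Metric.ball y s) ∧
    ∫ v in Metric.ball y s, ‖v - y‖⁻¹ ^ 2 ≤ C * s) (x y : E3) (R : ℝ) (hR : ‖x‖ ≤ R) :
    IntegrableOn (fun v => ‖v - y‖⁻¹ ^ 2) (Metric.ball x 1) ∧
    ∫ v in Metric.ball x 1, ‖v - y‖⁻¹ ^ 2 ≤ C * (R + ‖y‖ + 1) := by
  have h0 : ‖x - y‖ ≤ R + ‖y‖ := (norm_sub_le x y).trans (by linarith)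
  have h1 : 0 < R + ‖y‖ + 1 := by
    have := norm_nonneg (x - y)
    linarith
  obtain ⟨h2, h3⟩ := h y (R + ‖y‖ + 1) h1
  have h4 : Metric.ball x 1 ⊆ Metric.ball y (R + ‖y‖ + 1) := by
    refine Metric.ball_subset_ball' ?_
    rw [dist_eq_norm]
    linarith
  refine ⟨h2.mono_set h4, le_trans ?_ h3⟩
  exact setIntegral_mono_set h2 (Filter.Eventually.of_forall fun v => sq_nonneg _) h4.eventuallyLE

private theorem qi_bd {n k : ℕ} (z : Fin k → ℝ) {C : ℝ}
    (h : ∀ (y : E3) (s : ℝ), 0 < s →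
    IntegrableOn (fun v => ‖v - y‖⁻¹ ^ 2) (Metric.ball y s) ∧
    ∫ v in Metric.ball y s, ‖v - y‖⁻¹ ^ 2 ≤ C * s) (R : ℝ) (c : Cfg n k → ℝ) (p : Cfg n k)
    (x : E3) (hx : ‖x‖ ≤ R) :
    |Qp z (c p) p x| ≤ GQ z C ((volume : Measure E3).real (Metric.ball (0 : E3) (R + 1))) R c p := by
  rw [abs_of_nonneg (Qp_nonneg z (c p) p x)]
  unfold Qp GQ
  have e1 : ce p x 3 ^ (5 / 3 : ℝ) ≤ (n : ℝ) ^ (5 / 3 : ℝ) :=
    Real.rpow_le_rpow (ce_nonneg p x 3) (ce_le p x 3) (by norm_num)
  have e2 : cn p x 3 ≤ k := cn_le p x 3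
  have hfin : IsFiniteMeasure ((volume : Measure E3).restrict (Metric.ball x 1)) :=
    ⟨by rw [Measure.restrict_apply_univ]; exact measure_ball_lt_top⟩
  have i1 : ∀ y : E3, Integrable (fun v => ‖v - y‖⁻¹ ^ 2)
      ((volume : Measure E3).restrict (Metric.ball x 1)) := fun y => (qi_ball h x y R hx).1
  have i2 : Integrable (fun v => 3 * (∑ j, z j ^ 2) * (∑ j, ‖v - p.2 j‖⁻¹ ^ 2))
      ((volume : Measure E3).restrict (Metric.ball x 1)) :=
    (integrable_finsetSum _ fun j _ => i1 (p.2 j)).const_mul _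
  have i3 : Integrable (fun v => 3 * (n : ℝ) * (∑ a, ‖v - p.1 a‖⁻¹ ^ 2))
      ((volume : Measure E3).restrict (Metric.ball x 1)) :=
    (integrable_finsetSum _ fun j _ => i1 (p.1 j)).const_mul _
  have i4 : Integrable (fun _ : E3 => 3 * (c p) ^ 2)
      ((volume : Measure E3).restrict (Metric.ball x 1)) := integrable_const _
  have i5 : Integrable (fun v => 3 * (∑ j, z j ^ 2) * (∑ j, ‖v - p.2 j‖⁻¹ ^ 2) +
      3 * (n : ℝ) * (∑ a, ‖v - p.1 a‖⁻¹ ^ 2))
      ((volume : Measure E3).restrict (Metric.ball x 1)) := i2.add i3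
  have e3 : ∫ v in Metric.ball x 1, (phi z p v - c p) ^ 2 ≤
      ∫ v in Metric.ball x 1, (3 * (∑ j, z j ^ 2) * (∑ j, ‖v - p.2 j‖⁻¹ ^ 2) +
        3 * n * (∑ a, ‖v - p.1 a‖⁻¹ ^ 2) + 3 * (c p) ^ 2) :=
    integral_mono (phi_sq z p (c p) x 1) (i5.add i4) fun v => qi_pt z p (c p) v
  have e4 : ∫ v in Metric.ball x 1, (3 * (∑ j, z j ^ 2) * (∑ j, ‖v - p.2 j‖⁻¹ ^ 2) +
        3 * n * (∑ a, ‖v - p.1 a‖⁻¹ ^ 2) + 3 * (c p) ^ 2) =
      3 * (∑ j, z j ^ 2) * (∑ j, ∫ v in Metric.ball x 1, ‖v - p.2 j‖⁻¹ ^ 2) +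
        3 * n * (∑ a, ∫ v in Metric.ball x 1, ‖v - p.1 a‖⁻¹ ^ 2) +
        3 * (c p) ^ 2 * (volume : Measure E3).real (Metric.ball x 1) := by
    rw [integral_add i5 i4, integral_add i2 i3, integral_const_mul, integral_const_mul,
      integral_finsetSum _ fun j _ => i1 (p.2 j), integral_finsetSum _ fun j _ => i1 (p.1 j),
      setIntegral_const, smul_eq_mul]
    ring
  have hz : 0 ≤ ∑ j, z j ^ 2 := sum_nonneg fun j _ => sq_nonneg _
  have e5 : 3 * (∑ j, z j ^ 2) * (∑ j, ∫ v in Metric.ball x 1, ‖v - p.2 j‖⁻¹ ^ 2) ≤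
      3 * (∑ j, z j ^ 2) * (∑ j, C * (R + ‖p.2 j‖ + 1)) :=
    mul_le_mul_of_nonneg_left (sum_le_sum fun j _ => (qi_ball h x (p.2 j) R hx).2)
      (by linarith)
  have e6 : 3 * (n : ℝ) * (∑ a, ∫ v in Metric.ball x 1, ‖v - p.1 a‖⁻¹ ^ 2) ≤
      3 * n * (∑ a, C * (R + ‖p.1 a‖ + 1)) :=
    mul_le_mul_of_nonneg_left (sum_le_sum fun j _ => (qi_ball h x (p.1 j) R hx).2)
      (by positivity)
  have e7 : (volume : Measure E3).real (Metric.ball x 1) ≤
      (volume : Measure E3).real (Metric.ball (0 : E3) (R + 1)) := by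
    refine measureReal_mono (Metric.ball_subset_ball' ?_) measure_ball_lt_top.ne
    rw [dist_zero_right]
    linarith
  have e8 := mul_le_mul_of_nonneg_left e7 (show (0 : ℝ) ≤ 3 * (c p) ^ 2 by positivity)
  rw [e4] at e3
  linarith

private theorem qi_phm {n k : ℕ} (z : Fin k → ℝ) :
    Measurable (fun u : Cfg n k × E3 => phi z u.1 u.2) := by
  unfold phi
  have h1 : ∀ j : Fin k, Measurable (fun u : Cfg n k × E3 => u.2 - u.1.2 j) := fun j =>
    measurable_snd.sub ((meas_n j).comp measurable_fst)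
  have h2 : ∀ a : Fin n, Measurable (fun u : Cfg n k × E3 => u.2 - u.1.1 a) := fun a =>
    measurable_snd.sub ((meas_e a).comp measurable_fst)
  refine Measurable.sub ?_ ?_
  · exact Finset.measurable_fun_sum _ fun j _ => ((h1 j).norm.inv).const_mul (z j)
  · exact Finset.measurable_fun_sum _ fun a _ => (h2 a).norm.inv

private theorem qi_mint {Y : Type*} [MeasurableSpace Y] {f : Y × E3 → ℝ} (hf : Measurable f) :
    Measurable (fun y => ∫ v, f (y, v)) :=
  hf.stronglyMeasurable.integral_prod_right'.measurable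

private theorem qi_Qpm {n k : ℕ} (z : Fin k → ℝ) {c : Cfg n k → ℝ} (hc : Measurable c) :
    Measurable (fun u : Cfg n k × E3 => Qp z (c u.1) u.1 u.2) := by
  unfold Qp
  have h1 : ∀ a : Fin n, Measurable (fun u : Cfg n k × E3 => u.1.1 a - u.2) := fun a =>
    ((meas_e a).comp measurable_fst).sub measurable_snd
  have h2 : ∀ j : Fin k, Measurable (fun u : Cfg n k × E3 => u.1.2 j - u.2) := fun j =>
    ((meas_n j).comp measurable_fst).sub measurable_snd
  refine Measurable.add (Measurable.add ?_ ?_) ?_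
  · have e : ∀ u : Cfg n k × E3, ∫ v in Metric.ball u.2 1, (phi z u.1 v - c u.1) ^ 2 =
        ∫ v, (if ‖v - u.2‖ < 1 then (phi z u.1 v - c u.1) ^ 2 else 0) := by
      intro u
      rw [← integral_indicator measurableSet_ball]
      refine integral_congr_ae (Filter.Eventually.of_forall fun v => ?_)
      simp only
      by_cases hv : v ∈ Metric.ball u.2 1
      · rw [Set.indicator_of_mem hv]
        rw [Metric.mem_ball, dist_eq_norm] at hv
        rw [if_pos hv]
      · rw [Set.indicator_of_notMem hv]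
        rw [Metric.mem_ball, dist_eq_norm] at hv
        rw [if_neg hv]
    simp only [e]
    have hm : Measurable (fun w : (Cfg n k × E3) × E3 =>
        if ‖w.2 - w.1.2‖ < 1 then (phi z w.1.1 w.2 - c w.1.1) ^ 2 else 0) := by
      refine Measurable.ite ?_ ?_ measurable_const
      · exact measurableSet_lt (measurable_snd.sub (measurable_snd.comp measurable_fst)).norm
          measurable_const
      · refine Measurable.pow_const ?_ 2
        refine Measurable.sub ?_ (hc.comp (measurable_fst.comp measurable_fst))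
        have hq : Measurable (fun w : (Cfg n k × E3) × E3 => ((w.1.1, w.2) : Cfg n k × E3)) :=
          (measurable_fst.comp measurable_fst).prodMk measurable_snd
        have h3 := (qi_phm z).comp hq
        simp only [Function.comp_def] at h3
        exact h3
    exact qi_mint hm
  · refine Measurable.pow_const ?_ _
    unfold ce
    refine Finset.measurable_fun_sum _ fun a _ => ?_
    exact Measurable.ite (measurableSet_lt (h1 a).norm measurable_const) measurable_const
      measurable_const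
  · unfold cn
    refine Finset.measurable_fun_sum _ fun a _ => ?_
    exact Measurable.ite (measurableSet_lt (h2 a).norm measurable_const) measurable_const
      measurable_const

private theorem qi_prc {χ : E3 → ℝ} (hχ : Bump χ) {n k : ℕ} (z : Fin k → ℝ) (W : Finset E3) :
    Continuous (fun p : Cfg n k => pr χ W z p) := by
  unfold pr
  exact continuous_const.mul (continuous_finsetSum _ fun w _ =>
    (ph_smooth hχ 1 one_pos z w).continuous)

private theorem qi_chr1 (χ : E3 → ℝ) : chr χ 1 = χ := by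
  funext v
  unfold chr
  rw [Real.one_rpow, inv_one, one_smul, one_mul]

section

variable {χ : E3 → ℝ} (hχ : Bump χ) {q n k : ℕ} {Λ : Set E3}
  {ψ : (Fin n → Fin q) → Cfg n k → ℂ} (h : Sm q n k Λ ψ) (z : Fin k → ℝ) (W : Finset E3)
include hχ h

theorem IM_Qp (x : E3) : IM ψ (fun p => Qp z (pr χ W z p) p x) := by
  obtain ⟨C, -, hsq⟩ := inv_sq
  have hc := qi_prc hχ z W (n := n)
  refine IM.dom (G := GQ z C ((volume : Measure E3).real (Metric.ball (0 : E3) (‖x‖ + 1))) ‖x‖
    (fun p => pr χ W z p)) ?_ (IM.cont h (GQ_cont z C _ ‖x‖ hc)) h fun p => ?_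
  · have h1 := qi_Qpm z hc.measurable
    have h2 : Measurable (fun p : Cfg n k => ((p, x) : Cfg n k × E3)) :=
      measurable_id.prodMk measurable_const
    have h3 := h1.comp h2
    simp only [Function.comp_def] at h3
    exact h3
  · exact qi_bd z hsq ‖x‖ (fun p => pr χ W z p) p x le_rfl

theorem qp_fub {g : E3 → ℝ} (hg : Continuous g) (hg0 : ∀ v, 0 ≤ g v) {S : Set E3}
    (hS : MeasurableSet S) (hb : Bornology.IsBounded S) :
    IM ψ (fun p => ∫ x in S, g x * Qp z (pr χ W z p) p x) ∧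
    IntegrableOn (fun x => g x * mean ψ (fun p => Qp z (pr χ W z p) p x)) S ∧
    mean ψ (fun p => ∫ x in S, g x * Qp z (pr χ W z p) p x) =
      ∫ x in S, g x * mean ψ (fun p => Qp z (pr χ W z p) p x) := by
  obtain ⟨C, -, hsq⟩ := inv_sq
  have hc := qi_prc hχ z W (n := n)
  obtain ⟨R, hR⟩ := hb.exists_norm_le
  exact qi_set h hS hb hg (F := fun x p => Qp z (pr χ W z p) p x) (qi_Qpm z hc.measurable)
    (GQ_cont z C _ R hc) fun v hv p => qi_bd z hsq R (fun p => pr χ W z p) p v (hR v hv)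

theorem IM_EG {g : E3 → ℝ} (hg : Continuous g) :
    IM ψ (fun p => EG g z (pr χ W z p) p) := by
  have hc := qi_prc hχ z W (n := n)
  have hp : IM ψ (fun p => pr χ W z p) := IM.cont h hc
  unfold EG
  refine IM.sub (IM.sum _ fun j _ => ?_) (IM.sum _ fun a _ => ?_)
  · refine IM.cmul (z j) ?_
    refine qi_cm h ((IM_phiN h z j).sub hp) (hg.comp ?_)
    exact (continuous_apply j).comp continuous_snd
  · refine qi_cm h ((IM_phiE h z a).sub hp) (hg.comp ?_)
    exact (continuous_apply a).comp continuous_fst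

theorem IM_av (y : E3) : IM ψ (fun p => |av χ z (pr χ W z p) p y|) := by
  have hc := qi_prc hχ z W (n := n)
  have hU : Continuous (U χ) := by
    have h1 := U_cont hχ 1 one_pos
    rwa [qi_chr1] at h1
  refine IM.cont h (Continuous.abs ?_)
  unfold av
  refine Continuous.sub (Continuous.sub ?_ ?_) hc
  · refine continuous_finsetSum _ fun j _ => continuous_const.mul (hU.comp ?_)
    exact continuous_const.sub ((continuous_apply j).comp continuous_snd)
  · refine continuous_finsetSum _ fun a _ => hU.comp ?_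
    exact continuous_const.sub ((continuous_apply a).comp continuous_fst)

theorem IM_pr : IM ψ (fun p => pr χ W z p ^ 2) := by
  exact IM.cont h ((qi_prc hχ z W (n := n)).pow 2)

end

/-- monotonicity for inequalities which hold for distinct positions -/
theorem mono_gen {q n k : ℕ} {ψ : (Fin n → Fin q) → Cfg n k → ℂ} {F G : Cfg n k → ℝ}
    (hF : IM ψ F) (hG : IM ψ G) (hFG : ∀ (σ : Fin n → Fin q) (p : Cfg n k), ψ σ p ≠ 0 →
      Function.Injective p.1 → Function.Injective p.2 → (∀ a j, p.1 a ≠ p.2 j) →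
      F p ≤ G p) :
    mean ψ F ≤ mean ψ G := by
  unfold mean
  refine sum_le_sum fun σ _ => ?_
  refine integral_mono_ae (hF σ) (hG σ) ?_
  filter_upwards [qi_gen (n := n) (k := k)] with p hp
  by_cases h0 : ψ σ p = 0
  · simp [h0]
  · exact mul_le_mul_of_nonneg_right (hFG σ p h0 hp.1 hp.2.1 hp.2.2) (sq_nonneg _)

end H6.CX
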