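import Pool.Agent.H6.CX.GwS
import Pool.Agent.H6.CX.AvB
import Pool.Agent.H6.CX.LtW
import Pool.Agent.H6.CX.KsW
import Pool.Agent.H6.CX.QpI

/-! Common lemmas for `Qy.lean` and `Qf.lean`: expectations in mixed states, the inequality obtained from an electrostatic inequality by relocation, stability and Lieb-Thirring inequalities. -/

open MeasureTheory Finset

namespace H6.CX

open H6.CM H6.CB H6.CL H6.CT

section mm

variable {ι : Type} [Fintype ι] {q n k : ℕ} {Ψ : ι → (Fin n → Fin q) → Cfg n k → ℂ}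

theorem mMadd {F G : Cfg n k → ℝ} (hF : ∀ i, IM (Ψ i) F) (hG : ∀ i, IM (Ψ i) G) :
    mM Ψ (fun p => F p + G p) = mM Ψ F + mM Ψ G := by
  unfold mM
  rw [← sum_add_distrib]
  exact sum_congr rfl fun i _ => mean_add (hF i) (hG i)

theorem mMcmul (c : ℝ) (F : Cfg n k → ℝ) : mM Ψ (fun p => c * F p) = c * mM Ψ F := by
  unfold mM
  rw [mul_sum]
  exact sum_congr rfl fun i _ => mean_cmul c F

theorem mMconst (h1 : ∑ i, mass (Ψ i) = 1) (c : ℝ) : mM Ψ (fun _ => c) = c := by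
  unfold mM
  have : ∀ i, mean (Ψ i) (fun _ => c) = c * mass (Ψ i) := fun i => mean_const c
  simp only [this]
  rw [← mul_sum, h1, mul_one]

theorem mMnn {F : Cfg n k → ℝ} (h : ∀ p, 0 ≤ F p) : 0 ≤ mM Ψ F := by
  unfold mM
  exact sum_nonneg fun i _ => mean_nonneg fun _ p _ => h p

theorem mMmono {F G : Cfg n k → ℝ} (hF : ∀ i, IM (Ψ i) F) (hG : ∀ i, IM (Ψ i) G)
    (h : ∀ p, F p ≤ G p) : mM Ψ F ≤ mM Ψ G := by
  unfold mM
  exact sum_le_sum fun i _ => mean_mono (hF i) (hG i) fun _ p _ => h p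

theorem mMgen {F G : Cfg n k → ℝ} (hF : ∀ i, IM (Ψ i) F) (hG : ∀ i, IM (Ψ i) G)
    (h : ∀ (i : ι) (σ : Fin n → Fin q) (p : Cfg n k), Ψ i σ p ≠ 0 → Function.Injective p.1 →
      Function.Injective p.2 → (∀ a j, p.1 a ≠ p.2 j) → F p ≤ G p) :
    mM Ψ F ≤ mM Ψ G := by
  unfold mM
  exact sum_le_sum fun i _ => mono_gen (hF i) (hG i) (h i)

end mm

theorem qc_np {n k : ℕ} {δ : ℝ} (h0 : 0 ≤ δ) (hδ : δ ≤ (((n : ℝ) + k + 1) ^ 4)⁻¹) :
    ((n : ℝ) + k) * δ ≤ 1 ∧ δ ≤ 1 := by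
  have h1 : (1 : ℝ) ≤ (n : ℝ) + k + 1 := by
    have : (0 : ℝ) ≤ (n : ℝ) + k := by positivity
    linarith
  have h2 : (n : ℝ) + k + 1 ≤ ((n : ℝ) + k + 1) ^ 4 := le_self_pow₀ h1 (by norm_num)
  have h3 : (0 : ℝ) < (n : ℝ) + k + 1 := by linarith
  have h4 : δ ≤ ((n : ℝ) + k + 1)⁻¹ := hδ.trans (inv_anti₀ h3 h2)
  constructor
  · have h5 : ((n : ℝ) + k) * δ ≤ ((n : ℝ) + k + 1) * ((n : ℝ) + k + 1)⁻¹ :=
      mul_le_mul (by linarith) h4 h0 h3.le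
    rwa [mul_inv_cancel₀ h3.ne'] at h5
  · exact h4.trans (inv_le_one_of_one_le₀ h1)

theorem qc_qp {ι : Type} [Fintype ι] {q n k : ℕ} {Λ : Set E3}
    {Ψ : ι → (Fin n → Fin q) → Cfg n k → ℂ} {χ : E3 → ℝ} (hχ : Bump χ)
    (h : ∀ i, Sm q n k Λ (Ψ i)) (z : Fin k → ℝ) (W : Finset E3) {g : E3 → ℝ}
    (hg : Continuous g) (hg0 : ∀ v, 0 ≤ g v) {S N : Set E3} (hS : MeasurableSet S)
    (hb : Bornology.IsBounded N) (hSN : S ⊆ N) {X : ℝ} (hX : 0 ≤ X)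
    (hSX : ∀ x ∈ S, mM Ψ (fun p => Qp z (pr χ W z p) p x) ≤ X) :
    mM Ψ (fun p => ∫ x in S, g x * Qp z (pr χ W z p) p x) ≤ X * ∫ v in N, g v := by
  have hbS := hb.subset hSN
  have hgi : ∀ B : Set E3, Bornology.IsBounded B → IntegrableOn g B := fun B hB => by
    obtain ⟨R, hR⟩ := hB.subset_closedBall 0
    exact (hg.continuousOn.integrableOn_compact (isCompact_closedBall 0 R)).mono_set hR
  have h1 : mM Ψ (fun p => ∫ x in S, g x * Qp z (pr χ W z p) p x) =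
      ∫ x in S, g x * mM Ψ (fun p => Qp z (pr χ W z p) p x) := by
    unfold mM
    have e : ∀ x, g x * ∑ i, mean (Ψ i) (fun p => Qp z (pr χ W z p) p x) =
        ∑ i, g x * mean (Ψ i) (fun p => Qp z (pr χ W z p) p x) := fun x => mul_sum _ _ _
    simp only [e]
    rw [integral_finsetSum _ fun i _ => (qp_fub hχ (h i) z W hg hg0 hS hbS).2.1]
    exact sum_congr rfl fun i _ => (qp_fub hχ (h i) z W hg hg0 hS hbS).2.2
  have h2 : IntegrableOn (fun x => g x * mM Ψ (fun p => Qp z (pr χ W z p) p x)) S := by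
    unfold mM
    have e : ∀ x, g x * ∑ i, mean (Ψ i) (fun p => Qp z (pr χ W z p) p x) =
        ∑ i, g x * mean (Ψ i) (fun p => Qp z (pr χ W z p) p x) := fun x => mul_sum _ _ _
    simp only [e]
    exact integrable_finsetSum _ fun i _ => (qp_fub hχ (h i) z W hg hg0 hS hbS).2.1
  rw [h1]
  calc ∫ x in S, g x * mM Ψ (fun p => Qp z (pr χ W z p) p x)
      ≤ ∫ x in S, X * g x := by
        refine setIntegral_mono_on h2 ((hgi S hbS).const_mul X) hS fun x hx => ?_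
        rw [mul_comm X]
        exact mul_le_mul_of_nonneg_left (hSX x hx) (hg0 x)
    _ = X * ∫ x in S, g x := integral_const_mul _ _
    _ ≤ X * ∫ v in N, g v := mul_le_mul_of_nonneg_left
        (setIntegral_mono_set (hgi N hb) (Filter.Eventually.of_forall hg0)
          (Filter.Eventually.of_forall hSN)) hX

private theorem qc_num {c4 Ck Ct Cl Cn C1 C2 K η ε L La TG NE NN S P EGm IN IL nd δ M EL ER : ℝ}
    (hk : c4 * TG + EGm ≤ Ck * (NE + NN + IL + (nd + IL * δ)))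
    (he : (L + La) * NN + EL ≤ EGm + C1 * S + η * P + C2 * (M + NE) + ER)
    (hS : C1 * S ≤ c4 / 8 * (TG + Ct * (NE + NN)))
    (hP : η * P ≤ c4 / 8 * (TG + NE))
    (hN : NE ≤ ε * TG + Cn * IN) (hIL : IL ≤ IN) (hIL0 : 0 ≤ IL) (hδ1 : δ ≤ 1) (hδ0 : 0 ≤ δ)
    (hnd : 0 ≤ nd) (hM : 0 ≤ M)
    (hε : (Ck + c4 / 8 * Ct + c4 / 8 + C2) * ε ≤ c4 / 4) (hLa : La = Ck + c4 / 8 * Ct)
    (hc4 : 0 < c4) (hCk : 0 ≤ Ck) (hCt : 0 ≤ Ct) (hCn : 0 ≤ Cn) (hC2 : 0 ≤ C2)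
    (hTG : 0 ≤ TG) :
    c4 / 2 * TG + L * NN + EL ≤ ER +
      ((Ck + c4 / 8 * Ct + c4 / 8 + C2) * Cn + 2 * Ck + C2) * (M + IN + nd) := by
  obtain ⟨B, hB⟩ : ∃ B, B = Ck + c4 / 8 * Ct + c4 / 8 + C2 := ⟨_, rfl⟩
  rw [← hB] at hε ⊢
  have hB0 : 0 ≤ B := by rw [hB]; positivity
  have hIN0 : 0 ≤ IN := hIL0.trans hIL
  have h1 : B * NE ≤ c4 / 4 * TG + B * Cn * IN := by
    have h2 := mul_le_mul_of_nonneg_left hN hB0
    have h3 := mul_le_mul_of_nonneg_right hε hTG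
    calc B * NE ≤ B * (ε * TG + Cn * IN) := h2
      _ = B * ε * TG + B * Cn * IN := by ring
      _ ≤ c4 / 4 * TG + B * Cn * IN := by linarith
  have h4 : IL * δ ≤ IN := by nlinarith
  have h5 : Ck * (IL + (nd + IL * δ)) ≤ 2 * Ck * (M + IN + nd) := by
    have : IL + (nd + IL * δ) ≤ 2 * (M + IN + nd) := by linarith
    calc Ck * (IL + (nd + IL * δ)) ≤ Ck * (2 * (M + IN + nd)) := mul_le_mul_of_nonneg_left this hCk
      _ = _ := by ring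
  have h6 : C2 * M ≤ C2 * (M + IN + nd) := mul_le_mul_of_nonneg_left (by linarith) hC2
  have h7 : B * Cn * IN ≤ B * Cn * (M + IN + nd) :=
    mul_le_mul_of_nonneg_left (by linarith) (by positivity)
  have h8 : c4 * TG + (L + La) * NN + EL ≤ Ck * NE + Ck * NN + Ck * (IL + (nd + IL * δ)) +
      c4 / 8 * TG + c4 / 8 * Ct * NE + c4 / 8 * Ct * NN + c4 / 8 * TG + c4 / 8 * NE + C2 * M +
      C2 * NE + ER := by
    have e1 : Ck * (NE + NN + IL + (nd + IL * δ)) = Ck * NE + Ck * NN + Ck * (IL + (nd + IL * δ)) := by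
      ring
    have e2 : c4 / 8 * (TG + Ct * (NE + NN)) = c4 / 8 * TG + c4 / 8 * Ct * NE + c4 / 8 * Ct * NN := by
      ring
    have e3 : c4 / 8 * (TG + NE) = c4 / 8 * TG + c4 / 8 * NE := by ring
    have e4 : C2 * (M + NE) = C2 * M + C2 * NE := by ring
    rw [e1] at hk
    rw [e2] at hS
    rw [e3] at hP
    rw [e4] at he
    linarith
  have h9 : Ck * NE + c4 / 8 * Ct * NE + c4 / 8 * NE + C2 * NE = B * NE := by
    rw [hB]
    ring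
  have h10 : (L + La) * NN = L * NN + Ck * NN + c4 / 8 * Ct * NN := by
    rw [hLa]
    ring
  have h11 : (B * Cn + 2 * Ck + C2) * (M + IN + nd) =
      B * Cn * (M + IN + nd) + 2 * Ck * (M + IN + nd) + C2 * (M + IN + nd) := by ring
  rw [h11]
  rw [h10] at h8
  linarith

/-- the inequality obtained from an electrostatic inequality -/
theorem qcore (q : ℕ) (T zm zp κm κp A Kv C0 C1 : ℝ) (hT : 0 ≤ T) (hzm : 0 < zm) (hκm : 0 < κm)
    (hA : 0 ≤ A) (hKv : 0 ≤ Kv) {χ : E3 → ℝ} (hχ : Bump χ) (hC1 : 0 ≤ C1) :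
    ∃ η La : ℝ, 0 < η ∧ 0 ≤ La ∧ ∀ (C2 : ℝ) (_ : 0 ≤ C2), ∃ K5 : ℝ, 0 ≤ K5 ∧
    ∀ (ι : Type) (_ : Fintype ι) (n k : ℕ) (Λ : Set E3) (z κ : Fin k → ℝ) (W : Finset E3)
    (δ : ℝ) (Ψ : ι → (Fin n → Fin q) → Cfg n k → ℂ)
    (_ : Gt q T zm zp κm κp A Kv n k Λ z κ W δ Ψ) (_ : δ ≤ (((n : ℝ) + k + 1) ^ 4)⁻¹)
    (g : E3 → ℝ) (_ : Wt C0 g) (J : E3 → ℝ)
    (_ : ContDiff ℝ (⊤ : ℕ∞) J) (_ : ∀ v, 0 ≤ J v ∧ J v ≤ 1) (R : ℝ)
    (_ : Λ ⊆ Metric.ball 0 R) (_ : ∀ v ∈ Metric.ball (0 : E3) R, J v ^ 2 = g v)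
    (N : Set E3) (_ : MeasurableSet N) (_ : Bornology.IsBounded N)
    (_ : ∀ x ∈ Λ, ∀ v, ‖x - v‖ < 2 → v ∈ N) (L EL ER M : ℝ) (_ : 0 ≤ M)
    (_ : (L + La) * mM Ψ (fun p => ∑ j, g (p.2 j)) + EL ≤
      mM Ψ (fun p => EG g z (pr χ W z p) p) +
      C1 * mM Ψ (fun p => ∑ a, g (p.1 a) * iD p (p.1 a)) +
      η * mM Ψ (fun p => ∑ a, g (p.1 a) * ce p (p.1 a) 1 ^ (2 / 3 : ℝ)) +
      C2 * (M + mM Ψ (fun p => ∑ a, g (p.1 a))) + ER),
    3 / 16 * min 1 κm * (∑ i, TGs g (Ψ i)) + L * mM Ψ (fun p => ∑ j, g (p.2 j)) + EL ≤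
      ER + K5 * (M + (∫ v in N, g v) + (n + k) * δ) := by
  obtain ⟨c4, hc4d⟩ : ∃ c4 : ℝ, c4 = 3 / 8 * min 1 κm := ⟨_, rfl⟩
  have hc4 : 0 < c4 := by
    rw [hc4d]
    have : 0 < min 1 κm := lt_min one_pos hκm
    positivity
  obtain ⟨Ct, hCt, ht⟩ := tstw q C0 (8 * C1 / c4) (by positivity)
  obtain ⟨Cl, hCl, hl⟩ := ltw q C0
  obtain ⟨Ck, hCk, hk⟩ := ksw q T zm zp κm κp A Kv C0 hT hzm hκm hA hKv hχ
  refine ⟨c4 / (8 * (Cl + 1)), Ck + c4 / 8 * Ct, by positivity, by positivity, ?_⟩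
  intro C2 hC2
  obtain ⟨B, hB⟩ : ∃ B, B = Ck + c4 / 8 * Ct + c4 / 8 + C2 := ⟨_, rfl⟩
  have hB0 : 0 < B := by rw [hB]; positivity
  obtain ⟨Cn, hCn, hn⟩ := lcw q C0 (c4 / (4 * B)) (by positivity)
  refine ⟨(Ck + c4 / 8 * Ct + c4 / 8 + C2) * Cn + 2 * Ck + C2, by positivity, ?_⟩
  intro ι _ n k Λ z κ W δ Ψ hG hδ g hg J hJ hJ1 R hΛ hJg N hN hNb hΛN L EL ER M hM he
  have hst := hG.eq.st
  obtain ⟨hnp, hδ1⟩ := qc_np hG.hδ hδ
  have hg0 : ∀ v, 0 ≤ g v := fun v => (hg.pos v).le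
  have hgi : ∀ B : Set E3, Bornology.IsBounded B → IntegrableOn g B := fun B hB => by
    obtain ⟨R, hR⟩ := hB.subset_closedBall 0
    exact (hg.smooth.continuous.continuousOn.integrableOn_compact
      (isCompact_closedBall 0 R)).mono_set hR
  have hΛN' : Λ ⊆ N := fun x hx => hΛN x hx x (by simp)
  have hIL : ∫ v in Λ, g v ≤ ∫ v in N, g v :=
    setIntegral_mono_set (hgi N hNb) (Filter.Eventually.of_forall hg0)
      (Filter.Eventually.of_forall hΛN')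
  have hIL0 : 0 ≤ ∫ v in Λ, g v := integral_nonneg hg0
  have h1 := hk ι inferInstance n k Λ z κ W δ Ψ hG g hg J hJ hJ1 R hΛ hJg
  rw [← hc4d] at h1
  have h2 : C1 * mM Ψ (fun p => ∑ a, g (p.1 a) * iD p (p.1 a)) ≤
      c4 / 8 * ((∑ i, TGs g (Ψ i)) + Ct * (mM Ψ (fun p => ∑ a, g (p.1 a)) +
        mM Ψ (fun p => ∑ j, g (p.2 j)))) := by
    have h3 : 8 * C1 / c4 * mM Ψ (fun p => ∑ a, g (p.1 a) * iD p (p.1 a)) ≤
        (∑ i, TGs g (Ψ i)) + Ct * (mM Ψ (fun p => ∑ a, g (p.1 a)) +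
        mM Ψ (fun p => ∑ j, g (p.2 j))) := by
      unfold mM
      rw [mul_sum, ← sum_add_distrib, mul_sum, ← sum_add_distrib]
      exact sum_le_sum fun i _ => (ht n k Λ (Ψ i) (hst i) g hg).2
    have h4 := mul_le_mul_of_nonneg_left h3 (by positivity : 0 ≤ c4 / 8)
    refine le_trans (le_of_eq ?_) h4
    field_simp
  have h5 : c4 / (8 * (Cl + 1)) *
      mM Ψ (fun p => ∑ a, g (p.1 a) * ce p (p.1 a) 1 ^ (2 / 3 : ℝ)) ≤
      c4 / 8 * ((∑ i, TGs g (Ψ i)) + mM Ψ (fun p => ∑ a, g (p.1 a))) := by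
    have h3 : mM Ψ (fun p => ∑ a, g (p.1 a) * ce p (p.1 a) 1 ^ (2 / 3 : ℝ)) ≤
        Cl * ((∑ i, TGs g (Ψ i)) + mM Ψ (fun p => ∑ a, g (p.1 a))) := by
      unfold mM
      rw [← sum_add_distrib, mul_sum]
      exact sum_le_sum fun i _ => (hl n k Λ (Ψ i) (hst i) g hg).2
    have hpos : 0 ≤ (∑ i, TGs g (Ψ i)) + mM Ψ (fun p => ∑ a, g (p.1 a)) :=
      add_nonneg (sum_nonneg fun i _ => TGs_nonneg hg _)
        (mMnn fun p => sum_nonneg fun a _ => hg0 _)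
    have h4 := mul_le_mul_of_nonneg_left h3 (by positivity : 0 ≤ c4 / (8 * (Cl + 1)))
    refine h4.trans ?_
    rw [← mul_assoc]
    refine mul_le_mul_of_nonneg_right ?_ hpos
    rw [div_mul_eq_mul_div, div_le_div_iff₀ (by positivity) (by positivity)]
    nlinarith
  have h6 : mM Ψ (fun p => ∑ a, g (p.1 a)) ≤ c4 / (4 * B) * (∑ i, TGs g (Ψ i)) +
      Cn * ∫ v in N, g v := by
    have h3 : mM Ψ (fun p => ∑ a, g (p.1 a)) ≤ ∑ i, (c4 / (4 * B) * TGs g (Ψ i) +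
        Cn * (∫ v in N, g v) * mass (Ψ i)) := by
      unfold mM
      exact sum_le_sum fun i _ => hn n k Λ (Ψ i) (hst i) g hg N hN hNb hΛN
    rw [sum_add_distrib, ← mul_sum, ← mul_sum, hG.eq.one, mul_one] at h3
    exact h3
  have h7 := qc_num (c4 := c4) (Ck := Ck) (Ct := Ct) (Cl := Cl) (Cn := Cn) (C1 := C1) (C2 := C2)
    (K := 0) (η := c4 / (8 * (Cl + 1))) (ε := c4 / (4 * B)) (L := L) (La := Ck + c4 / 8 * Ct)
    (TG := ∑ i, TGs g (Ψ i)) (NE := mM Ψ (fun p => ∑ a, g (p.1 a)))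
    (NN := mM Ψ (fun p => ∑ j, g (p.2 j)))
    (S := mM Ψ (fun p => ∑ a, g (p.1 a) * iD p (p.1 a)))
    (P := mM Ψ (fun p => ∑ a, g (p.1 a) * ce p (p.1 a) 1 ^ (2 / 3 : ℝ)))
    (EGm := mM Ψ (fun p => EG g z (pr χ W z p) p)) (IN := ∫ v in N, g v) (IL := ∫ v in Λ, g v)
    (nd := ((n : ℝ) + k) * δ) (δ := δ) (M := M) (EL := EL) (ER := ER) ?_ he h2 h5 h6 hIL hIL0 hδ1
    hG.hδ (mul_nonneg (by positivity) hG.hδ) hM ?_ rfl hc4 hCk hCt hCn hC2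
    (sum_nonneg fun i _ => TGs_nonneg hg _)
  · have e1 : 3 / 16 * min 1 κm = c4 / 2 := by
      rw [hc4d]
      ring
    rw [e1]
    exact h7
  · refine h1.trans (le_of_eq ?_)
    ring
  · rw [← hB]
    rw [mul_div_assoc', div_le_div_iff₀ (by positivity) (by positivity)]
    nlinarith

end H6.CX
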