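import Pool.Agent.H6.CX.GwS
import Pool.Agent.H6.CX.ELf
import Pool.Agent.H6.CX.LtW
import Pool.Agent.H6.CX.KsW
import Pool.Agent.H6.CX.QpI
import Pool.Agent.H6.CB.MmF
import Pool.Agent.H6.CX.QC

/-! The second moment of the reference potential. If `n = 0` then `k = 0` and `pr = 0`. Otherwise some `Ψ i` does not vanish, so `Λ` and by the hypothesis `Nb ζ D` are not empty: there is `u` with `ζ = 1 / 2` on `ball u 1`. Let `R ≥ 1` with `Λ ⊆ ball 0 R`, the support of `ζ` in `ball 0 R`. Let `y` be a point with `‖y‖ = Y` very large (depending on everything), `lam = Y / 2`, `g = lam * gw χ ζ y`, `m = lam * χ (· - y) ^ 2`, `σ = lam * sw χ ζ y` (`gw_ws`), `J = sqrt g * Jc θ 0 R` (`cut_ex`): `J ^ 2 = g` on `ball 0 R`, `J = 0` outside `ball 0 (2 R)`, and there `g ≤ lam * U χ (v - y) = lam / ‖v - y‖ ≤ 1` (`gw_le`, `newton_out`). `M = ∫ σ = lam ∫ sw ≥ c / 4 > 0` by `sw_low` (`‖y - u‖ ≤ 2 Y`), `c`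 independent of the state. Neutrality: for `v` near `y` and `p` with positions in `ball 0 R`, `|phi z p v| = |∑ e i (‖v - y i‖⁻¹ - ‖v‖⁻¹)| ≤ 2 n R / (‖v‖ (‖v‖ - R))` (`∑ z j = n`), so `∫ m |phi| ≤ lam * C n R / Y ^ 2 ≤ M / 16` for large `Y`. As in `Qy.lean` with `elf` (`L` a fixed constant) in place of `ely`: `c4 TG + L' NN + (1 / 8) M pr2 ≤ C1 S + η P + C2 (M + NE) + C3 X ∫ v in Nb ζ D, g + C (NE + NN + ∫ v in Λ, g + (n + k + ∫ v in Λ, g) δ)`, and now all error terms are at most `C (1 + X) M` because `∫ v in Nb ζ D, g ≤ C M` (`gw_Nb`) and `(n + k) δ ≤ 1 ≤ (4 / c) M`. Divide by `M`. -/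

open MeasureTheory Finset

namespace H6.CX

open H6.CM H6.CB H6.CL H6.CT

private theorem qf_inv {x v : E3} {R : ℝ} (hx : ‖x‖ ≤ R) (hv : 2 * R ≤ ‖v‖) (hv0 : 0 < ‖v‖) :
    |‖v - x‖⁻¹ - ‖v‖⁻¹| ≤ 2 * R / ‖v‖ ^ 2 := by
  have h1 : ‖v‖ - ‖x‖ ≤ ‖v - x‖ := norm_sub_norm_le v x
  have h2 : ‖v‖ / 2 ≤ ‖v - x‖ := by linarith
  have h3 : 0 < ‖v - x‖ := by linarith
  have h4 : |‖v‖ - ‖v - x‖| ≤ R := by
    have h5 := abs_norm_sub_norm_le v (v - x)
    rw [sub_sub_cancel] at h5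
    exact h5.trans hx
  have h6 : ‖v - x‖⁻¹ - ‖v‖⁻¹ = (‖v‖ - ‖v - x‖) / (‖v - x‖ * ‖v‖) := by
    field_simp
  rw [h6, abs_div, abs_of_pos (mul_pos h3 hv0)]
  have hR : 0 ≤ R := (norm_nonneg x).trans hx
  calc |‖v‖ - ‖v - x‖| / (‖v - x‖ * ‖v‖) ≤ R / (‖v‖ / 2 * ‖v‖) := by
        apply div_le_div₀ hR h4 (by positivity)
        exact mul_le_mul_of_nonneg_right h2 hv0.le
    _ = 2 * R / ‖v‖ ^ 2 := by field_simp

private theorem qf_phi {n k : ℕ} {z : Fin k → ℝ} (hz : ∀ j, 0 ≤ z j) (hneu : ∑ j, z j = n)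
    (p : Cfg n k) {R : ℝ} (h1 : ∀ a, ‖p.1 a‖ ≤ R) (h2 : ∀ j, ‖p.2 j‖ ≤ R) {v : E3}
    (hv : 2 * R ≤ ‖v‖) (hv0 : 0 < ‖v‖) : |phi z p v| ≤ 4 * n * R / ‖v‖ ^ 2 := by
  have e1 : phi z p v = ∑ j, z j * (‖v - p.2 j‖⁻¹ - ‖v‖⁻¹) - ∑ a, (‖v - p.1 a‖⁻¹ - ‖v‖⁻¹) := by
    unfold phi
    simp only [mul_sub, sum_sub_distrib]
    rw [← sum_mul, hneu, sum_const, card_univ, Fintype.card_fin, nsmul_eq_mul]
    ring
  rw [e1]
  refine (abs_sub _ _).trans ?_
  have g1 : |∑ j, z j * (‖v - p.2 j‖⁻¹ - ‖v‖⁻¹)| ≤ n * (2 * R / ‖v‖ ^ 2) := by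
    refine (abs_sum_le_sum_abs _ _).trans ?_
    rw [← hneu, sum_mul]
    refine sum_le_sum fun j _ => ?_
    rw [abs_mul, abs_of_nonneg (hz j)]
    exact mul_le_mul_of_nonneg_left (qf_inv (h2 j) hv hv0) (hz j)
  have g2 : |∑ a, (‖v - p.1 a‖⁻¹ - ‖v‖⁻¹)| ≤ n * (2 * R / ‖v‖ ^ 2) := by
    refine (abs_sum_le_sum_abs _ _).trans ?_
    refine (sum_le_sum fun a _ => qf_inv (h1 a) hv hv0).trans ?_
    rw [sum_const, card_univ, Fintype.card_fin, nsmul_eq_mul]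
  refine (add_le_add g1 g2).trans (le_of_eq ?_)
  ring

theorem qf (q : ℕ) (T zm zp κm κp A Kv Cz D : ℝ) (hT : 0 ≤ T) (hzm : 0 < zm) (hκm : 0 < κm)
    (hA : 0 ≤ A) (hKv : 0 ≤ Kv) {χ : E3 → ℝ} (hχ : Bump χ) :
    ∃ C3 : ℝ, 0 ≤ C3 ∧
    ∀ (ι : Type) (_ : Fintype ι) (n k : ℕ) (Λ : Set E3) (z κ : Fin k → ℝ) (W : Finset E3)
    (δ : ℝ) (Ψ : ι → (Fin n → Fin q) → Cfg n k → ℂ)
    (_ : Gt q T zm zp κm κp A Kv n k Λ z κ W δ Ψ) (_ : δ ≤ (((n : ℝ) + k + 1) ^ 4)⁻¹)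
    (ζ : E3 → ℝ) (_ : Kil Cz ζ) (_ : ∀ x ∈ Λ, ∀ v, ‖x - v‖ < 2 → v ∈ Nb ζ D)
    (_ : Bz ζ 3 ⊆ Nb ζ D) (X : ℝ) (_ : 0 ≤ X)
    (_ : ∀ x ∈ Bz ζ 3, mM Ψ (fun p => Qp z (pr χ W z p) p x) ≤ X),
    mM Ψ (fun p => pr χ W z p ^ 2) ≤ C3 * (1 + X) := by
  obtain ⟨C0, hC0, hw⟩ := gw_ws hχ Cz
  obtain ⟨c, hc, hlow⟩ := sw_low hχ Cz
  obtain ⟨C1, C3, hC1, hC3, helf⟩ := elf zm zp C0 hzm hχ
  obtain ⟨η, La, hη, hLa, hcore⟩ := qcore q T zm zp κm κp A Kv C0 C1 hT hzm hκm hA hKv hχ hC1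
  obtain ⟨CD, hCD, hNb⟩ := gw_Nb hχ Cz D
  obtain ⟨C2, hC2, hel⟩ := helf η hη (0 + La) (by linarith)
  obtain ⟨K5, hK5, hcore⟩ := hcore C2 hC2
  obtain ⟨θ, hθ⟩ := cut_ex
  refine ⟨8 * (C3 * CD + K5 * (1 + CD + 4 / c)), by positivity, ?_⟩
  intro ι _ n k Λ z κ W δ Ψ hG hδ ζ hζ hΛN hBz X hX hQX
  have hst := hG.eq.st
  have hsm : ∀ i, Sm q n k Λ (Ψ i) := fun i => St_sm (hst i)
  have hone := hG.eq.one
  have hz0 : ∀ j, 0 ≤ z j := fun j => hzm.le.trans (hG.hz j).1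
  have hrhs : 0 ≤ 8 * (C3 * CD + K5 * (1 + CD + 4 / c)) * (1 + X) := by positivity
  rcases Nat.eq_zero_or_pos n with hn | hn
  · -- no electrons, hence no nuclei
    have hk : k = 0 := by
      by_contra hk
      have h1 : 0 < ∑ j, z j := sum_pos (fun j _ => hzm.trans_le (hG.hz j).1)
        ⟨⟨0, Nat.pos_of_ne_zero hk⟩, mem_univ _⟩
      rw [hG.neu, hn] at h1
      simp at h1
    subst hn
    subst hk
    have h1 : mM Ψ (fun p => pr χ W z p ^ 2) = 0 := by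
      have h2 : ∀ p : Cfg 0 0, pr χ W z p ^ 2 = 0 := by
        intro p
        unfold pr ph
        simp
      simp only [h2]
      exact mMconst hone 0
    rw [h1]
    exact hrhs
  -- a point of the domain
  obtain ⟨x0, hx0⟩ : ∃ x0, x0 ∈ Λ := by
    by_contra hcon
    push Not at hcon
    have h1 : ∀ i σ p, Ψ i σ p = 0 := by
      intro i σ p
      by_contra h2
      exact hcon _ (((hst i).supp σ p (subset_tsupport _ h2)).1 ⟨0, hn⟩)
    have h2 : ∑ i, mass (Ψ i) = 0 := by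
      unfold mass
      simp [h1]
    rw [h2] at hone
    exact zero_ne_one hone
  obtain ⟨u, hu1, hu⟩ := hΛN x0 hx0 x0 (by simp)
  obtain ⟨R1, hR1⟩ := hG.hb.subset_ball 0
  obtain ⟨R2, hR2⟩ := hζ.cpt.isCompact.isBounded.subset_ball 0
  obtain ⟨R, hRd⟩ : ∃ R : ℝ, R = max 1 (max R1 R2) := ⟨_, rfl⟩
  have hR0 : 1 ≤ R := by rw [hRd]; exact le_max_left _ _
  have hΛR : Λ ⊆ Metric.ball 0 R := hR1.trans (Metric.ball_subset_ball (by
    rw [hRd]
    exact (le_max_left _ _).trans (le_max_right _ _)))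
  have hζR : ∀ v, ζ v ≠ 0 → ‖v‖ < R := by
    intro v hv
    have h1 : v ∈ Metric.ball (0 : E3) R2 := hR2 (subset_tsupport _ hv)
    rw [mem_ball_zero_iff] at h1
    refine h1.trans_le ?_
    rw [hRd]
    exact (le_max_right _ _).trans (le_max_right _ _)
  have huR : ‖u‖ < R := hζR u (by
    rw [hu u (by simp)]
    norm_num)
  obtain ⟨Y, hYd⟩ : ∃ Y : ℝ, Y = 5 * R + 8 + 512 * n * R / c := ⟨_, rfl⟩
  have hYn : 0 ≤ 512 * (n : ℝ) * R / c := by positivity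
  have hY1 : 5 * R + 8 ≤ Y := by linarith
  have hY0 : 0 < Y := by linarith
  have hY2 : 512 * (n : ℝ) * R / c ≤ Y := by linarith
  obtain ⟨y, hy⟩ : ∃ y : E3, ‖y‖ = Y := ⟨EuclideanSpace.single 0 Y, by
    rw [EuclideanSpace.norm_single, Real.norm_eq_abs, abs_of_pos hY0]⟩
  obtain ⟨lam, hlamd⟩ : ∃ lam : ℝ, lam = Y / 2 := ⟨_, rfl⟩
  have hlam : 0 < lam := by rw [hlamd]; positivity
  obtain ⟨g, hgd⟩ : ∃ g : E3 → ℝ, g = fun v => lam * gw χ ζ y v := ⟨_, rfl⟩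
  obtain ⟨m, hmd⟩ : ∃ m : E3 → ℝ, m = fun v => lam * χ (v - y) ^ 2 := ⟨_, rfl⟩
  obtain ⟨σ, hσd⟩ : ∃ σ : E3 → ℝ, σ = fun v => lam * sw χ ζ y v := ⟨_, rfl⟩
  have hWs : Ws C0 g m σ := by
    rw [hgd, hσd, hmd]
    exact hw ζ hζ y lam hlam
  have hg := hWs.wt
  have hg0 : ∀ v, 0 ≤ g v := fun v => (hg.pos v).le
  have hgc : Continuous g := hg.smooth.continuous
  -- the killed mass
  obtain ⟨M, hMd⟩ : ∃ M : ℝ, M = ∫ v, σ v := ⟨_, rfl⟩
  have hMs : M = lam * ∫ v, sw χ ζ y v := by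
    rw [hMd, hσd, integral_const_mul]
  have hyu : ‖y - u‖ ≤ 2 * Y := by
    have := norm_sub_le y u
    linarith
  have hyu2 : 2 * (2 * R) + 8 ≤ ‖y - u‖ := by
    have := norm_sub_norm_le y u
    linarith
  have hsw0 := (sw_mass hχ Cz hζ y).1
  have hM4 : c / 4 ≤ M := by
    have h1 := hlow ζ hζ u y (2 * R) hu (fun v hv => by
      have h2 := hζR v hv
      have h3 := norm_sub_le v u
      linarith) hyu2
    have h2 : c ≤ 2 * Y * ∫ v, sw χ ζ y v := h1.trans (mul_le_mul_of_nonneg_right hyu hsw0)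
    rw [hMs, hlamd]
    linarith
  have hM0 : 0 < M := by linarith
  -- the function `J`
  have hgle : ∀ v, v ≠ y → g v ≤ lam * ‖v - y‖⁻¹ := fun v hv => by
    rw [hgd]
    exact mul_le_mul_of_nonneg_left ((gw_le hχ hζ y v).trans
      (newton_le hχ _ (sub_ne_zero.mpr hv))) hlam.le
  have hJs : ContDiff ℝ (⊤ : ℕ∞) (fun v => Real.sqrt (g v) * Jc θ 0 R v) :=
    (hg.smooth.sqrt fun v => (hg.pos v).ne').mul (Jc_smooth hθ 0 R)
  have hJ1 : ∀ v, 0 ≤ Real.sqrt (g v) * Jc θ 0 R v ∧ Real.sqrt (g v) * Jc θ 0 R v ≤ 1 := by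
    intro v
    have h1 := Jc_mem hθ 0 R v
    refine ⟨mul_nonneg (Real.sqrt_nonneg _) h1.1, ?_⟩
    rcases le_or_gt (2 * R) ‖v‖ with hv | hv
    · rw [Jc_zero hθ 0 R (by linarith) v (by simpa using hv), mul_zero]
      exact zero_le_one
    · have h2 : Y / 2 ≤ ‖v - y‖ := by
        have h3 := norm_sub_norm_le y v
        rw [norm_sub_rev y v] at h3
        linarith
      have hvy : v ≠ y := by
        rintro rfl
        simp at h2
        linarith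
      have h3 : g v ≤ 1 := by
        refine (hgle v hvy).trans ?_
        rw [hlamd, ← div_eq_mul_inv, div_le_one (by linarith)]
        exact h2
      have h4 : Real.sqrt (g v) ≤ 1 := Real.sqrt_le_one.mpr h3
      calc Real.sqrt (g v) * Jc θ 0 R v ≤ 1 * 1 :=
            mul_le_mul h4 h1.2 h1.1 zero_le_one
        _ = 1 := one_mul 1
  have hJg : ∀ v ∈ Metric.ball (0 : E3) R, (Real.sqrt (g v) * Jc θ 0 R v) ^ 2 = g v := by
    intro v hv
    rw [mem_ball_zero_iff] at hv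
    rw [Jc_one hθ 0 R (by linarith) v (by simpa using hv.le), mul_one, Real.sq_sqrt (hg0 v)]
  obtain ⟨hNm, hNb'⟩ := Nb_ms hζ D
  -- the set `Bz σ 3`
  have hBσ : Bz σ 3 ⊆ Bz ζ 3 := by
    rintro v ⟨x, h1, h2⟩
    refine ⟨x, h1, fun h3 => h2 ?_⟩
    rw [hσd]
    simp only [sw, h3, zero_mul, mul_zero]
  have hSm : MeasurableSet (Bz σ 3) := (Bz_open σ 3).measurableSet
  have hSN : Bz σ 3 ⊆ Nb ζ D := hBσ.trans hBz
  have hSb : Bornology.IsBounded (Bz σ 3) := hNb'.subset hSN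
  -- conditions at the points of the support
  have hmy : ∀ v, m v ≠ 0 → ‖v - y‖ < 1 / 2 := by
    intro v hv
    refine hχ.supp _ fun h0 => hv ?_
    rw [hmd]
    simp [h0]
  have hnear : ∀ v, ‖v - y‖ < 1 / 2 → Y / 2 ≤ ‖v‖ ∧ 2 * R ≤ ‖v‖ := by
    intro v hv
    have h1 := norm_sub_norm_le y v
    rw [norm_sub_rev y v] at h1
    constructor <;> linarith
  have hint1 : ∫ v, χ (v - y) ^ 2 = 1 := by
    rw [integral_sub_right_eq_self (fun x => χ x ^ 2) y]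
    exact hχ.norm
  have hint2 : Integrable (fun v => χ (v - y) ^ 2) := by
    by_contra hcon
    rw [integral_undef hcon] at hint1
    exact zero_ne_one hint1
  have hphi : ∀ p : Cfg n k, (∀ a, ‖p.1 a‖ ≤ R) → (∀ j, ‖p.2 j‖ ≤ R) →
      ∫ v, m v * |phi z p v| ≤ 1 / 16 * ∫ v, σ v := by
    intro p h1 h2
    have h3 : ∀ v, m v * |phi z p v| ≤ lam * (16 * n * R / Y ^ 2) * χ (v - y) ^ 2 := by
      intro v
      by_cases hv : m v = 0
      · rw [hv, zero_mul]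
        positivity
      · have h4 := hmy v hv
        obtain ⟨h5, h6⟩ := hnear v h4
        have hv0 : 0 < ‖v‖ := by linarith
        have h7 := qf_phi hz0 hG.neu p h1 h2 h6 hv0
        have h8 : 4 * n * R / ‖v‖ ^ 2 ≤ 16 * n * R / Y ^ 2 := by
          have h9 : Y ^ 2 / 4 ≤ ‖v‖ ^ 2 := by nlinarith
          calc 4 * n * R / ‖v‖ ^ 2 ≤ 4 * n * R / (Y ^ 2 / 4) :=
                div_le_div_of_nonneg_left (by positivity) (by positivity) h9
            _ = 16 * n * R / Y ^ 2 := by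
                field_simp
                ring
        have h10 : 0 ≤ m v := hWs.mn v
        calc m v * |phi z p v| ≤ m v * (16 * n * R / Y ^ 2) :=
              mul_le_mul_of_nonneg_left (h7.trans h8) h10
          _ = lam * (16 * n * R / Y ^ 2) * χ (v - y) ^ 2 := by
              rw [hmd]
              ring
    have h4 : ∫ v, m v * |phi z p v| ≤ ∫ v, lam * (16 * n * R / Y ^ 2) * χ (v - y) ^ 2 :=
      integral_mono_of_nonneg (Filter.Eventually.of_forall fun v =>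
        mul_nonneg (hWs.mn v) (abs_nonneg _)) (hint2.const_mul _)
        (Filter.Eventually.of_forall h3)
    rw [integral_const_mul, hint1, mul_one] at h4
    refine h4.trans ?_
    rw [← hMd]
    have h5 : lam * (16 * n * R / Y ^ 2) = 8 * n * R / Y := by
      rw [hlamd]
      field_simp
      ring
    rw [h5]
    have h6 : 8 * n * R / Y ≤ c / 64 := by
      rw [div_le_iff₀ hY0]
      rw [div_le_iff₀ hc] at hY2
      linarith
    linarith
  -- integrability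
  have iNN : ∀ i, IM (Ψ i) (fun p => ∑ j, g (p.2 j)) := fun i => (IM_ge hg (hsm i)).2
  have iNE : ∀ i, IM (Ψ i) (fun p => ∑ a, g (p.1 a)) := fun i => (IM_ge hg (hsm i)).1
  have iEG : ∀ i, IM (Ψ i) (fun p => EG g z (pr χ W z p) p) := fun i =>
    IM_EG hχ (hsm i) z W hgc
  have iPR : ∀ i, IM (Ψ i) (fun p => pr χ W z p ^ 2) := fun i => IM_pr hχ (hsm i) z W
  obtain ⟨Ctt, -, htt⟩ := tstw q C0 0 (le_refl 0)
  obtain ⟨Cll, -, hll⟩ := ltw q C0
  have iS : ∀ i, IM (Ψ i) (fun p => ∑ a, g (p.1 a) * iD p (p.1 a)) := fun i =>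
    (htt n k Λ (Ψ i) (hst i) g hg).1
  have iP : ∀ i, IM (Ψ i) (fun p => ∑ a, g (p.1 a) * ce p (p.1 a) 1 ^ (2 / 3 : ℝ)) := fun i =>
    (hll n k Λ (Ψ i) (hst i) g hg).1
  have iQ : ∀ i, IM (Ψ i) (fun p => ∫ x in Bz σ 3, g x * Qp z (pr χ W z p) p x) := fun i =>
    (qp_fub hχ (hsm i) z W hgc hg0 hSm hSb).1
  have i1 : ∀ i, IM (Ψ i) (fun _ => M) := fun i => IM.cont (hsm i) continuous_const
  -- the electrostatic inequality
  have hE : (0 + La) * mM Ψ (fun p => ∑ j, g (p.2 j)) +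
      1 / 8 * (M * mM Ψ (fun p => pr χ W z p ^ 2)) ≤
      mM Ψ (fun p => EG g z (pr χ W z p) p) +
      C1 * mM Ψ (fun p => ∑ a, g (p.1 a) * iD p (p.1 a)) +
      η * mM Ψ (fun p => ∑ a, g (p.1 a) * ce p (p.1 a) 1 ^ (2 / 3 : ℝ)) +
      C2 * (M + mM Ψ (fun p => ∑ a, g (p.1 a))) +
      C3 * mM Ψ (fun p => ∫ x in Bz σ 3, g x * Qp z (pr χ W z p) p x) := by
    have jm : ∀ i, IM (Ψ i) (fun p => M * pr χ W z p ^ 2) := fun i => (iPR i).cmul M
    have jl : ∀ i, IM (Ψ i) (fun p => (0 + La) * (∑ j, g (p.2 j)) +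
        1 / 8 * (M * pr χ W z p ^ 2)) :=
      fun i => ((iNN i).cmul (0 + La)).add ((jm i).cmul (1 / 8))
    have j1 : ∀ i, IM (Ψ i) (fun p => EG g z (pr χ W z p) p +
        C1 * (∑ a, g (p.1 a) * iD p (p.1 a))) := fun i => (iEG i).add ((iS i).cmul C1)
    have j2 : ∀ i, IM (Ψ i) (fun p => EG g z (pr χ W z p) p +
        C1 * (∑ a, g (p.1 a) * iD p (p.1 a)) +
        η * (∑ a, g (p.1 a) * ce p (p.1 a) 1 ^ (2 / 3 : ℝ))) := fun i =>
      (j1 i).add ((iP i).cmul η)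
    have j3 : ∀ i, IM (Ψ i) (fun p => M + ∑ a, g (p.1 a)) := fun i => (i1 i).add (iNE i)
    have j4 : ∀ i, IM (Ψ i) (fun p => EG g z (pr χ W z p) p +
        C1 * (∑ a, g (p.1 a) * iD p (p.1 a)) +
        η * (∑ a, g (p.1 a) * ce p (p.1 a) 1 ^ (2 / 3 : ℝ)) +
        C2 * (M + ∑ a, g (p.1 a))) := fun i => (j2 i).add ((j3 i).cmul C2)
    have h1 := mMgen (Ψ := Ψ) jl (fun i => (j4 i).add ((iQ i).cmul C3))
      (fun i σ' p hp h1 h2 h3 => by
        have hs := (hst i).supp σ' p (subset_tsupport _ hp)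
        have hb1 : ∀ a, ‖p.1 a‖ < R := fun a => by
          have := hΛR (hs.1 a)
          rwa [mem_ball_zero_iff] at this
        have hb2 : ∀ j, ‖p.2 j‖ < R := fun j => by
          have := hΛR (hs.2 j)
          rwa [mem_ball_zero_iff] at this
        have hfar : ∀ x, m x ≠ 0 → ∀ i, 2 ≤ ‖x - ps p i‖ := by
          intro x hx i
          have g1 := hmy x hx
          have g2 : ‖ps p i‖ < R := by
            rcases i with a | j
            · exact hb1 a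
            · exact hb2 j
          have g3 := norm_sub_norm_le y x
          rw [norm_sub_rev y x] at g3
          have g4 := norm_sub_norm_le x (ps p i)
          linarith
        have g5 := hel n k z hG.hz p h1 h2 h3 g m σ hWs hfar
          (hphi p (fun a => (hb1 a).le) (fun j => (hb2 j).le)) (pr χ W z p)
        rw [← hMd] at g5
        rw [mul_comm M (pr χ W z p ^ 2)]
        exact g5)
    rw [mMadd (fun i => (iNN i).cmul (0 + La)) (fun i => (jm i).cmul (1 / 8)), mMcmul, mMcmul,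
      mMcmul, mMadd j4 (fun i => (iQ i).cmul C3),
      mMadd j2 (fun i => (j3 i).cmul C2), mMadd j1 (fun i => (iP i).cmul η),
      mMadd iEG (fun i => (iS i).cmul C1), mMcmul, mMcmul, mMcmul, mMcmul, mMadd i1 iNE,
      mMconst hone] at h1
    exact h1
  have hC := hcore ι inferInstance n k Λ z κ W δ Ψ hG hδ g hg _ hJs hJ1 R hΛR
    hJg (Nb ζ D) hNm hNb' hΛN 0 _ _ M hM0.le hE
  have hQI := qc_qp (Ψ := Ψ) hχ hsm z W hgc hg0 hSm hNb' hSN hX (fun x hx => hQX x (hBσ hx))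
  have hIN : ∫ v in Nb ζ D, g v ≤ CD * M := by
    have h1 : ∫ v in Nb ζ D, g v = lam * ∫ v in Nb ζ D, gw χ ζ y v := by
      rw [hgd, integral_const_mul]
    have h2 := mul_le_mul_of_nonneg_left (hNb ζ hζ y) hlam.le
    rw [h1, hMs]
    linarith
  obtain ⟨hnp, hδ1⟩ := qc_np hG.hδ hδ
  have hTG : 0 ≤ ∑ i, TGs g (Ψ i) := sum_nonneg fun i _ => TGs_nonneg hg _
  have hmin : 0 < min 1 κm := lt_min one_pos hκm
  have h1 : 0 ≤ 3 / 16 * min 1 κm * (∑ i, TGs g (Ψ i)) := by positivity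
  have h2 : 1 / 8 * (M * mM Ψ (fun p => pr χ W z p ^ 2)) ≤
      C3 * (X * (CD * M)) + K5 * (M + CD * M + 4 / c * M) := by
    have g1 : C3 * mM Ψ (fun p => ∫ x in Bz σ 3, g x * Qp z (pr χ W z p) p x) ≤
        C3 * (X * (CD * M)) :=
      mul_le_mul_of_nonneg_left (hQI.trans (mul_le_mul_of_nonneg_left hIN hX)) hC3
    have g2 : ((n : ℝ) + k) * δ ≤ 4 / c * M := by
      refine hnp.trans ?_
      rw [div_mul_eq_mul_div, le_div_iff₀ hc]
      linarith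
    have g3 : K5 * (M + (∫ v in Nb ζ D, g v) + ((n : ℝ) + k) * δ) ≤
        K5 * (M + CD * M + 4 / c * M) :=
      mul_le_mul_of_nonneg_left (by linarith) hK5
    rw [zero_mul] at hC
    linarith
  have h3 : M * mM Ψ (fun p => pr χ W z p ^ 2) ≤
      M * (8 * (C3 * CD + K5 * (1 + CD + 4 / c)) * (1 + X)) := by
    have g1 : 8 * (C3 * (X * (CD * M)) + K5 * (M + CD * M + 4 / c * M)) ≤
        M * (8 * (C3 * CD + K5 * (1 + CD + 4 / c)) * (1 + X)) := by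
      have e : M * (8 * (C3 * CD + K5 * (1 + CD + 4 / c)) * (1 + X)) -
          8 * (C3 * (X * (CD * M)) + K5 * (M + CD * M + 4 / c * M)) =
          8 * M * (C3 * CD + K5 * (1 + CD + 4 / c) * X) := by ring
      have e2 : 0 ≤ 8 * M * (C3 * CD + K5 * (1 + CD + 4 / c) * X) := by positivity
      linarith
    linarith
  exact le_of_mul_le_mul_left h3 hM0

end H6.CX
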