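import Pool.Agent.H6.CX.Defs
import Pool.Agent.H6.CM.BumpEx

/-! Poincaré inequalities on balls. `poin2`: `(u x - u v) ^ 2 ≤ ‖x - v‖ ^ 2 * ∫ t in (0)..1, gr u (x + t • (v - x))` (fundamental theorem of calculus along the segment, Cauchy-Schwarz; `(fderiv ℝ u w e) ^ 2 ≤ ‖e‖ ^ 2 * gr u w`), `‖x - v‖ ≤ 2 r`. Integrate over `x, v ∈ ball y r`; by symmetry in `x` and `v` it suffices to consider `t ∈ (1 / 2, 1)` (the two halves of the interval give equal contributions), and for fixed `x` and `t` substitute `w = (1 - t) • x + t • v` (convexity of the ball, `dv = t⁻³ dw ≤ 8 dw`): `∫ v in ball y r, gr u (x + t • (v - x)) ≤ 8 ∫ w in ball y r, gr u w`. Integrating over `x` gives `2 * 4 r ^ 2 * 8 * volume (ball y r) * ∫ gr u` at most. `poin1`: `m` is the mean value of `u` on the ball; `|u x - m| ≤ volume⁻¹ ∫ v in ball y r, |u x - u v|`, Cauchy-Schwarz and `poin2`. `poinB`: `χ ^ 2` is continuous and not identically zero, so `c₀ ≤ χ ^ 2` on a ball `B' = ball (y + v₀) r₀ ⊆ ball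 y 1` after translation; `u x ^ 2 ≤ 2 (u x - u v) ^ 2 + 2 u v ^ 2`, integrate over `x ∈ ball y 2` and `v ∈ B'`, and use `poin2` with `r = 2`. -/

open MeasureTheory Finset

namespace H6.CX

open H6.CM H6.CB H6.CL H6.CT

private theorem Poin_gr0 (f : E3 → ℝ) (v : E3) : 0 ≤ gr f v := sum_nonneg fun _ _ => sq_nonneg _

private theorem Poin_grc {u : E3 → ℝ} (hu : ContDiff ℝ (⊤ : ℕ∞) u) : Continuous (gr u) := by
  unfold gr
  refine continuous_finsetSum _ fun d _ => ?_
  exact ((hu.continuous_fderiv (by simp)).clm_apply continuous_const).pow 2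

private theorem Poin_fd (u : E3 → ℝ) (w e : E3) : (fderiv ℝ u w e) ^ 2 ≤ ‖e‖ ^ 2 * gr u w := by
  have h1 : e = ∑ d : Fin 3, e d • EuclideanSpace.single d (1 : ℝ) := by
    ext i
    simp [Pi.single_apply]
  have h2 : fderiv ℝ u w e = ∑ d : Fin 3, e d * fderiv ℝ u w (EuclideanSpace.single d 1) := by
    conv_lhs => rw [h1]
    rw [map_sum]
    refine sum_congr rfl fun d _ => ?_
    rw [map_smul, smul_eq_mul]
  have h3 : ‖e‖ ^ 2 = ∑ d : Fin 3, e d ^ 2 := by
    rw [EuclideanSpace.norm_sq_eq]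
    refine sum_congr rfl fun d _ => ?_
    rw [Real.norm_eq_abs, sq_abs]
  rw [h2, h3]
  unfold gr
  exact sum_mul_sq_le_sq_mul_sq _ _ _

/-- Cauchy-Schwarz on the unit interval -/
private theorem Poin_cs {g : ℝ → ℝ} (hg : Continuous g) :
    (∫ t in (0 : ℝ)..1, g t) ^ 2 ≤ ∫ t in (0 : ℝ)..1, g t ^ 2 := by
  obtain ⟨a, ha⟩ : ∃ a, a = ∫ t in (0 : ℝ)..1, g t := ⟨_, rfl⟩
  have h1 : 0 ≤ ∫ t in (0 : ℝ)..1, (g t - a) ^ 2 :=
    intervalIntegral.integral_nonneg zero_le_one fun t _ => sq_nonneg _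
  have h2 : ∫ t in (0 : ℝ)..1, (g t - a) ^ 2 = (∫ t in (0 : ℝ)..1, g t ^ 2) - a ^ 2 := by
    have h3 : (fun t => (g t - a) ^ 2) = fun t => g t ^ 2 - (2 * a) * g t + a ^ 2 := by
      funext t
      ring
    have h4 : IntervalIntegrable (fun t => g t ^ 2) volume 0 1 := (hg.pow 2).intervalIntegrable _ _
    have h5 : IntervalIntegrable (fun t => (2 * a) * g t) volume 0 1 := (hg.const_mul _).intervalIntegrable _ _
    have h6 : IntervalIntegrable (fun _ : ℝ => a ^ 2) volume 0 1 := continuous_const.intervalIntegrable _ _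
    rw [h3, intervalIntegral.integral_add (h4.sub h5) h6, intervalIntegral.integral_sub h4 h5,
      intervalIntegral.integral_const_mul, ← ha]
    simp only [intervalIntegral.integral_const, sub_zero, one_smul]
    ring
  rw [← ha]
  linarith

/-- the segment estimate -/
private theorem Poin_seg {u : E3 → ℝ} (hu : ContDiff ℝ (⊤ : ℕ∞) u) (x v : E3) :
    (u x - u v) ^ 2 ≤ ‖x - v‖ ^ 2 * ∫ t in (0 : ℝ)..1, gr u (x + t • (v - x)) := by
  have hd : ∀ t : ℝ, HasDerivAt (fun t : ℝ => u (x + t • (v - x))) (fderiv ℝ u (x + t • (v - x)) (v - x)) t := by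
    intro t
    have h1 : HasDerivAt (fun t : ℝ => x + t • (v - x)) (v - x) t := by
      have h2 := ((hasDerivAt_id t).smul_const (v - x)).const_add x
      simpa only [id, one_smul] using h2
    exact ((hu.differentiable (by simp) _).hasFDerivAt).comp_hasDerivAt t h1
  have hcont : Continuous fun t : ℝ => fderiv ℝ u (x + t • (v - x)) (v - x) :=
    ((hu.continuous_fderiv (by simp)).comp
      (continuous_const.add (continuous_id.smul continuous_const))).clm_apply continuous_const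
  have h1 : ∫ t in (0 : ℝ)..1, fderiv ℝ u (x + t • (v - x)) (v - x) = u v - u x := by
    rw [intervalIntegral.integral_eq_sub_of_hasDerivAt (fun t _ => hd t) (hcont.intervalIntegrable _ _)]
    simp
  have h2 := Poin_cs hcont
  rw [h1] at h2
  have h3 : (u x - u v) ^ 2 = (u v - u x) ^ 2 := by ring
  rw [h3]
  refine h2.trans ?_
  rw [← intervalIntegral.integral_const_mul]
  have hg : Continuous fun t : ℝ => gr u (x + t • (v - x)) :=
    (Poin_grc hu).comp (continuous_const.add (continuous_id.smul continuous_const))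
  refine intervalIntegral.integral_mono_on zero_le_one ((hcont.pow 2).intervalIntegrable _ _)
    ((hg.const_mul _).intervalIntegrable _ _) fun t _ => ?_
  rw [norm_sub_rev x v]
  exact Poin_fd u _ _

/-- contraction of a ball towards one of its points -/
private theorem Poin_sub {G : E3 → ENNReal} (hG : Measurable G) {y x : E3} {r s : ℝ} (hx : x ∈ Metric.ball y r)
    (hs : 1 / 2 ≤ s) (hs1 : s ≤ 1) :
    ∫⁻ v in Metric.ball y r, G (x + s • (v - x)) ≤ 8 * ∫⁻ w in Metric.ball y r, G w := by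
  have hs0 : 0 < s := by linarith
  have h1 : ∫⁻ v in Metric.ball y r, G (x + s • (v - x)) ≤
      ∫⁻ v, (Metric.ball y r).indicator G (s • v + (1 - s) • x) := by
    rw [← lintegral_indicator measurableSet_ball]
    refine lintegral_mono fun v => ?_
    by_cases hv : v ∈ Metric.ball y r
    · have h2 : s • v + (1 - s) • x ∈ Metric.ball y r :=
        (convex_ball y r) hv hx hs0.le (by linarith) (by ring)
      have h3 : x + s • (v - x) = s • v + (1 - s) • x := by
        rw [smul_sub, sub_smul, one_smul]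
        abel
      rw [Set.indicator_of_mem hv, h3, Set.indicator_of_mem h2]
    · rw [Set.indicator_of_notMem hv]
      exact zero_le
  refine h1.trans ?_
  have hH : Measurable ((Metric.ball y r).indicator G) := hG.indicator measurableSet_ball
  have h4 : ∫⁻ v, (Metric.ball y r).indicator G (s • v + (1 - s) • x) =
      ∫⁻ w, (Metric.ball y r).indicator G (w + (1 - s) • x) ∂(Measure.map (fun v : E3 => s • v) volume) := by
    rw [lintegral_map (f := fun w => (Metric.ball y r).indicator G (w + (1 - s) • x))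
      (hH.comp (measurable_id.add_const _)) (measurable_const_smul s)]
  rw [h4, Measure.map_addHaar_smul volume hs0.ne', lintegral_smul_measure,
    lintegral_add_right_eq_self (fun w => (Metric.ball y r).indicator G w), lintegral_indicator measurableSet_ball,
    smul_eq_mul]
  refine mul_le_mul_left ?_ _
  rw [show (8 : ENNReal) = ENNReal.ofReal 8 by norm_num]
  refine ENNReal.ofReal_le_ofReal ?_
  rw [finrank_euclideanSpace_fin, abs_of_nonneg (inv_nonneg.2 (pow_nonneg hs0.le 3))]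
  rw [inv_le_comm₀ (by positivity) (by norm_num)]
  have h5 : (1 / 2 : ℝ) ^ 3 ≤ s ^ 3 := pow_le_pow_left₀ (by norm_num) hs 3
  norm_num at h5 ⊢
  exact h5

private theorem Poin_dbl {u : E3 → ℝ} (hu : ContDiff ℝ (⊤ : ℕ∞) u) (y : E3) (r : ℝ) (hr : 0 < r) :
    ∫⁻ x in Metric.ball y r, ∫⁻ v in Metric.ball y r, ENNReal.ofReal ((u x - u v) ^ 2) ≤
      ENNReal.ofReal (4 * r ^ 2) * (8 * (volume (Metric.ball y r) *
        ∫⁻ w in Metric.ball y r, ENNReal.ofReal (gr u w))) := by
  obtain ⟨G, hG⟩ : ∃ G : E3 → ENNReal, G = fun w => ENNReal.ofReal (gr u w) := ⟨_, rfl⟩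
  have hGc : Continuous G := by
    rw [hG]
    exact ENNReal.continuous_ofReal.comp (Poin_grc hu)
  have hGm : Measurable G := hGc.measurable
  have hF : Continuous fun z : (E3 × E3) × ℝ => G (z.1.1 + z.2 • (z.1.2 - z.1.1)) :=
    hGc.comp ((continuous_fst.comp continuous_fst).add (continuous_snd.smul
      ((continuous_snd.comp continuous_fst).sub (continuous_fst.comp continuous_fst))))
  have hF1 : ∀ x : E3, Measurable fun z : E3 × ℝ => G (x + z.2 • (z.1 - x)) := fun x =>
    (hGc.comp (continuous_const.add (continuous_snd.smul (continuous_fst.sub continuous_const)))).measurable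
  have hF2 : ∀ t : ℝ, Measurable fun z : E3 × E3 => G (z.1 + t • (z.2 - z.1)) := fun t =>
    (hGc.comp (continuous_fst.add ((continuous_snd.sub continuous_fst).const_smul t))).measurable
  have hstep1 : ∀ x ∈ Metric.ball y r, ∀ v ∈ Metric.ball y r, ENNReal.ofReal ((u x - u v) ^ 2) ≤
      ENNReal.ofReal (4 * r ^ 2) * ∫⁻ t in Set.Ioc (0 : ℝ) 1, G (x + t • (v - x)) := by
    intro x hx v hv
    have hgc : Continuous fun t : ℝ => gr u (x + t • (v - x)) :=
      (Poin_grc hu).comp (continuous_const.add (continuous_id.smul continuous_const))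
    have h1 : ENNReal.ofReal (∫ t in (0 : ℝ)..1, gr u (x + t • (v - x))) =
        ∫⁻ t in Set.Ioc (0 : ℝ) 1, G (x + t • (v - x)) := by
      rw [intervalIntegral.integral_of_le zero_le_one, hG]
      exact ofReal_integral_eq_lintegral_ofReal
        ((intervalIntegrable_iff_integrableOn_Ioc_of_le zero_le_one).1 (hgc.intervalIntegrable _ _))
        (Filter.Eventually.of_forall fun t => Poin_gr0 u _)
    rw [← h1, ← ENNReal.ofReal_mul (by positivity)]
    refine ENNReal.ofReal_le_ofReal ((Poin_seg hu x v).trans ?_)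
    refine mul_le_mul_of_nonneg_right ?_ (intervalIntegral.integral_nonneg zero_le_one fun t _ => Poin_gr0 u _)
    have h2 : ‖x - v‖ ≤ 2 * r := by
      rw [← dist_eq_norm]
      have h3 := dist_triangle_right x v y
      rw [Metric.mem_ball] at hx hv
      linarith
    have h4 := pow_le_pow_left₀ (norm_nonneg (x - v)) h2 2
    have h5 : (2 * r) ^ 2 = 4 * r ^ 2 := by ring
    linarith
  have hstep4 : ∀ t ∈ Set.Ioc (0 : ℝ) 1, ∫⁻ x in Metric.ball y r, ∫⁻ v in Metric.ball y r, G (x + t • (v - x)) ≤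
      8 * (volume (Metric.ball y r) * ∫⁻ w in Metric.ball y r, G w) := by
    intro t ht
    have hfin : ∀ K : ENNReal, ∫⁻ _x in Metric.ball y r, 8 * K = 8 * (volume (Metric.ball y r) * K) := by
      intro K
      rw [setLIntegral_const]
      ring
    by_cases h2 : 1 / 2 ≤ t
    · rw [← hfin]
      exact setLIntegral_mono' measurableSet_ball fun x hx => Poin_sub hGm hx h2 ht.2
    · have hsw : ∫⁻ x in Metric.ball y r, ∫⁻ v in Metric.ball y r, G (x + t • (v - x)) =
          ∫⁻ v in Metric.ball y r, ∫⁻ x in Metric.ball y r, G (x + t • (v - x)) :=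
        lintegral_lintegral_swap (hF2 t).aemeasurable
      rw [hsw, ← hfin]
      refine setLIntegral_mono' measurableSet_ball fun v hv => ?_
      have h3 : ∀ x : E3, x + t • (v - x) = v + (1 - t) • (x - v) := by
        intro x
        rw [smul_sub, smul_sub, sub_smul, sub_smul, one_smul, one_smul]
        abel
      simp only [h3]
      exact Poin_sub hGm hv (by linarith) (by linarith [ht.1])
  calc ∫⁻ x in Metric.ball y r, ∫⁻ v in Metric.ball y r, ENNReal.ofReal ((u x - u v) ^ 2)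
      ≤ ∫⁻ x in Metric.ball y r, ∫⁻ v in Metric.ball y r,
          ENNReal.ofReal (4 * r ^ 2) * ∫⁻ t in Set.Ioc (0 : ℝ) 1, G (x + t • (v - x)) :=
        setLIntegral_mono' measurableSet_ball fun x hx =>
          setLIntegral_mono' measurableSet_ball fun v hv => hstep1 x hx v hv
    _ = ENNReal.ofReal (4 * r ^ 2) * ∫⁻ x in Metric.ball y r, ∫⁻ v in Metric.ball y r,
          ∫⁻ t in Set.Ioc (0 : ℝ) 1, G (x + t • (v - x)) := by
        have h1 : Measurable fun z : E3 × E3 => ∫⁻ t in Set.Ioc (0 : ℝ) 1, G (z.1 + t • (z.2 - z.1)) :=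
          hF.measurable.lintegral_prod_right'
        rw [← lintegral_const_mul _ h1.lintegral_prod_right']
        refine lintegral_congr fun x => ?_
        have h2 : Measurable fun v => ∫⁻ t in Set.Ioc (0 : ℝ) 1, G (x + t • (v - x)) :=
          h1.comp measurable_prodMk_left
        exact lintegral_const_mul _ h2
    _ = ENNReal.ofReal (4 * r ^ 2) * ∫⁻ t in Set.Ioc (0 : ℝ) 1, ∫⁻ x in Metric.ball y r,
          ∫⁻ v in Metric.ball y r, G (x + t • (v - x)) := by
        congr 1
        have h1 : ∀ x : E3, ∫⁻ v in Metric.ball y r, ∫⁻ t in Set.Ioc (0 : ℝ) 1, G (x + t • (v - x)) =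
            ∫⁻ t in Set.Ioc (0 : ℝ) 1, ∫⁻ v in Metric.ball y r, G (x + t • (v - x)) := fun x =>
          lintegral_lintegral_swap (hF1 x).aemeasurable
        simp only [h1]
        have h2 : Measurable fun z : E3 × ℝ => ∫⁻ v in Metric.ball y r, G (z.1 + z.2 • (v - z.1)) := by
          have h3 : Measurable fun z : (E3 × ℝ) × E3 => G (z.1.1 + z.1.2 • (z.2 - z.1.1)) :=
            (hGc.comp ((continuous_fst.comp continuous_fst).add ((continuous_snd.comp continuous_fst).smul
              (continuous_snd.sub (continuous_fst.comp continuous_fst))))).measurable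
          exact h3.lintegral_prod_right'
        exact lintegral_lintegral_swap h2.aemeasurable
    _ ≤ ENNReal.ofReal (4 * r ^ 2) * ∫⁻ _t in Set.Ioc (0 : ℝ) 1,
          8 * (volume (Metric.ball y r) * ∫⁻ w in Metric.ball y r, G w) := by
        refine mul_le_mul_right ?_ _
        exact setLIntegral_mono' measurableSet_Ioc hstep4
    _ = _ := by
        rw [setLIntegral_const, Real.volume_Ioc]
        simp only [sub_zero, ENNReal.ofReal_one, mul_one, hG]

theorem poin2 : ∃ C : ℝ, 0 ≤ C ∧ ∀ (u : E3 → ℝ) (_ : ContDiff ℝ (⊤ : ℕ∞) u) (y : E3) (r : ℝ)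
    (_ : 0 < r), ∫ x in Metric.ball y r, ∫ v in Metric.ball y r, (u x - u v) ^ 2 ≤
      C * r ^ 5 * ∫ v in Metric.ball y r, gr u v := by
  refine ⟨32 * (volume (Metric.ball (0 : E3) 1)).toReal, by positivity, fun u hu y r hr => ?_⟩
  have hint : ∀ g : E3 → ℝ, Continuous g → IntegrableOn g (Metric.ball y r) := fun g hg =>
    (hg.continuousOn.integrableOn_compact (isCompact_closedBall y r)).mono_set Metric.ball_subset_closedBall
  have hc : ∀ x : E3, Continuous fun v => (u x - u v) ^ 2 := fun x =>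
    (continuous_const.sub hu.continuous).pow 2
  have h1 : ∀ x : E3, ∫ v in Metric.ball y r, (u x - u v) ^ 2 =
      (∫⁻ v in Metric.ball y r, ENNReal.ofReal ((u x - u v) ^ 2)).toReal := fun x =>
    integral_eq_lintegral_of_nonneg_ae (Filter.Eventually.of_forall fun v => sq_nonneg _)
      (hc x).aestronglyMeasurable
  have h2 : Measurable fun x : E3 => ∫⁻ v in Metric.ball y r, ENNReal.ofReal ((u x - u v) ^ 2) := by
    have h3 : Measurable fun z : E3 × E3 => ENNReal.ofReal ((u z.1 - u z.2) ^ 2) :=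
      (ENNReal.continuous_ofReal.comp (((hu.continuous.comp continuous_fst).sub
        (hu.continuous.comp continuous_snd)).pow 2)).measurable
    exact h3.lintegral_prod_right'
  simp only [h1]
  rw [integral_toReal h2.aemeasurable (Filter.Eventually.of_forall fun x => (hint _ (hc x)).lintegral_lt_top)]
  have hgi := hint _ (Poin_grc hu)
  have h4 : (∫⁻ w in Metric.ball y r, ENNReal.ofReal (gr u w)) ≠ ⊤ := hgi.lintegral_lt_top.ne
  have h5 : (∫⁻ w in Metric.ball y r, ENNReal.ofReal (gr u w)).toReal = ∫ w in Metric.ball y r, gr u w :=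
    (integral_eq_lintegral_of_nonneg_ae (Filter.Eventually.of_forall fun v => Poin_gr0 u _)
      (Poin_grc hu).aestronglyMeasurable).symm
  have h6 : volume (Metric.ball y r) ≠ ⊤ := measure_ball_lt_top.ne
  have h7 : (volume (Metric.ball y r)).toReal = r ^ 3 * (volume (Metric.ball (0 : E3) 1)).toReal := by
    rw [Measure.addHaar_ball volume y hr.le, finrank_euclideanSpace_fin, ENNReal.toReal_mul,
      ENNReal.toReal_ofReal (by positivity)]
  refine (ENNReal.toReal_mono ?_ (Poin_dbl hu y r hr)).trans (le_of_eq ?_)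
  · exact ENNReal.mul_ne_top ENNReal.ofReal_ne_top (ENNReal.mul_ne_top (by norm_num) (ENNReal.mul_ne_top h6 h4))
  · rw [ENNReal.toReal_mul, ENNReal.toReal_mul, ENNReal.toReal_mul, h5, h7, ENNReal.toReal_ofReal (by positivity)]
    norm_num
    ring

private theorem Poin_int (y : E3) (r : ℝ) {g : E3 → ℝ} (hg : Continuous g) :
    IntegrableOn g (Metric.ball y r) :=
  (hg.continuousOn.integrableOn_compact (isCompact_closedBall y r)).mono_set Metric.ball_subset_closedBall

private theorem Poin_lin {u : E3 → ℝ} (hu : Continuous u) (y : E3) (r a b c : ℝ) :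
    ∫ v in Metric.ball y r, (a * u v ^ 2 - b * u v + c) = a * (∫ v in Metric.ball y r, u v ^ 2) -
      b * (∫ v in Metric.ball y r, u v) + (volume (Metric.ball y r)).toReal * c := by
  have e1 : Integrable (fun v => a * u v ^ 2) (volume.restrict (Metric.ball y r)) :=
    Poin_int y r ((hu.pow 2).const_mul a)
  have e2 : Integrable (fun v => b * u v) (volume.restrict (Metric.ball y r)) := Poin_int y r (hu.const_mul b)
  have e3 : Integrable (fun _ : E3 => c) (volume.restrict (Metric.ball y r)) := Poin_int y r continuous_const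
  have h1 : Integrable (fun v => a * u v ^ 2 - b * u v) (volume.restrict (Metric.ball y r)) := e1.sub e2
  rw [integral_add h1 e3, integral_sub e1 e2, integral_const_mul, integral_const_mul, setIntegral_const, smul_eq_mul]
  rfl

private theorem Poin_in {u : E3 → ℝ} (hu : Continuous u) (y x : E3) (r : ℝ) :
    ∫ v in Metric.ball y r, (u x - u v) ^ 2 = (volume (Metric.ball y r)).toReal * u x ^ 2 -
      2 * u x * (∫ v in Metric.ball y r, u v) + ∫ v in Metric.ball y r, u v ^ 2 := by
  have h4 : (fun v => (u x - u v) ^ 2) = fun v => 1 * u v ^ 2 - (2 * u x) * u v + u x ^ 2 := by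
    funext v
    ring
  rw [h4, Poin_lin hu]
  ring

private theorem Poin_dd {u : E3 → ℝ} (hu : Continuous u) (y : E3) (r : ℝ) :
    ∫ x in Metric.ball y r, ∫ v in Metric.ball y r, (u x - u v) ^ 2 =
      2 * ((volume (Metric.ball y r)).toReal * (∫ v in Metric.ball y r, u v ^ 2) -
        (∫ v in Metric.ball y r, u v) ^ 2) := by
  obtain ⟨V, hV⟩ : ∃ V, V = (volume (Metric.ball y r)).toReal := ⟨_, rfl⟩
  obtain ⟨I1, hI1⟩ : ∃ I1, I1 = ∫ v in Metric.ball y r, u v := ⟨_, rfl⟩
  obtain ⟨I2, hI2⟩ : ∃ I2, I2 = ∫ v in Metric.ball y r, u v ^ 2 := ⟨_, rfl⟩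
  simp only [Poin_in hu, ← hV, ← hI1, ← hI2]
  have h4 : (fun v => V * u v ^ 2 - 2 * u v * I1 + I2) = fun v => V * u v ^ 2 - (2 * I1) * u v + I2 := by
    funext v
    ring
  rw [h4, Poin_lin hu, ← hI1, ← hI2, ← hV]
  ring

private theorem Poin_cb {g : E3 → ℝ} (hg : Continuous g) (y : E3) (r : ℝ) :
    (∫ v in Metric.ball y r, g v) ^ 2 ≤
      (volume (Metric.ball y r)).toReal * ∫ v in Metric.ball y r, g v ^ 2 := by
  have h1 := Poin_dd hg y r
  have h2 : 0 ≤ ∫ x in Metric.ball y r, ∫ v in Metric.ball y r, (g x - g v) ^ 2 :=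
    integral_nonneg fun x => integral_nonneg fun v => sq_nonneg _
  linarith

private theorem Poin_vol (y : E3) {r : ℝ} (hr : 0 < r) : 0 < (volume (Metric.ball y r)).toReal ∧
    (volume (Metric.ball y r)).toReal = r ^ 3 * (volume (Metric.ball (0 : E3) 1)).toReal := by
  refine ⟨ENNReal.toReal_pos (Metric.measure_ball_pos volume y hr).ne' measure_ball_lt_top.ne, ?_⟩
  rw [Measure.addHaar_ball volume y hr.le, finrank_euclideanSpace_fin, ENNReal.toReal_mul,
    ENNReal.toReal_ofReal (by positivity)]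

theorem poin1 : ∃ C : ℝ, 0 ≤ C ∧ ∀ (u : E3 → ℝ) (_ : ContDiff ℝ (⊤ : ℕ∞) u) (y : E3) (r : ℝ)
    (_ : 0 < r), ∃ m : ℝ, (∫ v in Metric.ball y r, |u v - m|) ^ 2 ≤
      C * r ^ 5 * (∫ v in Metric.ball y r, gr u v) ∧
      m ^ 2 * r ^ 3 ≤ C * ∫ v in Metric.ball y r, u v ^ 2 := by
  obtain ⟨C, hC0, hC⟩ := poin2
  obtain ⟨hc0, -⟩ := Poin_vol (0 : E3) (r := 1) one_pos
  obtain ⟨c, hc⟩ : ∃ c, c = (volume (Metric.ball (0 : E3) 1)).toReal := ⟨_, rfl⟩
  rw [← hc] at hc0
  refine ⟨C + c⁻¹, by positivity, fun u hu y r hr => ?_⟩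
  obtain ⟨hV0, hV1⟩ := Poin_vol y hr
  have hC' := hC u hu y r hr
  rw [Poin_dd hu.continuous] at hC'
  have hcs := Poin_cb hu.continuous y r
  obtain ⟨V, hV⟩ : ∃ V, V = (volume (Metric.ball y r)).toReal := ⟨_, rfl⟩
  obtain ⟨I1, hI1⟩ : ∃ I1, I1 = ∫ v in Metric.ball y r, u v := ⟨_, rfl⟩
  obtain ⟨I2, hI2⟩ : ∃ I2, I2 = ∫ v in Metric.ball y r, u v ^ 2 := ⟨_, rfl⟩
  obtain ⟨Gi, hGi⟩ : ∃ Gi, Gi = ∫ v in Metric.ball y r, gr u v := ⟨_, rfl⟩
  have hG0 : 0 ≤ Gi := by
    rw [hGi]
    exact integral_nonneg fun v => Poin_gr0 u v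
  have hI20 : 0 ≤ I2 := by
    rw [hI2]
    exact integral_nonneg fun v => sq_nonneg _
  rw [← hV] at hV0 hV1 hC' hcs
  rw [← hI1, ← hI2] at hC' hcs
  rw [← hc] at hV1
  rw [← hGi] at hC' ⊢
  rw [← hI2]
  refine ⟨I1 / V, ?_, ?_⟩
  · have h1 : Continuous fun v => |u v - I1 / V| := (hu.continuous.sub continuous_const).abs
    have h2 := Poin_cb h1 y r
    rw [← hV] at h2
    have h3 : ∫ v in Metric.ball y r, |u v - I1 / V| ^ 2 = I2 - I1 ^ 2 / V := by
      have e4 : (fun v => |u v - I1 / V| ^ 2) =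
          fun v => 1 * u v ^ 2 - (2 * (I1 / V)) * u v + (I1 / V) ^ 2 := by
        funext v
        rw [sq_abs]
        ring
      rw [e4, Poin_lin hu.continuous, ← hI1, ← hI2, ← hV]
      field_simp
      ring
    rw [h3] at h2
    refine h2.trans ?_
    have h6 : V * (I2 - I1 ^ 2 / V) = V * I2 - I1 ^ 2 := by
      field_simp
    rw [h6]
    have h7 : 0 ≤ c⁻¹ * r ^ 5 * Gi := by positivity
    have h8 : 0 ≤ C * r ^ 5 * Gi := by positivity
    have h9 : (C + c⁻¹) * r ^ 5 * Gi = C * r ^ 5 * Gi + c⁻¹ * r ^ 5 * Gi := by ring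
    rw [h9]
    linarith
  · have h1 : (I1 / V) ^ 2 * r ^ 3 = I1 ^ 2 / V * c⁻¹ := by
      rw [hV1]
      field_simp
    have h2 : I1 ^ 2 / V ≤ I2 := by
      rw [div_le_iff₀ hV0]
      linarith
    rw [h1]
    have h3 : I1 ^ 2 / V * c⁻¹ ≤ I2 * c⁻¹ := mul_le_mul_of_nonneg_right h2 (by positivity)
    have h4 : 0 ≤ C * I2 := by positivity
    have h5 : (C + c⁻¹) * I2 = C * I2 + I2 * c⁻¹ := by ring
    rw [h5]
    linarith

theorem poinB {χ : E3 → ℝ} (h : Bump χ) : ∃ C : ℝ, 0 ≤ C ∧ ∀ (u : E3 → ℝ)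
    (_ : ContDiff ℝ (⊤ : ℕ∞) u) (y : E3), ∫ v in Metric.ball y 2, u v ^ 2 ≤
      C * ((∫ v in Metric.ball y 2, gr u v) + ∫ v, χ (v - y) ^ 2 * u v ^ 2) := by
  obtain ⟨C, hC0, hC⟩ := poin2
  have hex : ∃ v₀, χ v₀ ≠ 0 := by
    by_contra hne
    push Not at hne
    have h1 := h.norm
    simp only [hne] at h1
    norm_num at h1
  obtain ⟨v₀, hv₀⟩ := hex
  obtain ⟨c₀, hc₀⟩ : ∃ c₀, c₀ = χ v₀ ^ 2 / 2 := ⟨_, rfl⟩
  have hc₀p : 0 < c₀ := by
    rw [hc₀]
    positivity
  have hopen : IsOpen {w : E3 | c₀ < χ w ^ 2} := isOpen_lt continuous_const (h.smooth.continuous.pow 2)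
  have hmem : v₀ ∈ {w : E3 | c₀ < χ w ^ 2} := by
    have : 0 < χ v₀ ^ 2 := by positivity
    simp only [Set.mem_ofPred_eq, hc₀]
    linarith
  obtain ⟨r₀, hr₀, hball⟩ := Metric.isOpen_iff.1 hopen v₀ hmem
  obtain ⟨hb0, -⟩ := Poin_vol (0 : E3) hr₀
  obtain ⟨b, hb⟩ : ∃ b, b = (volume (Metric.ball (0 : E3) r₀)).toReal := ⟨_, rfl⟩
  obtain ⟨B, hB⟩ : ∃ B, B = (volume (Metric.ball (0 : E3) 2)).toReal := ⟨_, rfl⟩
  rw [← hb] at hb0
  have hB0 : 0 ≤ B := by
    rw [hB]
    exact ENNReal.toReal_nonneg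
  refine ⟨b⁻¹ * (2 * (C * 32) + 2 * B * c₀⁻¹), by positivity, fun u hu y => ?_⟩
  have hC' := hC u hu y 2 (by norm_num)
  have hin : ∀ w ∈ Metric.ball (y + v₀) r₀, c₀ < χ (w - y) ^ 2 := by
    intro w hw
    refine hball ?_
    rw [Metric.mem_ball, dist_eq_norm] at hw ⊢
    have h1 : w - y - v₀ = w - (y + v₀) := by abel
    rwa [h1]
  have hsub : Metric.ball (y + v₀) r₀ ⊆ Metric.ball y 2 := by
    intro w hw
    have h1 := hin w hw
    have h2 : χ (w - y) ≠ 0 := by
      intro h0
      rw [h0] at h1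
      norm_num at h1
      linarith
    have h3 := h.supp _ h2
    rw [Metric.mem_ball, dist_eq_norm]
    linarith
  have hbv : (volume (Metric.ball (y + v₀) r₀)).toReal = b := by
    rw [hb, (Poin_vol (y + v₀) hr₀).2, (Poin_vol (0 : E3) hr₀).2]
  have hBv : (volume (Metric.ball y 2)).toReal = B := by
    rw [hB, (Poin_vol y (r := 2) (by norm_num)).2, (Poin_vol (0 : E3) (r := 2) (by norm_num)).2]
  obtain ⟨J, hJ⟩ : ∃ J, J = ∫ v in Metric.ball (y + v₀) r₀, u v ^ 2 := ⟨_, rfl⟩
  obtain ⟨K, hK⟩ : ∃ K, K = ∫ v, χ (v - y) ^ 2 * u v ^ 2 := ⟨_, rfl⟩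
  obtain ⟨Gi, hGi⟩ : ∃ Gi, Gi = ∫ v in Metric.ball y 2, gr u v := ⟨_, rfl⟩
  obtain ⟨I2, hI2⟩ : ∃ I2, I2 = ∫ v in Metric.ball y 2, u v ^ 2 := ⟨_, rfl⟩
  have hKint : Integrable fun v => χ (v - y) ^ 2 * u v ^ 2 := by
    refine Continuous.integrable_of_hasCompactSupport
      (((h.smooth.continuous.comp (continuous_id.sub continuous_const)).pow 2).mul (hu.continuous.pow 2)) ?_
    refine HasCompactSupport.intro (isCompact_closedBall y 2) fun v hv => ?_
    have h0 : χ (v - y) = 0 := by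
      by_contra h0
      apply hv
      have := h.supp _ h0
      rw [Metric.mem_closedBall, dist_eq_norm]
      linarith
    rw [h0]
    norm_num
  have hJK : J ≤ c₀⁻¹ * K := by
    rw [hJ, hK, ← integral_const_mul, ← integral_indicator measurableSet_ball]
    refine integral_mono ((integrable_indicator_iff measurableSet_ball).2
      (Poin_int _ _ (hu.continuous.pow 2))) (hKint.const_mul _) fun v => ?_
    by_cases hv : v ∈ Metric.ball (y + v₀) r₀
    · rw [Set.indicator_of_mem hv]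
      have h1 := hin v hv
      have h2 : 1 ≤ c₀⁻¹ * χ (v - y) ^ 2 := by
        rw [inv_mul_eq_div, le_div_iff₀ hc₀p, one_mul]
        exact h1.le
      have h3 := mul_le_mul_of_nonneg_right h2 (sq_nonneg (u v))
      rw [one_mul, mul_assoc] at h3
      exact h3
    · rw [Set.indicator_of_notMem hv]
      positivity
  have hpt : ∀ x, b * u x ^ 2 ≤ 2 * (∫ v in Metric.ball y 2, (u x - u v) ^ 2) + 2 * J := by
    intro x
    have hcx : Continuous fun v => (u x - u v) ^ 2 := (continuous_const.sub hu.continuous).pow 2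
    have h1 : ∫ v in Metric.ball (y + v₀) r₀, (u x - u v) ^ 2 ≤ ∫ v in Metric.ball y 2, (u x - u v) ^ 2 :=
      setIntegral_mono_set (Poin_int y 2 hcx) (Filter.Eventually.of_forall fun v => sq_nonneg _)
        (LE.le.eventuallyLE hsub)
    have h2 : b * u x ^ 2 = ∫ _v in Metric.ball (y + v₀) r₀, u x ^ 2 := by
      rw [setIntegral_const, smul_eq_mul, ← hbv]
      rfl
    have h3 : ∫ _v in Metric.ball (y + v₀) r₀, u x ^ 2 ≤
        ∫ v in Metric.ball (y + v₀) r₀, (2 * (u x - u v) ^ 2 + 2 * u v ^ 2) := by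
      refine integral_mono (Poin_int _ _ continuous_const)
        (Poin_int _ _ ((hcx.const_mul 2).add ((hu.continuous.pow 2).const_mul 2))) fun v => ?_
      beta_reduce
      nlinarith [sq_nonneg (u x - 2 * u v)]
    have e1 : IntegrableOn (fun v => 2 * (u x - u v) ^ 2) (Metric.ball (y + v₀) r₀) :=
      Poin_int _ _ (hcx.const_mul 2)
    have e2 : IntegrableOn (fun v => 2 * u v ^ 2) (Metric.ball (y + v₀) r₀) :=
      Poin_int _ _ ((hu.continuous.pow 2).const_mul 2)
    rw [integral_add e1 e2, integral_const_mul, integral_const_mul, ← hJ] at h3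
    linarith
  have hfin : b * I2 ≤ 2 * (∫ x in Metric.ball y 2, ∫ v in Metric.ball y 2, (u x - u v) ^ 2) + B * (2 * J) := by
    have hcc : Continuous fun x => ∫ v in Metric.ball y 2, (u x - u v) ^ 2 := by
      simp only [Poin_in hu.continuous]
      exact (((hu.continuous.pow 2).const_mul _).sub ((hu.continuous.const_mul 2).mul continuous_const)).add
        continuous_const
    have e1 : IntegrableOn (fun x => 2 * ∫ v in Metric.ball y 2, (u x - u v) ^ 2) (Metric.ball y 2) :=
      Poin_int _ _ (hcc.const_mul 2)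
    have e2 : IntegrableOn (fun _ : E3 => 2 * J) (Metric.ball y 2) := Poin_int _ _ continuous_const
    have h1 : ∫ x in Metric.ball y 2, b * u x ^ 2 ≤
        ∫ x in Metric.ball y 2, (2 * (∫ v in Metric.ball y 2, (u x - u v) ^ 2) + 2 * J) :=
      integral_mono (Poin_int _ _ ((hu.continuous.pow 2).const_mul b)) (e1.add e2) hpt
    rw [integral_add e1 e2, integral_const_mul, integral_const_mul, ← hI2, setIntegral_const, smul_eq_mul] at h1
    have h5 : volume.real (Metric.ball y 2) = B := by rw [← hBv]; rfl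
    rw [h5] at h1
    exact h1
  rw [← hGi] at hC'
  rw [← hI2, ← hGi, ← hK]
  have hG0 : 0 ≤ Gi := by
    rw [hGi]
    exact integral_nonneg fun v => Poin_gr0 u v
  have hK0 : 0 ≤ K := by
    rw [hK]
    exact integral_nonneg fun v => mul_nonneg (sq_nonneg _) (sq_nonneg _)
  have h1 : b * I2 ≤ (2 * (C * 32) + 2 * B * c₀⁻¹) * (Gi + K) := by
    have h2 : B * (2 * J) ≤ B * (2 * (c₀⁻¹ * K)) :=
      mul_le_mul_of_nonneg_left (by linarith) hB0
    have h3 : C * 2 ^ 5 * Gi = C * 32 * Gi := by norm_num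
    have h4 : 0 ≤ C * 32 * K := by positivity
    have h5 : 0 ≤ B * c₀⁻¹ * Gi := by positivity
    have h6 : (2 * (C * 32) + 2 * B * c₀⁻¹) * (Gi + K) =
        2 * (C * 32 * Gi) + 2 * (C * 32 * K) + 2 * (B * c₀⁻¹ * Gi) + B * (2 * (c₀⁻¹ * K)) := by ring
    rw [h6]
    linarith
  have h2 : I2 = b⁻¹ * (b * I2) := by
    field_simp
  rw [h2, mul_assoc]
  exact mul_le_mul_of_nonneg_left h1 (by positivity)

end H6.CX
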