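import Pool.Agent.H6.CX.ElC
import Pool.Agent.H6.CX.Poin

/-! The electrostatic inequality for a weight with its source near `y`. Let `u = ua - c`, `M = ∫ σ ≤ lam` and `X = ∫ v, χ (v - y) ^ 2 * u v ^ 2`. `elr` with `η' = min η (small)`, `R = ‖y‖ + 2`, `m = lam * χ (· - y) ^ 2`: the last integral of `elr` is at most `∫ v in ball y 2, g u ^ 2 + ∫ v in Bz σ 1, g u ^ 2` (`χ (x - y) ≠ 0` implies `‖x - y‖ < 1 / 2`), and `∫ v in ball y 2, g u ^ 2 ≤ C0 g y * C ((∫ v in ball y 2, gr ua v) + X) ≤ C' ((∫ v in ball y 2, g * gr ua) + lam * X)` by `poinB` (`g y ≤ C0 g v` there and `g y ≤ C0 lam`): absorbed for small `η'`, so `EG ≥ lam X / 4 - C ∫ v in Bz σ 1, g u ^ 2 - lam c ^ 2 / 2 - ...` (`σ ≤ C0 g`, and `σ` vanishes outside `Bz σ 1`). Counting: `cnt_low` (`s` also at most its `s0`), `|∫ m ua - ∫ σ ua| ≤ lam |∫ χ (v - y) ^ 2 u| + ∫ σ |u| + |c| lam`; `|∫ χ (v - y) ^ 2 u| ≤ X ^ (1/2)`;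 multiply by `2 L' / zm`, `L' = 2 L + C2 + 1`, and use `a b ≤ ε a ^ 2 + b ^ 2 / (4 ε)`: the terms with `L'` are at most `lam X / 16 + ∫ σ u ^ 2 + lam c ^ 2 + C lam`; the constants in front of `∫ σ u ^ 2` and `lam c ^ 2` do not depend on `L`. `cmp2`: `lam |av| ≤ lam X ^ (1/2) + C s ^ 2 lam (ce p y 1 + cn p y 1)`, and `lam * ce p y 1 ≤ C0 ^ 2 ∑ g (x a)` (`lam ≤ C0 g y`, `g y ≤ C0 g (x a)`), the same for nuclei; `s` so small that `C s ^ 2 C0 ^ 2 ≤ 1 / 2`. `ce ^ (1/3) ≤ ε ce ^ (2/3) + C`. Finally `els`. -/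

open MeasureTheory Finset

namespace H6.CX

open H6.CM H6.CB H6.CL H6.CT

private theorem gr_sub_c (f : E3 → ℝ) (c : ℝ) (v : E3) :
    gr (fun w => f w - c) v = gr f v := by
  unfold gr
  simp only [fderiv_sub_const]

private theorem union_le {f : E3 → ℝ} (hf : Continuous f) (h0 : ∀ v, 0 ≤ f v) {A B : Set E3}
    (hA : Bornology.IsBounded A) (hB : Bornology.IsBounded B) (hAm : MeasurableSet A)
    (hBm : MeasurableSet B) :
    ∫ v in A ∪ B, f v ≤ (∫ v in A, f v) + ∫ v in B, f v := by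
  have h1 : A ∪ B = A ∪ (B \ A) := by rw [Set.union_sdiff_self]
  rw [h1, setIntegral_union Set.disjoint_sdiff_right (hBm.diff hAm) (intOn' hf hA)
    (intOn' hf (hB.subset Set.sdiff_subset))]
  have h2 : ∫ v in B \ A, f v ≤ ∫ v in B, f v :=
    setIntegral_mono_set (intOn' hf hB) (Filter.Eventually.of_forall h0)
      (LE.le.eventuallyLE Set.sdiff_subset)
  linarith

private theorem near_cnt {k : ℕ} {C0 lam : ℝ} (hC0 : 0 ≤ C0) {g : E3 → ℝ} (hg : Wt C0 g) {y : E3}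
    (hl : lam ≤ C0 * g y) (R : Fin k → E3) :
    lam * ∑ j, (if ‖R j - y‖ < 1 then (1 : ℝ) else 0) ≤ C0 ^ 2 * ∑ j, g (R j) := by
  rw [Finset.mul_sum, Finset.mul_sum]
  apply Finset.sum_le_sum
  intro j _
  split_ifs with h
  · have h1 : g y ≤ C0 * g (R j) := hg.har y (R j) (by rw [norm_sub_rev]; linarith)
    have h2 := mul_le_mul_of_nonneg_left h1 hC0
    rw [mul_one]
    nlinarith
  · have := hg.pos (R j)
    rw [mul_zero]
    positivity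

private theorem ball_part {C0 Cp : ℝ} (hCp : 0 ≤ Cp) (hC0 : 0 ≤ C0) {χ : E3 → ℝ} {g : E3 → ℝ}
    (hg : Wt C0 g) {u : E3 → ℝ} (hu : ContDiff ℝ (⊤ : ℕ∞) u) {y : E3} {lam : ℝ}
    (hgl : g y ≤ C0 * lam)
    (hP : ∫ v in Metric.ball y 2, u v ^ 2 ≤
      Cp * ((∫ v in Metric.ball y 2, gr u v) + ∫ v, χ (v - y) ^ 2 * u v ^ 2))
    (hX : 0 ≤ ∫ v, χ (v - y) ^ 2 * u v ^ 2) :
    ∫ v in Metric.ball y 2, g v * u v ^ 2 ≤ Cp * C0 ^ 2 *
      ((∫ v in Metric.ball y 2, g v * gr u v) + lam * ∫ v, χ (v - y) ^ 2 * u v ^ 2) := by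
  have hgc : Continuous g := hg.smooth.continuous
  have hb : Bornology.IsBounded (Metric.ball y 2) := Metric.isBounded_ball
  have h1 : ∫ v in Metric.ball y 2, g v * u v ^ 2 ≤
      C0 * g y * ∫ v in Metric.ball y 2, u v ^ 2 := by
    rw [← integral_const_mul]
    apply setIntegral_mono_on (intOn' (hgc.mul (hu.continuous.pow 2)) hb)
      (intOn' (continuous_const.mul (hu.continuous.pow 2)) hb) measurableSet_ball
    intro v hv
    rw [mem_ball_iff_norm] at hv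
    have := hg.har v y (by linarith)
    exact mul_le_mul_of_nonneg_right this (sq_nonneg _)
  have h2 : g y * (∫ v in Metric.ball y 2, gr u v) ≤
      C0 * ∫ v in Metric.ball y 2, g v * gr u v := by
    rw [← integral_const_mul, ← integral_const_mul]
    apply setIntegral_mono_on (intOn' (continuous_const.mul (gr_cts' hu)) hb)
      (intOn' (continuous_const.mul (hgc.mul (gr_cts' hu))) hb) measurableSet_ball
    intro v hv
    rw [mem_ball_iff_norm] at hv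
    have := hg.har y v (by rw [norm_sub_rev]; linarith)
    have h9 := mul_le_mul_of_nonneg_right this (gr_nn' u v)
    show g y * gr u v ≤ C0 * (g v * gr u v)
    linarith
  have h3 := mul_le_mul_of_nonneg_left hP (by have := hg.pos y; positivity : 0 ≤ C0 * g y)
  have h4 := mul_le_mul_of_nonneg_right hgl hX
  have h5 : 0 ≤ C0 * Cp := by positivity
  have h6 := mul_le_mul_of_nonneg_left (add_le_add h2 h4) h5
  calc ∫ v in Metric.ball y 2, g v * u v ^ 2 ≤ _ := h1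
    _ ≤ _ := h3
    _ = C0 * Cp * (g y * (∫ v in Metric.ball y 2, gr u v) +
        g y * ∫ v, χ (v - y) ^ 2 * u v ^ 2) := by ring
    _ ≤ _ := h6
    _ = _ := by ring

private theorem num {Sj Sa Si S23 S13 M EGv X G Gb Is W Wb B1 Q Im1 Is1 cn Av ce' cn' c lam C1 C2 η
    η' zm t L C0 Ce Cz Cp Cm a8 : ℝ}
    (f1 : a8 * G + lam * X / 2 - Is / 2 - c ^ 2 / 2 * (lam - M) - C1 * Si - η' * S23 -
      C2 * (S13 + Sj) - η' * W ≤ EGv)
    (f2 : W ≤ Wb + B1) (f3 : Wb ≤ Cp * C0 ^ 2 * (Gb + lam * X)) (f31 : Gb ≤ G)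
    (h1 : η' * (Cp * C0 ^ 2) ≤ a8) (h2 : η' * (Cp * C0 ^ 2) ≤ 1 / 4)
    (f4 : Is ≤ C0 * B1)
    (f5 : B1 ≤ Ce * Q) (f6 : zm / 2 * Sj ≤ 2 * Sa + cn)
    (f61 : cn ≤ Im1 + |c| * lam + (Is1 + |c| * M))
    (f7 : t * Is1 ≤ Is + t ^ 2 / 4 * M)
    (f71 : 16 * (t + L) * Im1 ≤ lam * X + (16 * (t + L)) ^ 2 / 4 * lam)
    (f8 : C2 * S13 ≤ η / 2 * S23 + Cz * Sa)
    (f9 : lam * Av ≤ Im1 + Cm * (lam * ce' + lam * cn')) (f91 : lam * ce' ≤ C0 ^ 2 * Sa)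
    (f92 : lam * cn' ≤ C0 ^ 2 * Sj) (hCm : 0 ≤ Cm)
    (hη1 : η' ≤ 1) (hη2 : η' ≤ η / 2) (ht : 0 ≤ t) (hL : 0 ≤ L)
    (hLt : t * (zm / 2) = L * (1 + Cm * C0 ^ 2) + C2) (hSa : 0 ≤ Sa)
    (hX : 0 ≤ X) (hB1 : 0 ≤ B1) (hCp : 0 ≤ Cp) (hCe : 0 ≤ Ce) (hη0 : 0 ≤ η') (hQ : 0 ≤ Q) (hG : 0 ≤ G)
    (hS23 : 0 ≤ S23) (hM : 0 ≤ M) (hMl : M ≤ lam) (hlam : 0 ≤ lam) (hC0 : 0 ≤ C0)
    (hCz : 0 ≤ Cz) :
    L * (Sj + lam * Av) ≤ EGv + C1 * Si + η * S23 +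
      (2 * t + Cz + L * Cm * C0 ^ 2 + 4 * (16 * (t + L)) ^ 2 + 2 * t ^ 2) * (lam + Sa) +
      (3 / 2 + (3 / 2 * C0 + 1) * Ce) * (lam * c ^ 2 + Q) := by
  have hlX : 0 ≤ lam * X := by positivity
  have g1 : (L * (1 + Cm * C0 ^ 2) + C2) * Sj ≤
      t * (2 * Sa + (Im1 + |c| * lam + (Is1 + |c| * M))) := by
    rw [← hLt]
    have := mul_le_mul_of_nonneg_left (f6.trans (by linarith :
      2 * Sa + cn ≤ 2 * Sa + (Im1 + |c| * lam + (Is1 + |c| * M)))) ht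
    linarith
  have g2 : L * (lam * Av) ≤ L * (Im1 + Cm * (C0 ^ 2 * Sa + C0 ^ 2 * Sj)) := by
    have := mul_le_mul_of_nonneg_left (add_le_add f91 f92) hCm
    exact mul_le_mul_of_nonneg_left (by linarith) hL
  have g3 : η' * S23 ≤ η / 2 * S23 := mul_le_mul_of_nonneg_right hη2 hS23
  have g4 : (3 / 2 * C0 + 1) * B1 ≤ (3 / 2 * C0 + 1) * (Ce * Q) :=
    mul_le_mul_of_nonneg_left f5 (by linarith)
  have g5 : η' * W ≤ η' * (Cp * C0 ^ 2 * (G + lam * X) + B1) := by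
    apply mul_le_mul_of_nonneg_left _ hη0
    have : Cp * C0 ^ 2 * (Gb + lam * X) ≤ Cp * C0 ^ 2 * (G + lam * X) :=
      mul_le_mul_of_nonneg_left (by linarith) (by positivity)
    linarith
  have g6 : η' * (Cp * C0 ^ 2) * G ≤ a8 * G := mul_le_mul_of_nonneg_right h1 hG
  have g7 : η' * (Cp * C0 ^ 2) * (lam * X) ≤ 1 / 4 * (lam * X) :=
    mul_le_mul_of_nonneg_right h2 hlX
  have g8 : η' * B1 ≤ B1 := mul_le_of_le_one_left hB1 hη1
  have hc : |c| ^ 2 = c ^ 2 := sq_abs c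
  have g9 : t * (|c| * lam) ≤ (c ^ 2 / 2 + t ^ 2 / 2) * lam := by
    rw [← hc]
    have g0 := mul_nonneg (sq_nonneg (|c| - t)) hlam
    linarith only [g0]
  have g10 : t * (|c| * M) ≤ t * (|c| * lam) := by
    have := abs_nonneg c
    have := mul_le_mul_of_nonneg_left hMl this
    exact mul_le_mul_of_nonneg_left this ht
  have g11 : t ^ 2 / 4 * M ≤ t ^ 2 / 4 * lam := mul_le_mul_of_nonneg_left hMl (by positivity)
  have g12 : c ^ 2 / 2 * (lam - M) ≤ c ^ 2 / 2 * lam :=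
    mul_le_mul_of_nonneg_left (by linarith) (by positivity)
  have e1 : 0 ≤ t * lam := by positivity
  have e2 : 0 ≤ t * Sa := by positivity
  have e3 : 0 ≤ Cz * lam := by positivity
  have e4 : 0 ≤ L * Cm * C0 ^ 2 * lam := by positivity
  have e5 : 0 ≤ L * Cm * C0 ^ 2 * Sa := by positivity
  have e6 : 0 ≤ (16 * (t + L)) ^ 2 * lam := by positivity
  have e7 : 0 ≤ (16 * (t + L)) ^ 2 * Sa := by positivity
  have e8 : 0 ≤ t ^ 2 * lam := by positivity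
  have e9 : 0 ≤ t ^ 2 * Sa := by positivity
  have k1 : a8 * G + lam * X / 2 - Is / 2 - c ^ 2 / 2 * lam - C1 * Si - η' * S23 -
      C2 * (S13 + Sj) - (a8 * G + 1 / 4 * (lam * X) + B1) ≤ EGv := by linarith
  have k2 : L * Sj + L * (lam * Av) ≤ (t + L) * Im1 + t * Is1 + 2 * (t * (|c| * lam)) +
      2 * t * Sa + L * Cm * C0 ^ 2 * Sa - C2 * Sj := by linarith
  have k3 : (t + L) * Im1 ≤ lam * X / 16 + (16 * (t + L)) ^ 2 / 64 * lam := by linarith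
  have k4 : L * Sj + L * (lam * Av) ≤ lam * X / 16 + (16 * (t + L)) ^ 2 / 64 * lam +
      (Is + t ^ 2 / 4 * lam) + (c ^ 2 + t ^ 2) * lam +
      2 * t * Sa + L * Cm * C0 ^ 2 * Sa - C2 * Sj := by linarith
  have k5 : 3 / 2 * Is + B1 ≤ (3 / 2 * C0 + 1) * (Ce * Q) := by linarith
  have k6 : 0 ≤ (3 / 2 * C0 + 1) * B1 := by positivity
  have k7 : 0 ≤ (3 / 2 * C0 + 1) * Ce * (lam * c ^ 2) := by positivity
  have k8 : L * (Sj + lam * Av) = L * Sj + L * (lam * Av) := by ring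
  rw [k8]
  linarith

theorem ely (zm zp C0 : ℝ) (hzm : 0 < zm) {χ : E3 → ℝ} (hχ : Bump χ) :
    ∃ C1 C3 : ℝ, 0 ≤ C1 ∧ 0 ≤ C3 ∧ ∀ (η : ℝ) (_ : 0 < η) (L : ℝ) (_ : 0 ≤ L),
    ∃ C2 : ℝ, 0 ≤ C2 ∧ ∀ (n k : ℕ) (z : Fin k → ℝ) (_ : ∀ j, zm ≤ z j ∧ z j ≤ zp)
    (p : Cfg n k) (_ : Function.Injective p.1) (_ : Function.Injective p.2)
    (_ : ∀ a j, p.1 a ≠ p.2 j) (y : E3) (lam : ℝ) (_ : 0 < lam) (_ : lam ≤ 1)
    (g σ : E3 → ℝ) (_ : Ws C0 g (fun v => lam * χ (v - y) ^ 2) σ)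
    (_ : lam ≤ C0 * g y) (_ : g y ≤ C0 * lam) (c : ℝ),
    L * ((∑ j, g (p.2 j)) + lam * |av χ z c p y|) ≤ EG g z c p +
      C1 * (∑ a, g (p.1 a) * iD p (p.1 a)) +
      η * (∑ a, g (p.1 a) * ce p (p.1 a) 1 ^ (2 / 3 : ℝ)) +
      C2 * (lam + ∑ a, g (p.1 a)) +
      C3 * (lam * c ^ 2 + ∫ x in Bz σ 3, g x * Qp z c p x) := by
  obtain ⟨K, C1, hK, hC1, hel⟩ := elr zm zp C0 hzm hχ
  obtain ⟨s1, hs1, hs14, hcn⟩ := cnt_low zm zp C0 K hzm hK hχ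
  obtain ⟨Ce, hCe, hels⟩ := els zp C0 K hK hχ
  obtain ⟨Cp, hCp, hpo⟩ := poinB hχ
  obtain ⟨Cm, hCm, hcm⟩ := cmp2 zp K hK hχ
  refine ⟨C1, 3 / 2 + (3 / 2 * |C0| + 1) * Ce, hC1, by positivity, fun η hη L hL => ?_⟩
  have hpi := Real.pi_pos
  obtain ⟨η', hη', hη1, hη2, hη3, hη4⟩ : ∃ η' : ℝ, 0 < η' ∧ η' ≤ 1 ∧ η' ≤ η / 2 ∧
      η' * (Cp * C0 ^ 2) ≤ (8 * Real.pi)⁻¹ ∧ η' * (Cp * C0 ^ 2) ≤ 1 / 4 := by
    have h0 : 0 < min (8 * Real.pi)⁻¹ (1 / 4) := lt_min (by positivity) (by norm_num)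
    have h1 : 0 < Cp * C0 ^ 2 + 1 := by positivity
    have h2 : min (min 1 (η / 2)) (min (8 * Real.pi)⁻¹ (1 / 4) / (Cp * C0 ^ 2 + 1)) *
        (Cp * C0 ^ 2) ≤ min (8 * Real.pi)⁻¹ (1 / 4) := by
      calc min (min 1 (η / 2)) (min (8 * Real.pi)⁻¹ (1 / 4) / (Cp * C0 ^ 2 + 1)) *
          (Cp * C0 ^ 2) ≤ (min (8 * Real.pi)⁻¹ (1 / 4) / (Cp * C0 ^ 2 + 1)) *
            (Cp * C0 ^ 2 + 1) := by
            apply mul_le_mul (min_le_right _ _) (by linarith) (by positivity) (by positivity)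
        _ = min (8 * Real.pi)⁻¹ (1 / 4) := by field_simp
    refine ⟨min (min 1 (η / 2)) (min (8 * Real.pi)⁻¹ (1 / 4) / (Cp * C0 ^ 2 + 1)),
      lt_min (lt_min one_pos (by positivity)) (by positivity),
      (min_le_left _ _).trans (min_le_left _ _), (min_le_left _ _).trans (min_le_right _ _),
      h2.trans (min_le_left _ _), h2.trans (min_le_right _ _)⟩
  obtain ⟨s0, hs0, hs04, hel⟩ := hel η' hη'
  have hs : 0 < min s0 s1 := lt_min hs0 hs1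
  obtain ⟨C2, hC2, hel⟩ := hel (min s0 s1) hs (min_le_left _ _)
  have hcn := hcn (min s0 s1) hs (min_le_right _ _)
  have hs4 : min s0 s1 ≤ 1 / 4 := (min_le_left _ _).trans hs04
  have hels := hels (min s0 s1) hs hs4
  have hcm := hcm (min s0 s1) hs hs4
  obtain ⟨Cz, hCz, hth⟩ := third C2 (η / 2) (by positivity)
  generalize min s0 s1 = s at hs hs4 hel hcn hels hcm
  set t := 2 * (L * (1 + Cm * C0 ^ 2) + C2) / zm with ht
  have ht0 : 0 ≤ t := by positivity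
  refine ⟨2 * t + Cz + L * Cm * C0 ^ 2 + 4 * (16 * (t + L)) ^ 2 + 2 * t ^ 2, by positivity, ?_⟩
  intro n k z hz p hi1 hi2 hi3 y lam hlam hlam1 g σ hw hl1 hl2 c
  have hC0 := hw.C0_nonneg
  rw [abs_of_nonneg hC0]
  have hz0 : ∀ j, 0 ≤ z j ∧ z j ≤ zp := fun j => ⟨hzm.le.trans (hz j).1, (hz j).2⟩
  have hr : ∀ i, 0 < rd K s p i := fun i => rd_pos K s hK hs p i
  have hus : ContDiff ℝ (⊤ : ℕ∞) (ua χ K s z p) :=
    uu_smooth hχ (cg z) (ps p) (rd K s p) hr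
  have hucc : ContDiff ℝ (⊤ : ℕ∞) (fun v => ua χ K s z p v - c) := hus.sub contDiff_const
  have huc : Continuous (fun v => ua χ K s z p v - c) := hucc.continuous
  have hgc : Continuous g := hw.wt.smooth.continuous
  have hχc : Continuous χ := hχ.smooth.continuous
  have hm1 : ∫ v, lam * χ (v - y) ^ 2 = lam := by
    rw [integral_const_mul, integral_sub_right_eq_self (fun v => χ v ^ 2) y, hχ.norm, mul_one]
  have hm0 : ∀ v, 0 ≤ lam * χ (v - y) ^ 2 := hw.mn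
  have f1 := hel n k z hz p hi1 hi2 hi3 g _ σ hw c (‖y‖ + 2)
  have e1 : ∀ f : E3 → ℝ, ∫ v, lam * χ (v - y) ^ 2 * f v = lam * ∫ v, χ (v - y) ^ 2 * f v := by
    intro f
    rw [← integral_const_mul]
    simp only [mul_assoc]
  rw [hm1, e1] at f1
  have hX : 0 ≤ ∫ v, χ (v - y) ^ 2 * (ua χ K s z p v - c) ^ 2 :=
    integral_nonneg fun v => mul_nonneg (sq_nonneg _) (sq_nonneg _)
  have hnn : ∀ v, 0 ≤ g v * (ua χ K s z p v - c) ^ 2 := fun v =>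
    mul_nonneg (hw.wt.pos v).le (sq_nonneg _)
  have hsub : {v : E3 | (∃ i, ‖v - ps p i‖ < 1 / 4) ∧
      ∃ x, ‖x - v‖ < 1 ∧ (lam * χ (x - y) ^ 2 ≠ 0 ∨ σ x ≠ 0)} ⊆
      Metric.ball y 2 ∪ Bz σ 1 := by
    rintro v ⟨_, x, hx, hmx⟩
    rcases hmx with hmx | hmx
    · left
      have h1 : χ (x - y) ≠ 0 := by
        intro h0
        exact hmx (by rw [h0]; ring)
      have h2 := hχ.supp _ h1
      have h3 : ‖v - y‖ ≤ ‖v - x‖ + ‖x - y‖ := norm_sub_le_norm_sub_add_norm_sub _ _ _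
      rw [norm_sub_rev v x] at h3
      rw [mem_ball_iff_norm]
      linarith
    · right
      exact ⟨x, hx, hmx⟩
  have hbb : Bornology.IsBounded (Metric.ball y 2 ∪ Bz σ 1) :=
    Metric.isBounded_ball.union (Bz_bdd hw.sc.2 1)
  have hcu2 : Continuous (fun v => g v * (ua χ K s z p v - c) ^ 2) := hgc.mul (huc.pow 2)
  have f2 : ∫ v in {v : E3 | (∃ i, ‖v - ps p i‖ < 1 / 4) ∧
      ∃ x, ‖x - v‖ < 1 ∧ (lam * χ (x - y) ^ 2 ≠ 0 ∨ σ x ≠ 0)},
        g v * (ua χ K s z p v - c) ^ 2 ≤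
      (∫ v in Metric.ball y 2, g v * (ua χ K s z p v - c) ^ 2) +
      ∫ v in Bz σ 1, g v * (ua χ K s z p v - c) ^ 2 := by
    refine (setIntegral_mono_set (intOn' hcu2 hbb) (Filter.Eventually.of_forall hnn)
      (LE.le.eventuallyLE hsub)).trans ?_
    exact union_le hcu2 hnn Metric.isBounded_ball (Bz_bdd hw.sc.2 1) measurableSet_ball
      (Bz_open σ 1).measurableSet
  have f3 := ball_part hCp hC0 hw.wt hucc hl2 (hpo _ hucc y) hX
  simp only [gr_sub_c] at f3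
  have hcgr : Continuous (fun v => g v * gr (ua χ K s z p) v) := hgc.mul (gr_cts' hus)
  have hgr0 : ∀ v, 0 ≤ g v * gr (ua χ K s z p) v := fun v =>
    mul_nonneg (hw.wt.pos v).le (gr_nn' _ v)
  have f31 : ∫ v in Metric.ball y 2, g v * gr (ua χ K s z p) v ≤
      ∫ v in Metric.ball 0 (‖y‖ + 2), g v * gr (ua χ K s z p) v := by
    refine setIntegral_mono_set (intOn' hcgr Metric.isBounded_ball)
      (Filter.Eventually.of_forall hgr0) (LE.le.eventuallyLE ?_)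
    intro v hv
    rw [mem_ball_iff_norm] at hv ⊢
    have h3 : ‖v - 0‖ ≤ ‖v - y‖ + ‖y - 0‖ := norm_sub_le_norm_sub_add_norm_sub _ _ _
    rw [sub_zero y] at h3
    linarith
  have f4 : ∫ v, σ v * (ua χ K s z p v - c) ^ 2 ≤
      C0 * ∫ v in Bz σ 1, g v * (ua χ K s z p v - c) ^ 2 :=
    sig_int hw (huc.pow 2) (fun v => sq_nonneg _)
  have f5 := hels n k z hz0 p hi1 hi2 g hw.wt σ hw.sc.2 c
  have f6 := hcn n k z hz p g _ σ hw
  have f61 := sig_c hw.mc hw.mn hus.continuous c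
  have f62 := sig_c hw.sc hw.sn hus.continuous c
  rw [hm1] at f61
  have f63 : |(∫ v, (lam * χ (v - y) ^ 2) * ua χ K s z p v) - ∫ v, σ v * ua χ K s z p v| ≤
      (∫ v, (lam * χ (v - y) ^ 2) * |ua χ K s z p v - c|) + |c| * lam +
      ((∫ v, σ v * |ua χ K s z p v - c|) + |c| * ∫ v, σ v) := by
    have h1 := abs_sub (∫ v, (lam * χ (v - y) ^ 2) * ua χ K s z p v)
      (∫ v, σ v * ua χ K s z p v)
    linarith
  have f7 := sig_abs hw.sc hw.sn huc t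
  have f71 := sig_abs hw.mc hw.mn huc (16 * (t + L))
  rw [hm1, e1 (fun v => (ua χ K s z p v - c) ^ 2)] at f71
  have f8 := hth n k p g hw.wt.pos
  have hMσ : 0 ≤ ∫ v, σ v := integral_nonneg hw.sn
  have hMl : ∫ v, σ v ≤ lam := by
    have := hw.mass
    rwa [hm1] at this
  have f9 : lam * |av χ z c p y| ≤ (∫ v, (lam * χ (v - y) ^ 2) * |ua χ K s z p v - c|) +
      Cm * (lam * ce p y 1 + lam * cn p y 1) := by
    have h1 := hcm n k z hz0 p y c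
    have h2 : |av χ z c p y| ≤ |∫ v, χ (v - y) ^ 2 * (ua χ K s z p v - c)| +
        Cm * s ^ 2 * (ce p y 1 + cn p y 1) := by
      have h3 : |av χ z c p y| ≤ |av χ z c p y - ∫ v, χ (v - y) ^ 2 * (ua χ K s z p v - c)| +
          |∫ v, χ (v - y) ^ 2 * (ua χ K s z p v - c)| := by
        calc |av χ z c p y| = |(av χ z c p y - ∫ v, χ (v - y) ^ 2 * (ua χ K s z p v - c)) +
            ∫ v, χ (v - y) ^ 2 * (ua χ K s z p v - c)| := by rw [sub_add_cancel]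
          _ ≤ _ := abs_add_le _ _
      linarith
    have h4 : Cm * s ^ 2 * (ce p y 1 + cn p y 1) ≤ Cm * (ce p y 1 + cn p y 1) := by
      have h5 : s ^ 2 ≤ 1 := pow_le_one₀ hs.le (hs4.trans (by norm_num))
      have h6 : 0 ≤ ce p y 1 + cn p y 1 := add_nonneg (ce_nonneg p y 1) (cn_nonneg p y 1)
      apply mul_le_mul_of_nonneg_right _ h6
      exact mul_le_of_le_one_right hCm h5
    have h5 : lam * |∫ v, χ (v - y) ^ 2 * (ua χ K s z p v - c)| ≤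
        ∫ v, (lam * χ (v - y) ^ 2) * |ua χ K s z p v - c| := by
      have e2 : lam * |∫ v, χ (v - y) ^ 2 * (ua χ K s z p v - c)| =
          |∫ v, lam * χ (v - y) ^ 2 * (ua χ K s z p v - c)| := by
        rw [e1, abs_mul, abs_of_pos hlam]
      rw [e2]
      refine (abs_integral_le_integral_abs).trans (le_of_eq ?_)
      congr 1
      funext v
      rw [abs_mul, abs_of_nonneg (hm0 v)]
    have h6 := mul_le_mul_of_nonneg_left (h2.trans (add_le_add_right h4 _)) hlam.le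
    linarith
  have f91 : lam * ce p y 1 ≤ C0 ^ 2 * ∑ a, g (p.1 a) := near_cnt hC0 hw.wt hl1 p.1
  have f92 : lam * cn p y 1 ≤ C0 ^ 2 * ∑ j, g (p.2 j) := near_cnt hC0 hw.wt hl1 p.2
  refine num (Im1 := ∫ v, (lam * χ (v - y) ^ 2) * |ua χ K s z p v - c|) ?_ f2 f3 f31 hη3 hη4 f4 f5 f6
    f63 f7 f71 f8 f9 f91 f92 hCm hη1 hη2 ht0 hL ?_ ?_ hX (integral_nonneg hnn) hCp hCe hη'.le
    ?_ (integral_nonneg hgr0) ?_ hMσ hMl hlam.le hC0 hCz
  · linarith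
  · rw [ht]; field_simp
  · exact Finset.sum_nonneg fun a _ => (hw.wt.pos _).le
  · exact integral_nonneg fun v => mul_nonneg (hw.wt.pos v).le (Qp_nonneg z c p v)
  · exact Finset.sum_nonneg fun a _ => mul_nonneg (hw.wt.pos _).le
      (Real.rpow_nonneg (ce_nonneg p _ _) _)

end H6.CX
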