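import Pool.Agent.H6.CX.GwS
import Pool.Agent.H6.CX.ELy
import Pool.Agent.H6.CX.LtW
import Pool.Agent.H6.CX.KsW
import Pool.Agent.H6.CX.QpI
import Pool.Agent.H6.CM.UBd
import Pool.Agent.H6.CX.QC

/-! The weighted inequality at a point `y`. Let `lam = (max 1 CU)⁻¹` with `CU` a bound of `U χ` (`U_bd`), `g = lam * gw χ ζ y`, `σ = lam * sw χ ζ y`, `J = sqrt ∘ g` (smooth because `g > 0`; `g ≤ lam * U χ ≤ 1` by `gw_le`); `C0` is the maximum of the constant of `gw_ws`, of `1 / c` from `gw_near` and of `CU` (`Ws.mono`), so `lam ≤ C0 g y`, `g y ≤ C0 lam`. With `c4 = (3 / 8) min 1 κm`: `ksw` (`J`, `R` large) and the mean of `ely` (`mono_gen`, `c = pr χ W z p`; `IM_EG`, `IM_av`, `IM_pr`, `tstw`, `ltw`, `IM_ge`, `qp_fub`): `c4 TG + L' (NN + lam * av) ≤ C1 S + η P + C2 (lam + NE) + C3 (lam * pr2 + ∫ x in Bz σ 3, g * mM Qp) + C (NE + NN + ∫ v in Λ, g + (n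 + k + ∫ v in Λ, g) δ)`, where `TG = ∑ TGs`, `NE = mM (∑ g (x a))`, `NN = mM (∑ g (R j))`, `S = mM (∑ g D)`, `P = mM (∑ g ce ^ (2/3))`. `C1 S ≤ (c4 / 8) TG + C6 (NE + NN)` (`tstw` with `K = 8 C1 / c4`, divided), `η P ≤ (c4 / 8) TG + (c4 / 8) NE` (`ltw`, choice of `η`), `(all constants) NE ≤ (c4 / 8) TG + C ∫ v in Nb ζ D, g` (`lcw` with `N = Nb ζ D`, `Nb_ms`; `∑ mass = 1`), `∫ v in Nb ζ D, g ≤ C lam ∫ sw ≤ C` (`gw_Nb`, `sw_mass`), `Bz σ 3 ⊆ Bz ζ 3 ⊆ Nb ζ D` and `mM Qp ≤ X` there, `∫ v in Λ, g ≤ ∫ v in Nb ζ D, g`, `(n + k) δ ≤ 1`; `L' = L'' + C + C6`. Result: `(c4 / 2) TG + L'' (NN + lam * av) ≤ C3' (X + pr2) + C5`. Finally `te_w`, `w_c1` (`g y ≥ lam / C0`), `lt53` with `s = 1` (`TE ψ y 2`, `ce p y 2`), and `L'' = L * C0 / lam`. -/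

open MeasureTheory Finset

namespace H6.CX

open H6.CM H6.CB H6.CL H6.CT

private theorem qy_num {A1 A2 TG NN AV c4 C3 K5 RHS PR QI X IN lam CD L2 La nd C2n : ℝ}
    (h : c4 * TG + L2 * NN + (L2 + La) * (lam * AV) ≤
      C3 * (lam * PR + QI) + K5 * (lam + IN + nd))
    (hc4 : 0 < c4) (hQ : QI ≤ X * IN) (hIN : IN ≤ CD) (hnd : nd ≤ 1) (hl1 : lam ≤ 1)
    (hPR : 0 ≤ PR) (hX : 0 ≤ X) (hCD : 0 ≤ CD) (hC3 : 0 ≤ C3) (hK5 : 0 ≤ K5) (hA1 : 0 ≤ A1)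
    (hA2 : 0 ≤ A2) (hTG : 0 ≤ TG) (hNN : 0 ≤ NN) (hAV : 0 ≤ AV) (hl : 0 < lam) (hLa : 0 ≤ La)
    (hL2 : 0 ≤ L2) (hR : RHS ≤ A1 * TG + A2 * IN + (L2 * NN + L2 * (lam * AV))) :
    RHS ≤ (A1 / c4 + 1) * (C3 * (1 + CD)) * (X + PR) +
      ((A1 / c4 + 1) * (K5 * (2 + CD)) + A2 * CD) := by
  have h1 : C3 * (lam * PR + QI) + K5 * (lam + IN + nd) ≤
      C3 * (1 + CD) * (X + PR) + K5 * (2 + CD) := by
    have e1 : lam * PR + QI ≤ (1 + CD) * (X + PR) := by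
      have g1 : lam * PR ≤ PR := mul_le_of_le_one_left hPR hl1
      have g2 : X * IN ≤ X * CD := mul_le_mul_of_nonneg_left hIN hX
      have g3 : 0 ≤ CD * PR := mul_nonneg hCD hPR
      linarith only [g1, g2, g3, hQ, hX]
    have e2 : lam + IN + nd ≤ 2 + CD := by linarith
    have g3 := mul_le_mul_of_nonneg_left e1 hC3
    have g4 := mul_le_mul_of_nonneg_left e2 hK5
    linarith
  obtain ⟨Z, hZ⟩ : ∃ Z, Z = C3 * (1 + CD) * (X + PR) + K5 * (2 + CD) := ⟨_, rfl⟩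
  rw [← hZ] at h1
  have h2 : 0 ≤ La * (lam * AV) := by positivity
  have h3 : 0 ≤ L2 * NN + L2 * (lam * AV) := by positivity
  have h4 : c4 * TG + (L2 * NN + L2 * (lam * AV)) ≤ Z := by
    have e : (L2 + La) * (lam * AV) = L2 * (lam * AV) + La * (lam * AV) := by ring
    linarith
  have h5 : TG ≤ Z / c4 := by
    rw [le_div_iff₀ hc4]
    linarith
  have h6 : A1 * TG ≤ A1 / c4 * Z := by
    have := mul_le_mul_of_nonneg_left h5 hA1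
    calc A1 * TG ≤ A1 * (Z / c4) := this
      _ = A1 / c4 * Z := by ring
  have h7 : L2 * NN + L2 * (lam * AV) ≤ Z := by
    have : 0 ≤ c4 * TG := by positivity
    linarith
  have h8 : A2 * IN ≤ A2 * CD := mul_le_mul_of_nonneg_left hIN hA2
  have h9 : RHS ≤ (A1 / c4 + 1) * Z + A2 * CD := by
    have e : (A1 / c4 + 1) * Z = A1 / c4 * Z + Z := by ring
    linarith
  refine h9.trans (le_of_eq ?_)
  rw [hZ]
  ring

theorem qy (q : ℕ) (T zm zp κm κp A Kv Cz D : ℝ) (hT : 0 ≤ T) (hzm : 0 < zm) (hκm : 0 < κm)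
    (hA : 0 ≤ A) (hKv : 0 ≤ Kv) {χ : E3 → ℝ} (hχ : Bump χ) :
    ∃ C3 : ℝ, 0 ≤ C3 ∧ ∀ (L : ℝ) (_ : 0 ≤ L), ∃ C5 : ℝ, 0 ≤ C5 ∧
    ∀ (ι : Type) (_ : Fintype ι) (n k : ℕ) (Λ : Set E3) (z κ : Fin k → ℝ) (W : Finset E3)
    (δ : ℝ) (Ψ : ι → (Fin n → Fin q) → Cfg n k → ℂ)
    (_ : Gt q T zm zp κm κp A Kv n k Λ z κ W δ Ψ) (_ : δ ≤ (((n : ℝ) + k + 1) ^ 4)⁻¹)
    (ζ : E3 → ℝ) (_ : Kil Cz ζ) (_ : ∀ x ∈ Λ, ∀ v, ‖x - v‖ < 2 → v ∈ Nb ζ D)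
    (_ : Bz ζ 3 ⊆ Nb ζ D) (X : ℝ) (_ : 0 ≤ X)
    (_ : ∀ x ∈ Bz ζ 3, mM Ψ (fun p => Qp z (pr χ W z p) p x) ≤ X) (y : E3),
    TM Ψ y 1 + mM Ψ (fun p => ce p y 1 ^ (5 / 3 : ℝ)) +
      L * (mM Ψ (fun p => cn p y 1) + mM Ψ (fun p => |av χ z (pr χ W z p) p y|)) ≤
    C3 * (X + mM Ψ (fun p => pr χ W z p ^ 2)) + C5 := by
  obtain ⟨CU, hCU, hU⟩ := U_bd hχ
  obtain ⟨Cw, hCw, hw⟩ := gw_ws hχ Cz
  obtain ⟨c, hc, hnear⟩ := gw_near hχ Cz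
  obtain ⟨lam, hlamd⟩ : ∃ lam : ℝ, lam = (max 1 CU)⁻¹ := ⟨_, rfl⟩
  have hm1 : (1 : ℝ) ≤ max 1 CU := le_max_left _ _
  have hlam : 0 < lam := by
    rw [hlamd]
    positivity
  have hlam1 : lam ≤ 1 := by
    rw [hlamd]
    exact inv_le_one_of_one_le₀ hm1
  have hlamU : lam * CU ≤ 1 := by
    rw [hlamd, inv_mul_le_iff₀ (by positivity), mul_one]
    exact le_max_right _ _
  obtain ⟨C0, hC0d⟩ : ∃ C0 : ℝ, C0 = max (max Cw 1) (max (1 / c) CU) := ⟨_, rfl⟩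
  have hC0w : Cw ≤ C0 := by rw [hC0d]; exact (le_max_left _ _).trans (le_max_left _ _)
  have hC01 : 1 ≤ C0 := by rw [hC0d]; exact (le_max_right _ _).trans (le_max_left _ _)
  have hC0c : 1 / c ≤ C0 := by rw [hC0d]; exact (le_max_left _ _).trans (le_max_right _ _)
  have hC0U : CU ≤ C0 := by rw [hC0d]; exact (le_max_right _ _).trans (le_max_right _ _)
  have hC00 : 0 < C0 := by linarith
  obtain ⟨C1, C3, hC1, hC3, hely⟩ := ely zm zp C0 hzm hχ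
  obtain ⟨η, La, hη, hLa, hcore⟩ := qcore q T zm zp κm κp A Kv C0 C1 hT hzm hκm hA hKv hχ hC1
  obtain ⟨CD, hCD, hNb⟩ := gw_Nb hχ Cz D
  obtain ⟨Cl, hCl, hlt⟩ := lt53 q
  obtain ⟨Cn, hCn, hn⟩ := lcw q C0 1 one_pos
  obtain ⟨c4, hc4d⟩ : ∃ c4 : ℝ, c4 = 3 / 16 * min 1 κm := ⟨_, rfl⟩
  have hc4 : 0 < c4 := by
    rw [hc4d]
    have : 0 < min 1 κm := lt_min one_pos hκm
    positivity
  obtain ⟨Q0, hQ0⟩ : ∃ Q0 : ℝ, Q0 = C0 ^ 2 / lam := ⟨_, rfl⟩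
  have hQ00 : 0 < Q0 := by rw [hQ0]; positivity
  have hQl : Q0 * lam = C0 ^ 2 := by
    rw [hQ0]
    field_simp
  obtain ⟨A1, hA1⟩ : ∃ A1 : ℝ, A1 = Q0 * (1 + 2 * Cl) := ⟨_, rfl⟩
  obtain ⟨A2, hA2⟩ : ∃ A2 : ℝ, A2 = Q0 * Cl * Cn := ⟨_, rfl⟩
  have hA10 : 0 ≤ A1 := by rw [hA1]; positivity
  have hA20 : 0 ≤ A2 := by rw [hA2]; positivity
  refine ⟨(A1 / c4 + 1) * (C3 * (1 + CD)), by positivity, fun L hL => ?_⟩
  obtain ⟨L2, hL2⟩ : ∃ L2 : ℝ, L2 = L * Q0 := ⟨_, rfl⟩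
  have hL20 : 0 ≤ L2 := by rw [hL2]; positivity
  obtain ⟨C2, hC2, hel⟩ := hely η hη (L2 + La) (by positivity)
  obtain ⟨K5, hK5, hcore⟩ := hcore C2 hC2
  refine ⟨(A1 / c4 + 1) * (K5 * (2 + CD)) + A2 * CD, by positivity, ?_⟩
  intro ι _ n k Λ z κ W δ Ψ hG hδ ζ hζ hΛN hBz X hX hQX y
  have hst := hG.eq.st
  have hsm : ∀ i, Sm q n k Λ (Ψ i) := fun i => St_sm (hst i)
  have hone := hG.eq.one
  obtain ⟨g, hgd⟩ : ∃ g : E3 → ℝ, g = fun v => lam * gw χ ζ y v := ⟨_, rfl⟩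
  obtain ⟨σ, hσd⟩ : ∃ σ : E3 → ℝ, σ = fun v => lam * sw χ ζ y v := ⟨_, rfl⟩
  have hWs : Ws C0 g (fun v => lam * χ (v - y) ^ 2) σ := by
    rw [hgd, hσd]
    exact (hw ζ hζ y lam hlam).mono hC0w
  have hg := hWs.wt
  have hg0 : ∀ v, 0 ≤ g v := fun v => (hg.pos v).le
  have hgc : Continuous g := hg.smooth.continuous
  have hgy1 : lam ≤ C0 * g y := by
    have h1 := hnear ζ hζ y y (by simp)
    have h2 : lam * c ≤ g y := by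
      rw [hgd]
      exact mul_le_mul_of_nonneg_left h1 hlam.le
    calc lam = 1 / c * (lam * c) := by field_simp
      _ ≤ C0 * (lam * c) := mul_le_mul_of_nonneg_right hC0c (by positivity)
      _ ≤ C0 * g y := mul_le_mul_of_nonneg_left h2 hC00.le
  have hgle : ∀ v, g v ≤ lam * CU := fun v => by
    rw [hgd]
    exact mul_le_mul_of_nonneg_left ((gw_le hχ hζ y v).trans (hU _)) hlam.le
  have hgy2 : g y ≤ C0 * lam := (hgle y).trans (by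
    rw [mul_comm]
    exact mul_le_mul_of_nonneg_right hC0U hlam.le)
  -- the square root of the weight
  have hJs : ContDiff ℝ (⊤ : ℕ∞) (fun v => Real.sqrt (g v)) :=
    hg.smooth.sqrt fun v => (hg.pos v).ne'
  have hJ1 : ∀ v, 0 ≤ Real.sqrt (g v) ∧ Real.sqrt (g v) ≤ 1 := fun v =>
    ⟨Real.sqrt_nonneg _, Real.sqrt_le_one.mpr ((hgle v).trans hlamU)⟩
  obtain ⟨R, hR⟩ := hG.hb.subset_ball 0
  obtain ⟨hNm, hNb'⟩ := Nb_ms hζ D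
  -- the set `Bz σ 3`
  have hBσ : Bz σ 3 ⊆ Bz ζ 3 := by
    rintro v ⟨x, h1, h2⟩
    refine ⟨x, h1, fun h3 => h2 ?_⟩
    rw [hσd]
    simp only [sw, h3, zero_mul, mul_zero]
  have hSm : MeasurableSet (Bz σ 3) := (Bz_open σ 3).measurableSet
  have hSN : Bz σ 3 ⊆ Nb ζ D := hBσ.trans hBz
  have hSb : Bornology.IsBounded (Bz σ 3) := hNb'.subset hSN
  -- integrability
  have iNN : ∀ i, IM (Ψ i) (fun p => ∑ j, g (p.2 j)) := fun i => (IM_ge hg (hsm i)).2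
  have iNE : ∀ i, IM (Ψ i) (fun p => ∑ a, g (p.1 a)) := fun i => (IM_ge hg (hsm i)).1
  have iAV : ∀ i, IM (Ψ i) (fun p => |av χ z (pr χ W z p) p y|) := fun i =>
    IM_av hχ (hsm i) z W y
  have iEG : ∀ i, IM (Ψ i) (fun p => EG g z (pr χ W z p) p) := fun i =>
    IM_EG hχ (hsm i) z W hgc
  have iPR : ∀ i, IM (Ψ i) (fun p => pr χ W z p ^ 2) := fun i => IM_pr hχ (hsm i) z W
  obtain ⟨Ctt, -, htt⟩ := tstw q C0 0 (le_refl 0)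
  obtain ⟨Cll, -, hll⟩ := ltw q C0
  have iS : ∀ i, IM (Ψ i) (fun p => ∑ a, g (p.1 a) * iD p (p.1 a)) := fun i =>
    (htt n k Λ (Ψ i) (hst i) g hg).1
  have iP : ∀ i, IM (Ψ i) (fun p => ∑ a, g (p.1 a) * ce p (p.1 a) 1 ^ (2 / 3 : ℝ)) := fun i =>
    (hll n k Λ (Ψ i) (hst i) g hg).1
  have iQ : ∀ i, IM (Ψ i) (fun p => ∫ x in Bz σ 3, g x * Qp z (pr χ W z p) p x) := fun i =>
    (qp_fub hχ (hsm i) z W hgc hg0 hSm hSb).1
  have i1 : ∀ i, IM (Ψ i) (fun _ => lam) := fun i => IM.cont (hsm i) continuous_const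
  -- the electrostatic inequality
  have hE : (L2 + La) * mM Ψ (fun p => ∑ j, g (p.2 j)) +
      (L2 + La) * (lam * mM Ψ (fun p => |av χ z (pr χ W z p) p y|)) ≤
      mM Ψ (fun p => EG g z (pr χ W z p) p) +
      C1 * mM Ψ (fun p => ∑ a, g (p.1 a) * iD p (p.1 a)) +
      η * mM Ψ (fun p => ∑ a, g (p.1 a) * ce p (p.1 a) 1 ^ (2 / 3 : ℝ)) +
      C2 * (lam + mM Ψ (fun p => ∑ a, g (p.1 a))) +
      C3 * (lam * mM Ψ (fun p => pr χ W z p ^ 2) +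
        mM Ψ (fun p => ∫ x in Bz σ 3, g x * Qp z (pr χ W z p) p x)) := by
    have jl : ∀ i, IM (Ψ i) (fun p => (∑ j, g (p.2 j)) + lam * |av χ z (pr χ W z p) p y|) :=
      fun i => (iNN i).add ((iAV i).cmul lam)
    have j1 : ∀ i, IM (Ψ i) (fun p => EG g z (pr χ W z p) p +
        C1 * (∑ a, g (p.1 a) * iD p (p.1 a))) := fun i => (iEG i).add ((iS i).cmul C1)
    have j2 : ∀ i, IM (Ψ i) (fun p => EG g z (pr χ W z p) p +
        C1 * (∑ a, g (p.1 a) * iD p (p.1 a)) +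
        η * (∑ a, g (p.1 a) * ce p (p.1 a) 1 ^ (2 / 3 : ℝ))) := fun i =>
      (j1 i).add ((iP i).cmul η)
    have j3 : ∀ i, IM (Ψ i) (fun p => lam + ∑ a, g (p.1 a)) := fun i => (i1 i).add (iNE i)
    have j4 : ∀ i, IM (Ψ i) (fun p => EG g z (pr χ W z p) p +
        C1 * (∑ a, g (p.1 a) * iD p (p.1 a)) +
        η * (∑ a, g (p.1 a) * ce p (p.1 a) 1 ^ (2 / 3 : ℝ)) +
        C2 * (lam + ∑ a, g (p.1 a))) := fun i => (j2 i).add ((j3 i).cmul C2)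
    have j5 : ∀ i, IM (Ψ i) (fun p => lam * pr χ W z p ^ 2 +
        ∫ x in Bz σ 3, g x * Qp z (pr χ W z p) p x) := fun i => ((iPR i).cmul lam).add (iQ i)
    have h1 := mMgen (Ψ := Ψ) (fun i => (jl i).cmul (L2 + La)) (fun i => (j4 i).add ((j5 i).cmul C3))
      (fun i σ' p _ h1 h2 h3 => hel n k z hG.hz p h1 h2 h3 y lam hlam hlam1 g σ hWs hgy1 hgy2
        (pr χ W z p))
    rw [mMcmul, mMadd iNN (fun i => (iAV i).cmul lam), mMcmul, mMadd j4 (fun i => (j5 i).cmul C3),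
      mMadd j2 (fun i => (j3 i).cmul C2), mMadd j1 (fun i => (iP i).cmul η),
      mMadd iEG (fun i => (iS i).cmul C1), mMcmul, mMcmul, mMcmul, mMcmul, mMadd i1 iNE,
      mMconst hone, mMadd (fun i => (iPR i).cmul lam) iQ, mMcmul] at h1
    linarith
  have hC := hcore ι inferInstance n k Λ z κ W δ Ψ hG hδ g hg _ hJs hJ1 R hR
    (fun v _ => Real.sq_sqrt (hg0 v)) (Nb ζ D) hNm hNb' hΛN L2 _ _ lam hlam.le hE
  rw [← hc4d] at hC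
  have hQI := qc_qp (Ψ := Ψ) hχ hsm z W hgc hg0 hSm hNb' hSN hX (fun x hx => hQX x (hBσ hx))
  have hIN : ∫ v in Nb ζ D, g v ≤ CD := by
    have h1 : ∫ v in Nb ζ D, g v = lam * ∫ v in Nb ζ D, gw χ ζ y v := by
      rw [hgd, integral_const_mul]
    have h2 := hNb ζ hζ y
    have h3 := (sw_mass hχ Cz hζ y)
    have h4 : ∫ x in Nb ζ D, gw χ ζ y x ≤ CD := h2.trans (by
      have := mul_le_mul_of_nonneg_left h3.2.1 hCD
      linarith)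
    have h5 : 0 ≤ ∫ v in Nb ζ D, g v := integral_nonneg hg0
    rw [h1] at h5 ⊢
    have h6 : 0 ≤ ∫ v in Nb ζ D, gw χ ζ y v := (mul_nonneg_iff_of_pos_left hlam).1 h5
    exact (mul_le_of_le_one_left h6 hlam1).trans h4
  obtain ⟨hnp, hδ1⟩ := qc_np hG.hδ hδ
  have hTG : 0 ≤ ∑ i, TGs g (Ψ i) := sum_nonneg fun i _ => TGs_nonneg hg _
  -- kinetic energy
  have hTM : ∀ R' : ℝ, R' ≤ 8 → TM Ψ y R' ≤ Q0 * ∑ i, TGs g (Ψ i) := by
    intro R' hR'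
    unfold TM
    rw [mul_sum]
    refine sum_le_sum fun i _ => ?_
    have h1 := te_w hg (hsm i) y R' hR'
    have h2 : 0 ≤ TE (Ψ i) y R' + TN (Ψ i) y R' := add_nonneg (TE_nonneg _ _ _) (TN_nonneg _ _ _)
    have h3 : lam * (TE (Ψ i) y R' + TN (Ψ i) y R') ≤ C0 ^ 2 * TGs g (Ψ i) := by
      calc lam * (TE (Ψ i) y R' + TN (Ψ i) y R')
          ≤ C0 * g y * (TE (Ψ i) y R' + TN (Ψ i) y R') := mul_le_mul_of_nonneg_right hgy1 h2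
        _ = C0 * (g y * (TE (Ψ i) y R' + TN (Ψ i) y R')) := by ring
        _ ≤ C0 * (C0 * TGs g (Ψ i)) := mul_le_mul_of_nonneg_left h1 hC00.le
        _ = _ := by ring
    rw [hQ0, div_mul_eq_mul_div, le_div_iff₀ hlam]
    linarith
  have hcnt : ∀ (F : Cfg n k → ℝ) (G : Cfg n k → ℝ), (∀ i, IM (Ψ i) F) → (∀ i, IM (Ψ i) G) →
      (∀ p, 0 ≤ F p) → (∀ p, g y * F p ≤ C0 * G p) → mM Ψ F ≤ Q0 * mM Ψ G := by
    intro F G hF hG' hF0 hFG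
    rw [← mMcmul]
    refine mMmono hF (fun i => (hG' i).cmul Q0) fun p => ?_
    have h3 : lam * F p ≤ C0 ^ 2 * G p := by
      calc lam * F p ≤ C0 * g y * F p := mul_le_mul_of_nonneg_right hgy1 (hF0 p)
        _ = C0 * (g y * F p) := by ring
        _ ≤ C0 * (C0 * G p) := mul_le_mul_of_nonneg_left (hFG p) hC00.le
        _ = _ := by ring
    rw [hQ0, div_mul_eq_mul_div, le_div_iff₀ hlam]
    linarith
  have hcn : mM Ψ (fun p => cn p y 1) ≤ Q0 * mM Ψ (fun p => ∑ j, g (p.2 j)) :=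
    hcnt _ _ (fun i => IM_cn (hsm i) y 1) iNN (fun p => cn_nonneg p y 1)
      (fun p => (w_c1 hg p y 1 (by norm_num)).2)
  have hce : mM Ψ (fun p => ce p y 2) ≤ Q0 * mM Ψ (fun p => ∑ a, g (p.1 a)) :=
    hcnt _ _ (fun i => IM_ce (hsm i) y 2) iNE (fun p => ce_nonneg p y 2)
      (fun p => (w_c1 hg p y 2 (by norm_num)).1)
  have h53 : mM Ψ (fun p => ce p y 1 ^ (5 / 3 : ℝ)) ≤
      Cl * (TM Ψ y 2 + mM Ψ (fun p => ce p y 2)) := by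
    unfold mM TM
    rw [← sum_add_distrib, mul_sum]
    refine sum_le_sum fun i _ => ?_
    have h1 := hlt n k Λ (Ψ i) (hst i) y 1 one_pos
    rw [one_pow, one_mul, mul_one] at h1
    refine h1.trans (mul_le_mul_of_nonneg_left ?_ hCl)
    have := TN_nonneg (Ψ i) y 2
    linarith
  have hNE : mM Ψ (fun p => ∑ a, g (p.1 a)) ≤ (∑ i, TGs g (Ψ i)) + Cn * ∫ v in Nb ζ D, g v := by
    have h3 : mM Ψ (fun p => ∑ a, g (p.1 a)) ≤ ∑ i, (1 * TGs g (Ψ i) +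
        Cn * (∫ v in Nb ζ D, g v) * mass (Ψ i)) := by
      unfold mM
      exact sum_le_sum fun i _ => hn n k Λ (Ψ i) (hst i) g hg (Nb ζ D) hNm hNb' hΛN
    rw [sum_add_distrib, ← mul_sum, ← mul_sum, hone, mul_one, one_mul] at h3
    exact h3
  have hNN0 : 0 ≤ mM Ψ (fun p => ∑ j, g (p.2 j)) := mMnn fun p => sum_nonneg fun j _ => hg0 _
  have hAV0 : 0 ≤ mM Ψ (fun p => |av χ z (pr χ W z p) p y|) := mMnn fun p => abs_nonneg _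
  have hPR0 : 0 ≤ mM Ψ (fun p => pr χ W z p ^ 2) := mMnn fun p => sq_nonneg _
  have hL2' : L2 * lam = L * C0 ^ 2 := by
    rw [hL2, mul_assoc, hQl]
  have hC02 : 1 ≤ C0 ^ 2 := one_le_pow₀ hC01
  refine qy_num (TG := ∑ i, TGs g (Ψ i)) (NN := mM Ψ (fun p => ∑ j, g (p.2 j)))
    (AV := mM Ψ (fun p => |av χ z (pr χ W z p) p y|)) (c4 := c4) (lam := lam) (CD := CD)
    (L2 := L2) (La := La) (nd := ((n : ℝ) + k) * δ) (IN := ∫ v in Nb ζ D, g v) (C2n := 0) hC hc4 hQI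
    hIN hnp hlam1 hPR0 hX hCD hC3 hK5 hA10 hA20 hTG hNN0 hAV0 hlam hLa hL20 ?_
  have e1 := hTM 1 (by norm_num)
  have e2 := hTM 2 (by norm_num)
  have e3 : mM Ψ (fun p => ce p y 1 ^ (5 / 3 : ℝ)) ≤ Cl * (Q0 * (∑ i, TGs g (Ψ i)) +
      Q0 * ((∑ i, TGs g (Ψ i)) + Cn * ∫ v in Nb ζ D, g v)) := by
    refine h53.trans (mul_le_mul_of_nonneg_left (add_le_add e2 (hce.trans ?_)) hCl)
    exact mul_le_mul_of_nonneg_left hNE hQ00.le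
  have e4 : L * mM Ψ (fun p => cn p y 1) ≤ L2 * mM Ψ (fun p => ∑ j, g (p.2 j)) := by
    have := mul_le_mul_of_nonneg_left hcn hL
    rw [hL2]
    linarith
  have e5 : L * mM Ψ (fun p => |av χ z (pr χ W z p) p y|) ≤
      L2 * (lam * mM Ψ (fun p => |av χ z (pr χ W z p) p y|)) := by
    rw [← mul_assoc, hL2']
    refine mul_le_mul_of_nonneg_right ?_ hAV0
    exact le_mul_of_one_le_right hL hC02
  rw [hA1, hA2]
  linarith only [e1, e3, e4, e5]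

end H6.CX
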