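import Pool.Agent.H6.CX.XB
import Pool.Agent.H6.CX.Qy
import Pool.Agent.H6.CX.Qf
import Pool.Agent.H6.CT.InstT
import Pool.Agent.H6.CM.BumpEx

/-! The closing argument. -/

open MeasureTheory Finset

namespace H6.CX

open H6.CM H6.CB H6.CL H6.CT

private theorem clo_iter {α : Type} (F : α → ℝ) (b : ℝ) (hb : 0 ≤ b) (K0 : ℝ) (hK0 : 0 ≤ K0)
    (h0 : ∀ v, F v ≤ K0)
    (h : ∀ K : ℝ, 0 ≤ K → (∀ v, F v ≤ K) → ∀ v, F v ≤ K / 4 + b) (v : α) : F v ≤ 2 * b := by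
  have h1 : ∀ m : ℕ, ∀ v, F v ≤ K0 / 4 ^ m + 2 * b := by
    intro m
    induction m with
    | zero => intro v; simpa using (h0 v).trans (by linarith)
    | succ m ih =>
      intro v
      refine (h _ (by positivity) ih v).trans ?_
      rw [pow_succ]
      have : (K0 / 4 ^ m + 2 * b) / 4 + b = K0 / (4 ^ m * 4) + (3 / 2) * b := by
        field_simp; ring
      rw [this]; linarith
  have h2 : Filter.Tendsto (fun m : ℕ => K0 / 4 ^ m + 2 * b) Filter.atTop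
      (nhds (0 + 2 * b)) := by
    refine Filter.Tendsto.add_const _ ?_
    have h3 := (tendsto_pow_atTop_nhds_zero_of_lt_one (r := (1 / 4 : ℝ)) (by norm_num)
      (by norm_num)).const_mul K0
    simpa [div_eq_mul_inv] using h3
  rw [zero_add] at h2
  exact ge_of_tendsto' h2 fun m => h1 m v

private theorem clo_young (η : ℝ) (hη : 0 < η) : ∃ C : ℝ, 0 ≤ C ∧ ∀ u : ℝ, 0 ≤ u →
    u ≤ η * u ^ (5 / 3 : ℝ) + C := by
  refine ⟨(η⁻¹) ^ (3 / 2 : ℝ), by positivity, fun u hu => ?_⟩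
  rcases le_or_gt u ((η⁻¹) ^ (3 / 2 : ℝ)) with h | h
  · have : 0 ≤ η * u ^ (5 / 3 : ℝ) := by positivity
    linarith
  · have hu0 : 0 < u := lt_of_le_of_lt (by positivity) h
    have h1 : η⁻¹ ≤ u ^ (2 / 3 : ℝ) := by
      calc η⁻¹ = ((η⁻¹) ^ (3 / 2 : ℝ)) ^ (2 / 3 : ℝ) := by
            rw [← Real.rpow_mul (by positivity)]; norm_num
        _ ≤ u ^ (2 / 3 : ℝ) := Real.rpow_le_rpow (by positivity) h.le (by norm_num)
    have h2 : u ^ (5 / 3 : ℝ) = u * u ^ (2 / 3 : ℝ) := by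
      rw [show (5 / 3 : ℝ) = 1 + 2 / 3 by norm_num, Real.rpow_add hu0, Real.rpow_one]
    have h3 : u ≤ η * u ^ (5 / 3 : ℝ) := by
      rw [h2]
      calc u = u * (η * η⁻¹) := by rw [mul_inv_cancel₀ hη.ne', mul_one]
        _ = η * (u * η⁻¹) := by ring
        _ ≤ η * (u * u ^ (2 / 3 : ℝ)) := by gcongr
    have : 0 ≤ (η⁻¹) ^ (3 / 2 : ℝ) := by positivity
    linarith

section

variable {ι : Type} [Fintype ι] {q n k : ℕ} {Λ : Set E3}
  {Ψ : ι → (Fin n → Fin q) → Cfg n k → ℂ} (hΨ : ∀ i, Sm q n k Λ (Ψ i))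

private theorem clo_nn {F : Cfg n k → ℝ} (hF : ∀ p, 0 ≤ F p) : 0 ≤ mM Ψ F :=
  sum_nonneg fun _ _ => mean_nonneg fun _ p _ => hF p

private theorem clo_T (x : E3) (r : ℝ) : 0 ≤ TM Ψ x r :=
  sum_nonneg fun i _ => add_nonneg (TE_nonneg (Ψ i) x r) (TN_nonneg (Ψ i) x r)

include hΨ

private theorem clo_add (v : E3) : mM Ψ (fun p => ce p v 1 + cn p v 1) =
    mM Ψ (fun p => ce p v 1) + mM Ψ (fun p => cn p v 1) := by
  unfold mM
  rw [← sum_add_distrib]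
  exact sum_congr rfl fun i _ => mean_add (IM_ce (hΨ i) v 1) (IM_cn (hΨ i) v 1)

private theorem clo_ce (h1 : ∑ i, mass (Ψ i) = 1) (η Cε : ℝ)
    (h : ∀ u : ℝ, 0 ≤ u → u ≤ η * u ^ (5 / 3 : ℝ) + Cε) (v : E3) :
    mM Ψ (fun p => ce p v 1) ≤ η * mM Ψ (fun p => ce p v 1 ^ (5 / 3 : ℝ)) + Cε := by
  unfold mM
  calc ∑ i, mean (Ψ i) (fun p => ce p v 1)
      ≤ ∑ i, (η * mean (Ψ i) (fun p => ce p v 1 ^ (5 / 3 : ℝ)) + Cε * mass (Ψ i)) := by
        refine sum_le_sum fun i _ => ?_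
        have i1 := IM_cet (hΨ i) v 1 (5 / 3) (by norm_num)
        have i2 : IM (Ψ i) (fun _ : Cfg n k => Cε) := IM.cont (hΨ i) continuous_const
        calc mean (Ψ i) (fun p => ce p v 1)
            ≤ mean (Ψ i) (fun p => η * ce p v 1 ^ (5 / 3 : ℝ) + Cε) :=
              mean_mono (IM_ce (hΨ i) v 1) ((i1.cmul η).add i2) fun _ p _ =>
                h _ (ce_nonneg p v 1)
          _ = _ := by rw [mean_add (i1.cmul η) i2, mean_cmul, mean_const]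
    _ = _ := by
        rw [sum_add_distrib, ← mul_sum, ← mul_sum, h1, mul_one]

end

theorem clo (q : ℕ) (T zm zp κm κp A Kv Cz D : ℝ) (hT : 0 ≤ T) (hzm : 0 < zm) (hκm : 0 < κm)
    (hA : 0 ≤ A) (hKv : 0 ≤ Kv) {χ : E3 → ℝ} (hχ : Bump χ) :
    ∃ C : ℝ, 0 ≤ C ∧
    ∀ (ι : Type) (_ : Fintype ι) (n k : ℕ) (Λ : Set E3) (z κ : Fin k → ℝ) (W : Finset E3)
    (δ : ℝ) (Ψ : ι → (Fin n → Fin q) → Cfg n k → ℂ)
    (_ : Gt q T zm zp κm κp A Kv n k Λ z κ W δ Ψ) (_ : δ ≤ (((n : ℝ) + k + 1) ^ 4)⁻¹)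
    (ζ : E3 → ℝ) (_ : Kil Cz ζ) (_ : ∀ x ∈ Λ, ∀ v, ‖x - v‖ < 2 → v ∈ Nb ζ D)
    (_ : Bz ζ 3 ⊆ Nb ζ D) (_ : ∀ x ∈ Bz ζ 3, Metric.closedBall x 41 ⊆ Λ),
    (∀ y, Lm Ψ y C ∧ mM Ψ (fun p => |av χ z (pr χ W z p) p y|) ≤ C) ∧
    mM Ψ (fun p => pr χ W z p ^ 2) ≤ C := by
  obtain ⟨θ, hθ⟩ := cut_ex
  obtain ⟨Ci, hCi, hinst⟩ := instB q T zm zp κm κp A Kv hT hzm hκm hA hKv hχ hθ
  obtain ⟨Ct, hCt, htot⟩ := totT q T zm zp κm κp A Kv hT hzm hκm hA hKv hχ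
  obtain ⟨C3, hC3, hqy⟩ := qy q T zm zp κm κp A Kv Cz D hT hzm hκm hA hKv hχ
  obtain ⟨C3', hC3', hqf⟩ := qf q T zm zp κm κp A Kv Cz D hT hzm hκm hA hKv hχ
  obtain ⟨C4, hC4, hxb⟩ := xb q Ci zm zp hCi hzm hχ hθ
  -- the constants
  obtain ⟨a0, ha0⟩ : ∃ a0, a0 = C3 * (1 + C3') := ⟨_, rfl⟩
  have ha0n : 0 ≤ a0 := by rw [ha0]; positivity
  obtain ⟨L, hL⟩ : ∃ L, L = 4 * a0 * C4 + 1 := ⟨_, rfl⟩
  have hL1 : 1 ≤ L := by
    have : 0 ≤ 4 * a0 * C4 := by positivity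
    linarith
  obtain ⟨C5, hC5, hqy5⟩ := hqy L (by linarith)
  obtain ⟨η, hη⟩ : ∃ η, η = (4 * (1 + a0) * (1 + 2 * C4 * (1 + a0)))⁻¹ := ⟨_, rfl⟩
  have hη0 : 0 < η := by rw [hη]; positivity
  obtain ⟨Cη, hCη, hxbη⟩ := hxb η hη0
  obtain ⟨Cε, hCε, hyoung⟩ := clo_young η hη0
  -- coefficient bounds
  have hηa : a0 * (η + 2 * C4 * (η + a0 * η)) ≤ 1 / 4 := by
    have e1 : a0 * (η + 2 * C4 * (η + a0 * η)) = a0 * (1 + 2 * C4 * (1 + a0)) * η := by ring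
    have e2 : (1 + a0) * (1 + 2 * C4 * (1 + a0)) * η = 1 / 4 := by
      rw [hη]; field_simp
    rw [e1, ← e2]
    gcongr
    linarith
  obtain ⟨b1, hb1⟩ : ∃ b1, b1 = Cε + a0 * (1 + Cη) + C5 := ⟨_, rfl⟩
  have hb1n : 0 ≤ b1 := by rw [hb1]; positivity
  obtain ⟨b2, hb2⟩ : ∃ b2, b2 = a0 * (1 + Cη + C4 * (2 * b1)) + C5 := ⟨_, rfl⟩
  have hb2n : 0 ≤ b2 := by rw [hb2]; positivity
  refine ⟨2 * b2 + (b2 + b2) + C3' * (1 + (η * (2 * b2) + Cη + C4 * (2 * (η + a0 * η) *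
    (2 * b2) + 2 * b1))), by positivity, ?_⟩
  intro ι _ n k Λ z κ W δ Ψ hG hδ ζ hζ hN hB3 h41
  have hst := hG.eq.st
  have hone := hG.eq.one
  have hsm : ∀ i, Sm q n k Λ (Ψ i) := fun i => St_sm (hst i)
  have hinb := hinst ι _ n k Λ z κ W δ Ψ hG hδ
  have hN1 : (1 : ℝ) ≤ (n : ℝ) + k + 1 := by
    have h1 : (0 : ℝ) ≤ n := Nat.cast_nonneg n
    have h2 : (0 : ℝ) ≤ k := Nat.cast_nonneg k
    linarith
  have hδ1 : δ ≤ 1 := hδ.trans (inv_le_one_of_one_le₀ (one_le_pow₀ hN1))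
  have htt := htot ι _ n k Λ z κ W δ Ψ hG hδ1
  -- from `X` to the bounds
  have hpr : ∀ X : ℝ, 0 ≤ X →
      (∀ x ∈ Bz ζ 3, mM Ψ (fun p => Qp z (pr χ W z p) p x) ≤ X) →
      mM Ψ (fun p => pr χ W z p ^ 2) ≤ C3' * (1 + X) := fun X hX hXb =>
    hqf ι _ n k Λ z κ W δ Ψ hG hδ ζ hζ hN hB3 X hX hXb
  have hmain : ∀ X : ℝ, 0 ≤ X →
      (∀ x ∈ Bz ζ 3, mM Ψ (fun p => Qp z (pr χ W z p) p x) ≤ X) → ∀ y,
      TM Ψ y 1 + mM Ψ (fun p => ce p y 1 ^ (5 / 3 : ℝ)) +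
      L * (mM Ψ (fun p => cn p y 1) + mM Ψ (fun p => |av χ z (pr χ W z p) p y|)) ≤
      a0 * (1 + X) + C5 := by
    intro X hX hXb y
    have h1 := hqy5 ι _ n k Λ z κ W δ Ψ hG hδ ζ hζ hN hB3 X hX hXb y
    have h2 := hpr X hX hXb
    refine h1.trans ?_
    rw [ha0]
    have h3 : C3 * (X + mM Ψ (fun p => pr χ W z p ^ 2)) ≤ C3 * (X + C3' * (1 + X)) := by
      gcongr
    have h4 : C3 * (X + C3' * (1 + X)) ≤ C3 * (1 + C3') * (1 + X) := by
      have : C3 * (1 + C3') * (1 + X) - C3 * (X + C3' * (1 + X)) = C3 := by ring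
      linarith
    linarith
  -- one step for `K`
  have hstepK : ∀ B : ℝ, 0 ≤ B → (∀ y, Lm Ψ y B) → ∀ v,
      mM Ψ (fun p => ce p v 1 + cn p v 1) ≤ 2 * ((η + a0 * η) * B + b1) := by
    intro B hB0 hBL
    have hc0 : ∀ v, 0 ≤ mM Ψ (fun p => ce p v 1) := fun v => clo_nn fun p => ce_nonneg p v 1
    have hn0 : ∀ v, 0 ≤ mM Ψ (fun p => cn p v 1) := fun v => clo_nn fun p => cn_nonneg p v 1
    have hce : ∀ v, mM Ψ (fun p => ce p v 1) ≤ η * B + Cε := by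
      intro v
      have h1 := clo_ce hsm hone η Cε hyoung v
      have h2 := mul_le_mul_of_nonneg_left (hBL v).e hη0.le
      linarith
    refine clo_iter (fun v => mM Ψ (fun p => ce p v 1 + cn p v 1)) _ (by positivity)
      (η * B + Cε + B) (by positivity) (fun v => ?_) ?_
    · rw [clo_add hsm v]
      exact add_le_add (hce v) (hBL v).c
    · intro K hK hKb v
      obtain ⟨X, hX⟩ : ∃ X, X = η * B + Cη + C4 * K := ⟨_, rfl⟩
      have hX0 : 0 ≤ X := by rw [hX]; positivity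
      have hXb : ∀ x ∈ Bz ζ 3, mM Ψ (fun p => Qp z (pr χ W z p) p x) ≤ X := by
        intro x hx
        rw [hX]
        exact hxbη ι _ n k Λ z W Ψ hinb x (h41 x hx) B hBL K hKb
      have h1 := hmain X hX0 hXb v
      have h2 : 0 ≤ TM Ψ v 1 := clo_T v 1
      have h3 : 0 ≤ mM Ψ (fun p => ce p v 1 ^ (5 / 3 : ℝ)) :=
        clo_nn fun p => Real.rpow_nonneg (ce_nonneg p v 1) _
      have h4 : 0 ≤ mM Ψ (fun p => |av χ z (pr χ W z p) p v|) := clo_nn fun p => abs_nonneg _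
      have h5 : L * mM Ψ (fun p => cn p v 1) ≤ a0 * (1 + X) + C5 := by
        have : 0 ≤ L * mM Ψ (fun p => |av χ z (pr χ W z p) p v|) :=
          mul_nonneg (by linarith) h4
        rw [mul_add] at h1
        linarith
      -- divide by `L`
      have h6 : mM Ψ (fun p => cn p v 1) ≤ K / 4 + (a0 * η * B + a0 * (1 + Cη) + C5) := by
        have hLp : 0 < L := by linarith
        have h7 : a0 * (1 + X) + C5 ≤ L * (K / 4 + (a0 * η * B + a0 * (1 + Cη) + C5)) := by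
          have e1 : a0 * (1 + X) + C5 = a0 * C4 * K + (a0 * η * B + a0 * (1 + Cη) + C5) := by
            rw [hX]; ring
          have e2 : a0 * C4 * K ≤ L * (K / 4) := by
            rw [hL]
            have : (4 * a0 * C4 + 1) * (K / 4) = a0 * C4 * K + K / 4 := by ring
            rw [this]; linarith
          have e3 : (a0 * η * B + a0 * (1 + Cη) + C5) ≤
              L * (a0 * η * B + a0 * (1 + Cη) + C5) :=
            le_mul_of_one_le_left (by positivity) hL1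
          rw [e1, mul_add]; linarith
        exact le_of_mul_le_mul_left (h5.trans h7) hLp
      rw [clo_add hsm v]
      have h8 := hce v
      rw [hb1]
      have e4 : (η + a0 * η) * B = η * B + a0 * η * B := by ring
      rw [e4]
      linarith
  -- the value of `X`
  have hX2 : ∀ B : ℝ, 0 ≤ B → (∀ y, Lm Ψ y B) → ∀ x ∈ Bz ζ 3,
      mM Ψ (fun p => Qp z (pr χ W z p) p x) ≤
        η * B + Cη + C4 * (2 * (η + a0 * η) * B + 2 * b1) := by
    intro B hB0 hBL x hx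
    have h1 := hstepK B hB0 hBL
    have h2 := hxbη ι _ n k Λ z W Ψ hinb x (h41 x hx) B hBL _ h1
    have e : 2 * ((η + a0 * η) * B + b1) = 2 * (η + a0 * η) * B + 2 * b1 := by ring
    rw [e] at h2
    exact h2
  have hX2n : ∀ B : ℝ, 0 ≤ B → 0 ≤ η * B + Cη + C4 * (2 * (η + a0 * η) * B + 2 * b1) :=
    fun B hB => by positivity
  have hX3 : ∀ B : ℝ, 0 ≤ B →
      a0 * (1 + (η * B + Cη + C4 * (2 * (η + a0 * η) * B + 2 * b1))) + C5 ≤ B / 4 + b2 := by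
    intro B hB
    have e : a0 * (1 + (η * B + Cη + C4 * (2 * (η + a0 * η) * B + 2 * b1))) + C5 =
        a0 * (η + 2 * C4 * (η + a0 * η)) * B + b2 := by
      rw [hb2]; ring
    rw [e]
    have := mul_le_mul_of_nonneg_right hηa hB
    linarith
  -- one step for `B`
  have hstepB : ∀ B : ℝ, 0 ≤ B → (∀ y, Lm Ψ y B) → ∀ y, Lm Ψ y (B / 4 + b2) ∧
      mM Ψ (fun p => |av χ z (pr χ W z p) p y|) ≤ B / 4 + b2 := by
    intro B hB0 hBL y
    have h1 := (hmain _ (hX2n B hB0) (hX2 B hB0 hBL) y).trans (hX3 B hB0)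
    have h2 : 0 ≤ TM Ψ y 1 := clo_T y 1
    have h3 : 0 ≤ mM Ψ (fun p => ce p y 1 ^ (5 / 3 : ℝ)) :=
      clo_nn fun p => Real.rpow_nonneg (ce_nonneg p y 1) _
    have h4 : 0 ≤ mM Ψ (fun p => |av χ z (pr χ W z p) p y|) := clo_nn fun p => abs_nonneg _
    have h5 : 0 ≤ mM Ψ (fun p => cn p y 1) := clo_nn fun p => cn_nonneg p y 1
    have h6 : mM Ψ (fun p => cn p y 1) + mM Ψ (fun p => |av χ z (pr χ W z p) p y|) ≤
        L * (mM Ψ (fun p => cn p y 1) + mM Ψ (fun p => |av χ z (pr χ W z p) p y|)) :=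
      le_mul_of_one_le_left (by linarith) hL1
    exact ⟨⟨by linarith, by linarith, by linarith⟩, by linarith⟩
  -- the a priori bound
  obtain ⟨B0, hB0⟩ : ∃ B0 : ℝ, B0 = Ct * (n + k + 1) + (n : ℝ) ^ (5 / 3 : ℝ) + k := ⟨_, rfl⟩
  have hB0n : 0 ≤ B0 := by rw [hB0]; positivity
  have hL0 : ∀ y, Lm Ψ y B0 := by
    intro y
    have h1 : (0 : ℝ) ≤ (n : ℝ) ^ (5 / 3 : ℝ) := by positivity
    have h2 : (0 : ℝ) ≤ k := Nat.cast_nonneg k
    have h3 : 0 ≤ Ct * ((n : ℝ) + k + 1) := by positivity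
    refine ⟨?_, ?_, ?_⟩
    · have := htt y
      rw [hB0]; linarith
    · have h4 : mM Ψ (fun p => ce p y 1 ^ (5 / 3 : ℝ)) ≤ (n : ℝ) ^ (5 / 3 : ℝ) := by
        unfold mM
        calc ∑ i, mean (Ψ i) (fun p => ce p y 1 ^ (5 / 3 : ℝ))
            ≤ ∑ i, (n : ℝ) ^ (5 / 3 : ℝ) * mass (Ψ i) := by
              refine sum_le_sum fun i _ => ?_
              rw [← mean_const]
              exact mean_mono (IM_cet (hsm i) y 1 (5 / 3) (by norm_num))
                (IM.cont (hsm i) continuous_const) fun _ p _ =>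
                Real.rpow_le_rpow (ce_nonneg p y 1) (ce_le p y 1) (by norm_num)
          _ = _ := by rw [← mul_sum, hone, mul_one]
      rw [hB0]; linarith
    · have h4 : mM Ψ (fun p => cn p y 1) ≤ (k : ℝ) := by
        unfold mM
        calc ∑ i, mean (Ψ i) (fun p => cn p y 1)
            ≤ ∑ i, (k : ℝ) * mass (Ψ i) := by
              refine sum_le_sum fun i _ => ?_
              rw [← mean_const]
              exact mean_mono (IM_cn (hsm i) y 1)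
                (IM.cont (hsm i) continuous_const) fun _ p _ => cn_le p y 1
          _ = _ := by rw [← mul_sum, hone, mul_one]
      rw [hB0]; linarith
  -- iteration for `B`
  have hfin : ∀ y, Lm Ψ y (2 * b2) := by
    intro y
    have key := clo_iter (α := E3 × Fin 3)
      (fun u => if u.2 = 0 then TM Ψ u.1 1 else if u.2 = 1 then
        mM Ψ (fun p => ce p u.1 1 ^ (5 / 3 : ℝ)) else mM Ψ (fun p => cn p u.1 1))
      b2 hb2n B0 hB0n (fun u => by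
        split_ifs
        · exact (hL0 u.1).t
        · exact (hL0 u.1).e
        · exact (hL0 u.1).c) (fun B hB hBb => by
        have hBL : ∀ y, Lm Ψ y B := fun y =>
          ⟨by simpa using hBb (y, 0), by simpa using hBb (y, 1), by simpa using hBb (y, 2)⟩
        intro u
        have h1 := (hstepB B hB hBL u.1).1
        split_ifs
        · exact h1.t
        · exact h1.e
        · exact h1.c)
    exact ⟨by simpa using key (y, 0), by simpa using key (y, 1), by simpa using key (y, 2)⟩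
  have h2b : 0 ≤ 2 * b2 := by positivity
  have hX5 : 0 ≤ C3' * (1 + (η * (2 * b2) + Cη + C4 * (2 * (η + a0 * η) *
    (2 * b2) + 2 * b1))) := by
    have := hX2n (2 * b2) h2b
    positivity
  refine ⟨fun y => ⟨?_, ?_⟩, ?_⟩
  · have h1 := hfin y
    exact ⟨by linarith [h1.t], by linarith [h1.e], by linarith [h1.c]⟩
  · have h1 := (hstepB (2 * b2) h2b hfin y).2
    linarith
  · have h1 := hpr _ (hX2n (2 * b2) h2b) (hX2 (2 * b2) h2b hfin)
    linarith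

end H6.CX
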