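import Pool.Agent.H6.CX.NnF
import Pool.Agent.H6.CB.Poten

/-! The smeared charges. `rho_cc`: `chr χ r` is smooth with compact support. `rho_pot`: `pot` is linear on compactly supported functions and `∫ y, chr χ r (y - a) ^ 2 * ‖x - y‖⁻¹ = U (chr χ r) (x - a)` (`chr_pot`, `chr_eq`, or `U_trans` for `chr χ r`). `ealg`: expand `∫ g * rho * (uu - c) = ∑ i, e i * ∫ g * σ i * (uu - c)`, `σ i v = chr χ (r i) (v - y i) ^ 2`, write `g = g (y i) + (g - g (y i))`, and `∫ σ i * (uu - c) = ∑ l, e l * nn χ (r i) (r l) (y l - y i) - c` (translation `v = w + y i`). The diagonal term `‖y i - y i‖⁻¹` is `0` in Lean. All integrands are continuous with compact support. `eg_sum`: `Fintype.sum_sum_type`; `phiE z a p (p.1 a)` is the sum over the other particles (see `lf_phiE`, `lf_phiN` in `Pool/Agent/H6/CL/LFin.lean`). -/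

open MeasureTheory Finset

namespace H6.CX

open H6.CM H6.CB H6.CL H6.CT

private theorem ea_cc {χ : E3 → ℝ} (h : Bump χ) (r : ℝ) (hr : 0 < r) (w : E3) :
    ContDiff ℝ (⊤ : ℕ∞) (fun v => chr χ r (v - w) ^ 2) ∧
      HasCompactSupport (fun v => chr χ r (v - w) ^ 2) := by
  refine ⟨((chr_smooth h r hr).comp (contDiff_id.sub contDiff_const)).pow 2, ?_⟩
  refine HasCompactSupport.intro (isCompact_closedBall w (r / 2)) fun v hv => ?_
  have h1 : chr χ r (v - w) = 0 := by
    by_contra h2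
    apply hv
    rw [Metric.mem_closedBall, dist_eq_norm]
    exact (chr_supp h r hr _ h2).le
  simp only [h1]
  norm_num

private theorem ea_int {f : E3 → ℝ} (hf : Continuous f) (hs : HasCompactSupport f) :
    Integrable f := hf.integrable_of_hasCompactSupport hs

section

variable {χ : E3 → ℝ} (h : Bump χ) {ι : Type} [Fintype ι] [DecidableEq ι] (e : ι → ℝ)
  (y : ι → E3) (r : ι → ℝ) (hr : ∀ i, 0 < r i)
include h hr

omit [DecidableEq ι] in
theorem rho_cc : Cc (rho χ e y r) := by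
  unfold rho
  refine ⟨ContDiff.sum fun i _ => contDiff_const.mul (ea_cc h (r i) (hr i) (y i)).1, ?_⟩
  refine HasCompactSupport.intro
    (isCompact_iUnion fun i => isCompact_closedBall (y i) (r i / 2)) fun v hv => ?_
  refine Finset.sum_eq_zero fun i _ => ?_
  have h1 : chr χ (r i) (v - y i) = 0 := by
    by_contra h2
    apply hv
    rw [Set.mem_iUnion]
    refine ⟨i, ?_⟩
    rw [Metric.mem_closedBall, dist_eq_norm]
    exact (chr_supp h (r i) (hr i) _ h2).le
  rw [h1]
  ring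

omit [DecidableEq ι] in
theorem rho_pot (v : E3) : pot (rho χ e y r) v = uu χ e y r v := by
  unfold pot rho uu
  have h1 : ∀ w : E3, (∑ i, e i * chr χ (r i) (w - y i) ^ 2) * ‖v - w‖⁻¹ =
      ∑ i, e i * (chr χ (r i) (w - y i) ^ 2 * ‖w - v‖⁻¹) := by
    intro w
    rw [Finset.sum_mul]
    refine Finset.sum_congr rfl fun i _ => ?_
    rw [norm_sub_rev v w]
    ring
  simp only [h1]
  rw [integral_finset_sum _ fun i _ => (chr_pot_int h (r i) (hr i) (y i) v).const_mul (e i)]
  refine Finset.sum_congr rfl fun i _ => ?_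
  rw [integral_const_mul, chr_pot h (r i) (hr i), chr_eq h (r i) (hr i)]

omit [DecidableEq ι] in
theorem uu_smooth : ContDiff ℝ (⊤ : ℕ∞) (uu χ e y r) := by
  have h1 : uu χ e y r = pot (rho χ e y r) := by
    funext v
    exact (rho_pot h e y r hr v).symm
  rw [h1]
  exact pot_smooth _ (rho_cc h e y r hr)

theorem ealg {g : E3 → ℝ} (hg : Continuous g) (c : ℝ) :
    ∑ i, e i * g (y i) * ((∑ l, e l * ‖y i - y l‖⁻¹) - c) =
      (∫ v, g v * (rho χ e y r v * (uu χ e y r v - c))) +
      ∑ i, e i * g (y i) * (∑ l ∈ univ.erase i,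
        e l * (‖y i - y l‖⁻¹ - nn χ (r i) (r l) (y l - y i))) -
      ∑ i, e i ^ 2 * g (y i) * nn χ (r i) (r i) 0 -
      ∑ i, e i * ∫ v, (g v - g (y i)) * (chr χ (r i) (v - y i) ^ 2 *
        (uu χ e y r v - c)) := by
  have huc : Continuous (uu χ e y r) := (uu_smooth h e y r hr).continuous
  have hσ : ∀ i, Continuous (fun v => chr χ (r i) (v - y i) ^ 2) ∧
      HasCompactSupport (fun v => chr χ (r i) (v - y i) ^ 2) := fun i =>
    ⟨(ea_cc h (r i) (hr i) (y i)).1.continuous, (ea_cc h (r i) (hr i) (y i)).2⟩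
  have hσu : ∀ i, Continuous (fun v => chr χ (r i) (v - y i) ^ 2 * (uu χ e y r v - c)) ∧
      HasCompactSupport (fun v => chr χ (r i) (v - y i) ^ 2 * (uu χ e y r v - c)) := fun i =>
    ⟨(hσ i).1.mul (huc.sub continuous_const), (hσ i).2.mul_right⟩
  have hgσ : ∀ i, Integrable (fun v => (g v - g (y i)) *
      (chr χ (r i) (v - y i) ^ 2 * (uu χ e y r v - c))) := fun i =>
    ea_int ((hg.sub continuous_const).mul (hσu i).1) (hσu i).2.mul_left
  have hg0 : ∀ i, Integrable (fun v => g v *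
      (chr χ (r i) (v - y i) ^ 2 * (uu χ e y r v - c))) := fun i =>
    ea_int (hg.mul (hσu i).1) (hσu i).2.mul_left
  -- the interaction of one smeared charge
  have hone : ∀ i, ∫ v, chr χ (r i) (v - y i) ^ 2 * (uu χ e y r v - c) =
      (∑ l, e l * nn χ (r i) (r l) (y l - y i)) - c := by
    intro i
    have hc1 : ∫ v, chr χ (r i) (v - y i) ^ 2 = 1 := by
      rw [integral_sub_right_eq_self (fun v => chr χ (r i) v ^ 2) (y i)]
      exact chr_norm h (r i) (hr i)
    have hl : ∀ l, Integrable (fun v => e l * (chr χ (r i) (v - y i) ^ 2 *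
        U (chr χ (r l)) (v - y l))) := fun l =>
      (ea_int ((hσ i).1.mul ((U_cont h (r l) (hr l)).comp (continuous_id.sub continuous_const)))
        (hσ i).2.mul_right).const_mul _
    have hll : ∀ l, ∫ v, e l * (chr χ (r i) (v - y i) ^ 2 * U (chr χ (r l)) (v - y l)) =
        e l * nn χ (r i) (r l) (y l - y i) := by
      intro l
      rw [integral_const_mul]
      congr 1
      unfold nn
      rw [← integral_sub_right_eq_self (fun w => chr χ (r i) w ^ 2 *
        U (chr χ (r l)) (w - (y l - y i))) (y i)]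
      refine integral_congr_ae (Filter.Eventually.of_forall fun v => ?_)
      simp only
      rw [sub_sub_sub_cancel_right]
    have e1 : ∀ v, chr χ (r i) (v - y i) ^ 2 * (uu χ e y r v - c) =
        (∑ l, e l * (chr χ (r i) (v - y i) ^ 2 * U (chr χ (r l)) (v - y l))) -
          c * chr χ (r i) (v - y i) ^ 2 := by
      intro v
      unfold uu
      rw [mul_sub, Finset.mul_sum, mul_comm _ c]
      congr 1
      refine Finset.sum_congr rfl fun l _ => ?_
      ring
    simp only [e1]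
    rw [integral_sub (integrable_finset_sum _ fun l _ => hl l)
      ((ea_int (hσ i).1 (hσ i).2).const_mul c), integral_finset_sum _ fun l _ => hl l,
      integral_const_mul, hc1, mul_one]
    congr 1
    exact Finset.sum_congr rfl fun l _ => hll l
  have htwo : ∀ i, ∫ v, g v * (chr χ (r i) (v - y i) ^ 2 * (uu χ e y r v - c)) =
      g (y i) * ((∑ l, e l * nn χ (r i) (r l) (y l - y i)) - c) +
        ∫ v, (g v - g (y i)) * (chr χ (r i) (v - y i) ^ 2 * (uu χ e y r v - c)) := by
    intro i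
    rw [← hone i, ← integral_const_mul, ← integral_add
      ((ea_int (hσu i).1 (hσu i).2).const_mul _) (hgσ i)]
    refine integral_congr_ae (Filter.Eventually.of_forall fun v => ?_)
    simp only
    ring
  have hthree : ∫ v, g v * (rho χ e y r v * (uu χ e y r v - c)) =
      ∑ i, e i * ∫ v, g v * (chr χ (r i) (v - y i) ^ 2 * (uu χ e y r v - c)) := by
    have e1 : ∀ v, g v * (rho χ e y r v * (uu χ e y r v - c)) =
        ∑ i, e i * (g v * (chr χ (r i) (v - y i) ^ 2 * (uu χ e y r v - c))) := by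
      intro v
      have e2 : rho χ e y r v = ∑ i, e i * chr χ (r i) (v - y i) ^ 2 := rfl
      rw [e2, Finset.sum_mul, Finset.mul_sum]
      refine Finset.sum_congr rfl fun i _ => ?_
      ring
    simp only [e1]
    rw [integral_finset_sum _ fun i _ => (hg0 i).const_mul (e i)]
    refine Finset.sum_congr rfl fun i _ => ?_
    rw [integral_const_mul]
  rw [hthree, ← Finset.sum_add_distrib, ← Finset.sum_sub_distrib, ← Finset.sum_sub_distrib]
  refine Finset.sum_congr rfl fun i _ => ?_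
  rw [htwo i]
  have h1 : ∑ l, e l * ‖y i - y l‖⁻¹ = ∑ l ∈ univ.erase i, e l * ‖y i - y l‖⁻¹ := by
    rw [← Finset.add_sum_erase univ (fun l => e l * ‖y i - y l‖⁻¹) (Finset.mem_univ i)]
    simp
  have h2 : ∑ l, e l * nn χ (r i) (r l) (y l - y i) =
      e i * nn χ (r i) (r i) 0 + ∑ l ∈ univ.erase i, e l * nn χ (r i) (r l) (y l - y i) := by
    rw [← Finset.add_sum_erase univ (fun l => e l * nn χ (r i) (r l) (y l - y i))
      (Finset.mem_univ i), sub_self]
  have h3 : ∑ l ∈ univ.erase i, e l * (‖y i - y l‖⁻¹ - nn χ (r i) (r l) (y l - y i)) =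
      ∑ l ∈ univ.erase i, e l * ‖y i - y l‖⁻¹ -
        ∑ l ∈ univ.erase i, e l * nn χ (r i) (r l) (y l - y i) := by
    rw [← Finset.sum_sub_distrib]
    refine Finset.sum_congr rfl fun l _ => ?_
    ring
  rw [h1, h2, h3]
  ring

end

theorem eg_sum {n k : ℕ} (g : E3 → ℝ) (z : Fin k → ℝ) (c : ℝ) (p : Cfg n k) :
    EG g z c p = ∑ i, cg z i * g (ps p i) * ((∑ l, cg z l * ‖ps p i - ps p l‖⁻¹) - c) := by
  have hE : ∀ a : Fin n, ∑ b, (-1 : ℝ) * ‖p.1 a - p.1 b‖⁻¹ + ∑ j, z j * ‖p.1 a - p.2 j‖⁻¹ =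
      phiE z a p (p.1 a) := by
    intro a
    unfold phiE
    have h1 : ∑ b, (-1 : ℝ) * ‖p.1 a - p.1 b‖⁻¹ =
        -∑ b ∈ univ.erase a, ‖p.1 a - p.1 b‖⁻¹ := by
      rw [← mul_sum, ← add_sum_erase univ (fun b => ‖p.1 a - p.1 b‖⁻¹) (mem_univ a)]
      simp
    rw [h1]
    ring
  have hN : ∀ j : Fin k, ∑ b, (-1 : ℝ) * ‖p.2 j - p.1 b‖⁻¹ + ∑ l, z l * ‖p.2 j - p.2 l‖⁻¹ =
      phiN z j p (p.2 j) := by
    intro j
    unfold phiN
    have h1 : ∑ l, z l * ‖p.2 j - p.2 l‖⁻¹ =
        ∑ l ∈ univ.erase j, z l * ‖p.2 j - p.2 l‖⁻¹ := by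
      rw [← add_sum_erase univ (fun l => z l * ‖p.2 j - p.2 l‖⁻¹) (mem_univ j)]
      simp
    rw [h1, ← mul_sum]
    ring
  unfold EG
  rw [Fintype.sum_sum_type]
  simp only [Fintype.sum_sum_type]
  have e1 : ∀ a : Fin n, cg z (Sum.inl a) = -1 := fun _ => rfl
  have e2 : ∀ j : Fin k, cg z (Sum.inr j : Fin n ⊕ Fin k) = z j := fun _ => rfl
  have e3 : ∀ a : Fin n, ps p (Sum.inl a) = p.1 a := fun _ => rfl
  have e4 : ∀ j : Fin k, ps p (Sum.inr j) = p.2 j := fun _ => rfl
  simp only [e1, e2, e3, e4, hE, hN]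
  have e5 : ∑ a, -1 * g (p.1 a) * (phiE z a p (p.1 a) - c) =
      -∑ a, g (p.1 a) * (phiE z a p (p.1 a) - c) := by
    rw [← Finset.sum_neg_distrib]
    refine Finset.sum_congr rfl fun a _ => ?_
    ring
  have e6 : ∑ j, z j * g (p.2 j) * (phiN z j p (p.2 j) - c) =
      ∑ j, z j * (g (p.2 j) * (phiN z j p (p.2 j) - c)) := by
    refine Finset.sum_congr rfl fun a _ => ?_
    ring
  rw [e5, e6]
  ring

end H6.CX
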