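import Pool.Agent.H6.CX.Defs
import Pool.Agent.H6.CB.NMax
import Pool.Agent.H6.CB.PhL2
import Pool.Agent.H6.CM.Newton

/-! The short range kernel `kk χ v = ‖v‖⁻¹ - U χ v`. `newton_le`, `newton_out`, `U_neg`, `U_nonneg`, `U_bd`; in Lean `‖0‖⁻¹ = 0`. `kk_int`: it is measurable, vanishes for `1 / 2 ≤ ‖v‖` and is between `0` and `‖v‖⁻¹` for `v ≠ 0` (almost everywhere); `‖v‖⁻¹` is integrable on balls (`inv_sq` and Cauchy-Schwarz, or `‖v‖⁻¹ ≤ 1 + ‖v‖⁻¹ ^ 2`). The integral is positive because `U χ` is bounded by `C` and `C < ‖v‖⁻¹` for small `v ≠ 0`. `kk_chr`: for every `r > 0` use `U_out`, `U_le` (file `NMax`), and `∫ v in ball 0 (r / 2), ‖v‖⁻¹ ≤ C r ^ 2`: with `chr_eq` one has `kk (chr χ r) v = r⁻¹ * kk χ (r⁻¹ • v)`, so the integral is `r ^ 2 * ∫ |kk χ|` (change of variables `Measure.integral_comp_inv_smul` or `integral_comp_smul`). -/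

open MeasureTheory Finset

namespace H6.CX

open H6.CM H6.CB H6.CL H6.CT

section

variable {χ : E3 → ℝ} (h : Bump χ)
include h

theorem kk_nonneg (v : E3) (hv : v ≠ 0) : 0 ≤ kk χ v := by
  unfold kk
  have := newton_le h v hv
  linarith

theorem kk_supp (v : E3) (hv : 1 / 2 ≤ ‖v‖) : kk χ v = 0 := by
  unfold kk
  rw [newton_out h v hv, sub_self]

theorem kk_le (v : E3) : kk χ v ≤ ‖v‖⁻¹ := by
  unfold kk
  have := U_nonneg χ v
  linarith

theorem kk_neg (v : E3) : kk χ (-v) = kk χ v := by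
  unfold kk
  rw [norm_neg, (newton_max h (-v)).2, (newton_max h v).2, norm_neg]

private theorem kk_ucont : Continuous (U χ) := by
  have h1 := U_cont h 1 one_pos
  have h2 : U (chr χ 1) = U χ := by
    funext v
    rw [chr_eq h 1 one_pos, inv_one, one_smul, one_mul]
  rwa [h2] at h1

theorem kk_meas : Measurable (kk χ) := by
  unfold kk
  exact measurable_norm.inv.sub (kk_ucont h).measurable

private theorem kk_intg : Integrable (kk χ) := by
  obtain ⟨C, hC, hsq⟩ := inv_sq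
  obtain ⟨h1, -⟩ := hsq 0 (1 / 2) (by norm_num)
  simp only [sub_zero] at h1
  have h2 : Integrable ((Metric.ball (0 : E3) (1 / 2)).indicator
      (fun v => 1 + ‖v‖⁻¹ ^ 2)) := by
    rw [integrable_indicator_iff Metric.isOpen_ball.measurableSet]
    refine IntegrableOn.add ?_ h1
    exact integrableOn_const (hs := measure_ball_lt_top.ne)
  have h0 : ∀ᵐ v : E3, v ≠ 0 := by
    rw [ae_iff]
    simp
  refine Integrable.mono' h2 (kk_meas h).aestronglyMeasurable ?_
  filter_upwards [h0] with v hv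
  rw [Real.norm_of_nonneg (kk_nonneg h v hv)]
  by_cases hb : v ∈ Metric.ball (0 : E3) (1 / 2)
  · rw [Set.indicator_of_mem hb]
    have h3 := kk_le h v
    have h4 : ‖v‖⁻¹ ≤ 1 + ‖v‖⁻¹ ^ 2 := by nlinarith [sq_nonneg (‖v‖⁻¹ - 1 / 2)]
    linarith
  · rw [Set.indicator_of_notMem hb]
    have h3 : 1 / 2 ≤ ‖v‖ := by
      rw [mem_ball_zero_iff] at hb
      linarith
    exact (kk_supp h v h3).le

theorem kk_int : Integrable (kk χ) ∧ 0 < ∫ v, kk χ v := by
  refine ⟨kk_intg h, ?_⟩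
  have h0 : ∀ᵐ v : E3, v ≠ 0 := by
    rw [ae_iff]
    simp
  have hnn : 0 ≤ᵐ[volume] kk χ := by
    filter_upwards [h0] with v hv
    exact kk_nonneg h v hv
  rw [integral_pos_iff_support_of_nonneg_ae hnn (kk_intg h)]
  obtain ⟨C, hC, hU⟩ := U_bd h
  have h1 : Metric.ball (0 : E3) C⁻¹ \ {0} ⊆ Function.support (kk χ) := by
    intro v hv
    have hv0 : v ≠ 0 := by simpa using hv.2
    have hn : 0 < ‖v‖ := norm_pos_iff.2 hv0
    have h2 : ‖v‖ < C⁻¹ := by simpa using hv.1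
    have h3 : C < ‖v‖⁻¹ := by
      rw [lt_inv_comm₀ hC hn]
      exact h2
    have h4 := hU v
    have h5 : 0 < kk χ v := by
      unfold kk
      linarith
    exact h5.ne'
  have h2 : (volume : Measure E3) (Metric.ball (0 : E3) C⁻¹ \ {0}) =
      volume (Metric.ball (0 : E3) C⁻¹) :=
    measure_sdiff_null (by simp)
  have h3 : 0 < (volume : Measure E3) (Metric.ball (0 : E3) C⁻¹) :=
    Metric.measure_ball_pos _ _ (inv_pos.2 hC)
  exact (h2 ▸ h3).trans_le (measure_mono h1)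

private theorem kk_form (r : ℝ) (hr : 0 < r) (v : E3) :
    kk (chr χ r) v = r⁻¹ * kk χ (r⁻¹ • v) := by
  unfold kk
  rw [chr_eq h r hr, norm_smul, Real.norm_of_nonneg (inv_nonneg.2 hr.le), mul_inv, inv_inv,
    mul_sub, inv_mul_cancel_left₀ hr.ne']

theorem kk_chr : ∃ C : ℝ, 0 ≤ C ∧ ∀ (r : ℝ) (_ : 0 < r),
    (∀ v, r / 2 ≤ ‖v‖ → kk (chr χ r) v = 0) ∧ (∀ v, v ≠ 0 → 0 ≤ kk (chr χ r) v) ∧
    (∀ v, kk (chr χ r) v ≤ ‖v‖⁻¹) ∧ Integrable (kk (chr χ r)) ∧
    ∫ v, |kk (chr χ r) v| ≤ C * r ^ 2 := by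
  refine ⟨∫ v, |kk χ v|, integral_nonneg fun v => abs_nonneg _, fun r hr => ⟨?_, ?_, ?_, ?_, ?_⟩⟩
  · intro v hv
    unfold kk
    rw [U_out h r hr v hv, sub_self]
  · intro v hv
    unfold kk
    have := U_le h r hr v hv
    linarith
  · intro v
    unfold kk
    have := U_nonneg (chr χ r) v
    linarith
  · have h1 : kk (chr χ r) = fun v => r⁻¹ * kk χ (r⁻¹ • v) := funext (kk_form h r hr)
    rw [h1]
    exact ((kk_intg h).comp_smul (inv_ne_zero hr.ne')).const_mul _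
  · have h1 : ∀ v, |kk (chr χ r) v| = r⁻¹ * (fun u => |kk χ u|) (r⁻¹ • v) := by
      intro v
      simp only
      rw [kk_form h r hr, abs_mul, abs_of_pos (inv_pos.2 hr)]
    simp only [h1]
    have h3 := Measure.integral_comp_inv_smul_of_nonneg (volume : Measure E3)
      (fun u => |kk χ u|) hr.le
    rw [finrank_euclideanSpace_fin, smul_eq_mul] at h3
    rw [integral_const_mul, h3]
    have h2 : r⁻¹ * (r ^ 3 * ∫ u, |kk χ u|) = (∫ u, |kk χ u|) * r ^ 2 := by
      field_simp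
    exact h2.le

end

end H6.CX
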