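import Pool.Agent.H6.CX.Defs

/-! Packing. Let `δ j = ⨆ l, ‖R j - R l‖⁻¹` (the inverse distance to the nearest other point, or `0` if there is none; in Lean the term `l = j` is `0`). If `t j > 0` and `t j * δ j ≤ K` for all `j` in a set `I` of indices, then `‖R j - R l‖ ≥ t j / K`. Dyadic classes `T ≤ t j ≤ 2 T` with `‖v - R j‖ ≤ 2 T` have at most `125 K ^ 3` elements (disjoint balls of radius `T / (2 K)` in a ball of radius `5 T / 2`). `pack1`: `t j = ‖v - R j‖`, `T = 2 ^ k / D`, `D = ⨆ j, ‖v - R j‖⁻¹`. `pack2`: `t j = r j`, `T = s / 2 ^ (k + 1)`. -/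

open MeasureTheory Finset

namespace H6.CX

open H6.CM H6.CB H6.CL H6.CT

private theorem cnt {k : ℕ} (K : ℝ) (hK : 1 ≤ K) (R : Fin k → E3) (v : E3) (T : ℝ) (hT : 0 < T)
    (I : Finset (Fin k)) (h1 : ∀ j ∈ I, ‖v - R j‖ ≤ 2 * T)
    (h2 : ∀ j ∈ I, ∀ l ∈ I, j ≠ l → T / K ≤ ‖R j - R l‖) : (I.card : ℝ) ≤ 125 * K ^ 3 := by
  have hK0 : 0 < K := by linarith
  obtain ⟨ρ, hρ⟩ : ∃ ρ, ρ = T / (2 * K) := ⟨_, rfl⟩
  have hρ0 : 0 < ρ := by rw [hρ]; positivity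
  have hρT : ρ ≤ T / 2 := by
    rw [hρ]
    apply div_le_div_of_nonneg_left hT.le (by norm_num) (by linarith)
  have hTρ : T / K = 2 * ρ := by rw [hρ]; field_simp
  let μ : Measure E3 := volume
  have hdis : (I : Set (Fin k)).PairwiseDisjoint (fun j => Metric.ball (R j) ρ) := by
    intro j hj l hl hjl
    apply Metric.ball_disjoint_ball
    rw [dist_eq_norm]
    have := h2 j hj l hl hjl
    rw [hTρ] at this
    linarith
  have hsub : (⋃ j ∈ I, Metric.ball (R j) ρ) ⊆ Metric.ball v (5 / 2 * T + 0) := by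
    intro x hx
    simp only [Set.mem_iUnion] at hx
    obtain ⟨j, hj, hx⟩ := hx
    rw [Metric.mem_ball, dist_eq_norm] at hx ⊢
    have h3 := h1 j hj
    calc ‖x - v‖ = ‖(x - R j) + -(v - R j)‖ := by congr 1; abel
      _ ≤ ‖x - R j‖ + ‖-(v - R j)‖ := norm_add_le _ _
      _ = ‖x - R j‖ + ‖v - R j‖ := by rw [norm_neg]
      _ < 5 / 2 * T + 0 := by linarith
  have hm : μ (⋃ j ∈ I, Metric.ball (R j) ρ) = ∑ j ∈ I, μ (Metric.ball (R j) ρ) :=
    measure_biUnion_finset hdis (fun j _ => Metric.isOpen_ball.measurableSet)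
  have hle : ∑ j ∈ I, μ (Metric.ball (R j) ρ) ≤ μ (Metric.ball v (5 / 2 * T + 0)) := by
    rw [← hm]
    exact measure_mono hsub
  have hfr : Module.finrank ℝ E3 = 3 := by simp [E3]
  have hb : ∀ (x : E3) (r : ℝ), 0 ≤ r → μ (Metric.ball x r) = ENNReal.ofReal (r ^ 3) * μ (Metric.ball 0 1) := by
    intro x r hr
    have := Measure.addHaar_ball μ x hr
    rw [hfr] at this
    exact this
  rw [hb v _ (by positivity)] at hle
  simp_rw [hb _ ρ hρ0.le] at hle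
  rw [Finset.sum_const, nsmul_eq_mul, ← mul_assoc] at hle
  have hc0 : μ (Metric.ball (0 : E3) 1) ≠ 0 := (Metric.measure_ball_pos μ 0 one_pos).ne'
  have hct : μ (Metric.ball (0 : E3) 1) ≠ ⊤ := measure_ball_lt_top.ne
  have h4 : (I.card : ENNReal) * ENNReal.ofReal (ρ ^ 3) ≤ ENNReal.ofReal ((5 / 2 * T + 0) ^ 3) :=
    (ENNReal.mul_le_mul_iff_left hc0 hct).1 hle
  have h5 : (I.card : ENNReal) = ENNReal.ofReal (I.card : ℝ) := by simp
  rw [h5, ← ENNReal.ofReal_mul (Nat.cast_nonneg _)] at h4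
  have h6 := (ENNReal.ofReal_le_ofReal_iff (by positivity)).1 h4
  have h7 : T = 2 * K * ρ := by rw [hρ]; field_simp
  rw [h7] at h6
  have h8 : (5 / 2 * (2 * K * ρ) + 0) ^ 3 = (125 * K ^ 3) * ρ ^ 3 := by ring
  rw [h8] at h6
  exact le_of_mul_le_mul_right h6 (by positivity)

private theorem dya {k : ℕ} (I : Finset (Fin k)) (g : Fin k → ℕ) (f : Fin k → ℝ) (A B : ℝ) (hA : 0 ≤ A) (hB : 0 ≤ B)
    (h1 : ∀ j ∈ I, f j ≤ A * (1 / 2) ^ (g j)) (h2 : ∀ n, ((I.filter (fun j => g j = n)).card : ℝ) ≤ B) :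
    ∑ j ∈ I, f j ≤ 2 * A * B := by
  rw [← Finset.sum_fiberwise_of_maps_to (s := I) (t := I.image g) (g := g)
    (fun x hx => Finset.mem_image_of_mem g hx)]
  have h3 : ∀ n ∈ I.image g, ∑ j ∈ I with g j = n, f j ≤ (A * B) * (1 / 2) ^ n := by
    intro n _
    calc ∑ j ∈ I with g j = n, f j ≤ ∑ j ∈ I with g j = n, A * (1 / 2) ^ n := by
          apply Finset.sum_le_sum
          intro j hj
          rw [Finset.mem_filter] at hj
          have := h1 j hj.1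
          rwa [hj.2] at this
      _ = ((I.filter (fun j => g j = n)).card : ℝ) * (A * (1 / 2) ^ n) := by
          rw [Finset.sum_const, nsmul_eq_mul]
      _ ≤ B * (A * (1 / 2) ^ n) := mul_le_mul_of_nonneg_right (h2 n) (by positivity)
      _ = (A * B) * (1 / 2) ^ n := by ring
  refine (Finset.sum_le_sum h3).trans ?_
  rw [← Finset.mul_sum]
  have h4 : ∑ n ∈ I.image g, ((1 : ℝ) / 2) ^ n ≤ 2 := by
    have h5 := Summable.sum_le_tsum (f := fun n : ℕ => ((1 : ℝ) / 2) ^ n) (I.image g)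
      (fun _ _ => by positivity) summable_geometric_two
    rw [tsum_geometric_two] at h5
    exact h5
  calc A * B * ∑ n ∈ I.image g, ((1 : ℝ) / 2) ^ n ≤ A * B * 2 :=
        mul_le_mul_of_nonneg_left h4 (by positivity)
    _ = 2 * A * B := by ring

private theorem sep {k : ℕ} (K : ℝ) (hK : 1 ≤ K) (R : Fin k → E3) (hR : Function.Injective R) (t : ℝ)
    (j l : Fin k) (hjl : j ≠ l) (ht : 0 < t) (h : t * (⨆ l, ‖R j - R l‖⁻¹) ≤ K) : t / K ≤ ‖R j - R l‖ := by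
  have hK0 : 0 < K := by linarith
  have h1 : 0 < ‖R j - R l‖ := norm_pos_iff.2 (sub_ne_zero.2 (fun h => hjl (hR h)))
  have h2 : ‖R j - R l‖⁻¹ ≤ ⨆ l, ‖R j - R l‖⁻¹ :=
    le_ciSup (f := fun l => ‖R j - R l‖⁻¹) (Set.finite_range _).bddAbove l
  have h3 : t * ‖R j - R l‖⁻¹ ≤ K := (mul_le_mul_of_nonneg_left h2 ht.le).trans h
  rw [div_le_iff₀ hK0]
  rw [← div_eq_mul_inv, div_le_iff₀ h1] at h3
  linarith

private theorem cls (x : ℝ) (hx : 1 ≤ x) : (2 : ℝ) ^ (Nat.log 2 ⌊x⌋₊) ≤ x ∧ x < 2 * (2 : ℝ) ^ (Nat.log 2 ⌊x⌋₊) := by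
  have h1 : 1 ≤ ⌊x⌋₊ := (Nat.one_le_floor_iff x).2 hx
  constructor
  · have h2 : 2 ^ (Nat.log 2 ⌊x⌋₊) ≤ ⌊x⌋₊ := Nat.pow_log_le_self 2 (by omega)
    have h3 : ((2 ^ (Nat.log 2 ⌊x⌋₊) : ℕ) : ℝ) ≤ (⌊x⌋₊ : ℝ) := by exact_mod_cast h2
    push_cast at h3
    exact h3.trans (Nat.floor_le (by linarith))
  · have h2 : ⌊x⌋₊ < 2 ^ (Nat.log 2 ⌊x⌋₊ + 1) := Nat.lt_pow_succ_log_self (by norm_num) _
    have h3 : ((⌊x⌋₊ + 1 : ℕ) : ℝ) ≤ ((2 ^ (Nat.log 2 ⌊x⌋₊ + 1) : ℕ) : ℝ) := by exact_mod_cast h2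
    push_cast at h3
    have h4 := Nat.lt_floor_add_one x
    calc x < ⌊x⌋₊ + 1 := h4
      _ ≤ 2 ^ (Nat.log 2 ⌊x⌋₊ + 1) := h3
      _ = 2 * 2 ^ (Nat.log 2 ⌊x⌋₊) := by ring

theorem pack1 (K : ℝ) (hK : 1 ≤ K) : ∃ C : ℝ, 0 ≤ C ∧ ∀ (k : ℕ) (R : Fin k → E3)
    (_ : Function.Injective R) (v : E3) (_ : ∀ j, v ≠ R j),
    ∑ j, (if ‖v - R j‖ * (⨆ l, ‖R j - R l‖⁻¹) ≤ K then ‖v - R j‖⁻¹ else 0) ≤
      C * ⨆ j, ‖v - R j‖⁻¹ := by
  refine ⟨250 * K ^ 3, by positivity, fun k R hR v hv => ?_⟩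
  rw [← Finset.sum_filter]
  obtain ⟨D, hD⟩ : ∃ D, D = ⨆ j, ‖v - R j‖⁻¹ := ⟨_, rfl⟩
  have hle : ∀ j, ‖v - R j‖⁻¹ ≤ D := fun j => by
    rw [hD]
    exact le_ciSup (f := fun j => ‖v - R j‖⁻¹) (Set.finite_range _).bddAbove j
  have hp : ∀ j, 0 < ‖v - R j‖ := fun j => norm_pos_iff.2 (sub_ne_zero.2 (hv j))
  rw [← hD]
  rcases Nat.eq_zero_or_pos k with hk | hk
  · subst hk
    simp [hD]
  have hD0 : 0 < D := lt_of_lt_of_le (inv_pos.2 (hp ⟨0, hk⟩)) (hle ⟨0, hk⟩)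
  have h1 : ∀ j, 1 ≤ ‖v - R j‖ * D := fun j => by
    have := mul_le_mul_of_nonneg_left (hle j) (hp j).le
    rwa [mul_inv_cancel₀ (hp j).ne'] at this
  refine (dya (univ.filter fun j => ‖v - R j‖ * (⨆ l, ‖R j - R l‖⁻¹) ≤ K)
    (fun j => Nat.log 2 ⌊‖v - R j‖ * D⌋₊) (fun j => ‖v - R j‖⁻¹) D (125 * K ^ 3) hD0.le
    (by positivity) ?_ ?_).trans (le_of_eq (by ring))
  · intro j _
    have h2 := (cls _ (h1 j)).1
    have h3 : (0 : ℝ) < 2 ^ (Nat.log 2 ⌊‖v - R j‖ * D⌋₊) := by positivity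
    simp only [one_div, inv_pow, ← div_eq_mul_inv]
    rw [inv_eq_one_div, div_le_div_iff₀ (hp j) h3, one_mul]
    linarith [mul_comm D ‖v - R j‖]
  · intro n
    refine cnt K hK R v (2 ^ n / D) (by positivity) _ ?_ ?_
    · intro j hj
      rw [Finset.mem_filter, Finset.mem_filter] at hj
      have h2 := (cls _ (h1 j)).2
      rw [hj.2] at h2
      rw [← mul_div_assoc, le_div_iff₀ hD0]
      exact h2.le
    · intro j hj l hl hjl
      rw [Finset.mem_filter, Finset.mem_filter] at hj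
      have h2 := (cls _ (h1 j)).1
      rw [hj.2] at h2
      refine le_trans ?_ (sep K hK R hR _ j l hjl (hp j) hj.1.2)
      apply div_le_div_of_nonneg_right _ (by linarith)
      rw [div_le_iff₀ hD0]
      exact h2

theorem pack2 (K : ℝ) (hK : 1 ≤ K) : ∃ C : ℝ, 0 ≤ C ∧ ∀ (k : ℕ) (R : Fin k → E3)
    (_ : Function.Injective R) (v : E3) (s : ℝ) (_ : 0 < s) (r : Fin k → ℝ)
    (_ : ∀ j, 0 < r j ∧ r j ≤ s ∧ r j * (⨆ l, ‖R j - R l‖⁻¹) ≤ K),
    ∑ j, (if ‖v - R j‖ < r j then r j else 0) ≤ C * s := by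
  refine ⟨250 * K ^ 3, by positivity, fun k R hR v s hs r hr => ?_⟩
  rw [← Finset.sum_filter]
  have h1 : ∀ j, 1 ≤ s / r j := fun j => by
    rw [le_div_iff₀ (hr j).1, one_mul]
    exact (hr j).2.1
  refine (dya (univ.filter fun j => ‖v - R j‖ < r j)
    (fun j => Nat.log 2 ⌊s / r j⌋₊) r s (125 * K ^ 3) hs.le
    (by positivity) ?_ ?_).trans (le_of_eq (by ring))
  · intro j _
    have h2 := (cls _ (h1 j)).1
    have h3 : (0 : ℝ) < 2 ^ (Nat.log 2 ⌊s / r j⌋₊) := by positivity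
    simp only [one_div, inv_pow, ← div_eq_mul_inv]
    rw [le_div_iff₀ h3, mul_comm]
    rw [le_div_iff₀ (hr j).1] at h2
    exact h2
  · intro n
    have h3 : (0 : ℝ) < 2 ^ n := by positivity
    have key : ∀ j, Nat.log 2 ⌊s / r j⌋₊ = n → s / 2 ^ (n + 1) ≤ r j ∧ r j ≤ 2 * (s / 2 ^ (n + 1)) := by
      intro j hj
      have h2 := cls _ (h1 j)
      rw [hj] at h2
      constructor
      · rw [div_le_iff₀ (by positivity)]
        have h4 := (div_lt_iff₀ (hr j).1).1 h2.2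
        rw [pow_succ]
        nlinarith
      · have h4 := (le_div_iff₀ (hr j).1).1 h2.1
        rw [pow_succ, ← mul_div_assoc, le_div_iff₀ (by positivity)]
        nlinarith
    refine cnt K hK R v (s / 2 ^ (n + 1)) (by positivity) _ ?_ ?_
    · intro j hj
      rw [Finset.mem_filter, Finset.mem_filter] at hj
      exact hj.1.2.le.trans (key j hj.2).2
    · intro j hj l hl hjl
      rw [Finset.mem_filter, Finset.mem_filter] at hj
      refine le_trans ?_ (sep K hK R hR _ j l hjl (hr j).1 (hr j).2.2)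
      apply div_le_div_of_nonneg_right (key j hj.2).1 (by linarith)

end H6.CX
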