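import Pool.Agent.H6.CX.RdF
import Pool.Agent.H6.CX.KkA
import Pool.Agent.H6.CX.Pack
import Pool.Agent.H6.CX.EAlg
import Pool.Agent.H6.CB.PhL2
import Pool.Agent.H6.CM.UBd

/-! The potential of the smeared charges and of the point charges: `phi z p v - ua χ K s z p v = ∑ i, cg z i * kk (chr χ (rd K s p i)) (v - ps p i)`. `cmp1`: for `v` different from all particles, `|kk (chr χ r) (v - y)| ≤ ‖v - y‖⁻¹ 1[‖v - y‖ < r / 2]` (`kk_chr`). Electrons: with `m = #{a | ‖v - x a‖ < r a / 2}`, the square of the sum is at most `m * ∑ ‖v - x a‖⁻¹ ^ 2`, and `m ≤ ce p (x a) 1` for each of these `a` (their mutual distances are less than `1`); integrate over the ball: only `a` with `‖x a - x‖ < 2` contribute, `∫ ‖v - x a‖⁻¹ ^ 2 1[‖v - x a‖ < r a] ≤ C r a` (`inv_sq`), and `r a * ce p (x a) 1 ≤ s * ce p (x a) 1 ^ (2/3)` (`rd_e2`), `ce p (x a) 1 ≤ ce p x 3`, so the sum is at most `C ce p x 3 * ce p x 3 ^ (2/3)`. Nuclei: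 where `‖v - R j‖ < r j` one has `‖v - R j‖ * iD p (R j) ≤ K` (`rd_n1`), so by `pack1` the sum is at most `C * D`, `D = ⨆ ‖v - R j‖⁻¹` over `j`, and it vanishes unless `D ≥ 4`; `D ^ 2 ≤ ∑ j, ‖v - R j‖⁻¹ ^ 2 1[‖v - R j‖ < 1]` in that case. `cmp2`: `∫ |kk (chr χ r)| ≤ C r ^ 2`, `χ ^ 2` bounded; only particles at distance less than `1` of `y` contribute; `∫ v, χ (v - y) ^ 2 * ‖v - x‖⁻¹ = U χ (x - y)` (`U_trans`, `U_neg`), so `av χ z c p y = ∫ v, χ (v - y) ^ 2 * (phi z p v - c)`. -/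

open MeasureTheory Finset

namespace H6.CX

open H6.CM H6.CB H6.CL H6.CT

/-- pointwise bound of the short range kernel -/
private theorem cu_kk {χ : E3 → ℝ} (hχ : Bump χ) {r : ℝ} (hr : 0 < r) {w : E3} (hw : w ≠ 0) :
    0 ≤ kk (chr χ r) w ∧ kk (chr χ r) w ≤ if ‖w‖ < r / 2 then ‖w‖⁻¹ else 0 := by
  obtain ⟨C, -, hC⟩ := kk_chr hχ
  obtain ⟨h1, h2, h3, -, -⟩ := hC r hr
  refine ⟨h2 w hw, ?_⟩
  split_ifs with h
  · exact h3 w
  · exact (h1 w (not_lt.1 h)).le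

private theorem cu_diff {n k : ℕ} (χ : E3 → ℝ) (K s : ℝ) (z : Fin k → ℝ) (p : Cfg n k) (v : E3) :
    phi z p v - ua χ K s z p v = ∑ j, z j * kk (chr χ (rd K s p (Sum.inr j))) (v - p.2 j) -
      ∑ a, kk (chr χ (rd K s p (Sum.inl a))) (v - p.1 a) := by
  unfold phi ua uu kk
  rw [Fintype.sum_sum_type]
  simp only [cg, ps, Sum.elim_inl, Sum.elim_inr, mul_sub, Finset.sum_sub_distrib, neg_mul, one_mul,
    Finset.sum_neg_distrib]
  ring

private theorem cu_se {n : ℕ} (x : Fin n → E3) (r : Fin n → ℝ) (hr : ∀ a, r a ≤ 1 / 4)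
    (hr0 : ∀ a, 0 < r a) (v : E3) :
    (∑ a, if ‖v - x a‖ < r a / 2 then ‖v - x a‖⁻¹ else 0) ^ 2 ≤
      ∑ a, (∑ b, if ‖x b - x a‖ < 1 then (1 : ℝ) else 0) *
        (if ‖v - x a‖ < r a then ‖v - x a‖⁻¹ ^ 2 else 0) := by
  classical
  rw [← Finset.sum_filter]
  set I := univ.filter (fun a => ‖v - x a‖ < r a / 2) with hI
  have h1 := sq_sum_le_card_mul_sum_sq (s := I) (f := fun a => ‖v - x a‖⁻¹)
  refine h1.trans ?_
  rw [Finset.mul_sum]
  have h2 : ∀ a ∈ I, (I.card : ℝ) * ‖v - x a‖⁻¹ ^ 2 ≤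
      (∑ b, if ‖x b - x a‖ < 1 then (1 : ℝ) else 0) *
        (if ‖v - x a‖ < r a then ‖v - x a‖⁻¹ ^ 2 else 0) := by
    intro a ha
    have ha' := (Finset.mem_filter.1 ha).2
    rw [if_pos (show ‖v - x a‖ < r a by linarith [hr0 a])]
    refine mul_le_mul_of_nonneg_right ?_ (by positivity)
    rw [Finset.sum_boole]
    have h4 : I ⊆ univ.filter (fun b => ‖x b - x a‖ < 1) := by
      intro b hb
      have hb' := (Finset.mem_filter.1 hb).2
      rw [Finset.mem_filter]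
      refine ⟨mem_univ _, ?_⟩
      have h3 : ‖x b - x a‖ ≤ ‖v - x a‖ + ‖v - x b‖ := by
        have h5 : x b - x a = (v - x a) - (v - x b) := by abel
        rw [h5]
        exact norm_sub_le _ _
      linarith [hr a, hr b]
    exact_mod_cast Finset.card_le_card h4
  refine (Finset.sum_le_sum h2).trans ?_
  refine Finset.sum_le_sum_of_subset_of_nonneg (Finset.subset_univ _) fun a _ _ => ?_
  refine mul_nonneg (Finset.sum_nonneg fun b _ => ?_) ?_
  · split_ifs <;> norm_num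
  · split_ifs
    · positivity
    · exact le_rfl

private theorem cu_sn (K : ℝ) (hK : 1 ≤ K) : ∃ C : ℝ, 0 ≤ C ∧ ∀ (k : ℕ) (R : Fin k → E3)
    (_ : Function.Injective R) (r : Fin k → ℝ)
    (_ : ∀ j, 0 < r j ∧ r j ≤ 1 / 4 ∧ r j * (⨆ l, ‖R j - R l‖⁻¹) ≤ K) (v : E3) (_ : ∀ j, v ≠ R j),
    (∑ j, if ‖v - R j‖ < r j / 2 then ‖v - R j‖⁻¹ else 0) ^ 2 ≤
      C * ∑ j, (if ‖v - R j‖ < 1 then ‖v - R j‖⁻¹ ^ 2 else 0) := by
  obtain ⟨C, hC, hp⟩ := pack1 K hK
  refine ⟨C ^ 2, by positivity, fun k R hR r hr v hv => ?_⟩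
  have hpos : ∀ j, 0 ≤ (if ‖v - R j‖ < 1 then ‖v - R j‖⁻¹ ^ 2 else 0) := by
    intro j
    split_ifs
    · positivity
    · exact le_rfl
  by_cases h0 : ∃ j, ‖v - R j‖ < r j / 2
  · obtain ⟨j, hj⟩ := h0
    have hne : Nonempty (Fin k) := ⟨j⟩
    obtain ⟨j0, hj0⟩ := exists_eq_ciSup_of_finite (f := fun j => ‖v - R j‖⁻¹)
    have hle : ∀ i, ‖v - R i‖⁻¹ ≤ ‖v - R j0‖⁻¹ := by
      intro i
      have h1 := le_ciSup (f := fun j => ‖v - R j‖⁻¹) (Set.finite_range _).bddAbove i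
      rw [← hj0] at h1
      exact h1
    have h1 : ∑ j, (if ‖v - R j‖ < r j / 2 then ‖v - R j‖⁻¹ else 0) ≤ C * ‖v - R j0‖⁻¹ := by
      have h2 := hp k R hR v hv
      rw [← hj0] at h2
      refine le_trans (Finset.sum_le_sum fun i _ => ?_) h2
      by_cases h : ‖v - R i‖ < r i / 2
      · rw [if_pos h, if_pos]
        obtain ⟨h3, h4, h5⟩ := hr i
        have h6 : 0 ≤ ⨆ l, ‖R i - R l‖⁻¹ := Real.iSup_nonneg fun l => inv_nonneg.2 (norm_nonneg _)
        refine le_trans ?_ h5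
        exact mul_le_mul_of_nonneg_right (by linarith) h6
      · rw [if_neg h]
        split_ifs
        · positivity
        · exact le_rfl
    have h4 : 0 < ‖v - R j‖ := norm_pos_iff.2 (sub_ne_zero.2 (hv j))
    have h5 : 0 < ‖v - R j0‖ := norm_pos_iff.2 (sub_ne_zero.2 (hv j0))
    have h6 : ‖v - R j0‖ ≤ ‖v - R j‖ := (inv_le_inv₀ h4 h5).1 (hle j)
    have h7 : ‖v - R j0‖ < 1 := by
      have := hr j
      linarith
    have h8 : ‖v - R j0‖⁻¹ ^ 2 ≤ ∑ j, (if ‖v - R j‖ < 1 then ‖v - R j‖⁻¹ ^ 2 else 0) := by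
      have h9 := Finset.single_le_sum (f := fun j => if ‖v - R j‖ < 1 then ‖v - R j‖⁻¹ ^ 2 else 0)
        (fun i _ => hpos i) (mem_univ j0)
      rwa [if_pos h7] at h9
    have h10 : 0 ≤ ∑ j, (if ‖v - R j‖ < r j / 2 then ‖v - R j‖⁻¹ else 0) := by
      refine Finset.sum_nonneg fun i _ => ?_
      split_ifs
      · positivity
      · exact le_rfl
    calc (∑ j, (if ‖v - R j‖ < r j / 2 then ‖v - R j‖⁻¹ else 0)) ^ 2
        ≤ (C * ‖v - R j0‖⁻¹) ^ 2 := pow_le_pow_left₀ h10 h1 2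
      _ = C ^ 2 * ‖v - R j0‖⁻¹ ^ 2 := by ring
      _ ≤ _ := mul_le_mul_of_nonneg_left h8 (by positivity)
  · have h1 : ∑ j, (if ‖v - R j‖ < r j / 2 then ‖v - R j‖⁻¹ else 0) = 0 :=
      Finset.sum_eq_zero fun j _ => if_neg fun h => h0 ⟨j, h⟩
    rw [h1]
    have h2 := Finset.sum_nonneg (s := univ) fun j _ => hpos j
    have h3 : 0 ≤ C ^ 2 * ∑ j, (if ‖v - R j‖ < 1 then ‖v - R j‖⁻¹ ^ 2 else 0) :=
      mul_nonneg (by positivity) h2
    linarith

private theorem cu_ball : ∃ C : ℝ, 0 ≤ C ∧ ∀ (y x : E3) (r : ℝ), 0 < r → r ≤ 1 →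
    Integrable (fun v : E3 => if ‖v - y‖ < r then ‖v - y‖⁻¹ ^ 2 else 0) ∧
    ∫ v in Metric.ball x 1, (if ‖v - y‖ < r then ‖v - y‖⁻¹ ^ 2 else 0) ≤
      if ‖y - x‖ < 2 then C * r else 0 := by
  obtain ⟨C, hC, h⟩ := inv_sq
  refine ⟨C, hC, fun y x r hr hr1 => ?_⟩
  obtain ⟨h1, h2⟩ := h y r hr
  have e : (fun v : E3 => if ‖v - y‖ < r then ‖v - y‖⁻¹ ^ 2 else 0) =
      (Metric.ball y r).indicator (fun v => ‖v - y‖⁻¹ ^ 2) := by
    funext v
    by_cases hv : ‖v - y‖ < r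
    · rw [if_pos hv, Set.indicator_of_mem (by rwa [Metric.mem_ball, dist_eq_norm])]
    · rw [if_neg hv, Set.indicator_of_notMem (by rwa [Metric.mem_ball, dist_eq_norm])]
  have h3 : Integrable (fun v : E3 => if ‖v - y‖ < r then ‖v - y‖⁻¹ ^ 2 else 0) := by
    rw [e, integrable_indicator_iff Metric.isOpen_ball.measurableSet]
    exact h1
  refine ⟨h3, ?_⟩
  by_cases hx : ‖y - x‖ < 2
  · rw [if_pos hx]
    calc ∫ v in Metric.ball x 1, (if ‖v - y‖ < r then ‖v - y‖⁻¹ ^ 2 else 0)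
        ≤ ∫ v, (if ‖v - y‖ < r then ‖v - y‖⁻¹ ^ 2 else 0) := by
          refine setIntegral_le_integral h3 (Filter.Eventually.of_forall fun v => ?_)
          show (0 : ℝ) ≤ if ‖v - y‖ < r then ‖v - y‖⁻¹ ^ 2 else 0
          split_ifs
          · positivity
          · exact le_rfl
      _ = ∫ v in Metric.ball y r, ‖v - y‖⁻¹ ^ 2 := by
          rw [e, integral_indicator measurableSet_ball]
      _ ≤ C * r := h2
  · rw [if_neg hx]
    have h4 : ∀ v ∈ Metric.ball x 1, (if ‖v - y‖ < r then ‖v - y‖⁻¹ ^ 2 else 0) = (0 : ℝ) := by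
      intro v hv
      rw [Metric.mem_ball, dist_eq_norm] at hv
      rw [if_neg]
      intro h5
      have h6 : ‖y - x‖ ≤ ‖v - x‖ + ‖v - y‖ := by
        have h7 : y - x = (v - x) - (v - y) := by abel
        rw [h7]
        exact norm_sub_le _ _
      linarith
    rw [setIntegral_congr_fun measurableSet_ball h4]
    simp

private theorem cu_ce {n k : ℕ} (p : Cfg n k) (y x : E3) (r r' : ℝ) (h : ‖y - x‖ + r ≤ r') :
    ce p y r ≤ ce p x r' := by
  unfold ce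
  refine Finset.sum_le_sum fun a _ => ?_
  by_cases h1 : ‖p.1 a - y‖ < r
  · rw [if_pos h1, if_pos]
    have h6 : ‖p.1 a - x‖ ≤ ‖p.1 a - y‖ + ‖y - x‖ := by
      have h7 : p.1 a - x = (p.1 a - y) + (y - x) := by abel
      rw [h7]
      exact norm_add_le _ _
    linarith
  · rw [if_neg h1]
    split_ifs <;> norm_num

private theorem cu_ce0 {n k : ℕ} (p : Cfg n k) (x : E3) (r : ℝ) : 0 ≤ ce p x r := by
  unfold ce
  refine Finset.sum_nonneg fun a _ => ?_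
  split_ifs <;> norm_num

private theorem cu_cn0 {n k : ℕ} (p : Cfg n k) (x : E3) (r : ℝ) : 0 ≤ cn p x r := by
  unfold cn
  refine Finset.sum_nonneg fun a _ => ?_
  split_ifs <;> norm_num

private theorem cu_esum (K s : ℝ) (hK : 1 ≤ K) (hs : 0 < s) (hs1 : s ≤ 1 / 4) {n k : ℕ} (p : Cfg n k)
    (x : E3) (C : ℝ) (hC : 0 ≤ C) :
    ∑ a, ce p (p.1 a) 1 * (if ‖p.1 a - x‖ < 2 then C * rd K s p (Sum.inl a) else 0) ≤
      C * ce p x 3 ^ (5 / 3 : ℝ) := by
  have h1 : ∀ a, ce p (p.1 a) 1 * (if ‖p.1 a - x‖ < 2 then C * rd K s p (Sum.inl a) else 0) ≤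
      (if ‖p.1 a - x‖ < 3 then 1 else 0) * (C * ce p x 3 ^ (2 / 3 : ℝ)) := by
    intro a
    by_cases h : ‖p.1 a - x‖ < 2
    · rw [if_pos h, if_pos (show ‖p.1 a - x‖ < 3 by linarith), one_mul]
      have h2 : 1 ≤ ce p (p.1 a) 1 := ce_self p a
      have h3 : ce p (p.1 a) 1 ≤ ce p x 3 := cu_ce p _ _ _ _ (by linarith)
      have h4 := rd_e2 K s hK hs p a
      have h5 : ce p (p.1 a) 1 = ce p (p.1 a) 1 ^ (1 / 3 : ℝ) * ce p (p.1 a) 1 ^ (2 / 3 : ℝ) := by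
        rw [← Real.rpow_add (by linarith)]
        norm_num
      have h6 : ce p (p.1 a) 1 ^ (2 / 3 : ℝ) ≤ ce p x 3 ^ (2 / 3 : ℝ) :=
        Real.rpow_le_rpow (by linarith) h3 (by norm_num)
      have h7 : 0 ≤ ce p (p.1 a) 1 ^ (2 / 3 : ℝ) := Real.rpow_nonneg (by linarith) _
      calc ce p (p.1 a) 1 * (C * rd K s p (Sum.inl a))
          = C * (rd K s p (Sum.inl a) * ce p (p.1 a) 1) := by ring
        _ = C * (rd K s p (Sum.inl a) *
              (ce p (p.1 a) 1 ^ (1 / 3 : ℝ) * ce p (p.1 a) 1 ^ (2 / 3 : ℝ))) := by rw [← h5]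
        _ = C * ((rd K s p (Sum.inl a) * ce p (p.1 a) 1 ^ (1 / 3 : ℝ)) *
              ce p (p.1 a) 1 ^ (2 / 3 : ℝ)) := by ring
        _ ≤ C * (1 * ce p (p.1 a) 1 ^ (2 / 3 : ℝ)) :=
            mul_le_mul_of_nonneg_left (mul_le_mul_of_nonneg_right (by linarith) h7) hC
        _ ≤ C * ce p x 3 ^ (2 / 3 : ℝ) := by
            rw [one_mul]
            exact mul_le_mul_of_nonneg_left h6 hC
    · rw [if_neg h, mul_zero]
      have := cu_ce0 p x 3
      refine mul_nonneg ?_ (by positivity)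
      split_ifs <;> norm_num
  refine (Finset.sum_le_sum fun a _ => h1 a).trans ?_
  rw [← Finset.sum_mul]
  have h2 : ce p x 3 ^ (5 / 3 : ℝ) = ce p x 3 ^ (2 / 3 : ℝ) * ce p x 3 := by
    have h3 := Real.rpow_add_one' (x := ce p x 3) (y := 2 / 3) (cu_ce0 p x 3) (by norm_num)
    rw [← h3]
    norm_num
  rw [h2]
  have h4 : ∑ a, (if ‖p.1 a - x‖ < 3 then (1 : ℝ) else 0) = ce p x 3 := rfl
  rw [h4]
  exact le_of_eq (by ring)

private theorem cu_ptw (K s : ℝ) (hK : 1 ≤ K) (hs : 0 < s) (hs1 : s ≤ 1 / 4) {χ : E3 → ℝ} (hχ : Bump χ)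
    (zp : ℝ) {n k : ℕ} (z : Fin k → ℝ) (hz : ∀ j, 0 ≤ z j ∧ z j ≤ zp) (p : Cfg n k)
    (v : E3) (hv1 : ∀ a, v ≠ p.1 a) (hv2 : ∀ j, v ≠ p.2 j) :
    (phi z p v - ua χ K s z p v) ^ 2 ≤
      zp ^ 2 * (∑ j, if ‖v - p.2 j‖ < rd K s p (Sum.inr j) / 2 then ‖v - p.2 j‖⁻¹ else 0) ^ 2 +
      (∑ a, if ‖v - p.1 a‖ < rd K s p (Sum.inl a) / 2 then ‖v - p.1 a‖⁻¹ else 0) ^ 2 := by
  rw [cu_diff]
  have h1 : ∀ j, 0 ≤ kk (chr χ (rd K s p (Sum.inr j))) (v - p.2 j) ∧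
      kk (chr χ (rd K s p (Sum.inr j))) (v - p.2 j) ≤
        if ‖v - p.2 j‖ < rd K s p (Sum.inr j) / 2 then ‖v - p.2 j‖⁻¹ else 0 :=
    fun j => cu_kk hχ (rd_pos K s hK hs p _) (sub_ne_zero.2 (hv2 j))
  have h2 : ∀ a, 0 ≤ kk (chr χ (rd K s p (Sum.inl a))) (v - p.1 a) ∧
      kk (chr χ (rd K s p (Sum.inl a))) (v - p.1 a) ≤
        if ‖v - p.1 a‖ < rd K s p (Sum.inl a) / 2 then ‖v - p.1 a‖⁻¹ else 0 :=
    fun a => cu_kk hχ (rd_pos K s hK hs p _) (sub_ne_zero.2 (hv1 a))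
  have h3 : 0 ≤ ∑ j, z j * kk (chr χ (rd K s p (Sum.inr j))) (v - p.2 j) :=
    Finset.sum_nonneg fun j _ => mul_nonneg (hz j).1 (h1 j).1
  have h4 : 0 ≤ ∑ a, kk (chr χ (rd K s p (Sum.inl a))) (v - p.1 a) :=
    Finset.sum_nonneg fun a _ => (h2 a).1
  have h5 : ∑ j, z j * kk (chr χ (rd K s p (Sum.inr j))) (v - p.2 j) ≤
      zp * ∑ j, (if ‖v - p.2 j‖ < rd K s p (Sum.inr j) / 2 then ‖v - p.2 j‖⁻¹ else 0) := by
    rw [Finset.mul_sum]
    refine Finset.sum_le_sum fun j _ => ?_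
    exact mul_le_mul (hz j).2 (h1 j).2 (h1 j).1 ((hz j).1.trans (hz j).2)
  have h6 : ∑ a, kk (chr χ (rd K s p (Sum.inl a))) (v - p.1 a) ≤
      ∑ a, (if ‖v - p.1 a‖ < rd K s p (Sum.inl a) / 2 then ‖v - p.1 a‖⁻¹ else 0) :=
    Finset.sum_le_sum fun a _ => (h2 a).2
  have h7 := pow_le_pow_left₀ h3 h5 2
  have h8 := pow_le_pow_left₀ h4 h6 2
  rw [mul_pow] at h7
  have h9 := mul_nonneg h3 h4
  refine le_trans ?_ (add_le_add h7 h8)
  rw [sub_sq]
  linarith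

private theorem cu_meas (K s : ℝ) (hK : 1 ≤ K) (hs : 0 < s) {χ : E3 → ℝ} (hχ : Bump χ)
    {n k : ℕ} (z : Fin k → ℝ) (p : Cfg n k) : Measurable (fun v => phi z p v - ua χ K s z p v) := by
  have hk : ∀ (i : Fin n ⊕ Fin k) (y : E3),
      Measurable (fun v : E3 => kk (chr χ (rd K s p i)) (v - y)) := by
    intro i y
    unfold kk
    exact (measurable_id.sub_const y).norm.inv.sub
      ((U_cont hχ _ (rd_pos K s hK hs p i)).measurable.comp (measurable_id.sub_const y))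
  have h1 : (fun v => phi z p v - ua χ K s z p v) = fun v =>
      ∑ j, z j * kk (chr χ (rd K s p (Sum.inr j))) (v - p.2 j) -
      ∑ a, kk (chr χ (rd K s p (Sum.inl a))) (v - p.1 a) := funext fun v => cu_diff χ K s z p v
  rw [h1]
  exact (Finset.measurable_sum _ fun j _ => (hk _ _).const_mul _).sub
    (Finset.measurable_sum _ fun a _ => hk _ _)

theorem cmp1 (zp K : ℝ) (hK : 1 ≤ K) {χ : E3 → ℝ} (hχ : Bump χ) : ∃ C : ℝ, 0 ≤ C ∧
    ∀ (s : ℝ) (_ : 0 < s) (_ : s ≤ 1 / 4) (n k : ℕ) (z : Fin k → ℝ)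
    (_ : ∀ j, 0 ≤ z j ∧ z j ≤ zp) (p : Cfg n k) (_ : Function.Injective p.1)
    (_ : Function.Injective p.2) (x : E3),
    IntegrableOn (fun v => (phi z p v - ua χ K s z p v) ^ 2) (Metric.ball x 1) ∧
    ∫ v in Metric.ball x 1, (phi z p v - ua χ K s z p v) ^ 2 ≤
      C * (ce p x 3 ^ (5 / 3 : ℝ) + cn p x 3) := by
  obtain ⟨C1, hC1, hsn⟩ := cu_sn K hK
  obtain ⟨C2, hC2, hball⟩ := cu_ball
  refine ⟨zp ^ 2 * C1 * C2 + C2, by positivity, ?_⟩
  intro s hs hs1 n k z hz p hp1 hp2 x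
  have hrd : ∀ i, 0 < rd K s p i ∧ rd K s p i ≤ 1 / 4 := fun i =>
    ⟨rd_pos K s hK hs p i, (rd_le K s hK hs p i).trans hs1⟩
  obtain ⟨Fn, hFn⟩ : ∃ F : Fin k → E3 → ℝ, F = fun j v =>
    if ‖v - p.2 j‖ < 1 then ‖v - p.2 j‖⁻¹ ^ 2 else 0 := ⟨_, rfl⟩
  obtain ⟨Fe, hFe⟩ : ∃ F : Fin n → E3 → ℝ, F = fun a v =>
    if ‖v - p.1 a‖ < rd K s p (Sum.inl a) then ‖v - p.1 a‖⁻¹ ^ 2 else 0 := ⟨_, rfl⟩
  have hFni : ∀ j, Integrable (Fn j) ∧ ∫ v in Metric.ball x 1, Fn j v ≤ if ‖p.2 j - x‖ < 2 then C2 * 1 else 0 := by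
    intro j
    rw [hFn]
    exact hball (p.2 j) x 1 one_pos le_rfl
  have hFei : ∀ a, Integrable (Fe a) ∧ ∫ v in Metric.ball x 1, Fe a v ≤
      if ‖p.1 a - x‖ < 2 then C2 * rd K s p (Sum.inl a) else 0 := by
    intro a
    rw [hFe]
    exact hball (p.1 a) x _ (hrd _).1 (by linarith [(hrd (Sum.inl a)).2])
  obtain ⟨G, hG⟩ : ∃ G : E3 → ℝ, G = fun v => zp ^ 2 * C1 * ∑ j, Fn j v +
    ∑ a, ce p (p.1 a) 1 * Fe a v := ⟨_, rfl⟩
  have hG1 : Integrable (fun v => zp ^ 2 * C1 * ∑ j, Fn j v) :=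
    (integrable_finsetSum _ fun j _ => (hFni j).1).const_mul _
  have hG2 : Integrable (fun v => ∑ a, ce p (p.1 a) 1 * Fe a v) :=
    integrable_finsetSum _ fun a _ => (hFei a).1.const_mul _
  have hGi : Integrable G := by
    rw [hG]
    exact hG1.add hG2
  have hae : ∀ᵐ v : E3, (phi z p v - ua χ K s z p v) ^ 2 ≤ G v := by
    have h1 : ∀ᵐ v : E3, v ∉ Set.range p.1 := (Set.finite_range p.1).countable.ae_notMem _
    have h2 : ∀ᵐ v : E3, v ∉ Set.range p.2 := (Set.finite_range p.2).countable.ae_notMem _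
    filter_upwards [h1, h2] with v hv1 hv2
    have hv1' : ∀ a, v ≠ p.1 a := fun a h => hv1 ⟨a, h.symm⟩
    have hv2' : ∀ j, v ≠ p.2 j := fun j h => hv2 ⟨j, h.symm⟩
    refine (cu_ptw K s hK hs hs1 hχ zp z hz p v hv1' hv2').trans ?_
    rw [hG]
    refine add_le_add ?_ ?_
    · have h3 := hsn k p.2 hp2 (fun j => rd K s p (Sum.inr j))
        (fun j => ⟨(hrd _).1, (hrd _).2, rd_n1 K s hK hs p j⟩) v hv2'
      calc zp ^ 2 * (∑ j, if ‖v - p.2 j‖ < rd K s p (Sum.inr j) / 2 then ‖v - p.2 j‖⁻¹ else 0) ^ 2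
          ≤ zp ^ 2 * (C1 * ∑ j, (if ‖v - p.2 j‖ < 1 then ‖v - p.2 j‖⁻¹ ^ 2 else 0)) :=
            mul_le_mul_of_nonneg_left h3 (by positivity)
        _ = zp ^ 2 * C1 * ∑ j, Fn j v := by
            rw [hFn]
            ring
    · have h3 := cu_se p.1 (fun a => rd K s p (Sum.inl a)) (fun a => (hrd _).2) (fun a => (hrd _).1) v
      rw [hFe]
      exact h3
  have hint : Integrable (fun v => (phi z p v - ua χ K s z p v) ^ 2) := by
    refine hGi.mono' ((cu_meas K s hK hs hχ z p).pow_const 2).aestronglyMeasurable ?_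
    filter_upwards [hae] with v hv
    rw [Real.norm_of_nonneg (sq_nonneg _)]
    exact hv
  refine ⟨hint.integrableOn, ?_⟩
  have h1 : ∫ v in Metric.ball x 1, (phi z p v - ua χ K s z p v) ^ 2 ≤ ∫ v in Metric.ball x 1, G v :=
    integral_mono_ae hint.integrableOn hGi.integrableOn (ae_restrict_of_ae hae)
  refine h1.trans ?_
  have h2 : ∫ v in Metric.ball x 1, G v = zp ^ 2 * C1 * (∑ j, ∫ v in Metric.ball x 1, Fn j v) +
      ∑ a, ce p (p.1 a) 1 * ∫ v in Metric.ball x 1, Fe a v := by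
    rw [hG, integral_add hG1.integrableOn hG2.integrableOn, integral_const_mul,
      integral_finsetSum _ fun j _ => (hFni j).1.integrableOn,
      integral_finsetSum _ fun a _ => ((hFei a).1.const_mul _).integrableOn]
    simp only [integral_const_mul]
  rw [h2]
  have h3 : ∑ j, ∫ v in Metric.ball x 1, Fn j v ≤ C2 * cn p x 3 := by
    unfold cn
    rw [Finset.mul_sum]
    refine Finset.sum_le_sum fun j _ => ?_
    refine (hFni j).2.trans ?_
    by_cases h : ‖p.2 j - x‖ < 2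
    · rw [if_pos h, if_pos (by linarith)]
    · rw [if_neg h]
      split_ifs
      · positivity
      · rw [mul_zero]
  have h4 : ∑ a, ce p (p.1 a) 1 * ∫ v in Metric.ball x 1, Fe a v ≤ C2 * ce p x 3 ^ (5 / 3 : ℝ) := by
    refine le_trans (Finset.sum_le_sum fun a _ => ?_) (cu_esum K s hK hs hs1 p x C2 hC2)
    exact mul_le_mul_of_nonneg_left (hFei a).2 (cu_ce0 _ _ _)
  have h5 : 0 ≤ cn p x 3 := cu_cn0 _ _ _
  have h6 : 0 ≤ ce p x 3 ^ (5 / 3 : ℝ) := Real.rpow_nonneg (cu_ce0 _ _ _) _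
  calc zp ^ 2 * C1 * (∑ j, ∫ v in Metric.ball x 1, Fn j v) +
      ∑ a, ce p (p.1 a) 1 * ∫ v in Metric.ball x 1, Fe a v
      ≤ zp ^ 2 * C1 * (C2 * cn p x 3) + C2 * ce p x 3 ^ (5 / 3 : ℝ) :=
        add_le_add (mul_le_mul_of_nonneg_left h3 (by positivity)) h4
    _ = zp ^ 2 * C1 * C2 * cn p x 3 + C2 * ce p x 3 ^ (5 / 3 : ℝ) := by ring
    _ ≤ (zp ^ 2 * C1 * C2 + C2) * cn p x 3 + (zp ^ 2 * C1 * C2 + C2) * ce p x 3 ^ (5 / 3 : ℝ) := by
        refine add_le_add (mul_le_mul_of_nonneg_right (by linarith) h5)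
          (mul_le_mul_of_nonneg_right ?_ h6)
        have : 0 ≤ zp ^ 2 * C1 * C2 := by positivity
        linarith
    _ = (zp ^ 2 * C1 * C2 + C2) * (ce p x 3 ^ (5 / 3 : ℝ) + cn p x 3) := by ring

/-- the part of one particle -/
private theorem cu_part {χ : E3 → ℝ} (hχ : Bump χ) {r : ℝ} (hr : 0 < r) (y q : E3) :
    Integrable (fun v => χ (v - y) ^ 2 * kk (chr χ r) (v - q)) ∧
    Integrable (fun v => χ (v - y) ^ 2 * U (chr χ r) (v - q)) ∧
    U χ (y - q) = (∫ v, χ (v - y) ^ 2 * kk (chr χ r) (v - q)) + ∫ v, χ (v - y) ^ 2 * U (chr χ r) (v - q) := by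
  have h1 : Integrable (fun v => χ (v - y) ^ 2 * ‖v - q‖⁻¹) := by
    have h2 := (U_intble hχ (q - y)).comp_sub_right y
    refine h2.congr (Filter.Eventually.of_forall fun v => ?_)
    simp only
    rw [sub_sub_sub_cancel_right, norm_sub_rev q v]
  have hcs : HasCompactSupport (fun v => χ (v - y) ^ 2) := by
    refine HasCompactSupport.intro (isCompact_closedBall y (1 / 2)) fun v hv => ?_
    have h1 : χ (v - y) = 0 := by
      by_contra h2
      apply hv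
      rw [Metric.mem_closedBall, dist_eq_norm]
      exact (hχ.supp _ h2).le
    rw [h1]
    norm_num
  have h3 : Integrable (fun v => χ (v - y) ^ 2 * U (chr χ r) (v - q)) := by
    refine Continuous.integrable_of_hasCompactSupport ?_ (hcs.mul_right)
    exact ((hχ.smooth.continuous.comp (continuous_id.sub continuous_const)).pow 2).mul
      ((U_cont hχ r hr).comp (continuous_id.sub continuous_const))
  have h4 : (fun v => χ (v - y) ^ 2 * kk (chr χ r) (v - q)) =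
      fun v => χ (v - y) ^ 2 * ‖v - q‖⁻¹ - χ (v - y) ^ 2 * U (chr χ r) (v - q) := by
    funext v
    unfold kk
    ring
  refine ⟨?_, h3, ?_⟩
  · rw [h4]
    exact h1.sub h3
  · rw [h4, integral_sub h1 h3, sub_add_cancel, U_trans hχ q y, ← U_neg hχ (y - q), neg_sub]

/-- its size -/
private theorem cu_small {χ : E3 → ℝ} (hχ : Bump χ) : ∃ C : ℝ, 0 ≤ C ∧ ∀ (r s : ℝ) (_ : 0 < r)
    (_ : r ≤ s) (_ : s ≤ 1 / 4) (y q : E3),
    |∫ v, χ (v - y) ^ 2 * kk (chr χ r) (v - q)| ≤ if ‖q - y‖ < 1 then C * s ^ 2 else 0 := by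
  obtain ⟨C, hC, hk⟩ := kk_chr hχ
  obtain ⟨B, hB⟩ := hχ.cpt.exists_bound_of_continuous hχ.smooth.continuous
  have hB0 : 0 ≤ B := (norm_nonneg _).trans (hB 0)
  refine ⟨B ^ 2 * C, by positivity, fun r s hr hrs hs y q => ?_⟩
  obtain ⟨h1, h2, h3, h4, h5⟩ := hk r hr
  by_cases hq : ‖q - y‖ < 1
  · rw [if_pos hq]
    have h6 : Integrable (fun v => B ^ 2 * |kk (chr χ r) (v - q)|) :=
      ((h4.comp_sub_right q).abs).const_mul _
    have h7 : |∫ v, χ (v - y) ^ 2 * kk (chr χ r) (v - q)| ≤ ∫ v, B ^ 2 * |kk (chr χ r) (v - q)| := by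
      rw [← Real.norm_eq_abs]
      refine norm_integral_le_of_norm_le h6 (Filter.Eventually.of_forall fun v => ?_)
      rw [norm_mul, Real.norm_eq_abs (kk (chr χ r) (v - q)), Real.norm_of_nonneg (sq_nonneg _)]
      refine mul_le_mul_of_nonneg_right ?_ (abs_nonneg _)
      have h8 := hB (v - y)
      rw [Real.norm_eq_abs] at h8
      rw [← sq_abs]
      exact pow_le_pow_left₀ (abs_nonneg _) h8 2
    refine h7.trans ?_
    rw [integral_const_mul, integral_sub_right_eq_self (fun v => |kk (chr χ r) v|) q]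
    calc B ^ 2 * ∫ v, |kk (chr χ r) v| ≤ B ^ 2 * (C * r ^ 2) :=
          mul_le_mul_of_nonneg_left h5 (by positivity)
      _ ≤ B ^ 2 * (C * s ^ 2) := by gcongr
      _ = B ^ 2 * C * s ^ 2 := by ring
  · rw [if_neg hq]
    have h6 : ∀ v, χ (v - y) ^ 2 * kk (chr χ r) (v - q) = 0 := by
      intro v
      by_cases h7 : χ (v - y) = 0
      · rw [h7]
        norm_num
      · have h8 := hχ.supp _ h7
        rw [h1 (v - q) ?_, mul_zero]
        by_contra h9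
        rw [not_le] at h9
        have h10 : ‖q - y‖ ≤ ‖v - y‖ + ‖v - q‖ := by
          have h11 : q - y = (v - y) - (v - q) := by abel
          rw [h11]
          exact norm_sub_le _ _
        linarith
    simp only [h6, integral_zero, abs_zero, le_refl]

theorem cmp2 (zp K : ℝ) (hK : 1 ≤ K) {χ : E3 → ℝ} (hχ : Bump χ) : ∃ C : ℝ, 0 ≤ C ∧
    ∀ (s : ℝ) (_ : 0 < s) (_ : s ≤ 1 / 4) (n k : ℕ) (z : Fin k → ℝ)
    (_ : ∀ j, 0 ≤ z j ∧ z j ≤ zp) (p : Cfg n k) (y : E3) (c : ℝ),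
    |av χ z c p y - ∫ v, χ (v - y) ^ 2 * (ua χ K s z p v - c)| ≤
      C * s ^ 2 * (ce p y 1 + cn p y 1) := by
  obtain ⟨C, hC, hsm⟩ := cu_small hχ
  refine ⟨(1 + |zp|) * C, by positivity, ?_⟩
  intro s hs hs1 n k z hz p y c
  have hrd : ∀ i, 0 < rd K s p i ∧ rd K s p i ≤ s := fun i =>
    ⟨rd_pos K s hK hs p i, rd_le K s hK hs p i⟩
  have hpt : ∀ i : Fin n ⊕ Fin k, _ := fun i => cu_part hχ (hrd i).1 y (ps p i)
  have hcs : HasCompactSupport (fun v => χ (v - y) ^ 2) := by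
    refine HasCompactSupport.intro (isCompact_closedBall y (1 / 2)) fun v hv => ?_
    have h1 : χ (v - y) = 0 := by
      by_contra h2
      apply hv
      rw [Metric.mem_closedBall, dist_eq_norm]
      exact (hχ.supp _ h2).le
    rw [h1]
    norm_num
  have hci : Integrable (fun v => χ (v - y) ^ 2) :=
    Continuous.integrable_of_hasCompactSupport
      ((hχ.smooth.continuous.comp (continuous_id.sub continuous_const)).pow 2) hcs
  have hcn : ∫ v, χ (v - y) ^ 2 = 1 := by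
    rw [integral_sub_right_eq_self (fun v => χ v ^ 2) y, hχ.norm]
  have hav : av χ z c p y = ∑ i, cg z i * U χ (y - ps p i) - c := by
    unfold av
    rw [Fintype.sum_sum_type]
    simp only [cg, ps, Sum.elim_inl, Sum.elim_inr, neg_mul, one_mul, Finset.sum_neg_distrib]
    ring
  have hua : ∫ v, χ (v - y) ^ 2 * (ua χ K s z p v - c) =
      ∑ i, cg z i * (∫ v, χ (v - y) ^ 2 * U (chr χ (rd K s p i)) (v - ps p i)) - c := by
    have h1 : ∀ v, χ (v - y) ^ 2 * (ua χ K s z p v - c) =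
        ∑ i, cg z i * (χ (v - y) ^ 2 * U (chr χ (rd K s p i)) (v - ps p i)) - χ (v - y) ^ 2 * c := by
      intro v
      unfold ua uu
      rw [mul_sub, Finset.mul_sum]
      congr 1
      refine Finset.sum_congr rfl fun i _ => ?_
      ring
    simp only [h1]
    rw [integral_sub (integrable_finsetSum _ fun i _ => (hpt i).2.1.const_mul _) (hci.mul_const c),
      integral_finsetSum _ fun i _ => (hpt i).2.1.const_mul _, integral_mul_const, hcn, one_mul]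
    simp only [integral_const_mul]
  have hdiff : av χ z c p y - ∫ v, χ (v - y) ^ 2 * (ua χ K s z p v - c) =
      ∑ i, cg z i * ∫ v, χ (v - y) ^ 2 * kk (chr χ (rd K s p i)) (v - ps p i) := by
    rw [hav, hua, sub_sub_sub_cancel_right, ← Finset.sum_sub_distrib]
    refine Finset.sum_congr rfl fun i _ => ?_
    rw [(hpt i).2.2]
    ring
  rw [hdiff]
  have hcg : ∀ i : Fin n ⊕ Fin k, |cg z i| ≤ 1 + |zp| := by
    intro i
    rcases i with a | j
    · simp only [cg, Sum.elim_inl, abs_neg, abs_one]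
      linarith [abs_nonneg zp]
    · simp only [cg, Sum.elim_inr]
      rw [abs_of_nonneg (hz j).1]
      linarith [(hz j).2, le_abs_self zp]
  calc |∑ i, cg z i * ∫ v, χ (v - y) ^ 2 * kk (chr χ (rd K s p i)) (v - ps p i)|
      ≤ ∑ i, |cg z i * ∫ v, χ (v - y) ^ 2 * kk (chr χ (rd K s p i)) (v - ps p i)| :=
        Finset.abs_sum_le_sum_abs _ _
    _ ≤ ∑ i, (1 + |zp|) * (if ‖ps p i - y‖ < 1 then C * s ^ 2 else 0) := by
        refine Finset.sum_le_sum fun i _ => ?_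
        rw [abs_mul]
        exact mul_le_mul (hcg i) (hsm _ s (hrd i).1 (hrd i).2 hs1 y (ps p i)) (abs_nonneg _)
          (by positivity)
    _ = (1 + |zp|) * C * s ^ 2 * (ce p y 1 + cn p y 1) := by
        rw [Fintype.sum_sum_type]
        simp only [ps, Sum.elim_inl, Sum.elim_inr]
        unfold ce cn
        rw [mul_add, Finset.mul_sum, Finset.mul_sum]
        congr 1
        · refine Finset.sum_congr rfl fun a _ => ?_
          split_ifs <;> ring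
        · refine Finset.sum_congr rfl fun a _ => ?_
          split_ifs <;> ring

end H6.CX
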