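import Pool.Agent.H6.CX.KkA
import Pool.Agent.H6.CB.Green
import Pool.Agent.H6.CB.MmF
import Pool.Agent.H6.CB.UB
import Pool.Agent.H6.CB.Poten

/-! Green's identity for the short range kernel. `kk_green`: let `F = Jc θ x 2 * f` with a cutoff `θ` (`cut_ex`; `Jc θ x 2 = 1` on the ball of radius `2` around `x`), so `F` is smooth with compact support and `lap F = lap f`, `F = f` on `ball x 2`. `green F`: `∫ y, (-lap F y) * ‖w - y‖⁻¹ = 4 π F w` for all `w`. Multiply by `χ (x - w) ^ 2` and integrate over `w` (Fubini; `χ` even by `radial`): `∫ y, (-lap F y) * U χ (x - y) = 4 π * Mv χ F x` (`U_trans`). Subtract the identity for `w = x`; both `kk χ (x - y)` and `χ (x - y)` vanish for `1 / 2 ≤ ‖x - y‖`, so `F` may be replaced by `f`. `mv_dev`: `kk_green` for the bump `chr χ r` (`chr_bump`, `0 < r ≤ 1`) and `kk_chr` (only `y ∈ ball x r` contribute). -/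

open MeasureTheory Finset

namespace H6.CX

open H6.CM H6.CB H6.CL H6.CT

section

variable {χ : E3 → ℝ} (h : Bump χ)
include h

omit h in
private theorem ki_pd {f : E3 → ℝ} (hf : Cc f) (d : Fin 3) : Cc (pd d f) := by
  refine ⟨?_, ?_⟩
  · exact (hf.1.fderiv_right (m := (⊤ : ℕ∞)) (by simp)).clm_apply contDiff_const
  · exact hf.2.fderiv_apply ℝ _

omit h in
private theorem ki_lap {f : E3 → ℝ} (hf : Cc f) : Cc (lap f) := by
  have h : ∀ d : Fin 3, Cc (pd d (pd d f)) := fun d => ki_pd (ki_pd hf d) d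
  have e : lap f = fun v => pd 0 (pd 0 f) v + pd 1 (pd 1 f) v + pd 2 (pd 2 f) v := by
    funext v
    unfold lap
    rw [Fin.sum_univ_three]
  rw [e]
  exact ⟨((h 0).1.add (h 1).1).add (h 2).1, ((h 0).2.add (h 1).2).add (h 2).2⟩

private theorem ki_chi : Cc (fun v => χ v ^ 2) := by
  refine ⟨h.smooth.pow 2, ?_⟩
  refine HasCompactSupport.intro (isCompact_closedBall (0 : E3) 1) fun v hv => ?_
  by_contra hne
  apply hv
  have h1 : χ v ≠ 0 := fun h0 => hne (by rw [h0]; norm_num)
  have h2 := h.supp v h1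
  rw [mem_closedBall_zero_iff]
  linarith

private theorem ki_cc {F : E3 → ℝ} (hF : Cc F) (x : E3) :
    ∫ y, kk χ (x - y) * (-lap F y) = 4 * Real.pi * (F x - Mv χ F x) := by
  have hL : Cc (lap F) := ki_lap hF
  have hχ := ki_chi h
  set G : E3 → ℝ := fun v => -lap F (x - v) with hGd
  have hG : Cc G := by
    refine ⟨(hL.1.comp (contDiff_const.sub contDiff_id)).neg, ?_⟩
    have h1 : HasCompactSupport (lap F ∘ (Homeomorph.subLeft x)) :=
      hL.2.comp_homeomorph (Homeomorph.subLeft x)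
    exact h1.neg
  have hU : pot (fun v => χ v ^ 2) = U χ := rfl
  have hUc : Continuous (U χ) := by
    rw [← hU]
    exact (pot_smooth _ hχ).continuous
  have e1 : ∀ u, pot G u = 4 * Real.pi * F (x - u) := by
    intro u
    rw [← green F hF (x - u)]
    unfold pot
    rw [← integral_sub_left_eq_self (fun y => (-lap F y) * ‖x - u - y‖⁻¹) volume x]
    refine integral_congr_ae (Filter.Eventually.of_forall fun y => ?_)
    change -lap F (x - y) * ‖u - y‖⁻¹ = -lap F (x - y) * ‖x - u - (x - y)‖⁻¹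
    rw [sub_sub_sub_cancel_left, norm_sub_rev]
  have e2 := Dd_symm _ _ hχ hG
  have e3 : Dd (fun v => χ v ^ 2) G = 4 * Real.pi * Mv χ F x := by
    unfold Dd Mv
    rw [← integral_const_mul,
      ← integral_sub_left_eq_self (fun y => 4 * Real.pi * (χ (x - y) ^ 2 * F y)) volume x]
    refine integral_congr_ae (Filter.Eventually.of_forall fun y => ?_)
    change χ y ^ 2 * pot G y = 4 * Real.pi * (χ (x - (x - y)) ^ 2 * F (x - y))
    rw [e1, sub_sub_cancel]
    ring
  have e4 : Dd G (fun v => χ v ^ 2) = ∫ y, (-lap F y) * U χ (x - y) := by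
    unfold Dd
    rw [hU, ← integral_sub_left_eq_self (fun y => (-lap F y) * U χ (x - y)) volume x]
    refine integral_congr_ae (Filter.Eventually.of_forall fun y => ?_)
    change -lap F (x - y) * U χ y = -lap F (x - y) * U χ (x - (x - y))
    rw [sub_sub_cancel]
  have i1 : Integrable (fun y => kk χ (x - y) * (-lap F y)) := by
    have h1 : Integrable (fun y => kk χ (x - y)) := (kk_int h).1.comp_sub_left x
    obtain ⟨M, hM⟩ := hL.1.continuous.bounded_above_of_compact_support hL.2
    refine h1.mul_bdd (c := M) hL.1.continuous.neg.aestronglyMeasurable ?_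
    refine Filter.Eventually.of_forall fun y => ?_
    rw [norm_neg]
    exact hM y
  have i2 : Integrable (fun y => (-lap F y) * U χ (x - y)) := by
    refine Continuous.integrable_of_hasCompactSupport ?_ ?_
    · exact hL.1.continuous.neg.mul (hUc.comp (continuous_const.sub continuous_id))
    · exact HasCompactSupport.mul_right hL.2.neg
  have e5 := green F hF x
  have e6 : ∫ y, (-lap F y) * ‖x - y‖⁻¹ =
      (∫ y, kk χ (x - y) * (-lap F y)) + ∫ y, (-lap F y) * U χ (x - y) := by
    rw [← integral_add i1 i2]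
    refine integral_congr_ae (Filter.Eventually.of_forall fun y => ?_)
    change -lap F y * ‖x - y‖⁻¹ = (‖x - y‖⁻¹ - U χ (x - y)) * (-lap F y) + _
    ring
  rw [e5, ← e4, ← e2, e3] at e6
  linarith

omit h in
private theorem ki_loc {F f : E3 → ℝ} {y : E3} (he : F =ᶠ[nhds y] f) : lap F y = lap f y := by
  unfold lap
  refine Finset.sum_congr rfl fun d _ => ?_
  have h1 : pd d F =ᶠ[nhds y] pd d f := by
    filter_upwards [he.fderiv (𝕜 := ℝ)] with w hw
    unfold pd
    rw [hw]
  unfold pd at h1 ⊢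
  rw [h1.fderiv_eq]

theorem kk_green {f : E3 → ℝ} (hf : ContDiff ℝ (⊤ : ℕ∞) f) (x : E3) :
    ∫ y, kk χ (x - y) * (-lap f y) = 4 * Real.pi * (f x - Mv χ f x) := by
  obtain ⟨θ, hθ⟩ := cut_ex
  set F : E3 → ℝ := fun v => Jc θ x 2 v * f v with hFd
  have h1 : ∀ v, ‖v - x‖ ≤ 2 → F v = f v := by
    intro v hv
    rw [hFd]
    simp only
    rw [Jc_one hθ x 2 two_pos v hv, one_mul]
  have hF : Cc F := by
    refine ⟨(Jc_smooth hθ x 2).mul hf, ?_⟩
    refine HasCompactSupport.intro (isCompact_closedBall x 4) fun v hv => ?_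
    rw [Metric.mem_closedBall, dist_eq_norm, not_le] at hv
    change Jc θ x 2 v * f v = 0
    rw [Jc_zero hθ x 2 two_pos v (by linarith), zero_mul]
  have h2 := ki_cc h hF x
  have h3 : ∫ y, kk χ (x - y) * (-lap F y) = ∫ y, kk χ (x - y) * (-lap f y) := by
    refine integral_congr_ae (Filter.Eventually.of_forall fun y => ?_)
    change kk χ (x - y) * (-lap F y) = kk χ (x - y) * (-lap f y)
    by_cases hy : 1 / 2 ≤ ‖x - y‖
    · rw [kk_supp h _ hy, zero_mul, zero_mul]
    · have h4 : F =ᶠ[nhds y] f := by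
        have h5 : Metric.ball x 2 ∈ nhds y := by
          refine Metric.isOpen_ball.mem_nhds ?_
          rw [Metric.mem_ball, dist_eq_norm, norm_sub_rev]
          linarith
        filter_upwards [h5] with w hw
        rw [Metric.mem_ball, dist_eq_norm] at hw
        exact h1 w hw.le
      rw [ki_loc h4]
  have h4 : Mv χ F x = Mv χ f x := by
    unfold Mv
    refine integral_congr_ae (Filter.Eventually.of_forall fun y => ?_)
    change χ (x - y) ^ 2 * F y = χ (x - y) ^ 2 * f y
    by_cases hy : χ (x - y) = 0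
    · rw [hy]; ring
    · have h5 := h.supp _ hy
      rw [h1 y (by rw [norm_sub_rev]; linarith)]
  rw [h3, h4, h1 x (by rw [sub_self, norm_zero]; norm_num)] at h2
  exact h2

theorem mv_dev : ∃ C : ℝ, 0 ≤ C ∧ ∀ (f : E3 → ℝ) (_ : ContDiff ℝ (⊤ : ℕ∞) f) (r : ℝ)
    (_ : 0 < r) (_ : r ≤ 1) (x : E3) (S : ℝ) (_ : ∀ y, ‖y - x‖ < r → |lap f y| ≤ S),
    |f x - Mv (chr χ r) f x| ≤ C * r ^ 2 * S := by
  obtain ⟨C, hC, hk⟩ := kk_chr h
  refine ⟨C, hC, fun f hf r hr hr1 x S hS => ?_⟩
  obtain ⟨k1, -, -, k4, k5⟩ := hk r hr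
  have h1 := kk_green (chr_bump h r hr hr1) hf x
  have hS0 : 0 ≤ S := (abs_nonneg _).trans (hS x (by rw [sub_self, norm_zero]; exact hr))
  have h2 : |∫ y, kk (chr χ r) (x - y) * (-lap f y)| ≤ ∫ y, |kk (chr χ r) (x - y)| * S := by
    rw [← Real.norm_eq_abs]
    refine norm_integral_le_of_norm_le ((k4.comp_sub_left x).abs.mul_const S) ?_
    refine Filter.Eventually.of_forall fun y => ?_
    rw [norm_mul, norm_neg, Real.norm_eq_abs, Real.norm_eq_abs]
    by_cases hy : r / 2 ≤ ‖x - y‖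
    · rw [k1 _ hy, abs_zero, zero_mul, zero_mul]
    · exact mul_le_mul_of_nonneg_left (hS y (by rw [norm_sub_rev]; linarith)) (abs_nonneg _)
  have h3 : ∫ y, |kk (chr χ r) (x - y)| * S = (∫ v, |kk (chr χ r) v|) * S := by
    rw [integral_mul_const, integral_sub_left_eq_self (fun v => |kk (chr χ r) v|) volume x]
  have h4 : (∫ v, |kk (chr χ r) v|) * S ≤ C * r ^ 2 * S := mul_le_mul_of_nonneg_right k5 hS0
  rw [h1, h3, abs_mul] at h2
  have h5 : |4 * Real.pi| = 4 * Real.pi := abs_of_pos (by positivity)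
  rw [h5] at h2
  have h6 : 1 ≤ 4 * Real.pi := by
    have := Real.pi_gt_three
    linarith
  have h7 : |f x - Mv (chr χ r) f x| ≤ 4 * Real.pi * |f x - Mv (chr χ r) f x| :=
    le_mul_of_one_le_left (abs_nonneg _) h6
  linarith

end

end H6.CX
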