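import Pool.Agent.H6.CX.Defs
import Pool.Agent.H6.CB.Lib

/-! Elementary facts on the smearing radii. `iD p v` is a supremum over `Fin k` of nonnegative numbers (`Real.iSup_nonneg`; finite index type, `Finite.le_ciSup`; for `k = 0` it is `0`). `ce p (p.1 a) 1 ≥ 1` because the electron `a` itself is counted. `rd_le`: `rd ≤ s` and so on from `inv_anti₀`. `rd_e1`: `‖p.1 a - p.2 j‖⁻¹ ≤ iD p (p.1 a) ≤ (rd ..)⁻¹`. -/

open MeasureTheory Finset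

namespace H6.CX

open H6.CM H6.CB H6.CL H6.CT

section

variable {n k : ℕ} (K s : ℝ) (hK : 1 ≤ K) (hs : 0 < s) (p : Cfg n k)

theorem iD_nonneg (p : Cfg n k) (v : E3) : 0 ≤ iD p v :=
  Real.iSup_nonneg fun _ => inv_nonneg.2 (norm_nonneg _)

theorem iD_ge (p : Cfg n k) (v : E3) (j : Fin k) : ‖v - p.2 j‖⁻¹ ≤ iD p v :=
  le_ciSup (f := fun j => ‖v - p.2 j‖⁻¹) (Set.finite_range _).bddAbove j

theorem ce_self (p : Cfg n k) (a : Fin n) : 1 ≤ ce p (p.1 a) 1 := by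
  unfold ce
  have h : (if ‖p.1 a - p.1 a‖ < 1 then (1 : ℝ) else 0) = 1 := by
    rw [sub_self, norm_zero, if_pos one_pos]
  calc (1 : ℝ) = (if ‖p.1 a - p.1 a‖ < 1 then (1 : ℝ) else 0) := h.symm
    _ ≤ _ := Finset.single_le_sum (f := fun b => if ‖p.1 b - p.1 a‖ < 1 then (1 : ℝ) else 0)
      (fun b _ => by split_ifs <;> norm_num) (Finset.mem_univ a)

private theorem ce_rpow (p : Cfg n k) (a : Fin n) : 1 ≤ ce p (p.1 a) 1 ^ (1 / 3 : ℝ) :=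
  Real.one_le_rpow (ce_self p a) (by norm_num)

private theorem inv_e (s : ℝ) (hs : 0 < s) (p : Cfg n k) (a : Fin n) :
    s⁻¹ ≤ iD p (p.1 a) + s⁻¹ * ce p (p.1 a) 1 ^ (1 / 3 : ℝ) := by
  have h1 := iD_nonneg p (p.1 a)
  have h2 := ce_rpow p a
  have h3 : 0 < s⁻¹ := inv_pos.2 hs
  nlinarith

private theorem inv_n (K s : ℝ) (hK : 1 ≤ K) (p : Cfg n k) (j : Fin k) :
    s⁻¹ ≤ K⁻¹ * iD p (p.2 j) + s⁻¹ := by
  have h1 := iD_nonneg p (p.2 j)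
  have h3 : 0 < K⁻¹ := inv_pos.2 (by linarith)
  have h4 := mul_nonneg h3.le h1
  linarith

include hK hs

theorem rd_pos (i : Fin n ⊕ Fin k) : 0 < rd K s p i := by
  have h3 : 0 < s⁻¹ := inv_pos.2 hs
  rcases i with a | j
  · exact inv_pos.2 (lt_of_lt_of_le h3 (inv_e s hs p a))
  · exact inv_pos.2 (lt_of_lt_of_le h3 (inv_n K s hK p j))

theorem rd_le (i : Fin n ⊕ Fin k) : rd K s p i ≤ s := by
  have h3 : 0 < s⁻¹ := inv_pos.2 hs
  rcases i with a | j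
  · have h := inv_anti₀ h3 (inv_e s hs p a)
    rw [inv_inv] at h
    exact h
  · have h := inv_anti₀ h3 (inv_n K s hK p j)
    rw [inv_inv] at h
    exact h

/-- the inverse radii -/
theorem rd_inv : (∀ a : Fin n, (rd K s p (Sum.inl a))⁻¹ =
      iD p (p.1 a) + s⁻¹ * ce p (p.1 a) 1 ^ (1 / 3 : ℝ)) ∧
    ∀ j : Fin k, (rd K s p (Sum.inr j))⁻¹ = K⁻¹ * iD p (p.2 j) + s⁻¹ := by
  have _h := hK
  have _h' := hs
  exact ⟨fun a => inv_inv _, fun j => inv_inv _⟩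

theorem rd_e1 (a : Fin n) (j : Fin k) (h : p.1 a ≠ p.2 j) :
    rd K s p (Sum.inl a) ≤ ‖p.1 a - p.2 j‖ := by
  have h1 : 0 < ‖p.1 a - p.2 j‖ := norm_pos_iff.2 (sub_ne_zero.2 h)
  have h2 := iD_ge p (p.1 a) j
  have h3 : 0 ≤ s⁻¹ * ce p (p.1 a) 1 ^ (1 / 3 : ℝ) :=
    mul_nonneg (inv_pos.2 hs).le (zero_le_one.trans (ce_rpow p a))
  have h4 : ‖p.1 a - p.2 j‖⁻¹ ≤ (rd K s p (Sum.inl a))⁻¹ := by
    rw [(rd_inv K s hK hs p).1 a]
    linarith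
  have h5 := inv_anti₀ (inv_pos.2 h1) h4
  rw [inv_inv, inv_inv] at h5
  exact h5

theorem rd_e2 (a : Fin n) :
    rd K s p (Sum.inl a) * ce p (p.1 a) 1 ^ (1 / 3 : ℝ) ≤ s := by
  have h1 := rd_pos K s hK hs p (Sum.inl a)
  have h2 := (rd_inv K s hK hs p).1 a
  have h3 := iD_nonneg p (p.1 a)
  have h4 : s⁻¹ * ce p (p.1 a) 1 ^ (1 / 3 : ℝ) ≤ (rd K s p (Sum.inl a))⁻¹ := by
    rw [h2]
    linarith
  rw [inv_mul_le_iff₀ hs] at h4
  have h5 := mul_le_mul_of_nonneg_left h4 h1.le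
  have h6 : rd K s p (Sum.inl a) * (s * (rd K s p (Sum.inl a))⁻¹) = s := by
    field_simp
  linarith

theorem rd_n1 (j : Fin k) : rd K s p (Sum.inr j) * iD p (p.2 j) ≤ K := by
  have h1 := rd_pos K s hK hs p (Sum.inr j)
  have h2 := (rd_inv K s hK hs p).2 j
  have hK0 : 0 < K := by linarith
  have h4 : K⁻¹ * iD p (p.2 j) ≤ (rd K s p (Sum.inr j))⁻¹ := by
    rw [h2]
    have h3 := inv_pos.2 hs
    linarith
  rw [inv_mul_le_iff₀ hK0] at h4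
  have h5 := mul_le_mul_of_nonneg_left h4 h1.le
  have h6 : rd K s p (Sum.inr j) * (K * (rd K s p (Sum.inr j))⁻¹) = K := by
    field_simp
  linarith

end

end H6.CX
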