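import Pool.Agent.H6.CX.EAlg
import Pool.Agent.H6.CX.RdF
import Pool.Agent.H6.CX.KkI

/-! Counting the nuclei. `∑ i, cg z i * g (ps p i) = ∫ g * ρ + ∑ i, cg z i * (g (y i) - Mv (chr χ (r i)) g (y i))` (`∫ g v * chr χ r (v - y) ^ 2 = Mv (chr χ r) g y`, `χ` even), `∫ g ρ = ∫ m ua - ∫ σ ua` (`Ws.count`, `rho_pot`), and by `mv_dev`, with `|lap g| ≤ C0 g ≤ C0 ^ 2 g (y i)` on the ball, the differences are at most `C s ^ 2 C0 ^ 2 g (y i)`. The left side is `∑ z j g (R j) - ∑ g (x a) ≥ zm ∑ g (R j) - ∑ g (x a)`. Choose `s0` with `C s0 ^ 2 C0 ^ 2 max 1 zp ≤ min 1 (zm / 2)`. -/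

open MeasureTheory Finset

namespace H6.CX

open H6.CM H6.CB H6.CL H6.CT

private theorem Cnt_even {χ : E3 → ℝ} (h : Bump χ) (r : ℝ) (u v : E3) :
    chr χ r (u - v) = chr χ r (v - u) := by
  unfold chr
  rw [h.radial (r⁻¹ • (u - v)) (r⁻¹ • (v - u)) (by rw [norm_smul, norm_smul, norm_sub_rev])]

private theorem Cnt_rho {χ : E3 → ℝ} (h : Bump χ) {ι : Type} [Fintype ι] (e : ι → ℝ) (y : ι → E3) (r : ι → ℝ)
    (hr : ∀ i, 0 < r i) {g : E3 → ℝ} (hg : Continuous g) :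
    ∫ v, g v * rho χ e y r v = ∑ i, e i * Mv (chr χ (r i)) g (y i) := by
  have hint : ∀ i, Integrable fun v => e i * (chr χ (r i) (y i - v) ^ 2 * g v) := by
    intro i
    refine Integrable.const_mul (Continuous.integrable_of_hasCompactSupport
      ((((chr_smooth h (r i) (hr i)).continuous.comp (continuous_const.sub continuous_id)).pow 2).mul hg) ?_) _
    refine HasCompactSupport.intro (isCompact_closedBall (y i) (r i / 2)) fun v hv => ?_
    have h1 : chr χ (r i) (y i - v) = 0 := by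
      by_contra h2
      apply hv
      rw [Metric.mem_closedBall, dist_comm, dist_eq_norm]
      exact (chr_supp h (r i) (hr i) _ h2).le
    show chr χ (r i) (y i - v) ^ 2 * g v = 0
    rw [h1]
    norm_num
  have h1 : ∀ v, g v * rho χ e y r v = ∑ i, e i * (chr χ (r i) (y i - v) ^ 2 * g v) := by
    intro v
    unfold rho
    rw [mul_sum]
    refine sum_congr rfl fun i _ => ?_
    rw [Cnt_even h (r i) v (y i)]
    ring
  simp only [h1]
  rw [integral_finsetSum _ fun i _ => hint i]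
  refine sum_congr rfl fun i _ => ?_
  rw [integral_const_mul]
  rfl

theorem cnt_low (zm zp C0 K : ℝ) (hzm : 0 < zm) (hK : 1 ≤ K) {χ : E3 → ℝ} (hχ : Bump χ) :
    ∃ s0 : ℝ, 0 < s0 ∧ s0 ≤ 1 / 4 ∧ ∀ (s : ℝ) (_ : 0 < s) (_ : s ≤ s0)
    (n k : ℕ) (z : Fin k → ℝ) (_ : ∀ j, zm ≤ z j ∧ z j ≤ zp)
    (p : Cfg n k) (g m σ : E3 → ℝ) (_ : Ws C0 g m σ),
    zm / 2 * ∑ j, g (p.2 j) ≤ 2 * (∑ a, g (p.1 a)) +
      |(∫ v, m v * ua χ K s z p v) - ∫ v, σ v * ua χ K s z p v| := by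
  obtain ⟨C, hC0, hC⟩ := mv_dev hχ
  obtain ⟨W, hW⟩ : ∃ W, W = max 1 zp := ⟨_, rfl⟩
  have hW1 : 1 ≤ W := by rw [hW]; exact le_max_left _ _
  have hWz : zp ≤ W := by rw [hW]; exact le_max_right _ _
  obtain ⟨A, hA⟩ : ∃ A, A = C * C0 ^ 2 * W + 1 := ⟨_, rfl⟩
  have hA0 : 0 ≤ C * C0 ^ 2 * W := by positivity
  have hA1 : 0 < A := by linarith
  obtain ⟨μ, hμ⟩ : ∃ μ, μ = min 1 (zm / 2) := ⟨_, rfl⟩
  have hμ0 : 0 < μ := by
    rw [hμ]
    exact lt_min one_pos (by linarith)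
  refine ⟨min (1 / 4) (μ / A), lt_min (by norm_num) (by positivity), min_le_left _ _, ?_⟩
  intro s hs hs0 n k z hz p g m σ hWs
  have hs4 : s ≤ 1 / 4 := hs0.trans (min_le_left _ _)
  have hsA : s ≤ μ / A := hs0.trans (min_le_right _ _)
  have hg := hWs.wt
  have hCp : 0 < C0 := by
    have h1 := hg.har 0 0 (by norm_num)
    have h2 := hg.pos 0
    by_contra h3
    have h4 : C0 * g 0 ≤ 0 := mul_nonpos_of_nonpos_of_nonneg (not_lt.1 h3) h2.le
    linarith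
  obtain ⟨D, hD⟩ : ∃ D, D = C * s ^ 2 * C0 ^ 2 := ⟨_, rfl⟩
  have hD0 : 0 ≤ D := by rw [hD]; positivity
  have hDW : D * W ≤ μ := by
    have h1 : s * A ≤ μ := by rwa [le_div_iff₀ hA1] at hsA
    have h2 : s ^ 2 ≤ s := by nlinarith
    have h3 : D * W = s ^ 2 * (C * C0 ^ 2 * W) := by rw [hD]; ring
    have h4 : s ^ 2 * (C * C0 ^ 2 * W) ≤ s * (C * C0 ^ 2 * W) := mul_le_mul_of_nonneg_right h2 hA0
    have h5 : s * A = s * (C * C0 ^ 2 * W) + s := by rw [hA]; ring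
    linarith
  have hD1 : D ≤ 1 := by
    have h1 : D * 1 ≤ D * W := mul_le_mul_of_nonneg_left hW1 hD0
    have h2 : μ ≤ 1 := by rw [hμ]; exact min_le_left _ _
    linarith
  have hDz : D * zp ≤ zm / 2 := by
    have h1 : D * zp ≤ D * W := mul_le_mul_of_nonneg_left hWz hD0
    have h2 : μ ≤ zm / 2 := by rw [hμ]; exact min_le_right _ _
    linarith
  have hr0 : ∀ i, 0 < rd K s p i := rd_pos K s hK hs p
  have hrs : ∀ i, rd K s p i ≤ s := rd_le K s hK hs p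
  have hdev : ∀ i, |g (ps p i) - Mv (chr χ (rd K s p i)) g (ps p i)| ≤ D * g (ps p i) := by
    intro i
    have h1 := hC g hg.smooth (rd K s p i) (hr0 i) ((hrs i).trans (by linarith)) (ps p i)
      (C0 * (C0 * g (ps p i))) (fun y hy => by
        refine (hg.lapl y).trans (mul_le_mul_of_nonneg_left (hg.har y (ps p i) ?_) hCp.le)
        have := hrs i
        linarith)
    refine h1.trans ?_
    have h2 : rd K s p i ^ 2 ≤ s ^ 2 := pow_le_pow_left₀ (hr0 i).le (hrs i) 2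
    have h3 : 0 ≤ C * (C0 * (C0 * g (ps p i))) := by
      have := (hg.pos (ps p i)).le
      positivity
    calc C * rd K s p i ^ 2 * (C0 * (C0 * g (ps p i))) = rd K s p i ^ 2 * (C * (C0 * (C0 * g (ps p i)))) := by ring
      _ ≤ s ^ 2 * (C * (C0 * (C0 * g (ps p i)))) := mul_le_mul_of_nonneg_right h2 h3
      _ = D * g (ps p i) := by rw [hD]; ring
  have hcount := hWs.count (rho χ (cg z) (ps p) (rd K s p)) (rho_cc hχ (cg z) (ps p) (rd K s p) hr0)
  have hpot : ∀ v, pot (rho χ (cg z) (ps p) (rd K s p)) v = ua χ K s z p v := fun v =>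
    rho_pot hχ (cg z) (ps p) (rd K s p) hr0 v
  simp only [hpot] at hcount
  rw [Cnt_rho hχ (cg z) (ps p) (rd K s p) hr0 hg.smooth.continuous] at hcount
  rw [← hcount]
  -- the sums
  obtain ⟨SN, hSN⟩ : ∃ SN, SN = ∑ j, g (p.2 j) := ⟨_, rfl⟩
  obtain ⟨SE, hSE⟩ : ∃ SE, SE = ∑ a, g (p.1 a) := ⟨_, rfl⟩
  have hSN0 : 0 ≤ SN := by rw [hSN]; exact sum_nonneg fun j _ => (hg.pos _).le
  have hSE0 : 0 ≤ SE := by rw [hSE]; exact sum_nonneg fun j _ => (hg.pos _).le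
  have h1 : ∑ i, cg z i * g (ps p i) = ∑ j, z j * g (p.2 j) - SE := by
    rw [Fintype.sum_sum_type, hSE]
    simp only [cg, ps, Sum.elim_inl, Sum.elim_inr, neg_mul, one_mul, sum_neg_distrib]
    ring
  have h2 : zm * SN ≤ ∑ j, z j * g (p.2 j) := by
    rw [hSN, mul_sum]
    exact sum_le_sum fun j _ => mul_le_mul_of_nonneg_right (hz j).1 (hg.pos _).le
  have h3 : |∑ i, cg z i * (g (ps p i) - Mv (chr χ (rd K s p i)) g (ps p i))| ≤ D * SE + zm / 2 * SN := by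
    refine (abs_sum_le_sum_abs _ _).trans ?_
    rw [Fintype.sum_sum_type, hSE, hSN, mul_sum, mul_sum]
    refine add_le_add (sum_le_sum fun a _ => ?_) (sum_le_sum fun j _ => ?_)
    · have := hdev (Sum.inl a)
      rw [abs_mul]
      simp only [cg, ps, Sum.elim_inl, abs_neg, abs_one, one_mul] at this ⊢
      exact this
    · have h4 := hdev (Sum.inr j)
      rw [abs_mul]
      simp only [cg, ps, Sum.elim_inr] at h4 ⊢
      have hzj : 0 ≤ z j := hzm.le.trans (hz j).1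
      rw [abs_of_nonneg hzj]
      have h5 : z j * |g (p.2 j) - Mv (chr χ (rd K s p (Sum.inr j))) g (p.2 j)| ≤ z j * (D * g (p.2 j)) :=
        mul_le_mul_of_nonneg_left h4 hzj
      have h6 : z j * (D * g (p.2 j)) ≤ zp * (D * g (p.2 j)) :=
        mul_le_mul_of_nonneg_right (hz j).2 (mul_nonneg hD0 (hg.pos _).le)
      have h7 : zp * (D * g (p.2 j)) = (D * zp) * g (p.2 j) := by ring
      have h8 : (D * zp) * g (p.2 j) ≤ zm / 2 * g (p.2 j) := mul_le_mul_of_nonneg_right hDz (hg.pos _).le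
      linarith
  have h4 : ∑ i, cg z i * (g (ps p i) - Mv (chr χ (rd K s p i)) g (ps p i)) =
      (∑ i, cg z i * g (ps p i)) - ∑ i, cg z i * Mv (chr χ (rd K s p i)) g (ps p i) := by
    rw [← sum_sub_distrib]
    exact sum_congr rfl fun i _ => by ring
  rw [h4, h1] at h3
  rw [← hSE, ← hSN]
  obtain ⟨T, hT⟩ : ∃ T, T = ∑ i, cg z i * Mv (chr χ (rd K s p i)) g (ps p i) := ⟨_, rfl⟩
  rw [← hT] at h3 ⊢
  have h5 := (abs_le.1 h3).2
  have h6 := le_abs_self T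
  have h7 : D * SE ≤ SE := by
    have := mul_le_mul_of_nonneg_right hD1 hSE0
    linarith
  linarith

end H6.CX
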