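import Pool.Agent.H6.CX.Poin
import Pool.Agent.H6.CX.KkI

/-! The commutator, one charge. Let `B = ball y r` and `I = ∫ v in B, (gr u v + D.indicator 1 v * u v ^ 2)`. For `v ∈ B`: `|g v - g y| ≤ C r g y` (mean value inequality along the segment, `gr g ≤ C0 g ^ 2` and `g ≤ C0 g y` on `B`), and `chr χ r (v - y) ^ 2 ≤ C r⁻¹ ^ 3`, supported in `B`. With `m` from `poin1`: `|∫ (g - g y) σ (u - m)| ≤ C r g y * r ^ (-3) * (C r ^ 5 ∫ gr u) ^ (1/2) ≤ C g y (r * I) ^ (1/2)`. The rest is `m * ∫ (g - g y) σ = m * (Mv (chr χ r) g y - g y)` (`chr χ r` even): it vanishes if `lap g = 0` on `B` (`kk_green` for `chr χ r`, `chr_bump`), and otherwise `B ⊆ D` and by `mv_dev` it is at most `|m| C r ^ 2 C0 * C0 g y`, with `m ^ 2 r ^ 3 ≤ C ∫ v in B, u v ^ 2 ≤ C I`. The square of the sum is at most twice the sum of the squares. -/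

open MeasureTheory Finset

namespace H6.CX

open H6.CM H6.CB H6.CL H6.CT

private theorem ca_gr_cts {f : E3 → ℝ} (hf : ContDiff ℝ (⊤ : ℕ∞) f) : Continuous (gr f) := by
  unfold gr
  exact continuous_finsetSum _ fun d _ =>
    ((hf.continuous_fderiv (by simp)).clm_apply continuous_const).pow 2

private theorem ca_gr_nn (f : E3 → ℝ) (v : E3) : 0 ≤ gr f v :=
  Finset.sum_nonneg fun _ _ => sq_nonneg _

/-- the norm of the derivative -/
private theorem ca_fd (f : E3 → ℝ) (v : E3) : ‖fderiv ℝ f v‖ ≤ Real.sqrt (gr f v) := by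
  refine ContinuousLinearMap.opNorm_le_bound _ (Real.sqrt_nonneg _) fun e => ?_
  have h1 : e = ∑ d : Fin 3, e d • EuclideanSpace.single d (1 : ℝ) := by
    have := (EuclideanSpace.basisFun (Fin 3) ℝ).sum_repr e
    conv_lhs => rw [← this]
    simp
  have h2 : fderiv ℝ f v e = ∑ d : Fin 3, e d * fderiv ℝ f v (EuclideanSpace.single d 1) := by
    conv_lhs => rw [h1]
    rw [map_sum]
    refine sum_congr rfl fun d _ => ?_
    rw [map_smul, smul_eq_mul]
  rw [h2, Real.norm_eq_abs]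
  have h3 := Finset.sum_mul_sq_le_sq_mul_sq univ (fun d : Fin 3 => e d)
    (fun d => fderiv ℝ f v (EuclideanSpace.single d 1))
  have h4 : ‖e‖ ^ 2 = ∑ d : Fin 3, e d ^ 2 := by
    rw [EuclideanSpace.norm_sq_eq]
    simp
  have h5 : Real.sqrt (gr f v) ^ 2 = gr f v := Real.sq_sqrt (ca_gr_nn f v)
  refine abs_le_of_sq_le_sq ?_ (mul_nonneg (Real.sqrt_nonneg _) (norm_nonneg _))
  rw [mul_pow, h5, h4, mul_comm]
  exact h3

private theorem ca_one {C0 : ℝ} {g : E3 → ℝ} (hg : Wt C0 g) : 1 ≤ C0 := by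
  have h1 := hg.har 0 0 (by simp)
  have h2 := hg.pos 0
  by_contra h
  push Not at h
  nlinarith

/-- the weight is Lipschitz -/
private theorem ca_lip {C0 : ℝ} {g : E3 → ℝ} (hg : Wt C0 g) (y : E3) (r : ℝ) (hr1 : r ≤ 1)
    (v : E3) (hv : v ∈ Metric.ball y r) : |g v - g y| ≤ C0 ^ 2 * r * g y := by
  have h0 := ca_one hg
  have hgy := hg.pos y
  have hr0 : 0 < r := by
    rw [Metric.mem_ball] at hv
    exact lt_of_le_of_lt dist_nonneg hv
  have key := Convex.norm_image_sub_le_of_norm_fderiv_le (𝕜 := ℝ) (f := g) (C := C0 ^ 2 * g y)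
    (s := Metric.ball y r) (x := y) (y := v)
    (fun w _ => (hg.smooth.differentiable (by simp)).differentiableAt) ?_ (convex_ball y r)
    (Metric.mem_ball_self hr0) hv
  · rw [Real.norm_eq_abs] at key
    refine key.trans ?_
    rw [Metric.mem_ball, dist_eq_norm] at hv
    calc C0 ^ 2 * g y * ‖v - y‖ ≤ C0 ^ 2 * g y * r :=
          mul_le_mul_of_nonneg_left hv.le (by positivity)
      _ = C0 ^ 2 * r * g y := by ring
  · intro w hw
    rw [Metric.mem_ball, dist_eq_norm] at hw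
    have h1 : g w ≤ C0 * g y := hg.har w y (by linarith)
    have h2 : gr g w ≤ (C0 * g w) ^ 2 := by
      refine (hg.grad w).trans ?_
      have := sq_nonneg (g w)
      nlinarith
    refine (ca_fd g w).trans ?_
    refine (Real.sqrt_le_sqrt h2).trans ?_
    rw [Real.sqrt_sq (mul_nonneg (by linarith) (hg.pos w).le)]
    calc C0 * g w ≤ C0 * (C0 * g y) := mul_le_mul_of_nonneg_left h1 (by linarith)
      _ = C0 ^ 2 * g y := by ring

private theorem ca_bd {χ : E3 → ℝ} (hχ : Bump χ) : ∃ M : ℝ, 0 ≤ M ∧ ∀ (r : ℝ) (_ : 0 < r) (v : E3),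
    chr χ r v ^ 2 ≤ M * (r ^ 3)⁻¹ := by
  obtain ⟨M, hM⟩ : ∃ M : ℝ, ∀ v, ‖χ v ^ 2‖ ≤ M := by
    refine (hχ.smooth.continuous.pow 2).bounded_above_of_compact_support ?_
    refine HasCompactSupport.intro (isCompact_closedBall (0 : E3) (1 / 2)) fun v hv => ?_
    have h0 : χ v = 0 := by
      by_contra h0
      apply hv
      rw [Metric.mem_closedBall, dist_zero_right]
      exact (hχ.supp v h0).le
    rw [Pi.pow_apply, h0]
    norm_num
  refine ⟨M, (norm_nonneg _).trans (hM 0), fun r hr v => ?_⟩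
  unfold chr
  rw [mul_pow]
  have h1 : (r ^ (-(3 / 2) : ℝ)) ^ 2 = (r ^ 3)⁻¹ := by
    rw [← Real.rpow_natCast, ← Real.rpow_mul hr.le]
    have h2 : (-(3 / 2) : ℝ) * (2 : ℕ) = -(3 : ℕ) := by norm_num
    rw [h2, Real.rpow_neg hr.le, Real.rpow_natCast]
  rw [h1, mul_comm]
  refine mul_le_mul_of_nonneg_right ?_ (by positivity)
  have := hM (r⁻¹ • v)
  rw [Real.norm_eq_abs] at this
  exact (le_abs_self _).trans this

private theorem ca_supp {χ : E3 → ℝ} (hχ : Bump χ) (r : ℝ) (hr : 0 < r) (v : E3)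
    (h : chr χ r v ≠ 0) : ‖v‖ < r := by
  unfold chr at h
  have h1 : χ (r⁻¹ • v) ≠ 0 := fun h0 => h (by rw [h0, mul_zero])
  have h2 := hχ.supp _ h1
  rw [norm_smul, Real.norm_of_nonneg (inv_nonneg.2 hr.le), inv_mul_lt_iff₀ hr] at h2
  linarith

theorem commA (C0 : ℝ) {χ : E3 → ℝ} (hχ : Bump χ) : ∃ C : ℝ, 0 ≤ C ∧
    ∀ (g : E3 → ℝ) (_ : Wt C0 g) (u : E3 → ℝ) (_ : ContDiff ℝ (⊤ : ℕ∞) u) (y : E3) (r : ℝ)
    (_ : 0 < r) (_ : r ≤ 1) (D : Set E3) (_ : MeasurableSet D)
    (_ : ∀ x ∈ Metric.ball y r, lap g x ≠ 0 → Metric.ball y r ⊆ D),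
    (∫ v, (g v - g y) * (chr χ r (v - y) ^ 2 * u v)) ^ 2 ≤
      C * g y ^ 2 * r * ∫ v in Metric.ball y r, (gr u v + D.indicator 1 v * u v ^ 2) := by
  obtain ⟨Cp, hCp, hpoin⟩ := poin1
  obtain ⟨Cd, hCd, hdev⟩ := mv_dev hχ
  obtain ⟨M, hM, hbd⟩ := ca_bd hχ
  refine ⟨2 * ((C0 ^ 2 * M) ^ 2 * Cp) + 2 * (Cp * (Cd * (C0 * C0)) ^ 2), by positivity, ?_⟩
  intro g hg u hu y r hr hr1 D hD hDb
  have hC0 := ca_one hg
  have hgy := hg.pos y
  have hgc : Continuous g := hg.smooth.continuous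
  have huc : Continuous u := hu.continuous
  have hchr : ContDiff ℝ (⊤ : ℕ∞) (chr χ r) := (chr_bump hχ r hr hr1).smooth
  have hsc : Continuous (fun v => chr χ r (v - y) ^ 2) :=
    (hchr.continuous.comp (continuous_id.sub continuous_const)).pow 2
  have hss : HasCompactSupport (fun v => chr χ r (v - y) ^ 2) := by
    refine HasCompactSupport.intro (isCompact_closedBall y r) fun v hv => ?_
    have h0 : chr χ r (v - y) = 0 := by
      by_contra h0
      apply hv
      rw [Metric.mem_closedBall, dist_eq_norm]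
      exact (ca_supp hχ r hr _ h0).le
    rw [h0]
    norm_num
  obtain ⟨m, hm1, hm2⟩ := hpoin u hu y r hr
  have hball : ∀ f : E3 → ℝ, Continuous f → IntegrableOn f (Metric.ball y r) := fun f hf =>
    (hf.continuousOn.integrableOn_compact (isCompact_closedBall y r)).mono_set
      Metric.ball_subset_closedBall
  -- the splitting
  have hI1 : Integrable (fun v => (g v - g y) * (chr χ r (v - y) ^ 2 * (u v - m))) :=
    ((hgc.sub continuous_const).mul (hsc.mul (huc.sub continuous_const))).integrable_of_hasCompactSupport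
      (HasCompactSupport.mul_left (HasCompactSupport.mul_right hss))
  have hI2 : Integrable (fun v => chr χ r (v - y) ^ 2 * g v) :=
    (hsc.mul hgc).integrable_of_hasCompactSupport (HasCompactSupport.mul_right hss)
  have hI3 : Integrable (fun v => chr χ r (v - y) ^ 2) := hsc.integrable_of_hasCompactSupport hss
  have hone : ∫ v, chr χ r (v - y) ^ 2 = 1 := by
    rw [integral_sub_right_eq_self (fun v => chr χ r v ^ 2) y]
    exact (chr_bump hχ r hr hr1).norm
  have hmv : ∫ v, chr χ r (v - y) ^ 2 * g v = Mv (chr χ r) g y := by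
    unfold Mv
    refine integral_congr_ae (Filter.Eventually.of_forall fun v => ?_)
    beta_reduce
    rw [(chr_bump hχ r hr hr1).radial (v - y) (y - v) (norm_sub_rev _ _)]
  have hsplit : ∫ v, (g v - g y) * (chr χ r (v - y) ^ 2 * u v) =
      (∫ v, (g v - g y) * (chr χ r (v - y) ^ 2 * (u v - m))) + m * (Mv (chr χ r) g y - g y) := by
    have h1 : m * (Mv (chr χ r) g y - g y) =
        ∫ v, m * (chr χ r (v - y) ^ 2 * g v - g y * chr χ r (v - y) ^ 2) := by
      rw [integral_const_mul, integral_sub hI2 (hI3.const_mul _), integral_const_mul, hone, hmv,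
        mul_one]
    have h2 : Integrable (fun v => m * (chr χ r (v - y) ^ 2 * g v - g y * chr χ r (v - y) ^ 2)) :=
      (hI2.sub (hI3.const_mul (g y))).const_mul m
    rw [h1, ← integral_add hI1 h2]
    refine integral_congr_ae (Filter.Eventually.of_forall fun v => ?_)
    beta_reduce
    ring
  -- the first term
  have hA : |∫ v, (g v - g y) * (chr χ r (v - y) ^ 2 * (u v - m))| ≤
      C0 ^ 2 * M * g y * (r ^ 2)⁻¹ * ∫ v in Metric.ball y r, |u v - m| := by
    have h1 : |∫ v, (g v - g y) * (chr χ r (v - y) ^ 2 * (u v - m))| ≤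
        ∫ v, |(g v - g y) * (chr χ r (v - y) ^ 2 * (u v - m))| := by
      simpa only [Real.norm_eq_abs] using norm_integral_le_integral_norm
        (fun v => (g v - g y) * (chr χ r (v - y) ^ 2 * (u v - m)))
    refine h1.trans ?_
    rw [← integral_const_mul, ← integral_indicator measurableSet_ball]
    refine integral_mono_of_nonneg (Filter.Eventually.of_forall fun v => abs_nonneg _) ?_
      (Filter.Eventually.of_forall fun v => ?_)
    · rw [integrable_indicator_iff measurableSet_ball]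
      exact (hball _ ((huc.sub continuous_const).abs)).const_mul _
    · beta_reduce
      by_cases hv : v ∈ Metric.ball y r
      · rw [Set.indicator_of_mem hv, abs_mul, abs_mul, abs_of_nonneg (sq_nonneg (chr χ r (v - y)))]
        have h2 := ca_lip hg y r hr1 v hv
        have h3 := hbd r hr (v - y)
        have h4 : r * (r ^ 3)⁻¹ = (r ^ 2)⁻¹ := by field_simp
        calc |g v - g y| * (chr χ r (v - y) ^ 2 * |u v - m|) ≤
              (C0 ^ 2 * r * g y) * ((M * (r ^ 3)⁻¹) * |u v - m|) :=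
              mul_le_mul h2 (mul_le_mul_of_nonneg_right h3 (abs_nonneg _))
                (mul_nonneg (sq_nonneg _) (abs_nonneg _)) (by positivity)
          _ = C0 ^ 2 * M * g y * (r * (r ^ 3)⁻¹) * |u v - m| := by ring
          _ = C0 ^ 2 * M * g y * (r ^ 2)⁻¹ * |u v - m| := by rw [h4]
      · rw [Set.indicator_of_notMem hv]
        have h0 : chr χ r (v - y) = 0 := by
          by_contra h0
          apply hv
          rw [Metric.mem_ball, dist_eq_norm]
          exact ca_supp hχ r hr _ h0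
        rw [h0]
        norm_num
  have hgr0 : 0 ≤ ∫ v in Metric.ball y r, gr u v := integral_nonneg fun v => ca_gr_nn u v
  have hA2 : (∫ v, (g v - g y) * (chr χ r (v - y) ^ 2 * (u v - m))) ^ 2 ≤
      (C0 ^ 2 * M) ^ 2 * Cp * g y ^ 2 * r * ∫ v in Metric.ball y r, gr u v := by
    rw [← sq_abs]
    have h1 := pow_le_pow_left₀ (abs_nonneg _) hA 2
    refine h1.trans ?_
    have h2 : (C0 ^ 2 * M * g y * (r ^ 2)⁻¹ * ∫ v in Metric.ball y r, |u v - m|) ^ 2 =
        (C0 ^ 2 * M * g y * (r ^ 2)⁻¹) ^ 2 * (∫ v in Metric.ball y r, |u v - m|) ^ 2 := by ring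
    rw [h2]
    refine (mul_le_mul_of_nonneg_left hm1 (by positivity)).trans (le_of_eq ?_)
    have h3 : (r ^ 2)⁻¹ ^ 2 * r ^ 5 = r := by field_simp
    calc (C0 ^ 2 * M * g y * (r ^ 2)⁻¹) ^ 2 * (Cp * r ^ 5 * ∫ v in Metric.ball y r, gr u v) =
          (C0 ^ 2 * M) ^ 2 * Cp * g y ^ 2 * ((r ^ 2)⁻¹ ^ 2 * r ^ 5) *
            ∫ v in Metric.ball y r, gr u v := by ring
      _ = _ := by rw [h3]
  -- the second term
  have hDI : IntegrableOn (fun v => D.indicator 1 v * u v ^ 2) (Metric.ball y r) := by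
    have h1 : (fun v => D.indicator 1 v * u v ^ 2) = D.indicator (fun v => u v ^ 2) := by
      funext v
      by_cases hv : v ∈ D
      · simp [hv]
      · simp [hv]
    rw [h1]
    exact (hball _ (huc.pow 2)).indicator hD
  have hD0 : 0 ≤ ∫ v in Metric.ball y r, D.indicator 1 v * u v ^ 2 := by
    refine integral_nonneg fun v => mul_nonneg ?_ (sq_nonneg _)
    exact Set.indicator_nonneg (fun _ _ => zero_le_one) _
  have hB2 : (m * (Mv (chr χ r) g y - g y)) ^ 2 ≤
      Cp * (Cd * (C0 * C0)) ^ 2 * g y ^ 2 * r *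
        ∫ v in Metric.ball y r, D.indicator 1 v * u v ^ 2 := by
    by_cases hz : ∀ x ∈ Metric.ball y r, lap g x = 0
    · have h1 := hdev g hg.smooth r hr hr1 y 0 fun v hv => by
        rw [hz v (by rw [Metric.mem_ball, dist_eq_norm]; exact hv), abs_zero]
      rw [mul_zero] at h1
      have h2 : Mv (chr χ r) g y - g y = 0 := by
        have h3 := abs_nonpos_iff.1 h1
        linarith
      rw [h2, mul_zero]
      have : (0 : ℝ) ^ 2 = 0 := by norm_num
      rw [this]
      positivity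
    · push Not at hz
      obtain ⟨x, hx, hxl⟩ := hz
      have hsub := hDb x hx hxl
      have h1 := hdev g hg.smooth r hr hr1 y (C0 * (C0 * g y)) fun v hv => by
        refine (hg.lapl v).trans (mul_le_mul_of_nonneg_left (hg.har v y (by linarith)) (by linarith))
      have h2 : (Mv (chr χ r) g y - g y) ^ 2 ≤ (Cd * r ^ 2 * (C0 * (C0 * g y))) ^ 2 := by
        have h3 : (Mv (chr χ r) g y - g y) ^ 2 = |g y - Mv (chr χ r) g y| ^ 2 := by
          rw [sq_abs]
          ring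
        rw [h3]
        exact pow_le_pow_left₀ (abs_nonneg _) h1 2
      have h3 : ∫ v in Metric.ball y r, D.indicator 1 v * u v ^ 2 =
          ∫ v in Metric.ball y r, u v ^ 2 := by
        refine setIntegral_congr_fun measurableSet_ball fun v hv => ?_
        beta_reduce
        rw [Set.indicator_of_mem (hsub hv), Pi.one_apply, one_mul]
      rw [h3, mul_pow]
      calc m ^ 2 * (Mv (chr χ r) g y - g y) ^ 2 ≤ m ^ 2 * (Cd * r ^ 2 * (C0 * (C0 * g y))) ^ 2 :=
            mul_le_mul_of_nonneg_left h2 (sq_nonneg _)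
        _ = (Cd * (C0 * C0)) ^ 2 * g y ^ 2 * r * (m ^ 2 * r ^ 3) := by ring
        _ ≤ (Cd * (C0 * C0)) ^ 2 * g y ^ 2 * r * (Cp * ∫ v in Metric.ball y r, u v ^ 2) :=
            mul_le_mul_of_nonneg_left hm2 (by positivity)
        _ = _ := by ring
  rw [hsplit, integral_add (hball _ (ca_gr_cts hu)) hDI]
  obtain ⟨a, ha⟩ : ∃ a, a = ∫ v, (g v - g y) * (chr χ r (v - y) ^ 2 * (u v - m)) := ⟨_, rfl⟩
  obtain ⟨b, hb⟩ : ∃ b, b = m * (Mv (chr χ r) g y - g y) := ⟨_, rfl⟩
  obtain ⟨X, hX⟩ : ∃ X, X = ∫ v in Metric.ball y r, gr u v := ⟨_, rfl⟩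
  obtain ⟨Y, hY⟩ : ∃ Y, Y = ∫ v in Metric.ball y r, D.indicator 1 v * u v ^ 2 := ⟨_, rfl⟩
  rw [← ha, ← hb, ← hX, ← hY]
  rw [← ha, ← hX] at hA2
  rw [← hb, ← hY] at hB2
  rw [← hX] at hgr0
  rw [← hY] at hD0
  have e1 : (a + b) ^ 2 ≤ 2 * a ^ 2 + 2 * b ^ 2 := by nlinarith [sq_nonneg (a - b)]
  have p1 : 0 ≤ (C0 ^ 2 * M) ^ 2 * Cp * g y ^ 2 * r * Y := by positivity
  have p2 : 0 ≤ Cp * (Cd * (C0 * C0)) ^ 2 * g y ^ 2 * r * X := by positivity
  calc (a + b) ^ 2 ≤ 2 * a ^ 2 + 2 * b ^ 2 := e1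
    _ ≤ 2 * ((C0 ^ 2 * M) ^ 2 * Cp * g y ^ 2 * r * X) +
        2 * (Cp * (Cd * (C0 * C0)) ^ 2 * g y ^ 2 * r * Y) := by linarith
    _ ≤ 2 * ((C0 ^ 2 * M) ^ 2 * Cp * g y ^ 2 * r * X) +
        2 * (Cp * (Cd * (C0 * C0)) ^ 2 * g y ^ 2 * r * Y) +
        (2 * ((C0 ^ 2 * M) ^ 2 * Cp * g y ^ 2 * r * Y) +
        2 * (Cp * (Cd * (C0 * C0)) ^ 2 * g y ^ 2 * r * X)) := by linarith
    _ = (2 * ((C0 ^ 2 * M) ^ 2 * Cp) + 2 * (Cp * (Cd * (C0 * C0)) ^ 2)) * g y ^ 2 * r * (X + Y) := by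
        ring

end H6.CX
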