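import Pool.Agent.H6.CX.CommA
import Pool.Agent.H6.CX.RdF
import Pool.Agent.H6.CX.Pack

/-! The sum of the commutators. Let `r i = rd K s p i`, `w i = ce p (x a) 1 ^ (2/3)` for electrons and `w i = 1` for nuclei, `I i = ∫ v in ball (y i) (r i), f v` with `f = gr u + D.indicator 1 * u ^ 2 ≥ 0`. `commA` and Young: `|e i| |T i| ≤ η g (y i) w i + (C / η) g (y i) (r i / w i) I i`, and `g (y i) ≤ C0 g v` on the ball. Overlap: `∑ i, (r i / w i) 1[‖v - y i‖ < r i] ≤ C s`: electrons: `r a / w a ≤ s / ce p (x a) 1` (`rd_e2`), and all electrons `b` with `‖v - x b‖ < r b ≤ s ≤ 1 / 4` are at distance less than `1` from each other, so their number is at most `ce p (x a) 1` for each of them and the sum is at most `s`; nuclei: `pack2` with `rd_n1`. The sum vanishes unless `v` is at distance less than `1 / 4` from some particle. The condition on `D` in `commA` holds because `ball (y i) (r i)` has diameter at most `1 / 2`. -/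

open MeasureTheory Finset

namespace H6.CX

open H6.CM H6.CB H6.CL H6.CT

private theorem cb_one {C0 : ℝ} {g : E3 → ℝ} (hg : Wt C0 g) : 1 ≤ C0 := by
  have h1 := hg.har 0 0 (by simp)
  have h2 := hg.pos 0
  by_contra h
  push Not at h
  nlinarith

private theorem cb_gr_cts {f : E3 → ℝ} (hf : ContDiff ℝ (⊤ : ℕ∞) f) : Continuous (gr f) := by
  unfold gr
  exact continuous_finsetSum _ fun d _ =>
    ((hf.continuous_fderiv (by simp)).clm_apply continuous_const).pow 2

private theorem cb_gr_nn (f : E3 → ℝ) (v : E3) : 0 ≤ gr f v :=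
  Finset.sum_nonneg fun _ _ => sq_nonneg _

/-- Young's inequality -/
private theorem cb_young {T e A g r I w Z η : ℝ} (h1 : T ^ 2 ≤ A * g ^ 2 * r * I)
    (h2 : e ^ 2 ≤ Z) (hA : 0 ≤ A) (hg : 0 ≤ g) (hr : 0 ≤ r) (hI : 0 ≤ I) (hw : 0 < w)
    (hη : 0 < η) (hZ : 0 ≤ Z) :
    e * T ≤ η * (g * w) + (Z * A) * η⁻¹ * (r / w * (g * I)) := by
  have hα : 0 ≤ η * (g * w) := by positivity
  have hβ : 0 ≤ (Z * A) * η⁻¹ * (r / w * (g * I)) := by positivity
  refine (le_abs_self _).trans (abs_le_of_sq_le_sq ?_ (add_nonneg hα hβ))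
  have h3 : (e * T) ^ 2 ≤ Z * (A * g ^ 2 * r * I) := by
    rw [mul_pow]
    exact mul_le_mul h2 h1 (sq_nonneg _) hZ
  have h4 : (η * (g * w)) * ((Z * A) * η⁻¹ * (r / w * (g * I))) = Z * (A * g ^ 2 * r * I) := by
    field_simp
  obtain ⟨α, hα'⟩ : ∃ α, α = η * (g * w) := ⟨_, rfl⟩
  obtain ⟨β, hβ'⟩ : ∃ β, β = (Z * A) * η⁻¹ * (r / w * (g * I)) := ⟨_, rfl⟩
  rw [← hα', ← hβ'] at h4 ⊢
  rw [← hα'] at hα
  rw [← hβ'] at hβ
  rw [← h4] at h3
  nlinarith [sq_nonneg (α - β), mul_nonneg hα hβ]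

/-- the overlap of the balls around the electrons -/
private theorem cb_el {n k : ℕ} (K s : ℝ) (hK : 1 ≤ K) (hs : 0 < s) (hs4 : s ≤ 1 / 4) (p : Cfg n k)
    (v : E3) : ∑ a : Fin n, (if ‖v - p.1 a‖ < rd K s p (Sum.inl a) then
      rd K s p (Sum.inl a) / ce p (p.1 a) 1 ^ (2 / 3 : ℝ) else 0) ≤ s := by
  rw [← Finset.sum_filter]
  obtain ⟨I, hI⟩ : ∃ I, I = univ.filter fun a : Fin n => ‖v - p.1 a‖ < rd K s p (Sum.inl a) :=
    ⟨_, rfl⟩
  rw [← hI]
  rcases I.eq_empty_or_nonempty with he | hne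
  · rw [he, sum_empty]
    exact hs.le
  have hcard : (0 : ℝ) < I.card := by exact_mod_cast hne.card_pos
  have key : ∀ a ∈ I, rd K s p (Sum.inl a) / ce p (p.1 a) 1 ^ (2 / 3 : ℝ) ≤ s / I.card := by
    intro a ha
    have hc1 := ce_self p a
    have hc0 : 0 < ce p (p.1 a) 1 := by linarith
    have hcI : (I.card : ℝ) ≤ ce p (p.1 a) 1 := by
      unfold ce
      calc (I.card : ℝ) = ∑ b ∈ I, (1 : ℝ) := by simp
        _ ≤ ∑ b ∈ I, (if ‖p.1 b - p.1 a‖ < 1 then (1 : ℝ) else 0) := by
            refine sum_le_sum fun b hb => ?_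
            rw [hI, mem_filter] at ha hb
            have h1 := rd_le K s hK hs p (Sum.inl a)
            have h2 := rd_le K s hK hs p (Sum.inl b)
            have h3 : ‖p.1 b - p.1 a‖ < 1 := by
              calc ‖p.1 b - p.1 a‖ = ‖(v - p.1 a) - (v - p.1 b)‖ := by congr 1; abel
                _ ≤ ‖v - p.1 a‖ + ‖v - p.1 b‖ := norm_sub_le _ _
                _ < 1 := by linarith [ha.2, hb.2]
            rw [if_pos h3]
        _ ≤ ∑ b, (if ‖p.1 b - p.1 a‖ < 1 then (1 : ℝ) else 0) :=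
            sum_le_sum_of_subset_of_nonneg (subset_univ _) fun b _ _ => by positivity
    have h1 := rd_e2 K s hK hs p a
    have h2 : 0 < ce p (p.1 a) 1 ^ (2 / 3 : ℝ) := Real.rpow_pos_of_pos hc0 _
    have h3 : ce p (p.1 a) 1 ^ (1 / 3 : ℝ) * ce p (p.1 a) 1 ^ (2 / 3 : ℝ) = ce p (p.1 a) 1 := by
      rw [← Real.rpow_add hc0]
      norm_num
    rw [div_le_div_iff₀ h2 hcard]
    have hrp := rd_pos K s hK hs p (Sum.inl a)
    calc rd K s p (Sum.inl a) * I.card ≤ rd K s p (Sum.inl a) * ce p (p.1 a) 1 :=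
          mul_le_mul_of_nonneg_left hcI hrp.le
      _ = (rd K s p (Sum.inl a) * ce p (p.1 a) 1 ^ (1 / 3 : ℝ)) * ce p (p.1 a) 1 ^ (2 / 3 : ℝ) := by
          rw [mul_assoc, h3]
      _ ≤ s * ce p (p.1 a) 1 ^ (2 / 3 : ℝ) := mul_le_mul_of_nonneg_right h1 h2.le
  calc ∑ a ∈ I, rd K s p (Sum.inl a) / ce p (p.1 a) 1 ^ (2 / 3 : ℝ) ≤ ∑ a ∈ I, s / I.card :=
        sum_le_sum key
    _ = s := by
        rw [sum_const, nsmul_eq_mul]
        field_simp

theorem commB (zp C0 K : ℝ) (hK : 1 ≤ K) {χ : E3 → ℝ} (hχ : Bump χ) : ∃ C : ℝ, 0 ≤ C ∧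
    ∀ (η : ℝ) (_ : 0 < η) (s : ℝ) (_ : 0 < s) (_ : s ≤ 1 / 4)
    (n k : ℕ) (z : Fin k → ℝ) (_ : ∀ j, 0 ≤ z j ∧ z j ≤ zp)
    (p : Cfg n k) (_ : Function.Injective p.2) (g : E3 → ℝ) (_ : Wt C0 g)
    (u : E3 → ℝ) (_ : ContDiff ℝ (⊤ : ℕ∞) u),
    ∑ i, cg z i * ∫ v, (g v - g (ps p i)) *
        (chr χ (rd K s p i) (v - ps p i) ^ 2 * u v) ≤
      η * ((∑ a, g (p.1 a) * ce p (p.1 a) 1 ^ (2 / 3 : ℝ)) + ∑ j, g (p.2 j)) +
      C * η⁻¹ * s * ∫ v in {v | ∃ i, ‖v - ps p i‖ < 1 / 4}, (g v * (gr u v +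
        Set.indicator {v | ∃ x, ‖x - v‖ < 1 ∧ lap g x ≠ 0} 1 v * u v ^ 2)) := by
  obtain ⟨CA, hCA, hcomm⟩ := commA C0 hχ
  obtain ⟨Cn, hCn, hpk⟩ := pack2 K hK
  refine ⟨(1 + zp ^ 2) * CA * (|C0| * (1 + Cn)), by positivity, ?_⟩
  intro η hη s hs hs4 n k z hz p hinj g hg u hu
  have hC1 := cb_one hg
  have hC0 : |C0| = C0 := abs_of_nonneg (by linarith)
  rw [hC0]
  have huc : Continuous u := hu.continuous
  have hgc : Continuous g := hg.smooth.continuous
  -- the set `D`
  obtain ⟨D, hD⟩ : ∃ D : Set E3, D = {v | ∃ x, ‖x - v‖ < 1 ∧ lap g x ≠ 0} := ⟨_, rfl⟩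
  rw [← hD]
  have hDo : IsOpen D := by
    have h1 : D = ⋃ x ∈ {x : E3 | lap g x ≠ 0}, Metric.ball x 1 := by
      rw [hD]
      ext v
      simp only [Set.mem_setOf_eq, Set.mem_iUnion, Metric.mem_ball, dist_eq_norm, exists_prop]
      constructor
      · rintro ⟨x, h1, h2⟩
        exact ⟨x, h2, by rwa [norm_sub_rev]⟩
      · rintro ⟨x, h1, h2⟩
        exact ⟨x, by rwa [norm_sub_rev], h1⟩
    rw [h1]
    exact isOpen_biUnion fun x _ => Metric.isOpen_ball
  have hDm : MeasurableSet D := hDo.measurableSet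
  obtain ⟨f, hf⟩ : ∃ f : E3 → ℝ, f = fun v => gr u v + D.indicator 1 v * u v ^ 2 := ⟨_, rfl⟩
  have hind : (fun v => D.indicator (1 : E3 → ℝ) v * u v ^ 2) = D.indicator (fun v => u v ^ 2) := by
    funext v
    by_cases hv : v ∈ D
    · simp [hv]
    · simp [hv]
  have hf0 : ∀ v, 0 ≤ f v := by
    intro v
    rw [hf]
    exact add_nonneg (cb_gr_nn u v)
      (mul_nonneg (Set.indicator_nonneg (fun _ _ => zero_le_one) _) (sq_nonneg _))
  have hball : ∀ (h : E3 → ℝ) (B : Set E3), Continuous h → Bornology.IsBounded B →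
      IntegrableOn h B := fun h B hh hB =>
    (hh.continuousOn.integrableOn_compact hB.isCompact_closure).mono_set subset_closure
  have hfI : ∀ B : Set E3, Bornology.IsBounded B → IntegrableOn f B := by
    intro B hB
    rw [hf]
    refine (hball _ B (cb_gr_cts hu) hB).add ?_
    rw [hind]
    exact (hball _ B (huc.pow 2) hB).indicator hDm
  have hgfI : ∀ B : Set E3, Bornology.IsBounded B → IntegrableOn (fun v => g v * f v) B := by
    intro B hB
    have h1 : (fun v => g v * f v) = fun v => g v * gr u v + D.indicator (fun v => g v * u v ^ 2) v := by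
      funext v
      rw [hf]
      by_cases hv : v ∈ D
      · simp [hv, mul_add]
      · simp [hv]
    rw [h1]
    exact (hball _ B (hgc.mul (cb_gr_cts hu)) hB).add
      ((hball _ B (hgc.mul (huc.pow 2)) hB).indicator hDm)
  -- the set `U`
  obtain ⟨U, hU⟩ : ∃ U : Set E3, U = {v | ∃ i, ‖v - ps p i‖ < 1 / 4} := ⟨_, rfl⟩
  rw [← hU]
  have hUe : U = ⋃ i, Metric.ball (ps p i) (1 / 4) := by
    rw [hU]
    ext v
    simp only [Set.mem_setOf_eq, Set.mem_iUnion, Metric.mem_ball, dist_eq_norm]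
  have hUm : MeasurableSet U := by
    rw [hUe]
    exact MeasurableSet.iUnion fun i => measurableSet_ball
  have hUb : Bornology.IsBounded U := by
    rw [hUe]
    exact (Bornology.isBounded_iUnion).2 fun i => Metric.isBounded_ball
  -- abbreviations
  obtain ⟨r, hr⟩ : ∃ r, r = rd K s p := ⟨_, rfl⟩
  obtain ⟨y, hy⟩ : ∃ y : Fin n ⊕ Fin k → E3, y = ps p := ⟨_, rfl⟩
  have hr0 : ∀ i, 0 < r i := fun i => by rw [hr]; exact rd_pos K s hK hs p i
  have hrs : ∀ i, r i ≤ s := fun i => by rw [hr]; exact rd_le K s hK hs p i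
  obtain ⟨w, hw⟩ : ∃ w : Fin n ⊕ Fin k → ℝ,
      w = Sum.elim (fun a => ce p (p.1 a) 1 ^ (2 / 3 : ℝ)) (fun _ => 1) := ⟨_, rfl⟩
  have hw0 : ∀ i, 0 < w i := by
    intro i
    rw [hw]
    rcases i with a | j
    · exact Real.rpow_pos_of_pos (by linarith [ce_self p a]) _
    · exact one_pos
  have hT : ∀ i, cg z i * ∫ v, (g v - g (y i)) * (chr χ (r i) (v - y i) ^ 2 * u v) ≤
      η * (g (y i) * w i) + ((1 + zp ^ 2) * CA) * η⁻¹ *
        (r i / w i * (g (y i) * ∫ v in Metric.ball (y i) (r i), f v)) := by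
    intro i
    refine cb_young (A := CA) ?_ ?_ hCA (hg.pos _).le (hr0 i).le
      (integral_nonneg fun v => hf0 v) (hw0 i) hη (by positivity)
    · have h1 := hcomm g hg u hu (y i) (r i) (hr0 i) (by linarith [hrs i]) D hDm ?_
      · rw [hf]
        exact h1
      · intro x hx hl v hv
        rw [hD]
        refine ⟨x, ?_, hl⟩
        rw [Metric.mem_ball, dist_eq_norm] at hx hv
        calc ‖x - v‖ = ‖(x - y i) - (v - y i)‖ := by congr 1; abel
          _ ≤ ‖x - y i‖ + ‖v - y i‖ := norm_sub_le _ _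
          _ < 1 := by linarith [hrs i]
    · rcases i with a | j
      · simp only [cg, Sum.elim_inl]
        nlinarith [sq_nonneg zp]
      · simp only [cg, Sum.elim_inr]
        have := hz j
        nlinarith [this.1, this.2]
  -- the second sums
  have hov : ∀ v, ∑ i, r i / w i * (Metric.ball (y i) (r i)).indicator 1 v ≤ (1 + Cn) * s := by
    intro v
    rw [Fintype.sum_sum_type]
    have h1 : ∑ a : Fin n, r (Sum.inl a) / w (Sum.inl a) *
        (Metric.ball (y (Sum.inl a)) (r (Sum.inl a))).indicator (1 : E3 → ℝ) v ≤ s := by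
      refine le_trans (le_of_eq ?_) (cb_el K s hK hs hs4 p v)
      refine sum_congr rfl fun a _ => ?_
      rw [hw, hy, hr]
      by_cases hv : ‖v - p.1 a‖ < rd K s p (Sum.inl a)
      · rw [if_pos hv, Set.indicator_of_mem (by
          rw [Metric.mem_ball, dist_eq_norm]
          exact hv), Pi.one_apply, mul_one]
        rfl
      · rw [if_neg hv, Set.indicator_of_notMem (by
          rw [Metric.mem_ball, dist_eq_norm]
          exact hv), mul_zero]
    have h2 : ∑ j : Fin k, r (Sum.inr j) / w (Sum.inr j) *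
        (Metric.ball (y (Sum.inr j)) (r (Sum.inr j))).indicator (1 : E3 → ℝ) v ≤ Cn * s := by
      have h3 := hpk k p.2 hinj v s hs (fun j => rd K s p (Sum.inr j)) fun j =>
        ⟨rd_pos K s hK hs p _, rd_le K s hK hs p _, rd_n1 K s hK hs p j⟩
      refine le_trans (le_of_eq ?_) h3
      refine sum_congr rfl fun j _ => ?_
      rw [hw, hy, hr]
      by_cases hv : ‖v - p.2 j‖ < rd K s p (Sum.inr j)
      · rw [if_pos hv, Set.indicator_of_mem (by
          rw [Metric.mem_ball, dist_eq_norm]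
          exact hv), Pi.one_apply, mul_one, Sum.elim_inr, div_one]
      · rw [if_neg hv, Set.indicator_of_notMem (by
          rw [Metric.mem_ball, dist_eq_norm]
          exact hv), mul_zero]
    linarith
  have hsum2 : ∑ i, r i / w i * (g (y i) * ∫ v in Metric.ball (y i) (r i), f v) ≤
      C0 * ((1 + Cn) * s * ∫ v in U, g v * f v) := by
    have h1 : ∀ i, r i / w i * (g (y i) * ∫ v in Metric.ball (y i) (r i), f v) ≤
        C0 * ∫ v in U, r i / w i * (Metric.ball (y i) (r i)).indicator 1 v * (g v * f v) := by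
      intro i
      have hbb : Bornology.IsBounded (Metric.ball (y i) (r i)) := Metric.isBounded_ball
      have h2 : g (y i) * ∫ v in Metric.ball (y i) (r i), f v ≤
          C0 * ∫ v in Metric.ball (y i) (r i), g v * f v := by
        rw [← integral_const_mul, ← integral_const_mul]
        refine setIntegral_mono_on ((hfI _ hbb).const_mul _) ((hgfI _ hbb).const_mul _)
          measurableSet_ball fun v hv => ?_
        rw [Metric.mem_ball, dist_eq_norm] at hv
        have h3 : g (y i) ≤ C0 * g v := hg.har _ _ (by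
          rw [norm_sub_rev]
          linarith [hrs i])
        calc g (y i) * f v ≤ (C0 * g v) * f v := mul_le_mul_of_nonneg_right h3 (hf0 v)
          _ = C0 * (g v * f v) := by ring
      have h4 : ∫ v in U, r i / w i * (Metric.ball (y i) (r i)).indicator 1 v * (g v * f v) =
          r i / w i * ∫ v in Metric.ball (y i) (r i), g v * f v := by
        have h5 : ∀ v, r i / w i * (Metric.ball (y i) (r i)).indicator 1 v * (g v * f v) =
            r i / w i * (Metric.ball (y i) (r i)).indicator (fun v => g v * f v) v := by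
          intro v
          by_cases hv : v ∈ Metric.ball (y i) (r i)
          · simp only [Set.indicator_of_mem hv, Pi.one_apply, mul_one]
          · simp only [Set.indicator_of_notMem hv, mul_zero, zero_mul]
        simp only [h5]
        rw [integral_const_mul, setIntegral_indicator measurableSet_ball]
        congr 3
        refine Set.inter_eq_right.2 fun v hv => ?_
        rw [hU]
        refine ⟨i, ?_⟩
        rw [Metric.mem_ball, dist_eq_norm] at hv
        rw [← hy]
        linarith [hrs i]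
      rw [h4]
      have h6 : 0 ≤ r i / w i := div_nonneg (hr0 i).le (hw0 i).le
      calc r i / w i * (g (y i) * ∫ v in Metric.ball (y i) (r i), f v) ≤
            r i / w i * (C0 * ∫ v in Metric.ball (y i) (r i), g v * f v) :=
            mul_le_mul_of_nonneg_left h2 h6
        _ = C0 * (r i / w i * ∫ v in Metric.ball (y i) (r i), g v * f v) := by ring
    refine (sum_le_sum fun i _ => h1 i).trans ?_
    rw [← mul_sum]
    refine mul_le_mul_of_nonneg_left ?_ (by linarith)
    have hint : ∀ i, IntegrableOn (fun v => r i / w i *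
        (Metric.ball (y i) (r i)).indicator 1 v * (g v * f v)) U := by
      intro i
      have h5 : (fun v => r i / w i * (Metric.ball (y i) (r i)).indicator 1 v * (g v * f v)) =
          fun v => r i / w i * (Metric.ball (y i) (r i)).indicator (fun v => g v * f v) v := by
        funext v
        by_cases hv : v ∈ Metric.ball (y i) (r i)
        · simp only [Set.indicator_of_mem hv, Pi.one_apply, mul_one]
        · simp only [Set.indicator_of_notMem hv, mul_zero, zero_mul]
      rw [h5]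
      exact ((hgfI U hUb).indicator measurableSet_ball).const_mul _
    rw [← integral_finsetSum _ fun i _ => hint i, ← integral_const_mul]
    refine integral_mono (integrable_finsetSum _ fun i _ => hint i)
      ((hgfI U hUb).const_mul _) fun v => ?_
    beta_reduce
    rw [← sum_mul]
    exact mul_le_mul_of_nonneg_right (hov v) (mul_nonneg (hg.pos v).le (hf0 v))
  have hsum1 : ∑ i, η * (g (y i) * w i) =
      η * ((∑ a, g (p.1 a) * ce p (p.1 a) 1 ^ (2 / 3 : ℝ)) + ∑ j, g (p.2 j)) := by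
    rw [← mul_sum, Fintype.sum_sum_type, hw, hy]
    congr 2
    refine sum_congr rfl fun j _ => ?_
    simp only [ps, Sum.elim_inr, mul_one]
  have hfin : ∑ i, cg z i * ∫ v, (g v - g (y i)) * (chr χ (r i) (v - y i) ^ 2 * u v) ≤
      ∑ i, (η * (g (y i) * w i) + ((1 + zp ^ 2) * CA) * η⁻¹ *
        (r i / w i * (g (y i) * ∫ v in Metric.ball (y i) (r i), f v))) :=
    sum_le_sum fun i _ => hT i
  rw [sum_add_distrib, hsum1, ← mul_sum] at hfin
  rw [← hr, ← hy]
  refine hfin.trans ?_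
  have h7 : ((1 + zp ^ 2) * CA) * η⁻¹ *
      ∑ i, r i / w i * (g (y i) * ∫ v in Metric.ball (y i) (r i), f v) ≤
      ((1 + zp ^ 2) * CA) * η⁻¹ * (C0 * ((1 + Cn) * s * ∫ v in U, g v * f v)) :=
    mul_le_mul_of_nonneg_left hsum2 (by positivity)
  have h8 : ((1 + zp ^ 2) * CA) * η⁻¹ * (C0 * ((1 + Cn) * s * ∫ v in U, g v * f v)) =
      (1 + zp ^ 2) * CA * (C0 * (1 + Cn)) * η⁻¹ * s * ∫ v in U, g v * f v := by ring
  rw [h8] at h7
  have h9 : ∫ v in U, (g v * (gr u v + D.indicator 1 v * u v ^ 2)) = ∫ v in U, g v * f v := by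
    rw [hf]
  rw [h9]
  linarith

end H6.CX
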