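import Pool.Agent.H6.CT.BDefs

/-! Definitions for the theorem in general domains: walks with killing, weights, adaptive
smearing radii, weighted quantities. -/

open MeasureTheory Finset

namespace H6.CX

open H6.CM H6.CB H6.CL H6.CT

/-- convolution with the probability density `χ ^ 2` -/
noncomputable def Mv (χ f : E3 → ℝ) (x : E3) : ℝ := ∫ y, χ (x - y) ^ 2 * f y

/-- the short range kernel `‖v‖⁻¹ - U χ v` -/
noncomputable def kk (χ : E3 → ℝ) (v : E3) : ℝ := ‖v‖⁻¹ - U χ v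

/-- convolution with the short range kernel -/
noncomputable def Kv (χ f : E3 → ℝ) (x : E3) : ℝ := ∫ y, kk χ (x - y) * f y

/-- killing functions -/
structure Kil (Cz : ℝ) (ζ : E3 → ℝ) : Prop where
  smooth : ContDiff ℝ (⊤ : ℕ∞) ζ
  cpt : HasCompactSupport ζ
  mem : ∀ v, 0 ≤ ζ v ∧ ζ v ≤ 1 / 2
  grad : ∀ v, gr ζ v ≤ Cz

/-- density of the walkers after `i` steps; the walk starts near `y` -/
noncomputable def Aw (χ ζ : E3 → ℝ) (y : E3) : ℕ → E3 → ℝ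
  | 0 => fun x => χ (x - y) ^ 2
  | i + 1 => fun x => (1 - ζ x) * Mv χ (Aw χ ζ y i) x

/-- occupation density of the first `m` steps -/
noncomputable def Sw (χ ζ : E3 → ℝ) (y : E3) (m : ℕ) (x : E3) : ℝ :=
  ∑ i ∈ range m, Aw χ ζ y i x

/-- the occupation density -/
noncomputable def Gw (χ ζ : E3 → ℝ) (y x : E3) : ℝ := ∑' i, Aw χ ζ y i x

/-- the weight -/
noncomputable def gw (χ ζ : E3 → ℝ) (y x : E3) : ℝ := Kv χ (Gw χ ζ y) x

/-- density of the killed walkers -/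
noncomputable def sw (χ ζ : E3 → ℝ) (y x : E3) : ℝ := ζ x * Mv χ (Gw χ ζ y) x

/-- weights with a Harnack inequality -/
structure Wt (C0 : ℝ) (g : E3 → ℝ) : Prop where
  smooth : ContDiff ℝ (⊤ : ℕ∞) g
  pos : ∀ v, 0 < g v
  har : ∀ u v, ‖u - v‖ ≤ 8 → g u ≤ C0 * g v
  grad : ∀ v, gr g v ≤ C0 * g v ^ 2
  lapl : ∀ v, |lap g v| ≤ C0 * g v

/-- weights `g` whose Laplacian is `-4π (m - σ)`, with the inequality of Green and the
counting identity -/
structure Ws (C0 : ℝ) (g m σ : E3 → ℝ) : Prop where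
  wt : Wt C0 g
  mc : Cc m
  sc : Cc σ
  mn : ∀ v, 0 ≤ m v
  sn : ∀ v, 0 ≤ σ v
  lap0 : ∀ v, m v = 0 → σ v = 0 → lap g v = 0
  sle : ∀ v, σ v ≤ C0 * g v
  mass : ∫ v, σ v ≤ ∫ v, m v
  green : ∀ (ρ : E3 → ℝ) (c : ℝ) (B : Set E3), Cc ρ → MeasurableSet B →
    Bornology.IsBounded B →
    (4 * Real.pi)⁻¹ * (∫ v in B, g v * gr (pot ρ) v) + (∫ v, m v * (pot ρ v - c) ^ 2) / 2 -
      (∫ v, σ v * (pot ρ v - c) ^ 2) / 2 - c ^ 2 / 2 * ((∫ v, m v) - ∫ v, σ v) ≤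
      ∫ v, g v * (ρ v * (pot ρ v - c))
  count : ∀ (ρ : E3 → ℝ), Cc ρ →
    ∫ v, g v * ρ v = (∫ v, m v * pot ρ v) - ∫ v, σ v * pot ρ v

theorem Wt.mono {C0 C1 : ℝ} {g : E3 → ℝ} (h : Wt C0 g) (hC : C0 ≤ C1) : Wt C1 g where
  smooth := h.smooth
  pos := h.pos
  har := fun u v huv => (h.har u v huv).trans (mul_le_mul_of_nonneg_right hC (h.pos v).le)
  grad := fun v => (h.grad v).trans (mul_le_mul_of_nonneg_right hC (sq_nonneg _))
  lapl := fun v => (h.lapl v).trans (mul_le_mul_of_nonneg_right hC (h.pos v).le)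

theorem Ws.mono {C0 C1 : ℝ} {g m σ : E3 → ℝ} (h : Ws C0 g m σ) (hC : C0 ≤ C1) :
    Ws C1 g m σ where
  wt := h.wt.mono hC
  mc := h.mc
  sc := h.sc
  mn := h.mn
  sn := h.sn
  lap0 := h.lap0
  sle := fun v => (h.sle v).trans (mul_le_mul_of_nonneg_right hC (h.wt.pos v).le)
  mass := h.mass
  green := h.green
  count := h.count

/-- the points at distance less than `t` from a point where `ζ` does not vanish -/
def Bz (ζ : E3 → ℝ) (t : ℝ) : Set E3 := {v | ∃ x, ‖x - v‖ < t ∧ ζ x ≠ 0}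

/-- the points at distance at most `D` from the centre of a unit ball where `ζ = 1 / 2` -/
def Nb (ζ : E3 → ℝ) (D : ℝ) : Set E3 := {v | ∃ u, ‖v - u‖ ≤ D ∧ ∀ w, ‖w - u‖ < 1 → ζ w = 1 / 2}

/-- charges of all the particles -/
noncomputable def cg {n k : ℕ} (z : Fin k → ℝ) : Fin n ⊕ Fin k → ℝ := Sum.elim (fun _ => -1) z

/-- positions of all the particles -/
noncomputable def ps {n k : ℕ} (p : Cfg n k) : Fin n ⊕ Fin k → E3 := Sum.elim p.1 p.2

/-- inverse distance to the nearest nucleus (nuclei at `v` itself are not counted) -/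
noncomputable def iD {n k : ℕ} (p : Cfg n k) (v : E3) : ℝ := ⨆ j, ‖v - p.2 j‖⁻¹

/-- the smearing radii -/
noncomputable def rd {n k : ℕ} (K s : ℝ) (p : Cfg n k) : Fin n ⊕ Fin k → ℝ :=
  Sum.elim (fun a => (iD p (p.1 a) + s⁻¹ * ce p (p.1 a) 1 ^ (1 / 3 : ℝ))⁻¹)
    (fun j => (K⁻¹ * iD p (p.2 j) + s⁻¹)⁻¹)

/-- smeared charge density -/
noncomputable def rho {ι : Type} [Fintype ι] (χ : E3 → ℝ) (e : ι → ℝ) (y : ι → E3)
    (r : ι → ℝ) (v : E3) : ℝ := ∑ i, e i * chr χ (r i) (v - y i) ^ 2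

/-- its potential -/
noncomputable def uu {ι : Type} [Fintype ι] (χ : E3 → ℝ) (e : ι → ℝ) (y : ι → E3)
    (r : ι → ℝ) (v : E3) : ℝ := ∑ i, e i * U (chr χ (r i)) (v - y i)

/-- the potential of the smeared particles -/
noncomputable def ua {n k : ℕ} (χ : E3 → ℝ) (K s : ℝ) (z : Fin k → ℝ) (p : Cfg n k)
    (v : E3) : ℝ := uu χ (cg z) (ps p) (rd K s p) v

/-- interaction of two smeared unit charges -/
noncomputable def nn (χ : E3 → ℝ) (r s : ℝ) (v : E3) : ℝ :=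
  ∫ w, chr χ r w ^ 2 * U (chr χ s) (w - v)

/-- the weighted sum of the potential energies of the particles -/
noncomputable def EG {n k : ℕ} (g : E3 → ℝ) (z : Fin k → ℝ) (c : ℝ) (p : Cfg n k) : ℝ :=
  ∑ j, z j * (g (p.2 j) * (phiN z j p (p.2 j) - c)) -
    ∑ a, g (p.1 a) * (phiE z a p (p.1 a) - c)

/-- the smeared potential at `y` relative to `c` -/
noncomputable def av {n k : ℕ} (χ : E3 → ℝ) (z : Fin k → ℝ) (c : ℝ) (p : Cfg n k)
    (y : E3) : ℝ := ∑ j, z j * U χ (y - p.2 j) - ∑ a, U χ (y - p.1 a) - c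

/-- the local quantity in the bulk -/
noncomputable def Qp {n k : ℕ} (z : Fin k → ℝ) (c : ℝ) (p : Cfg n k) (x : E3) : ℝ :=
  (∫ v in Metric.ball x 1, (phi z p v - c) ^ 2) + ce p x 3 ^ (5 / 3 : ℝ) + cn p x 3

/-- the weighted kinetic energy -/
noncomputable def TGs {q n k : ℕ} (g : E3 → ℝ) (ψ : (Fin n → Fin q) → Cfg n k → ℂ) : ℝ :=
  (∑ a, ∑ σ, ∫ p, g (p.1 a) * ge (ψ σ) a p) + ∑ j, ∑ σ, ∫ p, g (p.2 j) * gn (ψ σ) j p

end H6.CX
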