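import Pool.Agent.H6.CX.Defs
import Pool.Agent.H6.CB.NMax

/-! Interaction of two smeared charges. `U_bds`, `U_le`, `U_out`, `U_cont`, `chr_norm`, `chr_supp`, `chr_pot`. `nn_le`: `U (chr χ s) (w - v) ≤ ‖w - v‖⁻¹` for `w ≠ v` (almost everywhere) and `∫ chr χ r w ^ 2 * ‖w - v‖⁻¹ = U (chr χ r) v ≤ ‖v‖⁻¹`. `nn_out`: if `(r + s) / 2 ≤ ‖v‖` and `‖w‖ < r / 2` then `s / 2 ≤ ‖w - v‖`, so `U (chr χ s) (w - v) = ‖w - v‖⁻¹`, and `U (chr χ r) v = ‖v‖⁻¹`. `nn_bd`: `U (chr χ s) ≤ C s⁻¹` and `∫ chr χ r ^ 2 = 1`; for the bound by `r⁻¹` exchange the integrals: `nn χ r s v = ∫ u, chr χ s u ^ 2 * U (chr χ r) (u + v)` (Fubini, `U` even). -/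

open MeasureTheory Finset

namespace H6.CX

open H6.CM H6.CB H6.CL H6.CT

section

variable {χ : E3 → ℝ} (h : Bump χ)
include h

theorem nn_nonneg (r s : ℝ) (v : E3) : 0 ≤ nn χ r s v :=
  integral_nonneg fun w => mul_nonneg (sq_nonneg _) (U_nonneg _ _)

private theorem NnF_pot (r : ℝ) (hr : 0 < r) (v : E3) :
    Integrable fun w => chr χ r w ^ 2 * ‖v - w‖⁻¹ := by
  have h1 := chr_pot_int h r hr 0 v
  simp only [sub_zero] at h1
  refine h1.congr (Filter.Eventually.of_forall fun w => ?_)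
  beta_reduce
  rw [norm_sub_rev]

theorem nn_int (r s : ℝ) (hr : 0 < r) (hs : 0 < s) (v : E3) :
    Integrable (fun w => chr χ r w ^ 2 * U (chr χ s) (w - v)) := by
  refine Continuous.integrable_of_hasCompactSupport
    (((chr_smooth h r hr).continuous.pow 2).mul ((U_cont h s hs).comp (continuous_id.sub continuous_const))) ?_
  refine HasCompactSupport.intro (isCompact_closedBall (0 : E3) (r / 2)) fun w hw => ?_
  have h0 : chr χ r w = 0 := by
    by_contra h0
    apply hw
    rw [Metric.mem_closedBall, dist_zero_right]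
    exact (chr_supp h r hr w h0).le
  rw [h0]
  norm_num

theorem nn_le (r s : ℝ) (hr : 0 < r) (hs : 0 < s) (v : E3) (hv : v ≠ 0) :
    nn χ r s v ≤ ‖v‖⁻¹ := by
  have h1 : nn χ r s v ≤ ∫ w, chr χ r w ^ 2 * ‖v - w‖⁻¹ := by
    refine integral_mono_ae (nn_int h r s hr hs v) (NnF_pot h r hr v) ?_
    have h2 : ∀ᵐ w : E3, w ≠ v := compl_mem_ae_iff.2 (measure_singleton v)
    filter_upwards [h2] with w hw
    rw [norm_sub_rev]
    exact mul_le_mul_of_nonneg_left (U_le h s hs (w - v) (sub_ne_zero.2 hw)) (sq_nonneg _)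
  exact h1.trans (U_le h r hr v hv)

theorem nn_out (r s : ℝ) (hr : 0 < r) (hs : 0 < s) (v : E3) (hv : (r + s) / 2 ≤ ‖v‖) :
    nn χ r s v = ‖v‖⁻¹ := by
  rw [← U_out h r hr v (by linarith)]
  unfold nn
  rw [U]
  refine integral_congr_ae (Filter.Eventually.of_forall fun w => ?_)
  beta_reduce
  by_cases h0 : chr χ r w = 0
  · rw [h0]
    norm_num
  · have h1 := chr_supp h r hr w h0
    have h2 : ‖v‖ ≤ ‖w - v‖ + ‖w‖ := by
      have h3 := norm_sub_le w (w - v)
      rw [sub_sub_cancel] at h3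
      linarith
    rw [U_out h s hs (w - v) (by linarith), norm_sub_rev]

private theorem NnF_symm (r s : ℝ) (hr : 0 < r) (hs : 0 < s) (v : E3) :
    nn χ r s v = nn χ s r (-v) := by
  have hm : Measurable fun z : E3 × E3 => chr χ r z.1 ^ 2 * (chr χ s z.2 ^ 2 * ‖z.1 - v - z.2‖⁻¹) := by
    have m1 : Measurable fun z : E3 × E3 => chr χ r z.1 ^ 2 :=
      (((chr_smooth h r hr).continuous.comp continuous_fst).pow 2).measurable
    have m2 : Measurable fun z : E3 × E3 => chr χ s z.2 ^ 2 :=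
      (((chr_smooth h s hs).continuous.comp continuous_snd).pow 2).measurable
    have m3 : Measurable fun z : E3 × E3 => ‖z.1 - v - z.2‖⁻¹ :=
      (((continuous_fst.sub continuous_const).sub continuous_snd).norm.measurable).inv
    exact m1.mul (m2.mul m3)
  have hint : Integrable (fun z : E3 × E3 => chr χ r z.1 ^ 2 * (chr χ s z.2 ^ 2 * ‖z.1 - v - z.2‖⁻¹))
      (volume.prod volume) := by
    rw [integrable_prod_iff hm.aestronglyMeasurable]
    refine ⟨Filter.Eventually.of_forall fun w => (NnF_pot h s hs (w - v)).const_mul (chr χ r w ^ 2), ?_⟩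
    refine (nn_int h r s hr hs v).congr (Filter.Eventually.of_forall fun w => ?_)
    beta_reduce
    rw [U, ← integral_const_mul]
    refine integral_congr_ae (Filter.Eventually.of_forall fun u => ?_)
    beta_reduce
    rw [Real.norm_of_nonneg (by positivity)]
  have h1 : nn χ r s v = ∫ w, ∫ u, chr χ r w ^ 2 * (chr χ s u ^ 2 * ‖w - v - u‖⁻¹) := by
    unfold nn
    refine integral_congr_ae (Filter.Eventually.of_forall fun w => ?_)
    beta_reduce
    rw [U, ← integral_const_mul]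
  have h2 : nn χ s r (-v) = ∫ u, ∫ w, chr χ r w ^ 2 * (chr χ s u ^ 2 * ‖w - v - u‖⁻¹) := by
    unfold nn
    refine integral_congr_ae (Filter.Eventually.of_forall fun u => ?_)
    beta_reduce
    rw [U, ← integral_const_mul]
    refine integral_congr_ae (Filter.Eventually.of_forall fun w => ?_)
    beta_reduce
    have h3 : u - -v - w = -(w - v - u) := by abel
    rw [h3, norm_neg]
    ring
  rw [h1, h2]
  exact integral_integral_swap hint

theorem nn_bd : ∃ C : ℝ, 0 ≤ C ∧ ∀ (r s : ℝ) (_ : 0 < r) (_ : 0 < s) (v : E3),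
    nn χ r s v ≤ C * r⁻¹ ∧ nn χ r s v ≤ C * s⁻¹ := by
  obtain ⟨C, hC0, hC⟩ := U_bds h
  have key : ∀ (r s : ℝ) (_ : 0 < r) (_ : 0 < s) (v : E3), nn χ r s v ≤ C * s⁻¹ := by
    intro r s hr hs v
    have hi : Integrable fun w => chr χ r w ^ 2 := by
      refine Continuous.integrable_of_hasCompactSupport ((chr_smooth h r hr).continuous.pow 2) ?_
      refine HasCompactSupport.intro (isCompact_closedBall (0 : E3) (r / 2)) fun w hw => ?_
      have h0 : chr χ r w = 0 := by
        by_contra h0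
        apply hw
        rw [Metric.mem_closedBall, dist_zero_right]
        exact (chr_supp h r hr w h0).le
      rw [h0]
      norm_num
    have h1 : nn χ r s v ≤ ∫ w, chr χ r w ^ 2 * (C * s⁻¹) :=
      integral_mono (nn_int h r s hr hs v) (hi.mul_const _) fun w =>
        mul_le_mul_of_nonneg_left (hC s hs (w - v)).2 (sq_nonneg _)
    rw [integral_mul_const, chr_norm h r hr, one_mul] at h1
    exact h1
  refine ⟨C, hC0, fun r s hr hs v => ⟨?_, key r s hr hs v⟩⟩
  rw [NnF_symm h r s hr hs v]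
  exact key s r hs hr (-v)

end

end H6.CX
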