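import Pool.Agent.H6.CX.RdF
import Pool.Agent.H6.CX.NnF
import Pool.Agent.H6.CX.Pack

/-! The interaction of the particles which is not seen by the smeared charges, and the self energies. Write `δ i l = ‖y i - y l‖⁻¹ - nn χ (r i) (r l) (y l - y i) ≥ 0` (`nn_le`; `‖y l - y i‖ = ‖y i - y l‖`). Electron pairs: `e i * e l = 1`, nonnegative. Electron and nucleus (two terms, with `g (p.1 a)` and `g (p.2 j)`): if `δ ≠ 0` then `‖x a - R j‖ < (r a + r j) / 2` (`nn_out`), and `r a ≤ ‖x a - R j‖` (`rd_e1`), so `‖x a - R j‖ < r j ≤ s ≤ 1 / 4` and `‖x a - R j‖ * iD p (R j) ≤ K` (`rd_n1`), and `g (R j) ≤ C0 * g (x a)`; by `pack1` (with `v = x a`) the sum over `j` of `‖x a - R j‖⁻¹` over these `j` is at most `C * iD p (x a)`. Nuclei: for fixed `j` with `k ≥ 2` let `l` be an index with `‖R j - R l‖⁻¹ = iD p (R j)` (maximum, `l ≠ j`); `∑ l ≠ j, z l * δ j l ≥ zm * (iD p (R j) - C * (K⁻¹ * iD p (R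 j) + s⁻¹))` by `nn_bd`, `rd_inv`, and the self energy is at most `zp * C * (K⁻¹ * iD p (R j) + s⁻¹)`; choose `K ≥ 1` with `C * (zm + zp) ≤ zm * K`. Electron self energy: `nn_bd` and `rd_inv`. Multiply by `z j * g (R j)` and sum. For `k = 1` there are only self energies and `iD p (R 0) = 0`. -/

open MeasureTheory Finset

namespace H6.CX

open H6.CM H6.CB H6.CL H6.CT

private theorem pb_ps {n k : ℕ} {p : Cfg n k} (h1 : Function.Injective p.1)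
    (h2 : Function.Injective p.2) (h12 : ∀ a j, p.1 a ≠ p.2 j) {i l : Fin n ⊕ Fin k}
    (h : i ≠ l) : ps p i ≠ ps p l := by
  rcases i with a | j <;> rcases l with b | m
  · intro e
    exact h (congrArg Sum.inl (h1 e))
  · exact h12 a m
  · exact (h12 b j).symm
  · intro e
    exact h (congrArg Sum.inr (h2 e))

private theorem pb_erase {α : Type} [Fintype α] [DecidableEq α] (i : α) (f : α → ℝ) :
    ∑ l ∈ univ.erase i, f l = ∑ l, (if l = i then 0 else f l) := by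
  rw [← Finset.add_sum_erase univ (fun l => if l = i then 0 else f l) (mem_univ i)]
  simp only [if_true, zero_add]
  exact sum_congr rfl fun l hl => by rw [if_neg (ne_of_mem_erase hl)]

/-- the unlike pairs -/
private theorem pb_unlike {χ : E3 → ℝ} (hχ : Bump χ) {K s : ℝ} (hK : 1 ≤ K) (hs : 0 < s)
    {n k : ℕ} {p : Cfg n k} (h12 : ∀ a j, p.1 a ≠ p.2 j) (a : Fin n) (j : Fin k) (D : ℝ)
    (hD : D = ‖ps p (Sum.inl a) - ps p (Sum.inr j)‖⁻¹ -
        nn χ (rd K s p (Sum.inl a)) (rd K s p (Sum.inr j))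
          (ps p (Sum.inr j) - ps p (Sum.inl a)) ∨
      D = ‖ps p (Sum.inr j) - ps p (Sum.inl a)‖⁻¹ -
        nn χ (rd K s p (Sum.inr j)) (rd K s p (Sum.inl a))
          (ps p (Sum.inl a) - ps p (Sum.inr j))) :
    D ≤ (if ‖p.1 a - p.2 j‖ * (⨆ l, ‖p.2 j - p.2 l‖⁻¹) ≤ K then ‖p.1 a - p.2 j‖⁻¹ else 0) ∧
    (D ≤ 0 ∨ ‖p.1 a - p.2 j‖ ≤ s) := by
  have e1 : ps p (Sum.inl a : Fin n ⊕ Fin k) = p.1 a := rfl
  have e2 : ps p (Sum.inr j : Fin n ⊕ Fin k) = p.2 j := rfl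
  rw [e1, e2] at hD
  have hra := rd_pos K s hK hs p (Sum.inl a)
  have hrj := rd_pos K s hK hs p (Sum.inr j)
  have h0 : 0 ≤ ‖p.1 a - p.2 j‖⁻¹ := by positivity
  have hle : D ≤ ‖p.1 a - p.2 j‖⁻¹ := by
    rcases hD with h | h
    · rw [h]
      have := nn_nonneg hχ (rd K s p (Sum.inl a)) (rd K s p (Sum.inr j)) (p.2 j - p.1 a)
      linarith
    · rw [h, norm_sub_rev]
      have := nn_nonneg hχ (rd K s p (Sum.inr j)) (rd K s p (Sum.inl a)) (p.1 a - p.2 j)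
      linarith
  by_cases hfar : (rd K s p (Sum.inl a) + rd K s p (Sum.inr j)) / 2 ≤ ‖p.1 a - p.2 j‖
  · have hz : D ≤ 0 := by
      rcases hD with h | h
      · rw [h, nn_out hχ _ _ hra hrj _ (by rw [norm_sub_rev]; exact hfar),
          norm_sub_rev (p.2 j)]
        linarith
      · rw [h, nn_out hχ _ _ hrj hra _ (by rw [add_comm]; exact hfar), norm_sub_rev (p.2 j)]
        linarith
    refine ⟨?_, Or.inl hz⟩
    split_ifs <;> linarith
  · push Not at hfar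
    have h1 := rd_e1 K s hK hs p a j (h12 a j)
    have h2 : ‖p.1 a - p.2 j‖ < rd K s p (Sum.inr j) := by linarith
    have h3 := rd_n1 K s hK hs p j
    have h4 := rd_le K s hK hs p (Sum.inr j)
    have h5 := iD_nonneg p (p.2 j)
    have h6 : ‖p.1 a - p.2 j‖ * iD p (p.2 j) ≤ K :=
      (mul_le_mul_of_nonneg_right h2.le h5).trans h3
    have h7 : ‖p.1 a - p.2 j‖ * (⨆ l, ‖p.2 j - p.2 l‖⁻¹) ≤ K := h6
    refine ⟨?_, Or.inr (by linarith)⟩
    rw [if_pos h7]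
    exact hle

/-- the nearest nucleus -/
private theorem pb_near {χ : E3 → ℝ} {zm C K s : ℝ} (hzm : 0 < zm) (hC : 0 ≤ C)
    (hnb : ∀ (r s : ℝ) (_ : 0 < r) (_ : 0 < s) (v : E3),
      nn χ r s v ≤ C * r⁻¹ ∧ nn χ r s v ≤ C * s⁻¹) (hK : 1 ≤ K) (hs : 0 < s)
    {n k : ℕ} {z : Fin k → ℝ} (hz : ∀ j, zm ≤ z j) {p : Cfg n k} (j : Fin k)
    (hδ : ∀ l, l ≠ j → 0 ≤ ‖p.2 j - p.2 l‖⁻¹ -
      nn χ (rd K s p (Sum.inr j)) (rd K s p (Sum.inr l)) (p.2 l - p.2 j)) :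
    zm * (iD p (p.2 j) - C * (rd K s p (Sum.inr j))⁻¹) ≤
      ∑ l, (if l = j then 0 else z l * (‖p.2 j - p.2 l‖⁻¹ -
        nn χ (rd K s p (Sum.inr j)) (rd K s p (Sum.inr l)) (p.2 l - p.2 j))) := by
  have hrj := rd_pos K s hK hs p (Sum.inr j)
  have : Nonempty (Fin k) := ⟨j⟩
  have hnn : ∀ l, 0 ≤ (if l = j then 0 else z l * (‖p.2 j - p.2 l‖⁻¹ -
        nn χ (rd K s p (Sum.inr j)) (rd K s p (Sum.inr l)) (p.2 l - p.2 j))) := by
    intro l
    split_ifs with h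
    · exact le_rfl
    · exact mul_nonneg (hzm.le.trans (hz l)) (hδ l h)
  obtain ⟨l0, hl0⟩ := exists_eq_ciSup_of_finite (f := fun l => ‖p.2 j - p.2 l‖⁻¹)
  have hiD : iD p (p.2 j) = ‖p.2 j - p.2 l0‖⁻¹ := hl0.symm
  by_cases h : l0 = j
  · rw [hiD, h, sub_self, norm_zero, inv_zero]
    refine le_trans ?_ (sum_nonneg fun l _ => hnn l)
    have : 0 ≤ zm * (C * (rd K s p (Sum.inr j))⁻¹) := by positivity
    linarith
  · refine le_trans ?_ (single_le_sum (fun l _ => hnn l) (mem_univ l0))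
    rw [if_neg h]
    have h1 := (hnb _ _ hrj (rd_pos K s hK hs p (Sum.inr l0)) (p.2 l0 - p.2 j)).1
    calc zm * (iD p (p.2 j) - C * (rd K s p (Sum.inr j))⁻¹)
        ≤ zm * (‖p.2 j - p.2 l0‖⁻¹ -
          nn χ (rd K s p (Sum.inr j)) (rd K s p (Sum.inr l0)) (p.2 l0 - p.2 j)) := by
          rw [hiD]
          gcongr
      _ ≤ _ := mul_le_mul_of_nonneg_right (hz l0) (hδ l0 h)

theorem pairB (zm zp C0 : ℝ) (hzm : 0 < zm) {χ : E3 → ℝ} (hχ : Bump χ) :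
    ∃ K C1 : ℝ, 1 ≤ K ∧ 0 ≤ C1 ∧ ∀ (s : ℝ) (_ : 0 < s) (_ : s ≤ 1 / 4),
    ∃ C2 : ℝ, 0 ≤ C2 ∧ ∀ (n k : ℕ) (z : Fin k → ℝ) (_ : ∀ j, zm ≤ z j ∧ z j ≤ zp)
    (p : Cfg n k) (_ : Function.Injective p.1) (_ : Function.Injective p.2)
    (_ : ∀ a j, p.1 a ≠ p.2 j) (g : E3 → ℝ) (_ : Wt C0 g),
    -(C1 * (∑ a, g (p.1 a) * iD p (p.1 a)) +
      C2 * ((∑ a, g (p.1 a) * ce p (p.1 a) 1 ^ (1 / 3 : ℝ)) + ∑ j, g (p.2 j))) ≤
    ∑ i, cg z i * g (ps p i) * (∑ l ∈ univ.erase i,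
        cg z l * (‖ps p i - ps p l‖⁻¹ -
          nn χ (rd K s p i) (rd K s p l) (ps p l - ps p i))) -
      ∑ i, cg z i ^ 2 * g (ps p i) * nn χ (rd K s p i) (rd K s p i) 0 := by
  classical
  obtain ⟨C, hC, hnb⟩ := nn_bd hχ
  obtain ⟨K, hKd⟩ : ∃ K, K = max 1 (C * (zm + |zp|) / zm) := ⟨_, rfl⟩
  have hK : 1 ≤ K := by rw [hKd]; exact le_max_left _ _
  have hK2 : C * (zm + |zp|) ≤ zm * K := by
    have h1 : C * (zm + |zp|) / zm ≤ K := by rw [hKd]; exact le_max_right _ _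
    rw [div_le_iff₀ hzm] at h1
    linarith
  obtain ⟨Cp, hCp, hpk⟩ := pack1 K hK
  refine ⟨K, |zp| * Cp * (1 + |C0|) + C, hK, by positivity, fun s hs hs4 =>
    ⟨C * s⁻¹ + |zp| * C * (zm + |zp|) * s⁻¹, by positivity, ?_⟩⟩
  intro n k z hz p h1 h2 h12 g hg
  have hr : ∀ i, 0 < rd K s p i := rd_pos K s hK hs p
  have hzp : ∀ j, z j ≤ |zp| := fun j => (hz j).2.trans (le_abs_self _)
  have hz0 : ∀ j, 0 ≤ z j := fun j => hzm.le.trans (hz j).1
  have hgp := hg.pos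
  obtain ⟨δ, hδ⟩ : ∃ δ : Fin n ⊕ Fin k → Fin n ⊕ Fin k → ℝ, ∀ i l, δ i l =
      ‖ps p i - ps p l‖⁻¹ - nn χ (rd K s p i) (rd K s p l) (ps p l - ps p i) :=
    ⟨fun i l => _, fun i l => rfl⟩
  have hδ0 : ∀ i l, i ≠ l → 0 ≤ δ i l := by
    intro i l hil
    rw [hδ]
    have := nn_le hχ _ _ (hr i) (hr l) (ps p l - ps p i)
      (sub_ne_zero.2 (pb_ps h1 h2 h12 hil).symm)
    rw [norm_sub_rev (ps p l)] at this
    linarith
  simp only [← hδ]
  simp only [Fintype.sum_sum_type, pb_erase]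
  have e1 : ∀ a : Fin n, cg z (Sum.inl a : Fin n ⊕ Fin k) = -1 := fun a => rfl
  have e2 : ∀ j : Fin k, cg z (Sum.inr j : Fin n ⊕ Fin k) = z j := fun j => rfl
  have e3 : ∀ a : Fin n, ps p (Sum.inl a : Fin n ⊕ Fin k) = p.1 a := fun a => rfl
  have e4 : ∀ j : Fin k, ps p (Sum.inr j : Fin n ⊕ Fin k) = p.2 j := fun j => rfl
  simp only [e1, e2, e3, e4, reduceCtorEq, if_false, Sum.inl.injEq, Sum.inr.injEq]
  -- indicator sums
  obtain ⟨w, hw⟩ : ∃ w : Fin n → Fin k → ℝ, ∀ a j, w a j =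
      (if ‖p.1 a - p.2 j‖ * (⨆ l, ‖p.2 j - p.2 l‖⁻¹) ≤ K then ‖p.1 a - p.2 j‖⁻¹ else 0) :=
    ⟨fun a j => _, fun a j => rfl⟩
  have hw0 : ∀ a j, 0 ≤ w a j := by
    intro a j
    rw [hw]
    split_ifs
    · positivity
    · exact le_rfl
  have hws : ∀ a, ∑ j, w a j ≤ Cp * iD p (p.1 a) := by
    intro a
    have := hpk k p.2 h2 (p.1 a) (h12 a)
    simp only [hw]
    exact this
  have hC0 : ∀ a j, ‖p.1 a - p.2 j‖ ≤ s → g (p.2 j) ≤ |C0| * g (p.1 a) := by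
    intro a j h
    refine (hg.har (p.2 j) (p.1 a) (by rw [norm_sub_rev]; linarith)).trans ?_
    exact mul_le_mul_of_nonneg_right (le_abs_self _) (hgp _).le
  have hd1 : ∀ a j, δ (Sum.inl a) (Sum.inr j) ≤ w a j := by
    intro a j
    have := (pb_unlike hχ hK hs h12 a j (δ (Sum.inl a) (Sum.inr j)) (Or.inl (hδ _ _))).1
    rw [hw]; exact this
  have hd2 : ∀ a j, g (p.2 j) * δ (Sum.inr j) (Sum.inl a) ≤ |C0| * (g (p.1 a) * w a j) := by
    intro a j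
    obtain ⟨q1, q2⟩ := pb_unlike hχ hK hs h12 a j (δ (Sum.inr j) (Sum.inl a)) (Or.inr (hδ _ _))
    rw [← hw] at q1
    have q3 : 0 ≤ |C0| * (g (p.1 a) * w a j) :=
      mul_nonneg (abs_nonneg _) (mul_nonneg (hgp _).le (hw0 a j))
    rcases q2 with q2 | q2
    · exact (mul_nonpos_of_nonneg_of_nonpos (hgp _).le q2).trans q3
    · calc g (p.2 j) * δ (Sum.inr j) (Sum.inl a) ≤ g (p.2 j) * w a j :=
            mul_le_mul_of_nonneg_left q1 (hgp _).le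
        _ ≤ (|C0| * g (p.1 a)) * w a j := mul_le_mul_of_nonneg_right (hC0 a j q2) (hw0 a j)
        _ = _ := by ring
  -- electrons
  have hE : ∀ a, -(|zp| * Cp * (g (p.1 a) * iD p (p.1 a))) ≤
      -1 * g (p.1 a) * (∑ b, (if b = a then 0 else -1 * δ (Sum.inl a) (Sum.inl b)) +
        ∑ j, z j * δ (Sum.inl a) (Sum.inr j)) := by
    intro a
    have q1 : ∑ b, (if b = a then 0 else -1 * δ (Sum.inl a) (Sum.inl b)) ≤ 0 := by
      refine sum_nonpos fun b _ => ?_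
      split_ifs with h
      · exact le_rfl
      · have := hδ0 (Sum.inl a) (Sum.inl b) (fun e => h (Sum.inl.inj e).symm)
        linarith
    have q2 : ∑ j, z j * δ (Sum.inl a) (Sum.inr j) ≤ |zp| * (Cp * iD p (p.1 a)) := by
      calc ∑ j, z j * δ (Sum.inl a) (Sum.inr j) ≤ ∑ j, |zp| * w a j := by
            refine sum_le_sum fun j _ => ?_
            have q3 := hδ0 (Sum.inl a) (Sum.inr j) (by simp)
            exact mul_le_mul (hzp j) (hd1 a j) q3 (abs_nonneg _)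
        _ = |zp| * ∑ j, w a j := by rw [mul_sum]
        _ ≤ _ := mul_le_mul_of_nonneg_left (hws a) (abs_nonneg _)
    have q4 : g (p.1 a) * (∑ b, (if b = a then 0 else -1 * δ (Sum.inl a) (Sum.inl b)) +
        ∑ j, z j * δ (Sum.inl a) (Sum.inr j)) ≤ g (p.1 a) * (|zp| * (Cp * iD p (p.1 a))) :=
      mul_le_mul_of_nonneg_left (by linarith) (hgp _).le
    linarith
  have hSe : ∀ a, (-1 : ℝ) ^ 2 * g (p.1 a) *
      nn χ (rd K s p (Sum.inl a)) (rd K s p (Sum.inl a)) 0 ≤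
      C * (g (p.1 a) * iD p (p.1 a)) + C * s⁻¹ * (g (p.1 a) * ce p (p.1 a) 1 ^ (1 / 3 : ℝ)) := by
    intro a
    have q1 := (hnb _ _ (hr (Sum.inl a)) (hr (Sum.inl a)) 0).1
    rw [(rd_inv K s hK hs p).1 a] at q1
    have q2 := mul_le_mul_of_nonneg_left q1 (hgp (p.1 a)).le
    have e : (-1 : ℝ) ^ 2 * g (p.1 a) *
      nn χ (rd K s p (Sum.inl a)) (rd K s p (Sum.inl a)) 0 = g (p.1 a) *
      nn χ (rd K s p (Sum.inl a)) (rd K s p (Sum.inl a)) 0 := by ring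
    rw [e]
    refine q2.trans (le_of_eq ?_)
    ring
  -- nuclei
  have hδn : ∀ j l, δ (Sum.inr j) (Sum.inr l) = ‖p.2 j - p.2 l‖⁻¹ -
        nn χ (rd K s p (Sum.inr j)) (rd K s p (Sum.inr l)) (p.2 l - p.2 j) := by
    intro j l
    rw [hδ, e4, e4]
  have hN : ∀ j, -(∑ a, z j * (g (p.2 j) * δ (Sum.inr j) (Sum.inl a))) -
      |zp| * C * (zm + |zp|) * s⁻¹ * g (p.2 j) ≤
      z j * g (p.2 j) * (∑ a, -1 * δ (Sum.inr j) (Sum.inl a) +
        ∑ l, (if l = j then 0 else z l * δ (Sum.inr j) (Sum.inr l))) -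
      z j ^ 2 * g (p.2 j) * nn χ (rd K s p (Sum.inr j)) (rd K s p (Sum.inr j)) 0 := by
    intro j
    have q0 : ∀ l, l ≠ j → 0 ≤ ‖p.2 j - p.2 l‖⁻¹ -
        nn χ (rd K s p (Sum.inr j)) (rd K s p (Sum.inr l)) (p.2 l - p.2 j) := by
      intro l hl
      have := hδ0 (Sum.inr j) (Sum.inr l) (fun e => hl (Sum.inr.inj e).symm)
      rw [hδn] at this
      exact this
    have q1 := pb_near (n := n) hzm hC hnb hK hs (fun l => (hz l).1) (p := p) j q0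
    simp only [← hδn] at q1
    have q2 := (hnb _ _ (hr (Sum.inr j)) (hr (Sum.inr j)) 0).1
    have q3 : 0 ≤ z j * g (p.2 j) := mul_nonneg (hz0 j) (hgp _).le
    have q4 := mul_le_mul_of_nonneg_left q1 q3
    obtain ⟨ν, hν⟩ : ∃ ν, ν = nn χ (rd K s p (Sum.inr j)) (rd K s p (Sum.inr j)) 0 := ⟨_, rfl⟩
    obtain ⟨ρ, hρ⟩ : ∃ ρ, ρ = (rd K s p (Sum.inr j))⁻¹ := ⟨_, rfl⟩
    have hρ2 : ρ = K⁻¹ * iD p (p.2 j) + s⁻¹ := by rw [hρ, (rd_inv K s hK hs p).2 j]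
    have hρ0 : 0 ≤ ρ := by rw [hρ]; exact inv_nonneg.2 (hr _).le
    rw [← hν, ← hρ] at q2
    rw [← hρ] at q4
    rw [← hν]
    have q5 : z j ^ 2 * g (p.2 j) * ν ≤ (z j * g (p.2 j)) * (|zp| * (C * ρ)) := by
      have : z j * ν ≤ |zp| * (C * ρ) := by
        refine (mul_le_mul_of_nonneg_left q2 (hz0 j)).trans ?_
        exact mul_le_mul_of_nonneg_right (hzp j) (by positivity)
      calc z j ^ 2 * g (p.2 j) * ν = (z j * g (p.2 j)) * (z j * ν) := by ring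
        _ ≤ _ := mul_le_mul_of_nonneg_left this q3
    have q6 : (z j * g (p.2 j)) * (zm * (iD p (p.2 j) - C * ρ)) -
        (z j * g (p.2 j)) * (|zp| * (C * ρ)) ≥
        -(|zp| * C * (zm + |zp|) * s⁻¹ * g (p.2 j)) := by
      have hi := iD_nonneg p (p.2 j)
      have hK0 : 0 < K := by linarith
      have r1 : C * (zm + |zp|) * (K⁻¹ * iD p (p.2 j)) ≤ zm * iD p (p.2 j) := by
        calc C * (zm + |zp|) * (K⁻¹ * iD p (p.2 j)) ≤ (zm * K) * (K⁻¹ * iD p (p.2 j)) :=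
              mul_le_mul_of_nonneg_right hK2 (by positivity)
          _ = zm * iD p (p.2 j) := by field_simp
      have r2 : zm * (iD p (p.2 j) - C * ρ) - |zp| * (C * ρ) ≥
          -(C * (zm + |zp|) * s⁻¹) := by
        rw [hρ2]
        have : zm * (iD p (p.2 j) - C * (K⁻¹ * iD p (p.2 j) + s⁻¹)) -
            |zp| * (C * (K⁻¹ * iD p (p.2 j) + s⁻¹)) =
            (zm * iD p (p.2 j) - C * (zm + |zp|) * (K⁻¹ * iD p (p.2 j))) -
              C * (zm + |zp|) * s⁻¹ := by ring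
        rw [this]
        linarith
      have r3 := mul_le_mul_of_nonneg_left r2.le q3
      have r4 : (z j * g (p.2 j)) * (C * (zm + |zp|) * s⁻¹) ≤
          |zp| * C * (zm + |zp|) * s⁻¹ * g (p.2 j) := by
        have r5 : z j * g (p.2 j) ≤ |zp| * g (p.2 j) :=
          mul_le_mul_of_nonneg_right (hzp j) (hgp _).le
        calc (z j * g (p.2 j)) * (C * (zm + |zp|) * s⁻¹) ≤
            (|zp| * g (p.2 j)) * (C * (zm + |zp|) * s⁻¹) :=
              mul_le_mul_of_nonneg_right r5 (by positivity)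
          _ = _ := by ring
      rw [mul_neg, mul_sub] at r3
      linarith
    have e6 : ∑ a, z j * (g (p.2 j) * δ (Sum.inr j) (Sum.inl a)) =
        -(z j * g (p.2 j) * ∑ a, -1 * δ (Sum.inr j) (Sum.inl a)) := by
      rw [mul_sum, ← sum_neg_distrib]
      exact sum_congr rfl fun a _ => by ring
    rw [e6, mul_add]
    linarith
  have hX : ∑ j, ∑ a, z j * (g (p.2 j) * δ (Sum.inr j) (Sum.inl a)) ≤
      |zp| * Cp * |C0| * ∑ a, g (p.1 a) * iD p (p.1 a) := by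
    rw [sum_comm, mul_sum]
    refine sum_le_sum fun a _ => ?_
    calc ∑ j, z j * (g (p.2 j) * δ (Sum.inr j) (Sum.inl a))
        ≤ ∑ j, |zp| * (|C0| * (g (p.1 a) * w a j)) := by
          refine sum_le_sum fun j _ => ?_
          have q3 := hδ0 (Sum.inr j) (Sum.inl a) (by simp)
          exact mul_le_mul (hzp j) (hd2 a j) (mul_nonneg (hgp _).le q3) (abs_nonneg _)
      _ = |zp| * (|C0| * (g (p.1 a) * ∑ j, w a j)) := by
          rw [← mul_sum, ← mul_sum, ← mul_sum]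
      _ ≤ |zp| * (|C0| * (g (p.1 a) * (Cp * iD p (p.1 a)))) := by
          have := hws a
          have hga := (hgp (p.1 a)).le
          gcongr
      _ = _ := by ring
  -- assembly
  have s1 := sum_le_sum fun a (_ : a ∈ univ) => hE a
  have s2 := sum_le_sum fun a (_ : a ∈ univ) => hSe a
  have s3 := sum_le_sum fun j (_ : j ∈ univ) => hN j
  rw [sum_neg_distrib, ← mul_sum] at s1
  rw [sum_add_distrib, ← mul_sum, ← mul_sum] at s2
  rw [sum_sub_distrib, sum_sub_distrib, sum_neg_distrib, ← mul_sum] at s3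
  have e7 : (|zp| * Cp * (1 + |C0|) + C) * (∑ a, g (p.1 a) * iD p (p.1 a)) +
      (C * s⁻¹ + |zp| * C * (zm + |zp|) * s⁻¹) *
        ((∑ a, g (p.1 a) * ce p (p.1 a) 1 ^ (1 / 3 : ℝ)) + ∑ j, g (p.2 j)) =
      |zp| * Cp * (∑ a, g (p.1 a) * iD p (p.1 a)) +
      |zp| * Cp * |C0| * (∑ a, g (p.1 a) * iD p (p.1 a)) +
      C * (∑ a, g (p.1 a) * iD p (p.1 a)) +
      C * s⁻¹ * (∑ a, g (p.1 a) * ce p (p.1 a) 1 ^ (1 / 3 : ℝ)) +
      |zp| * C * (zm + |zp|) * s⁻¹ * (∑ j, g (p.2 j)) +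
      (|zp| * C * (zm + |zp|) * s⁻¹ * (∑ a, g (p.1 a) * ce p (p.1 a) 1 ^ (1 / 3 : ℝ)) +
        C * s⁻¹ * (∑ j, g (p.2 j))) := by ring
  have e8 : 0 ≤ |zp| * C * (zm + |zp|) * s⁻¹ *
      (∑ a, g (p.1 a) * ce p (p.1 a) 1 ^ (1 / 3 : ℝ)) + C * s⁻¹ * (∑ j, g (p.2 j)) := by
    have q1 : 0 ≤ ∑ a, g (p.1 a) * ce p (p.1 a) 1 ^ (1 / 3 : ℝ) :=
      sum_nonneg fun a _ => mul_nonneg (hgp _).le
        (Real.rpow_nonneg (zero_le_one.trans (ce_self p a)) _)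
    have q2 : 0 ≤ ∑ j, g (p.2 j) := sum_nonneg fun j _ => (hgp _).le
    positivity
  rw [e7]
  linarith

end H6.CX
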