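import Pool.Agent.H6.CX.EAlg
import Pool.Agent.H6.CX.PairB
import Pool.Agent.H6.CX.CommB

/-! The electrostatic inequality, first form. `eg_sum`, `ealg` with `e = cg z`, `y = ps p`, `r = rd K s p` (`rd_pos`); `ρ = rho χ e y r` has the potential `ua` (`rho_pot`, `rho_cc`, `uu_smooth`). Lower bounds: `Ws.green` with `B = ball 0 R ∪ N`, `N = {v | ∃ i, ‖v - ps p i‖ < 1 / 4}` (open, bounded), `(4 π)⁻¹ ∫ B ≥ (8 π)⁻¹ (∫ ball 0 R + ∫ N)`; `pairB`; `commB` with `u = ua - c` (`gr (ua - c) = gr ua`), whose last integral is at most `∫ v in N, g * gr ua + ∫ v in N ∩ D, g * (ua - c) ^ 2` because `lap g x ≠ 0` implies `m x ≠ 0 ∨ σ x ≠ 0` (`Ws.lap0`); `s0` is such that `C * η⁻¹ * s0 ≤ min (8 π)⁻¹ η`. -/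

open MeasureTheory Finset

namespace H6.CX

open H6.CM H6.CB H6.CL H6.CT

private theorem gr_sub_c (f : E3 → ℝ) (c : ℝ) (v : E3) :
    gr (fun w => f w - c) v = gr f v := by
  unfold gr
  simp only [fderiv_sub_const]

private theorem gr_cts {f : E3 → ℝ} (hf : ContDiff ℝ (⊤ : ℕ∞) f) : Continuous (gr f) := by
  unfold gr
  have h1 : Continuous (fderiv ℝ f) := hf.continuous_fderiv (by simp)
  fun_prop

private theorem gr_nn (f : E3 → ℝ) (v : E3) : 0 ≤ gr f v :=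
  Finset.sum_nonneg fun _ _ => sq_nonneg _

private theorem intOn {f : E3 → ℝ} (hf : Continuous f) {S : Set E3}
    (hb : Bornology.IsBounded S) : IntegrableOn f S := by
  obtain ⟨R, hR⟩ := hb.subset_closedBall 0
  exact (hf.continuousOn.integrableOn_compact (isCompact_closedBall 0 R)).mono_set hR

private theorem nset_open {ι : Type} (y : ι → E3) :
    IsOpen {v : E3 | ∃ i, ‖v - y i‖ < 1 / 4} := by
  have : {v : E3 | ∃ i, ‖v - y i‖ < 1 / 4} = ⋃ i, Metric.ball (y i) (1 / 4) := by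
    ext v; simp [dist_eq_norm]
  rw [this]
  exact isOpen_iUnion fun i => Metric.isOpen_ball

private theorem nset_bdd {ι : Type} [Fintype ι] (y : ι → E3) :
    Bornology.IsBounded {v : E3 | ∃ i, ‖v - y i‖ < 1 / 4} := by
  have : {v : E3 | ∃ i, ‖v - y i‖ < 1 / 4} = ⋃ i, Metric.ball (y i) (1 / 4) := by
    ext v; simp [dist_eq_norm]
  rw [this]
  exact (Bornology.isBounded_iUnion).2 fun i => Metric.isBounded_ball

private theorem dset_open (P : E3 → Prop) :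
    IsOpen {v : E3 | ∃ x, ‖x - v‖ < 1 ∧ P x} := by
  have : {v : E3 | ∃ x, ‖x - v‖ < 1 ∧ P x} = ⋃ x, ⋃ (_ : P x), Metric.ball x 1 := by
    ext v
    simp only [Set.mem_ofPred_eq, Set.mem_iUnion, mem_ball_iff_norm, exists_prop]
    constructor
    · rintro ⟨x, h1, h2⟩
      exact ⟨x, h2, by rwa [norm_sub_rev]⟩
    · rintro ⟨x, h2, h1⟩
      exact ⟨x, by rwa [norm_sub_rev], h2⟩
  rw [this]
  exact isOpen_iUnion fun i => isOpen_iUnion fun _ => Metric.isOpen_ball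

private theorem two_sets {f : E3 → ℝ} (hf : Continuous f) (h0 : ∀ v, 0 ≤ f v) {S N : Set E3}
    (hS : Bornology.IsBounded S) (hN : Bornology.IsBounded N) :
    (8 * Real.pi)⁻¹ * ((∫ v in S, f v) + ∫ v in N, f v) ≤
      (4 * Real.pi)⁻¹ * ∫ v in S ∪ N, f v := by
  have hI := intOn hf (hS.union hN)
  have h1 : ∫ v in S, f v ≤ ∫ v in S ∪ N, f v :=
    setIntegral_mono_set hI (Filter.Eventually.of_forall h0)
      (LE.le.eventuallyLE Set.subset_union_left)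
  have h2 : ∫ v in N, f v ≤ ∫ v in S ∪ N, f v :=
    setIntegral_mono_set hI (Filter.Eventually.of_forall h0)
      (LE.le.eventuallyLE Set.subset_union_right)
  have h3 : (4 * Real.pi)⁻¹ = 2 * (8 * Real.pi)⁻¹ := by
    have := Real.pi_pos
    field_simp
    norm_num
  have h4 : (0 : ℝ) < (8 * Real.pi)⁻¹ := by positivity
  rw [h3]
  nlinarith

private theorem comm_int {g u : E3 → ℝ} (hg : Continuous g) (hg0 : ∀ v, 0 < g v)
    (hu : ContDiff ℝ (⊤ : ℕ∞) u) {N D D' : Set E3} (hN : Bornology.IsBounded N)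
    (hD : MeasurableSet D) (hDD : D ⊆ D') :
    ∫ v in N, (g v * (gr u v + Set.indicator D 1 v * u v ^ 2)) ≤
      (∫ v in N, g v * gr u v) + ∫ v in N ∩ D', g v * u v ^ 2 := by
  have hI1 : IntegrableOn (fun v => g v * gr u v) N := intOn (hg.mul (gr_cts hu)) hN
  have hc2 : Continuous (fun v => g v * u v ^ 2) := hg.mul (hu.continuous.pow 2)
  have hI2 : IntegrableOn (fun v => g v * u v ^ 2) N := intOn hc2 hN
  have e1 : ∀ v, g v * (gr u v + Set.indicator D 1 v * u v ^ 2) =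
      g v * gr u v + Set.indicator D (fun v => g v * u v ^ 2) v := by
    intro v
    by_cases hv : v ∈ D
    · simp only [Set.indicator_of_mem hv, Pi.one_apply]; ring
    · simp only [Set.indicator_of_notMem hv]; ring
  have hI3 : IntegrableOn (Set.indicator D (fun v => g v * u v ^ 2)) N := hI2.indicator hD
  simp only [e1]
  rw [integral_add hI1 hI3]
  have e2 : ∫ v in N, Set.indicator D (fun v => g v * u v ^ 2) v =
      ∫ v in N ∩ D, g v * u v ^ 2 := by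
    rw [setIntegral_indicator hD]
  rw [e2]
  have h5 : ∫ v in N ∩ D, g v * u v ^ 2 ≤ ∫ v in N ∩ D', g v * u v ^ 2 :=
    setIntegral_mono_set (hI2.mono_set Set.inter_subset_left)
      (Filter.Eventually.of_forall fun v => mul_nonneg (hg0 v).le (sq_nonneg _))
      (LE.le.eventuallyLE (Set.inter_subset_inter_right N hDD))
  linarith

theorem elr (zm zp C0 : ℝ) (hzm : 0 < zm) {χ : E3 → ℝ} (hχ : Bump χ) :
    ∃ K C1 : ℝ, 1 ≤ K ∧ 0 ≤ C1 ∧ ∀ (η : ℝ) (_ : 0 < η), ∃ s0 : ℝ, 0 < s0 ∧ s0 ≤ 1 / 4 ∧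
    ∀ (s : ℝ) (_ : 0 < s) (_ : s ≤ s0), ∃ C2 : ℝ, 0 ≤ C2 ∧
    ∀ (n k : ℕ) (z : Fin k → ℝ) (_ : ∀ j, zm ≤ z j ∧ z j ≤ zp)
    (p : Cfg n k) (_ : Function.Injective p.1) (_ : Function.Injective p.2)
    (_ : ∀ a j, p.1 a ≠ p.2 j) (g m σ : E3 → ℝ) (_ : Ws C0 g m σ) (c R : ℝ),
    (8 * Real.pi)⁻¹ * (∫ v in Metric.ball 0 R, g v * gr (ua χ K s z p) v) +
      (∫ v, m v * (ua χ K s z p v - c) ^ 2) / 2 -
      (∫ v, σ v * (ua χ K s z p v - c) ^ 2) / 2 -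
      c ^ 2 / 2 * ((∫ v, m v) - ∫ v, σ v) -
      C1 * (∑ a, g (p.1 a) * iD p (p.1 a)) -
      η * (∑ a, g (p.1 a) * ce p (p.1 a) 1 ^ (2 / 3 : ℝ)) -
      C2 * ((∑ a, g (p.1 a) * ce p (p.1 a) 1 ^ (1 / 3 : ℝ)) + ∑ j, g (p.2 j)) -
      η * (∫ v in {v | (∃ i, ‖v - ps p i‖ < 1 / 4) ∧ ∃ x, ‖x - v‖ < 1 ∧ (m x ≠ 0 ∨ σ x ≠ 0)},
        g v * (ua χ K s z p v - c) ^ 2) ≤ EG g z c p := by
  obtain ⟨K, C1, hK, hC1, hp⟩ := pairB zm zp C0 hzm hχ
  obtain ⟨Ck, hCk, hcm⟩ := commB zp C0 K hK hχ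
  refine ⟨K, C1, hK, hC1, fun η hη => ?_⟩
  have hpi := Real.pi_pos
  obtain ⟨s0, hs0, hs04, hs0C⟩ : ∃ s0 : ℝ, 0 < s0 ∧ s0 ≤ 1 / 4 ∧
      (Ck + 1) * η⁻¹ * s0 ≤ min (8 * Real.pi)⁻¹ η := by
    have h1 : 0 < (Ck + 1) * η⁻¹ := by positivity
    have h2 : 0 < min (8 * Real.pi)⁻¹ η := lt_min (by positivity) hη
    refine ⟨min (1 / 4) (min (8 * Real.pi)⁻¹ η / ((Ck + 1) * η⁻¹)),
      lt_min (by norm_num) (by positivity), min_le_left _ _, ?_⟩
    calc (Ck + 1) * η⁻¹ * min (1 / 4) (min (8 * Real.pi)⁻¹ η / ((Ck + 1) * η⁻¹))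
        ≤ (Ck + 1) * η⁻¹ * (min (8 * Real.pi)⁻¹ η / ((Ck + 1) * η⁻¹)) :=
          mul_le_mul_of_nonneg_left (min_le_right _ _) h1.le
      _ = min (8 * Real.pi)⁻¹ η := by field_simp
  refine ⟨s0, hs0, hs04, fun s hs hss => ?_⟩
  obtain ⟨C2, hC2, hp2⟩ := hp s hs (hss.trans hs04)
  refine ⟨C2 + η, by positivity, ?_⟩
  intro n k z hz p hi1 hi2 hi3 g m σ hw c R
  have hs4 : s ≤ 1 / 4 := hss.trans hs04
  have hr : ∀ i, 0 < rd K s p i := fun i => rd_pos K s hK hs p i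
  have hgc : Continuous g := hw.wt.smooth.continuous
  have hus : ContDiff ℝ (⊤ : ℕ∞) (ua χ K s z p) :=
    uu_smooth hχ (cg z) (ps p) (rd K s p) hr
  have hucc : ContDiff ℝ (⊤ : ℕ∞) (fun v => ua χ K s z p v - c) := hus.sub contDiff_const
  have hρc : Cc (rho χ (cg z) (ps p) (rd K s p)) := rho_cc hχ (cg z) (ps p) (rd K s p) hr
  have hpot : pot (rho χ (cg z) (ps p) (rd K s p)) = ua χ K s z p := by
    funext v
    exact rho_pot hχ (cg z) (ps p) (rd K s p) hr v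
  have hE := ealg hχ (cg z) (ps p) (rd K s p) hr hgc c
  rw [← eg_sum g z c p] at hE
  have hP := hp2 n k z hz p hi1 hi2 hi3 g hw.wt
  have hC := hcm η hη s hs hs4 n k z (fun j => ⟨hzm.le.trans (hz j).1, (hz j).2⟩) p hi2 g hw.wt
    (fun v => ua χ K s z p v - c) hucc
  have hG := hw.green (rho χ (cg z) (ps p) (rd K s p)) c
    (Metric.ball 0 R ∪ {v : E3 | ∃ i, ‖v - ps p i‖ < 1 / 4}) hρc
    (Metric.isOpen_ball.measurableSet.union (nset_open (ps p)).measurableSet)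
    (Metric.isBounded_ball.union (nset_bdd (ps p)))
  simp only [hpot] at hG
  have hcg : Continuous (fun v => g v * gr (ua χ K s z p) v) := hgc.mul (gr_cts hus)
  have h2 := two_sets hcg (fun v => mul_nonneg (hw.wt.pos v).le (gr_nn _ v))
    (Metric.isBounded_ball (x := (0 : E3)) (r := R)) (nset_bdd (ps p))
  have hD := dset_open (fun x => lap g x ≠ 0)
  have hsub : {v : E3 | ∃ x, ‖x - v‖ < 1 ∧ lap g x ≠ 0} ⊆
      {v : E3 | ∃ x, ‖x - v‖ < 1 ∧ (m x ≠ 0 ∨ σ x ≠ 0)} := by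
    rintro v ⟨x, h1, h2⟩
    refine ⟨x, h1, ?_⟩
    by_contra hcon
    push Not at hcon
    exact h2 (hw.lap0 x hcon.1 hcon.2)
  have h3 := comm_int hgc hw.wt.pos hucc (nset_bdd (ps p)) hD.measurableSet hsub
  simp only [gr_sub_c] at h3 hC
  have hset : {v : E3 | ∃ i, ‖v - ps p i‖ < 1 / 4} ∩
      {v : E3 | ∃ x, ‖x - v‖ < 1 ∧ (m x ≠ 0 ∨ σ x ≠ 0)} =
      {v | (∃ i, ‖v - ps p i‖ < 1 / 4) ∧ ∃ x, ‖x - v‖ < 1 ∧ (m x ≠ 0 ∨ σ x ≠ 0)} := rfl
  rw [hset] at h3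
  set IN := ∫ v in {v : E3 | ∃ i, ‖v - ps p i‖ < 1 / 4}, g v * gr (ua χ K s z p) v with hIN
  set ID := ∫ v in {v | (∃ i, ‖v - ps p i‖ < 1 / 4) ∧
    ∃ x, ‖x - v‖ < 1 ∧ (m x ≠ 0 ∨ σ x ≠ 0)}, g v * (ua χ K s z p v - c) ^ 2 with hID
  have hIN0 : 0 ≤ IN := integral_nonneg fun v => mul_nonneg (hw.wt.pos v).le (gr_nn _ v)
  have hID0 : 0 ≤ ID := integral_nonneg fun v => mul_nonneg (hw.wt.pos v).le (sq_nonneg _)
  have h4 : Ck * η⁻¹ * s ≤ min (8 * Real.pi)⁻¹ η := by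
    refine le_trans ?_ hs0C
    have : Ck * η⁻¹ ≤ (Ck + 1) * η⁻¹ := by
      have : 0 ≤ η⁻¹ := by positivity
      nlinarith
    exact mul_le_mul this hss hs.le (by positivity)
  have h40 : 0 ≤ Ck * η⁻¹ * s := by positivity
  have h5 : Ck * η⁻¹ * s * IN ≤ (8 * Real.pi)⁻¹ * IN :=
    mul_le_mul_of_nonneg_right (h4.trans (min_le_left _ _)) hIN0
  have h6 : Ck * η⁻¹ * s * ID ≤ η * ID :=
    mul_le_mul_of_nonneg_right (h4.trans (min_le_right _ _)) hID0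
  have h7 := mul_le_mul_of_nonneg_left h3 h40
  have hce : 0 ≤ ∑ a, g (p.1 a) * ce p (p.1 a) 1 ^ (1 / 3 : ℝ) :=
    Finset.sum_nonneg fun a _ => mul_nonneg (hw.wt.pos _).le
      (Real.rpow_nonneg (ce_nonneg p _ _) _)
  have h8 : 0 ≤ η * ∑ a, g (p.1 a) * ce p (p.1 a) 1 ^ (1 / 3 : ℝ) := mul_nonneg hη.le hce
  have hE' : EG g z c p = (∫ v, g v * (rho χ (cg z) (ps p) (rd K s p) v *
      (ua χ K s z p v - c))) +
      (∑ i, cg z i * g (ps p i) * (∑ l ∈ univ.erase i,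
        cg z l * (‖ps p i - ps p l‖⁻¹ -
          nn χ (rd K s p i) (rd K s p l) (ps p l - ps p i)))) -
      (∑ i, cg z i ^ 2 * g (ps p i) * nn χ (rd K s p i) (rd K s p i) 0) -
      ∑ i, cg z i * ∫ v, (g v - g (ps p i)) * (chr χ (rd K s p i) (v - ps p i) ^ 2 *
        (ua χ K s z p v - c)) := hE
  rw [hE']
  linarith

end H6.CX
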