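import Pool.Agent.H6.CX.CmpU
import Pool.Agent.H6.CX.AvB

/-! The second moment of the smeared potential in the bulk. `(ua - c) ^ 2 ≤ 2 (phi - c) ^ 2 + 2 (phi - ua) ^ 2`; `avB` with `t = 1` for both functions (locally integrable: `phi_sq`, `cmp1`), `cmp1` for the second one at every `x`, and `Bz σ 2 ⊆ Bz σ 3`; the integrand `g x * Qp z c p x` is nonnegative and integrable on `Bz σ 3` (bounded set; `x ↦ ∫ v in ball x 1, (phi z p v - c) ^ 2` is measurable and bounded on bounded sets, it is at most the integral over a large ball). -/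

open MeasureTheory Finset

namespace H6.CX

open H6.CM H6.CB H6.CL H6.CT

private theorem ELs_meas {f : E3 → ℝ} (hf : LocallyIntegrable f) :
    AEStronglyMeasurable (fun x => ∫ v in Metric.ball x 1, f v) volume := by
  have hD : MeasurableSet {z : E3 × E3 | ‖z.1 - z.2‖ < 1} :=
    (isOpen_lt (continuous_fst.sub continuous_snd).norm continuous_const).measurableSet
  have h1 : AEStronglyMeasurable (Set.indicator {z : E3 × E3 | ‖z.1 - z.2‖ < 1} fun z => f z.2)
      (volume.prod volume) := (hf.aestronglyMeasurable.comp_snd).indicator hD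
  have h2 := h1.integral_prod_right'
  refine h2.congr (Filter.Eventually.of_forall fun x => ?_)
  beta_reduce
  rw [← integral_indicator measurableSet_ball]
  refine integral_congr_ae (Filter.Eventually.of_forall fun v => ?_)
  beta_reduce
  by_cases hv : v ∈ Metric.ball x 1
  · have hv' : (x, v) ∈ {z : E3 × E3 | ‖z.1 - z.2‖ < 1} := by
      rw [Metric.mem_ball, dist_comm, dist_eq_norm] at hv
      exact hv
    rw [Set.indicator_of_mem hv', Set.indicator_of_mem hv]
  · have hv' : (x, v) ∉ {z : E3 × E3 | ‖z.1 - z.2‖ < 1} := by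
      intro h
      apply hv
      rw [Metric.mem_ball, dist_comm, dist_eq_norm]
      exact h
    rw [Set.indicator_of_notMem hv', Set.indicator_of_notMem hv]

private theorem ELs_cnt {m : ℕ} (y : Fin m → E3) (r : ℝ) :
    Measurable (fun x : E3 => (∑ a, (if ‖y a - x‖ < r then 1 else 0) : ℝ)) ∧
      ∀ x : E3, 0 ≤ (∑ a, (if ‖y a - x‖ < r then 1 else 0) : ℝ) ∧
        (∑ a, (if ‖y a - x‖ < r then 1 else 0) : ℝ) ≤ m := by
  refine ⟨?_, fun x => ⟨sum_nonneg fun a _ => ?_, ?_⟩⟩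
  · refine measurable_fun_sum _ fun a _ => ?_
    exact Measurable.ite (isOpen_lt (continuous_const.sub continuous_id).norm continuous_const).measurableSet
      measurable_const measurable_const
  · split_ifs <;> norm_num
  · calc (∑ a, (if ‖y a - x‖ < r then 1 else 0) : ℝ) ≤ ∑ _a : Fin m, (1 : ℝ) :=
          sum_le_sum fun a _ => by split_ifs <;> norm_num
      _ = m := by simp

private theorem ELs_loc {n k : ℕ} (z : Fin k → ℝ) (c : ℝ) (p : Cfg n k) :
    LocallyIntegrable (fun v => (phi z p v - c) ^ 2) := fun x =>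
  ⟨Metric.ball x 1, Metric.ball_mem_nhds x one_pos, phi_sq z p c x 1⟩

theorem Qp_int {n k : ℕ} (z : Fin k → ℝ) (c : ℝ) (p : Cfg n k) {g : E3 → ℝ}
    (hg : Continuous g) {S : Set E3} (hS : MeasurableSet S) (hb : Bornology.IsBounded S) :
    IntegrableOn (fun x => g x * Qp z c p x) S := by
  obtain ⟨R, hR⟩ := hb.subset_closedBall (0 : E3)
  obtain ⟨M, hM⟩ := (isCompact_closedBall (0 : E3) R).exists_bound_of_continuousOn hg.continuousOn
  have hloc := ELs_loc z c p
  have hm1 := ELs_meas hloc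
  obtain ⟨hce, hce1⟩ := ELs_cnt p.1 3
  obtain ⟨hcn, hcn1⟩ := ELs_cnt p.2 3
  have hQ : AEStronglyMeasurable (fun x => Qp z c p x) volume := by
    unfold Qp
    refine (hm1.add ?_).add ?_
    · exact (hce.pow_const (5 / 3 : ℝ)).aestronglyMeasurable
    · exact hcn.aestronglyMeasurable
  refine Measure.integrableOn_of_bounded
    (M := M * ((∫ v in Metric.closedBall (0 : E3) (R + 1), (phi z p v - c) ^ 2) + (n : ℝ) ^ (5 / 3 : ℝ) + k))
    (hb.measure_lt_top.ne) (hg.aestronglyMeasurable.mul hQ) ?_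
  refine (ae_restrict_iff' hS).2 (Filter.Eventually.of_forall fun x hx => ?_)
  have hx1 := hR hx
  have hi0 : 0 ≤ ∫ v in Metric.ball x 1, (phi z p v - c) ^ 2 := integral_nonneg fun v => sq_nonneg _
  have he0 : 0 ≤ ce p x 3 := (hce1 x).1
  have hn0 : 0 ≤ cn p x 3 := (hcn1 x).1
  have hQ0 : 0 ≤ Qp z c p x := add_nonneg (add_nonneg hi0 (Real.rpow_nonneg he0 _)) hn0
  rw [norm_mul, Real.norm_of_nonneg hQ0]
  refine mul_le_mul (hM x hx1) ?_ hQ0 ((norm_nonneg _).trans (hM x hx1))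
  unfold Qp
  refine add_le_add (add_le_add ?_ (Real.rpow_le_rpow he0 (hce1 x).2 (by norm_num))) (hcn1 x).2
  refine setIntegral_mono_set (hloc.integrableOn_isCompact (isCompact_closedBall _ _))
    (Filter.Eventually.of_forall fun v => sq_nonneg _) (LE.le.eventuallyLE ?_)
  intro v hv
  rw [Metric.mem_closedBall, dist_zero_right] at hx1 ⊢
  rw [Metric.mem_ball, dist_eq_norm] at hv
  have h3 : ‖v‖ ≤ ‖v - x‖ + ‖x‖ := by
    have h4 := norm_add_le (v - x) x
    rwa [sub_add_cancel] at h4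
  linarith

theorem Qp_nonneg {n k : ℕ} (z : Fin k → ℝ) (c : ℝ) (p : Cfg n k) (x : E3) :
    0 ≤ Qp z c p x :=
  add_nonneg (add_nonneg (integral_nonneg fun v => sq_nonneg _)
    (Real.rpow_nonneg ((ELs_cnt p.1 3).2 x).1 _)) ((ELs_cnt p.2 3).2 x).1

theorem els (zp C0 K : ℝ) (hK : 1 ≤ K) {χ : E3 → ℝ} (hχ : Bump χ) : ∃ C : ℝ, 0 ≤ C ∧
    ∀ (s : ℝ) (_ : 0 < s) (_ : s ≤ 1 / 4) (n k : ℕ) (z : Fin k → ℝ)
    (_ : ∀ j, 0 ≤ z j ∧ z j ≤ zp) (p : Cfg n k) (_ : Function.Injective p.1)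
    (_ : Function.Injective p.2) (g : E3 → ℝ) (_ : Wt C0 g) (σ : E3 → ℝ)
    (_ : HasCompactSupport σ) (c : ℝ),
    ∫ v in Bz σ 1, g v * (ua χ K s z p v - c) ^ 2 ≤
      C * ∫ x in Bz σ 3, g x * Qp z c p x := by
  obtain ⟨C1, hC1, h1⟩ := avB C0
  obtain ⟨C2, hC2, h2⟩ := cmp1 zp K hK hχ
  refine ⟨C1 * (2 + 2 * C2), by positivity, fun s hs hs4 n k z hz p hp1 hp2 g hg σ hσ c => ?_⟩
  obtain ⟨f, hf⟩ : ∃ f : E3 → ℝ, f = fun v => 2 * (phi z p v - c) ^ 2 +
      2 * (phi z p v - ua χ K s z p v) ^ 2 := ⟨_, rfl⟩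
  have hl1 := ELs_loc z c p
  have hl2 : LocallyIntegrable (fun v => (phi z p v - ua χ K s z p v) ^ 2) := fun x =>
    ⟨Metric.ball x 1, Metric.ball_mem_nhds x one_pos, (h2 s hs hs4 n k z hz p hp1 hp2 x).1⟩
  have hi1 : ∀ x : E3, IntegrableOn (fun v => (phi z p v - c) ^ 2) (Metric.ball x 1) := fun x => phi_sq z p c x 1
  have hi2 : ∀ x : E3, IntegrableOn (fun v => (phi z p v - ua χ K s z p v) ^ 2) (Metric.ball x 1) := fun x =>
    (h2 s hs hs4 n k z hz p hp1 hp2 x).1
  have hfi : ∀ x : E3, IntegrableOn f (Metric.ball x 1) := fun x => by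
    rw [hf]
    exact ((hi1 x).const_mul 2).add ((hi2 x).const_mul 2)
  have hfl : LocallyIntegrable f := fun x => ⟨Metric.ball x 1, Metric.ball_mem_nhds x one_pos, hfi x⟩
  have hf0 : ∀ v, 0 ≤ f v := fun v => by
    rw [hf]
    positivity
  have hb1 := Bz_bdd hσ 1
  obtain ⟨R, hR⟩ := hb1.subset_closedBall (0 : E3)
  have hgf : IntegrableOn (fun v => g v * f v) (Bz σ 1) :=
    ((hfl.integrableOn_isCompact (isCompact_closedBall (0 : E3) R)).continuousOn_mul
      hg.smooth.continuous.continuousOn (isCompact_closedBall (0 : E3) R)).mono_set hR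
  have hA : ∫ v in Bz σ 1, g v * (ua χ K s z p v - c) ^ 2 ≤ ∫ v in Bz σ 1, g v * f v := by
    refine integral_mono_of_nonneg (Filter.Eventually.of_forall fun v => mul_nonneg (hg.pos v).le (sq_nonneg _))
      hgf (Filter.Eventually.of_forall fun v => ?_)
    refine mul_le_mul_of_nonneg_left ?_ (hg.pos v).le
    rw [hf]
    beta_reduce
    nlinarith [sq_nonneg (phi z p v - c + (phi z p v - ua χ K s z p v))]
  have hB := h1 g hg σ hσ 1 f hf0 hfl
  rw [show (1 : ℝ) + 1 = 2 by norm_num] at hB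
  have hQi : IntegrableOn (fun x => g x * Qp z c p x) (Bz σ 3) :=
    Qp_int z c p hg.smooth.continuous (Bz_open σ 3).measurableSet (Bz_bdd hσ 3)
  have hsub : Bz σ 2 ⊆ Bz σ 3 := by
    rintro v ⟨x, hx, h0⟩
    exact ⟨x, by linarith, h0⟩
  have hD : ∫ x in Bz σ 2, g x * ∫ v in Metric.ball x 1, f v ≤
      ∫ x in Bz σ 2, (2 + 2 * C2) * (g x * Qp z c p x) := by
    refine integral_mono_of_nonneg (Filter.Eventually.of_forall fun x =>
      mul_nonneg (hg.pos x).le (integral_nonneg fun v => hf0 v)) ((hQi.mono_set hsub).const_mul _)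
      (Filter.Eventually.of_forall fun x => ?_)
    beta_reduce
    have e1 : ∫ v in Metric.ball x 1, f v = 2 * (∫ v in Metric.ball x 1, (phi z p v - c) ^ 2) +
        2 * ∫ v in Metric.ball x 1, (phi z p v - ua χ K s z p v) ^ 2 := by
      rw [hf, integral_add ((hi1 x).const_mul 2) ((hi2 x).const_mul 2), integral_const_mul, integral_const_mul]
    have e2 := (h2 s hs hs4 n k z hz p hp1 hp2 x).2
    have e3 : 0 ≤ ∫ v in Metric.ball x 1, (phi z p v - c) ^ 2 := integral_nonneg fun v => sq_nonneg _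
    have e4 : 0 ≤ ce p x 3 ^ (5 / 3 : ℝ) := Real.rpow_nonneg ((ELs_cnt p.1 3).2 x).1 _
    have e5 : 0 ≤ cn p x 3 := ((ELs_cnt p.2 3).2 x).1
    have e6 : ∫ v in Metric.ball x 1, f v ≤ (2 + 2 * C2) * Qp z c p x := by
      rw [e1]
      unfold Qp
      have e7 : 0 ≤ C2 * ∫ v in Metric.ball x 1, (phi z p v - c) ^ 2 := mul_nonneg hC2 e3
      nlinarith
    calc g x * ∫ v in Metric.ball x 1, f v ≤ g x * ((2 + 2 * C2) * Qp z c p x) :=
          mul_le_mul_of_nonneg_left e6 (hg.pos x).le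
      _ = (2 + 2 * C2) * (g x * Qp z c p x) := by ring
  have hE : ∫ x in Bz σ 2, g x * Qp z c p x ≤ ∫ x in Bz σ 3, g x * Qp z c p x :=
    setIntegral_mono_set hQi (Filter.Eventually.of_forall fun x =>
      mul_nonneg (hg.pos x).le (Qp_nonneg z c p x)) (LE.le.eventuallyLE hsub)
  rw [integral_const_mul] at hD
  calc ∫ v in Bz σ 1, g v * (ua χ K s z p v - c) ^ 2 ≤ ∫ v in Bz σ 1, g v * f v := hA
    _ ≤ C1 * ∫ x in Bz σ 2, g x * ∫ v in Metric.ball x 1, f v := hB
    _ ≤ C1 * ((2 + 2 * C2) * ∫ x in Bz σ 2, g x * Qp z c p x) := mul_le_mul_of_nonneg_left hD hC1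
    _ ≤ C1 * ((2 + 2 * C2) * ∫ x in Bz σ 3, g x * Qp z c p x) :=
        mul_le_mul_of_nonneg_left (mul_le_mul_of_nonneg_left hE (by positivity)) hC1
    _ = C1 * (2 + 2 * C2) * ∫ x in Bz σ 3, g x * Qp z c p x := by ring

end H6.CX
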