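import Pool.Agent.H6.CX.ELr
import Pool.Agent.H6.CX.Cnt
import Pool.Agent.H6.CX.ELs

/-! Common lemmas for the two forms of the electrostatic inequality. -/

open MeasureTheory Finset

namespace H6.CX

open H6.CM H6.CB H6.CL H6.CT

theorem intOn' {f : E3 → ℝ} (hf : Continuous f) {S : Set E3}
    (hb : Bornology.IsBounded S) : IntegrableOn f S := by
  obtain ⟨R, hR⟩ := hb.subset_closedBall 0
  exact (hf.continuousOn.integrableOn_compact (isCompact_closedBall 0 R)).mono_set hR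

theorem gr_cts' {f : E3 → ℝ} (hf : ContDiff ℝ (⊤ : ℕ∞) f) : Continuous (gr f) := by
  unfold gr
  have h1 : Continuous (fderiv ℝ f) := hf.continuous_fderiv (by simp)
  fun_prop

theorem gr_nn' (f : E3 → ℝ) (v : E3) : 0 ≤ gr f v :=
  Finset.sum_nonneg fun _ _ => sq_nonneg _

theorem Bz_mono (σ : E3 → ℝ) {s t : ℝ} (h : s ≤ t) : Bz σ s ⊆ Bz σ t := by
  rintro v ⟨x, h1, h2⟩
  exact ⟨x, h1.trans_le h, h2⟩

theorem cc_int {m f : E3 → ℝ} (hm : Cc m) (hf : Continuous f) :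
    Integrable (fun v => m v * f v) :=
  (hm.1.continuous.mul hf).integrable_of_hasCompactSupport hm.2.mul_right

theorem Ws.C0_nonneg {C0 : ℝ} {g m σ : E3 → ℝ} (h : Ws C0 g m σ) : 0 ≤ C0 := by
  have h1 := h.sle 0
  have h2 := h.sn 0
  have h3 := h.wt.pos 0
  by_contra hcon
  push Not at hcon
  nlinarith

theorem sig_int {C0 : ℝ} {g m σ : E3 → ℝ} (h : Ws C0 g m σ) {f : E3 → ℝ} (hf : Continuous f)
    (h0 : ∀ v, 0 ≤ f v) :
    ∫ v, σ v * f v ≤ C0 * ∫ v in Bz σ 1, g v * f v := by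
  have hgc : Continuous g := h.wt.smooth.continuous
  have h1 : ∫ v, σ v * f v = ∫ v in Bz σ 1, σ v * f v := by
    symm
    apply setIntegral_eq_integral_of_forall_compl_eq_zero
    intro v hv
    have : σ v = 0 := by
      by_contra hc
      exact hv ⟨v, by simp, hc⟩
    rw [this, zero_mul]
  rw [h1, ← integral_const_mul]
  apply setIntegral_mono_on
  · exact (cc_int h.sc hf).integrableOn
  · exact (intOn' (continuous_const.mul (hgc.mul hf)) (Bz_bdd h.sc.2 1))
  · exact (Bz_open σ 1).measurableSet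
  · intro v _
    calc σ v * f v ≤ (C0 * g v) * f v := mul_le_mul_of_nonneg_right (h.sle v) (h0 v)
      _ = C0 * (g v * f v) := by ring

theorem third (A η : ℝ) (hη : 0 < η) : ∃ C : ℝ, 0 ≤ C ∧ ∀ (n k : ℕ) (p : Cfg n k)
    (g : E3 → ℝ) (_ : ∀ v, 0 < g v),
    A * ∑ a, g (p.1 a) * ce p (p.1 a) 1 ^ (1 / 3 : ℝ) ≤
      η * (∑ a, g (p.1 a) * ce p (p.1 a) 1 ^ (2 / 3 : ℝ)) + C * ∑ a, g (p.1 a) := by
  refine ⟨A ^ 2 / (4 * η), by positivity, ?_⟩
  intro n k p g hg
  rw [Finset.mul_sum, Finset.mul_sum, Finset.mul_sum, ← Finset.sum_add_distrib]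
  apply Finset.sum_le_sum
  intro a _
  have h0 := ce_nonneg p (p.1 a) 1
  set w := ce p (p.1 a) 1 ^ (1 / 3 : ℝ) with hw
  have h1 : ce p (p.1 a) 1 ^ (2 / 3 : ℝ) = w ^ 2 := by
    rw [hw, ← Real.rpow_natCast, ← Real.rpow_mul h0]
    norm_num
  rw [h1]
  have h2 : A * w ≤ η * w ^ 2 + A ^ 2 / (4 * η) := by
    have h3 : η * w ^ 2 + A ^ 2 / (4 * η) - A * w = (2 * η * w - A) ^ 2 / (4 * η) := by
      field_simp
      ring
    have h4 : 0 ≤ (2 * η * w - A) ^ 2 / (4 * η) := by positivity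
    linarith
  have h3 := mul_le_mul_of_nonneg_left h2 (hg (p.1 a)).le
  linarith

theorem sig_abs {σ u : E3 → ℝ} (hσ : Cc σ) (h0 : ∀ v, 0 ≤ σ v) (hu : Continuous u) (t : ℝ) :
    t * (∫ v, σ v * |u v|) ≤ (∫ v, σ v * u v ^ 2) + t ^ 2 / 4 * ∫ v, σ v := by
  have i1 : Integrable (fun v => σ v * |u v|) := cc_int hσ hu.abs
  have i2 : Integrable (fun v => σ v * u v ^ 2) := cc_int hσ (hu.pow 2)
  have i3 : Integrable (fun v => σ v) :=
    hσ.1.continuous.integrable_of_hasCompactSupport hσ.2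
  rw [← integral_const_mul, ← integral_const_mul, ← integral_add i2 (i3.const_mul _)]
  apply integral_mono (i1.const_mul t) (i2.add (i3.const_mul _))
  intro v
  have h1 : t * |u v| ≤ u v ^ 2 + t ^ 2 / 4 := by
    rw [← sq_abs (u v)]
    nlinarith [sq_nonneg (|u v| - t / 2)]
  have h2 := mul_le_mul_of_nonneg_left h1 (h0 v)
  simp only [Pi.add_apply]
  linarith

theorem sig_c {σ w : E3 → ℝ} (hσ : Cc σ) (h0 : ∀ v, 0 ≤ σ v) (hw : Continuous w) (c : ℝ) :
    |∫ v, σ v * w v| ≤ (∫ v, σ v * |w v - c|) + |c| * ∫ v, σ v := by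
  have hu : Continuous (fun v => w v - c) := hw.sub continuous_const
  have i1 : Integrable (fun v => σ v * |w v - c|) := cc_int hσ hu.abs
  have i3 : Integrable (fun v => σ v) :=
    hσ.1.continuous.integrable_of_hasCompactSupport hσ.2
  have i4 : Integrable (fun v => σ v * w v) := cc_int hσ hw
  rw [← integral_const_mul, ← integral_add i1 (i3.const_mul _)]
  refine (abs_integral_le_integral_abs).trans ?_
  apply integral_mono i4.abs (i1.add (i3.const_mul _))
  intro v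
  simp only [Pi.add_apply]
  rw [abs_mul, abs_of_nonneg (h0 v)]
  have h1 : |w v| ≤ |w v - c| + |c| := by
    calc |w v| = |(w v - c) + c| := by ring_nf
      _ ≤ _ := abs_add_le _ _
  have h2 := mul_le_mul_of_nonneg_left h1 (h0 v)
  linarith

end H6.CX
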