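import Pool.Agent.H6.CX.Trl
import Pool.Agent.H6.CT.SmallR

/-! Equilibrium states exist. -/

open MeasureTheory Finset

namespace H6.CX

open H6.CM H6.CB H6.CL H6.CT

theorem St_mono {q n k : ℕ} {Λ Λ' : Set E3} {ψ : (Fin n → Fin q) → Cfg n k → ℂ}
    (h : St q n k Λ ψ) (hs : Λ ⊆ Λ') : St q n k Λ' ψ where
  smooth := h.smooth
  cpt := h.cpt
  supp := fun σ p hp => ⟨fun a => hs ((h.supp σ p hp).1 a), fun j => hs ((h.supp σ p hp).2 j)⟩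
  anti := h.anti

theorem FE_low (q n k : ℕ) (T zp κm : ℝ) (hT : 0 ≤ T) (hκm : 0 < κm) (Λ : Set E3)
    (hb : Bornology.IsBounded Λ) (z κ : Fin k → ℝ) (hz : ∀ j, 0 ≤ z j ∧ z j ≤ zp)
    (hκ : ∀ j, κm ≤ κ j) : ∃ B : ℝ, ∀ (m : ℕ) (Ψ : Fin m → (Fin n → Fin q) → Cfg n k → ℂ),
      (∀ i, St q n k Λ (Ψ i)) → Ort Ψ → ∑ i, mass (Ψ i) = 1 → B ≤ FE T z κ Ψ := by
  obtain ⟨R, hR⟩ := hb.subset_ball 0
  obtain ⟨C1, hC1, h1⟩ := stabD q zp (1 / 2) (by norm_num)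
  have hc : 0 < min (1 / 2) κm := lt_min (by norm_num) hκm
  obtain ⟨C2, hC2, h2⟩ := entK q (min (1 / 2) κm / (T + 1)) (by positivity) R
  refine ⟨-(C1 * (n + k)) - T * (C2 * (n + k)), ?_⟩
  intro m Ψ hS hO hM
  have e2 := h2 (Fin m) _ n k R le_rfl Ψ (fun i => St_mono (hS i) hR) hO hM
  have e1 : ∀ i, -(C1 * (n + k)) * mass (Ψ i) +
      min (1 / 2) κm * (∑ a, kE (Ψ i) a + ∑ j, kN (Ψ i) j) ≤ energy z κ (Ψ i) := by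
    intro i
    have a1 := h1 n k Λ z hz (Ψ i) (hS i)
    have a2 : 0 ≤ ∑ a, kE (Ψ i) a := sum_nonneg fun a _ => kE_nonneg _ _
    have a3 : 0 ≤ ∑ j, kN (Ψ i) j := sum_nonneg fun j _ => kN_nonneg _ _
    have a4 : κm * ∑ j, kN (Ψ i) j ≤ ∑ j, κ j * kN (Ψ i) j := by
      rw [mul_sum]
      exact sum_le_sum fun j _ => mul_le_mul_of_nonneg_right (hκ j) (kN_nonneg _ _)
    have a5 : min (1 / 2) κm * ∑ a, kE (Ψ i) a ≤ 1 / 2 * ∑ a, kE (Ψ i) a :=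
      mul_le_mul_of_nonneg_right (min_le_left _ _) a2
    have a6 : min (1 / 2) κm * ∑ j, kN (Ψ i) j ≤ κm * ∑ j, kN (Ψ i) j :=
      mul_le_mul_of_nonneg_right (min_le_right _ _) a3
    unfold energy
    linarith
  have e3 : -(C1 * (n + k)) + min (1 / 2) κm * ∑ i, (∑ a, kE (Ψ i) a + ∑ j, kN (Ψ i) j) ≤
      ∑ i, energy z κ (Ψ i) := by
    have b1 := sum_le_sum (s := univ) fun i (_ : i ∈ univ) => e1 i
    rw [sum_add_distrib, ← mul_sum, ← mul_sum, hM, mul_one] at b1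
    exact b1
  have hK : 0 ≤ ∑ i, (∑ a, kE (Ψ i) a + ∑ j, kN (Ψ i) j) :=
    sum_nonneg fun i _ => add_nonneg (sum_nonneg fun a _ => kE_nonneg _ _)
      (sum_nonneg fun j _ => kN_nonneg _ _)
  have e4 : T * (min (1 / 2) κm / (T + 1) * ∑ i, (∑ a, kE (Ψ i) a + ∑ j, kN (Ψ i) j)) ≤
      min (1 / 2) κm * ∑ i, (∑ a, kE (Ψ i) a + ∑ j, kN (Ψ i) j) := by
    have b1 : T * (min (1 / 2) κm / (T + 1)) ≤ min (1 / 2) κm := by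
      rw [mul_div_assoc', div_le_iff₀ (by positivity)]
      nlinarith
    calc T * (min (1 / 2) κm / (T + 1) * ∑ i, (∑ a, kE (Ψ i) a + ∑ j, kN (Ψ i) j)) =
        (T * (min (1 / 2) κm / (T + 1))) *
          ∑ i, (∑ a, kE (Ψ i) a + ∑ j, kN (Ψ i) j) := by ring
      _ ≤ _ := mul_le_mul_of_nonneg_right b1 hK
  have e5 := mul_le_mul_of_nonneg_left e2 hT
  have e6 : FE T z κ Ψ = ∑ i, energy z κ (Ψ i) +
      T * ∑ i, mass (Ψ i) * Real.log (mass (Ψ i)) := by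
    unfold FE
    rw [sum_add_distrib, mul_sum]
  rw [e6]
  linarith

theorem eqs_ex (q n k : ℕ) (hq : 1 ≤ q) (T δ zp κm : ℝ) (hT : 0 ≤ T) (hδ : 0 < δ)
    (hκm : 0 < κm) (Λ : Set E3) (ho : IsOpen Λ) (hn : Λ.Nonempty)
    (hb : Bornology.IsBounded Λ) (z κ : Fin k → ℝ) (hz : ∀ j, 0 ≤ z j ∧ z j ≤ zp)
    (hκ : ∀ j, κm ≤ κ j) : ∃ (m : ℕ) (Ψ : Fin m → (Fin n → Fin q) → Cfg n k → ℂ),
      Eqs T δ Λ z κ Ψ := by
  obtain ⟨y, hy⟩ := hn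
  obtain ⟨r, hr, hyr⟩ := Metric.isOpen_iff.1 ho y hy
  obtain ⟨ψ, hψ, hψm⟩ := trial_ex q n k hq r hr
  obtain ⟨B, hB⟩ := FE_low q n k T zp κm hT hκm Λ hb z κ hz hκ
  have h1 : St q n k Λ (sh (-y) ψ) := by
    refine St_mono (sh_St hψ (-y)) fun v hv => hyr ?_
    have h2 : v + -y ∈ Metric.ball (0 : E3) r := hv
    rw [mem_ball_iff_norm] at h2 ⊢
    rwa [sub_zero, ← sub_eq_add_neg] at h2
  set S : Set ℝ := {e | ∃ (m : ℕ) (Ψ : Fin m → (Fin n → Fin q) → Cfg n k → ℂ),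
    (∀ i, St q n k Λ (Ψ i)) ∧ Ort Ψ ∧ ∑ i, mass (Ψ i) = 1 ∧ FE T z κ Ψ = e} with hS
  have hne : S.Nonempty := by
    refine ⟨_, 1, fun _ => sh (-y) ψ, fun _ => h1, ?_, ?_, rfl⟩
    · intro i j hij
      exact absurd (Subsingleton.elim i j) hij
    · simp [sh_mass, hψm]
  have hbd : BddBelow S := by
    refine ⟨B, ?_⟩
    rintro e ⟨m, Ψ, a1, a2, a3, rfl⟩
    exact hB m Ψ a1 a2 a3
  obtain ⟨e, ⟨m, Ψ, a1, a2, a3, a4⟩, he⟩ := exists_lt_of_csInf_lt hne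
    (lt_add_of_pos_right (sInf S) hδ)
  refine ⟨m, Ψ, a1, a2, a3, ?_⟩
  intro m' Φ b1 b2 b3
  have h3 : sInf S ≤ FE T z κ Φ := csInf_le hbd ⟨m', Φ, b1, b2, b3, rfl⟩
  rw [a4]
  linarith

end H6.CX
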