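import Pool.Agent.H6.CT.FbW
import Pool.Agent.H6.CX.Defs

/-! Second moments and kinetic energy in the bulk, with a separate bound `K1` for the numbers of particles. `tlG`: `fbtl` for all `D ≥ 13`, let `D → ∞` (`(n + k) * (D ^ 4)⁻¹ → 0`). `uG`, `cG`: `fbU` (`FbU.lean`) with `D → ∞`. `fbWG`: as `fbW` (file `Pool/Agent/H6/CT/FbW.lean`): the inequality `ww` of `Inb`; `fbmm` with `s = 4/3` and `s = 7/6`; `fbS`; `mixP` with a small constant, `cnP` at the points `x + c` (`‖c‖ ≤ 14`; `uG` at the points of the ball of radius `6` around them, `closedBall v 2 ⊆ Λ` because `14 + 6 + 2 ≤ 22`), `fbM` with `ρ = 7`, `s = 3/2`; `tlG` instead of `fbt`: it is the only term with `K1`. `fbKG`: the inequality `tt` of `Inb` with `fbWG`, `fbS` and `c_cov` with radius `4` (finite sum over `c ∈ t`, `mM` is monotone and additive): `mM (ce p x 4 + cn p x 4) ≤ C * K1`. The constants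 `C4` do not depend on `η`. -/

open MeasureTheory Finset

namespace H6.CX

open H6.CM H6.CB H6.CL H6.CT

private theorem g_mMmono {ι : Type} [Fintype ι] {q n k : ℕ} {Λ : Set E3}
    {Ψ : ι → (Fin n → Fin q) → Cfg n k → ℂ} (_ : ∀ i, Sm q n k Λ (Ψ i))
    {F G : Cfg n k → ℝ} (hF : ∀ i, IM (Ψ i) F) (hG : ∀ i, IM (Ψ i) G) (h : ∀ p, F p ≤ G p) :
    mM Ψ F ≤ mM Ψ G :=
  sum_le_sum fun i _ => mean_mono (hF i) (hG i) fun _ p _ => h p

private theorem g_lim (a b c X : ℝ) (h : ∀ D : ℝ, 13 ≤ D → X ≤ a + b * (c * (D ^ 4)⁻¹)) :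
    X ≤ a := by
  have h1 : Filter.Tendsto (fun D : ℝ => a + b * (c * (D ^ 4)⁻¹)) Filter.atTop
      (nhds (a + b * (c * 0))) := by
    refine Filter.Tendsto.const_add _ (Filter.Tendsto.const_mul _ (Filter.Tendsto.const_mul _ ?_))
    exact (tendsto_inv_atTop_zero (𝕜 := ℝ)).comp (Filter.tendsto_pow_atTop (by norm_num))
  have h2 : X ≤ a + b * (c * 0) := by
    refine ge_of_tendsto h1 ?_
    filter_upwards [Filter.eventually_ge_atTop (13 : ℝ)] with D hD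
    exact h D hD
  simpa using h2

private theorem g_B0 {ι : Type} [Fintype ι] {q n k : ℕ}
    {Ψ : ι → (Fin n → Fin q) → Cfg n k → ℂ} {y : E3} {B : ℝ} (h : Lm Ψ y B) : 0 ≤ B :=
  (TM_nonneg Ψ y 1).trans h.t

theorem tlG : ∃ C : ℝ, 0 ≤ C ∧
    ∀ (ι : Type) (_ : Fintype ι) (q n k : ℕ) (Λ : Set E3)
    (Ψ : ι → (Fin n → Fin q) → Cfg n k → ℂ) (_ : ∀ i, Sm q n k Λ (Ψ i))
    (_ : ∑ i, mass (Ψ i) = 1) (x : E3)
    (K1 : ℝ) (_ : ∀ v, mM Ψ (fun p => ce p v 1 + cn p v 1) ≤ K1),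
    mM Ψ (fun p => tl 13 p x) ≤ C * K1 := by
  obtain ⟨C, hC, h⟩ := fbtl
  refine ⟨C, hC, fun ι _ q n k Λ Ψ hΨ h1 x K1 hK => ?_⟩
  refine g_lim (C * K1) 1 (n + k) _ fun D hD => ?_
  have := h ι _ q n k Λ Ψ hΨ h1 x D hD K1 fun v _ => hK v
  linarith

theorem uG (q : ℕ) (Ci zm zp : ℝ) (hCi : 0 ≤ Ci) (hzm : 0 < zm) {χ θ : E3 → ℝ} (hχ : Bump χ)
    (hθ : Cut θ) :
    ∃ C : ℝ, 0 ≤ C ∧ ∀ (ι : Type) (_ : Fintype ι) (n k : ℕ) (Λ : Set E3)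
    (z : Fin k → ℝ) (W : Finset E3) (Ψ : ι → (Fin n → Fin q) → Cfg n k → ℂ)
    (_ : Inb Ci zm zp q n k Λ z W χ θ Ψ) (v : E3)
    (_ : Metric.closedBall v 2 ⊆ Λ) (B : ℝ) (_ : ∀ y, Lm Ψ y B),
    mM Ψ (fun p => |uh χ 1 W z p v| ^ (3 / 2 : ℝ)) ≤ C * (1 + B) := by
  obtain ⟨C, hC, h⟩ := fbU q Ci zm zp hCi hzm hχ hθ
  refine ⟨C, hC, fun ι _ n k Λ z W Ψ hI v hv B hB => ?_⟩
  refine g_lim (C * (1 + B)) C (n + k) _ fun D hD => ?_
  have := h ι _ n k Λ z W Ψ hI v hv D hD B fun y _ => hB y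
  linarith

private theorem g_cn (q : ℕ) (Ci zm zp : ℝ) (hCi : 0 ≤ Ci) (hzm : 0 < zm) {χ θ : E3 → ℝ}
    (hχ : Bump χ) (hθ : Cut θ) :
    ∃ C : ℝ, 0 ≤ C ∧ ∀ (ι : Type) (_ : Fintype ι) (n k : ℕ) (Λ : Set E3)
    (z : Fin k → ℝ) (W : Finset E3) (Ψ : ι → (Fin n → Fin q) → Cfg n k → ℂ)
    (_ : Inb Ci zm zp q n k Λ z W χ θ Ψ) (y : E3)
    (_ : Metric.closedBall y 8 ⊆ Λ) (B : ℝ) (_ : ∀ y, Lm Ψ y B),
    mM Ψ (fun p => cn p y 1 ^ (3 / 2 : ℝ)) ≤ C * (1 + B) := by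
  obtain ⟨CU, hCU, hU⟩ := uG q Ci zm zp hCi hzm hχ hθ
  obtain ⟨CP, hCP, hP⟩ := cnP zm hzm hχ
  obtain ⟨CM, hCM, hM⟩ := fbM 7 (3 / 2) (by norm_num) (by norm_num) (by norm_num) 1 one_pos
  obtain ⟨V, hV⟩ : ∃ V : ℝ, V = (volume (Metric.ball (0 : E3) 6)).toReal := ⟨_, rfl⟩
  have hV0 : 0 ≤ V := by rw [hV]; exact ENNReal.toReal_nonneg
  refine ⟨CP * (V * CU + 1 + CM), by positivity, fun ι _ n k Λ z W Ψ hI y hy B hB => ?_⟩
  have hB0 : 0 ≤ B := g_B0 (hB 0)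
  have hSm : ∀ i, Sm q n k Λ (Ψ i) := fun i => St_sm (hI.st i)
  have hint : ∀ i, IntegrableOn
      (fun v => mean (Ψ i) (fun p => |uh χ 1 W z p v| ^ (3 / 2 : ℝ))) (Metric.ball y 6) := by
    intro i
    have h1 := sI_uh (ι := Unit) (Ψ := fun _ => Ψ i) (fun _ => hSm i) hχ W z (3 / 2)
      (‖y‖ + 6) (by norm_num)
    have h2 : IntegrableOn (fun v => mM (fun _ : Unit => Ψ i)
        (fun p => |uh χ 1 W z p v| ^ (3 / 2 : ℝ))) (Metric.ball y 6) := by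
      refine h1.mono_set ?_
      refine Metric.ball_subset_ball' ?_
      rw [dist_zero_right]
      linarith
    simpa [mM] using h2
  have hcst : IntegrableOn (fun _ : E3 => CU * (1 + B)) (Metric.ball y 6) :=
    integrableOn_const (by exact measure_ball_lt_top.ne)
  have h3 : ∫ v in Metric.ball y 6, mM Ψ (fun p => |uh χ 1 W z p v| ^ (3 / 2 : ℝ)) ≤
      V * (CU * (1 + B)) := by
    have h4 : ∫ v in Metric.ball y 6, mM Ψ (fun p => |uh χ 1 W z p v| ^ (3 / 2 : ℝ)) ≤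
        ∫ v in Metric.ball y 6, CU * (1 + B) := by
      refine setIntegral_mono_on (integrable_finsetSum _ fun i _ => hint i) hcst
        measurableSet_ball fun v hv => ?_
      refine hU ι _ n k Λ z W Ψ hI v ?_ B hB
      refine (Metric.closedBall_subset_closedBall' ?_).trans hy
      have := Metric.mem_ball.1 hv
      linarith
    refine h4.trans (le_of_eq ?_)
    rw [setIntegral_const, smul_eq_mul, hV]
    congr 1
    rw [Measure.real, Measure.addHaar_ball_center]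
  have h5 : mM Ψ (fun p => cn p y 1 ^ (3 / 2 : ℝ)) ≤
      CP * ((∫ v in Metric.ball y 6, mM Ψ (fun p => |uh χ 1 W z p v| ^ (3 / 2 : ℝ))) +
        mM Ψ (fun p => ce p y 7 ^ (3 / 2 : ℝ))) := by
    have h6 : ∫ v in Metric.ball y 6, mM Ψ (fun p => |uh χ 1 W z p v| ^ (3 / 2 : ℝ)) =
        ∑ i, ∫ v in Metric.ball y 6, mean (Ψ i) (fun p => |uh χ 1 W z p v| ^ (3 / 2 : ℝ)) := by
      unfold mM
      exact integral_finsetSum _ fun i _ => hint i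
    rw [h6]
    unfold mM
    rw [← sum_add_distrib, mul_sum]
    exact sum_le_sum fun i _ => hP q n k Λ z (fun j => (hI.hz j).1) hI.neu W (Ψ i) (hSm i) y
  have h7 := hM ι _ q n k Λ Ψ hSm hI.one y B fun v _ => hB v
  refine h5.trans ?_
  rw [mul_assoc]
  refine mul_le_mul_of_nonneg_left ?_ hCP
  nlinarith [mul_nonneg hCM hB0]

theorem fbWG (q : ℕ) (Ci zm zp : ℝ) (hCi : 0 ≤ Ci) (hzm : 0 < zm) {χ θ : E3 → ℝ} (hχ : Bump χ)
    (hθ : Cut θ) : ∃ C4 : ℝ, 0 ≤ C4 ∧ ∀ (η : ℝ) (_ : 0 < η),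
    ∃ C : ℝ, 0 ≤ C ∧ ∀ (ι : Type) (_ : Fintype ι) (n k : ℕ) (Λ : Set E3)
    (z : Fin k → ℝ) (W : Finset E3) (Ψ : ι → (Fin n → Fin q) → Cfg n k → ℂ)
    (_ : Inb Ci zm zp q n k Λ z W χ θ Ψ) (x : E3)
    (_ : Metric.closedBall x 22 ⊆ Λ) (B : ℝ) (_ : ∀ y, Lm Ψ y B)
    (K1 : ℝ) (_ : ∀ v, mM Ψ (fun p => ce p v 1 + cn p v 1) ≤ K1),
    WM χ θ W z Ψ x + SM θ Ψ x ≤ η * B + C + C4 * K1 := by
  obtain ⟨CT, hCT, hT⟩ := tlG
  obtain ⟨t, ht, hmix⟩ := mixP hθ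
  obtain ⟨CN, hCN, hN⟩ := g_cn q Ci zm zp hCi hzm hχ hθ
  refine ⟨Ci * CT, by positivity, fun η hη => ?_⟩
  obtain ⟨η1, hη1⟩ : ∃ η1 : ℝ, η1 = η / (8 * (Ci + 1)) := ⟨_, rfl⟩
  have hη1p : 0 < η1 := by rw [hη1]; positivity
  have hη1e : 8 * (Ci + 1) * η1 = η := by rw [hη1]; field_simp
  obtain ⟨ε, hε⟩ : ∃ ε : ℝ, ε = η1 / (t.card * CN + 1) := ⟨_, rfl⟩
  have hεp : 0 < ε := by rw [hε]; positivity
  have hεe : ε * (t.card * CN) ≤ η1 := by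
    rw [hε, div_mul_eq_mul_div, div_le_iff₀ (by positivity)]
    nlinarith
  obtain ⟨CX, hCX, hX⟩ := hmix ε hεp
  obtain ⟨η2, hη2⟩ : ∃ η2 : ℝ, η2 = η1 / (CX + 1) := ⟨_, rfl⟩
  have hη2p : 0 < η2 := by rw [hη2]; positivity
  have hη2e : CX * η2 ≤ η1 := by
    rw [hη2, mul_div_assoc', div_le_iff₀ (by positivity)]
    nlinarith
  obtain ⟨C1, hC1, h43⟩ := fbmm hθ (4 / 3) (by norm_num) (by norm_num) η1 hη1p
  obtain ⟨C5, hC5, h76⟩ := fbmm hθ (7 / 6) (by norm_num) (by norm_num) η2 hη2p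
  obtain ⟨C2, hC2, hS⟩ := fbS q hθ η1 hη1p
  refine ⟨Ci * (1 + C1 + C2 + η1 + CX * (1 + C5)) + C2, by positivity,
    fun ι _ n k Λ z W Ψ hI x hx B hB K1 hK => ?_⟩
  have hB0 : 0 ≤ B := g_B0 (hB 0)
  have hSm : ∀ i, Sm q n k Λ (Ψ i) := fun i => St_sm (hI.st i)
  have e1 := h43 ι _ q n k Λ Ψ hSm hI.one x B fun y _ => hB y
  have e2 := h76 ι _ q n k Λ Ψ hSm hI.one x B fun y _ => hB y
  have e3 := hS ι _ n k Λ Ψ hI.st hI.one x B fun y _ => hB y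
  have e4 := hT ι _ q n k Λ Ψ hSm hI.one x K1 hK
  have e5 := hI.ww x ((Metric.closedBall_subset_closedBall (by norm_num)).trans hx)
  have e6 : mM Ψ (fun p => (1 + mm θ x p ^ (1 / 6 : ℝ)) * (ce p x 14 + cn p x 14)) ≤
      ε * (∑ c ∈ t, mM Ψ (fun p => cn p (x + c) 1 ^ (3 / 2 : ℝ))) +
      CX * (1 + mM Ψ (fun p => mm θ x p ^ (7 / 6 : ℝ))) := by
    have h1 : ε * (∑ c ∈ t, mM Ψ (fun p => cn p (x + c) 1 ^ (3 / 2 : ℝ))) +
        CX * (1 + mM Ψ (fun p => mm θ x p ^ (7 / 6 : ℝ))) =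
        ∑ i, (ε * (∑ c ∈ t, mean (Ψ i) (fun p => cn p (x + c) 1 ^ (3 / 2 : ℝ))) +
          CX * (mass (Ψ i) + mean (Ψ i) (fun p => mm θ x p ^ (7 / 6 : ℝ)))) := by
      rw [← hI.one]
      unfold mM
      rw [sum_add_distrib, ← mul_sum, ← mul_sum, sum_add_distrib, sum_comm]
    rw [h1]
    exact sum_le_sum fun i _ => hX q n k Λ (Ψ i) (hSm i) x
  have e7 : ∑ c ∈ t, mM Ψ (fun p => cn p (x + c) 1 ^ (3 / 2 : ℝ)) ≤
      t.card * CN * (1 + B) := by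
    have h1 : ∑ c ∈ t, mM Ψ (fun p => cn p (x + c) 1 ^ (3 / 2 : ℝ)) ≤
        ∑ _c ∈ t, CN * (1 + B) := by
      refine sum_le_sum fun c hc => hN ι _ n k Λ z W Ψ hI (x + c) ?_ B hB
      refine (Metric.closedBall_subset_closedBall' ?_).trans hx
      rw [dist_eq_norm, add_sub_cancel_left]
      linarith [ht c hc]
    refine h1.trans (le_of_eq ?_)
    rw [sum_const, nsmul_eq_mul]
    ring
  have e8 : ε * (∑ c ∈ t, mM Ψ (fun p => cn p (x + c) 1 ^ (3 / 2 : ℝ))) ≤ η1 * (1 + B) := by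
    calc ε * (∑ c ∈ t, mM Ψ (fun p => cn p (x + c) 1 ^ (3 / 2 : ℝ))) ≤
          ε * (t.card * CN * (1 + B)) := mul_le_mul_of_nonneg_left e7 hεp.le
      _ = ε * (t.card * CN) * (1 + B) := by ring
      _ ≤ η1 * (1 + B) := mul_le_mul_of_nonneg_right hεe (by positivity)
  have e9 : CX * (1 + mM Ψ (fun p => mm θ x p ^ (7 / 6 : ℝ))) ≤ CX * (1 + C5) + η1 * B := by
    calc CX * (1 + mM Ψ (fun p => mm θ x p ^ (7 / 6 : ℝ))) ≤ CX * (1 + (η2 * B + C5)) := by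
          refine mul_le_mul_of_nonneg_left ?_ hCX
          linarith
      _ = CX * (1 + C5) + CX * η2 * B := by ring
      _ ≤ CX * (1 + C5) + η1 * B := by
          have := mul_le_mul_of_nonneg_right hη2e hB0
          linarith
  have e10 : WM χ θ W z Ψ x ≤ Ci * (1 + (η1 * B + C1) + (η1 * B + C2) +
      (η1 * (1 + B) + (CX * (1 + C5) + η1 * B)) + CT * K1) := by
    refine e5.trans (mul_le_mul_of_nonneg_left ?_ hCi)
    linarith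
  have e11 : 0 ≤ (Ci + 1) * η1 * B := by positivity
  have e12 : 0 ≤ Ci * η1 * B := by positivity
  have e13 : η * B = 8 * ((Ci + 1) * η1 * B) := by rw [← hη1e]; ring
  have e14 : (Ci + 1) * η1 * B = Ci * η1 * B + η1 * B := by ring
  have e15 : 0 ≤ η1 * B := by positivity
  rw [e13]
  calc WM χ θ W z Ψ x + SM θ Ψ x ≤ Ci * (1 + (η1 * B + C1) + (η1 * B + C2) +
      (η1 * (1 + B) + (CX * (1 + C5) + η1 * B)) + CT * K1) + (η1 * B + C2) := by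
        linarith
    _ = 4 * (Ci * η1 * B) + η1 * B + (Ci * (1 + C1 + C2 + η1 + CX * (1 + C5)) + C2) +
        Ci * CT * K1 := by ring
    _ ≤ _ := by linarith

theorem fbKG (q : ℕ) (Ci zm zp : ℝ) (hCi : 0 ≤ Ci) (hzm : 0 < zm) {χ θ : E3 → ℝ} (hχ : Bump χ)
    (hθ : Cut θ) : ∃ C4 : ℝ, 0 ≤ C4 ∧ ∀ (η : ℝ) (_ : 0 < η),
    ∃ C : ℝ, 0 ≤ C ∧ ∀ (ι : Type) (_ : Fintype ι) (n k : ℕ) (Λ : Set E3)
    (z : Fin k → ℝ) (W : Finset E3) (Ψ : ι → (Fin n → Fin q) → Cfg n k → ℂ)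
    (_ : Inb Ci zm zp q n k Λ z W χ θ Ψ) (x : E3)
    (_ : Metric.closedBall x 22 ⊆ Λ) (B : ℝ) (_ : ∀ y, Lm Ψ y B)
    (K1 : ℝ) (_ : ∀ v, mM Ψ (fun p => ce p v 1 + cn p v 1) ≤ K1),
    TM Ψ x 1 ≤ η * B + C + C4 * K1 := by
  obtain ⟨C4, hC4, hW⟩ := fbWG q Ci zm zp hCi hzm hχ hθ
  obtain ⟨t, ht, hcov⟩ := c_cov 4
  refine ⟨Ci * (C4 + t.card), by positivity, fun η hη => ?_⟩
  obtain ⟨η1, hη1⟩ : ∃ η1 : ℝ, η1 = η / (Ci + 1) := ⟨_, rfl⟩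
  have hη1p : 0 < η1 := by rw [hη1]; positivity
  have hη1e : Ci * η1 ≤ η := by
    rw [hη1, mul_div_assoc', div_le_iff₀ (by positivity)]
    nlinarith
  obtain ⟨C, hC, h⟩ := hW η1 hη1p
  refine ⟨Ci * (1 + C), by positivity, fun ι _ n k Λ z W Ψ hI x hx B hB K1 hK => ?_⟩
  have hB0 : 0 ≤ B := g_B0 (hB 0)
  have hSm : ∀ i, Sm q n k Λ (Ψ i) := fun i => St_sm (hI.st i)
  have e1 := h ι _ n k Λ z W Ψ hI x hx B hB K1 hK
  have e2 := hI.tt x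
  have hIM : ∀ i (y : E3) (r : ℝ), IM (Ψ i) (fun p => ce p y r + cn p y r) := fun i y r =>
    (IM_ce (hSm i) y r).add (IM_cn (hSm i) y r)
  have e3 : mM Ψ (fun p => ce p x 4 + cn p x 4) ≤ t.card * K1 := by
    have h1 : mM Ψ (fun p => ce p x 4 + cn p x 4) ≤
        mM Ψ (fun p => ∑ c ∈ t, (ce p (x + c) 1 + cn p (x + c) 1)) := by
      refine g_mMmono hSm (fun i => hIM i x 4) (fun i => IM.sum _ fun c _ => hIM i _ _)
        fun p => ?_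
      rw [sum_add_distrib]
      exact add_le_add (hcov n k p x).1 (hcov n k p x).2
    have h2 : mM Ψ (fun p => ∑ c ∈ t, (ce p (x + c) 1 + cn p (x + c) 1)) =
        ∑ c ∈ t, mM Ψ (fun p => ce p (x + c) 1 + cn p (x + c) 1) := by
      unfold mM
      rw [sum_comm]
      exact sum_congr rfl fun i _ => mean_sum _ fun c _ => hIM i _ _
    rw [h2] at h1
    refine h1.trans ((sum_le_sum fun c _ => hK (x + c)).trans (le_of_eq ?_))
    rw [sum_const, nsmul_eq_mul]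
  have e4 : TM Ψ x 1 ≤ Ci * (1 + (η1 * B + C + C4 * K1) + t.card * K1) := by
    refine e2.trans (mul_le_mul_of_nonneg_left ?_ hCi)
    linarith
  have e5 := mul_le_mul_of_nonneg_right hη1e hB0
  calc TM Ψ x 1 ≤ Ci * (1 + (η1 * B + C + C4 * K1) + t.card * K1) := e4
    _ = Ci * η1 * B + Ci * (1 + C) + Ci * (C4 + t.card) * K1 := by ring
    _ ≤ _ := by linarith

end H6.CX
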