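import Pool.Agent.H6.CX.Plu
import Pool.Agent.H6.CT.SmallR
import Pool.Agent.H6.CL.RefB
import Pool.Agent.H6.CM.BumpEx

/-! The theorem for domains which are star-shaped with respect to a ball. -/

open MeasureTheory Finset

namespace H6.CX

open H6.CM H6.CB H6.CL H6.CT

/-- domains which are star-shaped with respect to a large ball are plump -/
theorem star_plump (Ar : ℝ) (Λ : Set E3) (r : ℝ) (hr : 60 ≤ r)
    (h1 : Λ ⊆ Metric.ball 0 (Ar * r))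
    (h3 : ∀ x ∈ Λ, ∀ v ∈ Metric.ball (0 : E3) r, segment ℝ x v ⊆ Λ) :
    ∀ x ∈ Λ, ∃ u, ‖x - u‖ ≤ 60 * |Ar| ∧ Metric.closedBall u 48 ⊆ Λ := by
  intro x hx
  have hr0 : 0 < r := by linarith
  obtain ⟨t, ht⟩ : ∃ t, t = 60 / r := ⟨_, rfl⟩
  have ht0 : 0 < t := by rw [ht]; positivity
  have ht1 : t ≤ 1 := by rw [ht, div_le_one hr0]; exact hr
  have htr : t * r = 60 := by rw [ht]; field_simp
  refine ⟨(1 - t) • x, ?_, ?_⟩
  · have e : x - (1 - t) • x = t • x := by rw [sub_smul, one_smul]; abel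
    rw [e, norm_smul, Real.norm_of_nonneg ht0.le]
    have h4 : ‖x‖ < Ar * r := by simpa using h1 hx
    calc t * ‖x‖ ≤ t * (Ar * r) := by gcongr
      _ = 60 * Ar := by rw [mul_comm Ar r, ← mul_assoc, htr]
      _ ≤ 60 * |Ar| := by gcongr; exact le_abs_self _
  · intro w hw
    rw [Metric.mem_closedBall, dist_eq_norm] at hw
    obtain ⟨v, hv⟩ : ∃ v, v = t⁻¹ • (w - (1 - t) • x) := ⟨_, rfl⟩
    have hvn : v ∈ Metric.ball (0 : E3) r := by
      rw [Metric.mem_ball, dist_zero_right, hv, norm_smul, norm_inv,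
        Real.norm_of_nonneg ht0.le, inv_mul_lt_iff₀ ht0, htr]
      linarith
    refine h3 x hx v hvn ?_
    refine ⟨1 - t, t, by linarith, ht0.le, by ring, ?_⟩
    rw [hv, smul_inv_smul₀ ht0.ne']
    abel

theorem full (q : ℕ) (T zm zp κm κp ρ1 ρ2 Ar : ℝ) (hT : 0 ≤ T) (hzm : 0 < zm)
    (hκm : 0 < κm) (hρ1 : 0 < ρ1) :
    ∃ C : ℝ, ∀ (Λ : Set E3) (r : ℝ) (n k : ℕ) (z κ : Fin k → ℝ), 0 < r → IsOpen Λ →
      Metric.ball 0 r ⊆ Λ → Λ ⊆ Metric.ball 0 (Ar * r) →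
      (∀ x ∈ Λ, ∀ v ∈ Metric.ball (0 : E3) r, segment ℝ x v ⊆ Λ) →
      ρ1 * r ^ 3 ≤ (n : ℝ) + k → (n : ℝ) + k ≤ ρ2 * r ^ 3 →
      (∀ j, zm ≤ z j ∧ z j ≤ zp) → (∀ j, κm ≤ κ j ∧ κ j ≤ κp) → ∑ j, z j = n →
      ∀ (m : ℕ) (Ψ : Fin m → (Fin n → Fin q) → Cfg n k → ℂ),
      Eqs T (((n : ℝ) + k + 1) ^ 4)⁻¹ Λ z κ Ψ →
      ∀ x : E3, |mM Ψ (fun p => phi z p x)| ≤ C := by
  obtain ⟨χ, hχ⟩ := bump_ex
  obtain ⟨cg, hcg, hgrid⟩ := ball_grid
  obtain ⟨Cr, hCr, hrf⟩ := rf_sep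
  obtain ⟨ρ, hρ⟩ : ∃ ρ, ρ = |ρ2| / cg := ⟨_, rfl⟩
  have hρ0 : 0 ≤ ρ := by rw [hρ]; positivity
  obtain ⟨Kv, hKv⟩ : ∃ Kv, Kv = (|Ar| ^ 3 * (Real.pi * 4 / 3)) * ((1 + zm⁻¹) / ρ1) := ⟨_, rfl⟩
  have hKv0 : 0 ≤ Kv := by rw [hKv]; positivity
  obtain ⟨C1, hC1, hpl⟩ := plump q T zm zp κm κp (Cr * ρ) Kv (60 * |Ar|) hT hzm hκm
    (by positivity) hKv0 hχ
  obtain ⟨ρ', hρ'⟩ : ∃ ρ', ρ' = max ρ2 1 := ⟨_, rfl⟩
  have hρ'1 : 1 ≤ ρ' := by rw [hρ']; exact le_max_right _ _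
  have hρ'2 : ρ2 ≤ ρ' := by rw [hρ']; exact le_max_left _ _
  obtain ⟨C2, hC2, hsmall⟩ := smallT q ⌈ρ' * 100 ^ 3⌉₊ T zm zp κm κp ρ'⁻¹ (|Ar| * 100 + 1)
    hT hzm hκm (by positivity)
  refine ⟨max C1 C2, ?_⟩
  intro Λ r n k z κ hr hop hin hout hstar hn1 hn2 hz hκ hneu m Ψ hE x
  have hn0 : (0 : ℝ) ≤ n := Nat.cast_nonneg n
  have hk0 : (0 : ℝ) ≤ k := Nat.cast_nonneg k
  have hr3 : 0 < r ^ 3 := by positivity
  have hN1 : (1 : ℝ) ≤ (n : ℝ) + k := by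
    have h1 : (0 : ℝ) < (n : ℝ) + k := lt_of_lt_of_le (by positivity) hn1
    have h2 : 0 < n + k := by exact_mod_cast h1
    exact_mod_cast h2
  have hδ1 : (((n : ℝ) + k + 1) ^ 4)⁻¹ ≤ 1 :=
    inv_le_one_of_one_le₀ (one_le_pow₀ (by linarith))
  rcases lt_or_ge r 100 with hr100 | hr100
  · -- small domains
    refine le_trans ?_ (le_max_right _ _)
    have hNle : n + k ≤ ⌈ρ' * 100 ^ 3⌉₊ := by
      have h1 : ((n + k : ℕ) : ℝ) ≤ ρ' * 100 ^ 3 := by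
        push_cast
        have h2 : ρ2 * r ^ 3 ≤ ρ' * r ^ 3 := by gcongr
        have h3 : ρ' * r ^ 3 ≤ ρ' * 100 ^ 3 := by gcongr
        linarith
      have h4 := h1.trans (Nat.le_ceil _)
      exact_mod_cast h4
    have hR0 : ρ'⁻¹ ≤ r := by
      have h1 : 1 ≤ ρ' * r ^ 3 := hN1.trans (hn2.trans (by gcongr))
      rcases le_or_gt 1 r with h | h
      · exact (inv_le_one_of_one_le₀ hρ'1).trans h
      · have h2 : r ^ 3 ≤ r := by
          calc r ^ 3 ≤ r ^ 1 := pow_le_pow_of_le_one hr.le h.le (by norm_num)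
            _ = r := pow_one r
        rw [inv_le_iff_one_le_mul₀ (by positivity)]
        calc (1 : ℝ) ≤ ρ' * r ^ 3 := h1
          _ ≤ ρ' * r := by gcongr
          _ = r * ρ' := mul_comm _ _
    have hR1 : Ar * r ≤ |Ar| * 100 + 1 := by
      have h1 : Ar * r ≤ |Ar| * r := by gcongr; exact le_abs_self _
      have h2 : |Ar| * r ≤ |Ar| * 100 := by gcongr
      linarith
    exact hsmall (Fin m) _ n k hNle Λ ((Metric.ball_subset_ball hR0).trans hin)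
      (hout.trans (Metric.ball_subset_ball hR1)) z κ hz hκ _ hδ1 Ψ hE x
  · -- large domains
    refine le_trans ?_ (le_max_left _ _)
    obtain ⟨W, hWne, hWsub, hWsep, hWcard⟩ := hgrid r hr100
    have hWΛ : ∀ w ∈ W, Metric.closedBall w 2 ⊆ Λ := fun w hw => (hWsub w hw).trans hin
    have hcard : (n : ℝ) + k ≤ ρ * W.card := by
      rw [hρ]
      calc (n : ℝ) + k ≤ ρ2 * r ^ 3 := hn2
        _ ≤ |ρ2| * r ^ 3 := by gcongr; exact le_abs_self _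
        _ = |ρ2| / cg * (cg * r ^ 3) := by field_simp
        _ ≤ |ρ2| / cg * W.card := by gcongr
    have hkn : (k : ℝ) ≤ zm⁻¹ * n := by
      have h1 : (k : ℝ) * zm ≤ n := by
        rw [← hneu]
        have h2 := card_nsmul_le_sum univ z zm fun j _ => (hz j).1
        rw [card_univ, Fintype.card_fin, nsmul_eq_mul] at h2
        exact h2
      rw [inv_mul_eq_div, le_div_iff₀ hzm]
      exact h1
    have hvol : (volume Λ).toReal ≤ Kv * n := by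
      have h1 : (volume Λ).toReal ≤ (volume (Metric.ball (0 : E3) (Ar * r))).toReal :=
        ENNReal.toReal_mono measure_ball_lt_top.ne (measure_mono hout)
      have h2 : (volume (Metric.ball (0 : E3) (Ar * r))).toReal ≤
          |Ar| ^ 3 * (Real.pi * 4 / 3) * r ^ 3 := by
        rw [EuclideanSpace.volume_ball_fin_three, ENNReal.toReal_mul, ENNReal.toReal_pow]
        have h3 : (ENNReal.ofReal (Ar * r)).toReal ≤ |Ar| * r := by
          rw [ENNReal.toReal_ofReal']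
          refine max_le ?_ (by positivity)
          gcongr
          exact le_abs_self _
        have h4 : (ENNReal.ofReal (Real.pi * 4 / 3)).toReal = Real.pi * 4 / 3 :=
          ENNReal.toReal_ofReal (by positivity)
        rw [h4]
        calc (ENNReal.ofReal (Ar * r)).toReal ^ 3 * (Real.pi * 4 / 3)
            ≤ (|Ar| * r) ^ 3 * (Real.pi * 4 / 3) := by gcongr
          _ = _ := by ring
      have h5 : r ^ 3 ≤ (1 + zm⁻¹) / ρ1 * n := by
        have h6 : ρ1 * r ^ 3 ≤ (1 + zm⁻¹) * n := by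
          calc ρ1 * r ^ 3 ≤ (n : ℝ) + k := hn1
            _ ≤ n + zm⁻¹ * n := by linarith
            _ = _ := by ring
        rw [div_mul_eq_mul_div, le_div_iff₀ hρ1]
        linarith
      rw [hKv]
      calc (volume Λ).toReal ≤ |Ar| ^ 3 * (Real.pi * 4 / 3) * r ^ 3 := h1.trans h2
        _ ≤ |Ar| ^ 3 * (Real.pi * 4 / 3) * ((1 + zm⁻¹) / ρ1 * n) := by gcongr
        _ = _ := by ring
    have hG : Gt q T zm zp κm κp (Cr * ρ) Kv n k Λ z κ W ((((n : ℝ) + k + 1) ^ 4)⁻¹) Ψ := by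
      refine ⟨hz, hκ, hneu, hop.measurableSet, Metric.isBounded_ball.subset hout, hvol,
        by positivity, hE, fun i => ?_⟩
      exact hrf q n k Λ (Ψ i) ρ hρ0 W hWne hWΛ hWsep hcard
    exact (hpl (Fin m) _ n k Λ z κ W _ Ψ hG le_rfl
      (star_plump Ar Λ r (by linarith) hout hstar) x).1

end H6.CX
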