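import Pool.Agent.H6.CX.Defs
import Pool.Agent.H6.CB.Green
import Pool.Agent.H6.CB.Poten

/-! Green's identity with a compactly supported weight. Let `u = pot ρ - c`: `lap u = -4 π ρ` (`pot_lap`), `pd d u = pd d (pot ρ)`. For every direction `d`: `∫ (w u) (pd d (pd d u)) = -∫ (pd d (w u)) (pd d u)` (`ibp` with the compactly supported factor; `ibp d f g : ∫ f * pd d g = -∫ pd d f * g` for smooth `f` and `g ∈ Cc`; use it with `f = pd d u`, `g = w * u`), and `∫ (pd d w) u (pd d u) = (1 / 2) ∫ pd d w * pd d (u ^ 2) = -(1 / 2) ∫ (pd d (pd d w)) u ^ 2`. Sum over `d`: `-4 π ∫ w u ρ = -∫ w gr u + (1 / 2) ∫ u ^ 2 lap w`. Second part: `∫ w * ρ = -(4 π)⁻¹ * ∫ w * lap (pot ρ) = -(4 π)⁻¹ ∫ lap w * pot ρ`. -/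

open MeasureTheory Finset

namespace H6.CX

open H6.CM H6.CB H6.CL H6.CT

private theorem grc_cc_pd {f : E3 → ℝ} (hf : Cc f) (d : Fin 3) : Cc (pd d f) :=
  ⟨(hf.1.fderiv_right (m := (⊤ : ℕ∞)) (by simp)).clm_apply contDiff_const, hf.2.fderiv_apply ℝ _⟩

private theorem grc_sm_pd {f : E3 → ℝ} (hf : ContDiff ℝ (⊤ : ℕ∞) f) (d : Fin 3) :
    ContDiff ℝ (⊤ : ℕ∞) (pd d f) :=
  (hf.fderiv_right (m := (⊤ : ℕ∞)) (by simp)).clm_apply contDiff_const

private theorem grc_mul {f g : E3 → ℝ} (hf : ContDiff ℝ (⊤ : ℕ∞) f) (hg : ContDiff ℝ (⊤ : ℕ∞) g)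
    (d : Fin 3) : pd d (fun v => f v * g v) = fun v => pd d f v * g v + f v * pd d g v := by
  funext v
  unfold pd
  have h1 := (hf.differentiable (by simp) v).hasFDerivAt
  have h2 := (hg.differentiable (by simp) v).hasFDerivAt
  have h3 : HasFDerivAt (fun v => f v * g v) _ v := h1.mul h2
  rw [h3.fderiv]
  simp only [_root_.add_apply, _root_.smul_apply, smul_eq_mul]
  ring

private theorem grc_subc (f : E3 → ℝ) (c : ℝ) (d : Fin 3) :
    pd d (fun v => f v - c) = pd d f := by
  funext v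
  unfold pd
  rw [fderiv_sub_const]

private theorem grc_int {f g : E3 → ℝ} (hf : Continuous f) (hg : Continuous g)
    (hc : HasCompactSupport g) : Integrable (fun v => f v * g v) :=
  (hf.mul hg).integrable_of_hasCompactSupport hc.mul_left

private theorem grc_one {w u : E3 → ℝ} (hw : Cc w) (hu : ContDiff ℝ (⊤ : ℕ∞) u) (d : Fin 3) :
    ∫ v, pd d (pd d u) v * (w v * u v) =
      (1 / 2) * (∫ v, u v ^ 2 * pd d (pd d w) v) - ∫ v, w v * pd d u v ^ 2 := by
  have hwu : Cc (fun v => w v * u v) := ⟨hw.1.mul hu, hw.2.mul_right⟩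
  have h1 := ibp d (pd d u) (fun v => w v * u v) (grc_sm_pd hu d) hwu
  have h2 := ibp d (fun v => u v * u v) (pd d w) (hu.mul hu) (grc_cc_pd hw d)
  rw [grc_mul hw.1 hu] at h1
  rw [grc_mul hu hu] at h2
  have hpu := (grc_sm_pd hu d).continuous
  have hpw := grc_cc_pd hw d
  have i1 : Integrable (fun v => (pd d u v * u v) * pd d w v) :=
    grc_int (hpu.mul hu.continuous) hpw.1.continuous hpw.2
  have i2 : Integrable (fun v => (pd d u v * pd d u v) * w v) :=
    grc_int (hpu.mul hpu) hw.1.continuous hw.2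
  have e1 : ∫ v, pd d u v * (pd d w v * u v + w v * pd d u v) =
      (∫ v, (pd d u v * u v) * pd d w v) + ∫ v, (pd d u v * pd d u v) * w v := by
    rw [← integral_add i1 i2]
    refine integral_congr_ae (Filter.Eventually.of_forall fun v => ?_)
    simp only
    ring
  have e2 : ∫ v, (pd d u v * u v + u v * pd d u v) * pd d w v =
      2 * ∫ v, (pd d u v * u v) * pd d w v := by
    rw [← integral_const_mul]
    refine integral_congr_ae (Filter.Eventually.of_forall fun v => ?_)
    simp only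
    ring
  have e3 : ∫ v, u v ^ 2 * pd d (pd d w) v = ∫ v, u v * u v * pd d (pd d w) v := by
    refine integral_congr_ae (Filter.Eventually.of_forall fun v => ?_)
    simp only
    ring
  have e4 : ∫ v, w v * pd d u v ^ 2 = ∫ v, (pd d u v * pd d u v) * w v := by
    refine integral_congr_ae (Filter.Eventually.of_forall fun v => ?_)
    simp only
    ring
  rw [e1] at h1
  rw [e2] at h2
  rw [e3, e4]
  linarith

theorem gr_c {w ρ : E3 → ℝ} (hw : Cc w) (hρ : Cc ρ) (c : ℝ) :
    ∫ v, w v * (ρ v * (pot ρ v - c)) = (4 * Real.pi)⁻¹ * (∫ v, w v * gr (pot ρ) v) -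
      (8 * Real.pi)⁻¹ * ∫ v, (pot ρ v - c) ^ 2 * lap w v := by
  have hP := pot_smooth ρ hρ
  have hu : ContDiff ℝ (⊤ : ℕ∞) (fun v => pot ρ v - c) := hP.sub contDiff_const
  have h1 := fun d => grc_one hw hu d
  simp only [grc_subc] at h1
  have hpp : ∀ d, Cc (pd d (pd d w)) := fun d => grc_cc_pd (grc_cc_pd hw d) d
  have hcu : Continuous (fun v => pot ρ v - c) := hu.continuous
  -- sum over the directions
  have s1 : ∑ d : Fin 3, ∫ v, pd d (pd d (pot ρ)) v * (w v * (pot ρ v - c)) =
      -(4 * Real.pi) * ∫ v, w v * (ρ v * (pot ρ v - c)) := by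
    have hI : ∀ d ∈ (univ : Finset (Fin 3)), Integrable (fun v => pd d (pd d (pot ρ)) v *
        (w v * (pot ρ v - c))) := fun d _ => by
      have hcw : Continuous (fun v => w v * (pot ρ v - c)) := hw.1.continuous.mul hcu
      exact grc_int (grc_sm_pd (grc_sm_pd hP d) d).continuous hcw hw.2.mul_right
    rw [← integral_finsetSum _ hI, ← integral_const_mul]
    refine integral_congr_ae (Filter.Eventually.of_forall fun v => ?_)
    simp only
    rw [← Finset.sum_mul]
    have := pot_lap ρ hρ v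
    unfold lap at this
    rw [this]
    ring
  have s2 : ∑ d : Fin 3, ∫ v, (pot ρ v - c) ^ 2 * pd d (pd d w) v =
      ∫ v, (pot ρ v - c) ^ 2 * lap w v := by
    have hI : ∀ d ∈ (univ : Finset (Fin 3)), Integrable (fun v => (pot ρ v - c) ^ 2 *
        pd d (pd d w) v) := fun d _ => by
      have hcw : Continuous (fun v => (pot ρ v - c) ^ 2) := hcu.pow 2
      exact grc_int hcw (hpp d).1.continuous (hpp d).2
    rw [← integral_finsetSum _ hI]
    refine integral_congr_ae (Filter.Eventually.of_forall fun v => ?_)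
    simp only
    rw [← Finset.mul_sum]
    rfl
  have s3 : ∑ d : Fin 3, ∫ v, w v * pd d (pot ρ) v ^ 2 = ∫ v, w v * gr (pot ρ) v := by
    rw [← integral_finsetSum _ fun d _ => ?_]
    · refine integral_congr_ae (Filter.Eventually.of_forall fun v => ?_)
      simp only
      rw [← Finset.mul_sum]
      rfl
    · exact (hw.1.continuous.mul ((grc_sm_pd hP d).continuous.pow 2)).integrable_of_hasCompactSupport
        hw.2.mul_right
  have s4 : ∑ d : Fin 3, ∫ v, pd d (pd d (pot ρ)) v * (w v * (pot ρ v - c)) =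
      (1 / 2) * (∑ d : Fin 3, ∫ v, (pot ρ v - c) ^ 2 * pd d (pd d w) v) -
        ∑ d : Fin 3, ∫ v, w v * pd d (pot ρ) v ^ 2 := by
    rw [Finset.mul_sum, ← Finset.sum_sub_distrib]
    exact Finset.sum_congr rfl fun d _ => h1 d
  rw [s1, s2, s3] at s4
  have hpi := Real.pi_pos
  field_simp
  field_simp at s4
  linarith

theorem gr_0 {w ρ : E3 → ℝ} (hw : Cc w) (hρ : Cc ρ) :
    ∫ v, w v * ρ v = -((4 * Real.pi)⁻¹ * ∫ v, lap w v * pot ρ v) := by
  have hP := pot_smooth ρ hρ
  have hpp : ∀ d, Cc (pd d (pd d w)) := fun d => grc_cc_pd (grc_cc_pd hw d) d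
  have h1 : ∀ d : Fin 3, ∫ v, pd d (pd d (pot ρ)) v * w v =
      ∫ v, pd d (pd d w) v * pot ρ v := by
    intro d
    have a1 := ibp d (pd d (pot ρ)) w (grc_sm_pd hP d) hw
    have a2 := ibp d (pot ρ) (pd d w) hP (grc_cc_pd hw d)
    have e : ∫ v, pd d (pd d w) v * pot ρ v = ∫ v, pot ρ v * pd d (pd d w) v := by
      refine integral_congr_ae (Filter.Eventually.of_forall fun v => ?_)
      simp only
      ring
    rw [e]
    linarith
  have s1 : ∑ d : Fin 3, ∫ v, pd d (pd d (pot ρ)) v * w v =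
      -(4 * Real.pi) * ∫ v, w v * ρ v := by
    rw [← integral_finsetSum _ fun d _ => grc_int (grc_sm_pd (grc_sm_pd hP d) d).continuous
      hw.1.continuous hw.2, ← integral_const_mul]
    refine integral_congr_ae (Filter.Eventually.of_forall fun v => ?_)
    simp only
    rw [← Finset.sum_mul]
    have := pot_lap ρ hρ v
    unfold lap at this
    rw [this]
    ring
  have s2 : ∑ d : Fin 3, ∫ v, pd d (pd d w) v * pot ρ v = ∫ v, lap w v * pot ρ v := by
    rw [← integral_finsetSum _ fun d _ => ?_]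
    · refine integral_congr_ae (Filter.Eventually.of_forall fun v => ?_)
      simp only
      rw [← Finset.sum_mul]
      rfl
    · exact ((hpp d).1.continuous.mul hP.continuous).integrable_of_hasCompactSupport
        (hpp d).2.mul_right
  rw [Finset.sum_congr rfl fun d _ => h1 d, s2] at s1
  rw [s1]
  have hpi := Real.pi_pos
  field_simp

end H6.CX
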