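import Pool.Agent.H6.CX.GwF

/-! Comparison of the weight and the occupation density. `gw_low`: take `i`, `c` from `pow_low` with `d + 1`; `Gw_eq` gives `Gw ≥ (1 / 2) * Mv χ Gw` (everything is nonnegative), so by induction `(Mv χ)^[j] Gw ≤ 2 ^ j * Gw`, hence `Gw v ≥ 2 ^ (-(i + 1)) * c * ∫ w in ball v (d + 1), Gw w ≥ 2 ^ (-(i + 1)) * c * ∫ w in ball x d, Gw w` for `‖v - x‖ < 1`, and `Kv_low`. `Gw_sup`: `Gw v ≤ χ (v - y) ^ 2 + C * ∫ w in ball v 1, Gw w` (`Gw_eq`, `Mv_bd`), and if `χ (v - y) ≠ 0` then `ball y (1 / 2) ⊆ ball v 1`, so `∫ w in ball v 1, Gw w ≥ ∫ w in ball v 1, χ (w - y) ^ 2 = 1` (`Aw 0 ≤ Gw`), and `χ ^ 2` is bounded. `Gw_grad`: differentiate `Gw_eq`: `|pd d ζ| ^ 2 ≤ gr ζ v ≤ Cz`, `Mv_bd`; the partial derivatives of `χ ^ 2` are bounded and vanish for `1 / 2 ≤ ‖v‖`. -/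

open MeasureTheory Finset

namespace H6.CX

open H6.CM H6.CB H6.CL H6.CT

section

variable {χ : E3 → ℝ} (h : Bump χ) (Cz : ℝ)
include h

private theorem GwA_ion {f : E3 → ℝ} (hf : Continuous f) (x : E3) (d : ℝ) :
    IntegrableOn f (Metric.ball x d) :=
  (hf.continuousOn.integrableOn_compact (isCompact_closedBall x d)).mono_set
    Metric.ball_subset_closedBall

omit h in
private theorem GwA_mono {f : E3 → ℝ} (hf : Continuous f) (h0 : ∀ v, 0 ≤ f v) {A : Set E3}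
    {x : E3} {d : ℝ} (hA : A ⊆ Metric.ball x d) :
    ∫ v in A, f v ≤ ∫ v in Metric.ball x d, f v :=
  setIntegral_mono_set ((hf.continuousOn.integrableOn_compact (isCompact_closedBall x d)).mono_set
    Metric.ball_subset_closedBall) (Filter.Eventually.of_forall fun w => h0 w) hA.eventuallyLE

private theorem GwA_half {ζ : E3 → ℝ} (hz : Kil Cz ζ) (y v : E3) :
    Mv χ (Gw χ ζ y) v ≤ 2 * Gw χ ζ y v := by
  have h1 := Gw_eq h hz y v
  have h2 := Mv_nonneg h (Gw_nonneg h hz y) v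
  have h3 := (hz.mem v).2
  have h4 := sq_nonneg (χ (v - y))
  nlinarith

private theorem GwA_it {ζ : E3 → ℝ} (hz : Kil Cz ζ) (y : E3) (j : ℕ) :
    Continuous ((Mv χ)^[j] (Gw χ ζ y)) ∧ ∀ v, (Mv χ)^[j] (Gw χ ζ y) v ≤ 2 ^ j * Gw χ ζ y v := by
  induction j with
  | zero => exact ⟨(Gw_smooth h hz y).continuous, fun v => by simp⟩
  | succ j ih =>
    rw [Function.iterate_succ_apply']
    refine ⟨(Mv_smooth h ih.1.locallyIntegrable).continuous, fun v => ?_⟩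
    have hli : LocallyIntegrable (fun v => (2 : ℝ) ^ j * Gw χ ζ y v) :=
      (continuous_const.mul (Gw_smooth h hz y).continuous).locallyIntegrable
    refine (Mv_mono h ih.1.locallyIntegrable hli ih.2 v).trans ?_
    rw [Mv_cmul h, pow_succ, mul_assoc]
    exact mul_le_mul_of_nonneg_left (GwA_half h Cz hz y v) (by positivity)

theorem gw_low (d : ℝ) : ∃ C : ℝ, 0 ≤ C ∧ ∀ (ζ : E3 → ℝ) (_ : Kil Cz ζ) (y x : E3),
    ∫ v in Metric.ball x d, Gw χ ζ y v ≤ C * gw χ ζ y x := by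
  obtain ⟨i, c, hc, hlow⟩ := pow_low h (d + 1)
  obtain ⟨c', hc', hlow'⟩ := Kv_low h
  refine ⟨2 ^ (i + 1) / (c' * c), by positivity, fun ζ hz y x => ?_⟩
  set I : ℝ := ∫ v in Metric.ball x d, Gw χ ζ y v with hI
  have hG := (Gw_smooth h hz y).continuous
  have h0 := Gw_nonneg h hz y
  have h1 : ∀ v ∈ Metric.ball x 1, c * I / 2 ^ (i + 1) ≤ Gw χ ζ y v := by
    intro v hv
    have h2 : c * I ≤ (Mv χ)^[i + 1] (Gw χ ζ y) v := by
      refine le_trans ?_ (hlow _ hG h0 v)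
      refine mul_le_mul_of_nonneg_left (GwA_mono hG h0 ?_) hc.le
      intro w hw
      rw [Metric.mem_ball] at hv hw ⊢
      calc dist w v ≤ dist w x + dist x v := dist_triangle _ _ _
        _ < d + 1 := by rw [dist_comm x v]; linarith
    rw [div_le_iff₀ (by positivity), mul_comm (Gw χ ζ y v)]
    exact h2.trans ((GwA_it h Cz hz y (i + 1)).2 v)
  have h3 : c' * (c * I / 2 ^ (i + 1)) ≤ gw χ ζ y x := hlow' _ hG h0 x _ h1
  rw [div_mul_eq_mul_div, le_div_iff₀ (by positivity)]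
  have h4 : c' * (c * I / 2 ^ (i + 1)) = I * (c' * c) / 2 ^ (i + 1) := by ring
  rw [h4, div_le_iff₀ (by positivity), mul_comm (gw χ ζ y x)] at h3
  exact h3

private theorem GwA_one {ζ : E3 → ℝ} (hz : Kil Cz ζ) (y x : E3) (d : ℝ)
    (hd : ∀ v, χ (v - y) ≠ 0 → v ∈ Metric.ball x d) :
    1 ≤ ∫ v in Metric.ball x d, Gw χ ζ y v := by
  have hG := (Gw_smooth h hz y).continuous
  have h1 : ∫ v in Metric.ball x d, χ (v - y) ^ 2 = 1 := by
    rw [setIntegral_eq_integral_of_forall_compl_eq_zero, integral_sub_right_eq_self (fun x => χ x ^ 2) y]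
    · exact h.norm
    · intro v hv
      have : χ (v - y) = 0 := by
        by_contra h0
        exact hv (hd v h0)
      rw [this]
      norm_num
  rw [← h1]
  refine setIntegral_mono_on (GwA_ion h ((h.smooth.continuous.comp
    (continuous_id.sub continuous_const)).pow 2) x d) (GwA_ion h hG x d) measurableSet_ball
    fun v _ => ?_
  rw [Gw_eq h hz y v]
  have h2 := Mv_nonneg h (Gw_nonneg h hz y) v
  have h3 := (hz.mem v).2
  have h4 : 0 ≤ (1 - ζ v) * Mv χ (Gw χ ζ y) v := mul_nonneg (by linarith) h2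
  show χ (v - y) ^ 2 ≤ _
  linarith

private theorem GwA_one' {ζ : E3 → ℝ} (hz : Kil Cz ζ) (y x : E3) (hx : χ (x - y) ≠ 0) :
    1 ≤ ∫ v in Metric.ball x 1, Gw χ ζ y v := by
  refine GwA_one h Cz hz y x 1 fun v hv => ?_
  have h1 := h.supp _ hx
  have h2 := h.supp _ hv
  rw [Metric.mem_ball, dist_eq_norm]
  calc ‖v - x‖ = ‖(v - y) - (x - y)‖ := by rw [sub_sub_sub_cancel_right]
    _ ≤ ‖v - y‖ + ‖x - y‖ := norm_sub_le _ _
    _ < 1 := by linarith

private theorem GwA_nn {ζ : E3 → ℝ} (hz : Kil Cz ζ) (y x : E3) (d : ℝ) :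
    0 ≤ ∫ v in Metric.ball x d, Gw χ ζ y v :=
  integral_nonneg fun v => Gw_nonneg h hz y v

private theorem GwA_abs {ζ : E3 → ℝ} (hz : Kil Cz ζ) (y x : E3) :
    ∫ v in Metric.ball x 1, |Gw χ ζ y v| = ∫ v in Metric.ball x 1, Gw χ ζ y v :=
  integral_congr_ae (Filter.Eventually.of_forall fun v => abs_of_nonneg (Gw_nonneg h hz y v))

theorem Gw_sup : ∃ C : ℝ, 0 ≤ C ∧ ∀ (ζ : E3 → ℝ) (_ : Kil Cz ζ) (y x : E3),
    Gw χ ζ y x ≤ C * ∫ v in Metric.ball x 1, Gw χ ζ y v := by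
  obtain ⟨C1, hC1, h1⟩ := Mv_bd h
  obtain ⟨M, hM⟩ := h.cpt.exists_bound_of_continuous h.smooth.continuous
  refine ⟨M ^ 2 + C1, by positivity, fun ζ hz y x => ?_⟩
  set I : ℝ := ∫ v in Metric.ball x 1, Gw χ ζ y v with hI
  have hI0 : 0 ≤ I := GwA_nn h Cz hz y x 1
  have h2 := (h1 _ (Gw_smooth h hz y).continuous.locallyIntegrable x).1
  rw [GwA_abs h Cz hz y x, ← hI] at h2
  have h3 : χ (x - y) ^ 2 ≤ M ^ 2 * I := by
    by_cases hx : χ (x - y) = 0
    · rw [hx, zero_pow two_ne_zero]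
      positivity
    · have h4 := GwA_one' h Cz hz y x hx
      have h5 : χ (x - y) ^ 2 ≤ M ^ 2 := by
        rw [← sq_abs]
        exact pow_le_pow_left₀ (abs_nonneg _) (hM _) 2
      nlinarith [sq_nonneg M]
  have h6 := Mv_nonneg h (Gw_nonneg h hz y) x
  have h7 := (hz.mem x).1
  have h8 := (le_abs_self _).trans h2
  rw [Gw_eq h hz y x]
  have h9 : (1 - ζ x) * Mv χ (Gw χ ζ y) x ≤ Mv χ (Gw χ ζ y) x := by nlinarith
  linarith

theorem Gw_grad : ∃ C : ℝ, 0 ≤ C ∧ ∀ (ζ : E3 → ℝ) (_ : Kil Cz ζ) (y x : E3) (d : Fin 3),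
    |pd d (Gw χ ζ y) x| ≤ C * ∫ v in Metric.ball x 1, Gw χ ζ y v := by
  obtain ⟨C1, hC1, h1⟩ := Mv_bd h
  obtain ⟨M, hM⟩ := h.cpt.exists_bound_of_continuous h.smooth.continuous
  have hχd : Continuous (fderiv ℝ χ) := h.smooth.continuous_fderiv (by simp)
  obtain ⟨M', hM'⟩ := (h.cpt.fderiv ℝ).exists_bound_of_continuous hχd
  have hM0 : 0 ≤ M := (norm_nonneg _).trans (hM 0)
  have hM0' : 0 ≤ M' := (norm_nonneg _).trans (hM' 0)
  refine ⟨2 * M * M' + (1 + |Cz|) * C1 + C1, by positivity, fun ζ hz y x d => ?_⟩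
  set I : ℝ := ∫ v in Metric.ball x 1, Gw χ ζ y v with hI
  have hI0 : 0 ≤ I := GwA_nn h Cz hz y x 1
  obtain ⟨h2, h2'⟩ := h1 _ (Gw_smooth h hz y).continuous.locallyIntegrable x
  rw [GwA_abs h Cz hz y x, ← hI] at h2
  have h2d := h2' d
  rw [GwA_abs h Cz hz y x, ← hI] at h2d
  have hMs : ContDiff ℝ (⊤ : ℕ∞) (Mv χ (Gw χ ζ y)) :=
    Mv_smooth h (Gw_smooth h hz y).continuous.locallyIntegrable
  have e1 : Gw χ ζ y = fun x => χ (x - y) ^ 2 + (1 - ζ x) * Mv χ (Gw χ ζ y) x := by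
    funext x
    exact Gw_eq h hz y x
  have hd1 : HasFDerivAt (fun v => χ (v - y)) (fderiv ℝ χ (x - y)) x := by
    have h3 := (h.smooth.differentiable (by simp) (x - y)).hasFDerivAt.comp x
      ((hasFDerivAt_id (𝕜 := ℝ) x).sub_const y)
    rwa [ContinuousLinearMap.comp_id] at h3
  have hd2 : HasFDerivAt ζ (fderiv ℝ ζ x) x :=
    (hz.smooth.differentiable (by simp) x).hasFDerivAt
  have hd3 : HasFDerivAt (Mv χ (Gw χ ζ y)) (fderiv ℝ (Mv χ (Gw χ ζ y)) x) x :=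
    (hMs.differentiable (by simp) x).hasFDerivAt
  have e2 : pd d (Gw χ ζ y) x = 2 * χ (x - y) * pd d χ (x - y) +
      ((1 - ζ x) * pd d (Mv χ (Gw χ ζ y)) x - pd d ζ x * Mv χ (Gw χ ζ y) x) := by
    have h3 := (hd1.pow 2).add ((hd2.const_sub 1).mul hd3)
    have h5 := h3.congr_of_eventuallyEq (f₁ := Gw χ ζ y)
      (Filter.Eventually.of_forall fun v => Gw_eq h hz y v)
    have h4 := h5.fderiv
    unfold pd
    rw [h4]
    simp
    ring
  have hsingle : ‖(EuclideanSpace.single d (1 : ℝ) : E3)‖ = 1 := by simp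
  have h5 : |pd d χ (x - y)| ≤ M' := by
    unfold pd
    rw [← Real.norm_eq_abs]
    refine ((fderiv ℝ χ (x - y)).le_opNorm _).trans ?_
    rw [hsingle, mul_one]
    exact hM' _
  have h6 : |2 * χ (x - y) * pd d χ (x - y)| ≤ 2 * M * M' * I := by
    by_cases hx : χ (x - y) = 0
    · rw [hx]
      simp only [mul_zero, zero_mul, abs_zero]
      positivity
    · have h4 := GwA_one' h Cz hz y x hx
      rw [abs_mul, abs_mul, abs_two]
      have h7 : |χ (x - y)| ≤ M := hM _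
      have h8 : 2 * |χ (x - y)| * |pd d χ (x - y)| ≤ 2 * M * M' := by gcongr
      have h9 : 2 * M * M' * 1 ≤ 2 * M * M' * I := by gcongr
      linarith
  have h7 : |pd d ζ x| ≤ 1 + |Cz| := by
    have h8 := hz.grad x
    have h9 : (pd d ζ x) ^ 2 ≤ gr ζ x := by
      unfold gr pd
      exact Finset.single_le_sum (f := fun d : Fin 3 =>
        (fderiv ℝ ζ x (EuclideanSpace.single d 1)) ^ 2) (fun i _ => sq_nonneg _) (Finset.mem_univ d)
    have h10 := le_abs_self Cz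
    rw [abs_le]
    constructor <;> nlinarith [sq_nonneg (pd d ζ x - 1), sq_nonneg (pd d ζ x + 1)]
  rw [e2]
  have hζ := hz.mem x
  have h8 : |(1 - ζ x) * pd d (Mv χ (Gw χ ζ y)) x| ≤ C1 * I := by
    rw [abs_mul, abs_of_nonneg (by linarith : 0 ≤ 1 - ζ x)]
    calc (1 - ζ x) * |pd d (Mv χ (Gw χ ζ y)) x| ≤ 1 * |pd d (Mv χ (Gw χ ζ y)) x| :=
          mul_le_mul_of_nonneg_right (by linarith) (abs_nonneg _)
      _ ≤ C1 * I := by rw [one_mul]; exact h2d
  have h9 : |pd d ζ x * Mv χ (Gw χ ζ y) x| ≤ (1 + |Cz|) * (C1 * I) := by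
    rw [abs_mul]
    gcongr
  calc |2 * χ (x - y) * pd d χ (x - y) +
      ((1 - ζ x) * pd d (Mv χ (Gw χ ζ y)) x - pd d ζ x * Mv χ (Gw χ ζ y) x)|
      ≤ |2 * χ (x - y) * pd d χ (x - y)| +
        (|(1 - ζ x) * pd d (Mv χ (Gw χ ζ y)) x| + |pd d ζ x * Mv χ (Gw χ ζ y) x|) :=
        (abs_add_le _ _).trans (add_le_add_right (abs_sub _ _) _)
    _ ≤ 2 * M * M' * I + (C1 * I + (1 + |Cz|) * (C1 * I)) := by
        exact add_le_add h6 (add_le_add h8 h9)
    _ = _ := by ring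

/-- the total number of visits in a large ball is at least one -/
theorem Gw_one {ζ : E3 → ℝ} (hz : Kil Cz ζ) (y x : E3) (d : ℝ) (hd : ‖x - y‖ + 1 / 2 ≤ d) :
    1 ≤ ∫ v in Metric.ball x d, Gw χ ζ y v := by
  refine GwA_one h Cz hz y x d fun v hv => ?_
  have h2 := h.supp _ hv
  rw [Metric.mem_ball, dist_eq_norm]
  calc ‖v - x‖ = ‖(v - y) - (x - y)‖ := by rw [sub_sub_sub_cancel_right]
    _ ≤ ‖v - y‖ + ‖x - y‖ := norm_sub_le _ _
    _ < d := by linarith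

end

end H6.CX
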