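import Pool.Agent.H6.CX.AwS

/-! The occupation density. All terms are nonnegative and the partial sums are bounded (`Sw_le`; `U χ` is bounded and continuous, `U_bd`, `U_cont` for `chr χ 1 = χ`), so the series converges and `Sw m x → Gw x`, `Sw m x ≤ Gw x`. `Gw` is measurable and bounded, so locally integrable; `Mv_lim` with the dominating function `fun v => χ (v - y) ^ 2 + C * U χ (v - y)`, and `Sw_rec`, give `Gw_eq`; then `Gw_smooth` by `Mv_smooth`. `Kv_lim` gives the limit of `Kv`. Terms of a convergent series tend to zero (`Summable.tendsto_atTop_zero`), `Mv χ (Aw m) x ≤ 2 * Aw (m + 1) x`. -/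

open MeasureTheory Finset

namespace H6.CX

open H6.CM H6.CB H6.CL H6.CT

section

variable {χ : E3 → ℝ} (h : Bump χ) {Cz : ℝ} {ζ : E3 → ℝ} (hz : Kil Cz ζ) (y : E3)
include h hz

omit hz in
private theorem GwF_Ucont : Continuous (U χ) := by
  have h1 := U_cont h 1 one_pos
  have h2 : chr χ 1 = χ := by
    funext v
    unfold chr
    rw [Real.one_rpow, inv_one, one_smul, one_mul]
  rwa [h2] at h1

omit hz in
private theorem GwF_Fcont (C : ℝ) : Continuous (fun v => χ (v - y) ^ 2 + C * U χ (v - y)) :=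
  ((h.smooth.continuous.comp (continuous_id.sub continuous_const)).pow 2).add
    (continuous_const.mul ((GwF_Ucont h).comp (continuous_id.sub continuous_const)))

private theorem GwF_summ (x : E3) : Summable (fun i => Aw χ ζ y i x) := by
  obtain ⟨C, _, h1⟩ := Sw_le h Cz
  exact summable_of_sum_range_le (fun i => Aw_nonneg h hz y i x) (fun m => h1 ζ hz y m x)

theorem Gw_lim (x : E3) :
    Filter.Tendsto (fun m => Sw χ ζ y m x) Filter.atTop (nhds (Gw χ ζ y x)) :=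
  (GwF_summ h hz y x).hasSum.tendsto_sum_nat

theorem Sw_le_Gw (m : ℕ) (x : E3) : Sw χ ζ y m x ≤ Gw χ ζ y x :=
  (GwF_summ h hz y x).sum_le_tsum _ (fun i _ => Aw_nonneg h hz y i x)

theorem Gw_nonneg (x : E3) : 0 ≤ Gw χ ζ y x :=
  tsum_nonneg fun i => Aw_nonneg h hz y i x

private theorem GwF_Mlim (x : E3) : Filter.Tendsto (fun m => Mv χ (Sw χ ζ y m) x) Filter.atTop
    (nhds (Mv χ (Gw χ ζ y) x)) := by
  obtain ⟨C, _, h1⟩ := Sw_le h Cz
  refine Mv_lim h (F := fun v => χ (v - y) ^ 2 + C * U χ (v - y))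
    (fun m => (Sw_cc h hz y m).1.continuous.measurable) (GwF_Fcont h y C).locallyIntegrable
    (fun m v => ?_) (Gw_lim h hz y) x
  rw [abs_of_nonneg (Sw_nonneg h hz y m v)]
  exact h1 ζ hz y m v

theorem Gw_eq (x : E3) :
    Gw χ ζ y x = χ (x - y) ^ 2 + (1 - ζ x) * Mv χ (Gw χ ζ y) x := by
  have h1 : Filter.Tendsto (fun m => Sw χ ζ y (m + 1) x) Filter.atTop (nhds (Gw χ ζ y x)) :=
    (Gw_lim h hz y x).comp (Filter.tendsto_add_atTop_nat 1)
  have h2 : Filter.Tendsto (fun m => χ (x - y) ^ 2 + (1 - ζ x) * Mv χ (Sw χ ζ y m) x) Filter.atTop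
      (nhds (χ (x - y) ^ 2 + (1 - ζ x) * Mv χ (Gw χ ζ y) x)) :=
    ((GwF_Mlim h hz y x).const_mul _).const_add _
  refine tendsto_nhds_unique h1 (h2.congr fun m => ?_)
  exact (Sw_rec h hz y m x).symm

private theorem GwF_li : LocallyIntegrable (Gw χ ζ y) := by
  obtain ⟨C, _, h1⟩ := Sw_le h Cz
  refine (GwF_Fcont h y C).locallyIntegrable.mono ?_ (Filter.Eventually.of_forall fun v => ?_)
  · exact (measurable_of_tendsto_metrizable (fun m => (Sw_cc h hz y m).1.continuous.measurable)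
      (tendsto_pi_nhds.mpr (Gw_lim h hz y))).aestronglyMeasurable
  · rw [Real.norm_eq_abs, Real.norm_eq_abs, abs_of_nonneg (Gw_nonneg h hz y v)]
    exact (le_of_tendsto' (Gw_lim h hz y v) (fun m => h1 ζ hz y m v)).trans (le_abs_self _)

theorem Gw_smooth : ContDiff ℝ (⊤ : ℕ∞) (Gw χ ζ y) := by
  have h1 : Gw χ ζ y = fun x => χ (x - y) ^ 2 + (1 - ζ x) * Mv χ (Gw χ ζ y) x := by
    funext x
    exact Gw_eq h hz y x
  rw [h1]
  exact ((h.smooth.comp (contDiff_id.sub contDiff_const)).pow 2).add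
    ((contDiff_const.sub hz.smooth).mul (Mv_smooth h (GwF_li h hz y)))

theorem MvS_lim (x : E3) : Filter.Tendsto (fun m => Mv χ (Sw χ ζ y m) x) Filter.atTop
    (nhds (Mv χ (Gw χ ζ y) x)) := GwF_Mlim h hz y x

theorem KvS_lim (x : E3) : Filter.Tendsto (fun m => Kv χ (Sw χ ζ y m) x) Filter.atTop
    (nhds (gw χ ζ y x)) := by
  obtain ⟨C, _, h1⟩ := Sw_le h Cz
  refine Kv_lim h (F := fun v => χ (v - y) ^ 2 + C * U χ (v - y))
    (fun m => (Sw_cc h hz y m).1.continuous) (GwF_Fcont h y C)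
    (fun m v => ?_) (Gw_lim h hz y) x
  rw [abs_of_nonneg (Sw_nonneg h hz y m v)]
  exact h1 ζ hz y m v

theorem MvA_lim (x : E3) : Filter.Tendsto (fun m => Mv χ (Aw χ ζ y m) x) Filter.atTop
    (nhds 0) := by
  have h1 : Filter.Tendsto (fun m => 2 * Aw χ ζ y (m + 1) x) Filter.atTop (nhds (2 * 0)) :=
    (((GwF_summ h hz y x).tendsto_atTop_zero).comp (Filter.tendsto_add_atTop_nat 1)).const_mul 2
  rw [mul_zero] at h1
  refine squeeze_zero (fun m => Mv_nonneg h (Aw_nonneg h hz y m) x) (fun m => ?_) h1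
  linarith [(Aw_step h hz y m x).1]

theorem KvS_le (m : ℕ) (x : E3) : Kv χ (Sw χ ζ y m) x ≤ gw χ ζ y x :=
  Kv_mono h (Sw_cc h hz y m).1.continuous (Gw_smooth h hz y).continuous (Sw_le_Gw h hz y m) x

theorem gw_le (x : E3) : gw χ ζ y x ≤ U χ (x - y) :=
  le_of_tendsto' (KvS_lim h hz y x) (fun m => Kv_Sw h Cz hz y m x)

omit hz in
theorem Gw_bd (Cz : ℝ) : ∃ C : ℝ, 0 ≤ C ∧ ∀ (ζ : E3 → ℝ) (_ : Kil Cz ζ) (y x : E3),
    Gw χ ζ y x ≤ χ (x - y) ^ 2 + C * U χ (x - y) := by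
  obtain ⟨C, hC, h1⟩ := Sw_le h Cz
  exact ⟨C, hC, fun ζ hz y x => le_of_tendsto' (Gw_lim h hz y x) (fun m => h1 ζ hz y m x)⟩

omit hz in
theorem Gw_ball (Cz : ℝ) (d : ℝ) : ∃ C : ℝ, 0 ≤ C ∧ ∀ (ζ : E3 → ℝ) (_ : Kil Cz ζ) (y x : E3),
    ∫ v in Metric.ball x d, Gw χ ζ y v ≤ C * U χ (x - y) := by
  obtain ⟨C, hC, h1⟩ := Sw_ball h Cz d
  refine ⟨C, hC, fun ζ hz y x => ?_⟩
  have hG : IntegrableOn (Gw χ ζ y) (Metric.ball x d) :=
    ((Gw_smooth h hz y).continuous.continuousOn.integrableOn_compact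
      (isCompact_closedBall x d)).mono_set Metric.ball_subset_closedBall
  have h2 : Filter.Tendsto (fun m => ∫ v in Metric.ball x d, Sw χ ζ y m v) Filter.atTop
      (nhds (∫ v in Metric.ball x d, Gw χ ζ y v)) := by
    refine tendsto_integral_of_dominated_convergence (Gw χ ζ y)
      (fun m => (Sw_cc h hz y m).1.continuous.aestronglyMeasurable) hG
      (fun m => Filter.Eventually.of_forall fun v => ?_)
      (Filter.Eventually.of_forall fun v => Gw_lim h hz y v)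
    rw [Real.norm_eq_abs, abs_of_nonneg (Sw_nonneg h hz y m v)]
    exact Sw_le_Gw h hz y m v
  exact le_of_tendsto' h2 (fun m => h1 ζ hz y m x)

end

end H6.CX
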