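import Pool.Agent.H6.CX.GwH

/-! The mass of the killed walkers. `sw_mass`: `∫ ζ * Mv χ (Sw m) ≤ 1` by `Aw_rest` (the left side of `Aw_rest` is nonnegative), and monotone convergence (`MvS_lim`; the functions are continuous with support in that of `ζ`, and bounded by `ζ * Mv χ Gw`). `Nb_ms`: the set of the centres `u` is closed (its complement is open) and contained in the support of `ζ`, so compact; `Nb ζ D` is its closed thickening (`IsCompact.cthickening_eq_biUnion_closedBall`), or show directly that it is closed and bounded. `Gw_Nb`: take `i`, `c` from `pow_low` with `D + 2`: for `v ∈ Nb ζ D`, `(Mv χ)^[i + 1] ζ v ≥ c * ∫ w in ball v (D + 2), ζ w ≥ c * (1 / 2) * volume (ball u 1)`. On the other hand `∫ sw = ∫ ζ * Mv χ Gw`, `Mv χ Gw ≥ 2 ^ (-i) * (Mv χ)^[i + 1] Gw` (induction from `Gw ≥ (1 / 2) * Mv χ Gw`), and `∫ ζ * (Mv χ)^[j] Gw = ∫ (Mv χ)^[j] ζ * Gw` by `Mv_symm` and `Mv_cc`; restrict the last integral to `Nb ζ D`. `gw_Nb`: `gw_up`, Fubini: `∫ x in Nb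 ζ D, ∫ v in ball x 2, Gw v ≤ volume (ball 0 2) * ∫ v in Nb ζ (D + 2), Gw v`. -/

open MeasureTheory Finset

namespace H6.CX

open H6.CM H6.CB H6.CL H6.CT

open scoped Pointwise in
theorem Nb_cpt {Cz : ℝ} {ζ : E3 → ℝ} (hz : Kil Cz ζ) (D : ℝ) : IsCompact (Nb ζ D) := by
  set K : Set E3 := {u | ∀ w, ‖w - u‖ < 1 → ζ w = 1 / 2} with hK
  have hKc : IsClosed K := by
    have e : K = ⋂ w : E3, ⋂ _ : ζ w ≠ 1 / 2, {u | 1 ≤ ‖w - u‖} := by
      ext u
      simp only [hK, Set.mem_ofPred_eq, Set.mem_iInter]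
      constructor
      · intro h1 w hw
        by_contra h2
        exact hw (h1 w (not_le.1 h2))
      · intro h1 w hw
        by_contra h2
        exact absurd (h1 w h2) (not_le.2 hw)
    rw [e]
    refine isClosed_iInter fun w => isClosed_iInter fun _ => ?_
    exact isClosed_le continuous_const (continuous_const.sub continuous_id).norm
  have hKs : K ⊆ tsupport ζ := by
    intro u hu
    refine subset_tsupport ζ ?_
    have h1 : ζ u = 1 / 2 := hu u (by simp)
    rw [Function.mem_support, h1]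
    norm_num
  have hKk : IsCompact K := hz.cpt.isCompact.of_isClosed_subset hKc hKs
  have e : Nb ζ D = K + Metric.closedBall (0 : E3) D := by
    ext v
    simp only [Nb, Set.mem_ofPred_eq, Set.mem_add, mem_closedBall_zero_iff]
    constructor
    · rintro ⟨u, h1, h2⟩
      exact ⟨u, h2, v - u, h1, by abel⟩
    · rintro ⟨u, h2, b, h1, rfl⟩
      exact ⟨u, by simpa using h1, h2⟩
  rw [e]
  exact hKk.add (isCompact_closedBall 0 D)

theorem Nb_ms {Cz : ℝ} {ζ : E3 → ℝ} (hz : Kil Cz ζ) (D : ℝ) :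
    MeasurableSet (Nb ζ D) ∧ Bornology.IsBounded (Nb ζ D) :=
  ⟨(Nb_cpt hz D).measurableSet, (Nb_cpt hz D).isBounded⟩

section

variable {χ : E3 → ℝ} (h : Bump χ) (Cz : ℝ)
include h

theorem sw_mass {ζ : E3 → ℝ} (hz : Kil Cz ζ) (y : E3) :
    0 ≤ ∫ x, sw χ ζ y x ∧ ∫ x, sw χ ζ y x ≤ 1 ∧
    Filter.Tendsto (fun m => ∫ x, Aw χ ζ y m x) Filter.atTop
      (nhds (1 - ∫ x, sw χ ζ y x)) := by
  have h0 : ∀ x, 0 ≤ sw χ ζ y x := fun x => sw_nonneg h Cz hz y x
  have hcc := sw_cc h Cz hz y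
  have hG := (Gw_smooth h hz y).continuous.locallyIntegrable (μ := (volume : Measure E3))
  have h1 : Filter.Tendsto (fun m => ∫ x, ζ x * Mv χ (Sw χ ζ y m) x) Filter.atTop
      (nhds (∫ x, sw χ ζ y x)) := by
    refine tendsto_integral_of_dominated_convergence (fun x => sw χ ζ y x) (fun m => ?_)
      (hcc.1.continuous.integrable_of_hasCompactSupport hcc.2) (fun m => ?_) ?_
    · have hS := (Sw_cc h hz y m).1.continuous.locallyIntegrable (μ := (volume : Measure E3))
      exact (hz.smooth.continuous.mul (Mv_smooth h hS).continuous).aestronglyMeasurable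
    · refine Filter.Eventually.of_forall fun x => ?_
      have hS := (Sw_cc h hz y m).1.continuous.locallyIntegrable (μ := (volume : Measure E3))
      rw [Real.norm_eq_abs, abs_of_nonneg (mul_nonneg (hz.mem x).1
        (Mv_nonneg h (Sw_nonneg h hz y m) x))]
      exact mul_le_mul_of_nonneg_left (Mv_mono h hS hG (Sw_le_Gw h hz y m) x) (hz.mem x).1
    · refine Filter.Eventually.of_forall fun x => ?_
      exact (MvS_lim h hz y x).const_mul _
  have h2 : Filter.Tendsto (fun m => ∫ x, Aw χ ζ y m x) Filter.atTop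
      (nhds (1 - ∫ x, sw χ ζ y x)) := by
    simp only [Aw_rest h hz y]
    exact h1.const_sub 1
  refine ⟨integral_nonneg h0, ?_, h2⟩
  have h3 : 0 ≤ 1 - ∫ x, sw χ ζ y x :=
    ge_of_tendsto' h2 fun m => integral_nonneg (Aw_nonneg h hz y m)
  linarith

theorem gwm_it_smooth {f : E3 → ℝ} (hf : Continuous f) (j : ℕ) :
    Continuous ((Mv χ)^[j] f) := by
  induction j with
  | zero => exact hf
  | succ j ih =>
    rw [Function.iterate_succ_apply']
    exact (Mv_smooth h ih.locallyIntegrable).continuous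

theorem gwm_it_nonneg {f : E3 → ℝ} (hf : ∀ v, 0 ≤ f v) (j : ℕ) :
    ∀ v, 0 ≤ (Mv χ)^[j] f v := by
  induction j with
  | zero => exact hf
  | succ j ih => rw [Function.iterate_succ_apply']; exact Mv_nonneg h ih

theorem gwm_it_symm {g : E3 → ℝ} (hg : Continuous g) (j : ℕ) : ∀ f : E3 → ℝ, Cc f →
    ∫ x, f x * (Mv χ)^[j] g x = ∫ x, (Mv χ)^[j] f x * g x := by
  induction j with
  | zero => intro f hf; rfl
  | succ j ih =>
    intro f hf
    have h1 := ih (Mv χ f) (Mv_cc h hf)
    have h2 := Mv_symm h hf.1.continuous hf.2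
      (gwm_it_smooth h hg j).locallyIntegrable
    simp only [Function.iterate_succ_apply'] at *
    rw [h2, h1]
    simp only [← Function.iterate_succ_apply, Function.iterate_succ_apply']

theorem gwm_it_cc {f : E3 → ℝ} (hf : Cc f) (j : ℕ) : Cc ((Mv χ)^[j] f) := by
  induction j with
  | zero => exact hf
  | succ j ih => rw [Function.iterate_succ_apply']; exact Mv_cc h ih

theorem gwm_Mv2 {ζ : E3 → ℝ} (hz : Kil Cz ζ) (y x : E3) :
    Mv χ (Gw χ ζ y) x ≤ 2 * Gw χ ζ y x := by
  have h1 := Gw_eq h hz y x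
  have h2 := (hz.mem x).2
  have h3 := Mv_nonneg h (Gw_nonneg h hz y) x
  nlinarith [sq_nonneg (χ (x - y))]

theorem gwm_it_le {ζ : E3 → ℝ} (hz : Kil Cz ζ) (y : E3) (j : ℕ) : ∀ x,
    (Mv χ)^[j] (Mv χ (Gw χ ζ y)) x ≤ 2 ^ j * Mv χ (Gw χ ζ y) x := by
  have hG := (Gw_smooth h hz y).continuous
  have hMG := (Mv_smooth h hG.locallyIntegrable).continuous
  induction j with
  | zero => intro x; simp
  | succ j ih =>
    intro x
    rw [Function.iterate_succ_apply']
    calc Mv χ ((Mv χ)^[j] (Mv χ (Gw χ ζ y))) x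
        ≤ Mv χ (fun v => 2 ^ j * Mv χ (Gw χ ζ y) v) x := by
          refine Mv_mono h (gwm_it_smooth h hMG j).locallyIntegrable ?_ ih x
          exact (continuous_const.mul hMG).locallyIntegrable
      _ = 2 ^ j * Mv χ (Mv χ (Gw χ ζ y)) x := Mv_cmul h _ _ x
      _ ≤ 2 ^ j * Mv χ (fun v => 2 * Gw χ ζ y v) x := by
          refine mul_le_mul_of_nonneg_left ?_ (by positivity)
          refine Mv_mono h hMG.locallyIntegrable (continuous_const.mul hG).locallyIntegrable ?_ x
          exact fun v => gwm_Mv2 h Cz hz y v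
      _ = 2 ^ (j + 1) * Mv χ (Gw χ ζ y) x := by
          rw [Mv_cmul h]
          ring

theorem Gw_Nb (D : ℝ) : ∃ C : ℝ, 0 ≤ C ∧ ∀ (ζ : E3 → ℝ) (_ : Kil Cz ζ) (y : E3),
    ∫ x in Nb ζ D, Gw χ ζ y x ≤ C * ∫ x, sw χ ζ y x := by
  obtain ⟨i, c, hc, hp⟩ := pow_low h (D + 2)
  set V : ℝ := volume.real (Metric.ball (0 : E3) 1) with hV
  have hVpos : 0 < V := by
    rw [hV, Measure.real]
    exact ENNReal.toReal_pos (Metric.measure_ball_pos _ _ one_pos).ne' measure_ball_lt_top.ne
  have hc1 : 0 < c * (V / 2) := by positivity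
  refine ⟨2 ^ i / (c * (V / 2)), by positivity, fun ζ hz y => ?_⟩
  have hG := (Gw_smooth h hz y).continuous
  have hG0 := Gw_nonneg h hz y
  have hMG := (Mv_smooth h hG.locallyIntegrable).continuous
  have hzc : Cc ζ := ⟨hz.smooth, hz.cpt⟩
  have hz0 : ∀ v, 0 ≤ ζ v := fun v => (hz.mem v).1
  have hlow : ∀ v ∈ Nb ζ D, c * (V / 2) ≤ (Mv χ)^[i + 1] ζ v := by
    rintro v ⟨u, h1, h2⟩
    refine le_trans ?_ (hp ζ hz.smooth.continuous hz0 v)
    refine mul_le_mul_of_nonneg_left ?_ hc.le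
    have hsub : Metric.ball u 1 ⊆ Metric.ball v (D + 2) := by
      intro w hw
      rw [mem_ball_iff_norm] at hw ⊢
      calc ‖w - v‖ ≤ ‖w - u‖ + ‖u - v‖ := norm_sub_le_norm_sub_add_norm_sub _ _ _
        _ < D + 2 := by rw [norm_sub_rev u v]; linarith
    calc V / 2 = ∫ w in Metric.ball u 1, (1 / 2 : ℝ) := by
          rw [setIntegral_const, smul_eq_mul, Measure.real,
            Measure.addHaar_ball_center volume u 1, ← Measure.real, ← hV]
          ring
      _ = ∫ w in Metric.ball u 1, ζ w := by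
          refine setIntegral_congr_fun measurableSet_ball fun w hw => ?_
          rw [mem_ball_iff_norm] at hw
          exact (h2 w hw).symm
      _ ≤ ∫ w in Metric.ball v (D + 2), ζ w := by
          refine setIntegral_mono_set ?_ (Filter.Eventually.of_forall hz0)
            (Filter.Eventually.of_forall hsub)
          exact (hz.smooth.continuous.integrable_of_hasCompactSupport hz.cpt).integrableOn
  have hI1 : Integrable (fun x => (Mv χ)^[i + 1] ζ x * Gw χ ζ y x) :=
    ((gwm_it_cc h hzc _).1.continuous.mul hG).integrable_of_hasCompactSupport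
      (gwm_it_cc h hzc _).2.mul_right
  have hI2 : Integrable (fun x => ζ x * (Mv χ)^[i] (Mv χ (Gw χ ζ y)) x) :=
    (hz.smooth.continuous.mul (gwm_it_smooth h hMG i)).integrable_of_hasCompactSupport
      hz.cpt.mul_right
  have hswI : Integrable (fun x => sw χ ζ y x) :=
    (sw_cc h Cz hz y).1.continuous.integrable_of_hasCompactSupport (sw_cc h Cz hz y).2
  have k1 : c * (V / 2) * ∫ x in Nb ζ D, Gw χ ζ y x ≤ ∫ x, (Mv χ)^[i + 1] ζ x * Gw χ ζ y x := by
    rw [← integral_const_mul]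
    calc ∫ x in Nb ζ D, c * (V / 2) * Gw χ ζ y x
        ≤ ∫ x in Nb ζ D, (Mv χ)^[i + 1] ζ x * Gw χ ζ y x := by
          refine setIntegral_mono_on ?_ hI1.integrableOn (Nb_ms hz D).1 fun v hv => ?_
          · exact (continuous_const.mul hG).continuousOn.integrableOn_compact (Nb_cpt hz D)
          · exact mul_le_mul_of_nonneg_right (hlow v hv) (hG0 v)
      _ ≤ _ := setIntegral_le_integral hI1 (Filter.Eventually.of_forall fun v =>
          mul_nonneg (gwm_it_nonneg h hz0 _ v) (hG0 v))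
  have k2 : ∫ x, ζ x * (Mv χ)^[i] (Mv χ (Gw χ ζ y)) x ≤ 2 ^ i * ∫ x, sw χ ζ y x := by
    rw [← integral_const_mul]
    refine integral_mono hI2 (hswI.const_mul _) fun x => ?_
    have := mul_le_mul_of_nonneg_left (gwm_it_le h Cz hz y i x) (hz0 x)
    calc ζ x * (Mv χ)^[i] (Mv χ (Gw χ ζ y)) x ≤ ζ x * (2 ^ i * Mv χ (Gw χ ζ y) x) := this
      _ = 2 ^ i * sw χ ζ y x := by unfold sw; ring
  have k3 := gwm_it_symm h hG (i + 1) ζ hzc
  simp only [Function.iterate_succ_apply] at k3 k1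
  rw [div_mul_eq_mul_div, le_div_iff₀ hc1]
  calc (∫ x in Nb ζ D, Gw χ ζ y x) * (c * (V / 2)) = c * (V / 2) * ∫ x in Nb ζ D, Gw χ ζ y x := by
        ring
    _ ≤ _ := k1
    _ = _ := k3.symm
    _ ≤ _ := k2

theorem gw_Nb (D : ℝ) : ∃ C : ℝ, 0 ≤ C ∧ ∀ (ζ : E3 → ℝ) (_ : Kil Cz ζ) (y : E3),
    ∫ x in Nb ζ D, gw χ ζ y x ≤ C * ∫ x, sw χ ζ y x := by
  obtain ⟨C1, hC1, hG1⟩ := Gw_Nb h Cz (D + 2)
  obtain ⟨C2, hC2, hG2⟩ := gw_up h Cz
  obtain ⟨C0, -, hwt⟩ := gw_wt h Cz
  set V : ℝ := volume.real (Metric.ball (0 : E3) 2) with hV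
  have hV0 : 0 ≤ V := measureReal_nonneg
  refine ⟨C2 * (V * C1), by positivity, fun ζ hz y => ?_⟩
  have hG := (Gw_smooth h hz y).continuous
  have hG0 := Gw_nonneg h hz y
  set F : E3 → ℝ := (Nb ζ (D + 2)).indicator (Gw χ ζ y) with hF
  set B : E3 → ℝ := (Metric.ball (0 : E3) 2).indicator (fun _ => 1) with hB
  have hFI : Integrable F :=
    (hG.continuousOn.integrableOn_compact (Nb_cpt hz _)).integrable_indicator (Nb_ms hz _).1
  have hBI : Integrable B :=
    (integrableOn_const (hs := measure_ball_lt_top.ne)).integrable_indicator measurableSet_ball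
  have hF0 : ∀ v, 0 ≤ F v := fun v => Set.indicator_nonneg (fun w _ => hG0 w) v
  have hB0 : ∀ v, 0 ≤ B v := fun v => Set.indicator_nonneg (fun w _ => zero_le_one) v
  have hcI : Integrable (fun x => ∫ t, F t * B (x - t)) := by
    have := hFI.integrable_convolution (ContinuousLinearMap.mul ℝ ℝ) hBI
    exact this
  have hcV : ∫ x, ∫ t, F t * B (x - t) = (∫ x, F x) * ∫ x, B x := by
    have := integral_convolution (ContinuousLinearMap.mul ℝ ℝ) hFI hBI (μ := volume)
    exact this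
  have hball : ∀ x ∈ Nb ζ D, ∫ v in Metric.ball x 2, Gw χ ζ y v = ∫ t, F t * B (x - t) := by
    rintro x ⟨u, h1, h2⟩
    rw [← integral_indicator measurableSet_ball]
    refine integral_congr_ae (Filter.Eventually.of_forall fun t => ?_)
    simp only
    by_cases ht : t ∈ Metric.ball x 2
    · have ht' := ht
      rw [mem_ball_iff_norm] at ht'
      have hxt : x - t ∈ Metric.ball (0 : E3) 2 := by
        rw [mem_ball_zero_iff, norm_sub_rev]; exact ht'
      have htN : t ∈ Nb ζ (D + 2) := by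
        refine ⟨u, ?_, h2⟩
        calc ‖t - u‖ ≤ ‖t - x‖ + ‖x - u‖ := norm_sub_le_norm_sub_add_norm_sub _ _ _
          _ ≤ D + 2 := by linarith
      rw [Set.indicator_of_mem ht, hF, hB, Set.indicator_of_mem htN, Set.indicator_of_mem hxt,
        mul_one]
    · have hxt : x - t ∉ Metric.ball (0 : E3) 2 := by
        intro h3
        apply ht
        rw [mem_ball_zero_iff, norm_sub_rev] at h3
        rwa [mem_ball_iff_norm]
      rw [Set.indicator_of_notMem ht, hB, Set.indicator_of_notMem hxt, mul_zero]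
  have hBV : ∫ x, B x = V := by
    rw [hB, integral_indicator measurableSet_ball, setIntegral_const, smul_eq_mul, mul_one]
  have hFN : ∫ x, F x = ∫ x in Nb ζ (D + 2), Gw χ ζ y x := by
    rw [hF, integral_indicator (Nb_ms hz _).1]
  calc ∫ x in Nb ζ D, gw χ ζ y x ≤ ∫ x in Nb ζ D, C2 * ∫ t, F t * B (x - t) := by
        refine setIntegral_mono_on ?_ (hcI.const_mul C2).integrableOn (Nb_ms hz D).1
          fun x hx => ?_
        · exact (hwt ζ hz y).smooth.continuous.continuousOn.integrableOn_compact (Nb_cpt hz D)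
        · rw [← hball x hx]
          exact hG2 ζ hz y x
    _ ≤ ∫ x, C2 * ∫ t, F t * B (x - t) := by
        refine setIntegral_le_integral (hcI.const_mul C2) (Filter.Eventually.of_forall fun x => ?_)
        exact mul_nonneg hC2 (integral_nonneg fun t => mul_nonneg (hF0 t) (hB0 _))
    _ = C2 * (V * ∫ x in Nb ζ (D + 2), Gw χ ζ y x) := by
        rw [integral_const_mul, hcV, hBV, hFN]
        ring
    _ ≤ C2 * (V * (C1 * ∫ x, sw χ ζ y x)) := by
        refine mul_le_mul_of_nonneg_left ?_ hC2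
        exact mul_le_mul_of_nonneg_left (hG1 ζ hz y) hV0
    _ = C2 * (V * C1) * ∫ x, sw χ ζ y x := by ring

end

end H6.CX
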