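import Pool.Agent.H6.CX.GrC
import Pool.Agent.H6.CX.GwM

/-! The inequality of Green for the weights. Apply `gr_c` with `w = Kv χ (Sw (m + 1))` (`Kv_cc`, `Sw_cc`); by `Kv_smooth` and `Sw_tel`, `lap w = -4 π (χ (· - y) ^ 2 - ζ * Mv χ (Sw m) - Mv χ (Aw m))`, so with `u = pot ρ - c`: `∫ w ρ u = (4 π)⁻¹ ∫ w gr u + (1 / 2) ∫ χ (v - y) ^ 2 u ^ 2 - (1 / 2) ∫ ζ Mv χ (Sw m) u ^ 2 - (1 / 2) ∫ Mv χ (Aw m) u ^ 2`. Let `m → ∞`: left side by dominated convergence (`KvS_lim`, `0 ≤ w ≤ U χ (· - y)`, bounded, `ρ u` continuous with compact support); `∫ w gr u ≥ ∫ v in B, w gr u → ∫ v in B, gw gr u` (nonnegative integrand, bounded set, dominated convergence); `Mv χ (Sw m) ≤ Mv χ Gw`; the last term tends to `c ^ 2 / 2 * (1 - ∫ sw)`: `u ^ 2 = c ^ 2 + (pot ρ ^ 2 - 2 c pot ρ)`, `∫ Mv χ (Aw m) = ∫ Aw m → 1 - ∫ sw` (`Mv_mass`, `sw_mass`), and `∫ |pot ρ ^ 2 - 2 c pot ρ| * Mv χ (Aw m) → 0`: given `ε`, `|pot ρ ^ 2 - 2 c pot ρ| ≤ ε` outside a ball (`pot_decay`)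 where the integral of `Mv χ (Aw m)` is at most `1`, and inside the ball `Mv χ (Aw m) → 0` pointwise (`MvA_lim`), dominated by `Mv χ (Aw m) ≤ 2 Aw (m + 1) ≤ 2 Gw`, bounded (`Gw_bd`, `U_bd`). `gw_count`: `gr_0` and the same limits. `gw_pot`: for fixed `x`, `Kv χ (Sw (m + 1)) x = U χ (x - y) - pot (ζ * Mv χ (Sw m)) x - pot (Mv χ (Aw m)) x` (`Kv_cc`, `Sw_tel`), the last term tends to zero (outside the ball of radius `R` around `x` the kernel is at most `1 / R` and the mass at most `1`; inside dominated convergence with `‖x - v‖⁻¹` integrable), the middle one converges by dominated convergence. -/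

open MeasureTheory Finset

namespace H6.CX

open H6.CM H6.CB H6.CL H6.CT

private theorem gwG_pint (ρ : E3 → ℝ) (hρ : Cc ρ) (x : E3) :
    Integrable (fun y => ρ y * ‖x - y‖⁻¹) := by
  have h1 := intK (volume : Measure E3) (ContinuousLinearMap.id ℝ E3)
    (ContinuousLinearMap.id ℝ E3) (fun v => rfl) (-x) ρ hρ.1.continuous hρ.2
  refine h1.congr (Filter.Eventually.of_forall fun y => ?_)
  simp only [ContinuousLinearMap.coe_id', id_eq]
  rw [mul_comm, neg_add_eq_sub, norm_sub_rev]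

private theorem gwG_li (x : E3) : LocallyIntegrable (fun v : E3 => ‖x - v‖⁻¹) := by
  obtain ⟨C, hC, hsq⟩ := inv_sq
  have hm : Measurable (fun v : E3 => ‖x - v‖⁻¹) := (measurable_const.sub measurable_id).norm.inv
  rw [locallyIntegrable_iff]
  intro K hK
  obtain ⟨r, hr0, hr⟩ := hK.isBounded.subset_ball_lt 0 x
  refine IntegrableOn.mono_set ?_ hr
  have h2 : IntegrableOn (fun v => 1 + ‖v - x‖⁻¹ ^ 2) (Metric.ball x r) :=
    (integrableOn_const (hs := measure_ball_lt_top.ne)).add (hsq x r hr0).1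
  refine Integrable.mono' h2 hm.aestronglyMeasurable (Filter.Eventually.of_forall fun v => ?_)
  rw [Real.norm_of_nonneg (by positivity), norm_sub_rev]
  nlinarith [sq_nonneg (‖v - x‖⁻¹ - 1 / 2)]

private theorem gwG_gr {f : E3 → ℝ} (hf : ContDiff ℝ (⊤ : ℕ∞) f) : Continuous (gr f) := by
  unfold gr
  exact continuous_finsetSum _ fun d _ =>
    ((hf.continuous_fderiv (by simp)).clm_apply continuous_const).pow 2

private theorem gwG_gr0 (f : E3 → ℝ) (v : E3) : 0 ≤ gr f v :=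
  sum_nonneg fun _ _ => sq_nonneg _

section

variable {χ : E3 → ℝ} (h : Bump χ) {Cz : ℝ} {ζ : E3 → ℝ} (hz : Kil Cz ζ) (y : E3)
include h hz

private theorem gwG_MAc (m : ℕ) : Cc (Mv χ (Aw χ ζ y m)) := Mv_cc h (Aw_cc h hz y m)

private theorem gwG_MAint (m : ℕ) : Integrable (Mv χ (Aw χ ζ y m)) :=
  (gwG_MAc h hz y m).1.continuous.integrable_of_hasCompactSupport (gwG_MAc h hz y m).2

private theorem gwG_MA0 (m : ℕ) (x : E3) : 0 ≤ Mv χ (Aw χ ζ y m) x :=
  Mv_nonneg h (Aw_nonneg h hz y m) x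

private theorem gwG_MAm (m : ℕ) : ∫ x, Mv χ (Aw χ ζ y m) x = ∫ x, Aw χ ζ y m x :=
  (Mv_mass h ((Aw_cc h hz y m).1.continuous.integrable_of_hasCompactSupport
    (Aw_cc h hz y m).2)).2

private theorem gwG_MAmass (m : ℕ) : ∫ x, Mv χ (Aw χ ζ y m) x ≤ 1 := by
  rw [gwG_MAm h hz, Aw_rest h hz]
  have : 0 ≤ ∫ x, ζ x * Mv χ (Sw χ ζ y m) x :=
    integral_nonneg fun x => mul_nonneg (hz.mem x).1 (Mv_nonneg h (Sw_nonneg h hz y m) x)
  linarith

private theorem gwG_MAle (m : ℕ) (x : E3) : Mv χ (Aw χ ζ y m) x ≤ 2 * Gw χ ζ y x := by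
  have h1 := (Aw_step h hz y m x).1
  have h2 := Sw_le_Gw h hz y (m + 2) x
  have h3 : Sw χ ζ y (m + 2) x = Sw χ ζ y (m + 1) x + Aw χ ζ y (m + 1) x := by
    unfold Sw
    rw [sum_range_succ]
  have h4 := Sw_nonneg h hz y (m + 1) x
  linarith

/-- the mass of the walk escapes to infinity -/
private theorem gwG_van {f : E3 → ℝ} (hloc : LocallyIntegrable f)
    (hdec : ∀ ε : ℝ, 0 < ε → ∃ R : ℝ, ∀ v, R < ‖v‖ → |f v| ≤ ε) :
    Filter.Tendsto (fun m => ∫ v, Mv χ (Aw χ ζ y m) v * f v) Filter.atTop (nhds 0) := by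
  have hG := (Gw_smooth h hz y).continuous
  rw [Metric.tendsto_atTop]
  intro ε hε
  obtain ⟨R, hR⟩ := hdec (ε / 2) (by positivity)
  have hfB : IntegrableOn (fun v => |f v|) (Metric.closedBall (0 : E3) R) :=
    (hloc.integrableOn_isCompact (isCompact_closedBall _ _)).abs
  have hbd : IntegrableOn (fun v => 2 * Gw χ ζ y v * |f v|) (Metric.closedBall (0 : E3) R) :=
    hfB.continuousOn_mul (continuous_const.mul hG).continuousOn (isCompact_closedBall _ _)
  have hlim : Filter.Tendsto (fun m => ∫ v in Metric.closedBall (0 : E3) R,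
      Mv χ (Aw χ ζ y m) v * |f v|) Filter.atTop (nhds 0) := by
    have h1 : (0 : ℝ) = ∫ v in Metric.closedBall (0 : E3) R, (0 : ℝ) := by simp
    rw [h1]
    refine tendsto_integral_of_dominated_convergence (fun v => 2 * Gw χ ζ y v * |f v|)
      (fun m => ?_) hbd (fun m => Filter.Eventually.of_forall fun v => ?_)
      (Filter.Eventually.of_forall fun v => ?_)
    · exact (gwG_MAc h hz y m).1.continuous.aestronglyMeasurable.mul hfB.1
    · rw [Real.norm_of_nonneg (mul_nonneg (gwG_MA0 h hz y m v) (abs_nonneg _))]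
      exact mul_le_mul_of_nonneg_right (gwG_MAle h hz y m v) (abs_nonneg _)
    · have := (MvA_lim h hz y v).mul_const |f v|
      simpa using this
  rw [Metric.tendsto_atTop] at hlim
  obtain ⟨N, hN⟩ := hlim (ε / 2) (by positivity)
  refine ⟨N, fun m hm => ?_⟩
  have h1 := hN m hm
  rw [Real.dist_eq, sub_zero] at h1 ⊢
  have hI1 : Integrable (fun v => ε / 2 * Mv χ (Aw χ ζ y m) v) := (gwG_MAint h hz y m).const_mul _
  have hI2 : Integrable ((Metric.closedBall (0 : E3) R).indicator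
      (fun v => Mv χ (Aw χ ζ y m) v * |f v|)) := by
    rw [integrable_indicator_iff measurableSet_closedBall]
    exact hfB.continuousOn_mul (gwG_MAc h hz y m).1.continuous.continuousOn
      (isCompact_closedBall _ _)
  have h2 : |∫ v, Mv χ (Aw χ ζ y m) v * f v| ≤
      ∫ v, (ε / 2 * Mv χ (Aw χ ζ y m) v + (Metric.closedBall (0 : E3) R).indicator
        (fun v => Mv χ (Aw χ ζ y m) v * |f v|) v) := by
    refine (abs_integral_le_integral_abs).trans ?_
    refine integral_mono_of_nonneg (Filter.Eventually.of_forall fun _ => abs_nonneg _)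
      (hI1.add hI2) (Filter.Eventually.of_forall fun v => ?_)
    beta_reduce
    have h3 := gwG_MA0 h hz y m v
    rw [abs_mul, abs_of_nonneg h3]
    by_cases hv : v ∈ Metric.closedBall (0 : E3) R
    · rw [Set.indicator_of_mem hv]
      have : 0 ≤ ε / 2 * Mv χ (Aw χ ζ y m) v := by positivity
      linarith
    · rw [Set.indicator_of_notMem hv, add_zero, mul_comm]
      rw [mem_closedBall_zero_iff, not_le] at hv
      exact mul_le_mul_of_nonneg_right (hR v hv) h3
  rw [integral_add hI1 hI2, integral_const_mul, integral_indicator measurableSet_closedBall] at h2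
  have h4 := gwG_MAmass h hz y m
  have h5 := le_abs_self (∫ v in Metric.closedBall (0 : E3) R, Mv χ (Aw χ ζ y m) v * |f v|)
  have h6 : ε / 2 * ∫ x, Mv χ (Aw χ ζ y m) x ≤ ε / 2 * 1 :=
    mul_le_mul_of_nonneg_left h4 (by positivity)
  linarith

private theorem gwG_Slim {f : E3 → ℝ} (hloc : LocallyIntegrable f) :
    Filter.Tendsto (fun m => ∫ v, ζ v * Mv χ (Sw χ ζ y m) v * f v) Filter.atTop
      (nhds (∫ v, sw χ ζ y v * f v)) := by
  have hs := sw_cc h Cz hz y
  refine tendsto_integral_of_dominated_convergence (fun v => sw χ ζ y v * |f v|) (fun m => ?_) ?_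
    (fun m => Filter.Eventually.of_forall fun v => ?_) (Filter.Eventually.of_forall fun v => ?_)
  · exact (hz.smooth.continuous.mul
      (Mv_cc h (Sw_cc h hz y m)).1.continuous).aestronglyMeasurable.mul hloc.aestronglyMeasurable
  · refine (hloc.integrable_smul_left_of_hasCompactSupport hs.1.continuous hs.2).abs.congr
      (Filter.Eventually.of_forall fun v => ?_)
    simp only [smul_eq_mul]
    rw [abs_mul, abs_of_nonneg (sw_nonneg h Cz hz y v)]
  · rw [Real.norm_eq_abs, abs_mul, abs_of_nonneg (mul_nonneg (hz.mem v).1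
      (Mv_nonneg h (Sw_nonneg h hz y m) v))]
    refine mul_le_mul_of_nonneg_right ?_ (abs_nonneg _)
    exact mul_le_mul_of_nonneg_left (Mv_mono h (Sw_cc h hz y m).1.continuous.locallyIntegrable
      (Gw_smooth h hz y).continuous.locallyIntegrable (Sw_le_Gw h hz y m) v) (hz.mem v).1
  · exact ((MvS_lim h hz y v).const_mul (ζ v)).mul_const (f v)

private theorem gwG_Wc (m : ℕ) : Cc (Kv χ (Sw χ ζ y (m + 1))) := (Kv_cc h (Sw_cc h hz y (m + 1))).1

private theorem gwG_W0 (m : ℕ) (x : E3) : 0 ≤ Kv χ (Sw χ ζ y (m + 1)) x := by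
  have h1 := Kv_mono h continuous_const (Sw_cc h hz y (m + 1)).1.continuous
    (Sw_nonneg h hz y (m + 1)) x
  have h2 : Kv χ (fun _ => (0 : ℝ)) x = 0 := by
    unfold Kv
    simp
  linarith

private theorem gwG_Wlap (m : ℕ) (x : E3) : lap (Kv χ (Sw χ ζ y (m + 1))) x =
    -(4 * Real.pi * (χ (x - y) ^ 2 - ζ x * Mv χ (Sw χ ζ y m) x - Mv χ (Aw χ ζ y m) x)) := by
  rw [(Kv_smooth h (Sw_cc h hz y (m + 1)).1).2.2 x, Sw_tel h hz]

private theorem gwG_Wlim {F : E3 → ℝ} (s : Set E3) (hF : IntegrableOn F s) :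
    Filter.Tendsto (fun m => ∫ v in s, Kv χ (Sw χ ζ y (m + 1)) v * F v) Filter.atTop
      (nhds (∫ v in s, gw χ ζ y v * F v)) := by
  obtain ⟨C, hC, hU⟩ := U_bd h
  refine tendsto_integral_of_dominated_convergence (fun v => C * |F v|) (fun m => ?_)
    (hF.abs.const_mul C)
    (fun m => Filter.Eventually.of_forall fun v => ?_) (Filter.Eventually.of_forall fun v => ?_)
  · exact (gwG_Wc h hz y m).1.continuous.aestronglyMeasurable.mul hF.1
  · rw [Real.norm_eq_abs, abs_mul, abs_of_nonneg (gwG_W0 h hz y m v)]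
    refine mul_le_mul_of_nonneg_right ?_ (abs_nonneg _)
    exact (KvS_le h hz y (m + 1) v).trans ((gw_le h hz y v).trans (hU _))
  · exact (((KvS_lim h hz y v).comp (Filter.tendsto_add_atTop_nat 1)).mul_const (F v))

private theorem gwG_chi : Cc (fun v => χ (v - y) ^ 2) := Aw_cc h hz y 0

/-- integral of the three terms of the Laplacian against a function -/
private theorem gwG_split (m : ℕ) {f : E3 → ℝ} (hloc : LocallyIntegrable f) :
    ∫ v, (χ (v - y) ^ 2 - ζ v * Mv χ (Sw χ ζ y m) v - Mv χ (Aw χ ζ y m) v) * f v =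
      (∫ v, χ (v - y) ^ 2 * f v) - (∫ v, ζ v * Mv χ (Sw χ ζ y m) v * f v) -
        ∫ v, Mv χ (Aw χ ζ y m) v * f v := by
  have hM := Mv_cc h (Sw_cc h hz y m)
  have i1 : Integrable (fun v => χ (v - y) ^ 2 * f v) :=
    hloc.integrable_smul_left_of_hasCompactSupport (gwG_chi h hz y).1.continuous
      (gwG_chi h hz y).2
  have i2 : Integrable (fun v => ζ v * Mv χ (Sw χ ζ y m) v * f v) :=
    hloc.integrable_smul_left_of_hasCompactSupport (hz.smooth.continuous.mul hM.1.continuous)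
      (HasCompactSupport.mul_left hM.2)
  have i3 : Integrable (fun v => Mv χ (Aw χ ζ y m) v * f v) :=
    hloc.integrable_smul_left_of_hasCompactSupport (gwG_MAc h hz y m).1.continuous
      (gwG_MAc h hz y m).2
  have i12 : Integrable (fun v => χ (v - y) ^ 2 * f v - ζ v * Mv χ (Sw χ ζ y m) v * f v) :=
    i1.sub i2
  rw [← integral_sub i1 i2, ← integral_sub i12 i3]
  refine integral_congr_ae (Filter.Eventually.of_forall fun v => ?_)
  simp only
  ring

omit h hz in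
private theorem gwG_dec {ρ : E3 → ℝ} (hρ : Cc ρ) (a b : ℝ) (ε : ℝ) (hε : 0 < ε) :
    ∃ R : ℝ, ∀ v, R < ‖v‖ → |a * pot ρ v ^ 2 + b * pot ρ v| ≤ ε := by
  obtain ⟨C, hC, hd⟩ := pot_decay ρ hρ
  obtain ⟨D, hD⟩ : ∃ D : ℝ, D = |a| * C ^ 2 + |b| * C := ⟨_, rfl⟩
  have hD0 : 0 ≤ D := by rw [hD]; positivity
  refine ⟨D / ε, fun v hv => ?_⟩
  have hv0 : 0 < ‖v‖ := lt_of_le_of_lt (by positivity) hv
  have h1 := hd v
  obtain ⟨t, ht⟩ : ∃ t : ℝ, t = (1 + ‖v‖)⁻¹ := ⟨_, rfl⟩
  rw [← ht] at h1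
  have ht0 : 0 ≤ t := by rw [ht]; positivity
  have ht1 : t ≤ 1 := by rw [ht]; exact inv_le_one_of_one_le₀ (by linarith)
  have h2 : |a * pot ρ v ^ 2 + b * pot ρ v| ≤ |a| * (C * t) ^ 2 + |b| * (C * t) := by
    refine (abs_add_le _ _).trans ?_
    rw [abs_mul, abs_mul, abs_pow]
    gcongr
  have h3 : |a| * (C * t) ^ 2 + |b| * (C * t) ≤ D * t := by
    rw [hD]
    have h4 : t ^ 2 ≤ t := by nlinarith
    have h5 : 0 ≤ |a| * C ^ 2 := by positivity
    nlinarith [mul_le_mul_of_nonneg_left h4 h5]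
  have h6 : D * t ≤ ε := by
    rw [ht, ← div_eq_mul_inv, div_le_iff₀ (by positivity)]
    rw [div_lt_iff₀ hε] at hv
    nlinarith
  linarith

theorem gw_green {ρ : E3 → ℝ} (hρ : Cc ρ) (c : ℝ) {B : Set E3} (hB : MeasurableSet B)
    (hb : Bornology.IsBounded B) :
    (4 * Real.pi)⁻¹ * (∫ v in B, gw χ ζ y v * gr (pot ρ) v) +
      (∫ v, χ (v - y) ^ 2 * (pot ρ v - c) ^ 2) / 2 -
      (∫ v, sw χ ζ y v * (pot ρ v - c) ^ 2) / 2 - c ^ 2 / 2 * (1 - ∫ v, sw χ ζ y v) ≤
      ∫ v, gw χ ζ y v * (ρ v * (pot ρ v - c)) := by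
  have hP := pot_smooth ρ hρ
  have hPc := hP.continuous
  have hu2 : Continuous (fun v => (pot ρ v - c) ^ 2) := (hPc.sub continuous_const).pow 2
  -- the limits
  have l1 : Filter.Tendsto (fun m => ∫ v, Kv χ (Sw χ ζ y (m + 1)) v * (ρ v * (pot ρ v - c)))
      Filter.atTop (nhds (∫ v, gw χ ζ y v * (ρ v * (pot ρ v - c)))) := by
    have hF : Integrable (fun v => ρ v * (pot ρ v - c)) :=
      (hρ.1.continuous.mul (hPc.sub continuous_const)).integrable_of_hasCompactSupport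
        (HasCompactSupport.mul_right hρ.2)
    have := gwG_Wlim h hz y Set.univ hF.integrableOn
    simpa only [Measure.restrict_univ] using this
  have l2 : Filter.Tendsto (fun m => ∫ v in B, Kv χ (Sw χ ζ y (m + 1)) v * gr (pot ρ) v)
      Filter.atTop (nhds (∫ v in B, gw χ ζ y v * gr (pot ρ) v)) := by
    obtain ⟨R, hR⟩ := hb.subset_closedBall (0 : E3)
    exact gwG_Wlim h hz y B (((gwG_gr hP).continuousOn.integrableOn_compact
      (isCompact_closedBall (0 : E3) R)).mono_set hR)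
  have l3 := gwG_Slim h hz y hu2.locallyIntegrable
  have l4 : Filter.Tendsto (fun m => ∫ v, Mv χ (Aw χ ζ y m) v * (pot ρ v - c) ^ 2)
      Filter.atTop (nhds (c ^ 2 * (1 - ∫ v, sw χ ζ y v))) := by
    have h1 := gwG_van h hz y (f := fun v => 1 * pot ρ v ^ 2 + (-(2 * c)) * pot ρ v)
      (((continuous_const.mul (hPc.pow 2)).add (continuous_const.mul hPc)).locallyIntegrable)
      (gwG_dec hρ 1 (-(2 * c)))
    have h2 := ((sw_mass h Cz hz y).2.2).const_mul (c ^ 2)
    have h3 := h2.add h1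
    rw [add_zero] at h3
    refine h3.congr fun m => ?_
    rw [← gwG_MAm h hz, ← integral_const_mul, ← integral_add ((gwG_MAint h hz y m).const_mul _)]
    · refine integral_congr_ae (Filter.Eventually.of_forall fun v => ?_)
      simp only
      ring
    · have hcc : Continuous (fun v => 1 * pot ρ v ^ 2 + (-(2 * c)) * pot ρ v) :=
        (continuous_const.mul (hPc.pow 2)).add (continuous_const.mul hPc)
      exact hcc.locallyIntegrable.integrable_smul_left_of_hasCompactSupport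
        (gwG_MAc h hz y m).1.continuous (gwG_MAc h hz y m).2
  -- the inequality for finite `m`
  have key : ∀ m, (4 * Real.pi)⁻¹ * (∫ v in B, Kv χ (Sw χ ζ y (m + 1)) v * gr (pot ρ) v) +
      (∫ v, χ (v - y) ^ 2 * (pot ρ v - c) ^ 2) / 2 -
      (∫ v, ζ v * Mv χ (Sw χ ζ y m) v * (pot ρ v - c) ^ 2) / 2 -
      (∫ v, Mv χ (Aw χ ζ y m) v * (pot ρ v - c) ^ 2) / 2 ≤
      ∫ v, Kv χ (Sw χ ζ y (m + 1)) v * (ρ v * (pot ρ v - c)) := by
    intro m
    rw [gr_c (gwG_Wc h hz y m) hρ c]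
    have e1 : ∫ v, (pot ρ v - c) ^ 2 * lap (Kv χ (Sw χ ζ y (m + 1))) v =
        -(4 * Real.pi) * ((∫ v, χ (v - y) ^ 2 * (pot ρ v - c) ^ 2) -
          (∫ v, ζ v * Mv χ (Sw χ ζ y m) v * (pot ρ v - c) ^ 2) -
          ∫ v, Mv χ (Aw χ ζ y m) v * (pot ρ v - c) ^ 2) := by
      rw [← gwG_split h hz y m hu2.locallyIntegrable, ← integral_const_mul]
      refine integral_congr_ae (Filter.Eventually.of_forall fun v => ?_)
      simp only
      rw [gwG_Wlap h hz]
      ring
    rw [e1]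
    have e2 : ∫ v in B, Kv χ (Sw χ ζ y (m + 1)) v * gr (pot ρ) v ≤
        ∫ v, Kv χ (Sw χ ζ y (m + 1)) v * gr (pot ρ) v := by
      refine setIntegral_le_integral ?_ (Filter.Eventually.of_forall fun v =>
        mul_nonneg (gwG_W0 h hz y m v) (gwG_gr0 _ _))
      exact ((gwG_Wc h hz y m).1.continuous.mul (gwG_gr hP)).integrable_of_hasCompactSupport
        (HasCompactSupport.mul_right (gwG_Wc h hz y m).2)
    have hpi := Real.pi_pos
    have e3 := mul_le_mul_of_nonneg_left e2 (by positivity : (0 : ℝ) ≤ (4 * Real.pi)⁻¹)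
    have e4 : ∀ X : ℝ, (8 * Real.pi)⁻¹ * (-(4 * Real.pi) * X) = -(X / 2) := by
      intro X
      field_simp
      ring
    rw [e4]
    linarith
  have l5 := (((l2.const_mul (4 * Real.pi)⁻¹).add_const
    ((∫ v, χ (v - y) ^ 2 * (pot ρ v - c) ^ 2) / 2)).sub (l3.div_const 2)).sub (l4.div_const 2)
  have h9 := le_of_tendsto_of_tendsto' l5 l1 key
  have e5 : c ^ 2 * (1 - ∫ v, sw χ ζ y v) / 2 = c ^ 2 / 2 * (1 - ∫ v, sw χ ζ y v) := by ring
  rw [e5] at h9
  exact h9

theorem gw_count {ρ : E3 → ℝ} (hρ : Cc ρ) :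
    ∫ v, gw χ ζ y v * ρ v =
      (∫ v, χ (v - y) ^ 2 * pot ρ v) - ∫ v, sw χ ζ y v * pot ρ v := by
  have hP := pot_smooth ρ hρ
  have hPc := hP.continuous
  have l1 : Filter.Tendsto (fun m => ∫ v, Kv χ (Sw χ ζ y (m + 1)) v * ρ v)
      Filter.atTop (nhds (∫ v, gw χ ζ y v * ρ v)) := by
    have hF : Integrable ρ := hρ.1.continuous.integrable_of_hasCompactSupport hρ.2
    have := gwG_Wlim h hz y Set.univ hF.integrableOn
    simpa only [Measure.restrict_univ] using this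
  have l3 := gwG_Slim h hz y hPc.locallyIntegrable
  have l4 : Filter.Tendsto (fun m => ∫ v, Mv χ (Aw χ ζ y m) v * pot ρ v)
      Filter.atTop (nhds 0) := by
    refine gwG_van h hz y hPc.locallyIntegrable fun ε hε => ?_
    obtain ⟨R, hR⟩ := gwG_dec hρ 0 1 ε hε
    refine ⟨R, fun v hv => ?_⟩
    have := hR v hv
    simpa using this
  have l5 := ((l3.const_sub (∫ v, χ (v - y) ^ 2 * pot ρ v)).sub l4)
  rw [sub_zero] at l5
  refine tendsto_nhds_unique l1 (l5.congr fun m => ?_)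
  rw [gr_0 (gwG_Wc h hz y m) hρ, ← gwG_split h hz y m hPc.locallyIntegrable]
  have e1 : ∫ v, lap (Kv χ (Sw χ ζ y (m + 1))) v * pot ρ v = -(4 * Real.pi) *
      ∫ v, (χ (v - y) ^ 2 - ζ v * Mv χ (Sw χ ζ y m) v - Mv χ (Aw χ ζ y m) v) * pot ρ v := by
    rw [← integral_const_mul]
    refine integral_congr_ae (Filter.Eventually.of_forall fun v => ?_)
    simp only
    rw [gwG_Wlap h hz]
    ring
  rw [e1]
  have hpi := Real.pi_pos
  field_simp

theorem gw_pot (x : E3) : gw χ ζ y x = U χ (x - y) - pot (sw χ ζ y) x := by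
  have hli := gwG_li x
  have l1 : Filter.Tendsto (fun m => Kv χ (Sw χ ζ y (m + 1)) x) Filter.atTop
      (nhds (gw χ ζ y x)) := (KvS_lim h hz y x).comp (Filter.tendsto_add_atTop_nat 1)
  have l3 := gwG_Slim h hz y hli
  have l4 : Filter.Tendsto (fun m => ∫ v, Mv χ (Aw χ ζ y m) v * ‖x - v‖⁻¹)
      Filter.atTop (nhds 0) := by
    refine gwG_van h hz y hli fun ε hε => ⟨‖x‖ + ε⁻¹, fun v hv => ?_⟩
    have h1 : ε⁻¹ ≤ ‖x - v‖ := by
      have := norm_sub_norm_le v x
      rw [norm_sub_rev] at this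
      linarith
    rw [abs_of_nonneg (by positivity)]
    exact inv_le_of_inv_le₀ hε h1
  have l5 := ((l3.const_sub (U χ (x - y))).sub l4)
  rw [sub_zero] at l5
  have e0 : pot (sw χ ζ y) x = ∫ v, sw χ ζ y v * ‖x - v‖⁻¹ := rfl
  rw [e0]
  refine tendsto_nhds_unique l1 (l5.congr fun m => ?_)
  rw [(Kv_cc h (Sw_cc h hz y (m + 1))).2 x]
  have e1 : U χ (x - y) = ∫ v, χ (v - y) ^ 2 * ‖x - v‖⁻¹ := by
    rw [← U_trans h x y]
    refine integral_congr_ae (Filter.Eventually.of_forall fun v => ?_)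
    simp only
    rw [norm_sub_rev]
  rw [e1, ← gwG_split h hz y m hli]
  unfold pot
  refine integral_congr_ae (Filter.Eventually.of_forall fun v => ?_)
  simp only
  rw [Sw_tel h hz]

end

end H6.CX
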