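import Pool.Agent.H6.CX.GwA

/-! The Harnack inequality of the weights. Let `I x d = ∫ v in ball x d, Gw v` (nondecreasing in `d`; `I x d ≤ I u (d + ‖x - u‖)`). `Gw_sup` gives `Gw v ≤ C I x 2` for `v ∈ ball x 1`, so `gw x = Kv χ Gw x ≤ C I x 2` (`Kv_bd`), and `gw_low` gives `I x d ≤ C_d gw x`. Hence `gw u ≤ C I u 2 ≤ C I v 10 ≤ C' gw v` for `‖u - v‖ ≤ 8`. Positivity: `gw_low` and `Gw_one`. Smoothness, gradient, Laplacian: `Kv_smooth` (with `Gw_smooth`), `Gw_grad`, `Kv_bd`: `|pd d gw x| ≤ C I x 2`; `lap gw x = -(4 π (Gw x - Mv χ Gw x))`, and `|Gw - Mv χ Gw| ≤ C I x 1`; more precisely `Gw x - Mv χ Gw x = χ (x - y) ^ 2 - sw x` (`Gw_eq`). `gw_near`: `gw_low` with `d = 3` and `Gw_one`. `sw_le`: `0 ≤ ζ ≤ 1 / 2`, `Mv_bd`, `gw_low`. `sw_cc`: product of `ζ` and `Mv χ Gw`. -/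

open MeasureTheory Finset

namespace H6.CX

open H6.CM H6.CB H6.CL H6.CT

section

variable {χ : E3 → ℝ} (h : Bump χ) (Cz : ℝ)
include h

omit h in
private theorem gwh_mono {G : E3 → ℝ} (hG : Continuous G) (h0 : ∀ v, 0 ≤ G v) {x u : E3}
    {d e : ℝ} (hd : ‖x - u‖ + d ≤ e) :
    ∫ v in Metric.ball x d, G v ≤ ∫ v in Metric.ball u e, G v := by
  refine setIntegral_mono_set ?_ (Filter.Eventually.of_forall fun v => h0 v) ?_
  · exact ((hG.continuousOn.integrableOn_compact (isCompact_closedBall u e))).mono_set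
      Metric.ball_subset_closedBall
  · refine Filter.Eventually.of_forall fun v hv => ?_
    have h1 : v ∈ Metric.ball x d := hv
    show v ∈ Metric.ball u e
    rw [Metric.mem_ball] at h1 ⊢
    have h2 : dist v u ≤ dist v x + dist x u := dist_triangle _ _ _
    rw [dist_eq_norm x u] at h2
    linarith

private theorem gwh_cont {ζ : E3 → ℝ} (hz : Kil Cz ζ) (y : E3) : Continuous (Gw χ ζ y) :=
  (Gw_smooth h hz y).continuous

private theorem gwh_pdc {ζ : E3 → ℝ} (hz : Kil Cz ζ) (y : E3) (d : Fin 3) :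
    Continuous (pd d (Gw χ ζ y)) :=
  ((Gw_smooth h hz y).continuous_fderiv (by simp)).clm_apply continuous_const

private theorem gwh_Mv {ζ : E3 → ℝ} (hz : Kil Cz ζ) (y x : E3) :
    Gw χ ζ y x - Mv χ (Gw χ ζ y) x = χ (x - y) ^ 2 - sw χ ζ y x := by
  have h1 := Gw_eq h hz y x
  unfold sw
  linarith

theorem gw_up : ∃ C : ℝ, 0 ≤ C ∧ ∀ (ζ : E3 → ℝ) (_ : Kil Cz ζ) (y x : E3),
    gw χ ζ y x ≤ C * ∫ v in Metric.ball x 2, Gw χ ζ y v := by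
  obtain ⟨CK, hCK, hK⟩ := Kv_bd h
  obtain ⟨CS, hCS, hS⟩ := Gw_sup h Cz
  refine ⟨CK * CS, mul_nonneg hCK hCS, fun ζ hz y x => ?_⟩
  have hG := gwh_cont h Cz hz y
  have h0 := fun v => Gw_nonneg h hz y v
  have h1 := hK (Gw χ ζ y) hG x (CS * ∫ v in Metric.ball x 2, Gw χ ζ y v) (fun v hv => by
    rw [abs_of_nonneg (h0 v)]
    refine (hS ζ hz y v).trans (mul_le_mul_of_nonneg_left ?_ hCS)
    refine gwh_mono hG h0 ?_
    have h2 : ‖v - x‖ < 1 := by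
      rw [← dist_eq_norm]
      exact hv
    linarith)
  unfold gw
  refine (le_abs_self _).trans (h1.trans (le_of_eq ?_))
  ring

theorem gw_lap {ζ : E3 → ℝ} (hz : Kil Cz ζ) (y x : E3) :
    lap (gw χ ζ y) x = -(4 * Real.pi * (χ (x - y) ^ 2 - sw χ ζ y x)) := by
  have h1 := (Kv_smooth h (Gw_smooth h hz y)).2.2 x
  rw [gwh_Mv h Cz hz y x] at h1
  exact h1

private theorem gwh_pos {ζ : E3 → ℝ} (hz : Kil Cz ζ) (y x : E3) : 0 < gw χ ζ y x := by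
  obtain ⟨C, hC, hl⟩ := gw_low h Cz (‖x - y‖ + 1)
  have h1 := hl ζ hz y x
  have h2 := Gw_one h Cz hz y x (‖x - y‖ + 1) (by linarith)
  by_contra hn
  push Not at hn
  have h3 : C * gw χ ζ y x ≤ 0 := mul_nonpos_of_nonneg_of_nonpos hC hn
  linarith

private theorem gwh_lapb : ∃ C : ℝ, 0 ≤ C ∧ ∀ (ζ : E3 → ℝ) (_ : Kil Cz ζ) (y x : E3),
    |lap (gw χ ζ y) x| ≤ C * gw χ ζ y x := by
  obtain ⟨CS, hCS, hS⟩ := Gw_sup h Cz
  obtain ⟨CM, hCM, hM⟩ := Mv_bd h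
  obtain ⟨CL, hCL, hL⟩ := gw_low h Cz 1
  refine ⟨4 * Real.pi * ((CS + CM) * CL), by positivity, fun ζ hz y x => ?_⟩
  have hG := gwh_cont h Cz hz y
  have h0 := fun v => Gw_nonneg h hz y v
  rw [gw_lap h Cz hz y x, ← gwh_Mv h Cz hz y x, abs_neg, abs_mul,
    abs_of_pos (show (0 : ℝ) < 4 * Real.pi by positivity)]
  have h1 := hS ζ hz y x
  have h2 := (hM (Gw χ ζ y) hG.locallyIntegrable x).1
  have h3 : ∫ v in Metric.ball x 1, |Gw χ ζ y v| = ∫ v in Metric.ball x 1, Gw χ ζ y v := by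
    refine integral_congr_ae (Filter.Eventually.of_forall fun v => ?_)
    exact abs_of_nonneg (h0 v)
  rw [h3] at h2
  have h4 := hL ζ hz y x
  have h5 : |Gw χ ζ y x - Mv χ (Gw χ ζ y) x| ≤ |Gw χ ζ y x| + |Mv χ (Gw χ ζ y) x| := abs_sub _ _
  rw [abs_of_nonneg (h0 x)] at h5
  have h6 : (CS + CM) * ∫ v in Metric.ball x 1, Gw χ ζ y v ≤ (CS + CM) * (CL * gw χ ζ y x) :=
    mul_le_mul_of_nonneg_left h4 (by linarith)
  have h7 : |Gw χ ζ y x - Mv χ (Gw χ ζ y) x| ≤ (CS + CM) * (CL * gw χ ζ y x) := by linarith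
  have h8 := mul_le_mul_of_nonneg_left h7 (show (0 : ℝ) ≤ 4 * Real.pi by positivity)
  refine h8.trans (le_of_eq ?_)
  ring

private theorem gwh_pdb : ∃ C : ℝ, 0 ≤ C ∧ ∀ (ζ : E3 → ℝ) (_ : Kil Cz ζ) (y x : E3)
    (d : Fin 3), |pd d (gw χ ζ y) x| ≤ C * gw χ ζ y x := by
  obtain ⟨CK, hCK, hK⟩ := Kv_bd h
  obtain ⟨CG, hCG, hGr⟩ := Gw_grad h Cz
  obtain ⟨CL, hCL, hL⟩ := gw_low h Cz 2
  refine ⟨CK * (CG * CL), by positivity, fun ζ hz y x d => ?_⟩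
  have hG := gwh_cont h Cz hz y
  have h0 := fun v => Gw_nonneg h hz y v
  have h1 : pd d (gw χ ζ y) x = Kv χ (pd d (Gw χ ζ y)) x :=
    (Kv_smooth h (Gw_smooth h hz y)).2.1 d x
  rw [h1]
  have h2 := hK (pd d (Gw χ ζ y)) (gwh_pdc h Cz hz y d) x
    (CG * ∫ v in Metric.ball x 2, Gw χ ζ y v) (fun v hv => by
    refine (hGr ζ hz y v d).trans (mul_le_mul_of_nonneg_left ?_ hCG)
    refine gwh_mono hG h0 ?_
    have h2 : ‖v - x‖ < 1 := by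
      rw [← dist_eq_norm]
      exact hv
    linarith)
  refine h2.trans ?_
  rw [mul_assoc, mul_assoc]
  exact mul_le_mul_of_nonneg_left (mul_le_mul_of_nonneg_left (hL ζ hz y x) hCG) hCK

theorem gw_wt : ∃ C0 : ℝ, 0 < C0 ∧ ∀ (ζ : E3 → ℝ) (_ : Kil Cz ζ) (y : E3),
    Wt C0 (gw χ ζ y) := by
  obtain ⟨C1, hC1, h1⟩ := gw_up h Cz
  obtain ⟨C2, hC2, h2⟩ := gw_low h Cz 10
  obtain ⟨C3, hC3, h3⟩ := gwh_lapb h Cz
  obtain ⟨C4, hC4, h4⟩ := gwh_pdb h Cz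
  have h12 : 0 ≤ C1 * C2 := mul_nonneg hC1 hC2
  have h44 : 0 ≤ 3 * C4 ^ 2 := by positivity
  refine ⟨C1 * C2 + C3 + 3 * C4 ^ 2 + 1, by linarith, fun ζ hz y => ?_⟩
  have hG := gwh_cont h Cz hz y
  have h0 := fun v => Gw_nonneg h hz y v
  have hp := fun v => gwh_pos h Cz hz y v
  refine ⟨(Kv_smooth h (Gw_smooth h hz y)).1, hp, fun u v huv => ?_, fun v => ?_, fun v => ?_⟩
  · have e1 := h1 ζ hz y u
    have e2 := h2 ζ hz y v
    have e3 : ∫ w in Metric.ball u 2, Gw χ ζ y w ≤ ∫ w in Metric.ball v 10, Gw χ ζ y w :=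
      gwh_mono hG h0 (by linarith)
    have e4 : C1 * ∫ w in Metric.ball u 2, Gw χ ζ y w ≤ C1 * (C2 * gw χ ζ y v) :=
      mul_le_mul_of_nonneg_left (e3.trans e2) hC1
    have e5 : 0 ≤ (C3 + 3 * C4 ^ 2 + 1) * gw χ ζ y v := mul_nonneg (by linarith) (hp v).le
    nlinarith [e1, e4, e5]
  · have e1 : gr (gw χ ζ y) v ≤ 3 * C4 ^ 2 * gw χ ζ y v ^ 2 := by
      have e2 : gr (gw χ ζ y) v ≤ ∑ _d : Fin 3, (C4 * gw χ ζ y v) ^ 2 := by
        unfold gr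
        refine Finset.sum_le_sum fun d _ => ?_
        have e3 := h4 ζ hz y v d
        have e4 : |pd d (gw χ ζ y) v| ^ 2 ≤ (C4 * gw χ ζ y v) ^ 2 :=
          pow_le_pow_left₀ (abs_nonneg _) e3 2
        rw [sq_abs] at e4
        exact e4
      rw [Finset.sum_const, Finset.card_univ, Fintype.card_fin, nsmul_eq_mul] at e2
      refine e2.trans (le_of_eq ?_)
      push_cast
      ring
    have e5 : 0 ≤ (C1 * C2 + C3 + 1) * gw χ ζ y v ^ 2 := mul_nonneg (by linarith) (sq_nonneg _)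
    nlinarith [e1, e5]
  · have e1 := h3 ζ hz y v
    have e5 : 0 ≤ (C1 * C2 + 3 * C4 ^ 2 + 1) * gw χ ζ y v := mul_nonneg (by linarith) (hp v).le
    nlinarith [e1, e5]

theorem gw_near : ∃ c : ℝ, 0 < c ∧ ∀ (ζ : E3 → ℝ) (_ : Kil Cz ζ) (y x : E3)
    (_ : ‖x - y‖ ≤ 2), c ≤ gw χ ζ y x := by
  obtain ⟨C, hC, hl⟩ := gw_low h Cz 3
  refine ⟨(C + 1)⁻¹, by positivity, fun ζ hz y x hxy => ?_⟩
  have h1 := hl ζ hz y x
  have h2 := Gw_one h Cz hz y x 3 (by linarith)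
  have h3 := gwh_pos h Cz hz y x
  rw [inv_le_iff_one_le_mul₀ (by positivity)]
  nlinarith [h1, h2, h3]

theorem sw_cc {ζ : E3 → ℝ} (hz : Kil Cz ζ) (y : E3) : Cc (sw χ ζ y) := by
  have h1 : sw χ ζ y = fun x => ζ x * Mv χ (Gw χ ζ y) x := rfl
  rw [h1]
  exact ⟨hz.smooth.mul (Mv_smooth h (gwh_cont h Cz hz y).locallyIntegrable), hz.cpt.mul_right⟩

theorem sw_nonneg {ζ : E3 → ℝ} (hz : Kil Cz ζ) (y x : E3) : 0 ≤ sw χ ζ y x :=
  mul_nonneg (hz.mem x).1 (Mv_nonneg h (fun v => Gw_nonneg h hz y v) x)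

theorem sw_le : ∃ C : ℝ, 0 ≤ C ∧ ∀ (ζ : E3 → ℝ) (_ : Kil Cz ζ) (y x : E3),
    sw χ ζ y x ≤ C * gw χ ζ y x ∧ sw χ ζ y x ≤ C * U χ (x - y) := by
  obtain ⟨CM, hCM, hM⟩ := Mv_bd h
  obtain ⟨CL, hCL, hL⟩ := gw_low h Cz 1
  obtain ⟨CB, hCB, hB⟩ := Gw_ball h Cz 1
  have k1 : 0 ≤ CM * CL := mul_nonneg hCM hCL
  have k2 : 0 ≤ CM * CB := mul_nonneg hCM hCB
  refine ⟨CM * CL + CM * CB, by linarith, fun ζ hz y x => ?_⟩
  have hG := gwh_cont h Cz hz y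
  have h0 := fun v => Gw_nonneg h hz y v
  have h2 := (hM (Gw χ ζ y) hG.locallyIntegrable x).1
  have h3 : ∫ v in Metric.ball x 1, |Gw χ ζ y v| = ∫ v in Metric.ball x 1, Gw χ ζ y v := by
    refine integral_congr_ae (Filter.Eventually.of_forall fun v => ?_)
    exact abs_of_nonneg (h0 v)
  rw [h3] at h2
  have hMn := Mv_nonneg h (fun v => Gw_nonneg h hz y v) x
  rw [abs_of_nonneg hMn] at h2
  have h4 : sw χ ζ y x ≤ Mv χ (Gw χ ζ y) x := by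
    unfold sw
    have := hz.mem x
    nlinarith [hMn]
  have h5 := mul_le_mul_of_nonneg_left (hL ζ hz y x) hCM
  have h6 := mul_le_mul_of_nonneg_left (hB ζ hz y x) hCM
  have hp := gwh_pos h Cz hz y x
  have hU : 0 ≤ U χ (x - y) := integral_nonneg fun u => mul_nonneg (sq_nonneg _) (by positivity)
  have h7 : 0 ≤ CM * CB * gw χ ζ y x := mul_nonneg k2 hp.le
  have h8 : 0 ≤ CM * CL * U χ (x - y) := mul_nonneg k1 hU
  constructor
  · nlinarith [h2, h4, h5, h7]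
  · nlinarith [h2, h4, h6, h8]

end

end H6.CX
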