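import Pool.Agent.H6.CX.GwG

/-! Summary for the weights and the lower bound for the killed mass. `gw_ws`: the constant of `Ws` is the maximum of the constants of `gw_wt` and `sw_le`; all fields scale with `lam > 0` (`pd`, `lap`, `gr` of `lam * g`; for `grad`: `gr (lam g) = lam ^ 2 gr g ≤ C0 (lam g) ^ 2`); `∫ χ (v - y) ^ 2 = 1`, `sw_mass`, `gw_lap`, `gw_green`, `gw_count`. `sw_low`: let `ℓ = ‖y - u‖` and `M = ∫ sw`; `U χ (u - y) = 1 / ℓ` (`newton_out`). On the support of `ζ`, `‖v - y‖ ≥ ℓ - R ≥ ℓ / 2`, so `sw v ≤ C U χ (v - y) ≤ 2 C / ℓ` (`sw_le`, `newton_le`), and `pot sw u ≤ (2 C / ℓ) * C' r ^ 2 + M / r` for every `r > 0` (split at `‖v - u‖ = r`; `∫ v in ball u r, ‖u - v‖⁻¹ ≤ C' r ^ 2`). Choose `r` with `2 C C' r ^ 2 ≤ 1 / 4`. If `M ≥ r / (4 ℓ)` we are done; otherwise `gw u ≥ 1 / (2 ℓ)` by `gw_pot`, and `gw u ≤ C ∫ v in ball u 2, Gw v` (`gw_up`) `≤ C'' M` (`Gw_Nb` with `D = 2`). -/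

open MeasureTheory Finset

namespace H6.CX

open H6.CM H6.CB H6.CL H6.CT

private theorem GwS_pd {g : E3 → ℝ} (hg : ContDiff ℝ (⊤ : ℕ∞) g) (lam : ℝ) (d : Fin 3) :
    pd d (fun v => lam * g v) = fun v => lam * pd d g v := by
  funext v
  unfold pd
  have h1 : DifferentiableAt ℝ g v := (hg.differentiable (by simp)).differentiableAt
  rw [fderiv_const_mul h1]
  simp

private theorem GwS_pds {g : E3 → ℝ} (hg : ContDiff ℝ (⊤ : ℕ∞) g) (d : Fin 3) :
    ContDiff ℝ (⊤ : ℕ∞) (pd d g) := by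
  unfold pd
  exact (hg.fderiv_right (m := (⊤ : ℕ∞)) (by simp)).clm_apply contDiff_const

private theorem GwS_lap {g : E3 → ℝ} (hg : ContDiff ℝ (⊤ : ℕ∞) g) (lam : ℝ) (v : E3) :
    lap (fun v => lam * g v) v = lam * lap g v := by
  unfold lap
  rw [Finset.mul_sum]
  refine Finset.sum_congr rfl fun d _ => ?_
  rw [GwS_pd hg lam d, GwS_pd (GwS_pds hg d) lam d]

private theorem GwS_gr {g : E3 → ℝ} (hg : ContDiff ℝ (⊤ : ℕ∞) g) (lam : ℝ) (v : E3) :
    gr (fun v => lam * g v) v = lam ^ 2 * gr g v := by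
  unfold gr
  rw [Finset.mul_sum]
  refine Finset.sum_congr rfl fun d _ => ?_
  have h1 := congrFun (GwS_pd hg lam d) v
  unfold pd at h1
  rw [h1]
  ring

private theorem GwS_wt {C0 : ℝ} {g : E3 → ℝ} (hg : Wt C0 g) {lam : ℝ} (hl : 0 < lam) :
    Wt C0 (fun v => lam * g v) where
  smooth := contDiff_const.mul hg.smooth
  pos := fun v => mul_pos hl (hg.pos v)
  har := fun u v huv => by
    have := mul_le_mul_of_nonneg_left (hg.har u v huv) hl.le
    calc lam * g u ≤ lam * (C0 * g v) := this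
      _ = C0 * (lam * g v) := by ring
  grad := fun v => by
    rw [GwS_gr hg.smooth]
    have := mul_le_mul_of_nonneg_left (hg.grad v) (sq_nonneg lam)
    calc lam ^ 2 * gr g v ≤ lam ^ 2 * (C0 * g v ^ 2) := this
      _ = C0 * (lam * g v) ^ 2 := by ring
  lapl := fun v => by
    rw [GwS_lap hg.smooth, abs_mul, abs_of_pos hl]
    have := mul_le_mul_of_nonneg_left (hg.lapl v) hl.le
    calc lam * |lap g v| ≤ lam * (C0 * g v) := this
      _ = C0 * (lam * g v) := by ring

private theorem GwS_ball : ∃ C : ℝ, 0 < C ∧ ∀ r : ℝ, 0 < r →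
    Integrable (fun w : E3 => (Metric.ball (0 : E3) r).indicator (fun w => ‖w‖⁻¹) w) ∧
    ∫ w : E3, (Metric.ball (0 : E3) r).indicator (fun w => ‖w‖⁻¹) w ≤ C * r ^ 2 := by
  obtain ⟨C, hC, hb⟩ := ballinv
  refine ⟨C, hC, fun r hr => ?_⟩
  have hm : Measurable (fun w : E3 => (Metric.ball (0 : E3) r).indicator (fun w => ‖w‖⁻¹) w) :=
    (measurable_norm.inv).indicator Metric.isOpen_ball.measurableSet
  have hn : ∀ w : E3, 0 ≤ (Metric.ball (0 : E3) r).indicator (fun w => ‖w‖⁻¹) w := fun w =>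
    Set.indicator_nonneg (fun w _ => inv_nonneg.2 (norm_nonneg _)) w
  have hl : ∫⁻ w : E3, ENNReal.ofReal ((Metric.ball (0 : E3) r).indicator (fun w => ‖w‖⁻¹) w) ≤
      ENNReal.ofReal (C * r ^ 2) := by
    refine le_trans (le_of_eq ?_) (hb 0 r hr)
    rw [← lintegral_indicator Metric.isOpen_ball.measurableSet]
    refine lintegral_congr fun w => ?_
    by_cases hw : w ∈ Metric.ball (0 : E3) r
    · rw [Set.indicator_of_mem hw, Set.indicator_of_mem hw]
    · rw [Set.indicator_of_notMem hw, Set.indicator_of_notMem hw, ENNReal.ofReal_zero]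
  constructor
  · refine ⟨hm.aestronglyMeasurable, ?_⟩
    rw [hasFiniteIntegral_iff_ofReal (Filter.Eventually.of_forall hn)]
    exact lt_of_le_of_lt hl ENNReal.ofReal_lt_top
  · rw [integral_eq_lintegral_of_nonneg_ae (Filter.Eventually.of_forall hn)
      hm.aestronglyMeasurable]
    have := ENNReal.toReal_mono ENNReal.ofReal_ne_top hl
    rwa [ENNReal.toReal_ofReal (by positivity)] at this

section

variable {χ : E3 → ℝ} (h : Bump χ) (Cz : ℝ)
include h

private theorem GwS_one (y : E3) : ∫ v, χ (v - y) ^ 2 = 1 := by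
  rw [integral_sub_right_eq_self (fun x => χ x ^ 2) y]
  exact h.norm

private theorem GwS_cc (y : E3) : Cc (fun v => χ (v - y) ^ 2) := by
  refine ⟨(h.smooth.comp (contDiff_id.sub contDiff_const)).pow 2, ?_⟩
  refine HasCompactSupport.intro (isCompact_closedBall y (1 / 2)) fun v hv => ?_
  by_contra hne
  have h1 : χ (v - y) ≠ 0 := fun h0 => hne (by simp [h0])
  have h2 := h.supp _ h1
  exact hv (by rw [Metric.mem_closedBall, dist_eq_norm]; exact h2.le)

theorem gw_ws : ∃ C0 : ℝ, 0 < C0 ∧ ∀ (ζ : E3 → ℝ) (_ : Kil Cz ζ) (y : E3) (lam : ℝ)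
    (_ : 0 < lam), Ws C0 (fun v => lam * gw χ ζ y v) (fun v => lam * χ (v - y) ^ 2)
      (fun v => lam * sw χ ζ y v) := by
  obtain ⟨C1, hC1, h1⟩ := gw_wt h Cz
  obtain ⟨C2, hC2, h2⟩ := sw_le h Cz
  refine ⟨max C1 C2, lt_max_of_lt_left hC1, fun ζ hz y lam hl => ?_⟩
  have hw : Wt (max C1 C2) (gw χ ζ y) := (h1 ζ hz y).mono (le_max_left _ _)
  have hs := sw_cc h Cz hz y
  have hc := GwS_cc h y
  constructor
  · exact GwS_wt hw hl
  · exact ⟨contDiff_const.mul hc.1, hc.2.mul_left⟩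
  · exact ⟨contDiff_const.mul hs.1, hs.2.mul_left⟩
  · exact fun v => mul_nonneg hl.le (sq_nonneg _)
  · exact fun v => mul_nonneg hl.le (sw_nonneg h Cz hz y v)
  · intro v hm hσ
    rw [GwS_lap hw.smooth, gw_lap h Cz hz y v]
    have e1 : χ (v - y) ^ 2 = 0 := (mul_eq_zero.1 hm).resolve_left hl.ne'
    have e2 : sw χ ζ y v = 0 := (mul_eq_zero.1 hσ).resolve_left hl.ne'
    rw [e1, e2]
    simp
  · intro v
    have h3 := (h2 ζ hz y v).1
    have h4 : C2 * gw χ ζ y v ≤ max C1 C2 * gw χ ζ y v :=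
      mul_le_mul_of_nonneg_right (le_max_right _ _) (hw.pos v).le
    calc lam * sw χ ζ y v ≤ lam * (max C1 C2 * gw χ ζ y v) :=
          mul_le_mul_of_nonneg_left (h3.trans h4) hl.le
      _ = max C1 C2 * (lam * gw χ ζ y v) := by ring
  · rw [integral_const_mul, integral_const_mul, GwS_one h y]
    exact mul_le_mul_of_nonneg_left (sw_mass h Cz hz y).2.1 hl.le
  · intro ρ c B hρ hB hb
    have h5 := gw_green h hz y hρ c hB hb
    have e1 : ∫ v in B, lam * gw χ ζ y v * gr (pot ρ) v =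
        lam * ∫ v in B, gw χ ζ y v * gr (pot ρ) v := by
      rw [← integral_const_mul]
      exact integral_congr_ae (Filter.Eventually.of_forall fun v => mul_assoc _ _ _)
    have e2 : ∫ v, lam * χ (v - y) ^ 2 * (pot ρ v - c) ^ 2 =
        lam * ∫ v, χ (v - y) ^ 2 * (pot ρ v - c) ^ 2 := by
      rw [← integral_const_mul]
      exact integral_congr_ae (Filter.Eventually.of_forall fun v => mul_assoc _ _ _)
    have e3 : ∫ v, lam * sw χ ζ y v * (pot ρ v - c) ^ 2 =
        lam * ∫ v, sw χ ζ y v * (pot ρ v - c) ^ 2 := by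
      rw [← integral_const_mul]
      exact integral_congr_ae (Filter.Eventually.of_forall fun v => mul_assoc _ _ _)
    have e4 : ∫ v, lam * gw χ ζ y v * (ρ v * (pot ρ v - c)) =
        lam * ∫ v, gw χ ζ y v * (ρ v * (pot ρ v - c)) := by
      rw [← integral_const_mul]
      exact integral_congr_ae (Filter.Eventually.of_forall fun v => mul_assoc _ _ _)
    rw [e1, e2, e3, e4, integral_const_mul, integral_const_mul, GwS_one h y]
    have h6 := mul_le_mul_of_nonneg_left h5 hl.le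
    refine le_trans (le_of_eq ?_) h6
    ring
  · intro ρ hρ
    have h5 := gw_count h hz y hρ
    have e1 : ∫ v, lam * gw χ ζ y v * ρ v = lam * ∫ v, gw χ ζ y v * ρ v := by
      rw [← integral_const_mul]
      exact integral_congr_ae (Filter.Eventually.of_forall fun v => mul_assoc _ _ _)
    have e2 : ∫ v, lam * χ (v - y) ^ 2 * pot ρ v = lam * ∫ v, χ (v - y) ^ 2 * pot ρ v := by
      rw [← integral_const_mul]
      exact integral_congr_ae (Filter.Eventually.of_forall fun v => mul_assoc _ _ _)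
    have e3 : ∫ v, lam * sw χ ζ y v * pot ρ v = lam * ∫ v, sw χ ζ y v * pot ρ v := by
      rw [← integral_const_mul]
      exact integral_congr_ae (Filter.Eventually.of_forall fun v => mul_assoc _ _ _)
    rw [e1, e2, e3, h5]
    ring

theorem sw_low : ∃ c : ℝ, 0 < c ∧ ∀ (ζ : E3 → ℝ) (_ : Kil Cz ζ) (u y : E3) (R : ℝ)
    (_ : ∀ w, ‖w - u‖ < 1 → ζ w = 1 / 2) (_ : ∀ v, ζ v ≠ 0 → ‖v - u‖ ≤ R)
    (_ : 2 * R + 8 ≤ ‖y - u‖), c ≤ ‖y - u‖ * ∫ v, sw χ ζ y v := by
  obtain ⟨C, hC, h1⟩ := sw_le h Cz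
  obtain ⟨D, hD, h2⟩ := GwS_ball
  obtain ⟨C3, hC3, h3⟩ := gw_up h Cz
  obtain ⟨C4, hC4, h4⟩ := Gw_Nb h Cz 2
  obtain ⟨r, hr⟩ : ∃ r, r = min 1 (1 / (8 * (C * D + 1))) := ⟨_, rfl⟩
  have hCD : 0 ≤ C * D := mul_nonneg hC hD.le
  have hr0 : 0 < r := by rw [hr]; exact lt_min one_pos (by positivity)
  have hr1 : r ≤ 1 := by rw [hr]; exact min_le_left _ _
  have hr2 : 2 * C * D * r ^ 2 ≤ 1 / 4 := by
    have e1 : r ≤ 1 / (8 * (C * D + 1)) := by rw [hr]; exact min_le_right _ _
    have e2 : r ^ 2 ≤ r := by nlinarith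
    have e3 : (C * D) * r ≤ 1 / 8 := by
      calc (C * D) * r ≤ (C * D) * (1 / (8 * (C * D + 1))) := mul_le_mul_of_nonneg_left e1 hCD
        _ ≤ (C * D + 1) * (1 / (8 * (C * D + 1))) := by
            apply mul_le_mul_of_nonneg_right (by linarith) (by positivity)
        _ = 1 / 8 := by field_simp
    nlinarith
  have hc1 : 0 < r / 4 := by positivity
  have hc2 : 0 < 1 / (2 * (C3 * C4 + 1)) := by positivity
  refine ⟨min (r / 4) (1 / (2 * (C3 * C4 + 1))), lt_min hc1 hc2, fun ζ hz u y R hu hR hy => ?_⟩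
  have hR0 : 0 ≤ R := by
    have := hR u (by rw [hu u (by simp)]; norm_num)
    exact (norm_nonneg _).trans this
  obtain ⟨l, hl⟩ : ∃ l, l = ‖y - u‖ := ⟨_, rfl⟩
  rw [← hl] at hy ⊢
  have hl8 : 8 ≤ l := by linarith
  have hl0 : 0 < l := by linarith
  obtain ⟨M, hM⟩ : ∃ M, M = ∫ v, sw χ ζ y v := ⟨_, rfl⟩
  rw [← hM]
  have hM0 : 0 ≤ M := by rw [hM]; exact (sw_mass h Cz hz y).1
  rcases le_or_gt (r / (4 * l)) M with hcase | hcase
  · refine (min_le_left _ _).trans ?_
    calc r / 4 = l * (r / (4 * l)) := by field_simp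
      _ ≤ l * M := mul_le_mul_of_nonneg_left hcase hl0.le
  · refine (min_le_right _ _).trans ?_
    have hs := sw_cc h Cz hz y
    have hsn := sw_nonneg h Cz hz y
    have hsi : Integrable (sw χ ζ y) := hs.1.continuous.integrable_of_hasCompactSupport hs.2
    have hb := h2 r hr0
    have hbi := hb.1.comp_sub_left u
    -- pointwise bound
    have hpt : ∀ v, sw χ ζ y v * ‖u - v‖⁻¹ ≤
        (2 * C / l) * (Metric.ball (0 : E3) r).indicator (fun w => ‖w‖⁻¹) (u - v) +
          r⁻¹ * sw χ ζ y v := by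
      intro v
      have hi0 : 0 ≤ ‖u - v‖⁻¹ := inv_nonneg.2 (norm_nonneg _)
      by_cases hv : u - v ∈ Metric.ball (0 : E3) r
      · rw [Set.indicator_of_mem hv]
        have hsv : sw χ ζ y v ≤ 2 * C / l := by
          by_cases hζ : ζ v = 0
          · have : sw χ ζ y v = 0 := by unfold sw; rw [hζ, zero_mul]
            rw [this]
            positivity
          · have hvu := hR v hζ
            have hvy : l / 2 ≤ ‖v - y‖ := by
              have e1 : l ≤ ‖v - y‖ + ‖v - u‖ := by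
                rw [hl]
                calc ‖y - u‖ = ‖-(v - y) + (v - u)‖ := by congr 1; abel
                  _ ≤ ‖-(v - y)‖ + ‖v - u‖ := norm_add_le _ _
                  _ = ‖v - y‖ + ‖v - u‖ := by rw [norm_neg]
              linarith
            have hvy0 : 0 < ‖v - y‖ := by linarith
            have e2 := (h1 ζ hz y v).2
            have e3 := newton_le h (v - y) (norm_pos_iff.1 hvy0)
            have e4 : ‖v - y‖⁻¹ ≤ 2 / l := by
              rw [inv_eq_one_div, div_le_div_iff₀ hvy0 hl0]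
              linarith
            calc sw χ ζ y v ≤ C * U χ (v - y) := e2
              _ ≤ C * (2 / l) := mul_le_mul_of_nonneg_left (e3.trans e4) hC
              _ = 2 * C / l := by ring
        have e5 := mul_le_mul_of_nonneg_right hsv hi0
        have e6 : 0 ≤ r⁻¹ * sw χ ζ y v := mul_nonneg (inv_nonneg.2 hr0.le) (hsn v)
        linarith
      · rw [Set.indicator_of_notMem hv]
        have e1 : r ≤ ‖u - v‖ := by
          rw [Metric.mem_ball, dist_zero_right, not_lt] at hv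
          exact hv
        have e2 : ‖u - v‖⁻¹ ≤ r⁻¹ := inv_anti₀ hr0 e1
        have e3 := mul_le_mul_of_nonneg_left e2 (hsn v)
        linarith [mul_comm (sw χ ζ y v) r⁻¹]
    have hint : pot (sw χ ζ y) u ≤ (2 * C / l) * (D * r ^ 2) + r⁻¹ * M := by
      unfold pot
      have e1 : ∫ v, sw χ ζ y v * ‖u - v‖⁻¹ ≤
          ∫ v, ((2 * C / l) * (Metric.ball (0 : E3) r).indicator (fun w => ‖w‖⁻¹) (u - v) +
            r⁻¹ * sw χ ζ y v) := by
        apply integral_mono_of_nonneg
        · exact Filter.Eventually.of_forall fun v =>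
            mul_nonneg (hsn v) (inv_nonneg.2 (norm_nonneg _))
        · exact (hbi.const_mul _).add (hsi.const_mul _)
        · exact Filter.Eventually.of_forall hpt
      rw [integral_add (hbi.const_mul _) (hsi.const_mul _), integral_const_mul, integral_const_mul,
        integral_sub_left_eq_self
          (fun w : E3 => (Metric.ball (0 : E3) r).indicator (fun w => ‖w‖⁻¹) w) volume u,
        ← hM] at e1
      have e2 : (2 * C / l) * ∫ w : E3, (Metric.ball (0 : E3) r).indicator (fun w => ‖w‖⁻¹) w ≤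
          (2 * C / l) * (D * r ^ 2) := mul_le_mul_of_nonneg_left hb.2 (by positivity)
      linarith
    have hU : U χ (u - y) = 1 / l := by
      rw [newton_out h (u - y) (by rw [norm_sub_rev, ← hl]; linarith), norm_sub_rev, ← hl,
        one_div]
    have hgp := gw_pot h hz y u
    rw [hU] at hgp
    have e1 : (2 * C / l) * (D * r ^ 2) ≤ 1 / (4 * l) := by
      calc (2 * C / l) * (D * r ^ 2) = (2 * C * D * r ^ 2) * (1 / l) := by ring
        _ ≤ (1 / 4) * (1 / l) := mul_le_mul_of_nonneg_right hr2 (by positivity)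
        _ = 1 / (4 * l) := by field_simp
    have e2 : r⁻¹ * M ≤ 1 / (4 * l) := by
      calc r⁻¹ * M ≤ r⁻¹ * (r / (4 * l)) :=
            mul_le_mul_of_nonneg_left hcase.le (inv_nonneg.2 hr0.le)
        _ = 1 / (4 * l) := by field_simp
    have e3 : 1 / (2 * l) ≤ gw χ ζ y u := by
      have : 1 / l = 1 / (4 * l) + 1 / (4 * l) + 1 / (2 * l) := by field_simp; norm_num
      linarith
    have e4 := h3 ζ hz y u
    have hNb := Nb_ms hz 2
    have hgn := Gw_nonneg h hz y
    have hsub : Metric.ball u 2 ⊆ Nb ζ 2 := by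
      intro v hv
      rw [Metric.mem_ball, dist_eq_norm] at hv
      exact ⟨u, hv.le, hu⟩
    have hint2 : IntegrableOn (Gw χ ζ y) (Nb ζ 2) := by
      obtain ⟨ρ, hρ⟩ := hNb.2.subset_closedBall (0 : E3)
      exact ((Gw_smooth h hz y).continuous.continuousOn.integrableOn_compact
        (isCompact_closedBall (0 : E3) ρ)).mono_set hρ
    have e5 : ∫ v in Metric.ball u 2, Gw χ ζ y v ≤ ∫ v in Nb ζ 2, Gw χ ζ y v :=
      setIntegral_mono_set hint2 (Filter.Eventually.of_forall hgn)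
        (Filter.Eventually.of_forall fun v hv => hsub hv)
    have e6 := h4 ζ hz y
    rw [← hM] at e6
    have e7 : 1 / (2 * l) ≤ (C3 * C4 + 1) * M := by
      calc 1 / (2 * l) ≤ C3 * (C4 * M) :=
            e3.trans (e4.trans (mul_le_mul_of_nonneg_left (e5.trans e6) hC3))
        _ ≤ (C3 * C4 + 1) * M := by nlinarith
    have hpos : 0 < C3 * C4 + 1 := by positivity
    rw [div_le_iff₀ (by positivity)]
    rw [div_le_iff₀ (by positivity)] at e7
    nlinarith

end

end H6.CX
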