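import Pool.Agent.H6.CX.MvA

/-! Existence of killing functions. Let `S = {x | 45 < Metric.infDist x Λᶜ}` (open; `Λ` is bounded, so its complement is not empty, and `S ⊆ Λ` is bounded) and `ζ = (1 / 2) * Mv χ (S.indicator 1)` with a bump `χ` (`bump_ex`): smooth (`Mv_smooth`), between `0` and `1 / 2` (`∫ χ ^ 2 = 1`), compact support, gradient bounded by a constant which depends only on `χ` (`Mv_bd`; `∫ v in ball x 1, |indicator| ≤ volume (ball x 1)`). If `ζ v ≠ 0` there is `x ∈ S` with `‖x - v‖ < 1 / 2`, and `closedBall v 44 ⊆ closedBall x 45 ⊆ Λ`. If `closedBall u 48 ⊆ Λ` and `‖w - u‖ < 1`, all `x` with `‖x - w‖ < 1 / 2` satisfy `infDist x Λᶜ ≥ 48 - 3 / 2 > 45`, so `ζ w = 1 / 2`. -/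

open MeasureTheory Finset

namespace H6.CX

open H6.CM H6.CB H6.CL H6.CT

private theorem mv_ne {χ : E3 → ℝ} (h : Bump χ) {f : E3 → ℝ} {x : E3} (hx : Mv χ f x ≠ 0) :
    ∃ y, ‖x - y‖ < 1 / 2 ∧ f y ≠ 0 := by
  by_contra hc
  push Not at hc
  apply hx
  unfold Mv
  have h1 : (fun y => χ (x - y) ^ 2 * f y) = fun _ => 0 := by
    funext y
    by_cases hy : χ (x - y) = 0
    · rw [hy]; ring
    · rw [hc y (h.supp _ hy), mul_zero]
  rw [h1, integral_zero]

private theorem mv_one {χ : E3 → ℝ} (h : Bump χ) (x : E3) : Mv χ (fun _ => 1) x = 1 := by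
  unfold Mv
  simp only [mul_one]
  rw [integral_sub_left_eq_self (fun v => χ v ^ 2) volume x]
  exact h.norm

theorem kil_ex : ∃ Cz : ℝ, ∀ (Λ : Set E3) (_ : Bornology.IsBounded Λ), ∃ ζ : E3 → ℝ,
    Kil Cz ζ ∧ (∀ v, ζ v ≠ 0 → Metric.closedBall v 44 ⊆ Λ) ∧
    ∀ u, Metric.closedBall u 48 ⊆ Λ → ∀ w, ‖w - u‖ < 1 → ζ w = 1 / 2 := by
  classical
  obtain ⟨χ, h⟩ := bump_ex
  obtain ⟨C, hC, hbd⟩ := Mv_bd h
  refine ⟨3 * (1 / 2 * (C * volume.real (Metric.ball (0 : E3) 1))) ^ 2, fun Λ hΛ => ?_⟩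
  set S : Set E3 := {x | 45 < Metric.infDist x Λᶜ} with hSdef
  have hSo : IsOpen S := isOpen_lt continuous_const (Metric.continuous_infDist_pt _)
  set f : E3 → ℝ := S.indicator (fun _ => 1) with hf
  have hSb : ∀ x ∈ S, Metric.closedBall x 45 ⊆ Λ := by
    intro x hx y hy
    by_contra hc
    have h1 : Metric.infDist x Λᶜ ≤ dist x y := Metric.infDist_le_dist_of_mem hc
    have h2 : dist y x ≤ 45 := hy
    have h3 : 45 < Metric.infDist x Λᶜ := hx
    rw [dist_comm] at h2
    linarith
  have hloc : LocallyIntegrable f := by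
    have h1 : LocallyIntegrable (fun _ : E3 => (1 : ℝ)) := locallyIntegrable_const 1
    exact h1.indicator hSo.measurableSet
  have hf0 : ∀ v, 0 ≤ f v := fun v => Set.indicator_nonneg (fun _ _ => zero_le_one) v
  have hf1 : ∀ v, f v ≤ 1 := fun v => Set.indicator_le_self' (fun _ _ => zero_le_one) v
  have hfS : ∀ v, f v ≠ 0 → v ∈ S := fun v hv => Set.mem_of_indicator_ne_zero hv
  have hsupp : ∀ v, (1 / 2 : ℝ) * Mv χ f v ≠ 0 → ∃ y ∈ S, ‖v - y‖ < 1 / 2 := by
    intro v hv
    obtain ⟨y, hy, hy'⟩ := mv_ne h (right_ne_zero_of_mul hv)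
    exact ⟨y, hfS y hy', hy⟩
  have hsmooth : ContDiff ℝ (⊤ : ℕ∞) (Mv χ f) := Mv_smooth h hloc
  refine ⟨fun v => 1 / 2 * Mv χ f v, ⟨contDiff_const.mul hsmooth, ?_, ?_, ?_⟩, ?_, ?_⟩
  · obtain ⟨R, hR⟩ := hΛ.subset_closedBall (0 : E3)
    refine HasCompactSupport.intro (isCompact_closedBall (0 : E3) (R + 1)) fun v hv => ?_
    by_contra hne
    obtain ⟨y, hy, hyv⟩ := hsupp v hne
    apply hv
    have h1 : y ∈ Λ := hSb y hy (Metric.mem_closedBall_self (by norm_num))
    have h2 := hR h1
    rw [mem_closedBall_zero_iff] at h2 ⊢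
    calc ‖v‖ = ‖y + (v - y)‖ := by rw [add_sub_cancel]
      _ ≤ ‖y‖ + ‖v - y‖ := norm_add_le _ _
      _ ≤ R + 1 := by linarith
  · intro v
    have h1 := Mv_nonneg h hf0 v
    have h2 : Mv χ f v ≤ 1 := by
      rw [← mv_one h v]
      exact Mv_mono h hloc (locallyIntegrable_const 1) hf1 v
    constructor <;> linarith
  · intro v
    have hint : ∫ w in Metric.ball v 1, |f w| ≤ volume.real (Metric.ball (0 : E3) 1) := by
      have h1 : ‖∫ w in Metric.ball v 1, |f w|‖ ≤ 1 * volume.real (Metric.ball v 1) := by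
        refine norm_setIntegral_le_of_norm_le_const measure_ball_lt_top fun w _ => ?_
        rw [norm_abs_eq_norm, Real.norm_of_nonneg (hf0 w)]
        exact hf1 w
      rw [one_mul] at h1
      refine (le_abs_self _).trans (h1.trans (le_of_eq ?_))
      unfold Measure.real
      rw [Measure.addHaar_ball_center]
    have hd : ∀ d : Fin 3, (fderiv ℝ (fun v => 1 / 2 * Mv χ f v) v
        (EuclideanSpace.single d 1)) ^ 2 ≤
        (1 / 2 * (C * volume.real (Metric.ball (0 : E3) 1))) ^ 2 := by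
      intro d
      have h1 : DifferentiableAt ℝ (Mv χ f) v :=
        hsmooth.differentiable (by norm_num) v
      rw [fderiv_const_mul h1]
      have h2 := (hbd f hloc v).2 d
      have h3 : |pd d (Mv χ f) v| ≤ C * volume.real (Metric.ball (0 : E3) 1) :=
        h2.trans (mul_le_mul_of_nonneg_left hint hC)
      change (1 / 2 * pd d (Mv χ f) v) ^ 2 ≤ _
      rw [mul_pow, mul_pow, ← sq_abs (pd d (Mv χ f) v)]
      exact mul_le_mul_of_nonneg_left (pow_le_pow_left₀ (abs_nonneg _) h3 2) (by norm_num)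
    unfold gr
    calc _ ≤ ∑ _d : Fin 3, (1 / 2 * (C * volume.real (Metric.ball (0 : E3) 1))) ^ 2 :=
        Finset.sum_le_sum fun d _ => hd d
      _ = _ := by
        rw [Finset.sum_const, Finset.card_univ, Fintype.card_fin, nsmul_eq_mul]
        norm_num
  · intro v hv
    obtain ⟨y, hy, hyv⟩ := hsupp v hv
    refine Set.Subset.trans ?_ (hSb y hy)
    refine Metric.closedBall_subset_closedBall' ?_
    rw [dist_eq_norm]
    linarith
  · intro u hu w hw
    have hne : (Λᶜ).Nonempty := by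
      by_contra hc
      rw [Set.not_nonempty_iff_eq_empty, Set.compl_empty_iff] at hc
      rw [hc] at hΛ
      exact NormedSpace.unbounded_univ ℝ E3 hΛ
    have h1 : Mv χ f w = Mv χ (fun _ => 1) w := by
      unfold Mv
      congr 1
      funext y
      by_cases hy : χ (w - y) = 0
      · rw [hy]; ring
      · have h2 := h.supp _ hy
        have h3 : y ∈ S := by
          change 45 < Metric.infDist y Λᶜ
          have h4 : (46 : ℝ) ≤ Metric.infDist y Λᶜ := by
            rw [Metric.le_infDist hne]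
            intro x hx
            by_contra hc
            push Not at hc
            apply hx
            apply hu
            rw [Metric.mem_closedBall, dist_eq_norm]
            rw [dist_comm, dist_eq_norm] at hc
            calc ‖x - u‖ = ‖(x - y) + (-(w - y)) + (w - u)‖ := by congr 1; abel
              _ ≤ ‖(x - y) + (-(w - y))‖ + ‖w - u‖ := norm_add_le _ _
              _ ≤ ‖x - y‖ + ‖-(w - y)‖ + ‖w - u‖ := by
                gcongr
                exact norm_add_le _ _
              _ ≤ 48 := by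
                rw [norm_neg]
                linarith
          linarith
        rw [hf, Set.indicator_of_mem h3]
    change 1 / 2 * Mv χ f w = 1 / 2
    rw [h1, mv_one h w, mul_one]

end H6.CX
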