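import Pool.Agent.H6.CX.Defs
import Pool.Agent.H6.CM.BumpEx

/-! Convolution with `χ ^ 2`, regularity. `Mv χ f` is the convolution of the smooth compactly supported function `χ ^ 2` with the locally integrable function `f`: `HasCompactSupport.contDiff_convolution_left` (with `ContinuousLinearMap.mul ℝ ℝ` or `lsmul`; `Mv χ f x = ∫ y, χ (x - y) ^ 2 * f y` is `∫ t, χ t ^ 2 * f (x - t)` up to the substitution `y = x - t`, `MeasureTheory.integral_sub_left_eq_self`), and `HasCompactSupport.hasFDerivAt_convolution_left` for the derivative: `pd d (Mv χ f) x = ∫ y, pd d (fun v => χ v ^ 2) (x - y) * f y`. Bounds: `χ ^ 2` and its partial derivatives are bounded and vanish for `1 / 2 ≤ ‖v‖`. The constant depends only on `χ`. -/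

open MeasureTheory Finset

namespace H6.CX

open H6.CM H6.CB H6.CL H6.CT

/-- a locally integrable function against a bounded kernel supported in the ball of radius `1 / 2` -/
private theorem MvA_bd {k : E3 → ℝ} {C : ℝ} (hk : ∀ v, |k v| ≤ C) (hs : ∀ v, k v ≠ 0 → ‖v‖ ≤ 1 / 2)
    {f : E3 → ℝ} (hf : LocallyIntegrable f) (x : E3) :
    |∫ y, f y * k (x - y)| ≤ C * ∫ v in Metric.ball x 1, |f v| := by
  have hint : IntegrableOn (fun v => |f v|) (Metric.ball x 1) :=
    ((hf.integrableOn_isCompact (isCompact_closedBall x 1)).mono_set Metric.ball_subset_closedBall).abs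
  have h1 : |∫ y, f y * k (x - y)| ≤ ∫ y, |f y * k (x - y)| := by
    simpa only [Real.norm_eq_abs] using norm_integral_le_integral_norm (fun y => f y * k (x - y))
  refine h1.trans ?_
  rw [← integral_const_mul, ← integral_indicator measurableSet_ball]
  refine integral_mono_of_nonneg (Filter.Eventually.of_forall fun y => abs_nonneg _)
    ((integrable_indicator_iff measurableSet_ball).2 (hint.const_mul C)) (Filter.Eventually.of_forall fun y => ?_)
  beta_reduce
  by_cases hy : y ∈ Metric.ball x 1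
  · rw [Set.indicator_of_mem hy, abs_mul, mul_comm]
    exact mul_le_mul_of_nonneg_right (hk _) (abs_nonneg _)
  · rw [Set.indicator_of_notMem hy]
    have h0 : k (x - y) = 0 := by
      by_contra hne
      apply hy
      rw [Metric.mem_ball, dist_comm, dist_eq_norm]
      have := hs _ hne
      linarith
    rw [h0, mul_zero, abs_zero]

section

variable {χ : E3 → ℝ} (h : Bump χ)
include h

private theorem MvA_smooth : ContDiff ℝ (⊤ : ℕ∞) (fun v => χ v ^ 2) := h.smooth.pow 2

private theorem MvA_cpt : HasCompactSupport (fun v => χ v ^ 2) := by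
  refine HasCompactSupport.intro (isCompact_closedBall (0 : E3) (1 / 2)) fun v hv => ?_
  have h0 : χ v = 0 := by
    by_contra h0
    apply hv
    rw [Metric.mem_closedBall, dist_zero_right]
    exact (h.supp v h0).le
  rw [h0]
  norm_num

omit h in
private theorem MvA_eq (f : E3 → ℝ) : Mv χ f =
    MeasureTheory.convolution f (fun v => χ v ^ 2) (ContinuousLinearMap.mul ℝ ℝ) volume := by
  funext x
  unfold Mv MeasureTheory.convolution
  refine integral_congr_ae (Filter.Eventually.of_forall fun y => ?_)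
  simp only [ContinuousLinearMap.mul_apply']
  ring

theorem Mv_int {f : E3 → ℝ} (hf : LocallyIntegrable f) (x : E3) :
    Integrable (fun y => χ (x - y) ^ 2 * f y) := by
  have h1 : ConvolutionExistsAt f (fun v => χ v ^ 2) x (ContinuousLinearMap.mul ℝ ℝ) volume :=
    (MvA_cpt h).convolutionExists_right (ContinuousLinearMap.mul ℝ ℝ) hf (MvA_smooth h).continuous x
  have h2 : Integrable (fun t => (ContinuousLinearMap.mul ℝ ℝ) (f t) (χ (x - t) ^ 2)) volume := h1
  refine h2.congr (Filter.Eventually.of_forall fun y => ?_)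
  simp only [ContinuousLinearMap.mul_apply']
  ring

theorem Mv_smooth {f : E3 → ℝ} (hf : LocallyIntegrable f) :
    ContDiff ℝ (⊤ : ℕ∞) (Mv χ f) := by
  rw [MvA_eq]
  exact (MvA_cpt h).contDiff_convolution_right (ContinuousLinearMap.mul ℝ ℝ) hf (MvA_smooth h)

/-- the partial derivatives of the convolution -/
private theorem MvA_pd {f : E3 → ℝ} (hf : LocallyIntegrable f) (d : Fin 3) (x : E3) :
    pd d (Mv χ f) x = ∫ y, f y * pd d (fun v => χ v ^ 2) (x - y) := by
  unfold pd
  rw [MvA_eq, ((MvA_cpt h).hasFDerivAt_convolution_right (ContinuousLinearMap.mul ℝ ℝ) hf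
    ((MvA_smooth h).of_le (by exact_mod_cast le_top)) x).fderiv]
  rw [convolution_precompR_apply (ContinuousLinearMap.mul ℝ ℝ) hf ((MvA_cpt h).fderiv (𝕜 := ℝ))
    ((MvA_smooth h).continuous_fderiv (by simp)) x]
  unfold MeasureTheory.convolution
  simp only [ContinuousLinearMap.mul_apply']

theorem Mv_bd : ∃ C : ℝ, 0 ≤ C ∧ ∀ (f : E3 → ℝ) (_ : LocallyIntegrable f) (x : E3),
    |Mv χ f x| ≤ C * ∫ v in Metric.ball x 1, |f v| ∧
    ∀ d, |pd d (Mv χ f) x| ≤ C * ∫ v in Metric.ball x 1, |f v| := by
  have hb0 : ∃ C : ℝ, ∀ v, ‖χ v ^ 2‖ ≤ C :=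
    (MvA_smooth h).continuous.bounded_above_of_compact_support (MvA_cpt h)
  have hcd : ∀ d, Continuous (pd d (fun v => χ v ^ 2)) := fun d =>
    ((MvA_smooth h).continuous_fderiv (by simp)).clm_apply continuous_const
  have hsd : ∀ d, ∀ v, pd d (fun v => χ v ^ 2) v ≠ 0 → ‖v‖ ≤ 1 / 2 := by
    intro d v hv
    by_contra hlt
    push Not at hlt
    apply hv
    unfold pd
    have h1 : (fun v => χ v ^ 2) =ᶠ[nhds v] fun _ => 0 := by
      have hopen : IsOpen {w : E3 | 1 / 2 < ‖w‖} := isOpen_lt continuous_const continuous_norm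
      filter_upwards [hopen.mem_nhds hlt] with w hw
      have h0 : χ w = 0 := by
        by_contra h0
        exact absurd (h.supp w h0) (not_lt.2 (le_of_lt hw))
      rw [h0]
      norm_num
    rw [h1.fderiv_eq]
    simp
  have hbd : ∀ d, ∃ C : ℝ, ∀ v, ‖pd d (fun v => χ v ^ 2) v‖ ≤ C := by
    intro d
    refine (hcd d).bounded_above_of_compact_support ?_
    refine HasCompactSupport.intro (isCompact_closedBall (0 : E3) (1 / 2)) fun v hv => ?_
    by_contra h0
    apply hv
    rw [Metric.mem_closedBall, dist_zero_right]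
    exact hsd d v h0
  obtain ⟨C0, hC0⟩ := hb0
  choose C1 hC1 using hbd
  have hC00 : 0 ≤ C0 := (norm_nonneg _).trans (hC0 0)
  have hC10 : ∀ d, 0 ≤ C1 d := fun d => (norm_nonneg _).trans (hC1 d 0)
  have hsum : ∀ d, C1 d ≤ ∑ e, C1 e := fun d => single_le_sum (fun e _ => hC10 e) (mem_univ d)
  have hS : 0 ≤ ∑ e, C1 e := sum_nonneg fun e _ => hC10 e
  refine ⟨C0 + ∑ d, C1 d, by linarith, fun f hf x => ⟨?_, fun d => ?_⟩⟩
  · have h1 := MvA_bd (k := fun v => χ v ^ 2) (C := C0 + ∑ d, C1 d)
      (fun v => by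
        have := hC0 v
        rw [Real.norm_eq_abs] at this
        linarith)
      (fun v hv => by
        have h0 : χ v ≠ 0 := by
          intro h0
          apply hv
          beta_reduce
          rw [h0]
          norm_num
        exact (h.supp v h0).le) hf x
    have h2 : Mv χ f x = ∫ y, f y * χ (x - y) ^ 2 := by
      unfold Mv
      refine integral_congr_ae (Filter.Eventually.of_forall fun y => ?_)
      beta_reduce
      ring
    rw [h2]
    exact h1
  · rw [MvA_pd h hf d x]
    refine MvA_bd (fun v => ?_) (hsd d) hf x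
    have := hC1 d v
    rw [Real.norm_eq_abs] at this
    have := hsum d
    linarith

theorem Mv_nonneg {f : E3 → ℝ} (hf : ∀ v, 0 ≤ f v) (x : E3) : 0 ≤ Mv χ f x :=
  integral_nonneg fun y => mul_nonneg (sq_nonneg _) (hf y)

theorem Mv_mono {f g : E3 → ℝ} (hf : LocallyIntegrable f) (hg : LocallyIntegrable g)
    (hfg : ∀ v, f v ≤ g v) (x : E3) : Mv χ f x ≤ Mv χ g x :=
  integral_mono (Mv_int h hf x) (Mv_int h hg x)
    fun y => mul_le_mul_of_nonneg_left (hfg y) (sq_nonneg _)

theorem Mv_add {f g : E3 → ℝ} (hf : LocallyIntegrable f) (hg : LocallyIntegrable g) (x : E3) :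
    Mv χ (fun v => f v + g v) x = Mv χ f x + Mv χ g x := by
  unfold Mv
  rw [← integral_add (Mv_int h hf x) (Mv_int h hg x)]
  refine integral_congr_ae (Filter.Eventually.of_forall fun y => ?_)
  beta_reduce
  ring

theorem Mv_sum {ι : Type} (I : Finset ι) {f : ι → E3 → ℝ}
    (hf : ∀ i ∈ I, LocallyIntegrable (f i)) (x : E3) :
    Mv χ (fun v => ∑ i ∈ I, f i v) x = ∑ i ∈ I, Mv χ (f i) x := by
  unfold Mv
  rw [← integral_finsetSum I fun i hi => Mv_int h (hf i hi) x]
  refine integral_congr_ae (Filter.Eventually.of_forall fun y => ?_)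
  beta_reduce
  rw [mul_sum]

theorem Mv_cmul (c : ℝ) (f : E3 → ℝ) (x : E3) :
    Mv χ (fun v => c * f v) x = c * Mv χ f x := by
  unfold Mv
  rw [← integral_const_mul]
  refine integral_congr_ae (Filter.Eventually.of_forall fun y => ?_)
  beta_reduce
  ring

end

end H6.CX
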