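import Pool.Agent.H6.CX.Clo
import Pool.Agent.H6.CX.KilX
import Pool.Agent.H6.CB.Hardy
import Pool.Agent.H6.CL.CovS
import Pool.Agent.H6.CM.UBd

/-! The theorem for plump domains. -/

open MeasureTheory Finset

namespace H6.CX

open H6.CM H6.CB H6.CL H6.CT

private theorem plu_k {χ : E3 → ℝ} (h : Bump χ) {CU : ℝ} (hU : ∀ w, U χ w ≤ CU) (v : E3) :
    |‖v‖⁻¹ - U χ v| ≤ (if ‖v‖ < 2 then ‖v‖⁻¹ else 0) + CU * (if ‖v‖ < 2 then 1 else 0) := by
  have h0 := U_nonneg χ v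
  have h1 := hU v
  have h2 : 0 ≤ ‖v‖⁻¹ := by positivity
  by_cases hv : ‖v‖ < 2
  · simp only [hv, if_true, mul_one]
    rw [abs_le]
    constructor <;> linarith
  · have h3 : 1 / 2 ≤ ‖v‖ := by linarith [not_lt.mp hv]
    rw [newton_out h v h3]
    simp [hv]

private theorem plu_pt {χ : E3 → ℝ} (h : Bump χ) {CU : ℝ} (hU : ∀ w, U χ w ≤ CU) {n k : ℕ}
    (z : Fin k → ℝ) (zp : ℝ) (hz : ∀ j, 0 ≤ z j ∧ z j ≤ zp) (c : ℝ) (p : Cfg n k) (x : E3) :
    |phi z p x| ≤ (1 + |zp|) * (near p x + CU * (ce p x 2 + cn p x 2)) +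
      |av χ z c p x| + (1 + c ^ 2) := by
  have hCU : 0 ≤ CU := (U_nonneg χ 0).trans (hU 0)
  have e : phi z p x = (∑ j, z j * (‖x - p.2 j‖⁻¹ - U χ (x - p.2 j)) -
      ∑ a, (‖x - p.1 a‖⁻¹ - U χ (x - p.1 a))) + av χ z c p x + c := by
    unfold phi av
    simp only [mul_sub, sum_sub_distrib]
    ring
  have h1 : |∑ a, (‖x - p.1 a‖⁻¹ - U χ (x - p.1 a))| ≤
      ∑ a, ((if ‖x - p.1 a‖ < 2 then ‖x - p.1 a‖⁻¹ else 0) +
        CU * (if ‖x - p.1 a‖ < 2 then 1 else 0)) :=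
    (abs_sum_le_sum_abs _ _).trans (sum_le_sum fun a _ => plu_k h hU _)
  have h2 : |∑ j, z j * (‖x - p.2 j‖⁻¹ - U χ (x - p.2 j))| ≤
      |zp| * ∑ j, ((if ‖x - p.2 j‖ < 2 then ‖x - p.2 j‖⁻¹ else 0) +
        CU * (if ‖x - p.2 j‖ < 2 then 1 else 0)) := by
    rw [mul_sum]
    refine (abs_sum_le_sum_abs _ _).trans (sum_le_sum fun j _ => ?_)
    rw [abs_mul, abs_of_nonneg (hz j).1]
    exact mul_le_mul ((hz j).2.trans (le_abs_self _)) (plu_k h hU _) (abs_nonneg _)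
      (abs_nonneg _)
  have e1 : ∑ a, ((if ‖x - p.1 a‖ < 2 then ‖x - p.1 a‖⁻¹ else 0) +
        CU * (if ‖x - p.1 a‖ < 2 then (1 : ℝ) else 0)) =
      ∑ a, (if ‖x - p.1 a‖ < 2 then ‖x - p.1 a‖⁻¹ else 0) + CU * ce p x 2 := by
    rw [sum_add_distrib, ← mul_sum]
    congr 2
    unfold ce
    exact sum_congr rfl fun a _ => by rw [norm_sub_rev]
  have e2 : ∑ j, ((if ‖x - p.2 j‖ < 2 then ‖x - p.2 j‖⁻¹ else 0) +
        CU * (if ‖x - p.2 j‖ < 2 then (1 : ℝ) else 0)) =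
      ∑ j, (if ‖x - p.2 j‖ < 2 then ‖x - p.2 j‖⁻¹ else 0) + CU * cn p x 2 := by
    rw [sum_add_distrib, ← mul_sum]
    congr 2
    unfold cn
    exact sum_congr rfl fun a _ => by rw [norm_sub_rev]
  rw [e1] at h1
  rw [e2] at h2
  have h3 : |c| ≤ 1 + c ^ 2 := by
    rcases abs_cases c with ⟨h, _⟩ | ⟨h, _⟩ <;> rw [h] <;> nlinarith [sq_nonneg (c - 1), sq_nonneg (c + 1)]
  have n1 : 0 ≤ ∑ a, (if ‖x - p.1 a‖ < 2 then ‖x - p.1 a‖⁻¹ else 0) :=
    sum_nonneg fun a _ => by split_ifs <;> positivity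
  have n2 : 0 ≤ ∑ j, (if ‖x - p.2 j‖ < 2 then ‖x - p.2 j‖⁻¹ else 0) :=
    sum_nonneg fun a _ => by split_ifs <;> positivity
  have n3 : 0 ≤ CU * ce p x 2 := mul_nonneg hCU (ce_nonneg p x 2)
  have n4 : 0 ≤ CU * cn p x 2 := mul_nonneg hCU (cn_nonneg p x 2)
  have n5 := abs_nonneg zp
  rw [e]
  have h4 : |(∑ j, z j * (‖x - p.2 j‖⁻¹ - U χ (x - p.2 j)) -
      ∑ a, (‖x - p.1 a‖⁻¹ - U χ (x - p.1 a))) + av χ z c p x + c| ≤
      |∑ j, z j * (‖x - p.2 j‖⁻¹ - U χ (x - p.2 j))| +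
      |∑ a, (‖x - p.1 a‖⁻¹ - U χ (x - p.1 a))| + |av χ z c p x| + |c| := by
    refine (abs_add_le _ _).trans (add_le_add ((abs_add_le _ _).trans
      (add_le_add (abs_sub _ _) le_rfl)) le_rfl)
  refine h4.trans ?_
  unfold near
  have h5 : (1 + |zp|) * ((∑ a, (if ‖x - p.1 a‖ < 2 then ‖x - p.1 a‖⁻¹ else 0) +
      ∑ j, (if ‖x - p.2 j‖ < 2 then ‖x - p.2 j‖⁻¹ else 0)) + CU * (ce p x 2 + cn p x 2)) =
      (∑ a, (if ‖x - p.1 a‖ < 2 then ‖x - p.1 a‖⁻¹ else 0) + CU * ce p x 2) +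
      |zp| * (∑ j, (if ‖x - p.2 j‖ < 2 then ‖x - p.2 j‖⁻¹ else 0) + CU * cn p x 2) +
      ((∑ j, (if ‖x - p.2 j‖ < 2 then ‖x - p.2 j‖⁻¹ else 0) + CU * cn p x 2) +
      |zp| * (∑ a, (if ‖x - p.1 a‖ < 2 then ‖x - p.1 a‖⁻¹ else 0) + CU * ce p x 2)) := by ring
  rw [h5]
  have h6 : 0 ≤ (∑ j, (if ‖x - p.2 j‖ < 2 then ‖x - p.2 j‖⁻¹ else 0) + CU * cn p x 2) +
      |zp| * (∑ a, (if ‖x - p.1 a‖ < 2 then ‖x - p.1 a‖⁻¹ else 0) + CU * ce p x 2) := by
    positivity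
  linarith

theorem plump (q : ℕ) (T zm zp κm κp A Kv D1 : ℝ) (hT : 0 ≤ T) (hzm : 0 < zm) (hκm : 0 < κm)
    (hA : 0 ≤ A) (hKv : 0 ≤ Kv) {χ : E3 → ℝ} (hχ : Bump χ) :
    ∃ C : ℝ, 0 ≤ C ∧
    ∀ (ι : Type) (_ : Fintype ι) (n k : ℕ) (Λ : Set E3) (z κ : Fin k → ℝ) (W : Finset E3)
    (δ : ℝ) (Ψ : ι → (Fin n → Fin q) → Cfg n k → ℂ)
    (_ : Gt q T zm zp κm κp A Kv n k Λ z κ W δ Ψ) (_ : δ ≤ (((n : ℝ) + k + 1) ^ 4)⁻¹)
    (_ : ∀ x ∈ Λ, ∃ u, ‖x - u‖ ≤ D1 ∧ Metric.closedBall u 48 ⊆ Λ) (x : E3),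
    |mM Ψ (fun p => phi z p x)| ≤ C ∧ mM Ψ (fun p => near p x) ≤ C ∧ Lm Ψ x C := by
  obtain ⟨Cz, hkil⟩ := kil_ex
  obtain ⟨C1, hC1, hclo⟩ := clo q T zm zp κm κp A Kv Cz (|D1| + 3) hT hzm hκm hA hKv hχ
  obtain ⟨Ch, hCh, hhar⟩ := hardy
  obtain ⟨CU, hCU, hU⟩ := U_bd hχ
  obtain ⟨t1, _, ht1⟩ := t_covS 4
  obtain ⟨t2, _, ht2⟩ := c_cov 4
  obtain ⟨N1, hN1⟩ : ∃ N1 : ℝ, N1 = Ch * (t1.card * C1 + t2.card * (1 + C1 + C1)) :=
    ⟨_, rfl⟩
  have hN1n : 0 ≤ N1 := by rw [hN1]; positivity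
  refine ⟨(1 + |zp|) * (N1 + CU * (t2.card * (1 + C1 + C1))) + C1 + (1 + C1) + N1 + C1,
    by positivity, ?_⟩
  intro ι _ n k Λ z κ W δ Ψ hG hδ hpl x
  have hst := hG.eq.st
  have hone := hG.eq.one
  have hsm : ∀ i, Sm q n k Λ (Ψ i) := fun i => St_sm (hst i)
  obtain ⟨ζ, hζ, hζ1, hζ2⟩ := hkil Λ hG.hb
  have hD : D1 ≤ |D1| := le_abs_self _
  have hN : ∀ x ∈ Λ, ∀ v, ‖x - v‖ < 3 → v ∈ Nb ζ (|D1| + 3) := by
    intro x hx v hv
    obtain ⟨u, hu1, hu2⟩ := hpl x hx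
    refine ⟨u, ?_, hζ2 u hu2⟩
    calc ‖v - u‖ = ‖(x - u) - (x - v)‖ := by congr 1; abel
      _ ≤ ‖x - u‖ + ‖x - v‖ := norm_sub_le _ _
      _ ≤ _ := by linarith
  have hB3 : Bz ζ 3 ⊆ Nb ζ (|D1| + 3) := by
    rintro v ⟨w, hw, hw0⟩
    exact hN w (hζ1 w hw0 (Metric.mem_closedBall_self (by norm_num))) v hw
  have h41 : ∀ x ∈ Bz ζ 3, Metric.closedBall x 41 ⊆ Λ := by
    rintro v ⟨w, hw, hw0⟩
    refine Set.Subset.trans (Metric.closedBall_subset_closedBall' ?_) (hζ1 w hw0)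
    rw [dist_eq_norm, norm_sub_rev]
    linarith
  obtain ⟨hL, hpr⟩ := hclo ι _ n k Λ z κ W δ Ψ hG hδ ζ hζ
    (fun x hx v hv => hN x hx v (by linarith)) hB3 h41
  -- numbers of particles
  have hcn1 : ∀ v, mM Ψ (fun p => ce p v 1) ≤ 1 + C1 := by
    intro v
    have h1 : mM Ψ (fun p => ce p v 1) ≤ 1 + mM Ψ (fun p => ce p v 1 ^ (5 / 3 : ℝ)) := by
      unfold mM
      calc ∑ i, mean (Ψ i) (fun p => ce p v 1)
          ≤ ∑ i, (1 * mass (Ψ i) + mean (Ψ i) (fun p => ce p v 1 ^ (5 / 3 : ℝ))) := by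
            refine sum_le_sum fun i _ => ?_
            have i1 := IM_cet (hsm i) v 1 (5 / 3) (by norm_num)
            have i2 : IM (Ψ i) (fun _ : Cfg n k => (1 : ℝ)) := IM.cont (hsm i) continuous_const
            rw [← mean_const, ← mean_add i2 i1]
            refine mean_mono (IM_ce (hsm i) v 1) (i2.add i1) fun _ p _ => ?_
            have h2 := ce_nonneg p v 1
            rcases le_or_gt (ce p v 1) 1 with h | h
            · have : 0 ≤ ce p v 1 ^ (5 / 3 : ℝ) := Real.rpow_nonneg h2 _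
              linarith
            · have : ce p v 1 ≤ ce p v 1 ^ (5 / 3 : ℝ) := by
                calc ce p v 1 = ce p v 1 ^ (1 : ℝ) := (Real.rpow_one _).symm
                  _ ≤ _ := Real.rpow_le_rpow_of_exponent_le h.le (by norm_num)
              linarith
        _ = _ := by rw [sum_add_distrib, ← mul_sum, hone, mul_one]
    linarith [(hL v).1.e]
  have hc4 : mM Ψ (fun p => ce p x 4 + cn p x 4) ≤ t2.card * (1 + C1 + C1) := by
    have h1 : mM Ψ (fun p => ce p x 4 + cn p x 4) ≤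
        ∑ c ∈ t2, (mM Ψ (fun p => ce p (x + c) 1) + mM Ψ (fun p => cn p (x + c) 1)) := by
      unfold mM
      calc ∑ i, mean (Ψ i) (fun p => ce p x 4 + cn p x 4)
          ≤ ∑ i, ∑ c ∈ t2, (mean (Ψ i) (fun p => ce p (x + c) 1) +
              mean (Ψ i) (fun p => cn p (x + c) 1)) := by
            refine sum_le_sum fun i _ => ?_
            have i1 : ∀ c ∈ t2, IM (Ψ i) (fun p => ce p (x + c) 1 + cn p (x + c) 1) :=
              fun c _ => (IM_ce (hsm i) _ 1).add (IM_cn (hsm i) _ 1)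
            have e : ∑ c ∈ t2, (mean (Ψ i) (fun p => ce p (x + c) 1) +
                mean (Ψ i) (fun p => cn p (x + c) 1)) =
                mean (Ψ i) (fun p => ∑ c ∈ t2, (ce p (x + c) 1 + cn p (x + c) 1)) := by
              rw [mean_sum _ i1]
              exact sum_congr rfl fun c _ =>
                (mean_add (IM_ce (hsm i) _ 1) (IM_cn (hsm i) _ 1)).symm
            rw [e]
            refine mean_mono ((IM_ce (hsm i) x 4).add (IM_cn (hsm i) x 4))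
              (IM.sum _ i1) fun _ p _ => ?_
            have := ht2 n k p x
            rw [sum_add_distrib]
            exact add_le_add this.1 this.2
        _ = _ := by rw [sum_comm]; simp only [sum_add_distrib]
    refine h1.trans ?_
    rw [← nsmul_eq_mul]
    exact sum_le_card_nsmul _ _ _ fun c _ => add_le_add (hcn1 _) (hL _).1.c
  have hT4 : TM Ψ x 4 ≤ t1.card * C1 := by
    have h1 : TM Ψ x 4 ≤ ∑ c ∈ t1, TM Ψ (x + c) 1 := by
      unfold TM
      rw [sum_comm]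
      exact sum_le_sum fun i _ => ht1 q n k Λ (Ψ i) (hsm i) x
    refine h1.trans ?_
    rw [← nsmul_eq_mul]
    exact sum_le_card_nsmul _ _ _ fun c _ => (hL _).1.t
  have hnear : mM Ψ (fun p => near p x) ≤ N1 := by
    have h1 : mM Ψ (fun p => near p x) ≤
        Ch * (TM Ψ x 4 + mM Ψ (fun p => ce p x 4 + cn p x 4)) := by
      unfold mM TM
      rw [← sum_add_distrib, mul_sum]
      exact sum_le_sum fun i _ => hhar q n k Λ (Ψ i) (hsm i) x
    rw [hN1]
    refine h1.trans ?_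
    gcongr
  refine ⟨?_, ?_, ?_⟩
  · -- the potential
    have hz : ∀ j, 0 ≤ z j ∧ z j ≤ zp := fun j => ⟨hzm.le.trans (hG.hz j).1, (hG.hz j).2⟩
    have i0 : ∀ i, IM (Ψ i) (fun p => near p x) := by
      intro i
      unfold near
      refine IM.add (IM.sum _ fun a _ => ?_) (IM.sum _ fun j _ => ?_)
      · refine IM.dom (G := fun p => ‖x - p.1 a‖⁻¹) ?_ (IM_we (hsm i) x a) (hsm i) fun p => ?_
        · have hm : Measurable (fun p : Cfg n k => ‖x - p.1 a‖) :=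
            (measurable_const.sub (meas_e a)).norm
          exact Measurable.ite (measurableSet_lt hm measurable_const) hm.inv measurable_const
        · split_ifs
          · rw [abs_of_nonneg (by positivity)]
          · rw [abs_zero]; positivity
      · refine IM.dom (G := fun p => ‖x - p.2 j‖⁻¹) ?_ (IM_wn (hsm i) x j) (hsm i) fun p => ?_
        · have hm : Measurable (fun p : Cfg n k => ‖x - p.2 j‖) :=
            (measurable_const.sub (meas_n j)).norm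
          exact Measurable.ite (measurableSet_lt hm measurable_const) hm.inv measurable_const
        · split_ifs
          · rw [abs_of_nonneg (by positivity)]
          · rw [abs_zero]; positivity
    have i1 : ∀ i, IM (Ψ i) (fun p => ce p x 4 + cn p x 4) := fun i =>
      (IM_ce (hsm i) x 4).add (IM_cn (hsm i) x 4)
    have i2 : ∀ i, IM (Ψ i) (fun p => |av χ z (pr χ W z p) p x|) := fun i =>
      IM_av hχ (hsm i) z W x
    have i3 : ∀ i, IM (Ψ i) (fun p => pr χ W z p ^ 2) := fun i => IM_pr hχ (hsm i) z W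
    have i4 : ∀ i, IM (Ψ i) (fun _ : Cfg n k => (1 : ℝ)) := fun i =>
      IM.cont (hsm i) continuous_const
    have h1 : |mM Ψ (fun p => phi z p x)| ≤ (1 + |zp|) * (mM Ψ (fun p => near p x) +
        CU * mM Ψ (fun p => ce p x 4 + cn p x 4)) +
        mM Ψ (fun p => |av χ z (pr χ W z p) p x|) +
        (1 + mM Ψ (fun p => pr χ W z p ^ 2)) := by
      unfold mM
      refine (abs_sum_le_sum_abs _ _).trans ?_
      have h2 : ∀ i, |mean (Ψ i) (fun p => phi z p x)| ≤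
          (1 + |zp|) * (mean (Ψ i) (fun p => near p x) +
          CU * mean (Ψ i) (fun p => ce p x 4 + cn p x 4)) +
          mean (Ψ i) (fun p => |av χ z (pr χ W z p) p x|) +
          (1 * mass (Ψ i) + mean (Ψ i) (fun p => pr χ W z p ^ 2)) := by
        intro i
        have iR : IM (Ψ i) (fun p => (1 + |zp|) * (near p x + CU * (ce p x 4 + cn p x 4)) +
            |av χ z (pr χ W z p) p x| + (1 + pr χ W z p ^ 2)) :=
          ((((i0 i).add ((i1 i).cmul CU)).cmul _).add (i2 i)).add ((i4 i).add (i3 i))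
        have e : mean (Ψ i) (fun p => (1 + |zp|) * (near p x + CU * (ce p x 4 + cn p x 4)) +
            |av χ z (pr χ W z p) p x| + (1 + pr χ W z p ^ 2)) =
            (1 + |zp|) * (mean (Ψ i) (fun p => near p x) +
            CU * mean (Ψ i) (fun p => ce p x 4 + cn p x 4)) +
            mean (Ψ i) (fun p => |av χ z (pr χ W z p) p x|) +
            (1 * mass (Ψ i) + mean (Ψ i) (fun p => pr χ W z p ^ 2)) := by
          rw [mean_add ((((i0 i).add ((i1 i).cmul CU)).cmul _).add (i2 i))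
            ((i4 i).add (i3 i)), mean_add (((i0 i).add ((i1 i).cmul CU)).cmul _) (i2 i),
            mean_cmul, mean_add (i0 i) ((i1 i).cmul CU), mean_cmul,
            mean_add (i4 i) (i3 i), mean_const]
        rw [← e]
        have hb : ∀ p : Cfg n k, |phi z p x| ≤ (1 + |zp|) * (near p x +
            CU * (ce p x 4 + cn p x 4)) +
            |av χ z (pr χ W z p) p x| + (1 + pr χ W z p ^ 2) := by
          intro p
          refine (plu_pt hχ hU z zp hz (pr χ W z p) p x).trans ?_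
          have h3 : ce p x 2 ≤ ce p x 4 := ce_mono p (by simp; norm_num)
          have h4 : cn p x 2 ≤ cn p x 4 := cn_mono p (by simp; norm_num)
          gcongr
        rw [abs_le]
        constructor
        · rw [← mean_neg]
          exact mean_mono iR.neg (IM_phi (hsm i) z x) fun _ p _ => by
            have := (abs_le.mp (hb p)).1
            linarith
        · exact mean_mono (IM_phi (hsm i) z x) iR fun _ p _ => (abs_le.mp (hb p)).2
      refine (sum_le_sum fun i _ => h2 i).trans (le_of_eq ?_)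
      simp only [sum_add_distrib, ← mul_sum]
      rw [hone, mul_one]
    refine h1.trans ?_
    have h5 := (hL x).2
    have h6 : (1 + |zp|) * (mM Ψ (fun p => near p x) +
        CU * mM Ψ (fun p => ce p x 4 + cn p x 4)) ≤
        (1 + |zp|) * (N1 + CU * (t2.card * (1 + C1 + C1))) := by
      gcongr
    linarith
  · have : 0 ≤ (1 + |zp|) * (N1 + CU * (t2.card * (1 + C1 + C1))) := by positivity
    linarith
  · have h7 : C1 ≤ (1 + |zp|) * (N1 + CU * (t2.card * (1 + C1 + C1))) + C1 + (1 + C1) +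
        N1 + C1 := by
      have : 0 ≤ (1 + |zp|) * (N1 + CU * (t2.card * (1 + C1 + C1))) := by positivity
      linarith
    exact ⟨(hL x).1.t.trans h7, (hL x).1.e.trans h7, (hL x).1.c.trans h7⟩

end H6.CX
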