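import Pool.Agent.H6.CX.WSum
import Pool.Agent.H6.CB.TSt
import Pool.Agent.H6.CB.MmF
import Pool.Agent.H6.CM.BumpEx

/-! Weighted stability. `tst` at the point `v` with the constant `K' = K * C`, multiplied by `g v` and integrated over `v`: on the left `∫ v, g v * ∑ a, Jc θ v 1 (x a) ^ 2 * D a ≥ c ∑ a, g (x a) * D a` with `D a = ⨆ j, ‖x a - R j‖⁻¹` (`Jc θ v 1 (x a) = 1` for `‖v - x a‖ ≤ 1`); on the right `∑ a, kE (mf (fun p => Jc θ v 1 (p.1 a)) Φ) a ≤ 2 TE Φ v 2 + C mean Φ (fun p => ce p v 2)` (`|∇ (J Φ)| ^ 2 ≤ 2 J ^ 2 |∇ Φ| ^ 2 + 2 |∇ J| ^ 2 |Φ| ^ 2`, `Jc_zero`, `Jc_grad`; compare the product rule used for `kE_mf` in `Pool/Agent/H6/CB/TSt.lean`, `FSb.lean`), and `w_te`, `w_ce` with `R = 2` and `R = 4`. Tonelli on the left: `IM` of the weighted sum: `D a ≤ ∑ j, ‖x a - R j‖⁻¹` is integrable (`IM_en`, `IM.dom`, `IM.bmul`; `g` is bounded on the compact set of the positions). -/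

open MeasureTheory Finset

namespace H6.CX

open H6.CM H6.CB H6.CL H6.CT

private theorem tw_upE {n k : ℕ} {α : Type*} [NormedAddCommGroup α] [NormedSpace ℝ α]
    (F : Cfg n k → α) (hF : Differentiable ℝ F) (q : Cfg n k) (b : Fin n) (v : E3) :
    DifferentiableAt ℝ (fun v => F (Function.update q.1 b v, q.2)) v := by
  have h1 : DifferentiableAt ℝ (fun v : E3 => ((Function.update q.1 b v, q.2) : Cfg n k)) v :=
    ((hasFDerivAt_update q.1 v).differentiableAt).prodMk (differentiableAt_const _)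
  exact (hF _).comp v h1

private theorem tw_comb (a s : ℝ) (f g : ℂ) :
    ‖(a : ℂ) * f + (s : ℂ) * g‖ ^ 2 ≤ 2 * s ^ 2 * ‖g‖ ^ 2 + 2 * a ^ 2 * ‖f‖ ^ 2 := by
  have h1 := norm_add_le ((a : ℂ) * f) ((s : ℂ) * g)
  rw [norm_mul, norm_mul, Complex.norm_real, Complex.norm_real, Real.norm_eq_abs,
    Real.norm_eq_abs] at h1
  have h2 : ‖(a : ℂ) * f + (s : ℂ) * g‖ ^ 2 ≤ (|a| * ‖f‖ + |s| * ‖g‖) ^ 2 :=
    pow_le_pow_left₀ (norm_nonneg _) h1 2
  have h3 : (|a| * ‖f‖) ^ 2 = a ^ 2 * ‖f‖ ^ 2 := by rw [mul_pow, sq_abs]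
  have h4 : (|s| * ‖g‖) ^ 2 = s ^ 2 * ‖g‖ ^ 2 := by rw [mul_pow, sq_abs]
  nlinarith [sq_nonneg (|a| * ‖f‖ - |s| * ‖g‖)]

private theorem tw_g3 (s : E3 → ℝ) (f : E3 → ℂ) (v : E3) (hs : DifferentiableAt ℝ s v)
    (hf : DifferentiableAt ℝ f v) :
    g3 (fun u => ((s u : ℝ) : ℂ) * f u) v ≤ 2 * s v ^ 2 * g3 f v + 2 * gr s v * ‖f v‖ ^ 2 := by
  have hd : ∀ e : E3, fderiv ℝ (fun u => ((s u : ℝ) : ℂ) * f u) v e =
      ((fderiv ℝ s v e : ℝ) : ℂ) * f v + ((s v : ℝ) : ℂ) * fderiv ℝ f v e := by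
    intro e
    have h1 : HasFDerivAt (fun u => ((s u : ℝ) : ℂ)) (Complex.ofRealCLM.comp (fderiv ℝ s v)) v :=
      Complex.ofRealCLM.hasFDerivAt.comp v hs.hasFDerivAt
    have h2 := h1.mul hf.hasFDerivAt
    have h3 : HasFDerivAt (fun u => ((s u : ℝ) : ℂ) * f u) _ v := h2
    rw [h3.fderiv]
    simp only [add_apply, smul_apply, smul_eq_mul,
      ContinuousLinearMap.comp_apply, Complex.ofRealCLM_apply]
    ring
  unfold g3 gr
  rw [mul_sum, mul_sum, sum_mul, ← sum_add_distrib]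
  refine sum_le_sum fun d _ => ?_
  rw [hd]
  exact tw_comb _ _ _ _

private theorem tw_ge {θ : E3 → ℝ} (hθ : Cut θ) {q n k : ℕ} {Λ : Set E3}
    {ψ : (Fin n → Fin q) → Cfg n k → ℂ} (hψ : Sm q n k Λ ψ) (x : E3) (σ : Fin n → Fin q)
    (a : Fin n) (p : Cfg n k) :
    ge (mf (fun p => Jc θ x 1 (p.1 a)) ψ σ) a p ≤ 2 * Jc θ x 1 (p.1 a) ^ 2 * ge (ψ σ) a p +
      2 * gr (Jc θ x 1) (p.1 a) * ‖ψ σ p‖ ^ 2 := by
  have h1 := tw_g3 (Jc θ x 1)
    (fun v => ψ σ (Function.update p.1 a v, p.2)) (p.1 a)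
    ((Jc_smooth hθ x 1).differentiable (by simp) _)
    (tw_upE (ψ σ) ((hψ.smooth σ).differentiable (by simp)) p a (p.1 a))
  simp only [Function.update_eq_self] at h1
  have h2 : ge (mf (fun p => Jc θ x 1 (p.1 a)) ψ σ) a p =
      g3 (fun u => ((Jc θ x 1 u : ℝ) : ℂ) * ψ σ (Function.update p.1 a u, p.2)) (p.1 a) := by
    unfold ge mf
    simp only [Function.update_self]
  rw [h2]
  exact h1

private theorem tw_int {n k : ℕ} {g : Cfg n k → ℝ} (hg : Integrable g) (a : Fin n) (y : E3)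
    (r : ℝ) : Integrable (fun p : Cfg n k => if ‖p.1 a - y‖ < r then g p else 0) := by
  have hm : MeasurableSet {p : Cfg n k | ‖p.1 a - y‖ < r} :=
    measurableSet_lt ((meas_e a).sub_const y).norm measurable_const
  refine (hg.indicator hm).congr (Filter.Eventually.of_forall fun p => ?_)
  by_cases hp : ‖p.1 a - y‖ < r
  · simp [hp]
  · simp [hp]

theorem kE_J {θ : E3 → ℝ} (hθ : Cut θ) : ∃ C : ℝ, 0 ≤ C ∧ ∀ (q n k : ℕ) (Λ : Set E3)
    (ψ : (Fin n → Fin q) → Cfg n k → ℂ) (_ : Sm q n k Λ ψ) (v : E3),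
    ∑ a, kE (mf (fun p => Jc θ v 1 (p.1 a)) ψ) a ≤
      2 * TE ψ v 2 + C * mean ψ (fun p => ce p v 2) := by
  obtain ⟨C, hC, hg⟩ := Jc_grad hθ
  refine ⟨2 * C, by positivity, fun q n k Λ ψ hψ v => ?_⟩
  have hsq : ∀ σ, Integrable (fun p => ‖ψ σ p‖ ^ 2) := fun σ =>
    (Sm_sq hψ σ).1.integrable_of_hasCompactSupport (Sm_sq hψ σ).2
  have hpt : ∀ (σ : Fin n → Fin q) (a : Fin n) (p : Cfg n k),
      ge (mf (fun p => Jc θ v 1 (p.1 a)) ψ σ) a p ≤
        2 * (if ‖p.1 a - v‖ < 2 then ge (ψ σ) a p else 0) +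
        2 * C * (if ‖p.1 a - v‖ < 2 then ‖ψ σ p‖ ^ 2 else 0) := by
    intro σ a p
    have h1 := tw_ge hθ hψ v σ a p
    have h2 := hg v 1 one_pos (p.1 a)
    rw [one_pow, inv_one, mul_one, mul_one] at h2
    have h3 := ge_nonneg (ψ σ) a p
    have h4 : 0 ≤ ‖ψ σ p‖ ^ 2 := sq_nonneg _
    by_cases h : ‖p.1 a - v‖ < 2
    · rw [if_pos h, if_pos h]
      rw [if_pos h, mul_one] at h2
      obtain ⟨j1, j2⟩ := Jc_mem hθ v 1 (p.1 a)
      have h5 : Jc θ v 1 (p.1 a) ^ 2 ≤ 1 := pow_le_one₀ j1 j2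
      have h6 : Jc θ v 1 (p.1 a) ^ 2 * ge (ψ σ) a p ≤ 1 * ge (ψ σ) a p :=
        mul_le_mul_of_nonneg_right h5 h3
      have h7 : gr (Jc θ v 1) (p.1 a) * ‖ψ σ p‖ ^ 2 ≤ C * ‖ψ σ p‖ ^ 2 :=
        mul_le_mul_of_nonneg_right h2 h4
      linarith
    · rw [if_neg h, if_neg h]
      rw [if_neg h, mul_zero] at h2
      rw [Jc_zero hθ v 1 one_pos (p.1 a) (by rw [mul_one]; exact not_lt.1 h)] at h1
      have h7 : gr (Jc θ v 1) (p.1 a) * ‖ψ σ p‖ ^ 2 ≤ 0 * ‖ψ σ p‖ ^ 2 :=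
        mul_le_mul_of_nonneg_right h2 h4
      nlinarith
  have hgi : ∀ (σ : Fin n → Fin q) (a : Fin n),
      Integrable (ge (mf (fun p => Jc θ v 1 (p.1 a)) ψ σ) a) := fun σ a =>
    kE_int (mf_sm hψ ((Jc_smooth hθ v 1).comp ((contDiff_apply ℝ E3 a).comp contDiff_fst))) σ a
  have i1 : ∀ (σ : Fin n → Fin q) (a : Fin n),
      Integrable (fun p : Cfg n k => if ‖p.1 a - v‖ < 2 then ge (ψ σ) a p else 0) := fun σ a =>
    tw_int (kE_int hψ σ a) a v 2
  have i2 : ∀ (σ : Fin n → Fin q) (a : Fin n),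
      Integrable (fun p : Cfg n k => if ‖p.1 a - v‖ < 2 then ‖ψ σ p‖ ^ 2 else 0) := fun σ a =>
    tw_int (hsq σ) a v 2
  have hle : ∀ a, kE (mf (fun p => Jc θ v 1 (p.1 a)) ψ) a ≤
      ∑ σ, (2 * (∫ p, if ‖p.1 a - v‖ < 2 then ge (ψ σ) a p else 0) +
        2 * C * ∫ p : Cfg n k, if ‖p.1 a - v‖ < 2 then ‖ψ σ p‖ ^ 2 else 0) := by
    intro a
    unfold kE
    refine sum_le_sum fun σ _ => ?_
    rw [← integral_const_mul, ← integral_const_mul,
      ← integral_add ((i1 σ a).const_mul _) ((i2 σ a).const_mul _)]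
    exact integral_mono (hgi σ a) (((i1 σ a).const_mul _).add ((i2 σ a).const_mul _))
      fun p => hpt σ a p
  have hce : mean ψ (fun p => ce p v 2) =
      ∑ a, ∑ σ, ∫ p : Cfg n k, (if ‖p.1 a - v‖ < 2 then ‖ψ σ p‖ ^ 2 else 0) := by
    unfold mean ce
    rw [sum_comm]
    refine sum_congr rfl fun σ _ => ?_
    rw [← integral_finsetSum _ fun a _ => i2 σ a]
    congr 1
    funext p
    rw [sum_mul]
    refine sum_congr rfl fun a _ => ?_
    split_ifs <;> ring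
  calc ∑ a, kE (mf (fun p => Jc θ v 1 (p.1 a)) ψ) a
      ≤ ∑ a, ∑ σ, (2 * (∫ p, if ‖p.1 a - v‖ < 2 then ge (ψ σ) a p else 0) +
        2 * C * ∫ p : Cfg n k, if ‖p.1 a - v‖ < 2 then ‖ψ σ p‖ ^ 2 else 0) :=
        sum_le_sum fun a _ => hle a
    _ = 2 * TE ψ v 2 + 2 * C * mean ψ (fun p => ce p v 2) := by
        rw [hce]
        unfold TE
        simp only [sum_add_distrib, ← mul_sum]


section

variable {q n k : ℕ} {Λ : Set E3} {ψ : (Fin n → Fin q) → Cfg n k → ℂ}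

private theorem tw_sup {n k : ℕ} (p : Cfg n k) (a : Fin n) :
    0 ≤ iD p (p.1 a) ∧ iD p (p.1 a) ≤ ∑ j, ‖p.1 a - p.2 j‖⁻¹ := by
  unfold iD
  have h0 : ∀ j, 0 ≤ ‖p.1 a - p.2 j‖⁻¹ := fun j => by positivity
  refine ⟨Real.iSup_nonneg h0, ?_⟩
  rcases isEmpty_or_nonempty (Fin k) with he | he
  · rw [Real.iSup_of_isEmpty]
    exact sum_nonneg fun j _ => h0 j
  · exact ciSup_le fun j => single_le_sum (f := fun j => ‖p.1 a - p.2 j‖⁻¹) (fun j _ => h0 j)
      (mem_univ j)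

private theorem tw_supm {n k : ℕ} (a : Fin n) :
    Measurable (fun p : Cfg n k => iD p (p.1 a)) :=
  Measurable.iSup fun j => ((meas_e a).sub (meas_n j)).norm.inv

private theorem tw_im (h : Sm q n k Λ ψ) {C0 : ℝ} {g : E3 → ℝ} (hg : Wt C0 g) :
    IM ψ (fun p => ∑ a, g (p.1 a) * iD p (p.1 a)) := by
  have hgc : ∀ a : Fin n, Continuous (fun p : Cfg n k => g (p.1 a)) := fun a =>
    hg.smooth.continuous.comp ((continuous_apply a).comp continuous_fst)
  have h1 : ∀ (a : Fin n) (j : Fin k), IM ψ (fun p => g (p.1 a) * ‖p.1 a - p.2 j‖⁻¹) := by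
    intro a j σ
    have c1 : Continuous (fun p => g (p.1 a) * ‖ψ σ p‖ ^ 2) := (hgc a).mul (Sm_sq h σ).1
    have c2 : HasCompactSupport (fun p => g (p.1 a) * ‖ψ σ p‖ ^ 2) :=
      (Sm_sq h σ).2.mono fun p hp h0 => hp (by
        have h0' : ‖ψ σ p‖ ^ 2 = 0 := h0
        show g (p.1 a) * ‖ψ σ p‖ ^ 2 = 0
        rw [h0', mul_zero])
    have h2 := int_en (fun p => g (p.1 a) * ‖ψ σ p‖ ^ 2) c1 c2 a j
    refine h2.congr (Filter.Eventually.of_forall fun p => ?_)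
    simp only
    ring
  have h2 : ∀ a : Fin n, IM ψ (fun p => ∑ j, g (p.1 a) * ‖p.1 a - p.2 j‖⁻¹) := fun a =>
    IM.sum (F := fun j p => g (p.1 a) * ‖p.1 a - p.2 j‖⁻¹) univ fun j _ => h1 a j
  have h3 : IM ψ (fun p => ∑ a, ∑ j, g (p.1 a) * ‖p.1 a - p.2 j‖⁻¹) :=
    IM.sum (F := fun a p => ∑ j, g (p.1 a) * ‖p.1 a - p.2 j‖⁻¹) univ fun a _ => h2 a
  refine IM.dom (G := fun p => ∑ a, ∑ j, g (p.1 a) * ‖p.1 a - p.2 j‖⁻¹) ?_ h3 h fun p => ?_
  · exact Finset.measurable_fun_sum _ fun a _ => (hgc a).measurable.mul (tw_supm a)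
  · rw [abs_of_nonneg (sum_nonneg fun a _ => mul_nonneg (hg.pos _).le (tw_sup p a).1)]
    refine sum_le_sum fun a _ => ?_
    rw [← mul_sum]
    exact mul_le_mul_of_nonneg_left (tw_sup p a).2 (hg.pos _).le

private theorem tw_rad (h : Sm q n k Λ ψ) : ∃ R : ℝ, 0 ≤ R ∧ ∀ σ p, ψ σ p ≠ 0 → ∀ a : Fin n, ‖p.1 a‖ ≤ R := by
  have h1 : ∀ σ, ∃ R : ℝ, ∀ p, ψ σ p ≠ 0 → ‖p‖ ≤ R := by
    intro σ
    obtain ⟨R, hR⟩ := (h.cpt σ).isCompact.isBounded.exists_norm_le
    exact ⟨R, fun p hp => hR p (subset_tsupport _ hp)⟩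
  choose R hR using h1
  refine ⟨∑ σ, |R σ|, sum_nonneg fun _ _ => abs_nonneg _, fun σ p hp a => ?_⟩
  calc ‖p.1 a‖ ≤ ‖p.1‖ := norm_le_pi_norm p.1 a
    _ ≤ ‖p‖ := norm_fst_le p
    _ ≤ R σ := hR σ p hp
    _ ≤ |R σ| := le_abs_self _
    _ ≤ ∑ σ, |R σ| := single_le_sum (f := fun σ => |R σ|) (fun _ _ => abs_nonneg _) (mem_univ σ)

/-- the sum of the electrons near `v` -/
private noncomputable def twF {n k : ℕ} (v : E3) (p : Cfg n k) : ℝ :=
  ∑ a, (if ‖p.1 a - v‖ < 1 then iD p (p.1 a) else 0)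

private theorem twF_nonneg {n k : ℕ} (v : E3) (p : Cfg n k) : 0 ≤ twF v p := by
  unfold twF
  refine sum_nonneg fun a _ => ?_
  split_ifs
  · exact (tw_sup p a).1
  · exact le_rfl

private theorem twF_le {n k : ℕ} (v : E3) (p : Cfg n k) : twF v p ≤ ∑ a, ∑ j, ‖p.1 a - p.2 j‖⁻¹ := by
  unfold twF
  refine sum_le_sum fun a _ => ?_
  have h1 := tw_sup p a
  split_ifs
  · exact h1.2
  · exact h1.1.trans h1.2

private theorem twF_meas {n k : ℕ} : Measurable (fun u : Cfg n k × E3 => twF u.2 u.1) := by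
  unfold twF
  refine Finset.measurable_fun_sum _ fun a _ => ?_
  refine Measurable.ite ?_ ((tw_supm a).comp measurable_fst) measurable_const
  exact measurableSet_lt ((((meas_e a).comp measurable_fst)).sub measurable_snd).norm measurable_const

private theorem twF_ip (h : Sm q n k Λ ψ) {c : E3 → ℝ} (hc : Measurable c) (hci : Integrable c)
    (hc0 : ∀ v, 0 ≤ c v) : IP ψ c (fun v p => twF v p) := by
  intro σ
  have h1 : Integrable (fun p : Cfg n k => (∑ a, ∑ j, ‖p.1 a - p.2 j‖⁻¹) * ‖ψ σ p‖ ^ 2) :=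
    (IM.sum _ fun a _ => IM.sum _ fun j _ => IM_en h a j) σ
  have h3 : Integrable (fun u : Cfg n k × E3 =>
      ((∑ a, ∑ j, ‖u.1.1 a - u.1.2 j‖⁻¹) * ‖ψ σ u.1‖ ^ 2) * c u.2) := h1.mul_prod hci
  refine h3.mono' ?_ (Filter.Eventually.of_forall fun u => ?_)
  · exact (((hc.comp measurable_snd).mul twF_meas).mul
      ((Sm_sq h σ).1.measurable.comp measurable_fst)).aestronglyMeasurable
  · rw [Real.norm_of_nonneg (mul_nonneg (mul_nonneg (hc0 _) (twF_nonneg _ _)) (sq_nonneg _))]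
    calc c u.2 * twF u.2 u.1 * ‖ψ σ u.1‖ ^ 2
        ≤ c u.2 * (∑ a, ∑ j, ‖u.1.1 a - u.1.2 j‖⁻¹) * ‖ψ σ u.1‖ ^ 2 :=
          mul_le_mul_of_nonneg_right (mul_le_mul_of_nonneg_left (twF_le _ _) (hc0 _)) (sq_nonneg _)
      _ = ((∑ a, ∑ j, ‖u.1.1 a - u.1.2 j‖⁻¹) * ‖ψ σ u.1‖ ^ 2) * c u.2 := by ring

private theorem tw_low {C0 : ℝ} {g : E3 → ℝ} (hg : Wt C0 g) (R : ℝ)
    (p : Cfg n k) (hp : ∀ a, ‖p.1 a‖ ≤ R) :
    (volume : Measure E3).real (Metric.ball (0 : E3) 1) * (∑ a, g (p.1 a) * iD p (p.1 a)) ≤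
      C0 * ∫ v, (Metric.ball (0 : E3) (R + 1)).indicator g v * twF v p := by
  have hC0 : 1 ≤ C0 := by
    have h1 := hg.har 0 0 (by simp)
    have h2 := hg.pos 0
    nlinarith
  have hb : ∀ a, Metric.ball (p.1 a) 1 ⊆ Metric.ball (0 : E3) (R + 1) := by
    intro a v hv
    rw [Metric.mem_ball, dist_eq_norm] at hv
    rw [mem_ball_zero_iff]
    have h1 : ‖v‖ ≤ ‖v - p.1 a‖ + ‖p.1 a‖ := by
      have := norm_add_le (v - p.1 a) (p.1 a)
      rwa [sub_add_cancel] at this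
    linarith [hp a]
  have hvol : ∀ a, (volume : Measure E3).real (Metric.ball (p.1 a) 1) =
      (volume : Measure E3).real (Metric.ball (0 : E3) 1) := by
    intro a
    unfold Measure.real
    rw [Measure.addHaar_ball_center]
  have hgi : ∀ a, IntegrableOn g (Metric.ball (p.1 a) 1) := by
    intro a
    exact (hg.smooth.continuous.continuousOn.integrableOn_compact
      (isCompact_closedBall (p.1 a) 1)).mono_set Metric.ball_subset_closedBall
  have e1 : ∀ v, (Metric.ball (0 : E3) (R + 1)).indicator g v * twF v p =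
      ∑ a, iD p (p.1 a) * (Metric.ball (p.1 a) 1).indicator g v := by
    intro v
    unfold twF
    rw [mul_sum]
    refine sum_congr rfl fun a _ => ?_
    by_cases hv : v ∈ Metric.ball (p.1 a) 1
    · rw [Set.indicator_of_mem (hb a hv), Set.indicator_of_mem hv]
      rw [Metric.mem_ball, dist_comm, dist_eq_norm] at hv
      rw [if_pos hv, mul_comm]
    · rw [Set.indicator_of_notMem hv]
      rw [Metric.mem_ball, dist_comm, dist_eq_norm] at hv
      rw [if_neg hv, mul_zero, mul_zero]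
  have hi : ∀ a, Integrable (fun v => iD p (p.1 a) * (Metric.ball (p.1 a) 1).indicator g v) :=
    fun a => ((integrable_indicator_iff measurableSet_ball).2 (hgi a)).const_mul _
  simp only [e1]
  rw [integral_finsetSum _ fun a _ => hi a, mul_sum, mul_sum]
  refine sum_le_sum fun a _ => ?_
  rw [integral_const_mul, integral_indicator measurableSet_ball]
  have h1 : (volume : Measure E3).real (Metric.ball (0 : E3) 1) * g (p.1 a) ≤
      C0 * ∫ v in Metric.ball (p.1 a) 1, g v := by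
    have h2 : ∫ v in Metric.ball (p.1 a) 1, g (p.1 a) ≤ ∫ v in Metric.ball (p.1 a) 1, C0 * g v := by
      refine setIntegral_mono_on (integrableOn_const (hs := measure_ball_lt_top.ne))
        ((hgi a).const_mul C0) measurableSet_ball fun v hv => ?_
      refine hg.har _ _ ?_
      rw [Metric.mem_ball, dist_comm, dist_eq_norm] at hv
      linarith
    rw [setIntegral_const, integral_const_mul, smul_eq_mul, hvol a] at h2
    exact h2
  calc (volume : Measure E3).real (Metric.ball (0 : E3) 1) * (g (p.1 a) * iD p (p.1 a))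
      = iD p (p.1 a) * ((volume : Measure E3).real (Metric.ball (0 : E3) 1) * g (p.1 a)) := by ring
    _ ≤ iD p (p.1 a) * (C0 * ∫ v in Metric.ball (p.1 a) 1, g v) :=
        mul_le_mul_of_nonneg_left h1 (tw_sup p a).1
    _ = C0 * (iD p (p.1 a) * ∫ v in Metric.ball (p.1 a) 1, g v) := by ring

private theorem tw_int4 {f1 f2 f3 f4 : E3 → ℝ} (h1 : Integrable f1) (h2 : Integrable f2)
    (h3 : Integrable f3) (h4 : Integrable f4) :
    ∫ v, (f1 v + (f2 v + (f3 v + f4 v))) = (∫ v, f1 v) + ((∫ v, f2 v) + ((∫ v, f3 v) + ∫ v, f4 v)) := by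
  have e3 : Integrable (fun v => f3 v + f4 v) := h3.add h4
  have e2 : Integrable (fun v => f2 v + (f3 v + f4 v)) := h2.add e3
  rw [integral_add h1 e2, integral_add h2 e3, integral_add h3 h4]

/-- Tonelli -/
private theorem tw_ton (h : Sm q n k Λ ψ) {C0 : ℝ} {g : E3 → ℝ} (hg : Wt C0 g) {H : E3 → ℝ}
    (hH : Integrable (fun v => g v * H v)) (hle : ∀ v, mean ψ (fun p => twF v p) ≤ H v) :
    (volume : Measure E3).real (Metric.ball (0 : E3) 1) *
      mean ψ (fun p => ∑ a, g (p.1 a) * iD p (p.1 a)) ≤ C0 * ∫ v, g v * H v := by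
  obtain ⟨R, hR0, hR⟩ := tw_rad h
  have hC0 : 1 ≤ C0 := by
    have h1 := hg.har 0 0 (by simp)
    have h2 := hg.pos 0
    nlinarith
  obtain ⟨c, hc⟩ : ∃ c : E3 → ℝ, c = (Metric.ball (0 : E3) (R + 1)).indicator g := ⟨_, rfl⟩
  have hcm : Measurable c := by
    rw [hc]
    exact hg.smooth.continuous.measurable.indicator measurableSet_ball
  have hci : Integrable c := by
    rw [hc, integrable_indicator_iff measurableSet_ball]
    exact (hg.smooth.continuous.continuousOn.integrableOn_compact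
      (isCompact_closedBall (0 : E3) (R + 1))).mono_set Metric.ball_subset_closedBall
  have hc0 : ∀ v, 0 ≤ c v := by
    intro v
    rw [hc]
    exact Set.indicator_nonneg (fun v _ => (hg.pos v).le) v
  have hcg : ∀ v, c v ≤ g v := by
    intro v
    rw [hc]
    exact Set.indicator_le_self' (fun v _ => (hg.pos v).le) v
  obtain ⟨f1, f2, f3⟩ := mean_fub (twF_ip h hcm hci hc0)
  have h1 : mean ψ (fun p => (volume : Measure E3).real (Metric.ball (0 : E3) 1) *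
      ∑ a, g (p.1 a) * iD p (p.1 a)) ≤ mean ψ (fun p => C0 * ∫ v, c v * twF v p) := by
    refine mean_mono ((tw_im h hg).cmul _) (f2.cmul _) fun σ p hp => ?_
    rw [hc]
    exact tw_low hg R p (hR σ p hp)
  rw [mean_cmul, mean_cmul, ← f3] at h1
  refine h1.trans (mul_le_mul_of_nonneg_left ?_ (by linarith))
  refine integral_mono f1 hH fun v => ?_
  have hm : 0 ≤ mean ψ (fun p => twF v p) := mean_nonneg fun σ p _ => twF_nonneg v p
  exact mul_le_mul (hcg v) (hle v) hm (hg.pos v).le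

end

theorem tstw (q : ℕ) (C0 K : ℝ) (hK : 0 ≤ K) : ∃ C : ℝ, 0 ≤ C ∧
    ∀ (n k : ℕ) (Λ : Set E3) (Φ : (Fin n → Fin q) → Cfg n k → ℂ) (_ : St q n k Λ Φ)
    (g : E3 → ℝ) (_ : Wt C0 g),
    IM Φ (fun p => ∑ a, g (p.1 a) * iD p (p.1 a)) ∧
    K * mean Φ (fun p => ∑ a, g (p.1 a) * iD p (p.1 a)) ≤
      TGs g Φ + C * (mean Φ (fun p => ∑ a, g (p.1 a)) + mean Φ (fun p => ∑ j, g (p.2 j))) := by
  obtain ⟨θ, hθ⟩ := cut_ex
  obtain ⟨Ct, hCt, hte⟩ := w_te C0 2 (by norm_num) (by norm_num)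
  obtain ⟨C2, hC2, hce2⟩ := w_ce C0 2 (by norm_num) (by norm_num)
  obtain ⟨C4, hC4, hce4⟩ := w_ce C0 4 (by norm_num) (by norm_num)
  obtain ⟨CJ, hCJ, hJ⟩ := kE_J hθ
  obtain ⟨κ, hκ⟩ : ∃ κ : ℝ, κ = (volume : Measure E3).real (Metric.ball (0 : E3) 1) := ⟨_, rfl⟩
  have hκ0 : 0 < κ := by
    rw [hκ]
    exact ENNReal.toReal_pos (Metric.measure_ball_pos _ _ one_pos).ne' measure_ball_lt_top.ne
  obtain ⟨K', hK'⟩ : ∃ K' : ℝ, K' = K * |C0| * (Ct + 1) / κ := ⟨_, rfl⟩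
  have hK'0 : 0 ≤ K' := by
    rw [hK']
    positivity
  obtain ⟨Cs, hCs, hst⟩ := tst q K' hK'0 hθ
  refine ⟨CJ * C2 + 2 * Cs * C4, by positivity, fun n k Λ Φ hΦ g hg => ?_⟩
  have hsm := St_sm hΦ
  refine ⟨tw_im hsm hg, ?_⟩
  have hC0 : 1 ≤ C0 := by
    have h1 := hg.har 0 0 (by simp)
    have h2 := hg.pos 0
    nlinarith
  obtain ⟨t1, t2⟩ := hte q n k Λ Φ hsm g hg
  obtain ⟨a1, -, a3, -, -⟩ := hce2 q n k Λ Φ hsm g hg
  obtain ⟨b1, b2, b3, b4, -⟩ := hce4 q n k Λ Φ hsm g hg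
  -- the bound for every `v`
  have hv : ∀ v, K' * mean Φ (fun p => twF v p) ≤ (TE Φ v 2 + TN Φ v 2) +
      (CJ * mean Φ (fun p => ce p v 2) + (Cs * mean Φ (fun p => ce p v 4) +
        Cs * mean Φ (fun p => cn p v 4))) := by
    intro v
    obtain ⟨s1, s2⟩ := hst n k Λ Φ hΦ v
    have h1 : mean Φ (fun p => twF v p) ≤
        mean Φ (fun p => ∑ a, Jc θ v 1 (p.1 a) ^ 2 * (⨆ j, ‖p.1 a - p.2 j‖⁻¹)) := by
      refine mean_mono0 (fun p => twF_nonneg v p) s1 fun σ p _ => ?_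
      unfold twF
      refine sum_le_sum fun a _ => ?_
      have h2 := (tw_sup p a).1
      unfold iD at h2 ⊢
      split_ifs with h3
      · rw [Jc_one hθ v 1 one_pos _ h3.le, one_pow, one_mul]
      · exact mul_nonneg (sq_nonneg _) h2
    have h2 := mul_le_mul_of_nonneg_left h1 hK'0
    have h3 := hJ q n k Λ Φ hsm v
    rw [mean_add (IM_ce hsm v 4) (IM_cn hsm v 4), mul_add] at s2
    have h4 : 0 ≤ TN Φ v 2 := by
      unfold TN
      refine sum_nonneg fun j _ => sum_nonneg fun σ _ => integral_nonneg fun p => ?_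
      show (0 : ℝ) ≤ if ‖p.2 j - v‖ < 2 then gn (Φ σ) j p else 0
      split_ifs
      · exact gn_nonneg _ _ _
      · exact le_rfl
    have h5 : 0 ≤ mean Φ (fun p => ce p v 2) := mean_nonneg fun σ p _ => ce_nonneg _ _ _
    have h6 : 0 ≤ CJ * mean Φ (fun p => ce p v 2) := mul_nonneg hCJ h5
    linarith
  by_cases hK'p : K' = 0
  · -- then `K = 0`
    have hK0 : K = 0 := by
      rw [hK'] at hK'p
      have h1 : (0 : ℝ) < |C0| * (Ct + 1) / κ := by positivity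
      have h2 : K * (|C0| * (Ct + 1) / κ) = 0 := by
        rw [← hK'p]
        ring
      rcases mul_eq_zero.1 h2 with h | h
      · exact h
      · exact absurd h h1.ne'
    rw [hK0, zero_mul]
    have h1 := TGs_nonneg hg Φ
    have h2 : 0 ≤ mean Φ (fun p => ∑ a, g (p.1 a)) :=
      mean_nonneg fun σ p _ => sum_nonneg fun a _ => (hg.pos _).le
    have h3 : 0 ≤ mean Φ (fun p => ∑ j, g (p.2 j)) :=
      mean_nonneg fun σ p _ => sum_nonneg fun a _ => (hg.pos _).le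
    positivity
  · have hK'1 : 0 < K' := lt_of_le_of_ne hK'0 (Ne.symm hK'p)
    have i1 : Integrable (fun v => g v * (CJ * mean Φ (fun p => ce p v 2))) := by
      refine (a1.const_mul CJ).congr (Filter.Eventually.of_forall fun v => ?_)
      simp only
      ring
    have i2 : Integrable (fun v => g v * (Cs * mean Φ (fun p => ce p v 4))) := by
      refine (b1.const_mul Cs).congr (Filter.Eventually.of_forall fun v => ?_)
      simp only
      ring
    have i3 : Integrable (fun v => g v * (Cs * mean Φ (fun p => cn p v 4))) := by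
      refine (b2.const_mul Cs).congr (Filter.Eventually.of_forall fun v => ?_)
      simp only
      ring
    obtain ⟨H, hH⟩ : ∃ H : E3 → ℝ, H = fun v => (TE Φ v 2 + TN Φ v 2) +
      (CJ * mean Φ (fun p => ce p v 2) + (Cs * mean Φ (fun p => ce p v 4) +
        Cs * mean Φ (fun p => cn p v 4))) := ⟨_, rfl⟩
    have eH : (fun v => g v * H v) = fun v => g v * (TE Φ v 2 + TN Φ v 2) +
        (g v * (CJ * mean Φ (fun p => ce p v 2)) + (g v * (Cs * mean Φ (fun p => ce p v 4)) +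
          g v * (Cs * mean Φ (fun p => cn p v 4)))) := by
      funext v
      rw [hH]
      ring
    have hHi : Integrable (fun v => g v * H v) := by
      rw [eH]
      exact t1.add (i1.add (i2.add i3))
    have hHI : ∫ v, g v * H v ≤ Ct * TGs g Φ + (CJ * (C2 * mean Φ (fun p => ∑ a, g (p.1 a))) +
        (Cs * (C4 * mean Φ (fun p => ∑ a, g (p.1 a))) + Cs * (C4 * mean Φ (fun p => ∑ j, g (p.2 j))))) := by
      have e2 : ∫ v, g v * H v = (∫ v, g v * (TE Φ v 2 + TN Φ v 2)) +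
          (CJ * (∫ v, g v * mean Φ (fun p => ce p v 2)) + (Cs * (∫ v, g v * mean Φ (fun p => ce p v 4)) +
          Cs * ∫ v, g v * mean Φ (fun p => cn p v 4))) := by
        rw [eH, tw_int4 t1 i1 i2 i3, ← integral_const_mul, ← integral_const_mul,
          ← integral_const_mul]
        congr 1
        congr 1
        · congr 1
          funext v
          ring
        · congr 1
          · congr 1
            funext v
            ring
          · congr 1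
            funext v
            ring
      rw [e2]
      exact add_le_add t2 (add_le_add (mul_le_mul_of_nonneg_left a3 hCJ)
        (add_le_add (mul_le_mul_of_nonneg_left b3 hCs) (mul_le_mul_of_nonneg_left b4 hCs)))
    have hton := tw_ton hsm hg (H := fun v => K'⁻¹ * H v) (by
        refine (hHi.const_mul K'⁻¹).congr (Filter.Eventually.of_forall fun v => ?_)
        simp only
        ring) (fun v => by
        rw [hH, ← div_eq_inv_mul, le_div_iff₀ hK'1]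
        have := hv v
        linarith)
    have e3 : ∫ v, g v * (K'⁻¹ * H v) = K'⁻¹ * ∫ v, g v * H v := by
      rw [← integral_const_mul]
      congr 1
      funext v
      ring
    rw [e3, ← hκ] at hton
    obtain ⟨I, hI⟩ : ∃ I : ℝ, I = ∫ v, g v * H v := ⟨_, rfl⟩
    obtain ⟨X, hX⟩ : ∃ X : ℝ, X = mean Φ (fun p => ∑ a, g (p.1 a) * iD p (p.1 a)) := ⟨_, rfl⟩
    obtain ⟨T, hT⟩ : ∃ T : ℝ, T = TGs g Φ := ⟨_, rfl⟩
    obtain ⟨m1, hm1⟩ : ∃ m1 : ℝ, m1 = mean Φ (fun p => ∑ a, g (p.1 a)) := ⟨_, rfl⟩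
    obtain ⟨m2, hm2⟩ : ∃ m2 : ℝ, m2 = mean Φ (fun p => ∑ j, g (p.2 j)) := ⟨_, rfl⟩
    have hT0 : 0 ≤ T := by
      rw [hT]
      exact TGs_nonneg hg Φ
    have hm10 : 0 ≤ m1 := by
      rw [hm1]
      exact mean_nonneg fun σ p _ => sum_nonneg fun a _ => (hg.pos _).le
    have hm20 : 0 ≤ m2 := by
      rw [hm2]
      exact mean_nonneg fun σ p _ => sum_nonneg fun a _ => (hg.pos _).le
    rw [← hI, ← hX] at hton
    rw [← hI, ← hT, ← hm1, ← hm2] at hHI
    rw [← hX, ← hT, ← hm1, ← hm2]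
    -- `κ X ≤ C0 I / K'`, `K' = K C0 (Ct + 1) / κ`
    have h1 : K * (Ct + 1) * X ≤ I := by
      have h2 : K' * (κ * X) ≤ C0 * I := by
        calc K' * (κ * X) ≤ K' * (C0 * (K'⁻¹ * I)) := mul_le_mul_of_nonneg_left hton hK'0
          _ = (K' * K'⁻¹) * (C0 * I) := by ring
          _ = C0 * I := by rw [mul_inv_cancel₀ hK'1.ne', one_mul]
      have h3 : K' * (κ * X) = C0 * (K * (Ct + 1) * X) := by
        rw [hK', abs_of_nonneg (by linarith)]
        field_simp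
      rw [h3] at h2
      exact le_of_mul_le_mul_left h2 (by linarith)
    have h4 : (Ct + 1) * (K * X) ≤ (Ct + 1) * (T + (CJ * C2 + 2 * Cs * C4) * (m1 + m2)) := by
      have h5 : 0 ≤ CJ * C2 * m2 := by positivity
      have h6 : 0 ≤ Cs * C4 * m1 := by positivity
      have h7 : 0 ≤ Cs * C4 * m2 := by positivity
      have h8 : 0 ≤ Ct * ((CJ * C2 + 2 * Cs * C4) * (m1 + m2)) := by positivity
      have e4 : (Ct + 1) * (T + (CJ * C2 + 2 * Cs * C4) * (m1 + m2)) =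
        Ct * T + T + Ct * ((CJ * C2 + 2 * Cs * C4) * (m1 + m2)) + (CJ * C2 * m1 + CJ * C2 * m2 +
          2 * (Cs * C4 * m1) + 2 * (Cs * C4 * m2)) := by ring
      rw [e4]
      have e5 : (Ct + 1) * (K * X) = K * (Ct + 1) * X := by ring
      have e6 : CJ * (C2 * m1) = CJ * C2 * m1 := by ring
      have e7 : Cs * (C4 * m1) = Cs * C4 * m1 := by ring
      have e8 : Cs * (C4 * m2) = Cs * C4 * m2 := by ring
      rw [e6, e7, e8] at hHI
      rw [e5]
      linarith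
    exact le_of_mul_le_mul_left h4 (by linarith)

end H6.CX
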