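import Pool.Agent.H6.CX.Defs
import Pool.Agent.H6.CB.FCov

/-! Weighted sums and weighted integrals. For `‖x - v‖ < R ≤ 8` one has `g v ≤ C0 g x` and `g x ≤ C0 g v`, so `∫ v, g v * 1[‖x - v‖ < R]` is between `C0⁻¹ g x` and `C0 g x` times the volume of the ball of radius `R`. `w_te`: `∫ v, g v * TE ψ v R = ∑ a, ∑ σ, ∫ p, ge (ψ σ) a p * ∫ v, g v * 1[‖p.1 a - v‖ < R]` (Tonelli; `ge` is continuous with compact support (`kE_int`), all `v` that matter lie in a bounded set, so everything is integrable), the same for the nuclei. `w_ce`: the same with `‖ψ σ p‖ ^ 2` (`mean`). `te_w`: `1[‖p.1 a - y‖ < 1] ≤ C0 g (p.1 a) / g y` under the integral. `w_c1`: pointwise version for `ce`, `cn`. -/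

open MeasureTheory Finset

namespace H6.CX

open H6.CM H6.CB H6.CL H6.CT

private theorem ws_one {C0 : ℝ} {g : E3 → ℝ} (hg : Wt C0 g) : 1 ≤ C0 := by
  have h1 := hg.har 0 0 (by simp)
  have h2 := hg.pos 0
  by_contra h
  push Not at h
  nlinarith

private theorem ws_ge (q n k : ℕ) {Λ : Set E3} {ψ : (Fin n → Fin q) → Cfg n k → ℂ}
    (h : Sm q n k Λ ψ) (σ : Fin n → Fin q) (a : Fin n) :
    Continuous (ge (ψ σ) a) ∧ HasCompactSupport (ge (ψ σ) a) :=
  ⟨ge_cont (ψ σ) ((h.smooth σ).of_le (by exact_mod_cast le_top)) a,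
    ge_cpt (ψ σ) ((h.smooth σ).of_le (by exact_mod_cast le_top)) (h.cpt σ) a⟩

private theorem ws_gn (q n k : ℕ) {Λ : Set E3} {ψ : (Fin n → Fin q) → Cfg n k → ℂ}
    (h : Sm q n k Λ ψ) (σ : Fin n → Fin q) (j : Fin k) :
    Continuous (gn (ψ σ) j) ∧ HasCompactSupport (gn (ψ σ) j) :=
  ⟨gn_cont (ψ σ) ((h.smooth σ).of_le (by exact_mod_cast le_top)) j,
    gn_cpt (ψ σ) ((h.smooth σ).of_le (by exact_mod_cast le_top)) (h.cpt σ) j⟩

private theorem ws_ce {n k : ℕ} (a : Fin n) : Continuous (fun p : Cfg n k => p.1 a) :=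
  (continuous_apply a).comp continuous_fst

private theorem ws_cn {n k : ℕ} (j : Fin k) : Continuous (fun p : Cfg n k => p.2 j) :=
  (continuous_apply j).comp continuous_snd

/-- the volume of the balls -/
private theorem ws_vol (R : ℝ) (hR : 0 < R) (x : E3) :
    (volume : Measure E3).real (Metric.ball x R) = (volume : Measure E3).real (Metric.ball 0 R) ∧
    0 < (volume : Measure E3).real (Metric.ball 0 R) := by
  constructor
  · unfold Measure.real
    rw [Measure.addHaar_ball_center]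
  · unfold Measure.real
    exact ENNReal.toReal_pos (Metric.measure_ball_pos _ _ hR).ne' measure_ball_lt_top.ne

section key

variable {C0 : ℝ} {g : E3 → ℝ} (hg : Wt C0 g) {n k : ℕ} {F : Cfg n k → ℝ} (hF : Continuous F)
  (hc : HasCompactSupport F) (h0 : ∀ p, 0 ≤ F p) {y : Cfg n k → E3} (hy : Continuous y)

include hF hc

private theorem ws_iF {f : Cfg n k → E3} (hf : Continuous f) (v : E3) (r : ℝ) :
    Integrable (fun p => if ‖f p - v‖ < r then F p else 0) := by
  have hm : MeasurableSet {p | ‖f p - v‖ < r} :=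
    measurableSet_lt (hf.measurable.sub_const v).norm measurable_const
  refine ((hF.integrable_of_hasCompactSupport hc).indicator hm).congr
    (Filter.Eventually.of_forall fun p => ?_)
  by_cases hp : ‖f p - v‖ < r
  · simp [hp]
  · simp [hp]

include hg hy

private theorem ws_gF : Integrable (fun p => g (y p) * F p) :=
  ((hg.smooth.continuous.comp hy).mul hF).integrable_of_hasCompactSupport
    (HasCompactSupport.mul_left hc)

include h0

private theorem ws_pt (v : E3) (R : ℝ) (hR : R ≤ 8) :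
    g v * ∫ p, (if ‖y p - v‖ < R then F p else 0) ≤ C0 * ∫ p, g (y p) * F p := by
  rw [← integral_const_mul, ← integral_const_mul]
  refine integral_mono ((ws_iF hF hc hy v R).const_mul _) ((ws_gF hg hF hc hy).const_mul _)
    fun p => ?_
  beta_reduce
  split_ifs with h
  · have h1 : g v ≤ C0 * g (y p) := hg.har _ _ (by
      rw [norm_sub_rev]
      linarith)
    calc g v * F p ≤ (C0 * g (y p)) * F p := mul_le_mul_of_nonneg_right h1 (h0 p)
      _ = C0 * (g (y p) * F p) := by ring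
  · rw [mul_zero]
    exact mul_nonneg (by linarith [ws_one hg]) (mul_nonneg (hg.pos _).le (h0 p))

private theorem ws_key (R : ℝ) (hR : 0 < R) (hR8 : R ≤ 8) :
    Integrable (fun v => g v * ∫ p, (if ‖y p - v‖ < R then F p else 0)) ∧
    ∫ v, g v * ∫ p, (if ‖y p - v‖ < R then F p else 0) ≤
      C0 * (volume : Measure E3).real (Metric.ball 0 R) * ∫ p, g (y p) * F p ∧
    (volume : Measure E3).real (Metric.ball 0 R) * ∫ p, g (y p) * F p ≤
      C0 * ∫ v, g v * ∫ p, (if ‖y p - v‖ < R then F p else 0) := by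
  obtain ⟨V, hV⟩ : ∃ V, V = (volume : Measure E3).real (Metric.ball 0 R) := ⟨_, rfl⟩
  have hV0 : 0 < V := by rw [hV]; exact (ws_vol R hR 0).2
  have hVx : ∀ x : E3, (volume : Measure E3).real (Metric.ball x R) = V := fun x => by
    rw [hV]; exact (ws_vol R hR x).1
  rw [← hV]
  have hC1 := ws_one hg
  have hgc := hg.smooth.continuous
  obtain ⟨H, hH⟩ : ∃ H : Cfg n k × E3 → ℝ,
      H = fun u => g u.2 * (if ‖y u.1 - u.2‖ < R then F u.1 else 0) := ⟨_, rfl⟩
  have hHm : Measurable H := by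
    rw [hH]
    refine (hgc.measurable.comp measurable_snd).mul (Measurable.ite ?_
      (hF.measurable.comp measurable_fst) measurable_const)
    exact measurableSet_lt ((hy.measurable.comp measurable_fst).sub measurable_snd).norm
      measurable_const
  have hslice : ∀ p, (fun v => H (p, v)) = (Metric.ball (y p) R).indicator (fun v => g v * F p) := by
    intro p
    funext v
    rw [hH]
    simp only
    by_cases hv : ‖y p - v‖ < R
    · rw [if_pos hv, Set.indicator_of_mem]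
      rw [Metric.mem_ball, dist_comm, dist_eq_norm]
      exact hv
    · rw [if_neg hv, Set.indicator_of_notMem, mul_zero]
      rw [Metric.mem_ball, dist_comm, dist_eq_norm]
      exact hv
  have hgb : ∀ p, IntegrableOn (fun v => g v * F p) (Metric.ball (y p) R) := fun p =>
    ((hgc.mul continuous_const).continuousOn.integrableOn_compact
      (isCompact_closedBall (y p) R)).mono_set Metric.ball_subset_closedBall
  have hsI : ∀ p, Integrable (fun v => H (p, v)) := by
    intro p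
    rw [hslice p]
    exact (integrable_indicator_iff measurableSet_ball).2 (hgb p)
  have hH0 : ∀ u, 0 ≤ H u := by
    intro u
    rw [hH]
    refine mul_nonneg (hg.pos _).le ?_
    split_ifs
    · exact h0 _
    · exact le_rfl
  have hval : ∀ p, ∫ v, H (p, v) = ∫ v in Metric.ball (y p) R, g v * F p := by
    intro p
    rw [hslice p, integral_indicator measurableSet_ball]
  have hcI : ∀ (p : Cfg n k) (c : ℝ), ∫ _ in Metric.ball (y p) R, c = V * c := by
    intro p c
    rw [setIntegral_const, hVx, smul_eq_mul]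
  have hup : ∀ p, ∫ v, H (p, v) ≤ C0 * V * (g (y p) * F p) := by
    intro p
    rw [hval p]
    calc ∫ v in Metric.ball (y p) R, g v * F p ≤ ∫ _ in Metric.ball (y p) R, C0 * (g (y p) * F p) := by
          refine setIntegral_mono_on (hgb p) (integrableOn_const measure_ball_lt_top.ne)
            measurableSet_ball fun v hv => ?_
          rw [Metric.mem_ball, dist_eq_norm] at hv
          have h1 : g v ≤ C0 * g (y p) := hg.har _ _ (by linarith)
          calc g v * F p ≤ (C0 * g (y p)) * F p := mul_le_mul_of_nonneg_right h1 (h0 p)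
            _ = C0 * (g (y p) * F p) := by ring
      _ = C0 * V * (g (y p) * F p) := by rw [hcI]; ring
  have hlo : ∀ p, V * (g (y p) * F p) ≤ C0 * ∫ v, H (p, v) := by
    intro p
    rw [hval p, ← integral_const_mul, ← hcI p]
    refine setIntegral_mono_on (integrableOn_const measure_ball_lt_top.ne) ((hgb p).const_mul _)
      measurableSet_ball fun v hv => ?_
    rw [Metric.mem_ball, dist_comm, dist_eq_norm] at hv
    have h1 : g (y p) ≤ C0 * g v := hg.har _ _ (by linarith)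
    calc g (y p) * F p ≤ (C0 * g v) * F p := mul_le_mul_of_nonneg_right h1 (h0 p)
      _ = C0 * (g v * F p) := by ring
  have hHI : Integrable H (volume.prod volume) := by
    rw [integrable_prod_iff hHm.aestronglyMeasurable]
    refine ⟨Filter.Eventually.of_forall fun p => hsI p, ?_⟩
    refine (((ws_gF hg hF hc hy).const_mul (C0 * V))).mono'
      (hHm.norm.aestronglyMeasurable.integral_prod_right') (Filter.Eventually.of_forall fun p => ?_)
    have h1 : ∀ v, ‖H (p, v)‖ = H (p, v) := fun v => Real.norm_of_nonneg (hH0 _)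
    simp only [h1]
    rw [Real.norm_of_nonneg (integral_nonneg fun v => hH0 _)]
    exact hup p
  have hHv : ∀ v, g v * ∫ p, (if ‖y p - v‖ < R then F p else 0) = ∫ p, H (p, v) := by
    intro v
    rw [← integral_const_mul, hH]
  simp only [hHv]
  have hsw : ∫ v, ∫ p, H (p, v) = ∫ p, ∫ v, H (p, v) :=
    (integral_integral_swap (f := fun p v => H (p, v)) hHI).symm
  rw [hsw]
  have hLI : Integrable (fun p => ∫ v, H (p, v)) := hHI.integral_prod_left
  refine ⟨hHI.integral_prod_right, ?_, ?_⟩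
  · rw [← integral_const_mul]
    exact integral_mono hLI ((ws_gF hg hF hc hy).const_mul _) hup
  · rw [← integral_const_mul, ← integral_const_mul]
    exact integral_mono ((ws_gF hg hF hc hy).const_mul _) (hLI.const_mul _) hlo

end key

theorem TGs_nonneg {C0 : ℝ} {g : E3 → ℝ} (hg : Wt C0 g) {q n k : ℕ}
    (ψ : (Fin n → Fin q) → Cfg n k → ℂ) : 0 ≤ TGs g ψ := by
  unfold TGs
  refine add_nonneg ?_ ?_
  · exact sum_nonneg fun a _ => sum_nonneg fun σ _ => integral_nonneg fun p =>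
      mul_nonneg (hg.pos _).le (ge_nonneg _ _ _)
  · exact sum_nonneg fun j _ => sum_nonneg fun σ _ => integral_nonneg fun p =>
      mul_nonneg (hg.pos _).le (gn_nonneg _ _ _)

theorem IM_ge {C0 : ℝ} {g : E3 → ℝ} (hg : Wt C0 g) {q n k : ℕ} {Λ : Set E3}
    {ψ : (Fin n → Fin q) → Cfg n k → ℂ} (h : Sm q n k Λ ψ) :
    IM ψ (fun p => ∑ a, g (p.1 a)) ∧ IM ψ (fun p => ∑ j, g (p.2 j)) :=
  ⟨IM.cont h (continuous_finsetSum _ fun a _ => hg.smooth.continuous.comp (ws_ce a)),
    IM.cont h (continuous_finsetSum _ fun j _ => hg.smooth.continuous.comp (ws_cn j))⟩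

theorem w_te (C0 R : ℝ) (hR : 0 < R) (hR8 : R ≤ 8) : ∃ C : ℝ, 0 ≤ C ∧
    ∀ (q n k : ℕ) (Λ : Set E3) (ψ : (Fin n → Fin q) → Cfg n k → ℂ) (_ : Sm q n k Λ ψ)
    (g : E3 → ℝ) (_ : Wt C0 g),
    Integrable (fun v => g v * (TE ψ v R + TN ψ v R)) ∧
    ∫ v, g v * (TE ψ v R + TN ψ v R) ≤ C * TGs g ψ := by
  obtain ⟨V, hV⟩ : ∃ V, V = (volume : Measure E3).real (Metric.ball 0 R) := ⟨_, rfl⟩
  have hV0 : 0 < V := by rw [hV]; exact (ws_vol R hR 0).2
  refine ⟨|C0| * V, by positivity, ?_⟩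
  intro q n k Λ ψ h g hg
  have hC0 : |C0| = C0 := abs_of_nonneg (by linarith [ws_one hg])
  rw [hC0]
  have e1 : ∀ v, g v * (TE ψ v R + TN ψ v R) =
      (∑ a, ∑ σ, g v * ∫ p, (if ‖p.1 a - v‖ < R then ge (ψ σ) a p else 0)) +
      ∑ j, ∑ σ, g v * ∫ p, (if ‖p.2 j - v‖ < R then gn (ψ σ) j p else 0) := by
    intro v
    unfold TE TN
    rw [mul_add, mul_sum, mul_sum]
    simp only [mul_sum]
  simp only [e1]
  have kE := fun (a : Fin n) (σ : Fin n → Fin q) => ws_key hg (ws_ge q n k h σ a).1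
    (ws_ge q n k h σ a).2 (fun p => ge_nonneg _ _ _) (ws_ce (k := k) a) R hR hR8
  have kN := fun (j : Fin k) (σ : Fin n → Fin q) => ws_key hg (ws_gn q n k h σ j).1
    (ws_gn q n k h σ j).2 (fun p => gn_nonneg _ _ _) (ws_cn (n := n) j) R hR hR8
  have iE : ∀ a, Integrable (fun v => ∑ σ, g v *
      ∫ p, (if ‖p.1 a - v‖ < R then ge (ψ σ) a p else 0)) := fun a =>
    integrable_finsetSum _ fun σ _ => (kE a σ).1
  have iN : ∀ j, Integrable (fun v => ∑ σ, g v *
      ∫ p, (if ‖p.2 j - v‖ < R then gn (ψ σ) j p else 0)) := fun j =>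
    integrable_finsetSum _ fun σ _ => (kN j σ).1
  refine ⟨(integrable_finsetSum _ fun a _ => iE a).add (integrable_finsetSum _ fun j _ => iN j), ?_⟩
  rw [integral_add (integrable_finsetSum _ fun a _ => iE a)
    (integrable_finsetSum _ fun j _ => iN j), integral_finsetSum _ fun a _ => iE a,
    integral_finsetSum _ fun j _ => iN j]
  unfold TGs
  rw [mul_add, mul_sum, mul_sum]
  refine add_le_add (sum_le_sum fun a _ => ?_) (sum_le_sum fun j _ => ?_)
  · rw [integral_finsetSum _ fun σ _ => (kE a σ).1, mul_sum]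
    refine sum_le_sum fun σ _ => ?_
    rw [hV]
    exact (kE a σ).2.1
  · rw [integral_finsetSum _ fun σ _ => (kN j σ).1, mul_sum]
    refine sum_le_sum fun σ _ => ?_
    rw [hV]
    exact (kN j σ).2.1

private theorem ws_mc {q n k : ℕ} {Λ : Set E3} {ψ : (Fin n → Fin q) → Cfg n k → ℂ}
    (h : Sm q n k Λ ψ) {m : ℕ} {y : Fin m → Cfg n k → E3} (hy : ∀ a, Continuous (y a)) (v : E3) (R : ℝ) :
    mean ψ (fun p => ∑ a, (if ‖y a p - v‖ < R then 1 else 0)) =
      ∑ a, ∑ σ, ∫ p, (if ‖y a p - v‖ < R then ‖ψ σ p‖ ^ 2 else 0) := by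
  unfold mean
  rw [sum_comm]
  refine sum_congr rfl fun σ _ => ?_
  rw [← integral_finsetSum _ fun a _ => ws_iF (Sm_sq h σ).1 (Sm_sq h σ).2 (hy a) v R]
  refine integral_congr_ae (Filter.Eventually.of_forall fun p => ?_)
  beta_reduce
  rw [sum_mul]
  refine sum_congr rfl fun a _ => ?_
  split_ifs
  · rw [one_mul]
  · rw [zero_mul]

private theorem ws_mg {C0 : ℝ} {g : E3 → ℝ} (hg : Wt C0 g) {q n k : ℕ} {Λ : Set E3}
    {ψ : (Fin n → Fin q) → Cfg n k → ℂ}
    (h : Sm q n k Λ ψ) {m : ℕ} {y : Fin m → Cfg n k → E3} (hy : ∀ a, Continuous (y a)) :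
    mean ψ (fun p => ∑ a, g (y a p)) = ∑ a, ∑ σ, ∫ p, g (y a p) * ‖ψ σ p‖ ^ 2 := by
  unfold mean
  rw [sum_comm]
  refine sum_congr rfl fun σ _ => ?_
  rw [← integral_finsetSum _ fun a _ => ws_gF hg (Sm_sq h σ).1 (Sm_sq h σ).2 (hy a)]
  refine integral_congr_ae (Filter.Eventually.of_forall fun p => ?_)
  beta_reduce
  rw [sum_mul]

/-- the weighted mean of the counts -/
private theorem ws_cnt {C0 : ℝ} {g : E3 → ℝ} (hg : Wt C0 g) {q n k : ℕ} {Λ : Set E3}
    {ψ : (Fin n → Fin q) → Cfg n k → ℂ} (h : Sm q n k Λ ψ) {m : ℕ} {y : Fin m → Cfg n k → E3}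
    (hy : ∀ a, Continuous (y a)) (R : ℝ) (hR : 0 < R) (hR8 : R ≤ 8) :
    Integrable (fun v => g v * mean ψ (fun p => ∑ a, (if ‖y a p - v‖ < R then 1 else 0))) ∧
    ∫ v, g v * mean ψ (fun p => ∑ a, (if ‖y a p - v‖ < R then 1 else 0)) ≤
      C0 * (volume : Measure E3).real (Metric.ball 0 R) * mean ψ (fun p => ∑ a, g (y a p)) ∧
    (volume : Measure E3).real (Metric.ball 0 R) * mean ψ (fun p => ∑ a, g (y a p)) ≤
      C0 * ∫ v, g v * mean ψ (fun p => ∑ a, (if ‖y a p - v‖ < R then 1 else 0)) := by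
  have k := fun (a : Fin m) (σ : Fin n → Fin q) => ws_key hg (Sm_sq h σ).1
    (Sm_sq h σ).2 (fun p => sq_nonneg _) (hy a) R hR hR8
  simp only [ws_mc h hy, ws_mg hg h hy]
  have e1 : ∀ v, g v * ∑ a, ∑ σ, ∫ p, (if ‖y a p - v‖ < R then ‖ψ σ p‖ ^ 2 else 0) =
      ∑ a, ∑ σ, g v * ∫ p, (if ‖y a p - v‖ < R then ‖ψ σ p‖ ^ 2 else 0) := by
    intro v
    simp only [mul_sum]
  simp only [e1]
  have iE : ∀ a, Integrable (fun v => ∑ σ, g v *
      ∫ p, (if ‖y a p - v‖ < R then ‖ψ σ p‖ ^ 2 else 0)) := fun a =>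
    integrable_finsetSum _ fun σ _ => (k a σ).1
  refine ⟨integrable_finsetSum _ fun a _ => iE a, ?_, ?_⟩
  · rw [integral_finsetSum _ fun a _ => iE a, mul_sum]
    refine sum_le_sum fun a _ => ?_
    rw [integral_finsetSum _ fun σ _ => (k a σ).1, mul_sum]
    exact sum_le_sum fun σ _ => (k a σ).2.1
  · rw [integral_finsetSum _ fun a _ => iE a, mul_sum, mul_sum]
    refine sum_le_sum fun a _ => ?_
    rw [integral_finsetSum _ fun σ _ => (k a σ).1, mul_sum, mul_sum]
    exact sum_le_sum fun σ _ => (k a σ).2.2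

theorem w_ce (C0 R : ℝ) (hR : 0 < R) (hR8 : R ≤ 8) : ∃ C : ℝ, 0 ≤ C ∧
    ∀ (q n k : ℕ) (Λ : Set E3) (ψ : (Fin n → Fin q) → Cfg n k → ℂ) (_ : Sm q n k Λ ψ)
    (g : E3 → ℝ) (_ : Wt C0 g),
    Integrable (fun v => g v * mean ψ (fun p => ce p v R)) ∧
    Integrable (fun v => g v * mean ψ (fun p => cn p v R)) ∧
    ∫ v, g v * mean ψ (fun p => ce p v R) ≤ C * mean ψ (fun p => ∑ a, g (p.1 a)) ∧
    ∫ v, g v * mean ψ (fun p => cn p v R) ≤ C * mean ψ (fun p => ∑ j, g (p.2 j)) ∧
    mean ψ (fun p => ∑ a, g (p.1 a)) ≤ C * ∫ v, g v * mean ψ (fun p => ce p v R) := by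
  obtain ⟨V, hV⟩ : ∃ V, V = (volume : Measure E3).real (Metric.ball 0 R) := ⟨_, rfl⟩
  have hV0 : 0 < V := by rw [hV]; exact (ws_vol R hR 0).2
  refine ⟨|C0| * V + |C0| / V, by positivity, ?_⟩
  intro q n k Λ ψ h g hg
  have hC1 := ws_one hg
  have hC0 : |C0| = C0 := abs_of_nonneg (by linarith)
  rw [hC0]
  have hE := ws_cnt hg h (y := fun a p => p.1 a) (fun a => ws_ce a) R hR hR8
  have hN := ws_cnt hg h (y := fun j p => p.2 j) (fun j => ws_cn j) R hR hR8
  rw [← hV] at hE hN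
  have hCV : 0 ≤ C0 / V := by positivity
  have hme : 0 ≤ mean ψ (fun p => ∑ a, g (p.1 a)) :=
    mean_nonneg fun _ _ _ => sum_nonneg fun a _ => (hg.pos _).le
  have hmn : 0 ≤ mean ψ (fun p => ∑ j, g (p.2 j)) :=
    mean_nonneg fun _ _ _ => sum_nonneg fun a _ => (hg.pos _).le
  have hI0 : 0 ≤ ∫ v, g v * mean ψ (fun p => ce p v R) :=
    integral_nonneg fun v => mul_nonneg (hg.pos _).le (mean_nonneg fun _ p _ => ce_nonneg p v R)
  refine ⟨hE.1, hN.1, hE.2.1.trans ?_, hN.2.1.trans ?_, ?_⟩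
  · nlinarith [mul_nonneg hCV hme]
  · nlinarith [mul_nonneg hCV hmn]
  · have h1 : V * mean ψ (fun p => ∑ a, g (p.1 a)) ≤
        C0 * ∫ v, g v * mean ψ (fun p => ce p v R) := hE.2.2
    have h2 : mean ψ (fun p => ∑ a, g (p.1 a)) ≤
        C0 / V * ∫ v, g v * mean ψ (fun p => ce p v R) := by
      rw [div_mul_eq_mul_div, le_div_iff₀ hV0]
      linarith
    have h3 : 0 ≤ C0 * V * ∫ v, g v * mean ψ (fun p => ce p v R) :=
      mul_nonneg (by positivity) hI0
    linarith

theorem te_w {C0 : ℝ} {g : E3 → ℝ} (hg : Wt C0 g) {q n k : ℕ} {Λ : Set E3}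
    {ψ : (Fin n → Fin q) → Cfg n k → ℂ} (h : Sm q n k Λ ψ) (y : E3) (R : ℝ) (hR : R ≤ 8) :
    g y * (TE ψ y R + TN ψ y R) ≤ C0 * TGs g ψ := by
  unfold TE TN TGs
  rw [mul_add, mul_add]
  refine add_le_add ?_ ?_
  · rw [mul_sum, mul_sum]
    refine sum_le_sum fun a _ => ?_
    rw [mul_sum, mul_sum]
    refine sum_le_sum fun σ _ => ?_
    exact ws_pt hg (ws_ge q n k h σ a).1 (ws_ge q n k h σ a).2 (fun p => ge_nonneg _ _ _)
      (ws_ce (k := k) a) y R hR
  · rw [mul_sum, mul_sum]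
    refine sum_le_sum fun j _ => ?_
    rw [mul_sum, mul_sum]
    refine sum_le_sum fun σ _ => ?_
    exact ws_pt hg (ws_gn q n k h σ j).1 (ws_gn q n k h σ j).2 (fun p => gn_nonneg _ _ _)
      (ws_cn (n := n) j) y R hR

theorem w_c1 {C0 : ℝ} {g : E3 → ℝ} (hg : Wt C0 g) {n k : ℕ} (p : Cfg n k) (y : E3) (R : ℝ)
    (hR : R ≤ 8) : g y * ce p y R ≤ C0 * ∑ a, g (p.1 a) ∧
    g y * cn p y R ≤ C0 * ∑ j, g (p.2 j) := by
  have hC1 := ws_one hg
  have key : ∀ x : E3, g y * (if ‖x - y‖ < R then 1 else 0) ≤ C0 * g x := by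
    intro x
    split_ifs with h
    · rw [mul_one]
      exact hg.har _ _ (by
        rw [norm_sub_rev]
        linarith)
    · rw [mul_zero]
      exact mul_nonneg (by linarith) (hg.pos _).le
  constructor
  · unfold ce
    rw [mul_sum, mul_sum]
    exact sum_le_sum fun a _ => key _
  · unfold cn
    rw [mul_sum, mul_sum]
    exact sum_le_sum fun a _ => key _

end H6.CX
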