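import Pool.Agent.H6.CX.FbG
import Pool.Agent.H6.CX.QpI
import Pool.Agent.H6.CB.Lt53

/-! The local quantity in the bulk. (1) `∫ v in ball x 1, (phi z p v - pr χ W z p) ^ 2 ≤ ∫ v in ball x 2, ..` and, by `Gs_sum_ge` and `ph_l3` with `s = sc l` (multiply by `Gs θ x l p ^ 2`, sum over `l`; exactly as in the proof of `tloc`, file `Pool/Agent/H6/CB/TLoc.lean`), its mean is at most `C (WW χ θ W z (Ψ i) x + SS θ (Ψ i) x)`; sum over `i`, `fbWG`. (2) `lt53` with `s = 3`: `mM (ce p x 3 ^ (5/3)) ≤ C (TM Ψ x 6 + mM (ce p x 6))`; `fbt0` with `ρ = 6` and `fbKG` at the points of the ball of radius `7` (`closedBall y 22 ⊆ closedBall x 41 ⊆ Λ`); `c_cov` with radius `6`: `mM (ce p x 6) ≤ C K1`. (3) `c_cov` with radius `3`: `mM (cn p x 3) ≤ C K1`. The constant in front of `K1` does not depend on `η` (apply `fbWG`, `fbKG` with `η` divided by a constant). -/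

open MeasureTheory Finset

namespace H6.CX

open H6.CM H6.CB H6.CL H6.CT

private theorem xb_ce_joint {n k : ℕ} (r : ℝ) :
    Measurable (fun u : Cfg n k × E3 => ce u.1 u.2 r) := by
  unfold ce
  refine Finset.measurable_fun_sum _ fun a _ => ?_
  have h1 : Measurable (fun u : Cfg n k × E3 => ‖u.1.1 a - u.2‖) :=
    (((meas_e a).comp measurable_fst).sub measurable_snd).norm
  exact Measurable.ite (measurableSet_lt h1 measurable_const) measurable_const measurable_const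

private theorem xb_sup {n k : ℕ} {f : Cfg n k × E3 → ℝ} (hf : Continuous f) (x : E3) (r : ℝ) :
    ∃ G : Cfg n k → ℝ, Continuous G ∧ ∀ v ∈ Metric.ball x r, ∀ p, |f (p, v)| ≤ G p := by
  have hK : IsCompact (Metric.closedBall x r) := isCompact_closedBall x r
  have h1 : Continuous (fun u : Cfg n k × E3 => |f (u.1, u.2)|) := hf.abs
  have h2 : Continuous (Function.uncurry fun (p : Cfg n k) (v : E3) => |f (p, v)|) := h1
  refine ⟨fun p => sSup ((fun v => |f (p, v)|) '' Metric.closedBall x r), ?_, fun v hv p => ?_⟩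
  · exact hK.continuous_sSup (f := fun p v => |f (p, v)|) h2
  · refine le_csSup ?_ ⟨v, Metric.ball_subset_closedBall hv, rfl⟩
    have h3 : Continuous (fun v => |f (p, v)|) :=
      (hf.comp (continuous_const.prodMk continuous_id)).abs
    exact (hK.image h3).bddAbove

section ex

variable {q n k : ℕ} {Λ : Set E3} {θ χ : E3 → ℝ} (hθ : Cut θ) (hχ : Bump χ)
  {ψ : (Fin n → Fin q) → Cfg n k → ℂ} (hψ : Sm q n k Λ ψ) (x : E3) (l : ℕ) (W : Finset E3)
  (z : Fin k → ℝ)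
include hθ hχ hψ

private theorem xb_sc_pos (l : ℕ) : 0 < sc l := by
  unfold sc
  positivity

omit hχ in
private theorem xb_ss :
    IM ψ (fun p => ∫ v in Metric.ball x 12,
      Gs θ x l p ^ 2 * ((sc l ^ 2)⁻¹ * ce p v (7 * sc l) ^ 2)) ∧
    ∫ v in Metric.ball x 12,
      mean ψ (fun p => Gs θ x l p ^ 2 * ((sc l ^ 2)⁻¹ * ce p v (7 * sc l) ^ 2)) =
    mean ψ (fun p => ∫ v in Metric.ball x 12,
      Gs θ x l p ^ 2 * ((sc l ^ 2)⁻¹ * ce p v (7 * sc l) ^ 2)) := by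
  have h := mean_ball hψ x 12
    (F := fun v p => Gs θ x l p ^ 2 * ((sc l ^ 2)⁻¹ * ce p v (7 * sc l) ^ 2))
    (((((Gs_smooth hθ x l).continuous.measurable).comp measurable_fst).pow_const 2).mul
      (((xb_ce_joint (7 * sc l)).pow_const 2).const_mul _))
    (G := fun _ => (sc l ^ 2)⁻¹ * (n : ℝ) ^ 2) continuous_const (fun v _ p => by
      have h1 := Gs_mem (θ := θ) x l p
      have h2 := ce_nonneg p v (7 * sc l)
      have h3 := ce_le p v (7 * sc l)
      have h4 : (0 : ℝ) ≤ (sc l ^ 2)⁻¹ := by positivity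
      have h5 : ce p v (7 * sc l) ^ 2 ≤ (n : ℝ) ^ 2 := pow_le_pow_left₀ h2 h3 2
      have h6 : Gs θ x l p ^ 2 ≤ 1 := pow_le_one₀ h1.1 h1.2
      rw [abs_of_nonneg (by positivity)]
      calc Gs θ x l p ^ 2 * ((sc l ^ 2)⁻¹ * ce p v (7 * sc l) ^ 2)
          ≤ 1 * ((sc l ^ 2)⁻¹ * (n : ℝ) ^ 2) :=
            mul_le_mul h6 (mul_le_mul_of_nonneg_left h5 h4) (by positivity) zero_le_one
        _ = _ := one_mul _)
  exact ⟨h.2.1, h.2.2⟩

private theorem xb_ww :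
    IM ψ (fun p => ∫ v in Metric.ball x 12, Gs θ x l p ^ 2 * uh χ (sc l) W z p v ^ 2) ∧
    ∫ v in Metric.ball x 12, mean ψ (fun p => Gs θ x l p ^ 2 * uh χ (sc l) W z p v ^ 2) =
    mean ψ (fun p => ∫ v in Metric.ball x 12, Gs θ x l p ^ 2 * uh χ (sc l) W z p v ^ 2) := by
  have hj := uh_joint hχ (n := n) (sc l) (xb_sc_pos hθ hχ hψ l) W z
  have hc : Continuous (fun u : Cfg n k × E3 => Gs θ x l u.1 ^ 2 * uh χ (sc l) W z u.1 u.2 ^ 2) :=
    (((Gs_smooth hθ x l).continuous.comp continuous_fst).pow 2).mul (hj.pow 2)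
  obtain ⟨G, hG, hGF⟩ := xb_sup hc x 12
  have h := mean_ball hψ x 12 (F := fun v p => Gs θ x l p ^ 2 * uh χ (sc l) W z p v ^ 2)
    hc.measurable hG hGF
  exact ⟨h.2.1, h.2.2⟩

private theorem xb_split (p : Cfg n k) :
    Gs θ x l p ^ 2 * ∫ v in Metric.ball x 12,
      (uh χ (sc l) W z p v ^ 2 + (sc l ^ 2)⁻¹ * ce p v (7 * sc l) ^ 2) =
    (∫ v in Metric.ball x 12, Gs θ x l p ^ 2 * uh χ (sc l) W z p v ^ 2) +
    ∫ v in Metric.ball x 12, Gs θ x l p ^ 2 * ((sc l ^ 2)⁻¹ * ce p v (7 * sc l) ^ 2) := by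
  have hj := uh_joint hχ (n := n) (sc l) (xb_sc_pos hθ hχ hψ l) W z
  have h1 : IntegrableOn (fun v => uh χ (sc l) W z p v ^ 2) (Metric.ball x 12) := by
    have hc : Continuous (fun v => uh χ (sc l) W z p v ^ 2) :=
      (hj.comp (continuous_const.prodMk continuous_id)).pow 2
    exact (hc.continuousOn.integrableOn_compact (isCompact_closedBall x 12)).mono_set
      Metric.ball_subset_closedBall
  have h2 : IntegrableOn (fun v => (sc l ^ 2)⁻¹ * ce p v (7 * sc l) ^ 2)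
      (Metric.ball x 12) := by
    have hb : IntegrableOn (fun _ : E3 => (sc l ^ 2)⁻¹ * (n : ℝ) ^ 2) (Metric.ball x 12) :=
      integrableOn_const (hs := measure_ball_lt_top.ne)
    refine hb.mono' ?_ (Filter.Eventually.of_forall fun v => ?_)
    · exact ((((xb_ce_joint (7 * sc l)).comp
        (measurable_const.prodMk measurable_id)).pow_const 2).const_mul _).aestronglyMeasurable
    · have h2 := ce_nonneg p v (7 * sc l)
      have h3 := ce_le p v (7 * sc l)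
      rw [Real.norm_eq_abs, abs_of_nonneg (by positivity)]
      exact mul_le_mul_of_nonneg_left (pow_le_pow_left₀ h2 h3 2) (by positivity)
  rw [integral_add h1 h2, mul_add, ← integral_const_mul, ← integral_const_mul]

end ex

private theorem xb_mean {q n k : ℕ} {Λ : Set E3} {θ χ : E3 → ℝ} (hθ : Cut θ) (hχ : Bump χ)
    {ψ : (Fin n → Fin q) → Cfg n k → ℂ} (hs : Sm q n k Λ ψ) (x : E3) (W : Finset E3)
    (z : Fin k → ℝ) (Cp : ℝ)
    (k5 : ∀ (p : Cfg n k) (s : ℝ) (_ : 0 < s) (_ : s ≤ 1),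
    ∫ v in Metric.ball x 2, (phi z p v - pr χ W z p) ^ 2 ≤
      Cp * ∫ v in Metric.ball x 12, (uh χ s W z p v ^ 2 + (s ^ 2)⁻¹ * ce p v (7 * s) ^ 2)) :
    mean ψ (fun p => Qp z (pr χ W z p) p x) ≤ Cp * (WW χ θ W z ψ x + SS θ ψ x) +
      mean ψ (fun p => ce p x 3 ^ (5 / 3 : ℝ)) + mean ψ (fun p => cn p x 3) := by
  have iH : IM ψ (fun p => ∑ l ∈ range (n + 1),
      ((∫ v in Metric.ball x 12, Gs θ x l p ^ 2 * uh χ (sc l) W z p v ^ 2) +
      ∫ v in Metric.ball x 12, Gs θ x l p ^ 2 * ((sc l ^ 2)⁻¹ * ce p v (7 * sc l) ^ 2))) :=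
    IM.sum _ fun l _ => (xb_ww hθ hχ hs x l W z).1.add (xb_ss hθ hs x l).1
  have eH : mean ψ (fun p => ∑ l ∈ range (n + 1),
      ((∫ v in Metric.ball x 12, Gs θ x l p ^ 2 * uh χ (sc l) W z p v ^ 2) +
      ∫ v in Metric.ball x 12, Gs θ x l p ^ 2 * ((sc l ^ 2)⁻¹ * ce p v (7 * sc l) ^ 2))) =
      WW χ θ W z ψ x + SS θ ψ x := by
    rw [mean_sum _ fun l _ => (xb_ww hθ hχ hs x l W z).1.add (xb_ss hθ hs x l).1]
    unfold WW SS
    rw [← sum_add_distrib]
    refine sum_congr rfl fun l _ => ?_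
    rw [mean_add (xb_ww hθ hχ hs x l W z).1 (xb_ss hθ hs x l).1,
      (xb_ww hθ hχ hs x l W z).2, (xb_ss hθ hs x l).2]
  have hpt : ∀ p : Cfg n k, (∫ v in Metric.ball x 1, (phi z p v - pr χ W z p) ^ 2) ≤
        Cp * ∑ l ∈ range (n + 1),
        ((∫ v in Metric.ball x 12, Gs θ x l p ^ 2 * uh χ (sc l) W z p v ^ 2) +
        ∫ v in Metric.ball x 12, Gs θ x l p ^ 2 * ((sc l ^ 2)⁻¹ * ce p v (7 * sc l) ^ 2)) := by
    intro p
    have c0 : (∫ v in Metric.ball x 1, (phi z p v - pr χ W z p) ^ 2) ≤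
        ∫ v in Metric.ball x 2, (phi z p v - pr χ W z p) ^ 2 :=
      setIntegral_mono_set (phi_sq z p (pr χ W z p) x 2)
        (Filter.Eventually.of_forall fun v => sq_nonneg _)
        (LE.le.eventuallyLE (Metric.ball_subset_ball (by norm_num)))
    refine c0.trans ?_
    have c1 : 0 ≤ ∫ v in Metric.ball x 2, (phi z p v - pr χ W z p) ^ 2 :=
      integral_nonneg fun v => sq_nonneg _
    have c2 := Gs_sum_ge hθ (k := k) x p
    calc (∫ v in Metric.ball x 2, (phi z p v - pr χ W z p) ^ 2)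
        ≤ (∑ l ∈ range (n + 1), Gs θ x l p ^ 2) *
          ∫ v in Metric.ball x 2, (phi z p v - pr χ W z p) ^ 2 :=
          le_mul_of_one_le_left c1 c2
      _ = ∑ l ∈ range (n + 1), Gs θ x l p ^ 2 *
          ∫ v in Metric.ball x 2, (phi z p v - pr χ W z p) ^ 2 := by rw [sum_mul]
      _ ≤ ∑ l ∈ range (n + 1), Cp *
          ((∫ v in Metric.ball x 12, Gs θ x l p ^ 2 * uh χ (sc l) W z p v ^ 2) +
          ∫ v in Metric.ball x 12,
            Gs θ x l p ^ 2 * ((sc l ^ 2)⁻¹ * ce p v (7 * sc l) ^ 2)) := by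
          refine sum_le_sum fun l _ => ?_
          rw [← xb_split hθ hχ hs x l W z p]
          have hsl : sc l ≤ 1 := by
            unfold sc
            exact inv_le_one_of_one_le₀ (one_le_pow₀ (by norm_num))
          have c3 := k5 p (sc l) (xb_sc_pos hθ hχ hs l) hsl
          calc _ ≤ Gs θ x l p ^ 2 * (Cp * ∫ v in Metric.ball x 12,
                (uh χ (sc l) W z p v ^ 2 + (sc l ^ 2)⁻¹ * ce p v (7 * sc l) ^ 2)) :=
                mul_le_mul_of_nonneg_left c3 (sq_nonneg _)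
            _ = _ := by ring
      _ = _ := by rw [mul_sum]
  have i3 := IM_cet hs x 3 (5 / 3) (by norm_num)
  have i4 := IM_cn hs x 3
  have h1 : mean ψ (fun p => Qp z (pr χ W z p) p x) ≤
      mean ψ (fun p => (Cp * ∑ l ∈ range (n + 1),
        ((∫ v in Metric.ball x 12, Gs θ x l p ^ 2 * uh χ (sc l) W z p v ^ 2) +
        ∫ v in Metric.ball x 12, Gs θ x l p ^ 2 * ((sc l ^ 2)⁻¹ * ce p v (7 * sc l) ^ 2)) +
        ce p x 3 ^ (5 / 3 : ℝ)) + cn p x 3) := by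
    refine mean_mono0 (fun p => ?_) (((iH.cmul Cp).add i3).add i4) fun _ p _ => ?_
    · unfold Qp
      have a1 : 0 ≤ ∫ v in Metric.ball x 1, (phi z p v - pr χ W z p) ^ 2 :=
        integral_nonneg fun v => sq_nonneg _
      have a2 := Real.rpow_nonneg (ce_nonneg p x 3) (5 / 3)
      have a3 := cn_nonneg p x 3
      linarith
    · unfold Qp
      have := hpt p
      linarith
  rw [mean_add ((iH.cmul Cp).add i3) i4, mean_add (iH.cmul Cp) i3, mean_cmul, eH] at h1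
  exact h1

theorem xb (q : ℕ) (Ci zm zp : ℝ) (hCi : 0 ≤ Ci) (hzm : 0 < zm) {χ θ : E3 → ℝ} (hχ : Bump χ)
    (hθ : Cut θ) : ∃ C4 : ℝ, 0 ≤ C4 ∧ ∀ (η : ℝ) (_ : 0 < η),
    ∃ C : ℝ, 0 ≤ C ∧ ∀ (ι : Type) (_ : Fintype ι) (n k : ℕ) (Λ : Set E3)
    (z : Fin k → ℝ) (W : Finset E3) (Ψ : ι → (Fin n → Fin q) → Cfg n k → ℂ)
    (_ : Inb Ci zm zp q n k Λ z W χ θ Ψ) (x : E3)
    (_ : Metric.closedBall x 41 ⊆ Λ) (B : ℝ) (_ : ∀ y, Lm Ψ y B)
    (K1 : ℝ) (_ : ∀ v, mM Ψ (fun p => ce p v 1 + cn p v 1) ≤ K1),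
    mM Ψ (fun p => Qp z (pr χ W z p) p x) ≤ η * B + C + C4 * K1 := by
  obtain ⟨Cp, hCp, k5⟩ := ph_l3 zm zp hzm hχ
  obtain ⟨Cw, hCw, kw⟩ := fbWG q Ci zm zp hCi hzm hχ hθ
  obtain ⟨Ck, hCk, kk⟩ := fbKG q Ci zm zp hCi hzm hχ hθ
  obtain ⟨C6, hC6, k6⟩ := fbt0 6 (by norm_num)
  obtain ⟨C5, hC5, kl⟩ := lt53 q
  obtain ⟨t6, -, ht6⟩ := c_cov 6
  obtain ⟨t3, -, ht3⟩ := c_cov 3
  refine ⟨Cp * Cw + C5 * (9 * (C6 * Ck) + t6.card) + t3.card, by positivity, fun η hη => ?_⟩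
  obtain ⟨D1, hD1, kw⟩ := kw (η / (2 * (Cp + 1))) (by positivity)
  obtain ⟨D2, hD2, kk⟩ := kk (η / (2 * (9 * (C5 * C6) + 1))) (by positivity)
  refine ⟨Cp * D1 + C5 * (9 * (C6 * D2)), by positivity, ?_⟩
  intro ι _ n k Λ z W Ψ hI x hx B hB K1 hK1
  have hst := hI.st
  have hsm : ∀ i, Sm q n k Λ (Ψ i) := fun i => St_sm (hst i)
  have hB0 : 0 ≤ B := by
    refine le_trans ?_ (hB 0).t
    exact sum_nonneg fun i _ => add_nonneg (TE_nonneg _ _ _) (TN_nonneg _ _ _)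
  -- numbers of particles
  have hce1 : ∀ v, mM Ψ (fun p => ce p v 1) ≤ K1 := fun v => by
    refine le_trans ?_ (hK1 v)
    refine sum_le_sum fun i _ => mean_mono (IM_ce (hsm i) v 1)
      ((IM_ce (hsm i) v 1).add (IM_cn (hsm i) v 1)) fun _ p _ => ?_
    linarith [cn_nonneg p v 1]
  have hcn1 : ∀ v, mM Ψ (fun p => cn p v 1) ≤ K1 := fun v => by
    refine le_trans ?_ (hK1 v)
    refine sum_le_sum fun i _ => mean_mono (IM_cn (hsm i) v 1)
      ((IM_ce (hsm i) v 1).add (IM_cn (hsm i) v 1)) fun _ p _ => ?_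
    linarith [ce_nonneg p v 1]
  have hce6 : mM Ψ (fun p => ce p x 6) ≤ t6.card * K1 := by
    calc mM Ψ (fun p => ce p x 6) ≤ ∑ i, ∑ c ∈ t6, mean (Ψ i) (fun p => ce p (x + c) 1) := by
          refine sum_le_sum fun i _ => ?_
          rw [← mean_sum _ fun c _ => IM_ce (hsm i) (x + c) 1]
          exact mean_mono (IM_ce (hsm i) x 6) (IM.sum _ fun c _ => IM_ce (hsm i) (x + c) 1)
            fun _ p _ => (ht6 n k p x).1
      _ = ∑ c ∈ t6, mM Ψ (fun p => ce p (x + c) 1) := by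
          rw [sum_comm]
          rfl
      _ ≤ ∑ c ∈ t6, K1 := sum_le_sum fun c _ => hce1 _
      _ = _ := by rw [sum_const, nsmul_eq_mul]
  have hcn3 : mM Ψ (fun p => cn p x 3) ≤ t3.card * K1 := by
    calc mM Ψ (fun p => cn p x 3) ≤ ∑ i, ∑ c ∈ t3, mean (Ψ i) (fun p => cn p (x + c) 1) := by
          refine sum_le_sum fun i _ => ?_
          rw [← mean_sum _ fun c _ => IM_cn (hsm i) (x + c) 1]
          exact mean_mono (IM_cn (hsm i) x 3) (IM.sum _ fun c _ => IM_cn (hsm i) (x + c) 1)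
            fun _ p _ => (ht3 n k p x).2
      _ = ∑ c ∈ t3, mM Ψ (fun p => cn p (x + c) 1) := by
          rw [sum_comm]
          rfl
      _ ≤ ∑ c ∈ t3, K1 := sum_le_sum fun c _ => hcn1 _
      _ = _ := by rw [sum_const, nsmul_eq_mul]
  -- kinetic energy
  have hT6 : TM Ψ x 6 ≤ C6 * (η / (2 * (9 * (C5 * C6) + 1)) * B + D2 + Ck * K1) := by
    refine k6 ι _ q n k Λ Ψ hsm hI.one x _ fun y hy => ?_
    refine kk ι _ n k Λ z W Ψ hI y ?_ B hB K1 hK1
    refine subset_trans ?_ hx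
    refine Metric.closedBall_subset_closedBall' ?_
    rw [Metric.mem_ball] at hy
    linarith
  have hce53 : mM Ψ (fun p => ce p x 3 ^ (5 / 3 : ℝ)) ≤
      C5 * (9 * TM Ψ x 6 + mM Ψ (fun p => ce p x 6)) := by
    have e : C5 * (9 * TM Ψ x 6 + mM Ψ (fun p => ce p x 6)) =
        ∑ i, C5 * (9 * (TE (Ψ i) x 6 + TN (Ψ i) x 6) + mean (Ψ i) (fun p => ce p x 6)) := by
      have e1 : ∀ i, C5 * (9 * (TE (Ψ i) x 6 + TN (Ψ i) x 6) + mean (Ψ i) (fun p => ce p x 6)) =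
          C5 * 9 * (TE (Ψ i) x 6 + TN (Ψ i) x 6) + C5 * mean (Ψ i) (fun p => ce p x 6) :=
        fun i => by ring
      rw [sum_congr rfl fun i _ => e1 i, sum_add_distrib, ← mul_sum, ← mul_sum]
      unfold TM mM
      ring
    rw [e]
    refine sum_le_sum fun i _ => ?_
    have h1 := kl n k Λ (Ψ i) (hst i) x 3 (by norm_num)
    norm_num at h1
    refine h1.trans ?_
    refine mul_le_mul_of_nonneg_left ?_ hC5
    have h2 := TN_nonneg (Ψ i) x 6
    linarith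
  -- the potential
  have hW := kw ι _ n k Λ z W Ψ hI x ((Metric.closedBall_subset_closedBall (by norm_num)).trans hx)
    B hB K1 hK1
  have hQ : mM Ψ (fun p => Qp z (pr χ W z p) p x) ≤ Cp * (WM χ θ W z Ψ x + SM θ Ψ x) +
      mM Ψ (fun p => ce p x 3 ^ (5 / 3 : ℝ)) + mM Ψ (fun p => cn p x 3) := by
    have e : Cp * (WM χ θ W z Ψ x + SM θ Ψ x) +
      mM Ψ (fun p => ce p x 3 ^ (5 / 3 : ℝ)) + mM Ψ (fun p => cn p x 3) =
        ∑ i, (Cp * (WW χ θ W z (Ψ i) x + SS θ (Ψ i) x) +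
      mean (Ψ i) (fun p => ce p x 3 ^ (5 / 3 : ℝ)) + mean (Ψ i) (fun p => cn p x 3)) := by
      unfold WM SM mM
      rw [sum_add_distrib, sum_add_distrib, ← mul_sum, sum_add_distrib (f := fun i =>
        WW χ θ W z (Ψ i) x)]
    rw [e]
    exact sum_le_sum fun i _ => xb_mean hθ hχ (hsm i) x W z Cp
      fun p s hs hs1 => k5 n k z hI.hz W p x s hs hs1
  have g1 := mul_le_mul_of_nonneg_left hW hCp
  have g2 := mul_le_mul_of_nonneg_left (add_le_add (mul_le_mul_of_nonneg_left hT6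
    (by norm_num : (0 : ℝ) ≤ 9)) hce6) hC5
  have g3 : Cp * (η / (2 * (Cp + 1)) * B) ≤ η / 2 * B := by
    have e : Cp * (η / (2 * (Cp + 1)) * B) = (Cp / (Cp + 1)) * (η / 2 * B) := by
      field_simp
    rw [e]
    have : Cp / (Cp + 1) ≤ 1 := by
      rw [div_le_one (by positivity)]
      linarith
    exact mul_le_of_le_one_left (by positivity) this
  have g4 : C5 * (9 * (C6 * (η / (2 * (9 * (C5 * C6) + 1)) * B))) ≤ η / 2 * B := by
    have e : C5 * (9 * (C6 * (η / (2 * (9 * (C5 * C6) + 1)) * B))) =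
        ((9 * (C5 * C6)) / (9 * (C5 * C6) + 1)) * (η / 2 * B) := by
      field_simp
    rw [e]
    have : (9 * (C5 * C6)) / (9 * (C5 * C6) + 1) ≤ 1 := by
      rw [div_le_one (by positivity)]
      linarith
    exact mul_le_of_le_one_left (by positivity) this
  nlinarith [hQ, hce53, hcn3, g1, g2, g3, g4]

end H6.CX
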